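import Pool.Agent.Lib.MP_7c08ba_nt.CN.T.StP
import Pool.Agent.Lib.MP_7c08ba_nt.RZ.C.Adapt
import Pool.Agent.Lib.MP_7c08ba_nt.RZ.C.Basis

set_option autoImplicit false

/-! (C1) adapted bases of the `D`-lattices for a prime of norm 2. -/

namespace Pool.Agent.Lib.MP_7c08ba_nt.CN.TW

open NumberField RZC RZC.Adapt
open scoped ComplexConjugate

namespace AdaptTAux

lemma pos_iff {u v : ℂ} : Pos u v ↔ 0 < (u * conj v).im := by
  unfold Pos
  by_cases hv : v = 0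
  · subst hv
    simp
  · have h : 0 < Complex.normSq v := Complex.normSq_pos.2 hv
    have e : (u / v).im = (u * conj v).im / Complex.normSq v := by
      rw [Complex.div_im, Complex.mul_im, Complex.conj_re, Complex.conj_im]
      ring
    rw [e, div_pos_iff_of_pos_right h]

/-- the elements `n` with `m x + n y` in `N` for some `m` -/
def sec (N : Submodule ℤ ℂ) (x y : ℂ) : Submodule ℤ ℤ where
  carrier := {n | ∃ m : ℤ, (m : ℂ) * x + n * y ∈ N}
  add_mem' := by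
    rintro a b ⟨m, hm⟩ ⟨m', hm'⟩
    refine ⟨m + m', ?_⟩
    have := N.add_mem hm hm'
    convert this using 1
    push_cast
    ring
  zero_mem' := ⟨0, by simp⟩
  smul_mem' := by
    rintro c a ⟨m, hm⟩
    refine ⟨c * m, ?_⟩
    have := int_mul_mem hm c
    convert this using 1
    rw [smul_eq_mul]
    push_cast
    ring

lemma pos_gen (A : Submodule ℤ ℤ) {D : ℤ} (hD : D ≠ 0) (h : D ∈ A) :
    ∃ a : ℤ, 0 < a ∧ a ∈ A ∧ ∀ n ∈ A, ∃ k : ℤ, n = k * a := by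
  obtain ⟨a, ha⟩ := (IsPrincipalIdealRing.principal (A : Ideal ℤ)).principal
  have hmem : ∀ n : ℤ, n ∈ A ↔ ∃ k : ℤ, k * a = n := by
    intro n
    rw [ha]
    exact Submodule.mem_span_singleton
  have ha0 : a ≠ 0 := by
    rintro rfl
    obtain ⟨k, hk⟩ := (hmem D).1 h
    apply hD
    rw [← hk, mul_zero]
  rcases lt_or_gt_of_ne ha0 with h1 | h1
  · refine ⟨-a, by omega, (hmem _).2 ⟨-1, by ring⟩, fun n hn => ?_⟩
    obtain ⟨k, hk⟩ := (hmem n).1 hn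
    exact ⟨-k, by rw [← hk]; ring⟩
  · refine ⟨a, h1, (hmem _).2 ⟨1, by ring⟩, fun n hn => ?_⟩
    obtain ⟨k, hk⟩ := (hmem n).1 hn
    exact ⟨k, hk.symm⟩

/-- a subgroup of a lattice which contains a multiple of it has an oriented basis -/
lemma hermite {N : Submodule ℤ ℂ} {x y : ℂ} (hp : Pos x y) (hN : N ≤ lat x y) {D : ℤ}
    (hD : D ≠ 0) (hDx : (D : ℂ) * x ∈ N) (hDy : (D : ℂ) * y ∈ N) :
    ∃ u v : ℂ, Pos u v ∧ N = lat u v := by
  obtain ⟨a, ha0, ⟨m0, ha⟩, hag⟩ := pos_gen (sec N x y) hD ⟨0, by simpa using hDy⟩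
  obtain ⟨b, hb0, ⟨m1, hb⟩, hbg⟩ := pos_gen (sec N 0 x) hD ⟨0, by simpa using hDx⟩
  have hb' : (b : ℂ) * x ∈ N := by simpa using hb
  refine ⟨b * x, m0 * x + a * y, ?_, le_antisymm (fun z hz => ?_) (lat_le hb' ha)⟩
  · rw [pos_iff] at hp ⊢
    have e : ((b : ℂ) * x * conj ((m0 : ℂ) * x + a * y)).im = (b * a : ℝ) * (x * conj y).im := by
      simp only [Complex.mul_im, Complex.mul_re, Complex.add_re, Complex.add_im, Complex.conj_re,
        Complex.conj_im, Complex.intCast_re, Complex.intCast_im]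
      ring
    rw [e]
    have h1 : (0 : ℝ) < b := by exact_mod_cast hb0
    have h2 : (0 : ℝ) < a := by exact_mod_cast ha0
    positivity
  · obtain ⟨m, n, rfl⟩ := mem_lat.1 (hN hz)
    obtain ⟨k, rfl⟩ := hag n ⟨m, hz⟩
    have h3 : ((m - k * m0 : ℤ) : ℂ) * x ∈ N := by
      have := N.sub_mem hz (int_mul_mem ha k)
      convert this using 1
      push_cast
      ring
    obtain ⟨l, hl⟩ := hbg (m - k * m0) ⟨0, by simpa using h3⟩
    refine mem_lat.2 ⟨l, k, ?_⟩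
    have hl' : (m : ℂ) - k * m0 = l * b := by exact_mod_cast hl
    push_cast
    linear_combination -x * hl'

lemma two_mul_mem {N L : Submodule ℤ ℂ}
    (h : N.toAddSubgroup.relIndex L.toAddSubgroup = 2) {z : ℂ} (hz : z ∈ L) : 2 * z ∈ N := by
  by_cases hzN : z ∈ N
  · rw [two_mul]
    exact N.add_mem hzN hzN
  · rw [two_mul]
    exact add_mem_of_two h hz hz hzN hzN

lemma not_le {N L K : Submodule ℤ ℂ} {D : ℕ} (hD : Odd D)
    (h : N.toAddSubgroup.relIndex L.toAddSubgroup = 2) (hK : ∀ z ∈ L, (D : ℂ) * z ∈ K) :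
    ¬ K ≤ N := by
  intro hle
  apply not_le_of_two h
  intro z hz
  obtain ⟨k, hk⟩ := hD
  have h1 := hle (hK z hz)
  have h2 := int_mul_mem (two_mul_mem h hz) (k : ℤ)
  have h3 := N.sub_mem h1 h2
  convert h3 using 1
  rw [hk]
  push_cast
  ring

lemma idx {N L K : Submodule ℤ ℂ} {D : ℕ} (hD : Odd D)
    (h : N.toAddSubgroup.relIndex L.toAddSubgroup = 2) (hK : ∀ z ∈ L, (D : ℂ) * z ∈ K)
    (hKL : K ≤ L) : (N ⊓ K).toAddSubgroup.relIndex K.toAddSubgroup = 2 := by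
  have e : (N ⊓ K).toAddSubgroup = N.toAddSubgroup ⊓ K.toAddSubgroup := rfl
  rw [e, AddSubgroup.inf_relIndex_right]
  have h0 : N.toAddSubgroup.relIndex L.toAddSubgroup ≠ 0 := by rw [h]; norm_num
  have h1 : N.toAddSubgroup.relIndex K.toAddSubgroup ≤ 2 := by
    rw [← h]
    exact AddSubgroup.relIndex_le_of_le_right hKL h0
  have h2 : N.toAddSubgroup.relIndex K.toAddSubgroup ≠ 0 :=
    fun h4 => h0 (AddSubgroup.relIndex_eq_zero_of_le_right hKL h4)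
  have h3 : N.toAddSubgroup.relIndex K.toAddSubgroup ≠ 1 := by
    intro h4
    exact not_le hD h hK (AddSubgroup.relIndex_eq_one.1 h4)
  omega

section

variable {F : Type} [Field F] [NumberField F]

/-- the image of `latD D a` -/
noncomputable def img (D : ℕ) (σ : F →+* ℂ) (a : Ideal (𝓞 F)) : Submodule ℤ ℂ where
  carrier := {z | ∃ x ∈ latD D a, σ (x : F) = z}
  add_mem' := by
    rintro _ _ ⟨x, ⟨hx, c, u, hu⟩, rfl⟩ ⟨y, ⟨hy, d, v, hv⟩, rfl⟩
    refine ⟨x + y, ⟨a.add_mem hx hy, c + d, u + v, ?_⟩, ?_⟩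
    · push_cast
      linear_combination hu + hv
    · rw [← map_add]
      rfl
  zero_mem' := ⟨0, ⟨a.zero_mem, 0, by simp⟩, by
    rw [show ((0 : 𝓞 F) : F) = 0 from rfl, map_zero]⟩
  smul_mem' := by
    rintro n _ ⟨x, ⟨hx, c, u, hu⟩, rfl⟩
    refine ⟨(n : 𝓞 F) * x, ⟨a.mul_mem_left _ hx, n * c, n * u, ?_⟩, ?_⟩
    · push_cast
      linear_combination (n : 𝓞 F) * hu
    · rw [zsmul_eq_mul, ← map_intCast σ n, ← map_mul]
      congr 1

lemma mem_img {D : ℕ} {σ : F →+* ℂ} {a : Ideal (𝓞 F)} {z : ℂ} :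
    z ∈ img D σ a ↔ ∃ x ∈ latD D a, σ (x : F) = z := Iff.rfl

omit [NumberField F] in
lemma cast_inj {σ : F →+* ℂ} {x y : 𝓞 F} (h : σ (x : F) = σ (y : F)) : x = y :=
  RingOfIntegers.ext (σ.injective h)

omit [NumberField F] in
lemma cast_mul (σ : F →+* ℂ) (D : ℕ) (x : 𝓞 F) :
    σ (((D : 𝓞 F) * x : 𝓞 F) : F) = (D : ℂ) * σ (x : F) := by
  have e : (((D : 𝓞 F) * x : 𝓞 F) : F) = (D : F) * (x : F) := by
    change algebraMap (𝓞 F) F ((D : 𝓞 F) * x) = _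
    rw [map_mul, map_natCast]
  rw [e, map_mul, map_natCast]

lemma img_le {D : ℕ} {σ : F →+* ℂ} {a : Ideal (𝓞 F)} {x y : ℂ} (h : IsB σ a x y) :
    img D σ a ≤ lat x y := by
  rintro _ ⟨t, ht, rfl⟩
  exact (h.2 _).2 ⟨t, ht.1, rfl⟩

lemma mul_mem_img {D : ℕ} {σ : F →+* ℂ} {a : Ideal (𝓞 F)} {x y : ℂ} (h : IsB σ a x y) :
    ∀ z ∈ lat x y, (D : ℂ) * z ∈ img D σ a := by
  intro z hz
  obtain ⟨t, ht, rfl⟩ := (h.2 _).1 hz
  exact ⟨(D : 𝓞 F) * t, ⟨a.mul_mem_left _ ht, 0, by simp⟩, cast_mul σ D t⟩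

lemma inf_img {D : ℕ} {σ : F →+* ℂ} {a b : Ideal (𝓞 F)} (hab : b ≤ a) {x y : ℂ}
    (h : IsB σ b x y) : img D σ b = lat x y ⊓ img D σ a := by
  apply le_antisymm
  · rintro _ ⟨t, ht, rfl⟩
    exact ⟨(h.2 _).2 ⟨t, ht.1, rfl⟩, t, ⟨hab ht.1, ht.2⟩, rfl⟩
  · rintro z ⟨h1, t, ht, rfl⟩
    obtain ⟨t', ht', h2⟩ := (h.2 _).1 h1
    obtain rfl := cast_inj h2
    exact ⟨t', ⟨ht', ht.2⟩, rfl⟩

end

end AdaptTAux

open AdaptTAux in
/-- (C1) adapted bases for a prime of norm 2 -/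
theorem stAdaptT (hR : StRg) : StAdaptT := by
  intro q F _ _ s D σ P b hF hD hP hN hb
  have h := RZC.stBasis
  have hD0 : D ≠ 0 := hD.sqf.ne_zero
  have hodd : Odd D := by
    rw [← Nat.not_even_iff_odd, even_iff_two_dvd]
    intro h2
    have := hD.mod4 2 Nat.prime_two h2
    omega
  have hP0 : P ≠ ⊥ := by
    rintro rfl
    rw [Ideal.absNorm_bot] at hN
    exact absurd hN (by norm_num)
  have hPm : P ∈ idp (F := F) D := by
    refine ((hR F inferInstance inferInstance D hD0).2.2 P).2 ⟨hP0, ?_⟩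
    rw [hN]
    exact (Nat.coprime_two_left).2 hodd
  refine ⟨hPm, ?_⟩
  have hb0 : b ≠ ⊥ := hb.1
  have hb1 : P * b ≠ ⊥ := mul_ne_zero hP0 hb0
  have hb2 : P ^ 2 * b ≠ ⊥ := mul_ne_zero (pow_ne_zero 2 hP0) hb0
  have htop : (⊤ : Ideal (𝓞 F)) ≠ ⊥ := top_ne_bot
  obtain ⟨⟨v₁, v₂, hv⟩, -⟩ := h q F (s : F) hF σ ⊤ htop
  obtain ⟨⟨x, y, h0⟩, c0⟩ := h q F (s : F) hF σ b hb0
  obtain ⟨⟨x₁, y₁, h1⟩, c1⟩ := h q F (s : F) hF σ (P * b) hb1
  obtain ⟨⟨x₂, y₂, h2⟩, c2⟩ := h q F (s : F) hF σ (P ^ 2 * b) hb2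
  have j0 := ((c0 x y h0).2 v₁ v₂ hv)
  have j1 := ((c1 x₁ y₁ h1).2 v₁ v₂ hv)
  have j2 := ((c2 x₂ y₂ h2).2 v₁ v₂ hv)
  have s1 : P * b ≤ b := Ideal.mul_le_right
  have s2 : P ^ 2 * b ≤ P * b := by
    rw [pow_two, mul_assoc]
    exact Ideal.mul_le_right
  have l1 : lat x₁ y₁ ≤ lat x y := by
    intro z hz
    obtain ⟨t, ht, rfl⟩ := (h1.2 z).1 hz
    exact (h0.2 _).2 ⟨t, s1 ht, rfl⟩
  have l2 : lat x₂ y₂ ≤ lat x₁ y₁ := by
    intro z hz
    obtain ⟨t, ht, rfl⟩ := (h2.2 z).1 hz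
    exact (h1.2 _).2 ⟨t, s2 ht, rfl⟩
  have hbN : Ideal.absNorm b ≠ 0 := by
    rw [Ne, Ideal.absNorm_eq_zero_iff]
    exact hb0
  have n1 : Ideal.absNorm (P * b) = 2 * Ideal.absNorm b := by rw [map_mul, hN]
  have n2 : Ideal.absNorm (P ^ 2 * b) = 2 * (2 * Ideal.absNorm b) := by
    rw [map_mul, map_pow, hN]
    ring
  have i1 : (lat x₁ y₁).toAddSubgroup.relIndex (lat x y).toAddSubgroup = 2 := by
    have := AddSubgroup.relIndex_mul_relIndex (lat x₁ y₁).toAddSubgroup (lat x y).toAddSubgroup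
      (lat v₁ v₂).toAddSubgroup l1 j0.1
    rw [j0.2, j1.2, n1] at this
    exact Nat.eq_of_mul_eq_mul_right (Nat.pos_of_ne_zero hbN) this
  have i2 : (lat x₂ y₂).toAddSubgroup.relIndex (lat x₁ y₁).toAddSubgroup = 2 := by
    have := AddSubgroup.relIndex_mul_relIndex (lat x₂ y₂).toAddSubgroup
      (lat x₁ y₁).toAddSubgroup (lat v₁ v₂).toAddSubgroup l2 j1.1
    rw [j1.2, j2.2, n1, n2] at this
    exact Nat.eq_of_mul_eq_mul_right (by have := Nat.pos_of_ne_zero hbN; positivity) this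
  have hc : ∃ z ∈ lat x y, 2 * z ∉ lat x₂ y₂ := by
    by_contra hcon
    push Not at hcon
    apply two_not_mem h hF σ hP hN
    have hdvd : P ^ 2 * b ∣ Ideal.span {(2 : 𝓞 F)} * b := by
      rw [Ideal.dvd_iff_le, Ideal.span_singleton_mul_le_iff]
      intro z hz
      have h3 := hcon (σ (z : F)) ((h0.2 _).2 ⟨z, hz, rfl⟩)
      obtain ⟨t, ht, h4⟩ := (h2.2 _).1 h3
      have h5 : t = 2 * z := by
        apply cast_inj (σ := σ)
        rw [h4]
        have := cast_mul σ 2 z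
        push_cast at this
        exact this.symm
      rw [← h5]
      exact ht
    rw [mul_dvd_mul_iff_right (show b ≠ 0 from hb0), Ideal.dvd_span_singleton] at hdvd
    exact hdvd
  -- the lattices of the elements congruent to rational integers
  have m0 := mul_mem_img (D := D) h0
  have m1 := mul_mem_img (D := D) h1
  obtain ⟨a₁, a₂, hpa, ha⟩ := hermite (D := (D : ℤ)) h0.1 (img_le (D := D) h0)
    (by exact_mod_cast hD0) (by simpa using m0 x (left_mem x y))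
    (by simpa using m0 y (right_mem x y))
  have e1 := inf_img (D := D) s1 h1
  have e2 := inf_img (D := D) s2 h2
  have k1 : img D σ (P * b) ≤ lat a₁ a₂ := by
    rw [← ha, e1]
    exact inf_le_right
  have k2 : img D σ (P ^ 2 * b) ≤ img D σ (P * b) := by
    rw [e2]
    exact inf_le_right
  have r1 : (img D σ (P * b)).toAddSubgroup.relIndex (lat a₁ a₂).toAddSubgroup = 2 := by
    rw [← ha, e1]
    exact idx hodd i1 m0 (img_le h0)
  have r2 : (img D σ (P ^ 2 * b)).toAddSubgroup.relIndex (img D σ (P * b)).toAddSubgroup = 2 := by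
    rw [e2]
    exact idx hodd i2 m1 (img_le h1)
  have hc' : ∃ z ∈ lat a₁ a₂, 2 * z ∉ img D σ (P ^ 2 * b) := by
    obtain ⟨z, hz, hz2⟩ := hc
    refine ⟨(D : ℂ) * z, by rw [← ha]; exact m0 z hz, fun hcon => hz2 ?_⟩
    have h3 := img_le h2 hcon
    obtain ⟨k, hk⟩ := hodd
    have h4 := int_mul_mem (two_mul_mem i2 (two_mul_mem i1 hz)) (k : ℤ)
    have h5 := (lat x₂ y₂).sub_mem h3 h4
    convert h5 using 1
    rw [hk]
    push_cast
    ring
  obtain ⟨u, v, f0, f1, f2⟩ := four_step k1 k2 r1 r2 hc'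
  have hne := im_ne hpa f0
  have hsign : ∃ u' : ℂ, (∀ t : ℂ, lat u' t = lat u t) ∧ Pos u' v := by
    rcases lt_or_gt_of_ne hne with h3 | h3
    · refine ⟨-u, fun t => lat_neg u t, ?_⟩
      unfold Pos
      rw [neg_div, Complex.neg_im]
      linarith
    · exact ⟨u, fun t => rfl, h3⟩
  obtain ⟨u', hu', hpos⟩ := hsign
  have p4 : Pos u' (4 * v) := by
    have := hpos.scale (r := 1 / 4) (by norm_num)
    convert this using 1
    push_cast
    ring
  refine ⟨u', 4 * v, ⟨p4, fun z => ?_⟩, ⟨p4.half, fun z => ?_⟩, ⟨p4.quarter, fun z => ?_⟩⟩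
  · rw [hu', ← f2]
    exact mem_img
  · rw [show 4 * v / 2 = 2 * v by ring, hu', ← f1]
    exact mem_img
  · rw [show 4 * v / 4 = v by ring, hu', f0, ← ha]
    exact mem_img

end Pool.Agent.Lib.MP_7c08ba_nt.CN.TW
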