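import Pool.Agent.Lib.MP_7c08ba_nt.CN.T.StZ

set_option autoImplicit false

/-!
Project TW, statements of the modules on theta series.  One module = one file
`CN/T/<Name>.lean` proving `theorem st<Name> : St<Name>`, with earlier statements as hypotheses.
-/

namespace Pool.Agent.Lib.MP_7c08ba_nt.CN.TW

open NumberField IsDedekindDomain Polynomial Pool.Agent.Lib.MP_7c08ba_nt.RZ
open scoped nonZeroDivisors ComplexConjugate MatrixGroups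

section

variable {F : Type} [Field F] [NumberField F]

/-- Theta series with Laguerre polynomials of the lattices of the elements congruent to rational
integers modulo `D`. -/
noncomputable def thD (D : ℕ) (σ : F →+* ℂ) (b : Ideal (𝓞 F)) (n : ℕ) (u : ℂ) : ℂ :=
  ((u.im : ℂ) ^ n)⁻¹ * ∑' x : latD D b, lag n (4 * Real.pi * Qa σ b x * u.im) * ee (Qa σ b x * u)

/-- The terms of the central value, `u = X / (q D² β)`. -/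
noncomputable def GT (q D : ℕ) (σ : F →+* ℂ) (n : ℕ) (φ : Ideal (𝓞 F) →*₀ ℂ)
    (a b : Ideal (𝓞 F)) (X : 𝓞 F) (β : ℕ) : ℂ :=
  (φ a)⁻¹ * φ (Ideal.span {(β : 𝓞 F)}) * ((σ X / (q * D ^ 2 * β)).im : ℂ) ^ (2 * n + 1) *
    conj (thD D σ b n (σ X / (q * D ^ 2 * β)))

/-- The terms of the central value for odd `n`. -/
noncomputable def GTO (q D : ℕ) (σ : F →+* ℂ) (n : ℕ) (φ : Ideal (𝓞 F) →*₀ ℂ)
    (a b : Ideal (𝓞 F)) (X : 𝓞 F) (β : ℕ) : ℂ :=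
  (φ a)⁻¹ * φ (Ideal.span {(β : 𝓞 F)}) * ((σ X / (q * D ^ 2 * β)).im : ℂ) ^ (2 * n + 1) *
    conj (2 * 4 ^ n * thD D σ b n (4 * (σ X / (q * D ^ 2 * β))) -
      thD D σ b n (σ X / (q * D ^ 2 * β) + 1 / 2))

/-- The data of a pair of coprime norms, see `PD` in `CN/StAn.lean`. -/
structure PDT (q D : ℕ) (s : 𝓞 F) (e d₁ d₂ : ℕ) (b a ω : ℤ) (g ga : 𝓞 F) : Prop where
  epos : 1 ≤ e
  odd₁ : Odd d₁
  odd₂ : Odd d₂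
  cop : d₁.Coprime d₂
  cq₁ : d₁.Coprime (q * D)
  cq₂ : d₂.Coprime (q * D)
  dvd : (8 * 2 ^ e * ((d₁ : ℤ) * d₂) ^ 2 : ℤ) ∣ b ^ 2 + q * D ^ 2
  qb : (q : ℤ) ∣ b
  two : 2 * g = b + D * s
  om₁ : (2 * d₁ : ℤ) ∣ ω - 1
  om₂ : (2 * d₂ : ℤ) ∣ ω + 1
  qa : (q * D ^ 2 : ℤ) ∣ a
  ab : (2 * (d₁ * d₂) : ℤ) ∣ a - ω * b
  two' : 2 * ga = a + D * s

end

/-- (T1) convergence and transformation of the theta series; dependence on the class only -/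
def StThT : Prop :=
  ∀ (q : ℕ) (F : Type) (_ : Field F) (_ : NumberField F) (s : 𝓞 F) (σ : F →+* ℂ)
    (χ : DirichletCharacter ℂ q) (cj : 𝓞 F ≃+* 𝓞 F) (D n : ℕ) (b : Ideal (𝓞 F)),
    Dat q s σ χ cj → TwA q D → b ∈ idp (F := F) D →
    (∀ u : ℂ, 0 < u.im → Summable fun x : latD D b =>
      ‖lag n (4 * Real.pi * Qa σ b x * u.im) * ee (Qa σ b x * u)‖) ∧
    (∀ (γ : SL(2, ℤ)) (u : ℂ), 0 < u.im → (q * D ^ 2 : ℤ) ∣ γ 1 0 →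
      thD D σ b n (((γ 0 0 : ℂ) * u + γ 0 1) / ((γ 1 0 : ℂ) * u + γ 1 1)) =
        (jacobiSym (γ 1 1) q : ℂ) * ((γ 1 0 : ℂ) * u + γ 1 1) ^ (2 * n + 1) * thD D σ b n u) ∧
    (∀ b' ∈ idp (F := F) D, cl D b = cl D b' → ∀ u : ℂ, thD D σ b n u = thD D σ b' n u)

/-- (T2) sums over the principal genus as sums over the class group -/
def StCntT : Prop :=
  ∀ (q : ℕ) (F : Type) (_ : Field F) (_ : NumberField F) (s : 𝓞 F) (σ : F →+* ℂ)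
    (χ : DirichletCharacter ℂ q) (cj : 𝓞 F ≃+* 𝓞 F) (D : ℕ) (c : Reps σ)
    (R : GC F D → Ideal (𝓞 F)) (f : ℕ → ℂ), Dat q s σ χ cj → TwA q D →
    (∀ C, (c.R C : Ideal (𝓞 F)) ∈ idp (F := F) D) → (∀ A, R A ∈ idp (F := F) D) →
    (∀ A, cl D (R A) = A.1) →
    (∀ C, Summable fun x : (c.R C : Ideal (𝓞 F)) => ‖f (Ideal.absNorm (Ideal.span {(x : 𝓞 F)}) /
      Ideal.absNorm (c.R C : Ideal (𝓞 F)))‖) →
    ∑ᶠ B : GC F D, ∑' x : latD D (R B), f (Ideal.absNorm (Ideal.span {(x : 𝓞 F)}) /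
        Ideal.absNorm (R B)) =
      ∑ C : ClassGroup (𝓞 F), ∑' x : (c.R C : Ideal (𝓞 F)),
        wN D ((Ideal.absNorm (Ideal.span {(x : 𝓞 F)}) / Ideal.absNorm (c.R C : Ideal (𝓞 F)) :
          ℕ) : ℤ) * f (Ideal.absNorm (Ideal.span {(x : 𝓞 F)}) /
            Ideal.absNorm (c.R C : Ideal (𝓞 F)))

/-- (T3) the sum of the theta series over the principal genus -/
def StGenE : Prop :=
  ∀ (q : ℕ) (F : Type) (_ : Field F) (_ : NumberField F) (s : 𝓞 F) (σ : F →+* ℂ)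
    (χ : DirichletCharacter ℂ q) (cj : 𝓞 F ≃+* 𝓞 F) (D n : ℕ) (c : Reps σ)
    (R : GC F D → Ideal (𝓞 F)) (u : ℂ), Dat q s σ χ cj → TwA q D →
    (∀ C, (c.R C : Ideal (𝓞 F)) ∈ idp (F := F) D) → (∀ A, R A ∈ idp (F := F) D) →
    (∀ A, cl D (R A) = A.1) → 0 < u.im →
    ∑ᶠ B : GC F D, thD D σ (R B) n u = ∑ j ∈ Finset.range D, wH D j *
      ∑ C : ClassGroup (𝓞 F), thl σ (c.R C : Ideal (𝓞 F)) n (u + j / D)

/-- (T4) the same for the combination for odd `n` -/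
def StGenO : Prop :=
  ∀ (q : ℕ) (F : Type) (_ : Field F) (_ : NumberField F) (s : 𝓞 F) (σ : F →+* ℂ)
    (χ : DirichletCharacter ℂ q) (cj : 𝓞 F ≃+* 𝓞 F) (D n : ℕ) (c : Reps σ)
    (R : GC F D → Ideal (𝓞 F)) (u : ℂ), Dat q s σ χ cj → TwA q D →
    (∀ C, (c.R C : Ideal (𝓞 F)) ∈ idp (F := F) D) → (∀ A, R A ∈ idp (F := F) D) →
    (∀ A, cl D (R A) = A.1) → 0 < u.im →
    ∑ᶠ B : GC F D, (2 * 4 ^ n * thD D σ (R B) n (4 * u) - thD D σ (R B) n (u + 1 / 2)) =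
      ∑ j ∈ Finset.range D, wH D j * ∑ C : ClassGroup (𝓞 F),
        (2 * 4 ^ n * thl σ (c.R C : Ideal (𝓞 F)) n (4 * (u + j / D)) -
          thl σ (c.R C : Ideal (𝓞 F)) n (u + j / D + 1 / 2))

/-- (T5) the terms depend on the classes only -/
def StInvT : Prop :=
  ∀ (q : ℕ) (F : Type) (_ : Field F) (_ : NumberField F) (s : 𝓞 F) (σ : F →+* ℂ)
    (χ : DirichletCharacter ℂ q) (cj : 𝓞 F ≃+* 𝓞 F) (D n : ℕ) (φ : Ideal (𝓞 F) →*₀ ℂ)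
    (a a' b b' : Ideal (𝓞 F)) (X X' : 𝓞 F) (α α' : ℤ) (β β' : ℕ), Dat q s σ χ cj →
    TwA q D → IsCan q s σ (2 * n + 1) φ → RP q D s a X α β → RP q D s a' X' α' β' →
    b ∈ idp (F := F) D → b' ∈ idp (F := F) D → cl D a = cl D a' → cl D b = cl D b' →
    GT q D σ n φ a b X β = GT q D σ n φ a' b' X' β'

/-- (T6) the same for odd `n`, for squares of ideals -/
def StInvTO : Prop :=
  ∀ (q : ℕ) (F : Type) (_ : Field F) (_ : NumberField F) (s : 𝓞 F) (σ : F →+* ℂ)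
    (χ : DirichletCharacter ℂ q) (cj : 𝓞 F ≃+* 𝓞 F) (D n : ℕ) (φ : Ideal (𝓞 F) →*₀ ℂ)
    (a a' c c' b b' : Ideal (𝓞 F)) (X X' : 𝓞 F) (α α' : ℤ) (β β' : ℕ), Dat q s σ χ cj →
    TwA q D → IsCanO q s σ (2 * n + 1) φ → RP q D s a X α β → RP q D s a' X' α' β' →
    a = c ^ 2 → a' = c' ^ 2 → b ∈ idp (F := F) D → b' ∈ idp (F := F) D → cl D a = cl D a' →
    cl D b = cl D b' → GTO q D σ n φ a b X β = GTO q D σ n φ a' b' X' β'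

/-- (T7) existence of the auxiliary numbers -/
def StOmT : Prop :=
  ∀ (q : ℕ) (F : Type) (_ : Field F) (_ : NumberField F) (s : 𝓞 F) (σ : F →+* ℂ)
    (χ : DirichletCharacter ℂ q) (cj : 𝓞 F ≃+* 𝓞 F) (D e d₁ d₂ : ℕ) (b : ℤ) (g : 𝓞 F),
    Dat q s σ χ cj → TwA q D → 1 ≤ e → Odd d₁ → Odd d₂ → d₁.Coprime d₂ →
    d₁.Coprime (q * D) → d₂.Coprime (q * D) →
    (8 * 2 ^ e * ((d₁ : ℤ) * d₂) ^ 2 : ℤ) ∣ b ^ 2 + q * D ^ 2 → (q : ℤ) ∣ b →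
    2 * g = b + D * s → ∃ (a ω : ℤ) (ga : 𝓞 F), PDT q D s e d₁ d₂ b a ω g ga

/-- (T8) the ideals attached to a pair -/
def StCMT : Prop :=
  ∀ (q : ℕ) (F : Type) (_ : Field F) (_ : NumberField F) (s : 𝓞 F) (σ : F →+* ℂ)
    (χ : DirichletCharacter ℂ q) (cj : 𝓞 F ≃+* 𝓞 F) (D e d₁ d₂ : ℕ) (b a ω : ℤ) (g ga : 𝓞 F),
    Dat q s σ χ cj → TwA q D → PDT q D s e d₁ d₂ b a ω g ga →
    (Ideal.absNorm (idl g d₁) = d₁ ∧ idl g d₁ ∈ idp (F := F) D) ∧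
    (Ideal.absNorm (idl g d₂) = d₂ ∧ idl g d₂ ∈ idp (F := F) D) ∧
    (Ideal.absNorm (idl g (2 ^ e)) = 2 ^ e ∧ idl g (2 ^ e) ∈ idp (F := F) D) ∧
    RP q D s (idl g d₁ * (idl g d₂).map (cj : 𝓞 F →+* 𝓞 F)) ga a (d₁ * d₂) ∧
    (∀ x : 𝓞 F, x ∈ latD D ((idl g (2 ^ e) * idl g d₁ * idl g d₂).map (cj : 𝓞 F →+* 𝓞 F)) ↔
      ∃ m k : ℤ, x = ((2 ^ e * (d₁ * d₂) : ℕ) : 𝓞 F) * m - k * cj g)

/-- (T9) the terms for the ideals attached to a pair -/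
def StPairT : Prop :=
  ∀ (q : ℕ) (F : Type) (_ : Field F) (_ : NumberField F) (s : 𝓞 F) (σ : F →+* ℂ)
    (χ : DirichletCharacter ℂ q) (cj : 𝓞 F ≃+* 𝓞 F) (D n e d₁ d₂ : ℕ) (b a ω : ℤ)
    (g ga : 𝓞 F) (φ : Ideal (𝓞 F) →*₀ ℂ), Dat q s σ χ cj → TwA q D →
    IsCan q s σ (2 * n + 1) φ → PDT q D s e d₁ d₂ b a ω g ga →
    GT q D σ n φ (idl g d₁ * (idl g d₂).map (cj : 𝓞 F →+* 𝓞 F))
        ((idl g (2 ^ e) * idl g d₁ * idl g d₂).map (cj : 𝓞 F →+* 𝓞 F)) ga (d₁ * d₂) =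
      ((2 * Real.sqrt ((q * D ^ 2 : ℕ) : ℝ) : ℂ) ^ (n + 1))⁻¹ *
        (Real.sqrt (Real.sqrt ((q * D ^ 2 : ℕ) : ℝ)) /
          (Real.sqrt ((2 ^ e : ℕ) : ℝ) * 2 ^ n * n.factorial)) *
      conj (φ (idl g d₁) * ((d₁ : ℂ) ^ (n + 1))⁻¹ *
        hth n (σ g / ((2 ^ e : ℕ) * (d₁ : ℂ) ^ 2))) *
      (φ (idl g d₂) * ((d₂ : ℂ) ^ (n + 1))⁻¹ * hth n (σ g / ((2 ^ e : ℕ) * (d₂ : ℂ) ^ 2)))

/-- (T10) the same for odd `n` -/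
def StPairTO : Prop :=
  ∀ (q : ℕ) (F : Type) (_ : Field F) (_ : NumberField F) (s : 𝓞 F) (σ : F →+* ℂ)
    (χ : DirichletCharacter ℂ q) (cj : 𝓞 F ≃+* 𝓞 F) (D n e d₁ d₂ : ℕ) (b a ω : ℤ)
    (g ga : 𝓞 F) (φ : Ideal (𝓞 F) →*₀ ℂ), Dat q s σ χ cj → TwA q D →
    IsCanO q s σ (2 * n + 1) φ → PDT q D s e d₁ d₂ b a ω g ga →
    GTO q D σ n φ (idl g d₁ * (idl g d₂).map (cj : 𝓞 F →+* 𝓞 F))
        ((idl g (2 ^ e) * idl g d₁ * idl g d₂).map (cj : 𝓞 F →+* 𝓞 F)) ga (d₁ * d₂) =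
      c4 (d₁ * d₂) * ((2 * Real.sqrt ((q * D ^ 2 : ℕ) : ℝ) : ℂ) ^ (n + 1))⁻¹ *
        (Real.sqrt (Real.sqrt ((q * D ^ 2 : ℕ) : ℝ)) /
          (Real.sqrt ((2 ^ e : ℕ) : ℝ) * 2 ^ n * n.factorial)) *
      conj (φ (idl g d₁) * ((d₁ : ℂ) ^ (n + 1))⁻¹ *
        hthO n (σ g / ((2 ^ e : ℕ) * (d₁ : ℂ) ^ 2))) *
      (φ (idl g d₂) * ((d₂ : ℂ) ^ (n + 1))⁻¹ * hthO n (σ g / ((2 ^ e : ℕ) * (d₂ : ℂ) ^ 2)))

/-- (T11) the analytic part for even `n` -/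
def StAnTE : Prop :=
  ∀ (q : ℕ) (_ : NeZero q) (F : Type) (_ : Field F) (_ : NumberField F) (s : 𝓞 F)
    (σ : F →+* ℂ) (χ : DirichletCharacter ℂ q) (cj : 𝓞 F ≃+* 𝓞 F) (n D : ℕ)
    (φ : Ideal (𝓞 F) →*₀ ℂ), Dat q s σ χ cj → TwA q D → IsCan q s σ (2 * n + 1) φ →
    ∃ Λ : ℂ → ℂ, IsLF (twist D φ) (n + 1) Λ ∧
      ∀ (e : ℕ) (b : ℤ) (g : 𝓞 F) (d d' : GC F D → ℕ), 1 ≤ e → Even e → SysT q D s b g d →
        SysT q D s b g d' →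
        (∀ A B, (d A).Coprime (d' B) ∧
          (8 * 2 ^ e * ((d A : ℤ) * d' B) ^ 2 : ℤ) ∣ b ^ 2 + q * D ^ 2) →
        ∃ c : ℂ, c * Λ 0 =
          conj (SumT σ n (2 ^ e) g d φ (hth n)) * SumT σ n (2 ^ e) g d' φ (hth n)

/-- (T12) the analytic part for odd `n` -/
def StAnTO : Prop :=
  ∀ (q : ℕ) (_ : NeZero q) (F : Type) (_ : Field F) (_ : NumberField F) (s : 𝓞 F)
    (σ : F →+* ℂ) (χ : DirichletCharacter ℂ q) (cj : 𝓞 F ≃+* 𝓞 F) (n D : ℕ)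
    (φ : Ideal (𝓞 F) →*₀ ℂ), Dat q s σ χ cj → TwA q D → IsCanO q s σ (2 * n + 1) φ →
    ∃ Λ : ℂ → ℂ, IsLF (twist D φ) (n + 1) Λ ∧
      ∀ (e : ℕ) (b : ℤ) (g : 𝓞 F) (d d' : GC F D → ℕ), 1 ≤ e → Even e → SysT q D s b g d →
        SysT q D s b g d' →
        (∀ A B, (d A).Coprime (d' B) ∧
          (8 * 2 ^ e * ((d A : ℤ) * d' B) ^ 2 : ℤ) ∣ b ^ 2 + q * D ^ 2) →
        ∃ c : ℂ, c * Λ 0 =
          conj (SumT σ n (2 ^ e) g d φ (hthO n)) * SumT σ n (2 ^ e) g d' φ (hthO n)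

end Pool.Agent.Lib.MP_7c08ba_nt.CN.TW
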