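import Mathlib
import Pool.Agent.Lib.MP_7c08ba_nt.CN.T.StTh
import Pool.Agent.Lib.MP_7c08ba_nt.CN.StP

set_option autoImplicit false

/-!
Project TW, analytic part for even `n`: assembly.
-/

namespace Pool.Agent.Lib.MP_7c08ba_nt.CN.TW

open NumberField IsDedekindDomain Polynomial Pool.Agent.Lib.MP_7c08ba_nt.RZ
open scoped nonZeroDivisors ComplexConjugate

namespace AnTEAux

variable {F : Type} [i1 : Field F] [i2 : NumberField F]

/-- The principal genus contains `1`. -/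
lemma gen_one (D : ℕ) : Gen D (1 : RC F D) := by
  refine ⟨1, (idp D).one_mem, cl_one, fun r _ _ => ?_⟩
  rw [map_one, Nat.cast_one, jacobiSym.one_left]

/-- The point attached to an ideal in the standard form is in the upper half plane. -/
lemma im_pos {q D : ℕ} {s : 𝓞 F} {σ : F →+* ℂ} {χ : DirichletCharacter ℂ q} {cj : 𝓞 F ≃+* 𝓞 F}
    (hD : Dat q s σ χ cj) (hD0 : D ≠ 0) {a : Ideal (𝓞 F)} {X : 𝓞 F} {α : ℤ} {β : ℕ}
    (h : RP q D s a X α β) : 0 < (σ X / (q * D ^ 2 * β)).im := by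
  have hq : (0 : ℝ) < q := by exact_mod_cast hD.prime.pos
  have hβ : (0 : ℝ) < β := by
    have := h.odd.pos
    exact_mod_cast this
  have hDp : (0 : ℝ) < D := by
    have := Nat.pos_of_ne_zero hD0
    exact_mod_cast this
  have h1 : (2 : ℂ) * σ X = α + D * (Complex.I * Real.sqrt q) := by
    have h2 := congrArg (fun z : 𝓞 F => σ (z : F)) h.two
    simp only [map_mul, map_add, map_ofNat, map_intCast, map_natCast] at h2
    rw [h2, hD.im]
  have h3 : (σ X).im = D * Real.sqrt q / 2 := by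
    have h4 := congrArg Complex.im h1
    simp at h4
    linarith
  have h5 : (q * D ^ 2 * β : ℂ) = ((q * D ^ 2 * β : ℝ) : ℂ) := by push_cast; rfl
  rw [h5, Complex.div_ofReal_im, h3]
  have h6 : 0 < Real.sqrt q := Real.sqrt_pos.2 hq
  positivity

/-- Representatives of the ordinary classes which are prime to `D`. -/
lemma reps (h12 : RZ.StBase) (h13 : CN.StRepM) {q D : ℕ} {s : 𝓞 F} {σ : F →+* ℂ}
    {χ : DirichletCharacter ℂ q} {cj : 𝓞 F ≃+* 𝓞 F} (hD : Dat q s σ χ cj) (hD0 : D ≠ 0) :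
    ∃ c : Reps σ, ∀ C : ClassGroup (𝓞 F), (c.R C : Ideal (𝓞 F)) ∈ idp (F := F) D := by
  have hM : Ideal.span {(D : 𝓞 F)} ≠ ⊥ := by
    rw [Ne, Ideal.span_singleton_eq_bot, Nat.cast_eq_zero]
    exact hD0
  have hR0 : ∀ C : ClassGroup (𝓞 F), ∃ I : (Ideal (𝓞 F))⁰, ClassGroup.mk0 I = C ∧
      IsCoprime (I : Ideal (𝓞 F)) (Ideal.span {(D : 𝓞 F)}) := fun C =>
    h13 F i1 i2 C (Ideal.span {(D : 𝓞 F)}) hM
  choose R hR1 hR2 using hR0
  have hne : ∀ C : ClassGroup (𝓞 F), (R C : Ideal (𝓞 F)) ≠ ⊥ := fun C =>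
    mem_nonZeroDivisors_iff_ne_zero.1 (R C).2
  have hB := (h12 q F i1 i2 s σ χ cj hD).1
  have hB' : ∀ C : ClassGroup (𝓞 F), ∃ x y : 𝓞 F, OBasis σ (R C : Ideal (𝓞 F)) x y :=
    fun C => hB (R C : Ideal (𝓞 F)) (hne C)
  choose X Y hXY using hB'
  exact ⟨⟨R, X, Y, hR1, hXY⟩, fun C => ⟨hne C, hR2 C⟩⟩

end AnTEAux

open AnTEAux

/-- (T11) -/
theorem stAnTE (h1 : StOmT) (h2 : StCMT) (h3 : StInvT) (h4 : StPairT) (h5 : StGenE) (h6 : StZT)
    (h7 : StGoodE) (h8 : StBijT) (h9 : StGch) (h10 : StRg) (h11 : RZ.StEisTh)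
    (h12 : RZ.StBase) (h13 : CN.StRepM) : StAnTE := by
  intro q hq0 F iF iN s σ χ cj n D φ hD hT hcan
  have hG := h7 q hq0 F iF iN s σ χ cj n φ hD hcan
  obtain ⟨Λ, hΛ, hval⟩ := h6 q F iF iN s σ χ cj n D φ (eis q χ n) hD hG hT
  refine ⟨Λ, hΛ, ?_⟩
  intro e b g d d' he hee hS hS' hAB
  have hD0 : D ≠ 0 := hT.sqf.ne_zero
  have hfin : Finite (RC F D) := (h10 F iF iN D hD0).1
  have hfin' : Finite (GC F D) := inferInstance
  let ft : Fintype (GC F D) := Fintype.ofFinite _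
  obtain ⟨hc1, hc2, hc3, hc4⟩ := h9 q F iF iN s σ χ cj D hD hT
  -- the auxiliary numbers
  have hOm' : ∀ A B, ∃ (a ω : ℤ) (ga : 𝓞 F), PDT q D s e (d A) (d' B) b a ω g ga := fun A B =>
    h1 q F iF iN s σ χ cj D e (d A) (d' B) b g hD hT he (hS.odd A) (hS'.odd B) (hAB A B).1
      (hS.cop A) (hS'.cop B) (hAB A B).2 hS.dvd hS.two
  choose a ω ga hPD using hOm'
  have hcm := fun A B => h2 q F iF iN s σ χ cj D e (d A) (d' B) b (a A B) (ω A B) g (ga A B) hD hT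
    (hPD A B)
  let u : GC F D := ⟨1, gen_one D⟩
  have hI : ∀ A, idl g (d A) ∈ idp (F := F) D := fun A => (hcm A u).1.2
  have hJ : ∀ A, idl g (d' A) ∈ idp (F := F) D := fun A => (hcm u A).2.1.2
  have hQ : idl g (2 ^ e) ∈ idp (F := F) D := (hcm u u).2.2.1.2
  have hQn : Ideal.absNorm (idl g (2 ^ e)) = 2 ^ e := (hcm u u).2.2.1.1
  have hQg : Gen D (cl D (idl g (2 ^ e))) := by
    refine (hc3 _ hQ).2.1.2 fun r hr hrD => ?_
    rw [hQn]
    obtain ⟨m, hm⟩ := hee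
    have h20 : ((2 : ℤ) ^ m).gcd r = 1 := by
      have h21 : r % 4 = 1 := hT.mod4 r hr hrD
      have h22 : Nat.Coprime (2 ^ m) r := by
        refine Nat.Coprime.pow_left m ?_
        rw [Nat.coprime_two_left, Nat.odd_iff]
        omega
      rw [Int.gcd_eq_natAbs]
      simpa [Int.natAbs_pow] using h22
    have h23 : ((2 ^ e : ℕ) : ℤ) = (2 ^ m) ^ 2 := by
      rw [hm]
      push_cast
      ring
    rw [h23]
    exact jacobiSym.sq_one' h20
  obtain ⟨E, hE⟩ := h8 q F iF iN s σ χ cj D hD hT (idl g (2 ^ e)) (fun A => idl g (d A))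
    (fun A => idl g (d' A)) hQ hQg (fun A => ⟨hI A, hS.cls A⟩) (fun A => ⟨hJ A, hS'.cls A⟩)
  let aa : GC F D → GC F D → Ideal (𝓞 F) := fun A B =>
    idl g (d A) * (idl g (d' B)).map (cj : 𝓞 F →+* 𝓞 F)
  let bb : GC F D → GC F D → Ideal (𝓞 F) := fun A B =>
    (idl g (2 ^ e) * idl g (d A) * idl g (d' B)).map (cj : 𝓞 F →+* 𝓞 F)
  have hrp : ∀ A B, RP q D s (aa A B) (ga A B) (a A B) (d A * d' B) := fun A B =>
    (hcm A B).2.2.2.1
  have hbb : ∀ A B, bb A B ∈ idp (F := F) D := fun A B =>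
    (hc1 _ ((idp D).mul_mem ((idp D).mul_mem hQ (hI A)) (hJ B))).1
  -- the representatives
  have hcu : cl D ((idl g (d' u)).map (cj : 𝓞 F →+* 𝓞 F)) = 1 := by
    have h20 := (hc1 _ (hJ u)).2.2
    rw [cl_mul (hJ u) (hc1 _ (hJ u)).1, hS'.cls u] at h20
    rwa [one_mul] at h20
  have hcaa : ∀ A, cl D (aa A u) = A.1 := fun A => by
    change cl D (idl g (d A) * (idl g (d' u)).map (cj : 𝓞 F →+* 𝓞 F)) = A.1
    rw [cl_mul (hI A) (hc1 _ (hJ u)).1, hS.cls A, hcu, mul_one]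
  obtain ⟨C, hC⟩ := hval (fun A => aa A u) (fun A => ga A u) (fun A => a A u)
    (fun A => d A * d' u) (fun A => hrp A u) hcaa
  let R' : GC F D → Ideal (𝓞 F) := fun B => rp B.1
  have hR' : ∀ B, R' B ∈ idp (F := F) D := fun B => rp_mem B.1
  have hR'c : ∀ B, cl D (R' B) = B.1 := fun B => cl_rp B.1
  obtain ⟨c, hc⟩ := reps h12 h13 hD hD0
  obtain ⟨ε, hε, hEis⟩ := h11 q hq0 F iF iN s σ χ cj c hD
  -- the constants
  have hq : (0 : ℝ) < q := by exact_mod_cast hD.prime.pos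
  have hDp : (0 : ℝ) < D := by
    have := Nat.pos_of_ne_zero hD0
    exact_mod_cast this
  have hκ : conj (ε * (Real.pi / Real.sqrt q) : ℂ) ≠ 0 := by
    have hε0 : ε ≠ 0 := by rcases hε with rfl | rfl <;> simp
    have hsq : (Real.sqrt q : ℂ) ≠ 0 := by
      have := (Real.sqrt_pos.2 hq).ne'
      exact_mod_cast this
    have hpi : (Real.pi : ℂ) ≠ 0 := by exact_mod_cast Real.pi_ne_zero
    rw [Ne, map_eq_zero]
    exact mul_ne_zero hε0 (div_ne_zero hpi hsq)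
  set κ : ℂ := conj (ε * (Real.pi / Real.sqrt q) : ℂ) with hκdef
  have hqD : (0 : ℝ) < Real.sqrt ((q * D ^ 2 : ℕ) : ℝ) := by
    refine Real.sqrt_pos.2 ?_
    push_cast
    positivity
  have hK0 : ((2 * Real.sqrt ((q * D ^ 2 : ℕ) : ℝ) : ℂ) ^ (n + 1))⁻¹ *
      (Real.sqrt (Real.sqrt ((q * D ^ 2 : ℕ) : ℝ)) /
        (Real.sqrt ((2 ^ e : ℕ) : ℝ) * 2 ^ n * n.factorial)) ≠ 0 := by
    have h1 : (Real.sqrt ((q * D ^ 2 : ℕ) : ℝ) : ℂ) ≠ 0 := Complex.ofReal_ne_zero.2 hqD.ne'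
    have h2 : (Real.sqrt (Real.sqrt ((q * D ^ 2 : ℕ) : ℝ)) : ℂ) ≠ 0 :=
      Complex.ofReal_ne_zero.2 (Real.sqrt_pos.2 hqD).ne'
    have h3 : (Real.sqrt ((2 ^ e : ℕ) : ℝ) : ℂ) ≠ 0 :=
      Complex.ofReal_ne_zero.2 (Real.sqrt_pos.2 (by positivity)).ne'
    have h4 : (n.factorial : ℂ) ≠ 0 := Nat.cast_ne_zero.2 (Nat.factorial_ne_zero n)
    refine mul_ne_zero (inv_ne_zero (pow_ne_zero _ (mul_ne_zero two_ne_zero h1)))
      (div_ne_zero h2 (mul_ne_zero (mul_ne_zero h3 (pow_ne_zero _ two_ne_zero)) h4))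
  set K0 : ℂ := ((2 * Real.sqrt ((q * D ^ 2 : ℕ) : ℝ) : ℂ) ^ (n + 1))⁻¹ *
      (Real.sqrt (Real.sqrt ((q * D ^ 2 : ℕ) : ℝ)) /
        (Real.sqrt ((2 ^ e : ℕ) : ℝ) * 2 ^ n * n.factorial)) with hK0def
  -- the terms
  have hterm : ∀ p : GC F D × GC F D,
      GT q D σ n φ (aa (E p).1 u) (R' (E p).2) (ga (E p).1 u) (d (E p).1 * d' u) =
      K0 *
      conj (φ (idl g (d p.1)) * ((d p.1 : ℂ) ^ (n + 1))⁻¹ *
        hth n (σ g / ((2 ^ e : ℕ) * (d p.1 : ℂ) ^ 2))) *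
      (φ (idl g (d' p.2)) * ((d' p.2 : ℂ) ^ (n + 1))⁻¹ *
        hth n (σ g / ((2 ^ e : ℕ) * (d' p.2 : ℂ) ^ 2))) := by
    rintro ⟨A, B⟩
    rw [hK0def, ← h4 q F iF iN s σ χ cj D n e (d A) (d' B) b (a A B) (ω A B) g (ga A B) φ hD hT
      hcan (hPD A B)]
    refine h3 q F iF iN s σ χ cj D n φ _ (aa A B) _ (bb A B) _ _ _ _ _ _ hD hT hcan
      (hrp _ u) (hrp A B) (hR' _) (hbb A B) ?_ ?_
    · rw [hcaa]
      exact (hE (A, B)).1
    · rw [hR'c]
      exact (hE (A, B)).2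
  -- the value
  have hin : ∀ A : GC F D,
      (φ (aa A u))⁻¹ * φ (Ideal.span {((d A * d' u : ℕ) : 𝓞 F)}) *
          ((σ (ga A u) / (q * D ^ 2 * (d A * d' u : ℕ))).im : ℂ) ^ (2 * n + 1) *
          conj (∑ c ∈ Finset.range D, wH D c *
            eis q χ n (-n) (σ (ga A u) / (q * D ^ 2 * (d A * d' u : ℕ)) + c / D)) =
        κ * ∑ B : GC F D, GT q D σ n φ (aa A u) (R' B) (ga A u) (d A * d' u) := by
    intro A
    have hu := im_pos hD hD0 (hrp A u)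
    have hs : ∑ j ∈ Finset.range D, wH D j *
        eis q χ n (-n) (σ (ga A u) / (q * D ^ 2 * (d A * d' u : ℕ)) + j / D) =
        (ε * (Real.pi / Real.sqrt q) : ℂ) *
          ∑ B : GC F D, thD D σ (R' B) n (σ (ga A u) / (q * D ^ 2 * (d A * d' u : ℕ))) := by
      rw [← finsum_eq_sum_of_fintype, h5 q F iF iN s σ χ cj D n c R' _ hD hT hc hR' hR'c hu,
        Finset.mul_sum]
      refine Finset.sum_congr rfl fun j _ => ?_
      rw [hEis n _ ?_]
      · ring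
      · have h20 : ((j : ℂ) / D).im = 0 := by
          have h21 : ((j : ℂ) / D) = ((j / D : ℝ) : ℂ) := by push_cast; rfl
          rw [h21, Complex.ofReal_im]
        rw [Complex.add_im, h20, add_zero]
        exact hu
    rw [hs, map_mul (starRingEnd ℂ), map_sum (starRingEnd ℂ), ← hκdef, Finset.mul_sum,
      Finset.mul_sum, Finset.mul_sum]
    refine Finset.sum_congr rfl fun B _ => ?_
    unfold GT
    ring
  have hsp : ∑ A : GC F D, ∑ B : GC F D,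
      GT q D σ n φ (aa A u) (R' B) (ga A u) (d A * d' u) =
      ∑ p : GC F D × GC F D,
      GT q D σ n φ (aa p.1 u) (R' p.2) (ga p.1 u) (d p.1 * d' u) :=
    (Fintype.sum_prod_type fun p : GC F D × GC F D =>
      GT q D σ n φ (aa p.1 u) (R' p.2) (ga p.1 u) (d p.1 * d' u)).symm
  have hfinal : C * Λ 0 = κ * K0 *
      (conj (SumT σ n (2 ^ e) g d φ (hth n)) * SumT σ n (2 ^ e) g d' φ (hth n)) := by
    rw [hC, finsum_eq_sum_of_fintype, Finset.sum_congr rfl (fun A _ => hin A),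
      ← Finset.mul_sum, hsp, ← E.sum_comp, Finset.sum_congr rfl (fun p _ => hterm p),
      Fintype.sum_prod_type]
    unfold SumT
    rw [finsum_eq_sum_of_fintype, finsum_eq_sum_of_fintype, map_sum, mul_assoc,
      Finset.sum_mul_sum]
    refine congrArg (fun z => κ * z) ?_
    rw [Finset.mul_sum]
    refine Finset.sum_congr rfl fun A _ => ?_
    rw [Finset.mul_sum]
    refine Finset.sum_congr rfl fun B _ => ?_
    rw [mul_assoc]
  refine ⟨C * (κ * K0)⁻¹, ?_⟩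
  rw [mul_right_comm, hfinal]
  field_simp

end Pool.Agent.Lib.MP_7c08ba_nt.CN.TW
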