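import Pool.Agent.Lib.MP_7c08ba_nt.CN.T.StTh
import Pool.Agent.Lib.MP_7c08ba_nt.CN.RepM

set_option autoImplicit false

/-!
Project TW, analytic part for odd `n`: assembly.
-/

namespace Pool.Agent.Lib.MP_7c08ba_nt.CN.TW

open NumberField IsDedekindDomain MeasureTheory Polynomial Pool.Agent.Lib.MP_7c08ba_nt.RZ
open scoped nonZeroDivisors ComplexConjugate

namespace AnTOAux

/-- the character modulo 4 at the square of an odd number -/
lemma c4_sq {e : ℕ} (h : Odd (e ^ 2)) : c4 ((e : ℤ) ^ 2) = 1 := by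
  have he : Odd e := by
    rcases Nat.even_or_odd e with h1 | h1
    · exfalso
      exact Nat.not_odd_iff_even.2 (h1.pow_of_ne_zero (by norm_num)) h
    · exact h1
  obtain ⟨k, rfl⟩ := he
  unfold c4
  have h2 : ((((2 * k + 1 : ℕ) : ℤ) ^ 2 : ℤ) : ZMod 4) = 1 := by
    have h3 : (((2 * k + 1 : ℕ) : ℤ) ^ 2 : ℤ) = 4 * (k ^ 2 + k) + 1 := by
      push_cast
      ring
    rw [h3]
    push_cast
    have h4 : (4 : ZMod 4) = 0 := by decide
    rw [h4]
    ring
  rw [h2, map_one]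
  norm_num

/-- the points are in the upper half plane -/
lemma im_pos {F : Type} [Field F] [NumberField F] {q D β : ℕ} {s : 𝓞 F} {σ : F →+* ℂ}
    (hq : 0 < q) (hDD : 0 < D) (hβ : 0 < β) (hs : σ s = Complex.I * Real.sqrt q) {X : 𝓞 F}
    {α : ℤ} (h2 : 2 * X = α + D * s) : 0 < (σ X / (q * D ^ 2 * β)).im := by
  have h3 : (2 : ℂ) * σ X = α + D * (Complex.I * Real.sqrt q) := by
    have h4 := congrArg (fun x : 𝓞 F => σ (x : F)) h2
    simp only [map_mul, map_add, map_natCast, map_ofNat, map_intCast] at h4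
    rw [hs] at h4
    exact h4
  have h5 : (σ X).im = D * Real.sqrt q / 2 := by
    have h6 := congrArg Complex.im h3
    simp only [Complex.mul_im, Complex.add_im, Complex.intCast_im, Complex.natCast_re,
      Complex.natCast_im, Complex.I_re, Complex.I_im, Complex.ofReal_re, Complex.ofReal_im,
      Complex.re_ofNat, Complex.im_ofNat, Complex.mul_re] at h6
    linarith
  have h7 : ((q : ℂ) * D ^ 2 * β) = (((q : ℝ) * D ^ 2 * β : ℝ) : ℂ) := by push_cast; ring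
  have h8 : (0 : ℝ) < Real.sqrt q := Real.sqrt_pos.2 (Nat.cast_pos.2 hq)
  have h9 : (0 : ℝ) < q := Nat.cast_pos.2 hq
  have h10 : (0 : ℝ) < D := Nat.cast_pos.2 hDD
  have h11 : (0 : ℝ) < β := Nat.cast_pos.2 hβ
  rw [h7, Complex.div_ofReal_im, h5]
  positivity

/-- representatives of the classes in `idp` -/
lemma reps {q D : ℕ} {F : Type} [Field F] [NumberField F] {s : 𝓞 F} {σ : F →+* ℂ}
    {χ : DirichletCharacter ℂ q} {cj : 𝓞 F ≃+* 𝓞 F} (hB : RZ.StBase) (hD : Dat q s σ χ cj)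
    (hDD : D ≠ 0) : ∃ c : Reps σ, ∀ C, (c.R C : Ideal (𝓞 F)) ∈ idp (F := F) D := by
  have hM : Ideal.span {(D : 𝓞 F)} ≠ ⊥ := by
    intro h
    exact hDD (by exact_mod_cast Ideal.span_singleton_eq_bot.1 h)
  choose R hR hR' using fun C : ClassGroup (𝓞 F) => stRepM F inferInstance inferInstance C (Ideal.span {(D : 𝓞 F)}) hM
  have hb := fun C => (hB q F _ _ s σ χ cj hD).1 (R C : Ideal (𝓞 F))
    (mem_nonZeroDivisors_iff_ne_zero.1 (R C).2)
  choose X Y hXY using hb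
  exact ⟨{ R := R, X := X, Y := Y, cls := hR, bas := hXY }, fun C =>
    ⟨mem_nonZeroDivisors_iff_ne_zero.1 (R C).2, hR' C⟩⟩

lemma gen_one {F : Type} [Field F] [NumberField F] (D : ℕ) : Gen (F := F) D 1 :=
  ⟨1, (idp D).one_mem, cl_one, fun r _ _ => by
    rw [map_one, Nat.cast_one, jacobiSym.one_left]⟩

end AnTOAux

open AnTOAux in
/-- (T12) the analytic part for odd `n` -/
theorem stAnTO (h1 : StOmT) (h2 : StCMT) (h3 : StInvTO) (h4 : StPairTO) (h5 : StGenO)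
    (h6 : StZT) (h7 : StGoodO) (h8 : StBijT) (h9 : StGch) (h10 : StRg) (hET : RZ.StEisTh)
    (hHk : StHkO) (hBase : RZ.StBase) : StAnTO := by
  intro q _ F _ _ s σ χ cj n D φ hD hT hcan
  have hD0 : D ≠ 0 := hT.sqf.ne_zero
  have hDpos : 0 < D := Nat.pos_of_ne_zero hD0
  have hqpos : 0 < q := hD.prime.pos
  obtain ⟨hfin, -, hidp⟩ := h10 F _ _ D hD0
  obtain ⟨g1, g2, g3, g4⟩ := h9 q F _ _ s σ χ cj D hD hT
  obtain ⟨Λ, hΛ, hval⟩ := h6 q F _ _ s σ χ cj n D φ (EO q χ n) hD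
    (h7 q _ F _ _ s σ χ cj n φ hD hcan) hT
  refine ⟨Λ, hΛ, ?_⟩
  intro e b g d d' he hee hS hS' hAB
  haveI : Finite (RC F D) := hfin
  haveI : Fintype (GC F D) := Fintype.ofFinite _
  let one : GC F D := ⟨1, gen_one D⟩
  -- the auxiliary numbers
  have hOm' : ∀ A B, ∃ (a ω : ℤ) (ga : 𝓞 F), PDT q D s e (d A) (d' B) b a ω g ga := fun A B =>
    h1 q F _ _ s σ χ cj D e (d A) (d' B) b g hD hT he (hS.odd A) (hS'.odd B) (hAB A B).1
      (hS.cop A) (hS'.cop B) (hAB A B).2 hS.dvd hS.two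
  choose a ω ga hPD using hOm'
  have hcm := fun A B => h2 q F _ _ s σ χ cj D e (d A) (d' B) b (a A B) (ω A B) g (ga A B) hD hT
    (hPD A B)
  let aa : GC F D → GC F D → Ideal (𝓞 F) := fun A B =>
    idl g (d A) * (idl g (d' B)).map (cj : 𝓞 F →+* 𝓞 F)
  let bb : GC F D → GC F D → Ideal (𝓞 F) := fun A B =>
    (idl g (2 ^ e) * idl g (d A) * idl g (d' B)).map (cj : 𝓞 F →+* 𝓞 F)
  have hI : ∀ A, idl g (d A) ∈ idp (F := F) D := fun A => (hcm A one).1.2
  have hJ : ∀ B, idl g (d' B) ∈ idp (F := F) D := fun B => (hcm one B).2.1.2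
  have hQ : idl g (2 ^ e) ∈ idp (F := F) D := (hcm one one).2.2.1.2
  have hRP : ∀ A B, RP q D s (aa A B) (ga A B) (a A B) (d A * d' B) := fun A B =>
    (hcm A B).2.2.2.1
  have hbb : ∀ A B, bb A B ∈ idp (F := F) D := fun A B =>
    (g1 _ ((idp D).mul_mem ((idp D).mul_mem hQ (hI A)) (hJ B))).1
  have hQG : Gen D (cl D (idl g (2 ^ e))) := by
    refine ((g3 _ hQ).2.1).2 fun r hr hrD => ?_
    rw [(hcm one one).2.2.1.1]
    have hr4 := hT.mod4 r hr hrD
    have hg : (2 : ℤ).gcd r = 1 := by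
      have : Nat.Coprime 2 r := (Nat.coprime_primes Nat.prime_two hr).2 (by
        rintro rfl
        omega)
      exact this
    obtain ⟨k, hk⟩ := hee
    push_cast
    rw [jacobiSym.pow_left, hk, ← two_mul, pow_mul, jacobiSym.sq_one hg, one_pow]
  obtain ⟨E, hE⟩ := h8 q F _ _ s σ χ cj D hD hT (idl g (2 ^ e)) (fun A => idl g (d A))
    (fun A => idl g (d' A)) hQ hQG (fun A => ⟨hI A, hS.cls A⟩) (fun A => ⟨hJ A, hS'.cls A⟩)
  -- the ideals are squares
  have hsq : ∀ A B, ∃ c : Ideal (𝓞 F), aa A B = c ^ 2 := by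
    intro A B
    obtain ⟨e1, _, h1⟩ := hS.sqr A
    obtain ⟨e2, _, h2⟩ := hS'.sqr B
    refine ⟨idl g e1 * (idl g e2).map (cj : 𝓞 F →+* 𝓞 F), ?_⟩
    show idl g (d A) * (idl g (d' B)).map (cj : 𝓞 F →+* 𝓞 F) = _
    rw [h1, h2, Ideal.map_pow, mul_pow]
  have hc4 : ∀ A B, c4 ((d A : ℤ) * (d' B : ℤ)) = 1 := by
    intro A B
    obtain ⟨e1, h1, _⟩ := hS.sqr A
    obtain ⟨e2, h2, _⟩ := hS'.sqr B
    have h3 : Odd ((e1 * e2) ^ 2) := by
      rw [mul_pow, ← h1, ← h2]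
      exact (hS.odd A).mul (hS'.odd B)
    have h4 := c4_sq h3
    rw [h1, h2]
    push_cast at h4 ⊢
    rw [← mul_pow]
    exact h4
  -- the class of the ideals of the pairs `(A, 1)`
  have hcls : ∀ A, cl D (aa A one) = A.1 := by
    intro A
    have e1 : cl D (idl g (d' one)) = 1 := hS'.cls one
    obtain ⟨e2, -, e3⟩ := g1 _ (hJ one)
    rw [cl_mul (hJ one) e2, e1, one_mul] at e3
    show cl D (idl g (d A) * (idl g (d' one)).map (cj : 𝓞 F →+* 𝓞 F)) = _
    rw [cl_mul (hI A) e2, e3, mul_one]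
    exact hS.cls A
  obtain ⟨C, hC⟩ := hval (fun A => aa A one) (fun A => ga A one) (fun A => a A one)
    (fun A => d A * d' one) (fun A => hRP A one) hcls
  obtain ⟨c, hc⟩ := reps (D := D) hBase hD hD0
  obtain ⟨ε, hε, hEis⟩ := hET q _ F _ _ s σ χ cj c hD
  have hsq0 : (0 : ℝ) < Real.sqrt q := Real.sqrt_pos.2 (Nat.cast_pos.2 hqpos)
  have hsqc : (Real.sqrt q : ℂ) ≠ 0 := Complex.ofReal_ne_zero.2 hsq0.ne'
  have hε0 : ε ≠ 0 := by
    rcases hε with rfl | rfl <;> simp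
  have hpi : (Real.pi : ℂ) ≠ 0 := by exact_mod_cast Real.pi_ne_zero
  set κ : ℂ := ε * (Real.pi / (2 * Real.sqrt q)) with hκ
  have hκ0 : κ ≠ 0 := mul_ne_zero hε0 (div_ne_zero hpi (mul_ne_zero two_ne_zero hsqc))
  have hm : q % 8 = 7 := by
    have := hD.mod
    omega
  -- the values of the combination of Eisenstein series
  have hEO : ∀ u : ℂ, 0 < u.im → EO q χ n (-n) u = κ * ∑ B : ClassGroup (𝓞 F),
      (2 * 4 ^ n * thl σ (c.R B : Ideal (𝓞 F)) n (4 * u) -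
        thl σ (c.R B : Ideal (𝓞 F)) n (u + 1 / 2)) := by
    intro u hu
    rw [(hHk q inferInstance χ n u hD.prime hm hD.chi hu).2]
    have hu4 : 0 < (4 * u).im := by
      have : (4 * u).im = 4 * u.im := by simp [Complex.mul_im]
      rw [this]
      positivity
    have hu2 : 0 < (u + 1 / 2).im := by
      have : (u + 1 / 2).im = u.im := by
        rw [Complex.add_im]
        norm_num
      rw [this]
      exact hu
    rw [hEis n _ hu4, hEis n _ hu2, Finset.sum_sub_distrib, ← Finset.mul_sum, hκ]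
    field_simp
  -- the inner sums
  have hin : ∀ u : ℂ, 0 < u.im → ∑ j ∈ Finset.range D, wH D j * EO q χ n (-n) (u + j / D) =
      κ * ∑ B : GC F D, (2 * 4 ^ n * thD D σ (rp B.1) n (4 * u) -
        thD D σ (rp B.1) n (u + 1 / 2)) := by
    intro u hu
    have e1 := h5 q F _ _ s σ χ cj D n c (fun B => rp B.1) u hD hT hc (fun B => rp_mem B.1)
      (fun B => cl_rp B.1) hu
    rw [finsum_eq_sum_of_fintype] at e1
    rw [e1, Finset.mul_sum]
    refine Finset.sum_congr rfl fun j _ => ?_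
    have hj : 0 < (u + (j : ℂ) / D).im := by
      have : ((j : ℂ) / D).im = 0 := by
        have h' : ((j : ℂ) / D) = (((j : ℝ) / D : ℝ) : ℂ) := by push_cast; ring
        rw [h', Complex.ofReal_im]
      rw [Complex.add_im, this, add_zero]
      exact hu
    rw [hEO _ hj]
    ring
  have hdpos : ∀ A B, 0 < d A * d' B := fun A B => Nat.mul_pos (hS.odd A).pos (hS'.odd B).pos
  -- the central value as a double sum
  have hdbl : C * Λ 0 = conj κ * ∑ A : GC F D, ∑ B : GC F D,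
      GTO q D σ n φ (aa A one) (rp B.1) (ga A one) (d A * d' one) := by
    rw [hC, finsum_eq_sum_of_fintype, Finset.mul_sum]
    refine Finset.sum_congr rfl fun A _ => ?_
    have hu := im_pos (q := q) (D := D) (σ := σ) hqpos hDpos (hdpos A one) hD.im (hRP A one).two
    rw [hin _ hu, map_mul (starRingEnd ℂ), map_sum (starRingEnd ℂ), Finset.mul_sum,
      Finset.mul_sum, Finset.mul_sum]
    refine Finset.sum_congr rfl fun B _ => ?_
    unfold GTO
    ring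
  -- the terms
  set K0 : ℂ := ((2 * Real.sqrt ((q * D ^ 2 : ℕ) : ℝ) : ℂ) ^ (n + 1))⁻¹ *
        (Real.sqrt (Real.sqrt ((q * D ^ 2 : ℕ) : ℝ)) /
          (Real.sqrt ((2 ^ e : ℕ) : ℝ) * 2 ^ n * n.factorial)) with hK0def
  have hterm : ∀ p : GC F D × GC F D,
      GTO q D σ n φ (aa (E p).1 one) (rp (E p).2.1) (ga (E p).1 one) (d (E p).1 * d' one) =
      K0 * conj (φ (idl g (d p.1)) * ((d p.1 : ℂ) ^ (n + 1))⁻¹ *
        hthO n (σ g / ((2 ^ e : ℕ) * (d p.1 : ℂ) ^ 2))) *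
      (φ (idl g (d' p.2)) * ((d' p.2 : ℂ) ^ (n + 1))⁻¹ *
        hthO n (σ g / ((2 ^ e : ℕ) * (d' p.2 : ℂ) ^ 2))) := by
    rintro ⟨A, B⟩
    have hp := h4 q F _ _ s σ χ cj D n e (d A) (d' B) b (a A B) (ω A B) g (ga A B) φ hD hT hcan
      (hPD A B)
    rw [hc4, one_mul] at hp
    rw [hK0def, ← hp]
    obtain ⟨c1, hc1⟩ := hsq (E (A, B)).1 one
    obtain ⟨c2, hc2⟩ := hsq A B
    refine h3 q F _ _ s σ χ cj D n φ _ (aa A B) c1 c2 _ (bb A B) _ _ (a (E (A, B)).1 one)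
      (a A B) _ _ hD hT hcan (hRP _ one) (hRP A B) hc1 hc2 (rp_mem _) (hbb A B) ?_ ?_
    · rw [hcls, (hE (A, B)).1]
    · rw [cl_rp, (hE (A, B)).2]
  have hK0 : K0 ≠ 0 := by
    have hq' : (0 : ℝ) < Real.sqrt ((q * D ^ 2 : ℕ) : ℝ) :=
      Real.sqrt_pos.2 (Nat.cast_pos.2 (by positivity))
    have h1 : (Real.sqrt ((q * D ^ 2 : ℕ) : ℝ) : ℂ) ≠ 0 := Complex.ofReal_ne_zero.2 hq'.ne'
    have h2 : (Real.sqrt (Real.sqrt ((q * D ^ 2 : ℕ) : ℝ)) : ℂ) ≠ 0 :=
      Complex.ofReal_ne_zero.2 (Real.sqrt_pos.2 hq').ne'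
    have h3 : (Real.sqrt ((2 ^ e : ℕ) : ℝ) : ℂ) ≠ 0 :=
      Complex.ofReal_ne_zero.2 (Real.sqrt_pos.2 (by positivity)).ne'
    have h4 : (n.factorial : ℂ) ≠ 0 := Nat.cast_ne_zero.2 (Nat.factorial_ne_zero n)
    rw [hK0def]
    exact mul_ne_zero (inv_ne_zero (pow_ne_zero _ (mul_ne_zero two_ne_zero h1)))
      (div_ne_zero h2 (mul_ne_zero (mul_ne_zero h3 (pow_ne_zero _ two_ne_zero)) h4))
  have hmain : C * Λ 0 = conj κ * K0 *
      (conj (SumT σ n (2 ^ e) g d φ (hthO n)) * SumT σ n (2 ^ e) g d' φ (hthO n)) := by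
    have hsp : ∑ A : GC F D, ∑ B : GC F D,
        GTO q D σ n φ (aa A one) (rp B.1) (ga A one) (d A * d' one) =
        ∑ p : GC F D × GC F D,
        GTO q D σ n φ (aa p.1 one) (rp p.2.1) (ga p.1 one) (d p.1 * d' one) :=
      (Fintype.sum_prod_type fun p : GC F D × GC F D =>
        GTO q D σ n φ (aa p.1 one) (rp p.2.1) (ga p.1 one) (d p.1 * d' one)).symm
    rw [hdbl, hsp, ← E.sum_comp, Finset.sum_congr rfl (fun p _ => hterm p),
      Fintype.sum_prod_type]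
    unfold SumT
    rw [finsum_eq_sum_of_fintype, finsum_eq_sum_of_fintype, map_sum, mul_assoc,
      Finset.sum_mul_sum]
    refine congrArg (fun z => conj κ * z) ?_
    rw [Finset.mul_sum]
    refine Finset.sum_congr rfl fun A _ => ?_
    rw [Finset.mul_sum]
    refine Finset.sum_congr rfl fun B _ => ?_
    rw [mul_assoc]
  have hκc : conj κ ≠ 0 := by
    intro h
    exact hκ0 ((map_eq_zero _).1 h)
  refine ⟨C / (conj κ * K0), ?_⟩
  rw [div_mul_eq_mul_div, hmain, mul_div_assoc, mul_comm (conj κ * K0), div_mul_cancel₀]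
  exact mul_ne_zero hκc hK0

end Pool.Agent.Lib.MP_7c08ba_nt.CN.TW
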