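import Pool.Agent.Lib.MP_7c08ba_nt.CN.T.StH

set_option autoImplicit false

/-!
Project TW (H8): the classes of the ideals attached to pairs of classes of the principal genus.
-/

namespace Pool.Agent.Lib.MP_7c08ba_nt.CN.TW

open NumberField IsDedekindDomain Polynomial Pool.Agent.Lib.MP_7c08ba_nt.RZ
open scoped nonZeroDivisors ComplexConjugate

theorem stBijT (h1 : StRg) (h2 : StGch) (h3 : StTor) : StBijT := by
  intro q F iF iN s σ χ cj D hDat hTw Q I J hQ hQG hI hJ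
  obtain ⟨hfin, hunit, -⟩ := h1 F iF iN D hTw.sqf.ne_zero
  obtain ⟨g1, -, g3, -⟩ := h2 q F iF iN s σ χ cj D hDat hTw
  obtain ⟨t1, t2, -, -⟩ := h3 q F iF iN s σ χ cj D hDat hTw
  have hfin' : Finite (RC F D) := hfin
  -- the conjugate ideals
  have cmem : ∀ X ∈ idp (F := F) D, X.map (cj : 𝓞 F →+* 𝓞 F) ∈ idp (F := F) D :=
    fun X hX => (g1 X hX).1
  have cmul : ∀ X ∈ idp (F := F) D, cl D X * cl D (X.map (cj : 𝓞 F →+* 𝓞 F)) = 1 := by
    intro X hX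
    rw [← cl_mul hX (cmem X hX)]
    exact (g1 X hX).2.2
  have cgen : ∀ X ∈ idp (F := F) D, Gen D (cl D X) →
      Gen D (cl D (X.map (cj : 𝓞 F →+* 𝓞 F))) := by
    intro X hX hG
    rw [(g3 _ (cmem X hX)).2.1, (g1 X hX).2.1]
    exact (g3 X hX).2.1.1 hG
  -- the ideals of the two components
  have m1 : ∀ p : GC F D × GC F D,
      I p.1 * (J p.2).map (cj : 𝓞 F →+* 𝓞 F) ∈ idp (F := F) D := fun p =>
    (idp D).mul_mem (hI p.1).1 (cmem _ (hJ p.2).1)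
  have m2 : ∀ p : GC F D × GC F D, Q * I p.1 * J p.2 ∈ idp (F := F) D := fun p =>
    (idp D).mul_mem ((idp D).mul_mem hQ (hI p.1).1) (hJ p.2).1
  have e1 : ∀ p : GC F D × GC F D, cl D (I p.1 * (J p.2).map (cj : 𝓞 F →+* 𝓞 F)) =
      p.1.1 * cl D ((J p.2).map (cj : 𝓞 F →+* 𝓞 F)) := fun p => by
    rw [cl_mul (hI p.1).1 (cmem _ (hJ p.2).1), (hI p.1).2]
  have e2 : ∀ p : GC F D × GC F D, cl D (Q * I p.1 * J p.2) = cl D Q * p.1.1 * p.2.1 :=
    fun p => by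
    rw [cl_mul ((idp D).mul_mem hQ (hI p.1).1) (hJ p.2).1, cl_mul hQ (hI p.1).1, (hI p.1).2,
      (hJ p.2).2]
  have e3 : ∀ B : GC F D, B.1 * cl D ((J B).map (cj : 𝓞 F →+* 𝓞 F)) = 1 := fun B => by
    have h := cmul (J B) (hJ B).1
    rwa [(hJ B).2] at h
  have e4 : ∀ A : GC F D, A.1 * cl D ((I A).map (cj : 𝓞 F →+* 𝓞 F)) = 1 := fun A => by
    have h := cmul (I A) (hI A).1
    rwa [(hI A).2] at h
  have G1 : ∀ p : GC F D × GC F D,
      Gen D (cl D (I p.1 * (J p.2).map (cj : 𝓞 F →+* 𝓞 F))) := fun p => by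
    rw [e1 p]
    refine t2 _ _ p.1.2 (cgen _ (hJ p.2).1 ?_)
    rw [(hJ p.2).2]
    exact p.2.2
  have G2 : ∀ p : GC F D × GC F D,
      Gen D (cl D ((Q * I p.1 * J p.2).map (cj : 𝓞 F →+* 𝓞 F))) := fun p => by
    refine cgen _ (m2 p) ?_
    rw [e2 p]
    exact t2 _ _ (t2 _ _ hQG p.1.2) p.2.2
  -- the map
  let f : GC F D × GC F D → GC F D × GC F D := fun p =>
    (⟨_, G1 p⟩, ⟨_, G2 p⟩)
  have hf : Function.Injective f := by
    intro p p' h
    have k1 : cl D (I p.1 * (J p.2).map (cj : 𝓞 F →+* 𝓞 F)) =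
        cl D (I p'.1 * (J p'.2).map (cj : 𝓞 F →+* 𝓞 F)) :=
      congrArg (fun x : GC F D × GC F D => x.1.1) h
    have k2 : cl D ((Q * I p.1 * J p.2).map (cj : 𝓞 F →+* 𝓞 F)) =
        cl D ((Q * I p'.1 * J p'.2).map (cj : 𝓞 F →+* 𝓞 F)) :=
      congrArg (fun x : GC F D × GC F D => x.2.1) h
    rw [e1 p, e1 p'] at k1
    -- the product of the two classes
    have k3 : p.1.1 * p.2.1 = p'.1.1 * p'.2.1 := by
      have a1 := cmul _ (m2 p)
      have a2 := cmul _ (m2 p')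
      rw [k2] at a1
      have a3 : cl D (Q * I p.1 * J p.2) = cl D (Q * I p'.1 * J p'.2) := by
        refine (hunit (cl D ((Q * I p'.1 * J p'.2).map (cj : 𝓞 F →+* 𝓞 F)))).mul_left_cancel ?_
        rw [mul_comm, a1, mul_comm, a2]
      rw [e2 p, e2 p', mul_assoc, mul_assoc] at a3
      exact (hunit (cl D Q)).mul_left_cancel a3
    have k4 : p.1.1 * p.1.1 = p'.1.1 * p'.1.1 := by
      have a1 : p.1.1 * p.1.1 = (p.1.1 * p.2.1) *
          (p.1.1 * cl D ((J p.2).map (cj : 𝓞 F →+* 𝓞 F))) := by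
        rw [mul_mul_mul_comm, e3 p.2, mul_one]
      have a2 : p'.1.1 * p'.1.1 = (p'.1.1 * p'.2.1) *
          (p'.1.1 * cl D ((J p'.2).map (cj : 𝓞 F →+* 𝓞 F))) := by
        rw [mul_mul_mul_comm, e3 p'.2, mul_one]
      rw [a1, a2, k3, k1]
    have k5 : p.1.1 = p'.1.1 := by
      have a1 : Gen D (cl D ((I p'.1).map (cj : 𝓞 F →+* 𝓞 F))) := by
        refine cgen _ (hI p'.1).1 ?_
        rw [(hI p'.1).2]
        exact p'.1.2
      have a2 : p.1.1 * cl D ((I p'.1).map (cj : 𝓞 F →+* 𝓞 F)) = 1 := by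
        refine t1 _ (t2 _ _ p.1.2 a1) ?_
        rw [mul_mul_mul_comm, k4, ← mul_mul_mul_comm, e4 p'.1, mul_one]
      refine (hunit (cl D ((I p'.1).map (cj : 𝓞 F →+* 𝓞 F)))).mul_left_cancel ?_
      rw [mul_comm, a2, mul_comm, e4 p'.1]
    have k6 : p.2.1 = p'.2.1 := by
      rw [k5] at k3
      exact (hunit p'.1.1).mul_left_cancel k3
    exact Prod.ext (Subtype.ext k5) (Subtype.ext k6)
  refine ⟨Equiv.ofBijective f (Finite.injective_iff_bijective.1 hf), fun p => ⟨rfl, rfl⟩⟩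

end Pool.Agent.Lib.MP_7c08ba_nt.CN.TW
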