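import Pool.Agent.Lib.MP_7c08ba_nt.CN.ACM
import Pool.Agent.Lib.MP_7c08ba_nt.CN.T.StTh
import Pool.Agent.Lib.MP_7c08ba_nt.RZ.Bas
import Pool.Agent.Lib.MP_7c08ba_nt.RZ.Base

set_option autoImplicit false

/-!
Project TW, module CMT: the ideals attached to a pair.
-/

namespace Pool.Agent.Lib.MP_7c08ba_nt.CN.TW

open NumberField IsDedekindDomain Polynomial Pool.Agent.Lib.MP_7c08ba_nt.RZ
open scoped nonZeroDivisors ComplexConjugate

namespace CMTAux

theorem odd_D {q D : ℕ} (h : TwA q D) : Odd D := by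
  rw [← Nat.not_even_iff_odd, even_iff_two_dvd]
  intro h2
  have h3 := h.mod4 2 Nat.prime_two h2
  omega

section

variable {F : Type} [Field F] [NumberField F] {q D : ℕ} {s : 𝓞 F} {σ : F →+* ℂ}
  {χ : DirichletCharacter ℂ q} {cj : 𝓞 F ≃+* 𝓞 F}

theorem odd_b (hD : Dat q s σ χ cj) (hT : TwA q D) {b : ℤ} (h : (4 : ℤ) ∣ b ^ 2 + q * D ^ 2) :
    Odd b := by
  by_contra hn
  rw [Int.not_odd_iff_even] at hn
  obtain ⟨k, hk⟩ := hn
  obtain ⟨l, hl⟩ := odd_D hT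
  obtain ⟨c, hc⟩ := h
  have h1 := hD.mod
  have h2 : b ^ 2 = 4 * (k * k) := by rw [hk]; ring
  have h3 : (q : ℤ) * D ^ 2 = 4 * (q * (l * l + l)) + q := by
    rw [hl]
    push_cast
    ring
  have h4 : (q : ℤ) = 4 * (c - k * k - q * (l * l + l)) := by linarith
  omega

/-- the ideal `(M, g)`, `g = (b + D s) / 2`, for `M` prime to `D` -/
theorem main (hD : Dat q s σ χ cj) (hT : TwA q D) {b : ℤ} {g : 𝓞 F} {M : ℕ} (hM : 0 < M)
    (hMD : M.Coprime D) (hg : 2 * g = b + D * s) (hdvd : (4 * M : ℤ) ∣ b ^ 2 + q * D ^ 2) :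
    (∀ x : 𝓞 F, x ∈ latD D (idl g M) ↔ ∃ m n : ℤ, x = m * g + n * M) ∧
    Ideal.absNorm (idl g M) = M := by
  have hDo := odd_D hT
  have hD0 : 0 < D := hDo.pos
  obtain ⟨H1, H2, H3, H4, H5, H6, H7, H8, H9, H10, H11⟩ := stBas q F _ _ s σ χ cj hD
  have hco : IsCoprime (D : ℤ) ((2 * M : ℕ) : ℤ) := by
    rw [Nat.isCoprime_iff_coprime]
    refine Nat.Coprime.mul_right ?_ hMD.symm
    exact Nat.coprime_two_right.2 hDo
  have hco4 : IsCoprime ((4 * M : ℕ) : ℤ) ((D : ℤ) ^ 2) := by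
    refine IsCoprime.pow_right ?_
    rw [Nat.isCoprime_iff_coprime]
    refine Nat.Coprime.mul_left ?_ hMD
    have h4 : (4 : ℕ) = 2 ^ 2 := by norm_num
    rw [h4]
    exact Nat.Coprime.pow_left 2 (Nat.coprime_two_left.2 hDo)
  obtain ⟨u, v, huv⟩ := hco
  -- `D b' = b + 2 M t`
  set b' : ℤ := u * b with hb'
  set t : ℤ := -(v * b) with ht
  have hbt : (D : ℤ) * b' = b + 2 * M * t := by
    rw [hb', ht]
    push_cast at huv
    linear_combination b * huv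
  have h4b' : (4 * M : ℤ) ∣ b' ^ 2 + q := by
    have h1 : (4 * M : ℤ) ∣ (b' ^ 2 + q) * (D : ℤ) ^ 2 := by
      have h2 : (b' ^ 2 + q) * (D : ℤ) ^ 2 =
          (b ^ 2 + q * D ^ 2) + 4 * M * (t * b + M * t ^ 2) := by
        linear_combination (D * b' + (b + 2 * M * t)) * hbt
      rw [h2]
      exact dvd_add hdvd (Dvd.intro _ rfl)
    have h3 : ((4 * M : ℕ) : ℤ) ∣ (b' ^ 2 + q) * (D : ℤ) ^ 2 := by exact_mod_cast h1
    have h5 := hco4.dvd_of_dvd_mul_right h3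
    exact_mod_cast h5
  have hb'o : Odd b' := acm_odd hD ((Dvd.intro _ rfl).trans h4b')
  obtain ⟨k, hk⟩ := hb'o
  have h20 : (2 : 𝓞 F) ≠ 0 := two_ne_zero
  -- `g' = (b' + s) / 2`
  obtain ⟨θ, hθ⟩ : ∃ θ : 𝓞 F, 2 * θ = 1 + s := by
    have hb := odd_b hD hT (((Dvd.intro _ rfl : (4 : ℤ) ∣ 4 * M)).trans hdvd)
    obtain ⟨k1, hk1⟩ := hb
    obtain ⟨l, hl⟩ := hDo
    refine ⟨g - k1 - l * s, ?_⟩
    have e1 : (b : 𝓞 F) = 2 * k1 + 1 := by
      exact_mod_cast congrArg (Int.cast : ℤ → 𝓞 F) hk1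
    have e2 : (D : 𝓞 F) = 2 * l + 1 := by
      exact_mod_cast congrArg (Nat.cast : ℕ → 𝓞 F) hl
    linear_combination hg + e1 + s * e2
  set g' : 𝓞 F := θ + k with hg'
  have hk' : (b' : 𝓞 F) = 2 * k + 1 := by
    exact_mod_cast congrArg (Int.cast : ℤ → 𝓞 F) hk
  have hg2 : 2 * g' = b' + s := by
    rw [hg']
    linear_combination hθ - hk'
  have hbt' : (D : 𝓞 F) * b' = b + 2 * M * t := by
    exact_mod_cast congrArg (Int.cast : ℤ → 𝓞 F) hbt
  have hgg : (D : 𝓞 F) * g' = g + M * t := by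
    apply mul_left_cancel₀ h20
    linear_combination (D : 𝓞 F) * hg2 - hg + hbt'
  have huv' : (u : 𝓞 F) * D + v * (2 * M) = 1 := by
    have h1 := congrArg (Int.cast : ℤ → 𝓞 F) huv
    push_cast at h1
    exact h1
  have hidl : idl g M = idl g' M := by
    unfold idl
    apply le_antisymm
    · rw [Ideal.span_le]
      rintro x hx
      simp only [Set.mem_insert_iff, Set.mem_singleton_iff] at hx
      rcases hx with rfl | rfl
      · exact Ideal.subset_span (by simp)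
      · exact Ideal.mem_span_pair.2 ⟨-t, D, by linear_combination hgg⟩
    · rw [Ideal.span_le]
      rintro x hx
      simp only [Set.mem_insert_iff, Set.mem_singleton_iff] at hx
      rcases hx with rfl | rfl
      · exact Ideal.subset_span (by simp)
      · exact Ideal.mem_span_pair.2 ⟨u * t + v * 2 * g', u, by
          linear_combination (-(u : 𝓞 F)) * hgg + g' * huv'⟩
  obtain ⟨hO, hN⟩ := acm_basis stBas (stBase stBas) hD hM hg2 h4b'
  rw [hidl]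
  refine ⟨?_, hN⟩
  -- linear independence of `1, g'`
  have hind : ∀ m n : ℤ, (m : 𝓞 F) * g' + n = 0 → m = 0 ∧ n = 0 := by
    intro m n h
    have h1 := (stBase stBas q F _ _ s σ χ cj hD).2.2.2.1 _ _ _ hO m (n * 1)
    have h2 := (stBase stBas q F _ _ s σ χ cj hD).2.2.2.1 _ _ _ hO (m * M) n (by
      push_cast
      linear_combination (M : 𝓞 F) * h)
    refine ⟨?_, h2.2⟩
    rcases mul_eq_zero.1 h2.1 with h3 | h3
    · exact h3
    · omega
  intro x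
  constructor
  · rintro ⟨hx, c, y, hy⟩
    obtain ⟨m, n, rfl⟩ := (hO.mem x).1 hx
    -- `y = y₁ + y₂ g'`
    obtain ⟨α, β, hαβ, γ, hγ⟩ := H1 y
    have hγ' : (α : 𝓞 F) - β = 2 * γ := by
      exact_mod_cast congrArg (Int.cast : ℤ → 𝓞 F) hγ
    have hy2 : y = (γ - k * β : ℤ) + β * g' := by
      apply mul_left_cancel₀ h20
      push_cast
      linear_combination hαβ + hγ' - (β : 𝓞 F) * hg2 - (β : 𝓞 F) * hk'
    have h1 := hind (m - D * β) (n * M - c - D * (γ - k * β)) (by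
      rw [hy2] at hy
      push_cast at hy ⊢
      linear_combination hy)
    have hm : m = D * β := by linarith [h1.1]
    refine ⟨β, n + t * β, ?_⟩
    rw [hm]
    push_cast
    linear_combination (β : 𝓞 F) * hgg
  · rintro ⟨m, n, rfl⟩
    refine ⟨(hO.mem _).2 ⟨D * m, n - m * t, ?_⟩, ?_⟩
    · push_cast
      linear_combination (-(m : 𝓞 F)) * hgg
    · refine ⟨n * M + m * (k * D) - m * (M * t), m * θ, ?_⟩
      have e3 : g = D * θ + D * k - M * t := by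
        rw [hg'] at hgg
        linear_combination -hgg
      rw [e3]
      push_cast
      ring

end

end CMTAux

open CMTAux in
/-- Module CMT. -/
theorem stCMT (h : StRg) : StCMT := by
  intro q F _ _ s σ χ cj D e d₁ d₂ b a ω g ga hD hT hP
  obtain ⟨H1, H2, H3, H4, H5, H6, H7, H8, H9, H10, H11⟩ := stBas q F _ _ s σ χ cj hD
  have hDo := odd_D hT
  have hD0 : D ≠ 0 := hDo.pos.ne'
  obtain ⟨-, -, hI⟩ := h F inferInstance inferInstance D hD0
  have hidp : ∀ {I : Ideal (𝓞 F)} {M : ℕ}, 0 < M → M.Coprime D → Ideal.absNorm I = M →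
      I ∈ idp (F := F) D := by
    intro I M hM hMD hN
    have hc : (Ideal.absNorm I).Coprime D := by
      rw [hN]
      exact hMD
    have hne : I ≠ ⊥ := by
      intro h0
      rw [h0, Ideal.absNorm_bot] at hN
      omega
    exact (hI I).2 ⟨hne, hc⟩
  obtain ⟨u, hu⟩ := hP.dvd
  obtain ⟨ω₁, hω₁⟩ := hP.om₁
  obtain ⟨ω₂, hω₂⟩ := hP.om₂
  obtain ⟨c, hc⟩ := hP.ab
  have hd₁ : 0 < d₁ := hP.odd₁.pos
  have hd₂ : 0 < d₂ := hP.odd₂.pos
  have hb1 : (4 * d₁ : ℤ) ∣ b ^ 2 + q * D ^ 2 := ⟨2 * 2 ^ e * d₁ * d₂ ^ 2 * u, by rw [hu]; ring⟩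
  have hb2 : (4 * d₂ : ℤ) ∣ b ^ 2 + q * D ^ 2 := ⟨2 * 2 ^ e * d₁ ^ 2 * d₂ * u, by rw [hu]; ring⟩
  have hb3 : (4 * (2 ^ e : ℕ) : ℤ) ∣ b ^ 2 + q * D ^ 2 :=
    ⟨2 * (d₁ * d₂) ^ 2 * u, by rw [hu]; push_cast; ring⟩
  have hb4 : (4 * (2 ^ e * (d₁ * d₂) : ℕ) : ℤ) ∣ (-b) ^ 2 + q * D ^ 2 :=
    ⟨2 * (d₁ * d₂) * u, by rw [neg_sq, hu]; push_cast; ring⟩
  have ha : (4 * (d₁ * d₂ : ℕ) : ℤ) ∣ a ^ 2 + q * D ^ 2 := by
    have h3 : a = ω * b + 2 * (d₁ * d₂) * c := by linarith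
    refine ⟨ω₁ * ω₂ * b ^ 2 + ω * b * c + d₁ * d₂ * c ^ 2 + 2 * 2 ^ e * (d₁ * d₂) * u, ?_⟩
    push_cast
    have h5 : a ^ 2 + (q : ℤ) * D ^ 2 = (ω - 1) * (ω + 1) * b ^ 2 + 4 * (d₁ * d₂) * (ω * b * c) +
        4 * (d₁ * d₂) * (d₁ * d₂ * c ^ 2) + (b ^ 2 + q * D ^ 2) := by
      rw [h3]
      ring
    rw [h5, hω₁, hω₂, hu]
    ring
  have hcop : (2 ^ e).Coprime (d₁ * d₂) := by
    refine Nat.Coprime.pow_left e ?_
    rw [Nat.coprime_two_left]
    exact hP.odd₁.mul hP.odd₂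
  have hc1 : d₁.Coprime D := hP.cq₁.coprime_dvd_right (Dvd.intro_left _ rfl)
  have hc2 : d₂.Coprime D := hP.cq₂.coprime_dvd_right (Dvd.intro_left _ rfl)
  have hce : (2 ^ e).Coprime D := Nat.Coprime.pow_left e (Nat.coprime_two_left.2 hDo)
  have h20 : (2 : 𝓞 F) ≠ 0 := two_ne_zero
  have hn1 := (main hD hT hd₁ hc1 hP.two hb1).2
  have hn2 := (main hD hT hd₂ hc2 hP.two hb2).2
  have hne := (main hD hT (by positivity) hce hP.two hb3).2
  have h5 : 2 * cj g = b - D * s := by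
    have h6 := congrArg cj hP.two
    rw [map_mul, map_ofNat, map_add, map_intCast, map_mul, map_natCast, H3] at h6
    rw [h6]
    ring
  refine ⟨⟨hn1, hidp hd₁ hc1 hn1⟩, ⟨hn2, hidp hd₂ hc2 hn2⟩,
    ⟨hne, hidp (by positivity) hce hne⟩, ?_, ?_⟩
  · -- the first ideal
    have e1 : idl ga d₁ = idl g d₁ := by
      refine acm_congr (c := (d₂ * c + ω₁ * b : ℤ)) ?_
      apply mul_left_cancel₀ h20
      have h3 : a - b = 2 * (d₁ * (d₂ * c + ω₁ * b)) := by linear_combination hc + b * hω₁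
      have h4 : (a : 𝓞 F) - b = 2 * (d₁ * ((d₂ * c + ω₁ * b : ℤ) : 𝓞 F)) := by
        exact_mod_cast congrArg (Int.cast : ℤ → 𝓞 F) h3
      linear_combination hP.two' - hP.two + h4
    have e2 : idl ga d₂ = idl (cj g) d₂ := by
      rw [← acm_neg (cj g)]
      refine acm_congr (c := (d₁ * c + ω₂ * b : ℤ)) ?_
      apply mul_left_cancel₀ h20
      have h3 : a + b = 2 * (d₂ * (d₁ * c + ω₂ * b)) := by linear_combination hc + b * hω₂
      have h4 : (a : 𝓞 F) + b = 2 * (d₂ * ((d₁ * c + ω₂ * b : ℤ) : 𝓞 F)) := by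
        exact_mod_cast congrArg (Int.cast : ℤ → 𝓞 F) h3
      linear_combination hP.two' + h5 + h4
    have h12 : (d₁ * d₂).Coprime (q * D) := Nat.Coprime.mul_left hP.cq₁ hP.cq₂
    have h12D : (d₁ * d₂).Coprime D := Nat.Coprime.mul_left hc1 hc2
    have hm := main hD hT (Nat.mul_pos hd₁ hd₂) h12D hP.two' ha
    rw [acm_map, ← e1, ← e2, acm_mul ga hP.cop]
    exact
      { mem := hidp (Nat.mul_pos hd₁ hd₂) h12D hm.2
        two := hP.two'
        dvd := hP.qa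
        odd := hP.odd₁.mul hP.odd₂
        cop := h12
        norm := hm.2
        lat := hm.1 }
  · -- the second ideal
    intro x
    rw [mul_assoc, acm_mul g hP.cop, acm_mul g hcop, acm_map, ← acm_neg (cj g)]
    have h6 : 2 * -cj g = ((-b : ℤ) : 𝓞 F) + D * s := by
      push_cast
      linear_combination -h5
    have hm := main hD hT (Nat.mul_pos (pow_pos two_pos e) (Nat.mul_pos hd₁ hd₂))
      (Nat.Coprime.mul_left hce (Nat.Coprime.mul_left hc1 hc2)) h6 hb4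
    rw [hm.1 x]
    constructor
    · rintro ⟨m, n, rfl⟩
      exact ⟨n, m, by ring⟩
    · rintro ⟨m, k, rfl⟩
      exact ⟨k, m, by ring⟩

end Pool.Agent.Lib.MP_7c08ba_nt.CN.TW
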