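import Pool.Agent.Lib.MP_7c08ba_nt.CN.T.Defs

set_option autoImplicit false

/-!
Project TW: immediate consequences of the definitions.
-/

namespace Pool.Agent.Lib.MP_7c08ba_nt.CN.TW

open NumberField IsDedekindDomain Polynomial Pool.Agent.Lib.MP_7c08ba_nt.RZ
open scoped nonZeroDivisors ComplexConjugate

variable {F : Type} [Field F] [NumberField F] {D : ℕ}

theorem cl_def {I : Ideal (𝓞 F)} (h : I ∈ idp (F := F) D) :
    cl D I = ((⟨I, h⟩ : idp (F := F) D) : RC F D) := by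
  unfold cl
  rw [dif_pos h]

theorem cl_mul {I J : Ideal (𝓞 F)} (hI : I ∈ idp (F := F) D) (hJ : J ∈ idp (F := F) D) :
    cl D (I * J) = cl D I * cl D J := by
  rw [cl_def hI, cl_def hJ, cl_def ((idp D).mul_mem hI hJ)]
  rfl

theorem cl_one : cl D (1 : Ideal (𝓞 F)) = 1 := by
  rw [cl_def (idp D).one_mem]
  rfl

theorem cl_eq_iff {I J : Ideal (𝓞 F)} (hI : I ∈ idp (F := F) D) (hJ : J ∈ idp (F := F) D) :
    cl D I = cl D J ↔ ∃ x y : 𝓞 F, Rat D x ∧ Rat D y ∧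
      Ideal.span {x} * I = Ideal.span {y} * J := by
  rw [cl_def hI, cl_def hJ, Con.eq]
  rfl

theorem rp_mem (A : RC F D) : rp A ∈ idp (F := F) D :=
  (Quotient.out A : idp (F := F) D).2

theorem cl_rp (A : RC F D) : cl D (rp A) = A := by
  rw [cl_def (rp_mem A)]
  exact Quotient.out_eq A

theorem exists_rep (A : RC F D) : ∃ I ∈ idp (F := F) D, cl D I = A := ⟨rp A, rp_mem A, cl_rp A⟩

theorem rat_int {m : ℤ} (h0 : m ≠ 0) (h : IsCoprime m (D : ℤ)) : Rat D (m : 𝓞 F) :=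
  ⟨by exact_mod_cast h0, m, h, by simp⟩

theorem rat_neg {x : 𝓞 F} (h : Rat D x) : Rat D (-x) := by
  obtain ⟨h0, c, hc, u, hu⟩ := h
  exact ⟨neg_ne_zero.2 h0, -c, hc.neg_left, -u, by push_cast; linear_combination -hu⟩

end Pool.Agent.Lib.MP_7c08ba_nt.CN.TW
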