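import Pool.Agent.Lib.MP_7c08ba_nt.CN.T.StP
import Pool.Agent.Lib.MP_7c08ba_nt.CN.T.Basic
import Pool.Agent.Lib.MP_7c08ba_nt.RZ.C.Chain

set_option autoImplicit false

/-!
Project TW, module C2: the chain of the lattices `a ∩ (ℤ + D O)` attached to an ideal `a`.
-/

namespace Pool.Agent.Lib.MP_7c08ba_nt.CN.TW

open NumberField IsDedekindDomain Polynomial RZC
open scoped nonZeroDivisors ComplexConjugate

namespace ChainTAux

section

variable {F : Type} [Field F] [NumberField F] {D : ℕ}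

theorem rat_pow {x : 𝓞 F} (h : Rat D x) (j : ℕ) : Rat D (x ^ j) := by
  induction j with
  | zero => rw [pow_zero]; exact Rat.one D
  | succ j ih => rw [pow_succ]; exact ih.mul h

/-- Multiplication by elements congruent to units of `ℤ / D`. -/
theorem rat_cancel {w y : 𝓞 F} (hw : Rat D w) :
    (∃ c : ℤ, (D : 𝓞 F) ∣ w * y - c) ↔ ∃ c : ℤ, (D : 𝓞 F) ∣ y - c := by
  obtain ⟨-, c, hc, r, hr⟩ := hw
  constructor
  · rintro ⟨e, t, ht⟩
    obtain ⟨u, v, huv⟩ := hc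
    have huv' : (u : 𝓞 F) * c + v * D = 1 := by exact_mod_cast congrArg (fun z : ℤ => (z : 𝓞 F)) huv
    refine ⟨u * e, v * y + u * t - u * r * y, ?_⟩
    push_cast
    linear_combination (-y) * huv' + (u : 𝓞 F) * ht - (u : 𝓞 F) * y * hr
  · rintro ⟨e, t, ht⟩
    refine ⟨c * e, r * y + c * t, ?_⟩
    push_cast
    linear_combination y * hr + (c : 𝓞 F) * ht

/-- `c ^ k * z` is in `σ (latD D (P ^ n * a))` -/
def ChD (D : ℕ) (σ : F →+* ℂ) (P a : Ideal (𝓞 F)) (c : ℂ) (k n : ℕ) (z : ℂ) : Prop :=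
  ∃ y ∈ latD D (P ^ n * a), σ ((y : 𝓞 F) : F) = c ^ k * z

theorem chD_shift (σ : F →+* ℂ) (P a : Ideal (𝓞 F))
    (m : ℕ) (x : 𝓞 F) (hx : P ^ m = Ideal.span {x}) (hxr : Rat D x) (hc : σ (x : F) ≠ 0)
    (k n j : ℕ) (z : ℂ) :
    ChD D σ P a (σ (x : F)) (k + j) (n + m * j) z ↔ ChD D σ P a (σ (x : F)) k n z := by
  have h1 : P ^ (n + m * j) * a = Ideal.span {x ^ j} * (P ^ n * a) := by
    rw [pow_add, pow_mul, hx, Ideal.span_singleton_pow]; ring
  have hj : (σ (x : F)) ^ j ≠ 0 := pow_ne_zero _ hc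
  have hr := rat_pow hxr j
  have h2 : ∀ y : 𝓞 F, σ ((x ^ j * y : 𝓞 F) : F) = σ (x : F) ^ j * σ (y : F) := by
    intro y
    rw [← map_pow, ← map_mul]
    congr 1
  constructor
  · rintro ⟨y', ⟨hy', hyr⟩, e⟩
    rw [h1, Ideal.mem_span_singleton_mul] at hy'
    obtain ⟨y, hy, rfl⟩ := hy'
    refine ⟨y, ⟨hy, (rat_cancel hr).1 hyr⟩, ?_⟩
    rw [h2] at e
    have : σ (x : F) ^ j * σ (y : F) = σ (x : F) ^ j * (σ (x : F) ^ k * z) := by
      rw [e, pow_add]; ring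
    exact mul_left_cancel₀ hj this
  · rintro ⟨y, ⟨hy, hyr⟩, e⟩
    refine ⟨x ^ j * y, ⟨?_, (rat_cancel hr).2 hyr⟩, ?_⟩
    · rw [h1, Ideal.mem_span_singleton_mul]
      exact ⟨y, hy, rfl⟩
    · rw [h2, e, pow_add]; ring

end

end ChainTAux

open ChainTAux

theorem stChainT (h1 : StAdaptT) (_h2 : StRg) : StChainT := by
  intro q F _ _ s D σ P a m x hF hD hP hN hm hx hxr ha
  have hPD : P ∈ idp (F := F) D := (h1 q F _ _ s D σ P a hF hD hP hN ha).1
  have hx0 : x ≠ 0 := hxr.1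
  have hc : σ (x : F) ≠ 0 := by
    rw [Ne, map_eq_zero]
    simpa using hx0
  have hle : ∀ i : ℕ, i + 2 ≤ m * (i + 2) := fun i => Nat.le_mul_of_pos_left _ hm
  have hb : ∀ i : ℕ, P ^ (m * (i + 2) - (i + 2)) * a ∈ idp (F := F) D := fun i =>
    (idp D).mul_mem ((idp D).pow_mem hPD _) ha
  choose w₁ w₂ hA hB hC using fun i : ℕ => (h1 q F _ _ s D σ P _ hF hD hP hN (hb i)).2
  set c := σ (x : F) with hcdef
  have hck : ∀ k : ℕ, c ^ k ≠ 0 := fun k => pow_ne_zero k hc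
  -- the three lattices
  have eA : ∀ i z, z ∈ lat (w₁ i / c ^ (i + 1)) (w₂ i / c ^ (i + 1)) ↔
      ChD D σ P a c (i + 1) (m * (i + 2) - (i + 2) + 2) z := by
    intro i z
    rw [mem_lat_div _ _ _ _ (hck _), (hA i).2, ← mul_assoc, ← pow_add, add_comm 2]
    rfl
  have eB : ∀ i z, z ∈ lat (w₁ i / c ^ (i + 1)) (w₂ i / c ^ (i + 1) / 2) ↔
      ChD D σ P a c (i + 1) (m * (i + 2) - (i + 2) + 1) z := by
    intro i z
    rw [div_right_comm, mem_lat_div _ _ _ _ (hck _), (hB i).2, ← mul_assoc, ← pow_succ']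
    rfl
  have eC : ∀ i z, z ∈ lat (w₁ i / c ^ (i + 1)) (w₂ i / c ^ (i + 1) / 4) ↔
      ChD D σ P a c (i + 1) (m * (i + 2) - (i + 2)) z := by
    intro i z
    rw [div_right_comm, mem_lat_div _ _ _ _ (hck _), (hC i).2]
    rfl
  have hpos : ∀ i, Pos (w₁ i / c ^ (i + 1)) (w₂ i / c ^ (i + 1)) := by
    intro i
    unfold Pos
    rw [div_div_div_cancel_right₀ (hck _)]
    exact (hA i).1
  have hsh := fun k n j z => chD_shift (D := D) σ P a m x hx hxr hc k n j z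
  refine ⟨fun i => w₁ i / c ^ (i + 1), fun i => w₂ i / c ^ (i + 1),
    ⟨hpos, ?_, ?_, ?_, hc⟩, ?_⟩
  · intro i
    ext z
    rw [eA, eB, ← hsh (i + 1) _ 1 z]
    have h1 := hle i
    have h2 := hle (i + 1)
    have h3 : m * (i + 1 + 2) = m * (i + 2) + m * 1 := by ring
    have : m * (i + 1 + 2) - (i + 1 + 2) + 2 = m * (i + 2) - (i + 2) + 1 + m * 1 := by omega
    rw [this]
  · intro i
    ext z
    rw [eB, eC, ← hsh (i + 1) _ 1 z]
    have h1 := hle i
    have h2 := hle (i + 1)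
    have h3 : m * (i + 1 + 2) = m * (i + 2) + m * 1 := by ring
    have : m * (i + 1 + 2) - (i + 1 + 2) + 1 = m * (i + 2) - (i + 2) + m * 1 := by omega
    rw [this]
  · intro i
    ext z
    rw [mem_lat_mul _ _ _ _ hc, eA, eA]
    obtain ⟨r, rfl⟩ : ∃ r, m = r + 1 := ⟨m - 1, by omega⟩
    rw [← hsh (i + 1) _ r z]
    have h1 := hle i
    have h2 := hle (i + (r + 1))
    have h3 : (r + 1) * (i + (r + 1) + 2) = (r + 1) * (i + 2) + (r + 1) * r + (r + 1) := by ring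
    have : (r + 1) * (i + (r + 1) + 2) - (i + (r + 1) + 2) + 2 =
        (r + 1) * (i + 2) - (i + 2) + 2 + (r + 1) * r := by omega
    rw [this]
    have e : c ^ (i + (r + 1) + 1) * (z / c) = c ^ (i + 1 + r) * z := by
      rw [show i + (r + 1) + 1 = (i + 1 + r) + 1 by ring, pow_succ]
      field_simp
    unfold ChD
    rw [e]
  · intro i hi
    refine ⟨hpos i, fun z => ?_⟩
    rw [eA]
    have h1 := hle i
    have h3 : m * (i + 2) = m * (i + 1) + m := by ring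
    have : m * (i + 2) - (i + 2) + 2 = m - i + m * (i + 1) := by omega
    have h4 : i + 1 = 0 + (i + 1) := by ring
    rw [this]
    have h5 := hsh 0 (m - i) (i + 1) z
    rw [zero_add] at h5
    rw [h5]
    unfold ChD
    simp

end Pool.Agent.Lib.MP_7c08ba_nt.CN.TW
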