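import Pool.Agent.Lib.MP_7c08ba_nt.CN.T.StH
import Pool.Agent.Lib.MP_7c08ba_nt.RZ.Bas

set_option autoImplicit false

/-!
Project TW (H6): the number of units congruent to `1` modulo `D / r` which map a given element to
the rational integers.
-/

namespace Pool.Agent.Lib.MP_7c08ba_nt.CN.TW

open NumberField IsDedekindDomain Polynomial Pool.Agent.Lib.MP_7c08ba_nt.RZ
open scoped nonZeroDivisors ComplexConjugate

namespace CntKAux

theorem jac_neg {q r : ℕ} (hq : q % 16 = 7) (h4 : r % 4 = 1) (hj : jacobiSym r q = -1) :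
    jacobiSym (-(q : ℤ)) r = -1 := by
  have hr : Odd r := Nat.odd_iff.2 (by omega)
  have hqo : Odd q := Nat.odd_iff.2 (by omega)
  rw [jacobiSym.neg _ hr, ZMod.χ₄_nat_one_mod_four h4, one_mul,
    ← jacobiSym.quadratic_reciprocity_one_mod_four h4 hqo]
  exact hj

/-- the form `a² + q b²` represents no multiple of `r` primitively -/
theorem dvd_of_dvd {q r : ℕ} (hr : r.Prime) (hj : jacobiSym (-(q : ℤ)) r = -1) {a b : ℤ}
    (h : (r : ℤ) ∣ a ^ 2 + q * b ^ 2) : (r : ℤ) ∣ a ∧ (r : ℤ) ∣ b := by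
  haveI : Fact r.Prime := ⟨hr⟩
  have hns := ZMod.nonsquare_of_jacobiSym_eq_neg_one hj
  have h0 : ((a : ZMod r)) ^ 2 + q * (b : ZMod r) ^ 2 = 0 := by
    have h1 := (ZMod.intCast_zmod_eq_zero_iff_dvd (a ^ 2 + q * b ^ 2) r).2 h
    push_cast at h1
    exact h1
  have hb : (b : ZMod r) = 0 := by
    by_contra hb
    apply hns
    refine ⟨(a : ZMod r) / b, ?_⟩
    push_cast
    field_simp
    linear_combination -h0
  rw [hb] at h0
  have ha : (a : ZMod r) = 0 := by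
    have h2 : (a : ZMod r) ^ 2 = 0 := by linear_combination h0
    exact pow_eq_zero_iff (by norm_num) |>.1 h2
  exact ⟨(ZMod.intCast_zmod_eq_zero_iff_dvd a r).1 ha, (ZMod.intCast_zmod_eq_zero_iff_dvd b r).1 hb⟩

section

variable {q : ℕ} {F : Type} [Field F] [NumberField F] {s : 𝓞 F} {σ : F →+* ℂ}
  {χ : DirichletCharacter ℂ q} {cj : 𝓞 F ≃+* 𝓞 F}

/-- the elements not divisible by `r` are units modulo `r` -/
theorem exists_inv (Dt : Dat q s σ χ cj) {r : ℕ} (hr : r.Prime) (h4 : r % 4 = 1)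
    (hj : jacobiSym r q = -1) {x : 𝓞 F} (hx : ¬ (r : 𝓞 F) ∣ x) :
    ∃ y : 𝓞 F, (r : 𝓞 F) ∣ x * y - 1 := by
  obtain ⟨hb, -⟩ := stBas q F _ _ s σ χ cj Dt
  obtain ⟨a, b, hab, -⟩ := hb x
  have hs := Dt.sq
  have hN : ¬ (r : ℤ) ∣ a ^ 2 + q * b ^ 2 := by
    intro h
    obtain ⟨⟨u, hu⟩, ⟨v, hv⟩⟩ := dvd_of_dvd hr (jac_neg Dt.mod h4 hj) h
    apply hx
    obtain ⟨k, hk⟩ : ∃ k : ℕ, r + 1 = 2 * k := ⟨(r + 1) / 2, by omega⟩
    have hk' : ((r : 𝓞 F) + 1) = 2 * k := by exact_mod_cast congrArg (Nat.cast (R := 𝓞 F)) hk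
    refine ⟨k * (u + v * s) - x, ?_⟩
    rw [hu, hv] at hab
    push_cast at hab
    linear_combination k * hab + x * hk'
  have hc : IsCoprime (a ^ 2 + q * b ^ 2) (r : ℤ) :=
    ((Nat.prime_iff_prime_int.1 hr).coprime_iff_not_dvd.2 hN).symm
  obtain ⟨u, v, huv⟩ := hc
  have huv' : (u : 𝓞 F) * (a ^ 2 + q * b ^ 2) + v * r = 1 := by
    have h := congrArg (Int.cast (R := 𝓞 F)) huv
    push_cast at h
    exact h
  refine ⟨2 * (a - b * s) * u, -v, ?_⟩
  linear_combination (a - b * s) * u * hab - b ^ 2 * u * hs + huv'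

/-- the ideal is maximal -/
theorem isMaximal (Dt : Dat q s σ χ cj) {r : ℕ} (hr : r.Prime) (h4 : r % 4 = 1)
    (hj : jacobiSym r q = -1) (hu : ¬ IsUnit (r : 𝓞 F)) :
    (Ideal.span {(r : 𝓞 F)}).IsMaximal := by
  apply Ideal.Quotient.maximal_of_isField
  refine ⟨⟨0, 1, ?_⟩, mul_comm, ?_⟩
  · intro h
    apply hu
    have h1 : Ideal.Quotient.mk (Ideal.span {(r : 𝓞 F)}) 1 = 0 := h.symm
    rw [Ideal.Quotient.eq_zero_iff_mem, Ideal.mem_span_singleton] at h1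
    exact isUnit_of_dvd_one h1
  · intro a ha
    obtain ⟨x, rfl⟩ := Ideal.Quotient.mk_surjective a
    obtain ⟨y, hy⟩ := exists_inv Dt hr h4 hj (x := x) (by
      intro h
      exact ha ((Ideal.Quotient.eq_zero_iff_mem).2 (Ideal.mem_span_singleton.2 h)))
    refine ⟨Ideal.Quotient.mk _ y, ?_⟩
    rw [← map_mul, ← map_one (Ideal.Quotient.mk (Ideal.span {(r : 𝓞 F)}))]
    exact Ideal.Quotient.eq.2 (Ideal.mem_span_singleton.2 hy)

theorem absNorm_eq (Dt : Dat q s σ χ cj) (r : ℕ) :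
    Ideal.absNorm (Ideal.span {(r : 𝓞 F)}) = r ^ 2 := by
  obtain ⟨-, -, -, -, h, -⟩ := stBas q F _ _ s σ χ cj Dt
  have h1 := h (r : 𝓞 F)
  rw [map_natCast] at h1
  have h2 : ((Ideal.absNorm (Ideal.span {(r : 𝓞 F)}) : ℕ) : 𝓞 F) = ((r ^ 2 : ℕ) : 𝓞 F) := by
    rw [← h1]
    push_cast
    ring
  exact_mod_cast h2

theorem not_isUnit (Dt : Dat q s σ χ cj) {r : ℕ} (hr : r.Prime) : ¬ IsUnit (r : 𝓞 F) := by
  intro h
  have h1 := absNorm_eq Dt r
  rw [Ideal.span_singleton_eq_top.2 h, Ideal.absNorm_top] at h1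
  have := hr.two_le
  nlinarith

open Classical in
/-- the number of the units modulo `r` which map `x` to the rational integers -/
theorem card_local (Dt : Dat q s σ χ cj) {r : ℕ} (hr : r.Prime) (h4 : r % 4 = 1)
    (hj : jacobiSym r q = -1) (x : 𝓞 F) :
    (Nat.card {z : (𝓞 F ⧸ Ideal.span {(r : 𝓞 F)})ˣ // ∃ k : ℤ,
      (z : 𝓞 F ⧸ Ideal.span {(r : 𝓞 F)}) *
        Ideal.Quotient.mk (Ideal.span {(r : 𝓞 F)}) x = k} : ℕ) =
      if Ideal.Quotient.mk (Ideal.span {(r : 𝓞 F)}) x = 0 then r ^ 2 - 1 else r - 1 := by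
  haveI : Fact r.Prime := ⟨hr⟩
  have hu := not_isUnit (F := F) Dt hr
  haveI hmax := isMaximal Dt hr h4 hj hu
  letI : Field (𝓞 F ⧸ Ideal.span {(r : 𝓞 F)}) := Ideal.Quotient.field _
  haveI : CharP (𝓞 F ⧸ Ideal.span {(r : 𝓞 F)}) r := CharP.quotient (𝓞 F) r hu
  split_ifs with h0
  · have e : {z : (𝓞 F ⧸ Ideal.span {(r : 𝓞 F)})ˣ // ∃ k : ℤ,
        (z : 𝓞 F ⧸ Ideal.span {(r : 𝓞 F)}) *
          Ideal.Quotient.mk (Ideal.span {(r : 𝓞 F)}) x = k} ≃
        (𝓞 F ⧸ Ideal.span {(r : 𝓞 F)})ˣ :=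
      Equiv.subtypeUnivEquiv fun z => ⟨0, by rw [h0, mul_zero, Int.cast_zero]⟩
    rw [Nat.card_congr e, Nat.card_units]
    have h1 : Nat.card (𝓞 F ⧸ Ideal.span {(r : 𝓞 F)}) = r ^ 2 := by
      rw [← absNorm_eq Dt r]
      rfl
    rw [h1]
  · let f : ZMod r →+* 𝓞 F ⧸ Ideal.span {(r : 𝓞 F)} := ZMod.castHom (dvd_refl r) _
    let X : (𝓞 F ⧸ Ideal.span {(r : 𝓞 F)})ˣ := Units.mk0 _ h0
    have e : (ZMod r)ˣ ≃ {z : (𝓞 F ⧸ Ideal.span {(r : 𝓞 F)})ˣ // ∃ k : ℤ,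
        (z : 𝓞 F ⧸ Ideal.span {(r : 𝓞 F)}) *
          Ideal.Quotient.mk (Ideal.span {(r : 𝓞 F)}) x = k} := by
      refine Equiv.ofBijective (fun c => ⟨Units.map f.toMonoidHom c * X⁻¹, ?_⟩) ⟨?_, ?_⟩
      · refine ⟨((c : ZMod r).val : ℤ), ?_⟩
        have h1 : (X : 𝓞 F ⧸ Ideal.span {(r : 𝓞 F)}) = Ideal.Quotient.mk _ x := rfl
        rw [← h1, Units.val_mul, mul_assoc, Units.inv_mul, mul_one]
        change f (c : ZMod r) = _
        conv_lhs => rw [← ZMod.natCast_zmod_val (c : ZMod r)]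
        rw [map_natCast]
        push_cast
        rfl
      · intro c c' h
        have h1 : Units.map f.toMonoidHom c * X⁻¹ = Units.map f.toMonoidHom c' * X⁻¹ :=
          congrArg Subtype.val h
        have h2 := mul_right_cancel h1
        ext
        exact f.injective (congrArg Units.val h2)
      · rintro ⟨z, k, hk⟩
        have h1 : (X : 𝓞 F ⧸ Ideal.span {(r : 𝓞 F)}) = Ideal.Quotient.mk _ x := rfl
        have hk0 : (k : ZMod r) ≠ 0 := by
          intro h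
          have h2 : (k : 𝓞 F ⧸ Ideal.span {(r : 𝓞 F)}) = 0 := by
            rw [← map_intCast f, h, map_zero]
          rw [← hk, ← h1] at h2
          exact (z * X).ne_zero h2
        refine ⟨Units.mk0 _ hk0, ?_⟩
        apply Subtype.ext
        change Units.map f.toMonoidHom (Units.mk0 _ hk0) * X⁻¹ = z
        rw [mul_inv_eq_iff_eq_mul]
        ext
        change f (k : ZMod r) = (z : 𝓞 F ⧸ Ideal.span {(r : 𝓞 F)}) * X
        rw [map_intCast, h1, hk]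
    rw [← Nat.card_congr e, Nat.card_units, Nat.card_zmod]

end

end CntKAux

open CntKAux in
theorem stCntK : StCntK := by
  classical
  intro q F _ _ s σ χ cj D Dt T r x L hr hrD hL
  have h4 := T.mod4 r hr hrD
  have hj := T.inert r hr hrD
  obtain ⟨m, hm⟩ := hrD
  have hr0 : 0 < r := hr.pos
  have hdiv : D / r = m := by rw [hm]; exact Nat.mul_div_cancel_left m hr0
  rw [hdiv]
  have hcop : Nat.Coprime m r := by
    have h1 := T.sqf
    rw [hm] at h1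
    exact (Nat.coprime_of_squarefree_mul h1).symm
  have hcZ : IsCoprime (m : ℤ) (r : ℤ) := Nat.isCoprime_iff_coprime.2 hcop
  have hcO : IsCoprime (m : 𝓞 F) (r : 𝓞 F) := by
    have := hcZ.map (Int.castRingHom (𝓞 F))
    simpa using this
  obtain ⟨a, b, hab⟩ := hcO
  have hDO : (D : 𝓞 F) = m * r := by
    rw [hm]
    push_cast
    ring
  obtain ⟨a', b', hab'⟩ := hcZ
  have hab2 : (a' : 𝓞 F) * m + b' * r = 1 := by exact_mod_cast congrArg (Int.cast (R := 𝓞 F)) hab'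
  have key : ∀ t : 𝓞 F, (m : 𝓞 F) ∣ t → (r : 𝓞 F) ∣ t → (D : 𝓞 F) ∣ t := fun t h1 h2 => by
    rw [hDO]
    exact IsCoprime.mul_dvd ⟨a, b, hab⟩ h1 h2
  have hrD' : (r : 𝓞 F) ∣ (D : 𝓞 F) := ⟨m, by rw [hDO, mul_comm]⟩
  by_cases hk : ∃ k : ℤ, (m : 𝓞 F) ∣ x - k
  · rw [if_pos hk]
    obtain ⟨k0, hk0⟩ := hk
    have hle : Ideal.span {(D : 𝓞 F)} ≤ Ideal.span {(r : 𝓞 F)} :=
      Ideal.span_singleton_le_span_singleton.2 hrD'
    let g := Ideal.Quotient.factor hle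
    have hmem : ∀ y : (𝓞 F ⧸ Ideal.span {(D : 𝓞 F)})ˣ,
        g (y : 𝓞 F ⧸ Ideal.span {(D : 𝓞 F)}) = Ideal.Quotient.mk _ (L y) := by
      intro y
      conv_lhs => rw [← (hL y).2]
      exact Ideal.Quotient.factor_mk hle _
    have e : {y : (𝓞 F ⧸ Ideal.span {(D : 𝓞 F)})ˣ // (m : 𝓞 F) ∣ L y - 1 ∧
        ∃ k : ℤ, (D : 𝓞 F) ∣ L y * x - k} ≃
        {z : (𝓞 F ⧸ Ideal.span {(r : 𝓞 F)})ˣ // ∃ k : ℤ,
          (z : 𝓞 F ⧸ Ideal.span {(r : 𝓞 F)}) *
          Ideal.Quotient.mk (Ideal.span {(r : 𝓞 F)}) x = k} := by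
      refine Equiv.ofBijective (fun y => ⟨Units.map g.toMonoidHom y.1, ?_⟩) ⟨?_, ?_⟩
      · obtain ⟨-, k, hk⟩ := y.2
        refine ⟨k, ?_⟩
        change g (y.1 : 𝓞 F ⧸ Ideal.span {(D : 𝓞 F)}) * _ = _
        rw [hmem, ← map_mul, ← map_intCast (Ideal.Quotient.mk (Ideal.span {(r : 𝓞 F)})) k]
        exact Ideal.Quotient.eq.2 (Ideal.mem_span_singleton.2 (hrD'.trans hk))
      · intro y y' h
        have h1 : Units.map g.toMonoidHom y.1 = Units.map g.toMonoidHom y'.1 :=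
          congrArg Subtype.val h
        have h2 : g (y.1 : 𝓞 F ⧸ Ideal.span {(D : 𝓞 F)}) = g y'.1 := congrArg Units.val h1
        rw [hmem, hmem] at h2
        have h3 := Ideal.mem_span_singleton.1 (Ideal.Quotient.eq.1 h2)
        have h4 : (m : 𝓞 F) ∣ L y.1 - L y'.1 := by
          have := dvd_sub y.2.1 y'.2.1
          have e1 : L y.1 - 1 - (L y'.1 - 1) = L y.1 - L y'.1 := by ring
          rwa [e1] at this
        apply Subtype.ext
        ext
        rw [← (hL y.1).2, ← (hL y'.1).2]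
        exact Ideal.Quotient.eq.2 (Ideal.mem_span_singleton.2 (key _ h4 h3))
      · rintro ⟨z, k1, hk1⟩
        obtain ⟨w0, hw0⟩ := Ideal.Quotient.mk_surjective (z : 𝓞 F ⧸ Ideal.span {(r : 𝓞 F)})
        obtain ⟨w1, hw1⟩ := Ideal.Quotient.mk_surjective
          ((z⁻¹ : (𝓞 F ⧸ Ideal.span {(r : 𝓞 F)})ˣ) : 𝓞 F ⧸ Ideal.span {(r : 𝓞 F)})
        have hww : (r : 𝓞 F) ∣ w0 * w1 - 1 := by
          refine Ideal.mem_span_singleton.1 (Ideal.Quotient.eq.1 ?_)
          rw [map_mul, hw0, hw1, Units.mul_inv, map_one]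
        have hwx : (r : 𝓞 F) ∣ w0 * x - k1 := by
          refine Ideal.mem_span_singleton.1 (Ideal.Quotient.eq.1 ?_)
          rw [map_mul, hw0, hk1, map_intCast]
        obtain ⟨t1, ht1⟩ := hww
        obtain ⟨t2, ht2⟩ := hwx
        obtain ⟨t3, ht3⟩ := hk0
        have hprod : (D : 𝓞 F) ∣ (w0 * (a' * m) + b' * r) * (w1 * (a' * m) + b' * r) - 1 := by
          refine key _ ?_ ?_
          · refine ⟨w0 * w1 * a' ^ 2 * m + (w0 + w1) * a' * b' * r - a' * (1 + b' * r), ?_⟩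
            linear_combination (1 + b' * r) * hab2
          · refine ⟨t1 * (a' * m) ^ 2 + (w0 + w1) * a' * m * b' + b' ^ 2 * r -
              b' * (a' * m + 1), ?_⟩
            linear_combination (a' * m) ^ 2 * ht1 + (a' * m + 1) * hab2
        have hq1 : Ideal.Quotient.mk (Ideal.span {(D : 𝓞 F)}) (w0 * (a' * m) + b' * r) *
            Ideal.Quotient.mk (Ideal.span {(D : 𝓞 F)}) (w1 * (a' * m) + b' * r) = 1 := by
          rw [← map_mul, ← map_one (Ideal.Quotient.mk (Ideal.span {(D : 𝓞 F)}))]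
          exact Ideal.Quotient.eq.2 (Ideal.mem_span_singleton.2 hprod)
        have hq2 : Ideal.Quotient.mk (Ideal.span {(D : 𝓞 F)}) (w1 * (a' * m) + b' * r) *
            Ideal.Quotient.mk (Ideal.span {(D : 𝓞 F)}) (w0 * (a' * m) + b' * r) = 1 := by
          rw [mul_comm, hq1]
        let y : (𝓞 F ⧸ Ideal.span {(D : 𝓞 F)})ˣ := ⟨_, _, hq1, hq2⟩
        have hy : (D : 𝓞 F) ∣ L y - (w0 * (a' * m) + b' * r) :=
          Ideal.mem_span_singleton.1 (Ideal.Quotient.eq.1 (hL y).2)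
        obtain ⟨t4, ht4'⟩ := hy
        have ht4 : L y - (w0 * (a' * m) + b' * r) = m * r * t4 := by
          linear_combination ht4' + t4 * hDO
        refine ⟨⟨y, ?_, ?_⟩, ?_⟩
        · refine ⟨t4 * r + (w0 - 1) * a', ?_⟩
          linear_combination ht4 + hab2
        · refine ⟨k1 * (a' * m) + k0 * (b' * r), ?_⟩
          refine key _ ?_ ?_
          · refine ⟨t4 * r * x + w0 * a' * x + t3 * b' * r - k1 * a', ?_⟩
            push_cast
            linear_combination x * ht4 + b' * r * ht3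
          · refine ⟨t4 * m * x + t2 * (a' * m) + b' * (x - k0), ?_⟩
            push_cast
            linear_combination x * ht4 + a' * m * ht2
        · apply Subtype.ext
          ext
          change g (y : 𝓞 F ⧸ Ideal.span {(D : 𝓞 F)}) = z
          rw [hmem, ← hw0]
          refine Ideal.Quotient.eq.2 (Ideal.mem_span_singleton.2 ?_)
          refine ⟨t4 * m + b' * (1 - w0), ?_⟩
          linear_combination ht4 + w0 * hab2
    rw [Nat.card_congr e, card_local Dt hr h4 hj x]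
    have h0 : Ideal.Quotient.mk (Ideal.span {(r : 𝓞 F)}) x = 0 ↔ (r : 𝓞 F) ∣ x := by
      rw [Ideal.Quotient.eq_zero_iff_mem, Ideal.mem_span_singleton]
    by_cases hx : (r : 𝓞 F) ∣ x
    · rw [if_pos (h0.2 hx), if_pos hx, Nat.cast_sub (Nat.one_le_pow _ _ hr0)]
      push_cast
      ring
    · rw [if_neg (fun h => hx (h0.1 h)), if_neg hx, Nat.cast_sub hr0]
      push_cast
      ring
  · rw [if_neg hk]
    haveI : IsEmpty {y : (𝓞 F ⧸ Ideal.span {(D : 𝓞 F)})ˣ // (m : 𝓞 F) ∣ L y - 1 ∧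
        ∃ k : ℤ, (D : 𝓞 F) ∣ L y * x - k} := by
      refine ⟨fun y => hk ?_⟩
      obtain ⟨⟨u, hu⟩, k, hk'⟩ := y.2
      obtain ⟨v, hv⟩ := hk'
      refine ⟨k, r * v - u * x, ?_⟩
      linear_combination hv - x * hu + v * hDO
    rw [Nat.card_of_isEmpty, Nat.cast_zero]

end Pool.Agent.Lib.MP_7c08ba_nt.CN.TW
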