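import Pool.Agent.Lib.MP_7c08ba_nt.CN.T.StTh

set_option autoImplicit false

/-!
Project TW, module CntT: sums over the principal genus as weighted sums over the class group.
-/

namespace Pool.Agent.Lib.MP_7c08ba_nt.CN.TW

open NumberField IsDedekindDomain Polynomial Pool.Agent.Lib.MP_7c08ba_nt.RZ
open scoped nonZeroDivisors ComplexConjugate

namespace CntTAux

variable {F : Type} [Field F] [NumberField F] {D : ℕ}

theorem nm_mul (x y : 𝓞 F) : Ideal.absNorm (Ideal.span {x * y}) =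
    Ideal.absNorm (Ideal.span {x}) * Ideal.absNorm (Ideal.span {y}) := by
  rw [← Ideal.span_singleton_mul_span_singleton, map_mul]

theorem nm_ne {x : 𝓞 F} (hx : x ≠ 0) : Ideal.absNorm (Ideal.span {x}) ≠ 0 := by
  rw [Ne, Ideal.absNorm_eq_zero_iff, Ideal.span_singleton_eq_bot]
  exact hx

theorem nm_dvd {x : 𝓞 F} {b : Ideal (𝓞 F)} (hx : x ∈ b) :
    Ideal.absNorm b ∣ Ideal.absNorm (Ideal.span {x}) :=
  Ideal.absNorm_dvd_absNorm_of_le ((Ideal.span_singleton_le_iff_mem _).2 hx)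

/-- the rationality of a product gives the rationality of a factor -/
theorem rat_of_mul {x y : 𝓞 F} {c : ℤ} (hc : IsCoprime c (D : ℤ)) (hx : (D : 𝓞 F) ∣ x - c)
    (h : ∃ k : ℤ, (D : 𝓞 F) ∣ x * y - k) : ∃ k : ℤ, (D : 𝓞 F) ∣ y - k := by
  obtain ⟨u, v, huv⟩ := hc
  obtain ⟨k, m, hm⟩ := h
  obtain ⟨p, hp⟩ := hx
  refine ⟨u * k, ?_⟩
  have h1 : (u : 𝓞 F) * c + v * D = 1 := by exact_mod_cast congrArg (fun t : ℤ => (t : 𝓞 F)) huv
  refine ⟨u * m - u * y * p + v * y, ?_⟩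
  push_cast
  linear_combination (-y) * h1 + u * hm - u * y * hp

/-- multiplication by `w / N b'` -/
theorem lat_sum {b b' : Ideal (𝓞 F)} (f : ℕ → ℂ) (hb : b ≠ ⊥) (hb' : b' ≠ ⊥) {w : 𝓞 F}
    (hw : Rat D w) (h1 : Ideal.absNorm b * Ideal.absNorm b' = Ideal.absNorm (Ideal.span {w}))
    (h2 : Ideal.span {(Ideal.absNorm b' : 𝓞 F)} * b = Ideal.span {w} * b')
    (hcop : (Ideal.absNorm b').Coprime D) :
    ∑' x : latD D b, f (Ideal.absNorm (Ideal.span {(x : 𝓞 F)}) / Ideal.absNorm b) =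
      ∑' x : latD D b', f (Ideal.absNorm (Ideal.span {(x : 𝓞 F)}) / Ideal.absNorm b') := by
  obtain ⟨hw0, cw, hcw, hdw⟩ := hw
  have hnb : Ideal.absNorm b ≠ 0 := by rwa [Ne, Ideal.absNorm_eq_zero_iff]
  have hnb' : Ideal.absNorm b' ≠ 0 := by rwa [Ne, Ideal.absNorm_eq_zero_iff]
  have hnF : (Ideal.absNorm b' : 𝓞 F) ≠ 0 := by exact_mod_cast hnb'
  have hA : Ideal.absNorm (Ideal.span {(Ideal.absNorm b' : 𝓞 F)}) =
      Ideal.absNorm b' * Ideal.absNorm b' := by
    have h3 := congrArg Ideal.absNorm h2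
    rw [map_mul, map_mul, ← h1] at h3
    refine Nat.eq_of_mul_eq_mul_right (Nat.pos_of_ne_zero hnb) ?_
    rw [h3]
    ring
  have hcopZ : IsCoprime ((Ideal.absNorm b' : ℕ) : ℤ) (D : ℤ) :=
    Nat.isCoprime_iff_coprime.2 hcop
  have hex : ∀ x : latD D b, ∃ y : latD D b',
      (Ideal.absNorm b' : 𝓞 F) * (x : 𝓞 F) = w * (y : 𝓞 F) := by
    rintro ⟨x, hx, k, hk⟩
    have hm : (Ideal.absNorm b' : 𝓞 F) * x ∈ Ideal.span {w} * b' := by
      rw [← h2]
      exact Ideal.mul_mem_mul (Ideal.mem_span_singleton_self _) hx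
    obtain ⟨y, hy, hxy⟩ := Ideal.mem_span_singleton_mul.1 hm
    refine ⟨⟨y, hy, ?_⟩, hxy.symm⟩
    refine rat_of_mul hcw hdw ⟨(Ideal.absNorm b' : ℤ) * k, ?_⟩
    rw [hxy]
    obtain ⟨p, hp⟩ := hk
    refine ⟨(Ideal.absNorm b' : 𝓞 F) * p, ?_⟩
    push_cast
    linear_combination (Ideal.absNorm b' : 𝓞 F) * hp
  choose e he using hex
  have hbij : Function.Bijective e := by
    constructor
    · intro x x' hxx
      have h3 : (Ideal.absNorm b' : 𝓞 F) * (x : 𝓞 F) = (Ideal.absNorm b' : 𝓞 F) * (x' : 𝓞 F) := by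
        rw [he x, he x', hxx]
      exact Subtype.ext (mul_left_cancel₀ hnF h3)
    · rintro ⟨y, hy, k, hk⟩
      have hm : w * y ∈ Ideal.span {(Ideal.absNorm b' : 𝓞 F)} * b := by
        rw [h2]
        exact Ideal.mul_mem_mul (Ideal.mem_span_singleton_self _) hy
      obtain ⟨x, hx, hxy⟩ := Ideal.mem_span_singleton_mul.1 hm
      have hx2 : ∃ k : ℤ, (D : 𝓞 F) ∣ x - k := by
        refine rat_of_mul (x := (Ideal.absNorm b' : 𝓞 F)) hcopZ (by simp) ⟨cw * k, ?_⟩
        rw [hxy]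
        obtain ⟨p, hp⟩ := hk
        obtain ⟨p', hp'⟩ := hdw
        refine ⟨w * p + k * p', ?_⟩
        push_cast
        linear_combination w * hp + (k : 𝓞 F) * hp'
      refine ⟨⟨x, hx, hx2⟩, Subtype.ext ?_⟩
      have h3 := he ⟨x, hx, hx2⟩
      exact mul_left_cancel₀ hw0 (h3.symm.trans hxy)
  rw [← (Equiv.ofBijective e hbij).tsum_eq]
  refine tsum_congr fun x => ?_
  congr 1
  have h3 := congrArg (fun t : 𝓞 F => Ideal.absNorm (Ideal.span {t})) (he x)
  simp only [nm_mul, hA, ← h1] at h3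
  obtain ⟨k, hk⟩ := nm_dvd x.2.1
  have h4 : Ideal.absNorm (Ideal.span {((e x : latD D b') : 𝓞 F)}) = Ideal.absNorm b' * k := by
    refine Nat.eq_of_mul_eq_mul_left (Nat.pos_of_ne_zero (mul_ne_zero hnb hnb')) ?_
    rw [← h3, hk]
    ring
  rw [Equiv.ofBijective_apply, h4, hk, Nat.mul_div_cancel_left _ (Nat.pos_of_ne_zero hnb),
    Nat.mul_div_cancel_left _ (Nat.pos_of_ne_zero hnb')]

open Classical in
/-- the lattice of a multiple of an ideal -/
theorem lat_mul {l : 𝓞 F} (hl : l ≠ 0) (c : Ideal (𝓞 F)) (f : ℕ → ℂ) :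
    ∑' x : latD D (Ideal.span {l} * c), f (Ideal.absNorm (Ideal.span {(x : 𝓞 F)}) /
        Ideal.absNorm (Ideal.span {l} * c)) =
      ∑' x : c, if ∃ k : ℤ, (D : 𝓞 F) ∣ l * x - k then
        f (Ideal.absNorm (Ideal.span {(x : 𝓞 F)}) / Ideal.absNorm c) else 0 := by
  set S : Set c := {x | ∃ k : ℤ, (D : 𝓞 F) ∣ l * x - k} with hS
  have hbij : Function.Bijective (fun x : S => (⟨l * ((x : c) : 𝓞 F),
      Ideal.mul_mem_mul (Ideal.mem_span_singleton_self _) (x : c).2, x.2⟩ :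
        latD D (Ideal.span {l} * c))) := by
    constructor
    · intro x x' h
      have h1 := congrArg Subtype.val h
      exact Subtype.ext (Subtype.ext (mul_left_cancel₀ hl h1))
    · rintro ⟨y, hy, hk⟩
      obtain ⟨x, hx, hxy⟩ := Ideal.mem_span_singleton_mul.1 hy
      refine ⟨⟨⟨x, hx⟩, ?_⟩, Subtype.ext hxy⟩
      change ∃ k : ℤ, (D : 𝓞 F) ∣ l * x - k
      rw [hxy]
      exact hk
  have h1 : ∑' x : latD D (Ideal.span {l} * c), f (Ideal.absNorm (Ideal.span {(x : 𝓞 F)}) /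
        Ideal.absNorm (Ideal.span {l} * c)) =
      ∑' x : S, f (Ideal.absNorm (Ideal.span {((x : c) : 𝓞 F)}) / Ideal.absNorm c) := by
    rw [← (Equiv.ofBijective _ hbij).tsum_eq]
    refine tsum_congr fun x => ?_
    congr 1
    rw [Equiv.ofBijective_apply]
    change Ideal.absNorm (Ideal.span {l * ((x : c) : 𝓞 F)}) / _ = _
    rw [nm_mul, map_mul, Nat.mul_div_mul_left _ _ (Nat.pos_of_ne_zero (nm_ne hl))]
  rw [h1, tsum_subtype S (fun x : c => f (Ideal.absNorm (Ideal.span {(x : 𝓞 F)}) /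
    Ideal.absNorm c))]
  refine tsum_congr fun x => ?_
  rw [Set.indicator_apply]
  rfl

/-- lifts of the units modulo `D` -/
theorem lifts (hD : D ≠ 0) : ∃ L : (𝓞 F ⧸ Ideal.span {(D : 𝓞 F)})ˣ → 𝓞 F,
    ∀ y, L y ≠ 0 ∧ Ideal.Quotient.mk (Ideal.span {(D : 𝓞 F)}) (L y) = y := by
  have h : ∀ y : (𝓞 F ⧸ Ideal.span {(D : 𝓞 F)})ˣ, ∃ l : 𝓞 F, l ≠ 0 ∧
      Ideal.Quotient.mk (Ideal.span {(D : 𝓞 F)}) l = y := by
    intro y
    obtain ⟨l, hl⟩ := Ideal.Quotient.mk_surjective (y : 𝓞 F ⧸ Ideal.span {(D : 𝓞 F)})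
    by_cases h0 : l = 0
    · refine ⟨D, by exact_mod_cast hD, ?_⟩
      rw [← hl, h0, map_zero, Ideal.Quotient.eq_zero_iff_mem]
      exact Ideal.mem_span_singleton_self _
    · exact ⟨l, h0, hl⟩
  choose L hL using h
  exact ⟨L, hL⟩

/-- the local factors -/
theorem loc (htw : D ≠ 0) (hsq : Squarefree D) (Q : ℤ) :
    ∏ r ∈ D.primeFactors, (((r : ℂ) - 1) * (if (r : ℤ) ∣ Q then
      ((r : ℂ) + 1) / 2 * ((if (1 : ℤ) = 1 then (1 : ℂ) else 0) +
        (if (-1 : ℤ) = 1 then (1 : ℂ) else 0))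
      else (if jacobiSym Q r = 1 then (1 : ℂ) else 0))) = (Nat.totient D : ℂ) * wN D Q := by
  rw [Finset.prod_mul_distrib]
  congr 1
  · have h := Nat.totient_eq_prod_factorization htw
    rw [Finsupp.prod, Nat.support_factorization] at h
    rw [h, Nat.cast_prod]
    refine Finset.prod_congr rfl fun r hr => ?_
    have hp := Nat.prime_of_mem_primeFactors hr
    have h1 : D.factorization r = 1 :=
      (Nat.squarefree_iff_factorization_le_one htw).1 hsq r |>.antisymm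
        (hp.factorization_pos_of_dvd htw (Nat.dvd_of_mem_primeFactors hr))
    rw [h1, Nat.sub_self, pow_zero, one_mul, Nat.cast_sub hp.one_le, Nat.cast_one]
  · unfold wN
    refine Finset.prod_congr rfl fun r hr => ?_
    have hp := Nat.prime_of_mem_primeFactors hr
    by_cases hd : (r : ℤ) ∣ Q
    · rw [if_pos hd, if_pos hd, if_pos rfl, if_neg (by norm_num), add_zero, mul_one]
    · rw [if_neg hd, if_neg hd]
      have hg : Int.gcd Q r = 1 := by
        have h1 : IsCoprime (r : ℤ) Q := (Nat.prime_iff_prime_int.1 hp).coprime_iff_not_dvd.2 hd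
        exact Int.isCoprime_iff_gcd_eq_one.1 h1.symm
      rcases jacobiSym.eq_one_or_neg_one hg with h | h
      · rw [if_pos h, h]
        norm_num
      · rw [if_neg (by rw [h]; norm_num), h]
        norm_num

end CntTAux

open CntTAux in
theorem stCntT (h1 : StFib) (h2 : StCntY) (h3 : StGch) (h4 : StRg) : StCntT := by
  classical
  intro q F iF iN s σ χ cj D c R f hdat htw hc hR hcl hsum
  have hD : D ≠ 0 := htw.sqf.ne_zero
  obtain ⟨hfin, -, hidp⟩ := h4 F iF iN D hD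
  obtain ⟨g1, g2, g3, -⟩ := h3 q F iF iN s σ χ cj D hdat htw
  set S : Ideal (𝓞 F) → ℂ := fun b =>
    ∑' x : latD D b, f (Ideal.absNorm (Ideal.span {(x : 𝓞 F)}) / Ideal.absNorm b) with hSdef
  have hS : ∀ b ∈ idp (F := F) D, ∀ b' ∈ idp (F := F) D, cl D b = cl D b' → S b = S b' := by
    intro b hb b' hb' hbb
    obtain ⟨-, -, w, hw, hw1, hw2⟩ := g2 b hb b' hb' hbb
    obtain ⟨-, hcp⟩ := (hidp b').1 hb'
    have hn : Ideal.absNorm b * Ideal.absNorm b' = Ideal.absNorm (Ideal.span {w}) := by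
      rw [← hw1, map_mul, (g1 b' hb').2.1]
    exact lat_sum f hb.1 hb'.1 hw hn hw2 hcp
  obtain ⟨L, hL⟩ := lifts (F := F) hD
  set g : RC F D → ℂ := fun B => if Gen D B then S (rp B) else 0 with hg
  obtain ⟨hfq, hmem, hF⟩ := h1 q F iF iN s σ χ cj D hdat htw c.R L g c.cls hc hL
  have hlhs : ∑ᶠ B : GC F D, S (R B) = ∑ᶠ B : RC F D, g B := by
    have h5 : ∀ B : GC F D, S (R B) = S (rp B.1) := fun B =>
      hS _ (hR B) _ (rp_mem _) (by rw [hcl, cl_rp])
    rw [finsum_congr h5, finsum_subtype_eq_finsum_cond (f := fun B : RC F D => S (rp B))]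
    refine finsum_congr fun B => ?_
    rw [finsum_eq_if]
  have htot : (Nat.totient D : ℂ) ≠ 0 := by
    exact_mod_cast (Nat.totient_pos.2 (Nat.pos_of_ne_zero hD)).ne'
  change ∑ᶠ B : GC F D, S (R B) = _
  rw [hlhs]
  refine mul_left_cancel₀ htot ?_
  rw [← hF, Finset.mul_sum]
  refine Finset.sum_congr rfl fun C _ => ?_
  set c' : Ideal (𝓞 F) := (c.R C : Ideal (𝓞 F)) with hc'
  let _ : Fintype (𝓞 F ⧸ Ideal.span {(D : 𝓞 F)})ˣ := Fintype.ofFinite _
  set P : (𝓞 F ⧸ Ideal.span {(D : 𝓞 F)})ˣ → ℂ := fun y => ∏ r ∈ D.primeFactors,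
    (if jacobiSym (Ideal.absNorm (Ideal.span {L y} * c')) r = 1 then (1 : ℂ) else 0) with hP
  set fx : c' → ℂ := fun x =>
    f (Ideal.absNorm (Ideal.span {(x : 𝓞 F)}) / Ideal.absNorm c') with hfx
  have hgy : ∀ y, g (cl D (Ideal.span {L y} * c')) = ∑' x : c',
      fx x * (if ∃ k : ℤ, (D : 𝓞 F) ∣ L y * x - k then P y else 0) := by
    intro y
    have hI := hmem y C
    have h5 : g (cl D (Ideal.span {L y} * c')) = P y * S (Ideal.span {L y} * c') := by
      have h6 : S (rp (cl D (Ideal.span {L y} * c'))) = S (Ideal.span {L y} * c') :=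
        hS _ (rp_mem _) _ hI (cl_rp _)
      have h7 := (g3 _ hI).2.1
      by_cases hG : Gen D (cl D (Ideal.span {L y} * c'))
      · have h8 : P y = 1 := by
          refine Finset.prod_eq_one fun r hr => ?_
          rw [if_pos (h7.1 hG r (Nat.prime_of_mem_primeFactors hr)
            (Nat.dvd_of_mem_primeFactors hr))]
        rw [h8, one_mul, ← h6]
        simp only [hg]
        rw [if_pos hG]
      · have h8 : P y = 0 := by
          have h9 : ∃ r : ℕ, r.Prime ∧ r ∣ D ∧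
              jacobiSym (Ideal.absNorm (Ideal.span {L y} * c')) r ≠ 1 := by
            by_contra hcon
            push Not at hcon
            exact hG (h7.2 hcon)
          obtain ⟨r, hr1, hr2, hr3⟩ := h9
          exact Finset.prod_eq_zero (Nat.mem_primeFactors.2 ⟨hr1, hr2, hD⟩) (if_neg hr3)
        rw [h8, zero_mul]
        simp only [hg]
        rw [if_neg hG]
    have h6 := lat_mul (D := D) (hL y).1 c' f
    rw [h5]
    change P y * ∑' x : latD D (Ideal.span {L y} * c'), f (Ideal.absNorm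
      (Ideal.span {(x : 𝓞 F)}) / Ideal.absNorm (Ideal.span {L y} * c')) = _
    rw [h6, ← tsum_mul_left]
    refine tsum_congr fun x => ?_
    by_cases hk : ∃ k : ℤ, (D : 𝓞 F) ∣ L y * x - k
    · rw [if_pos hk, if_pos hk, mul_comm]
    · rw [if_neg hk, if_neg hk, mul_zero, mul_zero]
  rw [finsum_eq_sum_of_fintype, Finset.sum_congr rfl fun y _ => hgy y, ← tsum_mul_left]
  have hsm : ∀ y, Summable fun x : c' =>
      fx x * (if ∃ k : ℤ, (D : 𝓞 F) ∣ L y * x - k then P y else 0) := by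
    intro y
    refine Summable.of_norm_bounded ((hsum C).mul_right ‖P y‖) fun x => ?_
    rw [norm_mul]
    refine mul_le_mul_of_nonneg_left ?_ (norm_nonneg _)
    split_ifs
    · exact le_rfl
    · rw [norm_zero]
      exact norm_nonneg _
  rw [← Summable.tsum_finsetSum fun y _ => hsm y]
  refine tsum_congr fun x => ?_
  rw [← Finset.mul_sum]
  have h10 := h2 q F iF iN s σ χ cj D hdat htw c' x L
    (fun _ t => if t = 1 then 1 else 0) (hc C) x.2 hL
  rw [finsum_eq_sum_of_fintype] at h10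
  have h11 := loc hD htw.sqf ((Ideal.absNorm (Ideal.span {(x : 𝓞 F)}) : ℤ) / Ideal.absNorm c')
  have h12 : ∑ y : (𝓞 F ⧸ Ideal.span {(D : 𝓞 F)})ˣ,
      (if ∃ k : ℤ, (D : 𝓞 F) ∣ L y * x - k then P y else 0) = (Nat.totient D : ℂ) *
        wN D ((Ideal.absNorm (Ideal.span {(x : 𝓞 F)}) : ℤ) / Ideal.absNorm c') := by
    rw [← h11]
    refine Eq.trans ?_ (h10.trans ?_)
    · rfl
    · rfl
  rw [h12, Int.natCast_div]
  ring

end Pool.Agent.Lib.MP_7c08ba_nt.CN.TW
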