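import Pool.Agent.Lib.MP_7c08ba_nt.CN.T.CntK

set_option autoImplicit false

/-!
Project TW (H5): sums over the units modulo `D` which map a given element to the rational
integers.
-/

namespace Pool.Agent.Lib.MP_7c08ba_nt.CN.TW

open NumberField IsDedekindDomain Polynomial Pool.Agent.Lib.MP_7c08ba_nt.RZ
open scoped nonZeroDivisors ComplexConjugate

namespace CntYAux

section

variable {F : Type} [Field F] [NumberField F]

/-- the norm of an element, as an integer -/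
noncomputable def nm (x : 𝓞 F) : ℤ := (Ideal.absNorm (Ideal.span {x}) : ℤ)

theorem nm_mul (x y : 𝓞 F) : nm (x * y) = nm x * nm y := by
  unfold nm
  rw [← Ideal.span_singleton_mul_span_singleton, map_mul, Nat.cast_mul]

variable {q : ℕ} {s : 𝓞 F} {σ : F →+* ℂ} {χ : DirichletCharacter ℂ q} {cj : 𝓞 F ≃+* 𝓞 F}

theorem nm_eq (Dt : Dat q s σ χ cj) (x : 𝓞 F) : ((nm x : ℤ) : 𝓞 F) = x * cj x := by
  obtain ⟨-, -, -, -, h, -⟩ := stBas q F _ _ s σ χ cj Dt
  rw [h x]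
  unfold nm
  push_cast
  rfl

theorem int_dvd (Dt : Dat q s σ χ cj) {r n : ℤ} (h : (r : 𝓞 F) ∣ (n : 𝓞 F)) : r ∣ n := by
  obtain ⟨w, hw⟩ := h
  have h1 : (n : 𝓞 F) = r * cj w := by
    have h2 := congrArg cj hw
    rwa [map_mul, map_intCast, map_intCast] at h2
  have h3 : ((n ^ 2 : ℤ) : 𝓞 F) = ((r ^ 2 * nm w : ℤ) : 𝓞 F) := by
    push_cast
    rw [nm_eq Dt w]
    linear_combination (n : 𝓞 F) * hw + r * w * h1
  have h4 : n ^ 2 = r ^ 2 * nm w := by exact_mod_cast h3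
  exact (Int.pow_dvd_pow_iff (by norm_num : (2 : ℕ) ≠ 0)).1 ⟨nm w, h4⟩

theorem nm_congr (Dt : Dat q s σ χ cj) {r : ℕ} {x y : 𝓞 F} (h : (r : 𝓞 F) ∣ x - y) :
    (r : ℤ) ∣ nm x - nm y := by
  apply int_dvd Dt
  obtain ⟨t, ht⟩ := h
  have ht' : cj x - cj y = r * cj t := by
    have h2 := congrArg cj ht
    rwa [map_sub, map_mul, map_natCast] at h2
  refine ⟨t * cj x + y * cj t, ?_⟩
  push_cast
  rw [nm_eq Dt, nm_eq Dt]
  linear_combination cj x * ht + y * ht'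

theorem jac_congr (Dt : Dat q s σ χ cj) {r : ℕ} {x y : 𝓞 F} (h : (r : 𝓞 F) ∣ x - y) :
    jacobiSym (nm x) r = jacobiSym (nm y) r := by
  rw [jacobiSym.mod_left (nm x), jacobiSym.mod_left (nm y)]
  congr 1
  exact (Int.modEq_iff_dvd.2 (nm_congr Dt h)).symm

theorem nm_int (Dt : Dat q s σ χ cj) (k : ℤ) : nm (k : 𝓞 F) = k ^ 2 := by
  have h := nm_eq Dt (k : 𝓞 F)
  rw [map_intCast] at h
  have h2 : ((nm (k : 𝓞 F) : ℤ) : 𝓞 F) = ((k ^ 2 : ℤ) : 𝓞 F) := by
    rw [h]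
    push_cast
    ring
  exact_mod_cast h2

/-- norms of elements not divisible by `r` -/
theorem dvd_nm (Dt : Dat q s σ χ cj) {r : ℕ} (hr : r.Prime) (h4 : r % 4 = 1)
    (hj : jacobiSym r q = -1) (x : 𝓞 F) : (r : ℤ) ∣ nm x ↔ (r : 𝓞 F) ∣ x := by
  constructor
  · intro h
    by_contra hx
    obtain ⟨y, hy⟩ := CntKAux.exists_inv Dt hr h4 hj hx
    have h1 := nm_congr Dt hy
    have h2 : nm (1 : 𝓞 F) = 1 := by
      have := nm_int Dt 1
      simpa using this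
    rw [nm_mul, h2] at h1
    have h3 : (r : ℤ) ∣ 1 := by
      have h5 := dvd_sub (h.mul_right (nm y)) h1
      have e : nm x * nm y - (nm x * nm y - 1) = 1 := by ring
      rwa [e] at h5
    have h6 := Int.le_of_dvd one_pos h3
    have := hr.two_le
    omega
  · rintro ⟨t, rfl⟩
    rw [nm_mul]
    have h1 := nm_int Dt (r : ℤ)
    rw [Int.cast_natCast] at h1
    rw [h1]
    exact ⟨r * nm t, by ring⟩

theorem jac_ne (Dt : Dat q s σ χ cj) {r : ℕ} (hr : r.Prime) (h4 : r % 4 = 1)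
    (hj : jacobiSym r q = -1) {x : 𝓞 F} (hx : ¬ (r : 𝓞 F) ∣ x) :
    jacobiSym (nm x) r = 1 ∨ jacobiSym (nm x) r = -1 := by
  have h1 : ¬ (r : ℤ) ∣ nm x := fun h => hx ((dvd_nm Dt hr h4 hj x).1 h)
  apply jacobiSym.eq_one_or_neg_one
  rw [Int.gcd_comm]
  exact (Int.isCoprime_iff_gcd_eq_one).1
    ((Nat.prime_iff_prime_int.1 hr).coprime_iff_not_dvd.2 h1)

/-- the quadratic character of the norm of a unit modulo `r` -/
noncomputable def tr (r : ℕ) (u : (𝓞 F ⧸ Ideal.span {(r : 𝓞 F)})ˣ) : ℤ :=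
  jacobiSym (nm (Quotient.out (u : 𝓞 F ⧸ Ideal.span {(r : 𝓞 F)}))) r

omit [NumberField F] in
theorem mk_out {r : ℕ} (u : 𝓞 F ⧸ Ideal.span {(r : 𝓞 F)}) :
    Ideal.Quotient.mk (Ideal.span {(r : 𝓞 F)}) (Quotient.out u) = u :=
  Quotient.out_eq u

omit [NumberField F] in
theorem dvd_iff {r : ℕ} (x y : 𝓞 F) : Ideal.Quotient.mk (Ideal.span {(r : 𝓞 F)}) x =
    Ideal.Quotient.mk (Ideal.span {(r : 𝓞 F)}) y ↔ (r : 𝓞 F) ∣ x - y := by
  rw [Ideal.Quotient.eq, Ideal.mem_span_singleton]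

theorem tr_eq (Dt : Dat q s σ χ cj) {r : ℕ} (u : (𝓞 F ⧸ Ideal.span {(r : 𝓞 F)})ˣ) {y : 𝓞 F}
    (h : Ideal.Quotient.mk (Ideal.span {(r : 𝓞 F)}) y = u) : tr r u = jacobiSym (nm y) r := by
  unfold tr
  apply jac_congr Dt
  rw [← dvd_iff, mk_out, h]

theorem tr_mul (Dt : Dat q s σ χ cj) {r : ℕ} (u v : (𝓞 F ⧸ Ideal.span {(r : 𝓞 F)})ˣ) :
    tr r (u * v) = tr r u * tr r v := by
  rw [tr_eq Dt (u * v) (y := Quotient.out (u : 𝓞 F ⧸ Ideal.span {(r : 𝓞 F)}) *
    Quotient.out (v : 𝓞 F ⧸ Ideal.span {(r : 𝓞 F)}))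
    (by rw [map_mul, mk_out, mk_out, Units.val_mul]), nm_mul, jacobiSym.mul_left]
  rfl

theorem tr_ne (Dt : Dat q s σ χ cj) {r : ℕ} (hr : r.Prime) (h4 : r % 4 = 1)
    (hj : jacobiSym r q = -1) (u : (𝓞 F ⧸ Ideal.span {(r : 𝓞 F)})ˣ) :
    tr r u = 1 ∨ tr r u = -1 := by
  apply jac_ne Dt hr h4 hj
  intro h
  have h1 : (u : 𝓞 F ⧸ Ideal.span {(r : 𝓞 F)}) = 0 := by
    rw [← mk_out (u : 𝓞 F ⧸ Ideal.span {(r : 𝓞 F)}), ← map_zero (Ideal.Quotient.mk _), dvd_iff,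
      sub_zero]
    exact h
  haveI := CntKAux.isMaximal Dt hr h4 hj (CntKAux.not_isUnit (F := F) Dt hr)
  haveI : Nontrivial (𝓞 F ⧸ Ideal.span {(r : 𝓞 F)}) :=
    Ideal.Quotient.nontrivial_iff.2 (Ideal.IsMaximal.ne_top this)
  exact u.ne_zero h1

/-- a unit whose norm is not a square -/
theorem exists_neg (Dt : Dat q s σ χ cj) {r : ℕ} (hr : r.Prime) (h4 : r % 4 = 1)
    (hj : jacobiSym r q = -1) : ∃ u : (𝓞 F ⧸ Ideal.span {(r : 𝓞 F)})ˣ, tr r u = -1 := by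
  obtain ⟨-, -, hcs, -⟩ := stBas q F _ _ s σ χ cj Dt
  have hq : nm s = q := by
    have h1 := nm_eq Dt s
    rw [hcs] at h1
    have h2 : ((nm s : ℤ) : 𝓞 F) = ((q : ℤ) : 𝓞 F) := by
      rw [h1]
      push_cast
      linear_combination -Dt.sq
    exact_mod_cast h2
  have hjq : jacobiSym (nm s) r = -1 := by
    have hqo : Odd q := Nat.odd_iff.2 (by have := Dt.mod; omega)
    rw [hq, ← jacobiSym.quadratic_reciprocity_one_mod_four h4 hqo]
    exact hj
  have hs : ¬ (r : 𝓞 F) ∣ s := by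
    intro h
    have h1 := (dvd_nm Dt hr h4 hj s).2 h
    have h2 : jacobiSym (nm s) r = 0 := by
      rw [jacobiSym.mod_left, Int.emod_eq_zero_of_dvd h1]
      exact jacobiSym.zero_left hr.one_lt
    rw [h2] at hjq
    exact absurd hjq (by norm_num)
  obtain ⟨y, hy⟩ := CntKAux.exists_inv Dt hr h4 hj hs
  have h1 : Ideal.Quotient.mk (Ideal.span {(r : 𝓞 F)}) s *
      Ideal.Quotient.mk (Ideal.span {(r : 𝓞 F)}) y = 1 := by
    rw [← map_mul, ← map_one (Ideal.Quotient.mk (Ideal.span {(r : 𝓞 F)})), dvd_iff]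
    exact hy
  refine ⟨⟨_, _, h1, by rw [mul_comm, h1]⟩, ?_⟩
  rw [tr_eq Dt _ (y := s) rfl, hjq]

open Classical in
/-- the local sum -/
theorem local_sum (Dt : Dat q s σ χ cj) {r : ℕ} (hr : r.Prime) (h4 : r % 4 = 1)
    (hj : jacobiSym r q = -1) (x : 𝓞 F) (N : ℤ) (hN : ¬ (r : ℤ) ∣ N) (hNx : N ∣ nm x)
    (h : ℤ → ℂ) [Fintype (𝓞 F ⧸ Ideal.span {(r : 𝓞 F)})ˣ] :
    ∑ u : (𝓞 F ⧸ Ideal.span {(r : 𝓞 F)})ˣ,
      (if ∃ k : ℤ, (u : 𝓞 F ⧸ Ideal.span {(r : 𝓞 F)}) *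
        Ideal.Quotient.mk (Ideal.span {(r : 𝓞 F)}) x = k then
          h (tr r u * jacobiSym N r) else 0) =
      ((r : ℂ) - 1) * (if (r : ℤ) ∣ nm x / N then ((r : ℂ) + 1) / 2 * (h 1 + h (-1))
        else h (jacobiSym (nm x / N) r)) := by
  haveI : Fact r.Prime := ⟨hr⟩
  have hr0 : 0 < r := hr.pos
  have hjN : jacobiSym N r = 1 ∨ jacobiSym N r = -1 := by
    apply jacobiSym.eq_one_or_neg_one
    rw [Int.gcd_comm]
    exact (Int.isCoprime_iff_gcd_eq_one).1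
      ((Nat.prime_iff_prime_int.1 hr).coprime_iff_not_dvd.2 hN)
  have hN0 : N ≠ 0 := fun h0 => hN (h0 ▸ dvd_zero _)
  obtain ⟨M, hM⟩ := hNx
  have hdiv : nm x / N = M := by rw [hM]; exact Int.mul_ediv_cancel_left _ hN0
  rw [hdiv]
  have hcard := CntKAux.card_local Dt hr h4 hj x
  have hiff : (r : ℤ) ∣ M ↔ (r : 𝓞 F) ∣ x := by
    rw [← dvd_nm Dt hr h4 hj x, hM]
    constructor
    · exact fun h1 => h1.mul_left N
    · intro h1
      exact ((Nat.prime_iff_prime_int.1 hr).dvd_or_dvd h1).resolve_left hN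
  have h0 : Ideal.Quotient.mk (Ideal.span {(r : 𝓞 F)}) x = 0 ↔ (r : 𝓞 F) ∣ x := by
    rw [Ideal.Quotient.eq_zero_iff_mem, Ideal.mem_span_singleton]
  rw [Nat.card_eq_fintype_card, Fintype.card_subtype] at hcard
  by_cases hx : (r : 𝓞 F) ∣ x
  · rw [if_pos (hiff.2 hx)]
    rw [if_pos (h0.2 hx)] at hcard
    have hall : ∀ u : (𝓞 F ⧸ Ideal.span {(r : 𝓞 F)})ˣ, ∃ k : ℤ,
        (u : 𝓞 F ⧸ Ideal.span {(r : 𝓞 F)}) *
        Ideal.Quotient.mk (Ideal.span {(r : 𝓞 F)}) x = k := fun u =>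
      ⟨0, by rw [h0.2 hx, mul_zero, Int.cast_zero]⟩
    rw [Finset.filter_true_of_mem (fun u _ => hall u), Finset.card_univ] at hcard
    have e1 : ∑ u : (𝓞 F ⧸ Ideal.span {(r : 𝓞 F)})ˣ,
        (if ∃ k : ℤ, (u : 𝓞 F ⧸ Ideal.span {(r : 𝓞 F)}) *
          Ideal.Quotient.mk (Ideal.span {(r : 𝓞 F)}) x = k then
            h (tr r u * jacobiSym N r) else 0) =
        ∑ u : (𝓞 F ⧸ Ideal.span {(r : 𝓞 F)})ˣ, h (tr r u * jacobiSym N r) :=
      Finset.sum_congr rfl fun u _ => if_pos (hall u)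
    rw [e1]
    obtain ⟨v, hv⟩ := exists_neg (F := F) Dt hr h4 hj
    have e2 : ∑ u : (𝓞 F ⧸ Ideal.span {(r : 𝓞 F)})ˣ, h (tr r u * jacobiSym N r) =
        ∑ u : (𝓞 F ⧸ Ideal.span {(r : 𝓞 F)})ˣ, h (-(tr r u * jacobiSym N r)) := by
      refine (Equiv.sum_comp (Equiv.mulLeft v)
        (fun u => h (tr r u * jacobiSym N r))).symm.trans ?_
      refine Finset.sum_congr rfl fun u _ => ?_
      rw [Equiv.coe_mulLeft, tr_mul Dt, hv]
      congr 1
      ring
    have e3 : ∀ u : (𝓞 F ⧸ Ideal.span {(r : 𝓞 F)})ˣ,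
        h (tr r u * jacobiSym N r) + h (-(tr r u * jacobiSym N r)) = h 1 + h (-1) := by
      intro u
      rcases tr_ne Dt hr h4 hj u with h1 | h1 <;> rcases hjN with h2 | h2 <;> rw [h1, h2] <;>
        norm_num [add_comm]
    have e4 : (2 : ℂ) * ∑ u : (𝓞 F ⧸ Ideal.span {(r : 𝓞 F)})ˣ, h (tr r u * jacobiSym N r) =
        ((r : ℂ) ^ 2 - 1) * (h 1 + h (-1)) := by
      have e5 : (2 : ℂ) * ∑ u : (𝓞 F ⧸ Ideal.span {(r : 𝓞 F)})ˣ, h (tr r u * jacobiSym N r) =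
          ∑ u : (𝓞 F ⧸ Ideal.span {(r : 𝓞 F)})ˣ, (h 1 + h (-1)) := by
        rw [two_mul]
        nth_rewrite 2 [e2]
        rw [← Finset.sum_add_distrib]
        exact Finset.sum_congr rfl fun u _ => e3 u
      rw [e5, Finset.sum_const, Finset.card_univ, hcard, nsmul_eq_mul,
        Nat.cast_sub (Nat.one_le_pow _ _ hr0)]
      push_cast
      ring
    linear_combination e4 / 2
  · rw [if_neg (fun h1 => hx (hiff.1 h1))]
    rw [if_neg (fun h1 => hx (h0.1 h1))] at hcard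
    have e1 : ∑ u : (𝓞 F ⧸ Ideal.span {(r : 𝓞 F)})ˣ,
        (if ∃ k : ℤ, (u : 𝓞 F ⧸ Ideal.span {(r : 𝓞 F)}) *
          Ideal.Quotient.mk (Ideal.span {(r : 𝓞 F)}) x = k then
            h (tr r u * jacobiSym N r) else 0) =
        ∑ u : (𝓞 F ⧸ Ideal.span {(r : 𝓞 F)})ˣ,
          (if ∃ k : ℤ, (u : 𝓞 F ⧸ Ideal.span {(r : 𝓞 F)}) *
          Ideal.Quotient.mk (Ideal.span {(r : 𝓞 F)}) x = k then h (jacobiSym M r) else 0) := by
      refine Finset.sum_congr rfl fun u _ => ?_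
      by_cases hu : ∃ k : ℤ, (u : 𝓞 F ⧸ Ideal.span {(r : 𝓞 F)}) *
          Ideal.Quotient.mk (Ideal.span {(r : 𝓞 F)}) x = k
      · rw [if_pos hu, if_pos hu]
        obtain ⟨k, hk⟩ := hu
        congr 1
        have hjx := jac_ne Dt hr h4 hj hx
        have e2 : jacobiSym (nm x) r = jacobiSym N r * jacobiSym M r := by
          rw [hM, jacobiSym.mul_left]
        have e3 : tr r u * jacobiSym (nm x) r = 1 := by
          have e4 : (r : 𝓞 F) ∣ Quotient.out (u : 𝓞 F ⧸ Ideal.span {(r : 𝓞 F)}) * x - k := by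
            rw [← dvd_iff, map_mul, mk_out, hk, map_intCast]
          have e5 := jac_congr Dt e4
          have hk0 : ¬ (r : ℤ) ∣ k := by
            intro h1
            have h2 : (r : ℤ) ∣ nm (Quotient.out (u : 𝓞 F ⧸ Ideal.span {(r : 𝓞 F)}) * x) := by
              have h3 := nm_congr Dt e4
              rw [nm_int Dt] at h3
              exact (dvd_sub_left (h1.trans (dvd_pow_self k (by norm_num)))).1 h3
            rw [nm_mul] at h2
            rcases (Nat.prime_iff_prime_int.1 hr).dvd_or_dvd h2 with h3 | h3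
            · have h6 := tr_ne Dt hr h4 hj u
              have h7 : tr r u = 0 := by
                unfold tr
                rw [jacobiSym.mod_left, Int.emod_eq_zero_of_dvd h3]
                exact jacobiSym.zero_left hr.one_lt
              rw [h7] at h6
              rcases h6 with h6 | h6 <;> exact absurd h6 (by norm_num)
            · exact hx ((dvd_nm Dt hr h4 hj x).1 h3)
          rw [nm_mul, jacobiSym.mul_left, nm_int Dt] at e5
          refine e5.trans ?_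
          apply jacobiSym.sq_one'
          rw [Int.gcd_comm]
          exact (Int.isCoprime_iff_gcd_eq_one).1
            ((Nat.prime_iff_prime_int.1 hr).coprime_iff_not_dvd.2 hk0)
        rcases tr_ne Dt hr h4 hj u with h1 | h1 <;> rcases hjN with h2 | h2 <;>
          rw [h1, e2, h2] at e3 <;> rw [h1, h2] <;> linarith
      · rw [if_neg hu, if_neg hu]
    rw [e1, ← Finset.sum_filter, Finset.sum_const, hcard, nsmul_eq_mul, Nat.cast_sub hr0]
    push_cast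
    ring

end

end CntYAux

open CntYAux in
theorem stCntY (h : StRg) : StCntY := by
  classical
  intro q F iF iN s σ χ cj D Dt T c x L hh hc hx hL
  obtain ⟨-, -, hidp⟩ := h F iF iN D T.sqf.ne_zero
  have hcD := (hidp c).1 hc
  have hNx : (Ideal.absNorm c : ℤ) ∣ nm x := by
    unfold nm
    exact Int.natCast_dvd_natCast.2 (Ideal.absNorm_dvd_absNorm_of_le
      ((Ideal.span_singleton_le_iff_mem c).2 hx))
  have hNr : ∀ r ∈ D.primeFactors, ¬ (r : ℤ) ∣ (Ideal.absNorm c : ℤ) := by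
    intro r hr h1
    have h0 : Nat.Coprime (Ideal.absNorm c) r :=
      Nat.Coprime.coprime_dvd_right (Nat.dvd_of_mem_primeFactors hr) hcD.2
    have h3 : r ∣ Ideal.absNorm c := Int.natCast_dvd_natCast.1 h1
    have h2 : r = 1 := Nat.Coprime.eq_one_of_dvd h0.symm h3
    exact (Nat.prime_of_mem_primeFactors hr).one_lt.ne' h2
  let f : D.primeFactors → Ideal (𝓞 F) := fun r => Ideal.span {((r : ℕ) : 𝓞 F)}
  have hcop : ∀ i j : D.primeFactors, i ≠ j →
      IsCoprime (((i : ℕ) : 𝓞 F)) (((j : ℕ) : 𝓞 F)) := by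
    intro i j hij
    have h1 : Nat.Coprime (i : ℕ) (j : ℕ) :=
      (Nat.coprime_primes (Nat.prime_of_mem_primeFactors i.2)
        (Nat.prime_of_mem_primeFactors j.2)).2 fun h2 => hij (Subtype.ext h2)
    have h2 := (Nat.isCoprime_iff_coprime.2 h1).map (Int.castRingHom (𝓞 F))
    simpa using h2
  have hf : Pairwise (Function.onFun IsCoprime f) := by
    intro i j hij
    exact (Ideal.isCoprime_span_singleton_iff _ _).2 (hcop i j hij)
  have hprod : ∏ i : D.primeFactors, (((i : ℕ) : 𝓞 F)) = (D : 𝓞 F) := by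
    have h1 : ∏ i : D.primeFactors, (((i : ℕ) : 𝓞 F)) = ∏ i ∈ D.primeFactors, ((i : ℕ) : 𝓞 F) :=
      Finset.prod_coe_sort D.primeFactors (fun i => ((i : ℕ) : 𝓞 F))
    rw [h1, ← Nat.cast_prod, Nat.prod_primeFactors_of_squarefree T.sqf]
  have hinf : Ideal.span {(D : 𝓞 F)} = ⨅ i, f i := by
    have h1 := Ideal.iInf_span_singleton hcop
    rw [hprod] at h1
    exact h1.symm
  let e1 : (𝓞 F ⧸ Ideal.span {(D : 𝓞 F)}) ≃+* ((i : D.primeFactors) → 𝓞 F ⧸ f i) :=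
    (Ideal.quotEquivOfEq hinf).trans (Ideal.quotientInfRingEquivPiQuotient f hf)
  have he1 : ∀ (y : 𝓞 F) (i : D.primeFactors),
      e1 (Ideal.Quotient.mk _ y) i = Ideal.Quotient.mk (f i) y := fun y i => rfl
  let e : (𝓞 F ⧸ Ideal.span {(D : 𝓞 F)})ˣ ≃ ((i : D.primeFactors) → (𝓞 F ⧸ f i)ˣ) :=
    ((Units.mapEquiv e1.toMulEquiv).trans MulEquiv.piUnits).toEquiv
  have he : ∀ (y : (𝓞 F ⧸ Ideal.span {(D : 𝓞 F)})ˣ) (i : D.primeFactors),
      ((e y i : (𝓞 F ⧸ f i)ˣ) : 𝓞 F ⧸ f i) = Ideal.Quotient.mk (f i) (L y) := by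
    intro y i
    rw [← he1, (hL y).2]
    rfl
  have hfin : ∀ i : D.primeFactors, Finite (𝓞 F ⧸ f i) := by
    intro i
    have hp := Nat.prime_of_mem_primeFactors i.2
    apply Ideal.finiteQuotientOfFreeOfNeBot
    intro h1
    have h2 : ((i : ℕ) : 𝓞 F) = 0 := Ideal.span_singleton_eq_bot.1 h1
    exact hp.ne_zero (by exact_mod_cast h2)
  haveI : ∀ i : D.primeFactors, Fintype (𝓞 F ⧸ f i)ˣ := fun i => by
    haveI := hfin i
    exact Fintype.ofFinite _
  let G : (i : D.primeFactors) → (𝓞 F ⧸ f i)ˣ → ℂ := fun i u =>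
    if ∃ k : ℤ, (u : 𝓞 F ⧸ Ideal.span {((i : ℕ) : 𝓞 F)}) *
        Ideal.Quotient.mk (Ideal.span {((i : ℕ) : 𝓞 F)}) x = k then
      hh i (tr (i : ℕ) u * jacobiSym (Ideal.absNorm c) i) else 0
  have hterm : ∀ y : (𝓞 F ⧸ Ideal.span {(D : 𝓞 F)})ˣ,
      (if ∃ k : ℤ, (D : 𝓞 F) ∣ L y * x - k then ∏ r ∈ D.primeFactors,
          hh r (jacobiSym (Ideal.absNorm (Ideal.span {L y} * c)) r) else 0) =
        ∏ i : D.primeFactors, G i (e y i) := by
    intro y
    have hiff : ∀ i : D.primeFactors, (∃ k : ℤ,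
        ((e y i : (𝓞 F ⧸ f i)ˣ) : 𝓞 F ⧸ Ideal.span {((i : ℕ) : 𝓞 F)}) *
        Ideal.Quotient.mk (Ideal.span {((i : ℕ) : 𝓞 F)}) x = k) ↔
        ∃ k : ℤ, ((i : ℕ) : 𝓞 F) ∣ L y * x - k := by
      intro i
      refine exists_congr fun k => ?_
      rw [← dvd_iff, map_mul, map_intCast]
      constructor
      · intro h1
        rw [← h1]
        exact congrArg (· * _) (he y i).symm
      · intro h1
        rw [← h1]
        exact congrArg (· * _) (he y i)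
    have hall : (∃ k : ℤ, (D : 𝓞 F) ∣ L y * x - k) ↔
        ∀ i : D.primeFactors, ∃ k : ℤ, ((i : ℕ) : 𝓞 F) ∣ L y * x - k := by
      constructor
      · rintro ⟨k, hk⟩ i
        refine ⟨k, dvd_trans ?_ hk⟩
        exact_mod_cast (Nat.cast_dvd_cast (Nat.dvd_of_mem_primeFactors i.2) :
          ((i : ℕ) : 𝓞 F) ∣ ((D : ℕ) : 𝓞 F))
      · intro h1
        choose k hk using h1
        obtain ⟨K, hK⟩ := Nat.chineseRemainderOfFinset
          (fun i : D.primeFactors => (k i % ((i : ℕ) : ℤ)).toNat) (fun i => (i : ℕ)) Finset.univ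
          (fun i _ => (Nat.prime_of_mem_primeFactors i.2).ne_zero)
          (fun i _ j _ hij => (Nat.coprime_primes (Nat.prime_of_mem_primeFactors i.2)
            (Nat.prime_of_mem_primeFactors j.2)).2 fun h2 => hij (Subtype.ext h2))
        refine ⟨K, ?_⟩
        rw [← hprod]
        refine Fintype.prod_dvd_of_coprime (fun i j hij => hcop i j hij) fun i => ?_
        have h2 : ((i : ℕ) : ℤ) ∣ k i - K := by
          have h3 := Nat.modEq_iff_dvd.1 (hK i (Finset.mem_univ i))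
          have hpos : (0 : ℤ) < ((i : ℕ) : ℤ) := by
            exact_mod_cast (Nat.prime_of_mem_primeFactors i.2).pos
          rw [Int.toNat_of_nonneg (Int.emod_nonneg _ hpos.ne')] at h3
          have h4 := Int.dvd_sub_self_of_emod_eq (rfl : k i % ((i : ℕ) : ℤ) = k i % ((i : ℕ) : ℤ))
          have h5 := dvd_sub h3 h4
          have e5 : k i % ((i : ℕ) : ℤ) - K - (k i % ((i : ℕ) : ℤ) - k i) = k i - K := by ring
          rwa [e5] at h5
        obtain ⟨t, ht⟩ := hk i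
        obtain ⟨t', ht'⟩ := h2
        refine ⟨t + t', ?_⟩
        have h6 := congrArg (Int.cast (R := 𝓞 F)) ht'
        push_cast at h6 ⊢
        linear_combination ht + h6
    by_cases hcond : ∃ k : ℤ, (D : 𝓞 F) ∣ L y * x - k
    · rw [if_pos hcond, ← Finset.prod_coe_sort]
      refine Finset.prod_congr rfl fun i _ => ?_
      have h1 := (hiff i).2 (hall.1 hcond i)
      refine Eq.trans ?_ (if_pos h1).symm
      rw [tr_eq Dt (e y i) (he y i).symm, ← jacobiSym.mul_left, map_mul, Nat.cast_mul]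
      rfl
    · rw [if_neg hcond]
      have h1 : ∃ i : D.primeFactors, ¬ ∃ k : ℤ, ((i : ℕ) : 𝓞 F) ∣ L y * x - k := by
        by_contra h2
        push Not at h2
        exact hcond (hall.2 fun i => h2 i)
      obtain ⟨i, hi⟩ := h1
      exact (Finset.prod_eq_zero (Finset.mem_univ i)
        (if_neg fun h2 => hi ((hiff i).1 h2))).symm
  rw [finsum_eq_of_bijective (g := fun p => ∏ i : D.primeFactors, G i (p i)) e e.bijective hterm,
    finsum_eq_sum_of_fintype]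
  have hpi : ∑ p : (i : D.primeFactors) → (𝓞 F ⧸ f i)ˣ, ∏ i : D.primeFactors, G i (p i) =
      ∏ i : D.primeFactors, ∑ u : (𝓞 F ⧸ f i)ˣ, G i u := by
    rw [Finset.prod_univ_sum, Fintype.piFinset_univ]
  rw [hpi, ← Finset.prod_coe_sort D.primeFactors (fun r => (((r : ℂ) - 1) *
        (if (r : ℤ) ∣ (Ideal.absNorm (Ideal.span {x}) : ℤ) / Ideal.absNorm c then
          ((r : ℂ) + 1) / 2 * (hh r 1 + hh r (-1))
        else hh r (jacobiSym ((Ideal.absNorm (Ideal.span {x}) : ℤ) / Ideal.absNorm c) r))))]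
  refine Finset.prod_congr rfl fun i _ => ?_
  have hp := Nat.prime_of_mem_primeFactors i.2
  have hd := Nat.dvd_of_mem_primeFactors i.2
  exact local_sum Dt hp (T.mod4 i hp hd) (T.inert i hp hd) x (Ideal.absNorm c : ℤ)
    (hNr i i.2) hNx (hh i)

end Pool.Agent.Lib.MP_7c08ba_nt.CN.TW
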