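import Pool.Agent.Lib.MP_7c08ba_nt.CN.T.StP
import Pool.Agent.Lib.MP_7c08ba_nt.RZ.C.Prod
import Pool.Agent.Lib.MP_7c08ba_nt.RZ.C.Super
import Pool.Agent.Lib.MP_7c08ba_nt.RZ.C.Half

set_option autoImplicit false

/-!
Project TW, (V2): the duplication formula of the Weierstrass function.
-/

namespace Pool.Agent.Lib.MP_7c08ba_nt.CN.TW

namespace DupAux

open Filter Topology

theorem indep_scale {w₁ w₂ : ℂ} (h : LinearIndependent ℝ ![w₁, w₂]) {a b : ℝ} (ha : a ≠ 0)
    (hb : b ≠ 0) : LinearIndependent ℝ ![(a : ℂ) * w₁, (b : ℂ) * w₂] := by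
  rw [LinearIndependent.pair_iff] at h ⊢
  intro s t hst
  obtain ⟨h1, h2⟩ := h (s * a) (t * b) (by
    rw [← hst]
    simp only [Complex.real_smul]
    push_cast
    ring)
  exact ⟨(mul_eq_zero.1 h1).resolve_right ha, (mul_eq_zero.1 h2).resolve_right hb⟩

variable (L : PeriodPair)

/-- the lattice with the periods `ω₁ / 2`, `ω₂` -/
noncomputable def hp1 : PeriodPair where
  ω₁ := L.ω₁ / 2
  ω₂ := L.ω₂
  indep := by
    have h := indep_scale L.indep (a := 1 / 2) (b := 1) (by norm_num) (by norm_num)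
    have e1 : ((1 / 2 : ℝ) : ℂ) * L.ω₁ = L.ω₁ / 2 := by
      push_cast
      ring
    have e2 : ((1 : ℝ) : ℂ) * L.ω₂ = L.ω₂ := by
      push_cast
      ring
    rwa [e1, e2] at h

/-- the lattice with the periods `ω₁ / 2`, `ω₂ / 2` -/
noncomputable def hp2 : PeriodPair where
  ω₁ := L.ω₁ / 2
  ω₂ := L.ω₂ / 2
  indep := by
    have h := indep_scale L.indep (a := 1 / 2) (b := 1 / 2) (by norm_num) (by norm_num)
    have e1 : ((1 / 2 : ℝ) : ℂ) * L.ω₁ = L.ω₁ / 2 := by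
      push_cast
      ring
    have e2 : ((1 / 2 : ℝ) : ℂ) * L.ω₂ = L.ω₂ / 2 := by
      push_cast
      ring
    rwa [e1, e2] at h

theorem hp1_lat : (hp1 L).lattice = L.lattice ⊔ Submodule.span ℤ {L.ω₁ / 2} := by
  apply le_antisymm
  · refine Submodule.span_le.2 ?_
    intro z hz
    rcases hz with rfl | hz
    · exact Submodule.mem_sup_right (Submodule.mem_span_singleton_self _)
    · rw [Set.mem_singleton_iff] at hz
      subst hz
      exact Submodule.mem_sup_left L.ω₂_mem_lattice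
  · refine sup_le (Submodule.span_le.2 ?_) (Submodule.span_le.2 ?_)
    · intro z hz
      rcases hz with rfl | hz
      · have h1 := (hp1 L).lattice.smul_mem (2 : ℤ) (hp1 L).ω₁_mem_lattice
        have h2 : (2 : ℤ) • (hp1 L).ω₁ = L.ω₁ := by
          show (2 : ℤ) • (L.ω₁ / 2) = L.ω₁
          rw [zsmul_eq_mul]
          push_cast
          ring
        rwa [h2] at h1
      · rw [Set.mem_singleton_iff] at hz
        subst hz
        exact (hp1 L).ω₂_mem_lattice
    · intro z hz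
      rw [Set.mem_singleton_iff] at hz
      subst hz
      exact (hp1 L).ω₁_mem_lattice

theorem hp2_lat : (hp2 L).lattice = (hp1 L).lattice ⊔ Submodule.span ℤ {L.ω₂ / 2} := by
  apply le_antisymm
  · refine Submodule.span_le.2 ?_
    intro z hz
    rcases hz with rfl | hz
    · exact Submodule.mem_sup_left (hp1 L).ω₁_mem_lattice
    · rw [Set.mem_singleton_iff] at hz
      subst hz
      exact Submodule.mem_sup_right (Submodule.mem_span_singleton_self _)
  · refine sup_le (Submodule.span_le.2 ?_) (Submodule.span_le.2 ?_)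
    · intro z hz
      rcases hz with rfl | hz
      · exact (hp2 L).ω₁_mem_lattice
      · rw [Set.mem_singleton_iff] at hz
        subst hz
        have h1 := (hp2 L).lattice.smul_mem (2 : ℤ) (hp2 L).ω₂_mem_lattice
        have h2 : (2 : ℤ) • (hp2 L).ω₂ = (hp1 L).ω₂ := by
          show (2 : ℤ) • (L.ω₂ / 2) = L.ω₂
          rw [zsmul_eq_mul]
          push_cast
          ring
        rwa [h2] at h1
    · intro z hz
      rw [Set.mem_singleton_iff] at hz
      subst hz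
      exact (hp2 L).ω₂_mem_lattice

theorem mem_hp2 (z : ℂ) : z ∈ (hp2 L).lattice ↔ 2 * z ∈ L.lattice := by
  rw [PeriodPair.mem_lattice, PeriodPair.mem_lattice]
  constructor
  · rintro ⟨m, n, h⟩
    refine ⟨m, n, ?_⟩
    have h' : (m : ℂ) * (L.ω₁ / 2) + n * (L.ω₂ / 2) = z := h
    linear_combination 2 * h'
  · rintro ⟨m, n, h⟩
    refine ⟨m, n, ?_⟩
    show (m : ℂ) * (L.ω₁ / 2) + n * (L.ω₂ / 2) = z
    linear_combination h / 2

theorem hp1_le : (hp1 L).lattice ≤ (hp2 L).lattice := by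
  rw [hp2_lat]
  exact le_sup_left

/-- multiplication by `1 / 2` -/
noncomputable def eqv : L.lattice ≃ (hp2 L).lattice where
  toFun l := ⟨l.1 / 2, by
    rw [mem_hp2, mul_div_cancel₀ _ (two_ne_zero)]
    exact l.2⟩
  invFun m := ⟨2 * m.1, (mem_hp2 L m.1).1 m.2⟩
  left_inv l := by
    apply Subtype.ext
    show 2 * (l.1 / 2) = l.1
    ring
  right_inv m := by
    apply Subtype.ext
    show 2 * m.1 / 2 = m.1
    ring

theorem hp2_P (z : ℂ) : (hp2 L).weierstrassP z = 4 * L.weierstrassP (2 * z) := by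
  have h1 := (L.hasSum_weierstrassP (2 * z)).mul_left 4
  refine ((hp2 L).hasSum_weierstrassP z).unique ((eqv L).hasSum_iff.1 (h1.congr_fun ?_))
  intro l
  show 1 / (z - l.1 / 2) ^ 2 - 1 / (l.1 / 2) ^ 2 = 4 * (1 / (2 * z - l.1) ^ 2 - 1 / l.1 ^ 2)
  have e1 : (z - l.1 / 2) ^ 2 = (2 * z - l.1) ^ 2 / 4 := by ring
  have e2 : (l.1 / 2) ^ 2 = l.1 ^ 2 / 4 := by ring
  rw [e1, e2, one_div_div, one_div_div]
  ring

/-- the constant of the product identity is not zero -/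
theorem c_ne {h : ℂ} (hh : h ∉ L.lattice) (h2 : 2 * h ∈ L.lattice) :
    3 * L.weierstrassP h ^ 2 - L.g₂ / 4 ≠ 0 := by
  intro h0
  apply RZC.HalfM.not_zero L (z := h)
  have h3 : ∀ᶠ z in 𝓝[≠] (0 : ℂ), L.weierstrassP z - L.weierstrassP h ≠ 0 := by
    have h4 := (RZC.PrdX.tendsto_one L h).eventually_ne (one_ne_zero)
    filter_upwards [h4] with z hz hz0
    rw [hz0, mul_zero] at hz
    exact hz rfl
  have h5 : ∀ᶠ z in 𝓝[≠] (0 : ℂ), L.weierstrassP (z + h) = L.weierstrassP h := by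
    filter_upwards [h3, RZC.PrdX.eventually_off L h hh] with z hz1 hz2
    have h6 := RZC.stProd L h hh h2 z hz2.1 hz2.2
    rw [h0] at h6
    exact sub_eq_zero.1 ((mul_eq_zero.1 h6).resolve_left hz1)
  have h6 : ∀ᶠ z in 𝓝 (0 : ℂ), L.weierstrassP (z + h) = L.weierstrassP h := by
    rw [eventually_nhdsWithin_iff] at h5
    filter_upwards [h5] with z hz
    by_cases hz0 : z = 0
    · rw [hz0, zero_add]
    · exact hz hz0
  have h7 : ∀ᶠ w in 𝓝 h, L.weierstrassP w = L.weierstrassP h := by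
    have h8 : Tendsto (fun w : ℂ => w - h) (𝓝 h) (𝓝 0) := by
      have h9 : ContinuousAt (fun w : ℂ => w - h) h := by fun_prop
      have h10 := h9.tendsto
      simpa using h10
    filter_upwards [h8.eventually h6] with w hw
    rwa [sub_add_cancel] at hw
  have h8 : deriv L.weierstrassP =ᶠ[𝓝 h] deriv fun _ => L.weierstrassP h :=
    EventuallyEq.deriv h7
  rw [L.deriv_weierstrassP] at h8
  filter_upwards [h8] with w hw
  rw [hw]
  simp

end DupAux

open DupAux in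
/-- (V2) the duplication formula -/
theorem stDup : StDup := by
  intro L z hz h2z
  have hS := RZC.stSuper RZC.stHalf
  have hP := RZC.stProd
  -- the half periods
  have n1 : L.ω₁ / 2 ∉ L.lattice := L.ω₁_div_two_notMem_lattice
  have n2 : L.ω₂ / 2 ∉ L.lattice := L.ω₂_div_two_notMem_lattice
  have n3 : L.ω₂ / 2 + L.ω₁ / 2 ∉ L.lattice := by
    have h := (L.mul_ω₁_add_mul_ω₂_mem_lattice (α := 1 / 2) (β := 1 / 2)).not.mpr (by norm_num)
    intro h'
    apply h
    have e : ((1 / 2 : ℚ) : ℂ) * L.ω₁ + ((1 / 2 : ℚ) : ℂ) * L.ω₂ = L.ω₂ / 2 + L.ω₁ / 2 := by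
      push_cast
      ring
    rwa [e]
  have t1 : 2 * (L.ω₁ / 2) ∈ L.lattice := by
    rw [mul_div_cancel₀ _ (two_ne_zero)]
    exact L.ω₁_mem_lattice
  have t2 : 2 * (L.ω₂ / 2) ∈ L.lattice := by
    rw [mul_div_cancel₀ _ (two_ne_zero)]
    exact L.ω₂_mem_lattice
  have t3 : 2 * (L.ω₂ / 2 + L.ω₁ / 2) ∈ L.lattice := by
    rw [mul_add]
    exact L.lattice.add_mem t2 t1
  have off : ∀ h : ℂ, 2 * h ∈ L.lattice → z + h ∉ L.lattice := by
    intro h hh h'
    apply h2z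
    have h3 := L.lattice.sub_mem (L.lattice.smul_mem (2 : ℤ) h') hh
    have e : (2 : ℤ) • (z + h) - 2 * h = 2 * z := by
      rw [zsmul_eq_mul]
      push_cast
      ring
    rwa [e] at h3
  -- the products
  have p1 := hP L _ n1 t1 z hz (off _ t1)
  have p2 := hP L _ n2 t2 z hz (off _ t2)
  have p3 := hP L _ n3 t3 z hz (off _ t3)
  have q1 := hP L _ n1 t1 _ n2 n3
  have q2 := hP L _ n2 t2 _ n1 (by rwa [add_comm])
  rw [add_comm (L.ω₁ / 2)] at q2
  have c1 := c_ne L n1 t1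
  have c2 := c_ne L n2 t2
  have c3 := c_ne L n3 t3
  obtain ⟨r1, -, -⟩ := RZC.stHalf L _ n1 t1
  obtain ⟨r2, -, -⟩ := RZC.stHalf L _ n2 t2
  obtain ⟨r3, -, -⟩ := RZC.stHalf L _ n3 t3
  -- the sum
  have z2 : z ∉ (hp2 L).lattice := fun h => h2z ((mem_hp2 L z).1 h)
  have z1 : z ∉ (hp1 L).lattice := fun h => z2 (hp1_le L h)
  have w1 : z + L.ω₂ / 2 ∉ (hp1 L).lattice := by
    intro h
    apply z2
    rw [hp2_lat]
    have h4 : z + L.ω₂ / 2 ∈ (hp1 L).lattice ⊔ Submodule.span ℤ {L.ω₂ / 2} :=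
      Submodule.mem_sup_left h
    have h5 : L.ω₂ / 2 ∈ (hp1 L).lattice ⊔ Submodule.span ℤ {L.ω₂ / 2} :=
      Submodule.mem_sup_right (Submodule.mem_span_singleton_self (L.ω₂ / 2))
    have h3 := Submodule.sub_mem _ h4 h5
    rwa [add_sub_cancel_right] at h3
  have v1 : L.ω₂ / 2 ∉ (hp1 L).lattice := (hp1 L).ω₂_div_two_notMem_lattice
  have s1 : ∀ w : ℂ, w ∉ (hp1 L).lattice → (hp1 L).weierstrassP w =
      L.weierstrassP w + L.weierstrassP (w + L.ω₁ / 2) - L.weierstrassP (L.ω₁ / 2) :=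
    (hS L (hp1 L) _ n1 t1 (hp1_lat L)).2.2
  have s2 := (hS (hp1 L) (hp2 L) (L.ω₂ / 2) v1 (by
    rw [mul_div_cancel₀ _ (two_ne_zero)]
    exact (hp1 L).ω₂_mem_lattice) (hp2_lat L)).2.2 z z2
  rw [s1 _ z1, s1 _ w1, s1 _ v1, hp2_P] at s2
  rw [add_assoc z (L.ω₂ / 2) (L.ω₁ / 2)] at s2
  set x := L.weierstrassP z
  set e1 := L.weierstrassP (L.ω₁ / 2)
  set e2 := L.weierstrassP (L.ω₂ / 2)
  set e3 := L.weierstrassP (L.ω₂ / 2 + L.ω₁ / 2)
  set y1 := L.weierstrassP (z + L.ω₁ / 2)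
  set y2 := L.weierstrassP (z + L.ω₂ / 2)
  set y3 := L.weierstrassP (z + (L.ω₂ / 2 + L.ω₁ / 2))
  set X := L.weierstrassP (2 * z)
  set g2 := L.g₂
  set g3 := L.g₃
  have x1 : x - e1 ≠ 0 := by
    intro h
    rw [h, zero_mul] at p1
    exact c1 p1.symm
  have x2 : x - e2 ≠ 0 := by
    intro h
    rw [h, zero_mul] at p2
    exact c2 p2.symm
  have x3 : x - e3 ≠ 0 := by
    intro h
    rw [h, zero_mul] at p3
    exact c3 p3.symm
  have d21 : e2 - e1 ≠ 0 := by
    intro h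
    rw [h, zero_mul] at q1
    exact c1 q1.symm
  have d31 : e3 - e1 ≠ 0 := by
    intro h
    rw [h, mul_zero] at q1
    exact c1 q1.symm
  have d32 : e3 - e2 ≠ 0 := by
    intro h
    rw [h, mul_zero] at q2
    exact c2 q2.symm
  have f1 : 4 * (e1 ^ 2 + e1 * e2 + e2 ^ 2) = g2 := by
    have : (e2 - e1) * (4 * (e1 ^ 2 + e1 * e2 + e2 ^ 2) - g2) = 0 := by
      linear_combination r2 - r1
    exact sub_eq_zero.1 ((mul_eq_zero.1 this).resolve_left d21)
  have f2 : 4 * (e1 ^ 2 + e1 * e3 + e3 ^ 2) = g2 := by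
    have : (e3 - e1) * (4 * (e1 ^ 2 + e1 * e3 + e3 ^ 2) - g2) = 0 := by
      linear_combination r3 - r1
    exact sub_eq_zero.1 ((mul_eq_zero.1 this).resolve_left d31)
  have f3 : e3 = -e1 - e2 := by
    have : (e3 - e2) * (e1 + e2 + e3) = 0 := by
      linear_combination (f2 - f1) / 4
    linear_combination (mul_eq_zero.1 this).resolve_left d32
  have f4 : g3 = 4 * e1 ^ 3 - g2 * e1 := by
    linear_combination -r1
  have key : 4 * x ^ 3 - g2 * x - g3 = 4 * ((x - e1) * (x - e2) * (x - e3)) := by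
    rw [f4, ← f1, f3]
    ring
  refine ⟨?_, ?_⟩
  · rw [key]
    exact mul_ne_zero (by norm_num) (mul_ne_zero (mul_ne_zero x1 x2) x3)
  · rw [key]
    rw [f4, ← f1]
    rw [← f1] at p1 p2 p3
    rw [f3] at p3 s2 ⊢
    linear_combination (x - e1) * (x - e2) * (x - (-e1 - e2)) * s2 +
      (x - e2) * (x - (-e1 - e2)) * p1 + (x - e1) * (x - (-e1 - e2)) * p2 +
      (x - e1) * (x - e2) * p3

end Pool.Agent.Lib.MP_7c08ba_nt.CN.TW
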