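import Pool.Agent.Lib.MP_7c08ba_nt.CN.T.StH
import Pool.Agent.Lib.MP_7c08ba_nt.RZ.Bas

set_option autoImplicit false

/-!
(H4) the ring class group and the class group.
-/

namespace Pool.Agent.Lib.MP_7c08ba_nt.CN.TW

open NumberField IsDedekindDomain Polynomial Pool.Agent.Lib.MP_7c08ba_nt.RZ
open scoped nonZeroDivisors ComplexConjugate

namespace FibAux

section

variable {F : Type} [Field F] [NumberField F]

lemma dvd_cast {a b : ℕ} (h : (a : 𝓞 F) ∣ (b : 𝓞 F)) : a ∣ b := by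
  have h1 := map_dvd (Algebra.norm ℤ) h
  have h2 : ∀ c : ℕ, Algebra.norm ℤ (c : 𝓞 F) = (c : ℤ) ^ (Module.finrank ℤ (𝓞 F)) := by
    intro c
    have := Algebra.norm_algebraMap (S := 𝓞 F) (c : ℤ)
    simpa using this
  rw [h2, h2] at h1
  have h3 : Module.finrank ℤ (𝓞 F) ≠ 0 := Module.finrank_pos.ne'
  rw [Int.pow_dvd_pow_iff h3] at h1
  exact_mod_cast h1

lemma charP (D : ℕ) : CharP (𝓞 F ⧸ Ideal.span {(D : 𝓞 F)}) D where
  cast_eq_zero_iff n := by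
    have h1 : ((n : ℕ) : 𝓞 F ⧸ Ideal.span {(D : 𝓞 F)}) =
        Ideal.Quotient.mk (Ideal.span {(D : 𝓞 F)}) (n : 𝓞 F) := by
      rw [map_natCast]
    rw [h1, Ideal.Quotient.eq_zero_iff_mem, Ideal.mem_span_singleton]
    refine ⟨dvd_cast, fun h => ?_⟩
    obtain ⟨k, rfl⟩ := h
    exact ⟨k, by push_cast; ring⟩

lemma finQ {D : ℕ} (hD : D ≠ 0) : Finite (𝓞 F ⧸ Ideal.span {(D : 𝓞 F)}) := by
  refine Ideal.finiteQuotientOfFreeOfNeBot _ fun h => hD ?_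
  rw [Ideal.span_singleton_eq_bot] at h
  exact_mod_cast h

/-- an element which is a unit modulo `D` generates an ideal prime to `D` -/
lemma span_idp {D : ℕ} {x : 𝓞 F} (hx : x ≠ 0)
    (h : IsUnit (Ideal.Quotient.mk (Ideal.span {(D : 𝓞 F)}) x)) :
    Ideal.span {x} ∈ idp (F := F) D := by
  refine ⟨by rw [Ne, Ideal.span_singleton_eq_bot]; exact hx, ?_⟩
  obtain ⟨v, hv⟩ := h.exists_right_inv
  obtain ⟨z, rfl⟩ := Ideal.Quotient.mk_surjective v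
  rw [← map_mul, ← map_one (Ideal.Quotient.mk (Ideal.span {(D : 𝓞 F)})), Ideal.Quotient.eq,
    Ideal.mem_span_singleton] at hv
  obtain ⟨k, hk⟩ := hv
  rw [Ideal.isCoprime_span_singleton_iff]
  exact ⟨z, -k, by linear_combination hk⟩

lemma unit_of_idp {D : ℕ} {x : 𝓞 F} (h : Ideal.span {x} ∈ idp (F := F) D) :
    IsUnit (Ideal.Quotient.mk (Ideal.span {(D : 𝓞 F)}) x) := by
  obtain ⟨-, h2⟩ := h
  rw [Ideal.isCoprime_span_singleton_iff] at h2
  obtain ⟨a, b, hab⟩ := h2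
  refine IsUnit.of_mul_eq_one (Ideal.Quotient.mk (Ideal.span {(D : 𝓞 F)}) a) ?_
  rw [← map_mul, ← map_one (Ideal.Quotient.mk (Ideal.span {(D : 𝓞 F)})), Ideal.Quotient.eq,
    Ideal.mem_span_singleton]
  exact ⟨-b, by linear_combination hab⟩

/-- the units of `ℤ / D` in the ring `𝓞 / D` -/
noncomputable def io (D : ℕ) : (ZMod D)ˣ →* (𝓞 F ⧸ Ideal.span {(D : 𝓞 F)})ˣ :=
  let _ := charP (F := F) D
  Units.map (ZMod.castHom (dvd_refl D) (𝓞 F ⧸ Ideal.span {(D : 𝓞 F)}) : _ →* _)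

lemma io_inj (D : ℕ) : Function.Injective (io (F := F) D) := by
  let _ := charP (F := F) D
  apply Units.map_injective
  exact ZMod.castHom_injective _

lemma io_coe (D : ℕ) (m : (ZMod D)ˣ) (n : ℤ) (h : (m : ZMod D) = n) :
    ((io (F := F) D m : (𝓞 F ⧸ Ideal.span {(D : 𝓞 F)})ˣ) : 𝓞 F ⧸ Ideal.span {(D : 𝓞 F)}) =
      Ideal.Quotient.mk _ (n : 𝓞 F) := by
  let _ := charP (F := F) D
  change ZMod.castHom (dvd_refl D) (𝓞 F ⧸ Ideal.span {(D : 𝓞 F)}) (m : ZMod D) = _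
  rw [h, map_intCast, map_intCast]

lemma exists_int {D : ℕ} [NeZero D] (m : (ZMod D)ˣ) :
    ∃ n : ℤ, (m : ZMod D) = n ∧ IsCoprime n (D : ℤ) := by
  refine ⟨((m : ZMod D).val : ℤ), by simp, ?_⟩
  have := ZMod.val_coe_unit_coprime m
  rw [Nat.isCoprime_iff_coprime]
  exact this

lemma exists_unit {D : ℕ} {n : ℤ} (h : IsCoprime n (D : ℤ)) :
    ∃ m : (ZMod D)ˣ, (m : ZMod D) = n := by
  have := (ZMod.coe_int_isUnit_iff_isCoprime n D).2 h.symm
  exact ⟨this.unit, rfl⟩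

end

section

variable {q : ℕ} {F : Type} [iF : Field F] [iN : NumberField F] {s : 𝓞 F} {σ : F →+* ℂ}
  {χ : DirichletCharacter ℂ q} {cj : 𝓞 F ≃+* 𝓞 F} {D : ℕ}

/-- elements which are congruent up to rational integers define the same class -/
lemma cl_cong (h1 : StRg) (hd : Dat q s σ χ cj) (ht : TwA q D)
    {a b : 𝓞 F} {m n : ℤ} (ha : Ideal.span {a} ∈ idp (F := F) D)
    (hb : Ideal.span {b} ∈ idp (F := F) D) (hm : IsCoprime m (D : ℤ)) (hn : IsCoprime n (D : ℤ))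
    (h : (D : 𝓞 F) ∣ m * a - n * b) : cl D (Ideal.span {a}) = cl D (Ideal.span {b}) := by
  have hb0 : b ≠ 0 := by
    rintro rfl
    exact hb.1 (by simp)
  have ha0 : a ≠ 0 := by
    rintro rfl
    exact ha.1 (by simp)
  obtain ⟨-, -, h3⟩ := h1 F iF iN D ht.sqf.ne_zero
  have hN : IsCoprime ((Ideal.absNorm (Ideal.span {b}) : ℕ) : ℤ) (D : ℤ) :=
    Nat.isCoprime_iff_coprime.2 ((h3 _).1 hb).2
  have hb2 : b * cj b = (Ideal.absNorm (Ideal.span {b}) : 𝓞 F) := BasAux.mul_cj hd b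
  have hc0 : cj b ≠ 0 := by
    intro h0
    exact hb0 (by simpa using h0)
  rw [cl_eq_iff ha hb]
  obtain ⟨u, v, huv⟩ := hm
  have hu : IsCoprime u (D : ℤ) := ⟨m, v, by linear_combination huv⟩
  obtain ⟨k, hk⟩ := h
  refine ⟨b * cj b, a * cj b, ⟨mul_ne_zero hb0 hc0, (Ideal.absNorm (Ideal.span {b}) : ℕ), hN, ?_⟩,
    ⟨mul_ne_zero ha0 hc0, u * n * (Ideal.absNorm (Ideal.span {b}) : ℕ),
      (hu.mul_left hn).mul_left hN, ?_⟩, ?_⟩
  · rw [hb2]
    simp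
  · have h4 : (u : 𝓞 F) * m + v * D = 1 := by exact_mod_cast congrArg (Int.cast : ℤ → 𝓞 F) huv
    refine ⟨cj b * (u * k + v * a), ?_⟩
    push_cast
    rw [← hb2]
    linear_combination (-a * cj b) * h4 + u * cj b * hk
  · rw [Ideal.span_singleton_mul_span_singleton, Ideal.span_singleton_mul_span_singleton]
    congr 2
    ring

/-- the fibres: the first half -/
lemma fib_one (h1 : StRg) (hd : Dat q s σ χ cj) (ht : TwA q D)
    (y : (𝓞 F ⧸ Ideal.span {(D : 𝓞 F)})ˣ) (m : (ZMod D)ˣ) {a b : 𝓞 F} (ha : a ≠ 0) (hb : b ≠ 0)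
    (ha' : Ideal.Quotient.mk (Ideal.span {(D : 𝓞 F)}) a = y)
    (hb' : Ideal.Quotient.mk (Ideal.span {(D : 𝓞 F)}) b = (y * io D m :
      (𝓞 F ⧸ Ideal.span {(D : 𝓞 F)})ˣ)) :
    cl D (Ideal.span {a}) = cl D (Ideal.span {b}) := by
  have : NeZero D := ⟨ht.sqf.ne_zero⟩
  obtain ⟨n, hn, hc⟩ := exists_int m
  refine cl_cong h1 hd ht (m := n) (n := 1) (span_idp ha (by rw [ha']; exact y.isUnit))
    (span_idp hb (by rw [hb']; exact Units.isUnit _)) hc isCoprime_one_left ?_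
  rw [← Ideal.mem_span_singleton, ← Ideal.Quotient.eq, map_mul, ha', Int.cast_one, one_mul, hb',
    Units.val_mul, io_coe D m n hn, mul_comm]

/-- the fibres: the second half -/
lemma fib_two (hd : Dat q s σ χ cj) (y z : (𝓞 F ⧸ Ideal.span {(D : 𝓞 F)})ˣ) {a b : 𝓞 F}
    {c c' : (Ideal (𝓞 F))⁰} (hc : (c : Ideal (𝓞 F)) ∈ idp (F := F) D)
    (hc' : (c' : Ideal (𝓞 F)) ∈ idp (F := F) D) (ha : a ≠ 0) (hb : b ≠ 0)
    (ha' : Ideal.Quotient.mk (Ideal.span {(D : 𝓞 F)}) a = y)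
    (hb' : Ideal.Quotient.mk (Ideal.span {(D : 𝓞 F)}) b = z)
    (h : cl D (Ideal.span {a} * (c : Ideal (𝓞 F))) = cl D (Ideal.span {b} * (c' : Ideal (𝓞 F)))) :
    ClassGroup.mk0 c = ClassGroup.mk0 c' ∧ (c = c' → ∃ m : (ZMod D)ˣ, z = y * io D m) := by
  have hai := span_idp (D := D) ha (by rw [ha']; exact y.isUnit)
  have hbi := span_idp (D := D) hb (by rw [hb']; exact z.isUnit)
  rw [cl_eq_iff ((idp D).mul_mem hai hc) ((idp D).mul_mem hbi hc')] at h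
  obtain ⟨u, v, ⟨hu0, k, hk, hu⟩, ⟨hv0, l, hl, hv⟩, h⟩ := h
  rw [← mul_assoc, ← mul_assoc, Ideal.span_singleton_mul_span_singleton,
    Ideal.span_singleton_mul_span_singleton] at h
  constructor
  · rw [ClassGroup.mk0_eq_mk0_iff]
    exact ⟨u * a, v * b, mul_ne_zero hu0 ha, mul_ne_zero hv0 hb, h⟩
  · rintro rfl
    have h2 : Ideal.span {u * a} = Ideal.span {v * b} := mul_right_cancel₀ hc.1 h
    rw [Ideal.span_singleton_eq_span_singleton] at h2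
    obtain ⟨w, hw⟩ := h2
    obtain ⟨mk, hmk⟩ := exists_unit hk
    obtain ⟨ml, hml⟩ := exists_unit hl
    have hk2 : Ideal.Quotient.mk (Ideal.span {(D : 𝓞 F)}) u = io (F := F) D mk := by
      rw [io_coe D mk k hmk, Ideal.Quotient.eq, Ideal.mem_span_singleton]
      exact hu
    have hl2 : Ideal.Quotient.mk (Ideal.span {(D : 𝓞 F)}) v = io (F := F) D ml := by
      rw [io_coe D ml l hml, Ideal.Quotient.eq, Ideal.mem_span_singleton]
      exact hv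
    rcases BasAux.units hd w w.isUnit with hw1 | hw1
    · refine ⟨mk * ml⁻¹, ?_⟩
      rw [map_mul, map_inv, ← mul_assoc, eq_mul_inv_iff_mul_eq]
      apply Units.ext
      rw [Units.val_mul, Units.val_mul, ← hk2, ← hl2, ← ha', ← hb', ← map_mul, ← map_mul]
      rw [hw1, mul_one] at hw
      congr 1
      linear_combination -hw
    · refine ⟨-mk * ml⁻¹, ?_⟩
      have h5 : io (F := F) D (-mk) = -io (F := F) D mk := by
        apply Units.ext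
        rw [io_coe D (-mk) (-k) (by push_cast; rw [hmk]), Units.val_neg, io_coe D mk k hmk,
          ← map_neg]
        push_cast
        rfl
      rw [map_mul, map_inv, ← mul_assoc, eq_mul_inv_iff_mul_eq, h5]
      apply Units.ext
      rw [Units.val_mul, Units.val_mul, Units.val_neg, ← hk2, ← hl2, ← ha', ← hb', ← map_mul,
        ← map_neg, ← map_mul]
      rw [hw1] at hw
      congr 1
      linear_combination -hw

/-- an ideal times the conjugate of an ideal of the same class is principal -/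
lemma prin (hd : Dat q s σ χ cj) {I J : (Ideal (𝓞 F))⁰}
    (h : ClassGroup.mk0 J = ClassGroup.mk0 I) :
    ∃ b : 𝓞 F, (I : Ideal (𝓞 F)) * (J : Ideal (𝓞 F)).map (cj : 𝓞 F →+* 𝓞 F) =
      Ideal.span {b} := by
  obtain ⟨x, y, hx, hy, h⟩ := ClassGroup.mk0_eq_mk0_iff.1 h
  have hmm := BasAux.mul_map hd (J : Ideal (𝓞 F))
  generalize (J : Ideal (𝓞 F)).map (cj : 𝓞 F →+* 𝓞 F) = J' at hmm ⊢
  generalize (Ideal.absNorm (J : Ideal (𝓞 F)) : 𝓞 F) = n at hmm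
  generalize (J : Ideal (𝓞 F)) = J1 at hmm h
  generalize (I : Ideal (𝓞 F)) = I1 at h ⊢
  have h5 : Ideal.span {y} * (I1 * J') = Ideal.span {x * n} := by
    rw [← mul_assoc, ← h, mul_assoc, hmm, Ideal.span_singleton_mul_span_singleton]
  have h6 : x * n ∈ Ideal.span {y} := by
    have h7 : x * n ∈ Ideal.span {y} * (I1 * J') := by
      rw [h5]
      exact Ideal.mem_span_singleton_self _
    exact Ideal.mul_le_left h7
  obtain ⟨b, hb⟩ := Ideal.mem_span_singleton.1 h6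
  refine ⟨b, ?_⟩
  have hy' : Ideal.span {y} ≠ ⊥ := by rw [Ne, Ideal.span_singleton_eq_bot]; exact hy
  apply mul_left_cancel₀ hy'
  rw [h5, hb, Ideal.span_singleton_mul_span_singleton]

/-- surjectivity for one ideal, the computation -/
lemma surj_core (h1 : StRg) (hd : Dat q s σ χ cj) (ht : TwA q D)
    (L : (𝓞 F ⧸ Ideal.span {(D : 𝓞 F)})ˣ → 𝓞 F)
    (hL : ∀ y, L y ≠ 0 ∧ Ideal.Quotient.mk (Ideal.span {(D : 𝓞 F)}) (L y) = y)
    {I J J' : Ideal (𝓞 F)} {n : ℕ} {b : 𝓞 F} (hI : I ∈ idp (F := F) D) (hJ : J ∈ idp (F := F) D)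
    (hbi : Ideal.span {b} ∈ idp (F := F) D) (hn : Ideal.span {(n : 𝓞 F)} ∈ idp (F := F) D)
    (hn1 : cl D (Ideal.span {(n : 𝓞 F)}) = 1) (hcop : IsCoprime (n : ℤ) (D : ℤ))
    (hmm : J * J' = Ideal.span {(n : 𝓞 F)}) (hb : I * J' = Ideal.span {b}) :
    ∃ y : (𝓞 F ⧸ Ideal.span {(D : 𝓞 F)})ˣ, cl D (Ideal.span {L y} * J) = cl D I := by
  obtain ⟨ub, hub⟩ := unit_of_idp hbi
  obtain ⟨uN, huN⟩ := unit_of_idp hn
  refine ⟨uN⁻¹ * ub, ?_⟩
  obtain ⟨hl0, hl1⟩ := hL (uN⁻¹ * ub)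
  generalize L (uN⁻¹ * ub) = l at hl0 hl1 ⊢
  have hLi : Ideal.span {l} ∈ idp (F := F) D :=
    span_idp hl0 (by rw [hl1]; exact Units.isUnit _)
  have key : cl D (Ideal.span {l}) = cl D (Ideal.span {b}) := by
    refine cl_cong h1 hd ht (m := (n : ℤ)) (n := 1) hLi hbi hcop isCoprime_one_left ?_
    rw [← Ideal.mem_span_singleton, ← Ideal.Quotient.eq, map_mul, hl1, Int.cast_one, one_mul,
      Units.val_mul, Int.cast_natCast, ← huN, ← hub, Units.mul_inv_cancel_left]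
  rw [cl_mul hLi hJ, key, ← cl_mul hbi hJ, ← hb]
  have h7 : I * J' * J = Ideal.span {(n : 𝓞 F)} * I := by
    rw [← hmm]
    ring
  rw [h7, cl_mul hn hI, hn1, one_mul]

lemma conj_mem (h2 : StGch) (hd : Dat q s σ χ cj) (ht : TwA q D) {I : Ideal (𝓞 F)}
    (hI : I ∈ idp (F := F) D) : I.map (cj : 𝓞 F →+* 𝓞 F) ∈ idp (F := F) D :=
  ((h2 q F iF iN s σ χ cj D hd ht).1 I hI).1

lemma int_mem (h2 : StGch) (hd : Dat q s σ χ cj) (ht : TwA q D) {n : ℕ} (hn : n ≠ 0)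
    (hc : IsCoprime (n : ℤ) (D : ℤ)) : Ideal.span {(n : 𝓞 F)} ∈ idp (F := F) D ∧
      cl D (Ideal.span {(n : 𝓞 F)}) = 1 :=
  (h2 q F iF iN s σ χ cj D hd ht).2.2.2 (n : 𝓞 F) (by exact_mod_cast hn)
    ⟨n, hc, by rw [Int.cast_natCast, sub_self]; exact dvd_zero _⟩

lemma norm_cop (h1 : StRg) (ht : TwA q D) {I : Ideal (𝓞 F)} (hI : I ∈ idp (F := F) D) :
    IsCoprime ((Ideal.absNorm I : ℕ) : ℤ) (D : ℤ) :=
  Nat.isCoprime_iff_coprime.2 (((h1 F iF iN D ht.sqf.ne_zero).2.2 I).1 hI).2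

/-- surjectivity for one ideal -/
lemma surj_aux (h1 : StRg) (h2 : StGch) (hd : Dat q s σ χ cj) (ht : TwA q D)
    (L : (𝓞 F ⧸ Ideal.span {(D : 𝓞 F)})ˣ → 𝓞 F)
    (hL : ∀ y, L y ≠ 0 ∧ Ideal.Quotient.mk (Ideal.span {(D : 𝓞 F)}) (L y) = y)
    {I J : (Ideal (𝓞 F))⁰} (hI : (I : Ideal (𝓞 F)) ∈ idp (F := F) D)
    (hJ : (J : Ideal (𝓞 F)) ∈ idp (F := F) D) (h : ClassGroup.mk0 J = ClassGroup.mk0 I) :
    ∃ y : (𝓞 F ⧸ Ideal.span {(D : 𝓞 F)})ˣ,
      cl D (Ideal.span {L y} * (J : Ideal (𝓞 F))) = cl D (I : Ideal (𝓞 F)) := by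
  obtain ⟨b, hb⟩ := prin hd h
  have hn0 : Ideal.absNorm (J : Ideal (𝓞 F)) ≠ 0 := fun h0 =>
    hJ.1 (Ideal.absNorm_eq_zero_iff.1 h0)
  have hcop := norm_cop h1 ht hJ
  have e := int_mem h2 hd ht hn0 hcop
  have hbi : Ideal.span {b} ∈ idp (F := F) D := by
    rw [← hb]
    exact (idp D).mul_mem hI (conj_mem h2 hd ht hJ)
  exact surj_core h1 hd ht L hL hI hJ hbi e.1 e.2 hcop (BasAux.mul_map hd _) hb

/-- surjectivity -/
lemma surj (h1 : StRg) (h2 : StGch) (hd : Dat q s σ χ cj) (ht : TwA q D)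
    (c : ClassGroup (𝓞 F) → (Ideal (𝓞 F))⁰)
    (L : (𝓞 F ⧸ Ideal.span {(D : 𝓞 F)})ˣ → 𝓞 F)
    (hc : ∀ C, ClassGroup.mk0 (c C) = C) (hci : ∀ C, (c C : Ideal (𝓞 F)) ∈ idp (F := F) D)
    (hL : ∀ y, L y ≠ 0 ∧ Ideal.Quotient.mk (Ideal.span {(D : 𝓞 F)}) (L y) = y)
    (B : RC F D) : ∃ p : ClassGroup (𝓞 F) × (𝓞 F ⧸ Ideal.span {(D : 𝓞 F)})ˣ,
      cl D (Ideal.span {L p.2} * (c p.1 : Ideal (𝓞 F))) = B := by
  obtain ⟨I, hI, rfl⟩ := exists_rep B
  obtain ⟨y, hy⟩ := surj_aux h1 h2 hd ht L hL (I := ⟨I, mem_nonZeroDivisors_of_ne_zero hI.1⟩)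
    hI (hci _) (hc (ClassGroup.mk0 ⟨I, mem_nonZeroDivisors_of_ne_zero hI.1⟩))
  exact ⟨(_, y), hy⟩

end

end FibAux

open FibAux

theorem stFib (h1 : StRg) (h2 : StGch) : StFib := by
  classical
  intro q F iF iN s σ χ cj D hd ht c L g hc hci hL
  have hfin := finQ (F := F) (D := D) ht.sqf.ne_zero
  have : NeZero D := ⟨ht.sqf.ne_zero⟩
  obtain ⟨hH, -, -⟩ := h1 F iF iN D ht.sqf.ne_zero
  have hLi : ∀ y, Ideal.span {L y} ∈ idp (F := F) D := fun y =>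
    span_idp (hL y).1 (by rw [(hL y).2]; exact y.isUnit)
  refine ⟨hfin, fun y C => (idp D).mul_mem (hLi y) (hci C), ?_⟩
  let _ := Fintype.ofFinite (𝓞 F ⧸ Ideal.span {(D : 𝓞 F)})ˣ
  let _ := Fintype.ofFinite (RC F D)
  set f : ClassGroup (𝓞 F) × (𝓞 F ⧸ Ideal.span {(D : 𝓞 F)})ˣ → RC F D := fun p =>
    cl D (Ideal.span {L p.2} * (c p.1 : Ideal (𝓞 F))) with hf
  have hcard : ∀ B : RC F D, (Finset.univ.filter fun p => f p = B).card = Nat.totient D := by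
    intro B
    obtain ⟨⟨C, y⟩, rfl⟩ := surj h1 h2 hd ht c L hc hci hL B
    have him : (Finset.univ.filter fun p => f p = f (C, y)) =
        Finset.univ.image fun m : (ZMod D)ˣ => ((C, y * io D m) :
          ClassGroup (𝓞 F) × (𝓞 F ⧸ Ideal.span {(D : 𝓞 F)})ˣ) := by
      ext ⟨C', z⟩
      simp only [Finset.mem_filter, Finset.mem_univ, true_and, Finset.mem_image, Prod.mk.injEq]
      constructor
      · intro h
        obtain ⟨e1, e2⟩ := fib_two hd y z (hci C) (hci C') (hL y).1 (hL z).1 (hL y).2 (hL z).2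
          h.symm
        rw [hc, hc] at e1
        subst e1
        obtain ⟨m, hm⟩ := e2 rfl
        exact ⟨m, rfl, hm.symm⟩
      · rintro ⟨m, rfl, rfl⟩
        simp only [hf]
        rw [cl_mul (hLi _) (hci _), cl_mul (hLi _) (hci _),
          fib_one h1 hd ht y m (hL y).1 (hL _).1 (hL y).2 (hL _).2]
    change (Finset.univ.filter fun p => f p = f (C, y)).card = _
    rw [him, Finset.card_image_of_injective, Finset.card_univ, ZMod.card_units_eq_totient]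
    intro m m' hmm
    have := (Prod.mk.inj hmm).2
    exact io_inj D (mul_left_cancel this)
  have e1 : ∀ C : ClassGroup (𝓞 F), ∑ᶠ y : (𝓞 F ⧸ Ideal.span {(D : 𝓞 F)})ˣ,
      g (cl D (Ideal.span {L y} * (c C : Ideal (𝓞 F)))) =
      ∑ y : (𝓞 F ⧸ Ideal.span {(D : 𝓞 F)})ˣ, g (f (C, y)) := fun C =>
    finsum_eq_sum_of_fintype _
  rw [finsum_eq_sum_of_fintype, Finset.mul_sum, Finset.sum_congr rfl fun C _ => e1 C,
    ← Finset.sum_product', Finset.univ_product_univ,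
    ← Finset.sum_fiberwise (s := Finset.univ) (g := f)]
  refine Finset.sum_congr rfl fun B _ => ?_
  rw [Finset.sum_congr rfl (g := fun _ => g B), Finset.sum_const, hcard, nsmul_eq_mul]
  intro p hp
  rw [(Finset.mem_filter.1 hp).2]

end Pool.Agent.Lib.MP_7c08ba_nt.CN.TW
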