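import Pool.Agent.Lib.MP_7c08ba_nt.CN.T.StP
import Pool.Agent.Lib.MP_7c08ba_nt.RZ.C.E2Lat
import Pool.Agent.Lib.MP_7c08ba_nt.RZ.C.Lat
import Pool.Agent.Lib.MP_7c08ba_nt.RZ.C.Sum

set_option autoImplicit false

/-! Project TW, (C5): the lattices of the ring classes. -/

namespace Pool.Agent.Lib.MP_7c08ba_nt.CN.TW

open NumberField IsDedekindDomain Polynomial RZC UpperHalfPlane ModularForm EisensteinSeries
open scoped nonZeroDivisors ComplexConjugate MatrixGroups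

namespace FldTAux

variable {F : Type} [Field F] [NumberField F] {D : ℕ} {σ : F →+* ℂ}

omit [NumberField F] in
theorem lat_eq {a : Ideal (𝓞 F)} {w₁ w₂ v₁ v₂ : ℂ} (hw : IsBD D σ a w₁ w₂)
    (hv : IsBD D σ a v₁ v₂) : lat w₁ w₂ = lat v₁ v₂ := by
  ext z
  rw [hw.2, hv.2]

omit [NumberField F] in
theorem rat_of_mul {x y z : 𝓞 F} (hx : Rat D x) (hy : Rat D y) (h : y = x * z) : Rat D z := by
  obtain ⟨hx0, c, ⟨u, v, huv⟩, a, ha⟩ := hx
  obtain ⟨hy0, d, hd, b, hb⟩ := hy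
  refine ⟨?_, u * d, ?_, u * b - u * a * z + v * z, ?_⟩
  · rintro rfl
    exact hy0 (by rw [h, mul_zero])
  · exact IsCoprime.mul_left ⟨c, v, by linear_combination huv⟩ hd
  · have h1 : (u : 𝓞 F) * c + v * D = 1 := by
      have := congrArg (Int.cast : ℤ → 𝓞 F) huv
      push_cast at this
      exact this
    push_cast
    linear_combination (-z) * h1 + (u : 𝓞 F) * hb - (u : 𝓞 F) * z * ha - (u : 𝓞 F) * h

theorem cl_pow {P : Ideal (𝓞 F)} (hP : P ∈ idp (F := F) D) (m : ℕ) :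
    cl D (P ^ m) = cl D P ^ m := by
  induction m with
  | zero => rw [pow_zero, pow_zero, cl_one]
  | succ m ih => rw [pow_succ, pow_succ, cl_mul ((idp D).pow_mem hP m) hP, ih]

theorem exists_pow (h5 : StRg) (hD : D ≠ 0) {P : Ideal (𝓞 F)} (hP : P ∈ idp (F := F) D) :
    ∃ (m : ℕ) (x : 𝓞 F), 0 < m ∧ P ^ m = Ideal.span {x} ∧ Rat D x := by
  obtain ⟨hfin, hu, -⟩ := h5 F _ _ D hD
  obtain ⟨U, hU⟩ := hu (cl D P)
  obtain ⟨m, hm0, hm⟩ := isOfFinOrder_iff_pow_eq_one.1 (isOfFinOrder_of_finite U)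
  have h1 : cl D (P ^ m) = cl D (1 : Ideal (𝓞 F)) := by
    rw [cl_pow hP, cl_one, ← hU, ← Units.val_pow_eq_pow_val, hm, Units.val_one]
  obtain ⟨x, y, hx, hy, h⟩ := (cl_eq_iff ((idp D).pow_mem hP m) (idp D).one_mem).1 h1
  rw [mul_one] at h
  have h3 : y ∈ Ideal.span {x} * P ^ m := by
    rw [h]
    exact Ideal.mem_span_singleton_self y
  obtain ⟨z, -, hz⟩ := Ideal.mem_span_singleton_mul.1 h3
  have hz' : y = x * z := hz.symm
  refine ⟨m, z, hm0, ?_, rat_of_mul hx hy hz'⟩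
  have h4 : Ideal.span {x} * P ^ m = Ideal.span {x} * Ideal.span {z} := by
    rw [h, Ideal.span_singleton_mul_span_singleton, hz']
  have h5 : Ideal.span {x} ≠ (0 : Ideal (𝓞 F)) := by
    rw [Ne, Ideal.zero_eq_bot, Ideal.span_singleton_eq_bot]
    exact hx.1
  exact mul_left_cancel₀ h5 h4

theorem XX_congr {w₁ w₂ v₁ v₂ : ℂ} (hw : Pos w₁ w₂) (hv : Pos v₁ v₂)
    (h : lat w₁ w₂ = lat v₁ v₂) (h' : lat w₁ (w₂ / 2) = lat v₁ (v₂ / 2)) :
    XX w₁ w₂ = XX v₁ v₂ := by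
  unfold XX
  rw [SumAux.dl_congr stLat hw hv h, SumAux.dl_congr stLat hw.half hv.half h']

end FldTAux

open FldTAux in
/-- (C5) -/
theorem stFldT (h1 : StAdaptT) (h2 : StChainT) (h3 : StUnitT) (h4 : StOrdT) (h5 : StRg)
    (_h6 : StGch) : StFldT := by
  intro q F _ _ s σ A hF hA
  obtain ⟨P, hP, hPn, hPu⟩ := h3 q F _ _ s σ A hF hA
  refine ⟨P, hP, hPn, fun D hD => ?_⟩
  have hD0 : D ≠ 0 := hD.sqf.ne_zero
  refine ⟨fun a ha => ?_, fun a ha w₁ w₂ hw => ?_, fun b hb w₁ w₂ hw hw' => ?_⟩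
  · obtain ⟨-, w₁, w₂, -, -, h⟩ := h1 q F _ _ s D σ P a hF hD hP hPn ha
    exact ⟨w₁, w₂ / 4, h⟩
  · have hPD : P ∈ idp (F := F) D := (h1 q F _ _ s D σ P a hF hD hP hPn ha).1
    obtain ⟨m, x, hm0, hx, hxD⟩ := exists_pow h5 hD0 hPD
    obtain ⟨u, v, hc, hb⟩ := h2 q F _ _ s D σ P a m x hF hD hP hPn hm0 hx hxD ha
    obtain ⟨hu1, hu2⟩ := hPu m x hm0 hx
    have hbm : IsBD D σ a (u m) (v m) := by
      have := hb m le_rfl
      rwa [Nat.sub_self, pow_zero, one_mul] at this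
    have hl := lat_eq hw hbm
    have hpos := hw.1
    have hpos' := hbm.1
    have e4' : e4 w₁ w₂ = e4 (u m) (v m) := SumAux.e4_congr stLat hpos hpos' hl
    have e6' : e6 w₁ w₂ = e6 (u m) (v m) := stLat 6 E₆ _ _ _ _ hpos hpos' hl
    have jv' : jv w₁ w₂ = jv (u m) (v m) := SumAux.jv_congr stLat hpos hpos' hl
    have hE : E2s w₁ w₂ = E2s (u m) (v m) := stE2Lat _ _ _ _ hpos hpos' hl
    obtain ⟨hO, -, -, h6, h63, h2'⟩ := h4 A hA m _ u v hm0 hc hu1 hu2 m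
    unfold RZC.Ord
    rw [e4', e6', jv', hE]
    exact ⟨⟨hpos, hO.2.1, hO.2.2⟩, h6, h63, h2'⟩
  · have hPD : P ∈ idp (F := F) D := (h1 q F _ _ s D σ P b hF hD hP hPn hb).1
    obtain ⟨m, x, hm0, hx, hxD⟩ := exists_pow h5 hD0 hPD
    obtain ⟨u, v, hc, hbb⟩ := h2 q F _ _ s D σ P b m x hF hD hP hPn hm0 hx hxD hb
    obtain ⟨hu1, hu2⟩ := hPu m x hm0 hx
    obtain ⟨j, rfl⟩ : ∃ j, m = j + 1 := ⟨m - 1, by omega⟩
    have hbm : IsBD D σ b (u (j + 1)) (v (j + 1)) := by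
      have := hbb (j + 1) le_rfl
      rwa [Nat.sub_self, pow_zero, one_mul] at this
    have hbj : IsBD D σ (P * b) (u j) (v j) := by
      have := hbb j (Nat.le_succ j)
      rwa [Nat.add_sub_cancel_left, pow_one] at this
    have hX : XX w₁ w₂ = XX (u j) (v j) :=
      XX_congr hw.1 hbj.1 (lat_eq hw hbj) ((lat_eq hw' hbm).trans (hc.half j))
    obtain ⟨-, g1, g2, -⟩ := h4 A hA (j + 1) _ u v hm0 hc hu1 hu2 j
    rw [hX]
    exact ⟨g1, g2⟩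

end Pool.Agent.Lib.MP_7c08ba_nt.CN.TW
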