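import Pool.Agent.Lib.MP_7c08ba_nt.CN.T.StP
import Pool.Agent.Lib.MP_7c08ba_nt.CN.NV
import Pool.Agent.Lib.MP_7c08ba_nt.RZ.Bas
import Pool.Agent.Lib.MP_7c08ba_nt.RZ.C.Level

set_option autoImplicit false

/-!
Project TW, module J5: change of a sign.
-/

namespace Pool.Agent.Lib.MP_7c08ba_nt.CN.TW

open NumberField IsDedekindDomain Polynomial RZC
open scoped nonZeroDivisors ComplexConjugate

namespace FlipAux

/-! ### finite sums -/

section sums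

variable {R : Type} [CommRing R] [DecidableEq R]

theorem half_sum (P : ℂ → Prop) (h0 : P 0) (hadd : ∀ x y, P x → P y → P (x + y)) (f : R → ℂ)
    (n : ℕ) : ∀ X : Finset R, X.card = n →
      (∀ x ∈ X, -x ∈ X ∧ -x ≠ x ∧ f (-x) = f x ∧ P (f x)) → P (1 / 2 * ∑ x ∈ X, f x) := by
  induction n using Nat.strong_induction_on with
  | _ n ih =>
    intro X hn hX
    rcases X.eq_empty_or_nonempty with h | ⟨x, hx⟩
    · rw [h, Finset.sum_empty, mul_zero]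
      exact h0
    · obtain ⟨h1, h2, h3, h4⟩ := hX x hx
      have h5 : -x ∈ X.erase x := Finset.mem_erase.2 ⟨h2, h1⟩
      have e1 := Finset.add_sum_erase X f hx
      have e2 := Finset.add_sum_erase (X.erase x) f h5
      have e3 : 1 / 2 * ∑ x ∈ X, f x =
          f x + 1 / 2 * ∑ y ∈ (X.erase x).erase (-x), f y := by
        rw [← e1, ← e2, h3]
        ring
      rw [e3]
      refine hadd _ _ h4 (ih ((X.erase x).erase (-x)).card ?_ _ rfl ?_)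
      · rw [Finset.card_erase_of_mem h5, Finset.card_erase_of_mem hx]
        have := Finset.card_pos.2 ⟨x, hx⟩
        omega
      · intro y hy
        rw [Finset.mem_erase, Finset.mem_erase] at hy
        obtain ⟨hy1, hy2, hy3⟩ := hy
        obtain ⟨g1, g2, g3, g4⟩ := hX y hy3
        refine ⟨?_, g2, g3, g4⟩
        rw [Finset.mem_erase, Finset.mem_erase]
        exact ⟨fun h => hy2 (neg_injective h), fun h => hy1 (by rw [← h, neg_neg]), g1⟩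

variable [Fintype R]

open Classical in
theorem split_sum {r d u v : R} (h0 : r * d = 0) (h1 : u * r + v * d = 1) (f : R → ℂ) :
    ∑ x ∈ Finset.univ.filter (fun x : R => ¬ r ∣ x), f x =
      ∑ a ∈ Finset.univ.filter (fun a : R => r ∣ a),
        ∑ b ∈ Finset.univ.filter (fun b : R => d ∣ b ∧ b ≠ 0), f (a + b) := by
  rw [← Finset.sum_product']
  refine Finset.sum_nbij' (fun x => (u * r * x, v * d * x)) (fun p => p.1 + p.2) ?_ ?_ ?_ ?_ ?_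
  · intro x hx
    simp only [Finset.mem_filter, Finset.mem_univ, true_and, Finset.mem_product] at hx ⊢
    refine ⟨⟨u * x, by ring⟩, ⟨v * x, by ring⟩, fun h => hx ⟨u * x, ?_⟩⟩
    linear_combination (-x) * h1 + h
  · intro p hp
    simp only [Finset.mem_filter, Finset.mem_univ, true_and, Finset.mem_product] at hp ⊢
    obtain ⟨⟨s, hs⟩, ⟨t, ht⟩, h2⟩ := hp
    rintro ⟨w, hw⟩
    apply h2
    linear_combination (-p.2) * h1 + u * r * ht + u * t * h0 + v * d * (hw - hs) +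
      v * (w - s) * h0
  · intro x _
    change u * r * x + v * d * x = x
    linear_combination x * h1
  · intro p hp
    simp only [Finset.mem_filter, Finset.mem_univ, true_and, Finset.mem_product] at hp
    obtain ⟨⟨s, hs⟩, ⟨t, ht⟩, -⟩ := hp
    refine Prod.ext ?_ ?_
    · change u * r * (p.1 + p.2) = p.1
      linear_combination p.1 * h1 - v * d * hs - v * s * h0 + u * r * ht + u * t * h0
    · change v * d * (p.1 + p.2) = p.2
      linear_combination p.2 * h1 - u * r * ht - u * t * h0 + v * d * hs + v * s * h0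
  · intro x _
    change f x = f (u * r * x + v * d * x)
    congr 1
    linear_combination (-x) * h1

open Classical in
theorem perm_sum {r d u v : R} (h0 : r * d = 0) (h1 : u * r + v * d = 1) (f : R → ℂ) :
    ∑ a ∈ Finset.univ.filter (fun a : R => r ∣ a ∧ a ≠ 0), f (r * a) =
      ∑ a ∈ Finset.univ.filter (fun a : R => r ∣ a ∧ a ≠ 0), f a := by
  have key : ∀ a : R, r ∣ a → u * (r * a) = a := by
    rintro a ⟨s, rfl⟩
    linear_combination r * s * h1 - v * s * h0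
  refine Finset.sum_nbij' (fun a => r * a) (fun a => u * a) ?_ ?_ ?_ ?_ ?_
  · intro a ha
    simp only [Finset.mem_filter, Finset.mem_univ, true_and] at ha ⊢
    refine ⟨dvd_mul_right _ _, fun h => ha.2 ?_⟩
    rw [← key a ha.1, h, mul_zero]
  · intro a ha
    simp only [Finset.mem_filter, Finset.mem_univ, true_and] at ha ⊢
    refine ⟨ha.1.mul_left u, fun h => ha.2 ?_⟩
    rw [← key a ha.1, mul_left_comm, h, mul_zero]
  · intro a ha
    simp only [Finset.mem_filter, Finset.mem_univ, true_and] at ha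
    exact key a ha.1
  · intro a ha
    simp only [Finset.mem_filter, Finset.mem_univ, true_and] at ha
    change r * (u * a) = a
    rw [mul_left_comm]
    exact key a ha.1
  · intro a _
    rfl

open Classical in
theorem zero_sum {r : R} (f : R → ℂ) :
    ∑ a ∈ Finset.univ.filter (fun a : R => r ∣ a), f a =
      f 0 + ∑ a ∈ Finset.univ.filter (fun a : R => r ∣ a ∧ a ≠ 0), f a := by
  have h0 : (0 : R) ∈ Finset.univ.filter (fun a : R => r ∣ a) := by simp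
  rw [← Finset.add_sum_erase _ f h0]
  congr 1
  refine Finset.sum_congr ?_ fun _ _ => rfl
  ext a
  simp only [Finset.mem_erase, Finset.mem_filter, Finset.mem_univ, true_and]
  exact and_comm

end sums

/-! ### arithmetic of the field -/

section arith

variable {q : ℕ} {F : Type} [Field F] [NumberField F] {s : 𝓞 F} {σ : F →+* ℂ}
  {χ : DirichletCharacter ℂ q} {cj : 𝓞 F ≃+* 𝓞 F}

/-- the norm as an integer -/
noncomputable def nz (z : 𝓞 F) : ℤ := (Ideal.absNorm (Ideal.span {z}) : ℤ)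

theorem nz_cast (D : RZ.Dat q s σ χ cj) (z : 𝓞 F) : ((nz z : ℤ) : 𝓞 F) = z * cj z := by
  rw [(RZ.stBas q F _ _ s σ χ cj D).2.2.2.2.1 z, nz, Int.cast_natCast]

theorem four_norm (D : RZ.Dat q s σ χ cj) (z : 𝓞 F) :
    ∃ a b : ℤ, 2 * z = a + b * s ∧ (2 : ℤ) ∣ a - b ∧ 4 * nz z = a ^ 2 + q * b ^ 2 := by
  obtain ⟨h1, -, h3, -, -⟩ := RZ.stBas q F _ _ s σ χ cj D
  obtain ⟨a, b, e1, e2⟩ := h1 z
  refine ⟨a, b, e1, e2, ?_⟩
  have e3 : 2 * cj z = a - b * s := by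
    have h := congrArg cj e1
    rw [map_mul, map_add, map_mul, map_ofNat, map_intCast, map_intCast, h3] at h
    linear_combination h
  have e4 := nz_cast D z
  have e5 : ((4 * nz z : ℤ) : 𝓞 F) = ((a ^ 2 + q * b ^ 2 : ℤ) : 𝓞 F) := by
    push_cast
    linear_combination 4 * e4 + (2 * cj z) * e1 + (a + b * s) * e3 - b ^ 2 * D.sq
  exact_mod_cast e5

theorem dvd_int (D : RZ.Dat q s σ χ cj) {m n : ℤ} (h : (m : 𝓞 F) ∣ (n : 𝓞 F)) : m ∣ n := by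
  obtain ⟨z, hz⟩ := h
  obtain ⟨h1, -⟩ := RZ.stBas q F _ _ s σ χ cj D
  obtain ⟨a, b, e1, ⟨k, hk⟩⟩ := h1 z
  have e2 : ((2 * n - m * a : ℤ) : 𝓞 F) = ((m * b : ℤ) : 𝓞 F) * s := by
    push_cast
    linear_combination 2 * hz + m * e1
  have e3 : (((2 * n - m * a) ^ 2 : ℤ) : 𝓞 F) = ((-(q * (m * b) ^ 2) : ℤ) : 𝓞 F) := by
    push_cast at e2 ⊢
    linear_combination (2 * n - m * a + m * b * s) * e2 + (m * b) ^ 2 * D.sq
  have e4 : (2 * n - m * a) ^ 2 = -(q * (m * b) ^ 2) := by exact_mod_cast e3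
  have hq : 0 < (q : ℤ) := by exact_mod_cast D.prime.pos
  have e5 : m * b = 0 := by
    by_contra hc
    have h2 : 0 < (m * b) ^ 2 := by positivity
    have h3 : 0 < (q : ℤ) * (m * b) ^ 2 := mul_pos hq h2
    have h4 := sq_nonneg (2 * n - m * a)
    linarith
  have e6 : 2 * n - m * a = 0 := by
    rw [e5] at e4
    have : (2 * n - m * a) ^ 2 = 0 := by rw [e4]; ring
    exact pow_eq_zero_iff (two_ne_zero) |>.1 this
  rcases mul_eq_zero.1 e5 with h2 | h2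
  · rw [h2] at e6 ⊢
    exact ⟨0, by linarith⟩
  · exact ⟨k, by rw [h2] at hk; have : a = 2 * k := by linarith
                 rw [this] at e6; linarith⟩

theorem norm_congr (D : RZ.Dat q s σ χ cj) {m : ℤ} {z z' : 𝓞 F} (h : (m : 𝓞 F) ∣ z - z') :
    m ∣ nz z - nz z' := by
  obtain ⟨t, ht⟩ := h
  apply dvd_int D
  refine ⟨t * cj z + z' * cj t, ?_⟩
  have e1 := nz_cast D z
  have e2 := nz_cast D z'
  have e3 : cj z - cj z' = m * cj t := by rw [← map_sub, ht, map_mul, map_intCast]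
  push_cast
  linear_combination e1 - e2 + cj z * ht + z' * e3

theorem inert (D : RZ.Dat q s σ χ cj) {r : ℕ} (hr : r.Prime) (h4 : r % 4 = 1)
    (hq : jacobiSym r q = -1) {z : 𝓞 F} (h : (r : ℤ) ∣ nz z) : (r : 𝓞 F) ∣ z := by
  obtain ⟨a, b, e1, -, e3⟩ := four_norm D z
  have hrp : Prime (r : ℤ) := Nat.prime_iff_prime_int.1 hr
  have hro : Odd r := Nat.odd_iff.2 (by omega)
  have hd : (r : ℤ) ∣ a ^ 2 + q * b ^ 2 := by
    rw [← e3]
    exact h.mul_left 4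
  have hb : (r : ℤ) ∣ b := by
    by_contra hb
    have hqo : Odd q := Nat.odd_iff.2 (by have := D.mod; omega)
    have j1 : jacobiSym (q : ℤ) r = -1 := by
      rw [← jacobiSym.quadratic_reciprocity_one_mod_four h4 hqo]
      exact hq
    have j2 : jacobiSym (-1) r = 1 := by
      rw [jacobiSym.at_neg_one hro, ZMod.χ₄_nat_one_mod_four h4]
    have j3 : jacobiSym b r ^ 2 = 1 := by
      apply jacobiSym.sq_one
      rw [← Int.isCoprime_iff_gcd_eq_one]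
      exact ((Prime.coprime_iff_not_dvd hrp).2 hb).symm
    have j4 : jacobiSym (a ^ 2) r = jacobiSym (-1 * q * b ^ 2) r := by
      apply jacobiSym.mod_left'
      refine (Int.modEq_iff_dvd).2 ?_
      have h' : (r : ℤ) ∣ -(a ^ 2 + q * b ^ 2) := (dvd_neg).2 hd
      rwa [show -(a ^ 2 + (q : ℤ) * b ^ 2) = -1 * q * b ^ 2 - a ^ 2 by ring] at h'
    rw [jacobiSym.mul_left, jacobiSym.mul_left, jacobiSym.pow_left, jacobiSym.pow_left, j1, j2,
      j3] at j4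
    have := sq_nonneg (jacobiSym a r)
    rw [j4] at this
    norm_num at this
  have ha : (r : ℤ) ∣ a := by
    have h1 : (r : ℤ) ∣ a ^ 2 := by
      have h2 : (r : ℤ) ∣ q * b ^ 2 := (dvd_pow hb two_ne_zero).mul_left _
      exact (dvd_add_left h2).1 hd
    exact hrp.dvd_of_dvd_pow h1
  obtain ⟨a', rfl⟩ := ha
  obtain ⟨b', rfl⟩ := hb
  obtain ⟨k, hk⟩ := hro
  refine ⟨(k + 1) * (a' + b' * s) - z, ?_⟩
  have hk' : (r : 𝓞 F) = 2 * k + 1 := by rw [hk]; push_cast; ring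
  push_cast at e1
  linear_combination (k + 1) * e1 + z * hk'

/-- the quotient of the norms -/
noncomputable def qz (c : Ideal (𝓞 F)) (z : 𝓞 F) : ℤ := nz z / (Ideal.absNorm c : ℤ)

theorem mul_qz {c : Ideal (𝓞 F)} {z : 𝓞 F} (hz : z ∈ c) :
    (Ideal.absNorm c : ℤ) * qz c z = nz z := by
  refine Int.mul_ediv_cancel' ?_
  rw [nz, Int.natCast_dvd_natCast]
  exact Ideal.absNorm_dvd_absNorm_of_le ((Ideal.span_singleton_le_iff_mem c).2 hz)

theorem qz_congr (D : RZ.Dat q s σ χ cj) {c : Ideal (𝓞 F)} {m : ℕ}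
    (hc : (Ideal.absNorm c).Coprime m) {z z' : 𝓞 F} (hz : z ∈ c) (hz' : z' ∈ c)
    (h : (m : 𝓞 F) ∣ z - z') : (m : ℤ) ∣ qz c z - qz c z' := by
  have h1 : (m : ℤ) ∣ nz z - nz z' := norm_congr D (by rwa [Int.cast_natCast])
  rw [← mul_qz hz, ← mul_qz hz', ← mul_sub] at h1
  exact (Nat.isCoprime_iff_coprime.2 hc).symm.dvd_of_dvd_mul_left h1

theorem dvd_qz (D : RZ.Dat q s σ χ cj) {c : Ideal (𝓞 F)} {r : ℕ}
    (hc : (Ideal.absNorm c).Coprime r) (hr : r.Prime) (h4 : r % 4 = 1)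
    (hq : jacobiSym r q = -1) {z : 𝓞 F} (hz : z ∈ c) :
    (r : ℤ) ∣ qz c z ↔ (r : 𝓞 F) ∣ z := by
  constructor
  · intro h
    refine inert D hr h4 hq ?_
    rw [← mul_qz hz]
    exact h.mul_left _
  · intro h
    have h1 : (r : ℤ) ∣ qz c z - qz c 0 := qz_congr D hc hz c.zero_mem (by rwa [sub_zero])
    have h2 : qz c 0 = 0 := by
      have h3 : nz (0 : 𝓞 F) = 0 := by
        rw [nz, Ideal.span_singleton_zero]
        simp
      rw [qz, h3, Int.zero_ediv]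
    rwa [h2, sub_zero] at h1

theorem qz_mul (D : RZ.Dat q s σ χ cj) {c : Ideal (𝓞 F)} (hc : Ideal.absNorm c ≠ 0) (r : ℕ)
    {z : 𝓞 F} (hz : z ∈ c) : qz c (r * z) = (r : ℤ) ^ 2 * qz c z := by
  have h0 : (Ideal.absNorm c : ℤ) ≠ 0 := by exact_mod_cast hc
  apply mul_left_cancel₀ h0
  rw [mul_qz (c.mul_mem_left _ hz), mul_left_comm, mul_qz hz]
  have e1 := nz_cast D z
  have e2 := nz_cast D ((r : 𝓞 F) * z)
  rw [map_mul, map_natCast] at e2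
  have e3 : ((nz ((r : 𝓞 F) * z) : ℤ) : 𝓞 F) = (((r : ℤ) ^ 2 * nz z : ℤ) : 𝓞 F) := by
    push_cast
    linear_combination e2 - r ^ 2 * e1
  exact_mod_cast e3

end arith

/-! ### the weights -/

/-- the weight without the prime `r` -/
noncomputable def W (D r : ℕ) (ε : ℕ → ℤ) (N : ℤ) : ℤ :=
  ∏ p ∈ D.primeFactors.erase r,
    if (p : ℤ) ∣ N then ((p : ℤ) + 1) / 2 else (1 + ε p * jacobiSym N p) / 2

theorem wE_add {D r : ℕ} {ε : ℕ → ℤ} (hD : D ≠ 0) (hr : r.Prime) (hr2 : r % 4 = 1) (hrD : r ∣ D)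
    (hε : ∀ p, ε p = 1 ∨ ε p = -1) (N : ℤ) :
    wE D ε N + wE D (Function.update ε r (-ε r)) N =
      (if (r : ℤ) ∣ N then (r : ℤ) + 1 else 1) * W D r ε N := by
  have hm : r ∈ D.primeFactors := Nat.mem_primeFactors.2 ⟨hr, hrD, hD⟩
  have e1 : wE D (Function.update ε r (-ε r)) N =
      (if (r : ℤ) ∣ N then ((r : ℤ) + 1) / 2 else (1 + (-ε r) * jacobiSym N r) / 2) *
        W D r ε N := by
    rw [wE, ← Finset.mul_prod_erase _ _ hm, Function.update_self]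
    congr 1
    refine Finset.prod_congr rfl fun p hp => ?_
    rw [Function.update_of_ne (Finset.ne_of_mem_erase hp)]
  have e2 : wE D ε N =
      (if (r : ℤ) ∣ N then ((r : ℤ) + 1) / 2 else (1 + ε r * jacobiSym N r) / 2) *
        W D r ε N := by
    rw [wE, ← Finset.mul_prod_erase _ _ hm]
    rfl
  rw [e1, e2, ← add_mul]
  congr 1
  split_ifs with h
  · omega
  · have hj : jacobiSym N r = 1 ∨ jacobiSym N r = -1 := by
      have h1 : N.gcd r = 1 := by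
        rw [← Int.isCoprime_iff_gcd_eq_one]
        exact ((Prime.coprime_iff_not_dvd (Nat.prime_iff_prime_int.1 hr)).2 h).symm
      exact jacobiSym.eq_one_or_neg_one h1
    rcases hε r with h2 | h2 <;> rcases hj with h3 | h3 <;> rw [h2, h3] <;> norm_num

theorem W_congr {D r : ℕ} {ε : ℕ → ℤ} {N N' : ℤ}
    (h : ∀ p ∈ D.primeFactors.erase r, (p : ℤ) ∣ N - N') : W D r ε N = W D r ε N' := by
  refine Finset.prod_congr rfl fun p hp => ?_
  have h1 := h p hp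
  have h2 : (p : ℤ) ∣ N ↔ (p : ℤ) ∣ N' := by
    constructor
    · intro h3
      have := dvd_sub h3 h1
      rwa [sub_sub_cancel] at this
    · intro h3
      have := dvd_add h1 h3
      rwa [sub_add_cancel] at this
  have h3 : jacobiSym N p = jacobiSym N' p := by
    apply jacobiSym.mod_left'
    refine (Int.modEq_iff_dvd).2 ?_
    rw [← neg_sub]
    exact (dvd_neg).2 h1
  rw [h3]
  by_cases h4 : (p : ℤ) ∣ N
  · rw [if_pos h4, if_pos (h2.1 h4)]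
  · rw [if_neg h4, if_neg (fun h => h4 (h2.2 h))]

theorem W_odd {D r : ℕ} {ε : ℕ → ℤ} {N : ℤ} (h4 : ∀ p : ℕ, p.Prime → p ∣ D → p % 4 = 1)
    (h : ∀ p ∈ D.primeFactors.erase r, (p : ℤ) ∣ N) : Odd (W D r ε N) := by
  rw [W]
  refine Finset.prod_induction _ Odd (fun a b ha hb => ha.mul hb) odd_one fun p hp => ?_
  rw [if_pos (h p hp)]
  have h1 := Nat.mem_primeFactors.1 (Finset.mem_of_mem_erase hp)
  have h2 := h4 p h1.1 h1.2.1
  obtain ⟨k, hk⟩ : ∃ k : ℕ, p = 4 * k + 1 := ⟨p / 4, by omega⟩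
  exact ⟨k, by rw [hk]; push_cast; omega⟩

theorem W_sq {D r : ℕ} {ε : ℕ → ℤ} (hr : r.Prime) (N : ℤ) :
    W D r ε ((r : ℤ) ^ 2 * N) = W D r ε N := by
  refine Finset.prod_congr rfl fun p hp => ?_
  have hp1 := (Nat.mem_primeFactors.1 (Finset.mem_of_mem_erase hp)).1
  have hpr : p ≠ r := Finset.ne_of_mem_erase hp
  have hc : IsCoprime (r : ℤ) (p : ℤ) :=
    Nat.isCoprime_iff_coprime.2 ((Nat.coprime_primes hr hp1).2 hpr.symm)
  have h3 : jacobiSym ((r : ℤ) ^ 2 * N) p = jacobiSym N p := by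
    rw [jacobiSym.mul_left, jacobiSym.sq_one' (Int.isCoprime_iff_gcd_eq_one.1 hc), one_mul]
  have h2 : (p : ℤ) ∣ (r : ℤ) ^ 2 * N ↔ (p : ℤ) ∣ N :=
    ⟨fun h => (hc.pow_left.symm).dvd_of_dvd_mul_left h, fun h => h.mul_left _⟩
  rw [h3]
  by_cases h4 : (p : ℤ) ∣ N
  · rw [if_pos h4, if_pos (h2.2 h4)]
  · rw [if_neg h4, if_neg (fun h => h4 (h2.1 h))]

end FlipAux

namespace FlipAux

section main

variable {q : ℕ} {F : Type} [Field F] [NumberField F] {s : 𝓞 F} {σ : F →+* ℂ}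

theorem exists_dat' (h : FieldC q F (s : F)) : ∃ (s' : 𝓞 F) (χ : DirichletCharacter ℂ q)
    (cj : 𝓞 F ≃+* 𝓞 F), RZ.Dat q s' σ χ cj := by
  by_cases him : 0 < (σ s).im
  · obtain ⟨χ, cj, h1⟩ := NVAux.exists_dat h him
    exact ⟨s, χ, cj, h1⟩
  · have h4 : ((-s : 𝓞 F) : F) = -(s : F) := map_neg _ _
    have h0 : 0 < (σ ((-s : 𝓞 F) : F)).im := by
      rw [h4, map_neg, Complex.neg_im, neg_pos]
      rcases NVAux.im_cases (σ := σ) h with h5 | h5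
      · exfalso
        apply him
        rw [h5]
        simp only [Complex.mul_im, Complex.I_re, Complex.I_im, Complex.ofReal_re,
          Complex.ofReal_im, zero_mul, one_mul, zero_add]
        exact Real.sqrt_pos.2 (by exact_mod_cast h.1.pos)
      · rw [h5]
        simp only [Complex.neg_im, Complex.mul_im, Complex.I_re, Complex.I_im, Complex.ofReal_re,
          Complex.ofReal_im, zero_mul, one_mul, zero_add]
        have := Real.sqrt_pos.2 (show (0 : ℝ) < q by exact_mod_cast h.1.pos)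
        linarith
    obtain ⟨χ, cj, h1⟩ := NVAux.exists_dat (NVAux.fieldC_neg h) h0
    exact ⟨-s, χ, cj, h1⟩

omit [NumberField F] in
theorem mk_eq {D : ℕ} (x y : 𝓞 F) : Ideal.Quotient.mk (Ideal.span {(D : 𝓞 F)}) x =
    Ideal.Quotient.mk (Ideal.span {(D : 𝓞 F)}) y ↔ (D : 𝓞 F) ∣ x - y := by
  rw [Ideal.Quotient.eq, Ideal.mem_span_singleton]

omit [NumberField F] in
theorem mk_zero {D : ℕ} (x : 𝓞 F) : Ideal.Quotient.mk (Ideal.span {(D : 𝓞 F)}) x = 0 ↔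
    (D : 𝓞 F) ∣ x := by
  rw [Ideal.Quotient.eq_zero_iff_mem, Ideal.mem_span_singleton]

omit [NumberField F] in
theorem cast_dvd {m n : ℕ} (h : m ∣ n) : (m : 𝓞 F) ∣ (n : 𝓞 F) := by
  obtain ⟨k, rfl⟩ := h
  exact ⟨k, by push_cast; ring⟩

omit [NumberField F] in
theorem dvd_R {D m : ℕ} (hm : m ∣ D) (z : 𝓞 F) :
    (m : 𝓞 F ⧸ Ideal.span {(D : 𝓞 F)}) ∣ Ideal.Quotient.mk (Ideal.span {(D : 𝓞 F)}) z ↔
      (m : 𝓞 F) ∣ z := by
  constructor
  · rintro ⟨t, ht⟩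
    obtain ⟨t', rfl⟩ := Ideal.Quotient.mk_surjective t
    have h1 : Ideal.Quotient.mk (Ideal.span {(D : 𝓞 F)}) z =
        Ideal.Quotient.mk (Ideal.span {(D : 𝓞 F)}) (m * t') := by
      rw [ht, map_mul, map_natCast]
    rw [mk_eq] at h1
    have h2 := dvd_add ((cast_dvd hm).trans h1) (dvd_mul_right (m : 𝓞 F) t')
    rwa [sub_add_cancel] at h2
  · rintro ⟨t, rfl⟩
    rw [map_mul, map_natCast]
    exact dvd_mul_right _ _

/-- the ideal is prime to `D` -/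
theorem cop {D m : ℕ} {c : Ideal (𝓞 F)} (hc : c ∈ idp (F := F) D) (hm : m ∣ D) {t : 𝓞 F}
    (ht : (m : 𝓞 F) * t ∈ c) : t ∈ c := by
  obtain ⟨i, hi, j, hj, hij⟩ := Ideal.isCoprime_iff_exists.1 hc.2
  obtain ⟨j', rfl⟩ := Ideal.mem_span_singleton.1 hj
  obtain ⟨m', rfl⟩ := hm
  have h1 : t = t * i + m' * j' * (m * t) := by
    push_cast at hij
    linear_combination (-t) * hij
  rw [h1]
  exact c.add_mem (c.mul_mem_left _ hi) (c.mul_mem_left _ ht)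

theorem sig_inj {x y : 𝓞 F} (h : σ (x : F) = σ (y : F)) : x = y :=
  RingOfIntegers.ext (σ.injective h)

theorem mem_iff {D m : ℕ} {c : Ideal (𝓞 F)} {L : PeriodPair} (hc : c ∈ idp (F := F) D)
    (hL : ∀ w : ℂ, w ∈ L.lattice ↔ ∃ x ∈ c, σ (x : F) = w) (hm : m ∣ D) (hm0 : m ≠ 0)
    {y : 𝓞 F} (hy : y ∈ c) : σ (y : F) / m ∈ L.lattice ↔ (m : 𝓞 F) ∣ y := by
  have h0 : (m : ℂ) ≠ 0 := by exact_mod_cast hm0
  have key : ∀ t : 𝓞 F, σ (((m : 𝓞 F) * t : 𝓞 F) : F) = m * σ (t : F) := by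
    intro t
    rw [RingOfIntegers.coe_eq_algebraMap, map_mul, map_mul, map_natCast, map_natCast]
  rw [hL]
  constructor
  · rintro ⟨x, -, hx⟩
    refine ⟨x, sig_inj (σ := σ) ?_⟩
    rw [key, hx]
    field_simp
  · rintro ⟨t, rfl⟩
    refine ⟨t, cop hc hm hy, ?_⟩
    rw [key]
    field_simp

theorem nz_neg (z : 𝓞 F) : nz (-z) = nz z := by
  rw [nz, nz, Ideal.span_singleton_neg]

end main

end FlipAux

open FlipAux in
/-- Module J5. -/
theorem stFlip (h1 : StXc) (h2 : StDis) (h3 : StFldT) (h4 : StRg) : StFlip := by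
  classical
  intro q F _ _ s σ A D ε r c hF hA hD hε hr hrD hc
  obtain ⟨s', χ, cj, hdat⟩ := exists_dat' (σ := σ) hF
  obtain ⟨x1, x2, x3, x4, -, x6⟩ := h1 q F _ _ s σ D hF hD c hc
  have hD0 : D ≠ 0 := hD.sqf.ne_zero
  have hr4 : r % 4 = 1 := hD.mod4 r hr hrD
  have hcD : (Ideal.absNorm c).Coprime D :=
    (((h4 F inferInstance inferInstance D hD0).2.2 c).1 hc).2
  have hc0 : Ideal.absNorm c ≠ 0 := by
    rw [Ne, Ideal.absNorm_eq_zero_iff]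
    exact hc.1
  obtain ⟨d, rfl⟩ := hrD
  have hd0 : d ≠ 0 := right_ne_zero_of_mul hD0
  have hr0 : r ≠ 0 := hr.ne_zero
  have hrd : r.Coprime d := Nat.coprime_of_squarefree_mul hD.sqf
  have hodd : Odd (r * d) := by
    rw [← Nat.not_even_iff_odd]
    intro h
    have := hD.mod4 2 Nat.prime_two h.two_dvd
    omega
  have hro : Odd r := Nat.odd_iff.2 (by omega)
  have hK : Ideal.span {((r * d : ℕ) : 𝓞 F)} ≠ ⊥ := by
    rw [Ne, Ideal.span_singleton_eq_bot]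
    exact_mod_cast hD0
  have hfin : Finite (𝓞 F ⧸ Ideal.span {((r * d : ℕ) : 𝓞 F)}) :=
    (Ideal.absNorm_ne_zero_iff _).1 (by rwa [Ne, Ideal.absNorm_eq_zero_iff])
  letI : Fintype (𝓞 F ⧸ Ideal.span {((r * d : ℕ) : 𝓞 F)}) := Fintype.ofFinite _
  -- the functions
  obtain ⟨g, hg⟩ : ∃ g : (𝓞 F ⧸ Ideal.span {((r * d : ℕ) : 𝓞 F)}) → ℂ,
      ∀ ρ, g ρ = xc (r * d) σ c (lf (r * d) c ρ) := ⟨_, fun _ => rfl⟩
  obtain ⟨w, hw⟩ : ∃ w : (𝓞 F ⧸ Ideal.span {((r * d : ℕ) : 𝓞 F)}) → ℤ,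
      ∀ ρ, w ρ = W (r * d) r ε (qz c (lf (r * d) c ρ)) := ⟨_, fun _ => rfl⟩
  have hpd : ∀ p ∈ (r * d).primeFactors.erase r, p ∣ d := by
    intro p hp
    have h5 := Nat.mem_primeFactors.1 (Finset.mem_of_mem_erase hp)
    have h6 : p ≠ r := Finset.ne_of_mem_erase hp
    exact (Nat.Coprime.dvd_mul_left ((Nat.coprime_primes h5.1 hr).2 h6)).1 h5.2.1
  have hwc : ∀ z ∈ c, ∀ z' ∈ c, (d : 𝓞 F) ∣ z - z' →
      W (r * d) r ε (qz c z) = W (r * d) r ε (qz c z') := by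
    intro z hz z' hz' h
    refine W_congr fun p hp => qz_congr hdat ?_ hz hz' ((cast_dvd (hpd p hp)).trans h)
    exact hcD.coprime_dvd_right ((hpd p hp).mul_left r)
  have hdD : (d : 𝓞 F) ∣ ((r * d : ℕ) : 𝓞 F) := cast_dvd (dvd_mul_left d r)
  have gmk : ∀ z ∈ c, g (Ideal.Quotient.mk _ z) = xc (r * d) σ c z := by
    intro z hz
    rw [hg]
    exact x3 _ (x2 _).1 _ hz ((mk_eq _ _).1 (x2 _).2)
  have wmk : ∀ z ∈ c, w (Ideal.Quotient.mk _ z) = W (r * d) r ε (qz c z) := by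
    intro z hz
    rw [hw]
    exact hwc _ (x2 _).1 _ hz (hdD.trans ((mk_eq _ _).1 (x2 _).2))
  have gadd : ∀ a b, g (a + b) = xc (r * d) σ c (lf (r * d) c a + lf (r * d) c b) := by
    intro a b
    rw [← gmk _ (c.add_mem (x2 a).1 (x2 b).1), map_add, (x2 a).2, (x2 b).2]
  have gmul : ∀ a, g ((r : 𝓞 F ⧸ Ideal.span {((r * d : ℕ) : 𝓞 F)}) * a) =
      xc (r * d) σ c (r * lf (r * d) c a) := by
    intro a
    rw [← gmk _ (c.mul_mem_left _ (x2 a).1), map_mul, map_natCast, (x2 a).2]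
  have gneg : ∀ a, g (-a) = g a := by
    intro a
    have e1 := gmk _ (c.neg_mem (x2 a).1)
    rw [map_neg, (x2 a).2, x4 _ (x2 a).1] at e1
    rw [e1, hg]
  have gmem : ∀ a, a ≠ 0 → g a ∈ A := by
    intro a ha
    rw [hg]
    refine x6 A hA _ (x2 a).1 fun h => ha ?_
    rw [← (x2 a).2]
    exact (mk_zero _).2 h
  have wadd : ∀ a b, (d : 𝓞 F ⧸ Ideal.span {((r * d : ℕ) : 𝓞 F)}) ∣ b → w (a + b) = w a := by
    intro a b hb
    have e1 := wmk _ (c.add_mem (x2 a).1 (x2 b).1)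
    rw [map_add, (x2 a).2, (x2 b).2] at e1
    rw [e1, hw a]
    refine hwc _ (c.add_mem (x2 a).1 (x2 b).1) _ (x2 a).1 ?_
    rw [add_sub_cancel_left, ← dvd_R (dvd_mul_left d r), (x2 b).2]
    exact hb
  have wmul : ∀ a, w ((r : 𝓞 F ⧸ Ideal.span {((r * d : ℕ) : 𝓞 F)}) * a) = w a := by
    intro a
    have e1 := wmk _ (c.mul_mem_left (r : 𝓞 F) (x2 a).1)
    rw [map_mul, map_natCast, (x2 a).2, qz_mul hdat hc0 r (x2 a).1, W_sq hr] at e1
    rw [e1, hw]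
  have wneg : ∀ a, w (-a) = w a := by
    intro a
    have e1 := wmk _ (c.neg_mem (x2 a).1)
    rw [map_neg, (x2 a).2, qz, nz_neg] at e1
    rw [e1, hw]
    rfl
  have hz0 : ((r * d : ℕ) : 𝓞 F) ∣ lf (r * d) c 0 := (mk_zero _).1 (x2 0).2
  have w0 : Odd (w 0) := by
    rw [hw]
    refine W_odd hD.mod4 fun p hp => ?_
    have h5 := Nat.mem_primeFactors.1 (Finset.mem_of_mem_erase hp)
    exact (dvd_qz hdat (hcD.coprime_dvd_right h5.2.1) h5.1 (hD.mod4 p h5.1 h5.2.1)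
      (hD.inert p h5.1 h5.2.1) (x2 0).1).2 ((cast_dvd h5.2.1).trans hz0)
  have rqz : ∀ ρ, (r : ℤ) ∣ qz c (lf (r * d) c ρ) ↔
      (r : 𝓞 F ⧸ Ideal.span {((r * d : ℕ) : 𝓞 F)}) ∣ ρ := by
    intro ρ
    rw [dvd_qz hdat (hcD.coprime_dvd_right (dvd_mul_right r d)) hr hr4
      (hD.inert r hr (dvd_mul_right r d)) (x2 ρ).1, ← dvd_R (dvd_mul_right r d), (x2 ρ).2]
  -- the ring
  have hrd0 : (r : 𝓞 F ⧸ Ideal.span {((r * d : ℕ) : 𝓞 F)}) * d = 0 := by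
    have e1 := (mk_zero (F := F) (D := r * d) ((r * d : ℕ) : 𝓞 F)).2 (dvd_refl _)
    rw [map_natCast] at e1
    rw [← e1]
    push_cast
    ring
  obtain ⟨u, v, huv⟩ : ∃ u v : 𝓞 F ⧸ Ideal.span {((r * d : ℕ) : 𝓞 F)},
      u * r + v * d = 1 := by
    obtain ⟨u, v, h⟩ := Nat.isCoprime_iff_coprime.2 hrd
    refine ⟨u, v, ?_⟩
    exact_mod_cast congrArg (Int.cast : ℤ → 𝓞 F ⧸ Ideal.span {((r * d : ℕ) : 𝓞 F)}) h
  have hne : ∀ a : 𝓞 F ⧸ Ideal.span {((r * d : ℕ) : 𝓞 F)}, a ≠ 0 → -a ≠ a := by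
    intro a ha h
    apply ha
    obtain ⟨k, hk⟩ := hodd
    have e1 : ((r * d : ℕ) : 𝓞 F ⧸ Ideal.span {((r * d : ℕ) : 𝓞 F)}) = 0 := by
      push_cast
      exact hrd0
    have e2 : ((2 * k + 1 : ℕ) : 𝓞 F ⧸ Ideal.span {((r * d : ℕ) : 𝓞 F)}) = 0 := by
      rw [← hk]
      exact e1
    push_cast at e2
    linear_combination a * e2 + k * h
  -- the lattice
  obtain ⟨P, -, -, hT⟩ := h3 q F inferInstance inferInstance s σ A hF hA
  have tw1 : TwA q 1 := ⟨squarefree_one, fun p hp h => absurd (Nat.dvd_one.1 h) hp.ne_one,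
    fun p hp h => absurd (Nat.dvd_one.1 h) hp.ne_one⟩
  have hc1 : c ∈ idp (F := F) 1 := by
    refine ⟨hc.1, ?_⟩
    rw [Nat.cast_one, Ideal.span_singleton_one, ← Ideal.one_eq_top]
    exact isCoprime_one_right
  obtain ⟨w₁, w₂, hB⟩ := (hT 1 tw1).1 c hc1
  have hOrd := ((hT 1 tw1).2.1 c hc1 w₁ w₂ hB).1
  obtain ⟨L, hL1, hL2⟩ : ∃ L : PeriodPair, L.ω₁ = w₁ ∧ L.ω₂ = w₂ :=
    ⟨Level.pp w₁ w₂ hB.1, rfl, rfl⟩
  have hL : ∀ z : ℂ, z ∈ L.lattice ↔ ∃ x ∈ c, σ (x : F) = z := by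
    intro z
    rw [PeriodPair.lattice, hL1, hL2]
    refine (hB.2 z).trans ?_
    constructor
    · rintro ⟨x, hx, h⟩
      exact ⟨x, hx.1, h⟩
    · rintro ⟨x, hx, h⟩
      exact ⟨x, ⟨hx, 0, by simp⟩, h⟩
  have hposL : Pos L.ω₁ L.ω₂ := by rw [hL1, hL2]; exact hB.1
  have hrC : (r : ℂ) ≠ 0 := by exact_mod_cast hr0
  have hDC : ((r * d : ℕ) : ℂ) ≠ 0 := by exact_mod_cast hD0
  have hposM : Pos (w₁ / r) (w₂ / r) := by
    have e1 := (pos_smul (w₁ := w₁) (w₂ := w₂) (inv_ne_zero hrC)).2 hB.1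
    rwa [inv_mul_eq_div, inv_mul_eq_div] at e1
  obtain ⟨M, hM1, hM2⟩ : ∃ M : PeriodPair, M.ω₁ = w₁ / r ∧ M.ω₂ = w₂ / r :=
    ⟨Level.pp (w₁ / r) (w₂ / r) hposM, rfl, rfl⟩
  have hM : ∀ z : ℂ, z ∈ M.lattice ↔ r * z ∈ L.lattice := by
    intro z
    rw [PeriodPair.mem_lattice, PeriodPair.mem_lattice, hM1, hM2, hL1, hL2]
    constructor
    · rintro ⟨m, n, rfl⟩
      exact ⟨m, n, by field_simp⟩
    · rintro ⟨m, n, h⟩
      refine ⟨m, n, ?_⟩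
      field_simp
      linear_combination h
  have hx1 := x1 L hposL hL
  have sadd : ∀ x y : 𝓞 F, σ ((x + y : 𝓞 F) : F) = σ (x : F) + σ (y : F) := by
    intro x y
    rw [RingOfIntegers.coe_eq_algebraMap, map_add, map_add]
  have ssub : ∀ x y : 𝓞 F, σ ((x - y : 𝓞 F) : F) = σ (x : F) - σ (y : F) := by
    intro x y
    rw [RingOfIntegers.coe_eq_algebraMap, map_sub, map_sub]
  have smul : ∀ (m : ℕ) (x : 𝓞 F), σ (((m : 𝓞 F) * x : 𝓞 F) : F) = m * σ (x : F) := by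
    intro m x
    rw [RingOfIntegers.coe_eq_algebraMap, map_mul, map_mul, map_natCast, map_natCast]
  have memD : ∀ y ∈ c, (σ (y : F) / ((r * d : ℕ) : ℂ) ∈ L.lattice ↔
      ((r * d : ℕ) : 𝓞 F) ∣ y) := fun y hy => mem_iff hc hL (dvd_refl _) hD0 hy
  obtain ⟨pt, hpt⟩ : ∃ pt : (𝓞 F ⧸ Ideal.span {((r * d : ℕ) : 𝓞 F)}) → ℂ,
      ∀ ρ, pt ρ = σ (lf (r * d) c ρ : F) / ((r * d : ℕ) : ℂ) := ⟨_, fun _ => rfl⟩
  have gpt : ∀ a, g a = xP L (pt a) := by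
    intro a
    rw [hg, hx1, hpt]
  have gpt2 : ∀ a b, g (a + b) = xP L (pt a + pt b) := by
    intro a b
    rw [gadd, hx1, hpt, hpt, sadd, add_div]
  have gpt3 : ∀ a, g ((r : 𝓞 F ⧸ Ideal.span {((r * d : ℕ) : 𝓞 F)}) * a) =
      xP L (r * pt a) := by
    intro a
    rw [gmul, hx1, hpt, smul, mul_div_assoc]
  have ptinj : ∀ a b, pt a - pt b ∈ L.lattice → a = b := by
    intro a b h
    rw [hpt, hpt, ← sub_div, ← ssub, memD _ (c.sub_mem (x2 a).1 (x2 b).1)] at h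
    rw [← (x2 a).2, ← (x2 b).2]
    exact (mk_eq _ _).2 h
  have ptr : ∀ a, (r : ℂ) * pt a ∈ L.lattice ↔
      (d : 𝓞 F ⧸ Ideal.span {((r * d : ℕ) : 𝓞 F)}) ∣ a := by
    intro a
    have e1 : (r : ℂ) * pt a = σ (lf (r * d) c a : F) / (d : ℂ) := by
      rw [hpt]
      have hdC : (d : ℂ) ≠ 0 := by exact_mod_cast hd0
      push_cast
      field_simp
    rw [e1, mem_iff hc hL (dvd_mul_left d r) hd0 (x2 a).1, ← dvd_R (dvd_mul_left d r),
      (x2 a).2]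
  have mem0 : ∀ a, pt a ∈ L.lattice → a = 0 := by
    intro a h
    rw [hpt, memD _ (x2 a).1] at h
    rw [← (x2 a).2]
    exact (mk_zero _).2 h
  have hinj : Set.InjOn pt (Finset.univ.filter
      (fun b : 𝓞 F ⧸ Ideal.span {((r * d : ℕ) : 𝓞 F)} => (d : 𝓞 F ⧸ Ideal.span {((r * d : ℕ) : 𝓞 F)}) ∣ b ∧ b ≠ 0) :
        Finset (𝓞 F ⧸ Ideal.span {((r * d : ℕ) : 𝓞 F)})) := by
    intro a _ b _ h
    apply ptinj
    rw [h, sub_self]
    exact L.lattice.zero_mem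
  have hRep : RepS L M ((Finset.univ.filter
      (fun b : 𝓞 F ⧸ Ideal.span {((r * d : ℕ) : 𝓞 F)} => (d : 𝓞 F ⧸ Ideal.span {((r * d : ℕ) : 𝓞 F)}) ∣ b ∧ b ≠ 0)).image pt) := by
    refine ⟨?_, ?_, ?_⟩
    · intro z hz
      rw [hM, ← nsmul_eq_mul]
      exact L.lattice.nsmul_mem hz r
    · intro Q hQ
      obtain ⟨b, hb, rfl⟩ := Finset.mem_image.1 hQ
      simp only [Finset.mem_filter, Finset.mem_univ, true_and] at hb
      exact ⟨(hM _).2 ((ptr b).2 hb.1), fun h => hb.2 (mem0 b h)⟩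
    · intro z hzM hzL
      obtain ⟨y, hy, hyz⟩ := (hL _).1 ((hM z).1 hzM)
      have hz : z = σ (((d : 𝓞 F) * y : 𝓞 F) : F) / ((r * d : ℕ) : ℂ) := by
        rw [smul, hyz]
        have hdC : (d : ℂ) ≠ 0 := by exact_mod_cast hd0
        push_cast
        field_simp
      have hdy : (d : 𝓞 F) * y ∈ c := c.mul_mem_left _ hy
      have e1 : ∀ b, b = Ideal.Quotient.mk (Ideal.span {((r * d : ℕ) : 𝓞 F)}) (d * y) →
          z - pt b ∈ L.lattice := by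
        intro b hb
        rw [hz, hpt, ← sub_div, ← ssub, memD _ (c.sub_mem hdy (x2 b).1), ← mk_eq, (x2 b).2, hb]
      refine ⟨pt (Ideal.Quotient.mk _ (d * y)), ⟨?_, e1 _ rfl⟩, ?_⟩
      · refine Finset.mem_image_of_mem _ ?_
        simp only [Finset.mem_filter, Finset.mem_univ, true_and]
        refine ⟨(dvd_R (dvd_mul_left d r) _).2 (dvd_mul_right _ _), fun h => hzL ?_⟩
        rw [hz, memD _ hdy]
        exact (mk_zero _).1 h
      · rintro Q' ⟨hQ', h⟩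
        obtain ⟨b, -, rfl⟩ := Finset.mem_image.1 hQ'
        congr 1
        apply ptinj
        have h5 := L.lattice.sub_mem (e1 _ rfl) h
        rwa [sub_sub_sub_cancel_left] at h5
  have hOrd' : Ord A L.ω₁ L.ω₂ := by rw [hL1, hL2]; exact hOrd
  obtain ⟨-, d2, d3⟩ := h2 A L M _ r hA hOrd' hro hRep hM
  rw [Finset.sum_image hinj] at d2
  have d3' : ∀ a : 𝓞 F ⧸ Ideal.span {((r * d : ℕ) : 𝓞 F)}, (r : 𝓞 F ⧸ Ideal.span {((r * d : ℕ) : 𝓞 F)}) ∣ a → a ≠ 0 →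
      ∑ b ∈ Finset.univ.filter
        (fun b : 𝓞 F ⧸ Ideal.span {((r * d : ℕ) : 𝓞 F)} => (d : 𝓞 F ⧸ Ideal.span {((r * d : ℕ) : 𝓞 F)}) ∣ b ∧ b ≠ 0), g (a + b) -
        (g ((r : 𝓞 F ⧸ Ideal.span {((r * d : ℕ) : 𝓞 F)}) * a) + g a) ∈ A.nonunits := by
    intro a ha ha0
    have e1 : ((r * d : ℕ) : ℂ) * pt a ∈ L.lattice := by
      rw [hL]
      refine ⟨_, (x2 a).1, ?_⟩
      rw [hpt]
      field_simp
    have e2 : (r : ℂ) * pt a ∉ L.lattice := by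
      rw [ptr]
      rintro ⟨t, ht⟩
      obtain ⟨t', ht'⟩ := ha
      apply ha0
      linear_combination (-a) * huv + u * r * ht + u * t * hrd0 + v * d * ht' + v * t' * hrd0
    have e3 := d3 (r * d) (pt a) hodd e1 e2
    rw [Finset.sum_image hinj] at e3
    have e4 : ∀ b, xP L (pt a + pt b) = g (a + b) := fun b => (gpt2 a b).symm
    simp only [e4] at e3
    rw [gpt3 a, gpt a]
    exact e3
  have d2' : 1 / 2 * ∑ b ∈ Finset.univ.filter
        (fun b : 𝓞 F ⧸ Ideal.span {((r * d : ℕ) : 𝓞 F)} => (d : 𝓞 F ⧸ Ideal.span {((r * d : ℕ) : 𝓞 F)}) ∣ b ∧ b ≠ 0), g b -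
        ((r : ℂ) ^ 2 - 1) / 8 ∈ A.nonunits := by
    simp only [gpt]
    exact d2
  -- the half sums
  have S1 : 1 / 2 * ∑ a ∈ Finset.univ.filter
        (fun a : 𝓞 F ⧸ Ideal.span {((r * d : ℕ) : 𝓞 F)} => (r : 𝓞 F ⧸ Ideal.span {((r * d : ℕ) : 𝓞 F)}) ∣ a ∧ a ≠ 0),
        (w a : ℂ) * g a ∈ A := by
    refine half_sum (fun z => z ∈ A) A.zero_mem (fun x y hx hy => A.add_mem _ _ hx hy) _ _ _ rfl
      fun x hx => ?_
    simp only [Finset.mem_filter, Finset.mem_univ, true_and] at hx ⊢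
    refine ⟨⟨(dvd_neg).2 hx.1, neg_ne_zero.2 hx.2⟩, hne x hx.2, ?_,
      A.mul_mem _ _ (int_mem _) (gmem x hx.2)⟩
    rw [wneg, gneg]
  have S2 : 1 / 2 * ∑ a ∈ Finset.univ.filter
        (fun a : 𝓞 F ⧸ Ideal.span {((r * d : ℕ) : 𝓞 F)} => (r : 𝓞 F ⧸ Ideal.span {((r * d : ℕ) : 𝓞 F)}) ∣ a ∧ a ≠ 0),
        (w a : ℂ) * (∑ b ∈ Finset.univ.filter
          (fun b : 𝓞 F ⧸ Ideal.span {((r * d : ℕ) : 𝓞 F)} => (d : 𝓞 F ⧸ Ideal.span {((r * d : ℕ) : 𝓞 F)}) ∣ b ∧ b ≠ 0), g (a + b) -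
        (g ((r : 𝓞 F ⧸ Ideal.span {((r * d : ℕ) : 𝓞 F)}) * a) + g a)) ∈ A.nonunits := by
    refine half_sum (fun z => z ∈ A.nonunits) zero_nonunits (fun x y hx hy => nonunits_add hx hy)
      _ _ _ rfl fun x hx => ?_
    simp only [Finset.mem_filter, Finset.mem_univ, true_and] at hx ⊢
    refine ⟨⟨(dvd_neg).2 hx.1, neg_ne_zero.2 hx.2⟩, hne x hx.2, ?_,
      nonunits_mul_left (int_mem _) (d3' x hx.1 hx.2)⟩
    have e1 : ∑ b ∈ Finset.univ.filter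
          (fun b : 𝓞 F ⧸ Ideal.span {((r * d : ℕ) : 𝓞 F)} => (d : 𝓞 F ⧸ Ideal.span {((r * d : ℕ) : 𝓞 F)}) ∣ b ∧ b ≠ 0), g (-x + b) =
        ∑ b ∈ Finset.univ.filter
          (fun b : 𝓞 F ⧸ Ideal.span {((r * d : ℕ) : 𝓞 F)} => (d : 𝓞 F ⧸ Ideal.span {((r * d : ℕ) : 𝓞 F)}) ∣ b ∧ b ≠ 0), g (x + b) := by
      refine Finset.sum_nbij' (fun b => -b) (fun b => -b) ?_ ?_ (fun b _ => neg_neg b)
        (fun b _ => neg_neg b) ?_
      · intro b hb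
        simp only [Finset.mem_filter, Finset.mem_univ, true_and] at hb ⊢
        exact ⟨(dvd_neg).2 hb.1, neg_ne_zero.2 hb.2⟩
      · intro b hb
        simp only [Finset.mem_filter, Finset.mem_univ, true_and] at hb ⊢
        exact ⟨(dvd_neg).2 hb.1, neg_ne_zero.2 hb.2⟩
      · intro b _
        change g (-x + b) = g (x + -b)
        rw [← gneg (x + -b)]
        congr 1
        ring
    rw [wneg, gneg, e1, mul_neg, gneg]
  -- the sums
  have hcast : ∀ ρ, ((wE (r * d) ε (qz c (lf (r * d) c ρ)) : ℤ) : ℂ) +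
      ((wE (r * d) (Function.update ε r (-ε r)) (qz c (lf (r * d) c ρ)) : ℤ) : ℂ) =
      (if (r : 𝓞 F ⧸ Ideal.span {((r * d : ℕ) : 𝓞 F)}) ∣ ρ then (r : ℂ) + 1 else 1) *
        (w ρ : ℂ) := by
    intro ρ
    have e1 := wE_add (ε := ε) hD0 hr hr4 (dvd_mul_right r d) hε (qz c (lf (r * d) c ρ))
    rw [← hw ρ] at e1
    have e2 := congrArg (Int.cast : ℤ → ℂ) e1
    rw [Int.cast_add, Int.cast_mul] at e2
    rw [e2]
    congr 1
    by_cases h : (r : 𝓞 F ⧸ Ideal.span {((r * d : ℕ) : 𝓞 F)}) ∣ ρ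
    · rw [if_pos h, if_pos ((rqz ρ).2 h)]
      push_cast
      ring
    · rw [if_neg h, if_neg (fun h' => h ((rqz ρ).1 h'))]
      norm_num
  have hTE : ∀ ε' : ℕ → ℤ, TE (r * d) σ ε' c = 1 / 2 *
      ∑ ρ : 𝓞 F ⧸ Ideal.span {((r * d : ℕ) : 𝓞 F)}, if ρ = 0 then 0 else
        ((wE (r * d) ε' (qz c (lf (r * d) c ρ)) : ℤ) : ℂ) * g ρ := by
    intro ε'
    rw [TE, finsum_eq_sum_of_fintype]
    congr 1
    refine Finset.sum_congr rfl fun ρ _ => ?_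
    rw [hg]
    rfl
  have key : TE (r * d) σ ε c + TE (r * d) σ (Function.update ε r (-ε r)) c =
      1 / 2 * (((r : ℂ) + 1) * ∑ a ∈ Finset.univ.filter
        (fun a : 𝓞 F ⧸ Ideal.span {((r * d : ℕ) : 𝓞 F)} => (r : 𝓞 F ⧸ Ideal.span {((r * d : ℕ) : 𝓞 F)}) ∣ a ∧ a ≠ 0),
        (w a : ℂ) * g a + ∑ a ∈ Finset.univ.filter
        (fun a : 𝓞 F ⧸ Ideal.span {((r * d : ℕ) : 𝓞 F)} => ¬ (r : 𝓞 F ⧸ Ideal.span {((r * d : ℕ) : 𝓞 F)}) ∣ a),
        (w a : ℂ) * g a) := by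
    rw [hTE, hTE, ← mul_add, ← Finset.sum_add_distrib]
    congr 1
    rw [← Finset.sum_filter_add_sum_filter_not Finset.univ
      (fun ρ : 𝓞 F ⧸ Ideal.span {((r * d : ℕ) : 𝓞 F)} => (r : 𝓞 F ⧸ Ideal.span {((r * d : ℕ) : 𝓞 F)}) ∣ ρ)]
    congr 1
    · rw [zero_sum, if_pos rfl, if_pos rfl, add_zero, zero_add, Finset.mul_sum]
      refine Finset.sum_congr rfl fun a ha => ?_
      simp only [Finset.mem_filter, Finset.mem_univ, true_and] at ha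
      rw [if_neg ha.2, if_neg ha.2, ← add_mul, hcast, if_pos ha.1]
      ring
    · refine Finset.sum_congr rfl fun a ha => ?_
      simp only [Finset.mem_filter, Finset.mem_univ, true_and] at ha
      have ha0 : a ≠ 0 := by
        rintro rfl
        exact ha (dvd_zero _)
      rw [if_neg ha0, if_neg ha0, ← add_mul, hcast, if_neg ha]
      ring
  have e2 : ∑ a ∈ Finset.univ.filter
        (fun a : 𝓞 F ⧸ Ideal.span {((r * d : ℕ) : 𝓞 F)} => ¬ (r : 𝓞 F ⧸ Ideal.span {((r * d : ℕ) : 𝓞 F)}) ∣ a),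
        (w a : ℂ) * g a = (w 0 : ℂ) * ∑ b ∈ Finset.univ.filter
          (fun b : 𝓞 F ⧸ Ideal.span {((r * d : ℕ) : 𝓞 F)} => (d : 𝓞 F ⧸ Ideal.span {((r * d : ℕ) : 𝓞 F)}) ∣ b ∧ b ≠ 0), g b +
        ∑ a ∈ Finset.univ.filter
        (fun a : 𝓞 F ⧸ Ideal.span {((r * d : ℕ) : 𝓞 F)} => (r : 𝓞 F ⧸ Ideal.span {((r * d : ℕ) : 𝓞 F)}) ∣ a ∧ a ≠ 0),
        (w a : ℂ) * ∑ b ∈ Finset.univ.filter
          (fun b : 𝓞 F ⧸ Ideal.span {((r * d : ℕ) : 𝓞 F)} => (d : 𝓞 F ⧸ Ideal.span {((r * d : ℕ) : 𝓞 F)}) ∣ b ∧ b ≠ 0),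
          g (a + b) := by
    rw [split_sum hrd0 huv, zero_sum]
    congr 1
    · rw [Finset.mul_sum]
      refine Finset.sum_congr rfl fun b hb => ?_
      simp only [Finset.mem_filter, Finset.mem_univ, true_and] at hb
      rw [wadd 0 b hb.1, zero_add]
    · refine Finset.sum_congr rfl fun a _ => ?_
      rw [Finset.mul_sum]
      refine Finset.sum_congr rfl fun b hb => ?_
      simp only [Finset.mem_filter, Finset.mem_univ, true_and] at hb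
      rw [wadd a b hb.1]
  have e3 : ∑ a ∈ Finset.univ.filter
        (fun a : 𝓞 F ⧸ Ideal.span {((r * d : ℕ) : 𝓞 F)} => (r : 𝓞 F ⧸ Ideal.span {((r * d : ℕ) : 𝓞 F)}) ∣ a ∧ a ≠ 0),
        (w a : ℂ) * g ((r : 𝓞 F ⧸ Ideal.span {((r * d : ℕ) : 𝓞 F)}) * a) = ∑ a ∈ Finset.univ.filter
        (fun a : 𝓞 F ⧸ Ideal.span {((r * d : ℕ) : 𝓞 F)} => (r : 𝓞 F ⧸ Ideal.span {((r * d : ℕ) : 𝓞 F)}) ∣ a ∧ a ≠ 0),
        (w a : ℂ) * g a := by
    rw [← perm_sum hrd0 huv (fun a => (w a : ℂ) * g a)]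
    refine Finset.sum_congr rfl fun a _ => ?_
    rw [wmul]
  obtain ⟨m, hm⟩ : ∃ m : ℤ, ((r : ℂ) ^ 2 - 1) / 8 = m := by
    obtain ⟨k, hk⟩ : ∃ k : ℕ, r = 4 * k + 1 := ⟨r / 4, by omega⟩
    refine ⟨2 * k ^ 2 + k, ?_⟩
    have hk' : (r : ℂ) = 4 * k + 1 := by
      rw [hk]
      push_cast
      ring
    rw [hk']
    push_cast
    ring
  have e4 : ∑ a ∈ Finset.univ.filter
        (fun a : 𝓞 F ⧸ Ideal.span {((r * d : ℕ) : 𝓞 F)} => (r : 𝓞 F ⧸ Ideal.span {((r * d : ℕ) : 𝓞 F)}) ∣ a ∧ a ≠ 0),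
        (w a : ℂ) * (∑ b ∈ Finset.univ.filter
          (fun b : 𝓞 F ⧸ Ideal.span {((r * d : ℕ) : 𝓞 F)} => (d : 𝓞 F ⧸ Ideal.span {((r * d : ℕ) : 𝓞 F)}) ∣ b ∧ b ≠ 0), g (a + b) -
        (g ((r : 𝓞 F ⧸ Ideal.span {((r * d : ℕ) : 𝓞 F)}) * a) + g a)) = ∑ a ∈ Finset.univ.filter
        (fun a : 𝓞 F ⧸ Ideal.span {((r * d : ℕ) : 𝓞 F)} => (r : 𝓞 F ⧸ Ideal.span {((r * d : ℕ) : 𝓞 F)}) ∣ a ∧ a ≠ 0),
        (w a : ℂ) * ∑ b ∈ Finset.univ.filter
          (fun b : 𝓞 F ⧸ Ideal.span {((r * d : ℕ) : 𝓞 F)} => (d : 𝓞 F ⧸ Ideal.span {((r * d : ℕ) : 𝓞 F)}) ∣ b ∧ b ≠ 0),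
          g (a + b) - 2 * ∑ a ∈ Finset.univ.filter
        (fun a : 𝓞 F ⧸ Ideal.span {((r * d : ℕ) : 𝓞 F)} => (r : 𝓞 F ⧸ Ideal.span {((r * d : ℕ) : 𝓞 F)}) ∣ a ∧ a ≠ 0),
        (w a : ℂ) * g a := by
    have e5 : ∀ a, (w a : ℂ) * (∑ b ∈ Finset.univ.filter
          (fun b : 𝓞 F ⧸ Ideal.span {((r * d : ℕ) : 𝓞 F)} => (d : 𝓞 F ⧸ Ideal.span {((r * d : ℕ) : 𝓞 F)}) ∣ b ∧ b ≠ 0), g (a + b) -
        (g ((r : 𝓞 F ⧸ Ideal.span {((r * d : ℕ) : 𝓞 F)}) * a) + g a)) = (w a : ℂ) * ∑ b ∈ Finset.univ.filter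
          (fun b : 𝓞 F ⧸ Ideal.span {((r * d : ℕ) : 𝓞 F)} => (d : 𝓞 F ⧸ Ideal.span {((r * d : ℕ) : 𝓞 F)}) ∣ b ∧ b ≠ 0),
          g (a + b) - (w a : ℂ) * g ((r : 𝓞 F ⧸ Ideal.span {((r * d : ℕ) : 𝓞 F)}) * a) - (w a : ℂ) * g a := by
      intro a
      ring
    simp only [e5]
    rw [Finset.sum_sub_distrib, Finset.sum_sub_distrib, e3]
    ring
  have hfin2 : TE (r * d) σ ε c + TE (r * d) σ (Function.update ε r (-ε r)) c -
      ((r : ℂ) ^ 2 - 1) / 8 =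
      (((r : ℤ) + 1 + 2 : ℤ) : ℂ) * (1 / 2 * ∑ a ∈ Finset.univ.filter
        (fun a : 𝓞 F ⧸ Ideal.span {((r * d : ℕ) : 𝓞 F)} => (r : 𝓞 F ⧸ Ideal.span {((r * d : ℕ) : 𝓞 F)}) ∣ a ∧ a ≠ 0),
        (w a : ℂ) * g a) +
      (w 0 : ℂ) * (1 / 2 * ∑ b ∈ Finset.univ.filter
        (fun b : 𝓞 F ⧸ Ideal.span {((r * d : ℕ) : 𝓞 F)} => (d : 𝓞 F ⧸ Ideal.span {((r * d : ℕ) : 𝓞 F)}) ∣ b ∧ b ≠ 0), g b -
        ((r : ℂ) ^ 2 - 1) / 8) + ((w 0 : ℂ) - 1) * m +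
      1 / 2 * ∑ a ∈ Finset.univ.filter
        (fun a : 𝓞 F ⧸ Ideal.span {((r * d : ℕ) : 𝓞 F)} => (r : 𝓞 F ⧸ Ideal.span {((r * d : ℕ) : 𝓞 F)}) ∣ a ∧ a ≠ 0),
        (w a : ℂ) * (∑ b ∈ Finset.univ.filter
          (fun b : 𝓞 F ⧸ Ideal.span {((r * d : ℕ) : 𝓞 F)} => (d : 𝓞 F ⧸ Ideal.span {((r * d : ℕ) : 𝓞 F)}) ∣ b ∧ b ≠ 0), g (a + b) -
        (g ((r : 𝓞 F ⧸ Ideal.span {((r * d : ℕ) : 𝓞 F)}) * a) + g a)) := by
    rw [key, e2, e4, hm]
    push_cast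
    ring
  rw [hfin2]
  refine nonunits_add (nonunits_add (nonunits_add (nonunits_mul_right ?_ S1)
    (nonunits_mul_left (int_mem _) d2')) (nonunits_mul_right (odd_sub_one hA w0) (int_mem _))) S2
  refine even_nonunits hA ?_
  obtain ⟨k, hk⟩ := hro
  exact ⟨k + 2, by rw [hk]; push_cast; ring⟩

end Pool.Agent.Lib.MP_7c08ba_nt.CN.TW
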