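import Pool.Agent.Lib.MP_7c08ba_nt.CN.T.StP
import Pool.Agent.Lib.MP_7c08ba_nt.RZ.C.Half
import Pool.Agent.Lib.MP_7c08ba_nt.RZ.C.Prod
import Pool.Agent.Lib.MP_7c08ba_nt.RZ.C.Super
import Pool.Agent.Lib.MP_7c08ba_nt.RZ.C.Link
import Pool.Agent.Lib.MP_7c08ba_nt.RZ.C.Level

set_option autoImplicit false

/-!
Module Frb: the canonical isogeny is the Frobenius modulo the maximal ideal.
-/

namespace Pool.Agent.Lib.MP_7c08ba_nt.CN.TW

open NumberField IsDedekindDomain Polynomial RZC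
open scoped nonZeroDivisors ComplexConjugate Real

noncomputable section

namespace FrbAux

open Level

theorem pSup : StSuper := stSuper stHalf

/-- the coordinate `x` in terms of `g₂`, `g₃` -/
theorem xP_eq (L : PeriodPair) (h : Pos L.ω₁ L.ω₂) (z : ℂ) :
    xP L z = -(L.weierstrassP z * L.g₂ / (18 * L.g₃)) - 1 / 12 := by
  have h4 := (stLink L h).1
  have h6 := (stLink L h).2
  have hp := pi_ne
  have h4' : e4 L.ω₁ L.ω₂ = 3 * L.g₂ / (4 * (π : ℂ) ^ 4) := by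
    rw [h4]
    field_simp
  have h6' : e6 L.ω₁ L.ω₂ = 27 * L.g₃ / (8 * (π : ℂ) ^ 6) := by
    rw [h6]
    field_simp
  unfold xP
  rw [h4', h6']
  by_cases h3 : L.g₃ = 0
  · rw [h3]
    simp
  · field_simp
    ring

theorem alg {e v x P g g₃ gM gM₃ PM : ℂ} (he : e ≠ 0) (h64 : v + 64 ≠ 0) (h256 : v + 256 ≠ 0)
    (h512 : v - 512 ≠ 0) (h8 : v - 8 ≠ 0) (hD : v + 4 * x * (v - 512) ≠ 0)
    (hg : g * (v + 64) = 3 * e ^ 2 * (v + 256)) (hg₃ : g₃ = 4 * e ^ 3 - g * e)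
    (hgM : gM = 60 * e ^ 2 - 4 * g) (hgM₃ : gM₃ = 88 * e ^ 3 - 8 * g * e)
    (hx : x = -(P * g / (18 * g₃)) - 1 / 12)
    (hPM : (PM - P) * (P - e) = 3 * e ^ 2 - g / 4) :
    (-(PM * gM / (18 * gM₃)) - 1 / 12) *
        ((v - 8) * (v + 256) * (v + 64) * (v + 4 * x * (v - 512))) =
      (v - 512) ^ 2 * (v + 16) * (v + 64) * x ^ 2 - 120 * v * (v - 512) * (v + 64) * x -
        2 * v * (v ^ 2 - 1312 * v - 32768) := by
  have hg' : g = 3 * e ^ 2 * (v + 256) / (v + 64) := by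
    field_simp
    linear_combination hg
  have hg₃' : g₃ = e ^ 3 * (v - 512) / (v + 64) := by
    rw [hg₃, hg']
    field_simp
    ring
  have hgM' : gM = 48 * e ^ 2 * (v + 16) / (v + 64) := by
    rw [hgM, hg']
    field_simp
    ring
  have hgM₃' : gM₃ = 64 * e ^ 3 * (v - 8) / (v + 64) := by
    rw [hgM₃, hg']
    field_simp
    ring
  have hP : P = -(e * (12 * x + 1) * (v - 512) / (2 * (v + 256))) := by
    rw [hg', hg₃'] at hx
    rw [hx]
    field_simp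
    ring
  have hPe : P - e = -(3 * e / 2 * (v + 4 * x * (v - 512)) / (v + 256)) := by
    rw [hP]
    field_simp
    ring
  have hPe0 : P - e ≠ 0 := by
    rw [hPe]
    exact neg_ne_zero.2 (div_ne_zero (mul_ne_zero (div_ne_zero (mul_ne_zero (by norm_num) he)
      (by norm_num)) hD) h256)
  have hPM' : PM = P + (3 * e ^ 2 - g / 4) / (P - e) := by
    have h : (3 * e ^ 2 - g / 4) / (P - e) = PM - P := by
      rw [div_eq_iff hPe0]
      exact hPM.symm
    linear_combination -h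
  obtain ⟨d, hd⟩ : ∃ d, d = v + 4 * x * (v - 512) := ⟨_, rfl⟩
  rw [← hd] at hD hPe ⊢
  rw [hPM', hPe, hP, hgM', hgM₃', hg']
  field_simp
  rw [hd]
  ring

end FrbAux

open FrbAux Level in
theorem stFrb : StFrb := by
  intro A L M hA hO h1 h2 hX hX' z hz hx
  have hpos : Pos L.ω₁ L.ω₂ := hO.1
  have hposM : Pos M.ω₁ M.ω₂ := by
    rw [h1, h2]
    exact hpos.half
  have hM : M = pp L.ω₁ (L.ω₂ / 2) hpos.half := by
    cases M
    subst h1 h2
    rfl
  have hL : L = pp L.ω₁ L.ω₂ hpos := rfl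
  set w : ℂ := L.ω₂ / 2 with hw
  have hlat : M.lattice = L.lattice ⊔ Submodule.span ℤ {w} := by
    rw [hM]
    exact lattice_half hpos
  have hwL : w ∉ L.lattice := half_not_mem hpos
  have h2w : 2 * w ∈ L.lattice := two_half hpos
  have hzL : z ∉ L.lattice := fun h => hz (by rw [hlat]; exact Submodule.mem_sup_left h)
  have hzw : z + w ∉ L.lattice := by
    intro h
    refine hz ?_
    have h3 : z + w ∈ M.lattice := by rw [hlat]; exact Submodule.mem_sup_left h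
    have h4 : w ∈ M.lattice := by
      rw [hlat]; exact Submodule.mem_sup_right (Submodule.mem_span_singleton_self _)
    simpa using M.lattice.sub_mem h3 h4
  obtain ⟨sg2, -, sP⟩ := pSup L M w hwL h2w hlat
  have pr := stProd L w hwL h2w z hzL hzw
  have hg₃ : L.g₃ = 4 * L.weierstrassP w ^ 3 - L.g₂ * L.weierstrassP w := g3_eq stHalf hpos
  have hgM₃ : M.g₃ = 88 * L.weierstrassP w ^ 3 - 8 * L.g₂ * L.weierstrassP w := by
    have := g3_half stHalf pSup hpos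
    rw [← hM] at this
    exact this
  obtain ⟨ha, hb⟩ := ab_ne stHalf stLink hpos
  have hXe : XX L.ω₁ L.ω₂ = 64 * aa L.ω₁ L.ω₂ hpos / bb L.ω₁ L.ω₂ hpos :=
    XX_eq stHalf pSup stLink hpos
  have haa : aa L.ω₁ L.ω₂ hpos = 12 * L.weierstrassP w ^ 2 - L.g₂ := rfl
  have hbb : bb L.ω₁ L.ω₂ hpos = L.g₂ - 3 * L.weierstrassP w ^ 2 := rfl
  rw [haa, hbb] at hXe
  rw [haa] at ha
  rw [hbb] at hb
  set e : ℂ := L.weierstrassP w with he
  set g : ℂ := L.g₂ with hg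
  set v : ℂ := XX L.ω₁ L.ω₂ with hv
  have hv0 : v ≠ 0 := by
    rw [hXe]
    exact div_ne_zero (mul_ne_zero (by norm_num) ha) hb
  -- units
  have hun : ∀ y ∈ A.nonunits, v + y ∈ A ∧ v + y ≠ 0 ∧ (v + y)⁻¹ ∈ A := by
    intro y hy
    have hvn : v ∉ A.nonunits := not_nonunits_of_inv_mem hv0 hX'
    have h3 : v + y ∉ A.nonunits := by
      intro h
      refine hvn ?_
      simpa using nonunits_sub h hy
    have h4 : v + y ∈ A := A.add_mem _ _ hX (nonunits_mem hy)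
    refine ⟨h4, ?_, inv_mem_of_not_nonunits h4 h3⟩
    intro h0
    rw [h0] at h3
    exact h3 zero_nonunits
  have hev : ∀ n : ℤ, Even n → (n : ℂ) ∈ A.nonunits := fun n hn => even_nonunits hA hn
  have u64 := hun 64 (by simpa using hev 64 (by decide))
  have u256 := hun 256 (by simpa using hev 256 (by decide))
  have u16 := hun 16 (by simpa using hev 16 (by decide))
  have u512 := hun (-512) (by simpa using hev (-512) (by decide))
  have u8 := hun (-8) (by simpa using hev (-8) (by decide))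
  rw [← sub_eq_add_neg] at u512 u8
  have uD := hun (4 * xP L z * (v - 512)) (by
    have h3 : (4 : ℂ) ∈ A.nonunits := by simpa using hev 4 (by decide)
    exact nonunits_mul_right (nonunits_mul_right h3 hx) u512.1)
  have hgv : g * (v + 64) = 3 * e ^ 2 * (v + 256) := by
    have h3 : v * (g - 3 * e ^ 2) = 64 * (12 * e ^ 2 - g) := by
      rw [hXe, div_mul_cancel₀ _ hb]
    linear_combination h3
  have he0 : e ≠ 0 := by
    intro h0
    rw [h0] at hgv hb
    have h3 : g = 0 := by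
      have h4 : g * (v + 64) = 0 := by rw [hgv]; ring
      exact (mul_eq_zero.mp h4).resolve_right u64.2.1
    rw [h3] at hb
    simp at hb
  have key := alg (x := xP L z) (P := L.weierstrassP z) (g₃ := L.g₃) (gM := M.g₂) (gM₃ := M.g₃)
    (PM := M.weierstrassP z) he0 u64.2.1 u256.2.1 u512.2.1 u8.2.1 uD.2.1 hgv hg₃
    (by rw [sg2]) hgM₃ (xP_eq L hpos z) (by
      rw [sP z hz]
      linear_combination pr)
  rw [← xP_eq M hposM z] at key
  set x : ℂ := xP L z with hxx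
  set D : ℂ := (v - 8) * (v + 256) * (v + 64) * (v + 4 * x * (v - 512)) with hD
  have hD0 : D ≠ 0 :=
    mul_ne_zero (mul_ne_zero (mul_ne_zero u8.2.1 u256.2.1) u64.2.1) uD.2.1
  have hDi : D⁻¹ ∈ A := by
    rw [hD, mul_inv, mul_inv, mul_inv]
    exact A.mul_mem _ _ (A.mul_mem _ _ (A.mul_mem _ _ u8.2.2 u256.2.2) u64.2.2) uD.2.2
  refine nonunits_of_mul_unit hDi hD0 ?_
  have hQ : D * (xP M z - x ^ 2) = 2 * (
      (((-2 : ℤ) : ℂ) * v ^ 4 * x ^ 3) + (((400 : ℤ) : ℂ) * v ^ 3 * x ^ 3) +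
      (((291840 : ℤ) : ℂ) * v ^ 2 * x ^ 3) + (((14417920 : ℤ) : ℂ) * v ^ 1 * x ^ 3) +
      (((-134217728 : ℤ) : ℂ) * v ^ 0 * x ^ 3) + (((-628 : ℤ) : ℂ) * v ^ 3 * x ^ 2) +
      (((83712 : ℤ) : ℂ) * v ^ 2 * x ^ 2) + (((10027008 : ℤ) : ℂ) * v ^ 1 * x ^ 2) +
      (((134217728 : ℤ) : ℂ) * v ^ 0 * x ^ 2) + (((-60 : ℤ) : ℂ) * v ^ 3 * x ^ 1) +
      (((26880 : ℤ) : ℂ) * v ^ 2 * x ^ 1) + (((1966080 : ℤ) : ℂ) * v ^ 1 * x ^ 1) +
      (((-1 : ℤ) : ℂ) * v ^ 3 * x ^ 0) + (((1312 : ℤ) : ℂ) * v ^ 2 * x ^ 0) +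
      (((32768 : ℤ) : ℂ) * v ^ 1 * x ^ 0)) := by
    push_cast
    linear_combination key
  rw [hQ]
  have ht : ∀ (c : ℤ) (i j : ℕ), (c : ℂ) * v ^ i * x ^ j ∈ A := fun c i j =>
    A.mul_mem _ _ (A.mul_mem _ _ (int_mem c) (pow_mem hX i)) (pow_mem hx j)
  refine nonunits_mul_right hA ?_
  repeat' first
    | exact ht _ _ _
    | refine A.add_mem _ _ ?_ ?_

end

end Pool.Agent.Lib.MP_7c08ba_nt.CN.TW
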