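import Pool.Agent.Lib.MP_7c08ba_nt.CN.T.Basic

set_option autoImplicit false

/-!
Project TW, statements of the modules on ring classes.  One module = one file `CN/T/<Name>.lean`
proving `theorem st<Name> : St<Name>`, with earlier statements as hypotheses.
-/

namespace Pool.Agent.Lib.MP_7c08ba_nt.CN.TW

open NumberField IsDedekindDomain Polynomial Pool.Agent.Lib.MP_7c08ba_nt.RZ
open scoped nonZeroDivisors ComplexConjugate

/-- (H1) the ring class group: finiteness, inverses, ideals prime to `D` -/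
def StRg : Prop :=
  ∀ (F : Type) (_ : Field F) (_ : NumberField F) (D : ℕ), D ≠ 0 →
    Finite (RC F D) ∧ (∀ A : RC F D, IsUnit A) ∧
    (∀ I : Ideal (𝓞 F), I ∈ idp (F := F) D ↔ I ≠ ⊥ ∧ (Ideal.absNorm I).Coprime D)

/-- (H2) the genus characters and the conjugation -/
def StGch : Prop :=
  ∀ (q : ℕ) (F : Type) (_ : Field F) (_ : NumberField F) (s : 𝓞 F) (σ : F →+* ℂ)
    (χ : DirichletCharacter ℂ q) (cj : 𝓞 F ≃+* 𝓞 F) (D : ℕ), Dat q s σ χ cj → TwA q D →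
    (∀ I ∈ idp (F := F) D, I.map (cj : 𝓞 F →+* 𝓞 F) ∈ idp (F := F) D ∧
      Ideal.absNorm (I.map (cj : 𝓞 F →+* 𝓞 F)) = Ideal.absNorm I ∧
      cl D (I * I.map (cj : 𝓞 F →+* 𝓞 F)) = 1) ∧
    (∀ I ∈ idp (F := F) D, ∀ J ∈ idp (F := F) D, cl D I = cl D J →
      (∀ r : ℕ, r.Prime → r ∣ D →
        jacobiSym (Ideal.absNorm I) r = jacobiSym (Ideal.absNorm J) r) ∧
      jacobiSym (Ideal.absNorm I) D = jacobiSym (Ideal.absNorm J) D ∧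
      ∃ w : 𝓞 F, Rat D w ∧ I * J.map (cj : 𝓞 F →+* 𝓞 F) = Ideal.span {w} ∧
        Ideal.span {(Ideal.absNorm J : 𝓞 F)} * I = Ideal.span {w} * J) ∧
    (∀ I ∈ idp (F := F) D,
      (∀ r : ℕ, r.Prime → r ∣ D →
        (jacobiSym (Ideal.absNorm I) r = 1 ∨ jacobiSym (Ideal.absNorm I) r = -1)) ∧
      (Gen D (cl D I) ↔ ∀ r : ℕ, r.Prime → r ∣ D → jacobiSym (Ideal.absNorm I) r = 1) ∧
      chr (cl D I) = jacobiSym (Ideal.absNorm I) D) ∧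
    (∀ x : 𝓞 F, x ≠ 0 → (∃ c : ℤ, IsCoprime c (D : ℤ) ∧ (D : 𝓞 F) ∣ x - c) →
      Ideal.span {x} ∈ idp (F := F) D ∧ cl D (Ideal.span {x}) = 1)

/-- The data of an ideal in the standard form: the basis `X = (α + D s) / 2`, `β` of the lattice
of the elements congruent to rational integers modulo `D`. -/
structure RP {F : Type} [Field F] [NumberField F] (q D : ℕ) (s : 𝓞 F) (a : Ideal (𝓞 F))
    (X : 𝓞 F) (α : ℤ) (β : ℕ) : Prop where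
  mem : a ∈ idp (F := F) D
  two : 2 * X = α + D * s
  dvd : (q * D ^ 2 : ℤ) ∣ α
  odd : Odd β
  cop : β.Coprime (q * D)
  norm : Ideal.absNorm a = β
  lat : ∀ x : 𝓞 F, x ∈ latD D a ↔ ∃ m n : ℤ, x = m * X + n * β

/-- (H3) representatives in the standard form with norm prime to a given number -/
def StRepT : Prop :=
  ∀ (q : ℕ) (F : Type) (_ : Field F) (_ : NumberField F) (s : 𝓞 F) (D : ℕ),
    RZC.FieldC q F (s : F) → TwA q D → ∀ (A : RC F D) (M : ℕ), 0 < M →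
    ∃ (a : Ideal (𝓞 F)) (X : 𝓞 F) (α : ℤ) (β : ℕ), RP q D s a X α β ∧ cl D a = A ∧
      β.Coprime M

/-- (H4) the ring class group and the class group -/
def StFib : Prop :=
  ∀ (q : ℕ) (F : Type) (_ : Field F) (_ : NumberField F) (s : 𝓞 F) (σ : F →+* ℂ)
    (χ : DirichletCharacter ℂ q) (cj : 𝓞 F ≃+* 𝓞 F) (D : ℕ), Dat q s σ χ cj → TwA q D →
    ∀ (c : ClassGroup (𝓞 F) → (Ideal (𝓞 F))⁰)
    (L : (𝓞 F ⧸ Ideal.span {(D : 𝓞 F)})ˣ → 𝓞 F) (g : RC F D → ℂ),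
    (∀ C, ClassGroup.mk0 (c C) = C) → (∀ C, (c C : Ideal (𝓞 F)) ∈ idp (F := F) D) →
    (∀ y, L y ≠ 0 ∧ Ideal.Quotient.mk (Ideal.span {(D : 𝓞 F)}) (L y) = y) →
    Finite (𝓞 F ⧸ Ideal.span {(D : 𝓞 F)}) ∧
    (∀ y C, Ideal.span {L y} * (c C : Ideal (𝓞 F)) ∈ idp (F := F) D) ∧
    ∑ C : ClassGroup (𝓞 F), ∑ᶠ y : (𝓞 F ⧸ Ideal.span {(D : 𝓞 F)})ˣ,
        g (cl D (Ideal.span {L y} * (c C : Ideal (𝓞 F)))) =
      (Nat.totient D : ℂ) * ∑ᶠ B : RC F D, g B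

open Classical in
/-- (H5) sums over the units modulo `D` which map a given element to the rational integers -/
def StCntY : Prop :=
  ∀ (q : ℕ) (F : Type) (_ : Field F) (_ : NumberField F) (s : 𝓞 F) (σ : F →+* ℂ)
    (χ : DirichletCharacter ℂ q) (cj : 𝓞 F ≃+* 𝓞 F) (D : ℕ), Dat q s σ χ cj → TwA q D →
    ∀ (c : Ideal (𝓞 F)) (x : 𝓞 F) (L : (𝓞 F ⧸ Ideal.span {(D : 𝓞 F)})ˣ → 𝓞 F)
    (h : ℕ → ℤ → ℂ), c ∈ idp (F := F) D → x ∈ c →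
    (∀ y, L y ≠ 0 ∧ Ideal.Quotient.mk (Ideal.span {(D : 𝓞 F)}) (L y) = y) →
    ∑ᶠ y : (𝓞 F ⧸ Ideal.span {(D : 𝓞 F)})ˣ,
        (if ∃ k : ℤ, (D : 𝓞 F) ∣ L y * x - k then ∏ r ∈ D.primeFactors,
          h r (jacobiSym (Ideal.absNorm (Ideal.span {L y} * c)) r) else 0) =
      ∏ r ∈ D.primeFactors, (((r : ℂ) - 1) *
        (if (r : ℤ) ∣ (Ideal.absNorm (Ideal.span {x}) : ℤ) / Ideal.absNorm c then
          ((r : ℂ) + 1) / 2 * (h r 1 + h r (-1))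
        else h r (jacobiSym ((Ideal.absNorm (Ideal.span {x}) : ℤ) / Ideal.absNorm c) r)))

open Classical in
/-- (H6) the number of units congruent to `1` modulo `D / r` which map a given element to the
rational integers -/
def StCntK : Prop :=
  ∀ (q : ℕ) (F : Type) (_ : Field F) (_ : NumberField F) (s : 𝓞 F) (σ : F →+* ℂ)
    (χ : DirichletCharacter ℂ q) (cj : 𝓞 F ≃+* 𝓞 F) (D : ℕ), Dat q s σ χ cj → TwA q D →
    ∀ (r : ℕ) (x : 𝓞 F) (L : (𝓞 F ⧸ Ideal.span {(D : 𝓞 F)})ˣ → 𝓞 F), r.Prime → r ∣ D →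
    (∀ y, L y ≠ 0 ∧ Ideal.Quotient.mk (Ideal.span {(D : 𝓞 F)}) (L y) = y) →
    ((Nat.card {y : (𝓞 F ⧸ Ideal.span {(D : 𝓞 F)})ˣ // ((D / r : ℕ) : 𝓞 F) ∣ L y - 1 ∧
        ∃ k : ℤ, (D : 𝓞 F) ∣ L y * x - k} : ℕ) : ℂ) =
      if ∃ k : ℤ, ((D / r : ℕ) : 𝓞 F) ∣ x - k then
        (if (r : 𝓞 F) ∣ x then (r : ℂ) ^ 2 - 1 else (r : ℂ) - 1) else 0

/-- (H7) the principal genus has no element of order 2 -/
def StTor : Prop :=
  ∀ (q : ℕ) (F : Type) (_ : Field F) (_ : NumberField F) (s : 𝓞 F) (σ : F →+* ℂ)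
    (χ : DirichletCharacter ℂ q) (cj : 𝓞 F ≃+* 𝓞 F) (D : ℕ), Dat q s σ χ cj → TwA q D →
    (∀ A : RC F D, Gen D A → A * A = 1 → A = 1) ∧
    (∀ A B : RC F D, Gen D A → Gen D B → Gen D (A * B)) ∧
    (∀ A : RC F D, Gen D A → ∃ B : RC F D, Gen D B ∧ B * B = A) ∧
    Odd (Nat.card (GC F D))

/-- (H8) the classes of the ideals attached to pairs -/
def StBijT : Prop :=
  ∀ (q : ℕ) (F : Type) (_ : Field F) (_ : NumberField F) (s : 𝓞 F) (σ : F →+* ℂ)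
    (χ : DirichletCharacter ℂ q) (cj : 𝓞 F ≃+* 𝓞 F) (D : ℕ), Dat q s σ χ cj → TwA q D →
    ∀ (Q : Ideal (𝓞 F)) (I J : GC F D → Ideal (𝓞 F)), Q ∈ idp (F := F) D → Gen D (cl D Q) →
    (∀ A, I A ∈ idp (F := F) D ∧ cl D (I A) = A.1) →
    (∀ A, J A ∈ idp (F := F) D ∧ cl D (J A) = A.1) →
    ∃ e : GC F D × GC F D ≃ GC F D × GC F D, ∀ p : GC F D × GC F D,
      (e p).1.1 = cl D (I p.1 * (J p.2).map (cj : 𝓞 F →+* 𝓞 F)) ∧
      (e p).2.1 = cl D ((Q * I p.1 * J p.2).map (cj : 𝓞 F →+* 𝓞 F))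

end Pool.Agent.Lib.MP_7c08ba_nt.CN.TW
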