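import Mathlib
import Pool.Agent.Lib.MP_7c08ba_nt.CN.T.StH
import Pool.Agent.Lib.MP_7c08ba_nt.RZ.Bas

set_option autoImplicit false

/-!
Project TW, (H2): the genus characters and the conjugation on the ring class group.
-/

namespace Pool.Agent.Lib.MP_7c08ba_nt.CN.TW

open NumberField IsDedekindDomain Polynomial Pool.Agent.Lib.MP_7c08ba_nt.RZ
open scoped nonZeroDivisors ComplexConjugate

namespace GchAux

variable {q : ℕ} {F : Type} [Field F] [NumberField F] {s : 𝓞 F} {σ : F →+* ℂ}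
  {χ : DirichletCharacter ℂ q} {cj : 𝓞 F ≃+* 𝓞 F} {D : ℕ}

theorem mul_cj (hd : Dat q s σ χ cj) (x : 𝓞 F) :
    x * cj x = (Ideal.absNorm (Ideal.span {x}) : 𝓞 F) := by
  obtain ⟨-, -, -, -, hN, -⟩ := RZ.stBas q F inferInstance inferInstance s σ χ cj hd
  exact hN x

theorem mul_map (hd : Dat q s σ χ cj) (a : Ideal (𝓞 F)) :
    a * a.map (cj : 𝓞 F →+* 𝓞 F) = Ideal.span {(Ideal.absNorm a : 𝓞 F)} := by
  obtain ⟨-, -, -, -, -, -, hI, -⟩ := RZ.stBas q F inferInstance inferInstance s σ χ cj hd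
  exact hI a

theorem dvd_int (hd : Dat q s σ χ cj) {n : ℤ} (h : (D : 𝓞 F) ∣ (n : 𝓞 F)) : (D : ℤ) ∣ n := by
  obtain ⟨u, hu⟩ := h
  have h1 : ((n ^ 2 : ℤ) : 𝓞 F) =
      (((D : ℤ) ^ 2 * (Ideal.absNorm (Ideal.span {u}) : ℤ) : ℤ) : 𝓞 F) := by
    have h2 : (n : 𝓞 F) * cj (n : 𝓞 F) = (n : 𝓞 F) ^ 2 := by
      rw [map_intCast]; ring
    push_cast
    rw [← mul_cj hd u, ← h2, hu, map_mul, map_natCast]
    ring
  have h3 : n ^ 2 = (D : ℤ) ^ 2 * (Ideal.absNorm (Ideal.span {u}) : ℤ) := by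
    exact_mod_cast h1
  have h4 : (D : ℤ) ^ 2 ∣ n ^ 2 := ⟨_, h3⟩
  exact (Int.pow_dvd_pow_iff two_ne_zero).1 h4

theorem rat_norm (hd : Dat q s σ χ cj) {x : 𝓞 F} (hx : Rat D x) :
    ∃ c : ℤ, IsCoprime c (D : ℤ) ∧
      (D : ℤ) ∣ (Ideal.absNorm (Ideal.span {x}) : ℤ) - c ^ 2 := by
  obtain ⟨-, c, hc, u, hu⟩ := hx
  refine ⟨c, hc, dvd_int hd ?_⟩
  have h1 : cj x - c = D * cj u := by
    have := congrArg cj hu
    rw [map_sub, map_intCast, map_mul, map_natCast] at this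
    exact this
  refine ⟨u * cj x + c * cj u, ?_⟩
  push_cast
  rw [← mul_cj hd x]
  linear_combination cj x * hu + (c : 𝓞 F) * h1

theorem jac_rat (hd : Dat q s σ χ cj) {x : 𝓞 F} (hx : Rat D x) {m : ℕ} (hm : m ∣ D) :
    jacobiSym (Ideal.absNorm (Ideal.span {x})) m = 1 := by
  obtain ⟨c, hc, h⟩ := rat_norm hd hx
  have hm' : (m : ℤ) ∣ (D : ℤ) := by exact_mod_cast hm
  have h1 : (m : ℤ) ∣ (Ideal.absNorm (Ideal.span {x}) : ℤ) - c ^ 2 := hm'.trans h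
  have h2 : (Ideal.absNorm (Ideal.span {x}) : ℤ) % (m : ℤ) = c ^ 2 % (m : ℤ) :=
    Int.ModEq.symm ((Int.modEq_iff_dvd).2 h1)
  rw [jacobiSym.mod_left' h2]
  apply jacobiSym.sq_one'
  rw [← Int.isCoprime_iff_gcd_eq_one]
  exact IsCoprime.of_isCoprime_of_dvd_right hc hm'

theorem idp_span {x : 𝓞 F} (hx : Rat D x) : Ideal.span {x} ∈ idp (F := F) D := by
  obtain ⟨h0, c, ⟨e, f, hef⟩, u, hu⟩ := hx
  refine ⟨by simpa using h0, ?_⟩
  rw [Ideal.isCoprime_span_singleton_iff]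
  refine ⟨e, f - e * u, ?_⟩
  have h1 : (e : 𝓞 F) * c + f * D = 1 := by exact_mod_cast congrArg (fun z : ℤ => (z : 𝓞 F)) hef
  linear_combination h1 + (e : 𝓞 F) * hu

theorem cl_span {x : 𝓞 F} (hx : Rat D x) : cl D (Ideal.span {x}) = 1 := by
  rw [← cl_one (F := F) (D := D), cl_eq_iff (idp_span hx) (idp D).one_mem]
  exact ⟨1, x, Rat.one D, hx, by simp⟩

theorem norm_ne {I : Ideal (𝓞 F)} (h : I ≠ ⊥) : Ideal.absNorm I ≠ 0 := by
  rwa [Ne, Ideal.absNorm_eq_zero_iff]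

theorem norm_map (hd : Dat q s σ χ cj) {I : Ideal (𝓞 F)} (h : I ≠ ⊥) :
    Ideal.absNorm (I.map (cj : 𝓞 F →+* 𝓞 F)) = Ideal.absNorm I := by
  have h1 := congrArg Ideal.absNorm (mul_map hd I)
  have h2 : Ideal.absNorm (Ideal.span {((Ideal.absNorm I : ℕ) : 𝓞 F)}) =
      Ideal.absNorm I * Ideal.absNorm I := by
    have := mul_cj hd ((Ideal.absNorm I : ℕ) : 𝓞 F)
    rw [map_natCast] at this
    exact_mod_cast this.symm
  rw [map_mul, h2] at h1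
  exact Nat.eq_of_mul_eq_mul_left (Nat.pos_of_ne_zero (norm_ne h)) h1

theorem main (hd : Dat q s σ χ cj) (hg : ∀ I : Ideal (𝓞 F), I ∈ idp (F := F) D ↔
      I ≠ ⊥ ∧ (Ideal.absNorm I).Coprime D)
    {I J : Ideal (𝓞 F)} (hI : I ∈ idp (F := F) D) (hJ : J ∈ idp (F := F) D)
    (h : cl D I = cl D J) :
    (∀ m : ℕ, m ∣ D → jacobiSym (Ideal.absNorm I) m = jacobiSym (Ideal.absNorm J) m) ∧
      ∃ w : 𝓞 F, Rat D w ∧ I * J.map (cj : 𝓞 F →+* 𝓞 F) = Ideal.span {w} ∧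
        Ideal.span {(Ideal.absNorm J : 𝓞 F)} * I = Ideal.span {w} * J := by
  obtain ⟨x, y, hx, hy, hxy⟩ := (cl_eq_iff hI hJ).1 h
  refine ⟨fun m hm => ?_, ?_⟩
  · have h1 := congrArg Ideal.absNorm hxy
    rw [map_mul, map_mul] at h1
    have h2 : ((Ideal.absNorm (Ideal.span {x}) : ℕ) : ℤ) * (Ideal.absNorm I : ℕ) =
        ((Ideal.absNorm (Ideal.span {y}) : ℕ) : ℤ) * (Ideal.absNorm J : ℕ) := by
      exact_mod_cast h1
    have h3 := congrArg (fun z : ℤ => jacobiSym z m) h2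
    simp only [jacobiSym.mul_left] at h3
    rwa [jac_rat hd hx hm, jac_rat hd hy hm, one_mul, one_mul] at h3
  · obtain ⟨hJ0, hJc⟩ := (hg J).1 hJ
    have h1 : Ideal.span {x} * (I * J.map (cj : 𝓞 F →+* 𝓞 F)) =
        Ideal.span {y * (Ideal.absNorm J : 𝓞 F)} := by
      rw [← mul_assoc, hxy, mul_assoc, mul_map hd J, Ideal.span_singleton_mul_span_singleton]
    have hle : Ideal.span {x} * (I * J.map (cj : 𝓞 F →+* 𝓞 F)) ≤ Ideal.span {x} :=
      Ideal.mul_le_left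
    have h2 : y * (Ideal.absNorm J : 𝓞 F) ∈ Ideal.span {x} := by
      rw [h1] at hle
      exact hle (Ideal.mem_span_singleton_self _)
    obtain ⟨w, hw⟩ := Ideal.mem_span_singleton.1 h2
    have hx0 : (Ideal.span {x} : Ideal (𝓞 F)) ≠ 0 := by
      simpa using hx.1
    have h3 : I * J.map (cj : 𝓞 F →+* 𝓞 F) = Ideal.span {w} := by
      apply mul_left_cancel₀ hx0
      rw [h1, hw, Ideal.span_singleton_mul_span_singleton]
    have hNJ : ((Ideal.absNorm J : ℕ) : 𝓞 F) ≠ 0 := by exact_mod_cast norm_ne hJ0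
    have hw0 : w ≠ 0 := by
      rintro rfl
      rw [mul_zero] at hw
      exact mul_ne_zero hy.1 hNJ hw
    obtain ⟨-, c, ⟨e, f, hef⟩, u, hu⟩ := hx
    obtain ⟨-, d, hdc, v, hv⟩ := hy
    have he : IsCoprime e (D : ℤ) := ⟨c, f, by rw [mul_comm]; exact hef⟩
    have hN : IsCoprime ((Ideal.absNorm J : ℕ) : ℤ) (D : ℤ) := Nat.isCoprime_iff_coprime.2 hJc
    refine ⟨w, ⟨hw0, e * (d * ((Ideal.absNorm J : ℕ) : ℤ)), ?_, ?_⟩, h3, ?_⟩
    · exact IsCoprime.mul_left he (hdc.mul_left hN)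
    · have h4 : (e : 𝓞 F) * c + f * D = 1 := by
        exact_mod_cast congrArg (fun z : ℤ => (z : 𝓞 F)) hef
      refine ⟨f * w - e * u * w + e * v * (Ideal.absNorm J : ℕ), ?_⟩
      push_cast
      linear_combination -w * h4 - (e : 𝓞 F) * w * hu + (e : 𝓞 F) * (Ideal.absNorm J : ℕ) * hv
        - (e : 𝓞 F) * hw
    · rw [← h3, ← mul_map hd J]
      ac_rfl

end GchAux

open GchAux

theorem stGch (h : StRg) : StGch := by
  intro q F iF iN s σ χ cj D hd hD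
  obtain ⟨-, -, hg⟩ := h F iF iN D hD.sqf.ne_zero
  refine ⟨?_, ?_, ?_, ?_⟩
  · intro I hI
    obtain ⟨h0, hc⟩ := (hg I).1 hI
    have h1 := norm_map hd h0
    refine ⟨(hg _).2 ⟨?_, by rwa [h1]⟩, h1, ?_⟩
    · intro h2
      rw [h2] at h1
      exact norm_ne h0 (by simpa using h1.symm)
    · rw [mul_map hd I]
      have h2 : Rat D (((Ideal.absNorm I : ℕ) : ℤ) : 𝓞 F) :=
        rat_int (by exact_mod_cast norm_ne h0) (Nat.isCoprime_iff_coprime.2 hc)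
      rw [Int.cast_natCast] at h2
      exact cl_span h2
  · intro I hI J hJ hIJ
    obtain ⟨h1, h2⟩ := main hd hg hI hJ hIJ
    exact ⟨fun r _ hr => h1 r hr, h1 D dvd_rfl, h2⟩
  · intro I hI
    refine ⟨?_, ?_, ?_⟩
    · intro r hr hrD
      apply jacobiSym.eq_one_or_neg_one
      have : (Ideal.absNorm I).Coprime r := Nat.Coprime.coprime_dvd_right hrD ((hg I).1 hI).2
      simpa using this
    · constructor
      · rintro ⟨J, hJ, hJI, hr⟩ r hr1 hr2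
        rw [← (main hd hg hJ hI hJI).1 r hr2]
        exact hr r hr1 hr2
      · intro hr
        exact ⟨I, hI, rfl, hr⟩
    · exact (main hd hg (rp_mem _) hI (cl_rp _)).1 D dvd_rfl
  · intro x hx hc
    exact ⟨idp_span ⟨hx, hc⟩, cl_span ⟨hx, hc⟩⟩

end Pool.Agent.Lib.MP_7c08ba_nt.CN.TW
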