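import Pool.Agent.Lib.MP_7c08ba_nt.CN.T.StTh
import Pool.Agent.Lib.MP_7c08ba_nt.RZ.Bas
import Pool.Agent.Lib.MP_7c08ba_nt.RZ.Base
import Pool.Agent.Lib.MP_7c08ba_nt.RZ.ThB

set_option autoImplicit false

/-!
Project TW, module GenE: the sum of the theta series over the principal genus.
-/

namespace Pool.Agent.Lib.MP_7c08ba_nt.CN.TW

open NumberField IsDedekindDomain Polynomial Pool.Agent.Lib.MP_7c08ba_nt.RZ
open scoped nonZeroDivisors ComplexConjugate MatrixGroups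

namespace GenEAux

/-- The terms of the theta series. -/
noncomputable def ft (n : ℕ) (u : ℂ) (N : ℕ) : ℂ :=
  lag n (4 * Real.pi * (N : ℂ) * u.im) * ee ((N : ℂ) * u)

theorem ft_bd (n : ℕ) (u : ℂ) (hu : 0 < u.im) (N : ℕ) (w : ℝ) (hw : 0 ≤ w)
    (hN : (N : ℝ) ≤ w ^ 2) :
    ‖ft n u N‖ ≤ 2 ^ n * (1 + 4 * Real.pi * u.im) ^ n *
      ((1 + w) ^ (2 * n) * Real.exp (-(2 * Real.pi * u.im * N))) := by
  have hπ := Real.pi_pos
  have h0 : (0 : ℝ) ≤ 4 * Real.pi * N * u.im := by positivity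
  have h1 : ‖lag n (4 * Real.pi * (N : ℂ) * u.im)‖ ≤ 2 ^ n * (1 + 4 * Real.pi * N * u.im) ^ n := by
    have h := ThBAux.lag_bd n (4 * Real.pi * N * u.im) h0
    push_cast at h
    exact h
  have h2 : ‖ee ((N : ℂ) * u)‖ = Real.exp (-(2 * Real.pi * u.im * N)) := by
    have h := ThBAux.norm_ee (N : ℝ) u
    rw [Complex.ofReal_natCast] at h
    rw [h]
    congr 1
    ring
  have h3 : 1 + 4 * Real.pi * N * u.im ≤ (1 + 4 * Real.pi * u.im) * (1 + w) ^ 2 := by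
    have h4 : 4 * Real.pi * N * u.im ≤ 4 * Real.pi * u.im * w ^ 2 := by
      have : 4 * Real.pi * u.im * N ≤ 4 * Real.pi * u.im * w ^ 2 :=
        mul_le_mul_of_nonneg_left hN (by positivity)
      linarith
    have h5 : 0 < 4 * Real.pi * u.im := by positivity
    have h6 : 0 ≤ 4 * Real.pi * u.im * w := by positivity
    nlinarith [sq_nonneg w]
  have h4 : (1 + 4 * Real.pi * N * u.im) ^ n ≤
      (1 + 4 * Real.pi * u.im) ^ n * (1 + w) ^ (2 * n) := by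
    rw [pow_mul, ← mul_pow]
    exact pow_le_pow_left₀ (by linarith) h3 n
  unfold ft
  rw [norm_mul, h2]
  calc ‖lag n (4 * Real.pi * (N : ℂ) * u.im)‖ * Real.exp (-(2 * Real.pi * u.im * N)) ≤
        (2 ^ n * ((1 + 4 * Real.pi * u.im) ^ n * (1 + w) ^ (2 * n))) *
          Real.exp (-(2 * Real.pi * u.im * N)) := by
        refine mul_le_mul_of_nonneg_right (h1.trans ?_) (Real.exp_pos _).le
        exact mul_le_mul_of_nonneg_left h4 (by positivity)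
    _ = _ := by ring

section

variable {F : Type} [Field F] [NumberField F]

/-- The norm form. -/
noncomputable def nq (b : Ideal (𝓞 F)) (x : 𝓞 F) : ℕ :=
  Ideal.absNorm (Ideal.span {x}) / Ideal.absNorm b

theorem nq_eq (σ : F →+* ℂ)
    (hn : ∀ x : 𝓞 F, Complex.normSq (σ x) = (Ideal.absNorm (Ideal.span {x}) : ℝ))
    (b : Ideal (𝓞 F)) (hb : b ≠ ⊥) (x : 𝓞 F) (hx : x ∈ b) : (nq b x : ℝ) = Qa σ b x := by
  have h1 : Ideal.absNorm b ∣ Ideal.absNorm (Ideal.span {x}) :=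
    Ideal.absNorm_dvd_absNorm_of_le ((Ideal.span_singleton_le_iff_mem b).2 hx)
  have h2 : (Ideal.absNorm b : ℝ) ≠ 0 := by
    intro h
    exact hb (Ideal.absNorm_eq_zero_iff.1 (by exact_mod_cast h))
  unfold nq Qa
  rw [Nat.cast_div h1 h2, hn]

theorem nq_eqC (σ : F →+* ℂ)
    (hn : ∀ x : 𝓞 F, Complex.normSq (σ x) = (Ideal.absNorm (Ideal.span {x}) : ℝ))
    (b : Ideal (𝓞 F)) (hb : b ≠ ⊥) (x : 𝓞 F) (hx : x ∈ b) :
    ((Qa σ b x : ℝ) : ℂ) = (nq b x : ℂ) := by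
  rw [← nq_eq σ hn b hb x hx, Complex.ofReal_natCast]

theorem nq_le (σ : F →+* ℂ)
    (hn : ∀ x : 𝓞 F, Complex.normSq (σ x) = (Ideal.absNorm (Ideal.span {x}) : ℝ))
    (b : Ideal (𝓞 F)) (x : 𝓞 F) : (nq b x : ℝ) ≤ ‖σ x‖ ^ 2 := by
  rw [← Complex.normSq_eq_norm_sq, hn]
  exact_mod_cast Nat.div_le_self _ _

end

theorem summ {q : ℕ} {F : Type} [Field F] [NumberField F] {s : 𝓞 F} {σ : F →+* ℂ}
    {χ : DirichletCharacter ℂ q} {cj : 𝓞 F ≃+* 𝓞 F} (hD : Dat q s σ χ cj) (n : ℕ) {u : ℂ}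
    (hu : 0 < u.im) (a : Ideal (𝓞 F)) (ha : a ≠ ⊥) :
    Summable fun x : a => ‖ft n u (nq a (x : 𝓞 F))‖ := by
  obtain ⟨-, -, -, -, -, hn, -⟩ := stBas q F _ _ s σ χ cj hD
  have h1 := (stThB stBas (stBase stBas) q F _ _ s σ χ cj a (2 * n) n hD ha).2.1
    (2 * Real.pi * u.im) (by have := Real.pi_pos; positivity)
  refine Summable.of_nonneg_of_le (fun _ => norm_nonneg _) (fun x => ?_)
    (h1.mul_left (2 ^ n * (1 + 4 * Real.pi * u.im) ^ n))
  have h2 := ft_bd n u hu (nq a (x : 𝓞 F)) ‖σ (x : 𝓞 F)‖ (norm_nonneg _) (nq_le σ hn a x)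
  rw [nq_eq σ hn a ha x x.2] at h2
  exact h2

theorem ee_shift (N j D : ℕ) (u : ℂ) :
    ee ((j : ℂ) * ((N : ℤ) : ℂ) / D) * ee ((N : ℂ) * u) = ee ((N : ℂ) * (u + j / D)) := by
  rw [← ThBAux.ee_add]
  congr 1
  push_cast
  ring

theorem im_shift (j D : ℕ) (u : ℂ) : (u + j / D).im = u.im := by
  rw [Complex.add_im]
  have : ((j : ℂ) / D).im = 0 := by
    have h : (j : ℂ) / D = (((j : ℝ) / D : ℝ) : ℂ) := by push_cast; rfl
    rw [h, Complex.ofReal_im]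
  rw [this, add_zero]

end GenEAux

open GenEAux in
theorem stGenE (h1 : StCntT) (h2 : StW) : StGenE := by
  intro q F _ _ s σ χ cj D n c R u hD hT hc hR hRA hu
  obtain ⟨-, -, -, -, -, hn, -⟩ := stBas q F _ _ s σ χ cj hD
  have hs : ∀ C, Summable fun x : (c.R C : Ideal (𝓞 F)) =>
      ‖ft n u (nq (c.R C : Ideal (𝓞 F)) (x : 𝓞 F))‖ := fun C => summ hD n hu _ (hc C).1
  have key := h1 q F _ _ s σ χ cj D c R (ft n u) hD hT hc hR hRA hs
  have hL : ∀ B : GC F D, thD D σ (R B) n u = ((u.im : ℂ) ^ n)⁻¹ *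
      ∑' x : latD D (R B), ft n u (Ideal.absNorm (Ideal.span {(x : 𝓞 F)}) /
        Ideal.absNorm (R B)) := by
    intro B
    unfold thD
    congr 1
    refine tsum_congr fun x => ?_
    rw [nq_eqC σ hn (R B) (hR B).1 x x.2.1]
    rfl
  have hW := (h2 q D hT).1
  have hX : ∀ C : ClassGroup (𝓞 F),
      ∑' x : (c.R C : Ideal (𝓞 F)),
        wN D ((Ideal.absNorm (Ideal.span {(x : 𝓞 F)}) / Ideal.absNorm (c.R C : Ideal (𝓞 F)) :
          ℕ) : ℤ) * ft n u (Ideal.absNorm (Ideal.span {(x : 𝓞 F)}) /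
            Ideal.absNorm (c.R C : Ideal (𝓞 F))) =
      ∑ j ∈ Finset.range D, wH D j * ∑' x : (c.R C : Ideal (𝓞 F)),
        ft n (u + j / D) (nq (c.R C : Ideal (𝓞 F)) (x : 𝓞 F)) := by
    intro C
    have h3 : ∀ x : (c.R C : Ideal (𝓞 F)),
        wN D ((Ideal.absNorm (Ideal.span {(x : 𝓞 F)}) / Ideal.absNorm (c.R C : Ideal (𝓞 F)) :
          ℕ) : ℤ) * ft n u (Ideal.absNorm (Ideal.span {(x : 𝓞 F)}) /
            Ideal.absNorm (c.R C : Ideal (𝓞 F))) =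
        ∑ j ∈ Finset.range D, wH D j *
          ft n (u + j / D) (nq (c.R C : Ideal (𝓞 F)) (x : 𝓞 F)) := by
      intro x
      change wN D ((nq (c.R C : Ideal (𝓞 F)) (x : 𝓞 F) : ℕ) : ℤ) *
        ft n u (nq (c.R C : Ideal (𝓞 F)) (x : 𝓞 F)) = _
      rw [hW, Finset.sum_mul]
      refine Finset.sum_congr rfl fun j _ => ?_
      unfold ft
      rw [im_shift, ← ee_shift]
      simp only [Int.cast_natCast]
      ring
    rw [tsum_congr h3, Summable.tsum_finsetSum]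
    · refine Finset.sum_congr rfl fun j _ => ?_
      rw [tsum_mul_left]
    · intro j _
      refine Summable.mul_left _ ?_
      exact (summ hD n (u := u + j / D) (by rw [im_shift]; exact hu) _ (hc C).1).of_norm
  have hR' : ∀ (C : ClassGroup (𝓞 F)) (j : ℕ),
      thl σ (c.R C : Ideal (𝓞 F)) n (u + j / D) = ((u.im : ℂ) ^ n)⁻¹ *
        ∑' x : (c.R C : Ideal (𝓞 F)),
          ft n (u + j / D) (nq (c.R C : Ideal (𝓞 F)) (x : 𝓞 F)) := by
    intro C j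
    unfold thl
    rw [im_shift]
    congr 1
    refine tsum_congr fun x => ?_
    rw [nq_eqC σ hn (c.R C : Ideal (𝓞 F)) (hc C).1 x x.2]
    unfold ft
    rw [im_shift]
  rw [finsum_congr hL, ← mul_finsum, key, Finset.sum_congr rfl fun C _ => hX C, Finset.sum_comm,
    Finset.mul_sum]
  refine Finset.sum_congr rfl fun j _ => ?_
  rw [← Finset.mul_sum, Finset.sum_congr rfl fun C _ => hR' C j, ← Finset.mul_sum]
  ring

end Pool.Agent.Lib.MP_7c08ba_nt.CN.TW
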