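import Pool.Agent.Lib.MP_7c08ba_nt.CN.T.StH
import Pool.Agent.Lib.MP_7c08ba_nt.CN.StOA

set_option autoImplicit false

/-!
Project TW, statements of the modules on partial zeta functions.  One module = one file
`CN/T/<Name>.lean` proving `theorem st<Name> : St<Name>`, with earlier statements as hypotheses.
-/

namespace Pool.Agent.Lib.MP_7c08ba_nt.CN.TW

open NumberField IsDedekindDomain Polynomial Pool.Agent.Lib.MP_7c08ba_nt.RZ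
open scoped nonZeroDivisors ComplexConjugate

section

variable {F : Type} [Field F] [NumberField F]

/-- The terms of the partial zeta functions, `k = n + 1`. -/
noncomputable def zt (φ : Ideal (𝓞 F) →*₀ ℂ) (n : ℕ) (z : ℂ) (x : 𝓞 F) : ℂ :=
  φ (Ideal.span {x}) * (Ideal.absNorm (Ideal.span {x}) : ℂ) ^ (-((n : ℂ) + 1 + z))

/-- What is used about the character: the sums over the lattices with a basis `(α + f s) / 2`, `β`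
are given by the Eisenstein series `E`. -/
structure Good (q : ℕ) (s : 𝓞 F) (σ : F →+* ℂ) (n : ℕ) (φ : Ideal (𝓞 F) →*₀ ℂ)
    (E : ℂ → ℂ → ℂ) : Prop where
  dif : ∀ u : ℂ, 0 < u.im →
    DifferentiableOn ℂ (fun t => E t u) {t | -(n : ℝ) - 1 / 2 < t.re}
  lat : ∀ (f β : ℕ) (α : ℤ) (X : 𝓞 F), Odd f → Odd β → β.Coprime q → 2 * X = α + f * s →
    (q : ℤ) ∣ α → ∀ z : ℂ, 1 < z.re →
    (Summable fun p : ℤ × ℤ => ‖zt φ n z (p.1 * X + p.2 * β)‖) ∧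
    1 / 2 * ∑' p : ℤ × ℤ, zt φ n z (p.1 * X + p.2 * β) =
      φ (Ideal.span {(β : 𝓞 F)}) * (β : ℂ) ^ (-(2 * ((n : ℂ) + 1 + z))) *
        ((σ X / (q * β)).im : ℂ) ^ ((n : ℂ) - z) * conj (E (conj z - n) (σ X / (q * β)))
  bd : ∀ b : Ideal (𝓞 F), ‖φ b‖ ≤ (Ideal.absNorm b : ℝ) ^ ((n : ℝ) + 1 / 2)
  nz : ∀ b : Ideal (𝓞 F), (Ideal.absNorm b).Coprime (2 * q) → φ b ≠ 0
  inert : ∀ r : ℕ, r.Prime → r ≠ 2 → jacobiSym r q = -1 →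
    φ (Ideal.span {(r : 𝓞 F)}) = -(r : ℂ) ^ (2 * n + 1)

/-- The partial zeta functions of the ring classes. -/
def IsG (n D : ℕ) (φ : Ideal (𝓞 F) →*₀ ℂ) (G : RC F D → ℂ → ℂ) : Prop :=
  (∀ B, DifferentiableOn ℂ (G B) {z | -1 / 2 < z.re}) ∧
  ∀ b ∈ idp (F := F) D, φ b ≠ 0 → ∀ z : ℂ, 1 < z.re →
    (Summable fun x : latD D b => ‖zt φ n z x‖) ∧
    φ b * G (cl D b) z =
      (Ideal.absNorm b : ℂ) ^ ((n : ℂ) + 1 + z) * (1 / 2 * ∑' x : latD D b, zt φ n z x)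

/-- The weights: the number of cyclic lattices of positive type which contain an element of
norm `N`. -/
noncomputable def wN (D : ℕ) (N : ℤ) : ℂ :=
  ∏ r ∈ D.primeFactors, if (r : ℤ) ∣ N then ((r : ℂ) + 1) / 2 else (1 + (jacobiSym N r : ℂ)) / 2

/-- The Fourier coefficients of the weights. -/
noncomputable def wH (D : ℕ) (c : ℤ) : ℂ :=
  (D : ℂ)⁻¹ * ∑ N ∈ Finset.range D, wN D N * ee (-((c : ℂ) * N) / D)

end

/-- (Z1) characters of even type `n` -/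
def StGoodE : Prop :=
  ∀ (q : ℕ) (_ : NeZero q) (F : Type) (_ : Field F) (_ : NumberField F) (s : 𝓞 F)
    (σ : F →+* ℂ) (χ : DirichletCharacter ℂ q) (cj : 𝓞 F ≃+* 𝓞 F) (n : ℕ)
    (φ : Ideal (𝓞 F) →*₀ ℂ), Dat q s σ χ cj → IsCan q s σ (2 * n + 1) φ →
    Good q s σ n φ (eis q χ n)

/-- (Z2) characters of odd type `n` -/
def StGoodO : Prop :=
  ∀ (q : ℕ) (_ : NeZero q) (F : Type) (_ : Field F) (_ : NumberField F) (s : 𝓞 F)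
    (σ : F →+* ℂ) (χ : DirichletCharacter ℂ q) (cj : 𝓞 F ≃+* 𝓞 F) (n : ℕ)
    (φ : Ideal (𝓞 F) →*₀ ℂ), Dat q s σ χ cj → IsCanO q s σ (2 * n + 1) φ →
    Good q s σ n φ (EO q χ n)

/-- (Z3) the partial zeta functions of the ring classes -/
def StGex : Prop :=
  ∀ (q : ℕ) (F : Type) (_ : Field F) (_ : NumberField F) (s : 𝓞 F)
    (σ : F →+* ℂ) (χ : DirichletCharacter ℂ q) (cj : 𝓞 F ≃+* 𝓞 F) (n D : ℕ)
    (φ : Ideal (𝓞 F) →*₀ ℂ) (E : ℂ → ℂ → ℂ), Dat q s σ χ cj → Good q s σ n φ E → TwA q D →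
    ∃ G : RC F D → ℂ → ℂ, IsG n D φ G

open Classical in
/-- (Z4) the Hecke relation at an inert prime at the centre -/
def StHkT : Prop :=
  ∀ (q : ℕ) (F : Type) (_ : Field F) (_ : NumberField F) (s : 𝓞 F)
    (σ : F →+* ℂ) (χ : DirichletCharacter ℂ q) (cj : 𝓞 F ≃+* 𝓞 F) (n D : ℕ)
    (φ : Ideal (𝓞 F) →*₀ ℂ) (E : ℂ → ℂ → ℂ) (G : RC F D → ℂ → ℂ), Dat q s σ χ cj →
    Good q s σ n φ E → TwA q D → IsG n D φ G →
    ∀ (r : ℕ) (L : (𝓞 F ⧸ Ideal.span {(D : 𝓞 F)})ˣ → 𝓞 F) (B : RC F D), r.Prime → r ∣ D →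
    (∀ y, L y ≠ 0 ∧ Ideal.Quotient.mk (Ideal.span {(D : 𝓞 F)}) (L y) = y) →
    ∑ᶠ y : (𝓞 F ⧸ Ideal.span {(D : 𝓞 F)})ˣ, (if ((D / r : ℕ) : 𝓞 F) ∣ L y - 1 then
      G (cl D (Ideal.span {L y}) * B) 0 else 0) = 0

/-- (Z5) the `L`-function of the twist -/
def StLsT : Prop :=
  ∀ (q : ℕ) (F : Type) (_ : Field F) (_ : NumberField F) (s : 𝓞 F)
    (σ : F →+* ℂ) (χ : DirichletCharacter ℂ q) (cj : 𝓞 F ≃+* 𝓞 F) (n D : ℕ)
    (φ : Ideal (𝓞 F) →*₀ ℂ) (E : ℂ → ℂ → ℂ) (G : RC F D → ℂ → ℂ), Dat q s σ χ cj →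
    Good q s σ n φ E → TwA q D → IsG n D φ G →
    IsLF (twist D φ) (n + 1) (fun z => ∑ᶠ B : RC F D, (chr B : ℂ) * G B z)

/-- (Z6) the values of the Eisenstein series at the points `u + c / D` -/
def StLnk : Prop :=
  ∀ (q : ℕ) (F : Type) (_ : Field F) (_ : NumberField F) (s : 𝓞 F)
    (σ : F →+* ℂ) (χ : DirichletCharacter ℂ q) (cj : 𝓞 F ≃+* 𝓞 F) (n D : ℕ)
    (φ : Ideal (𝓞 F) →*₀ ℂ) (E : ℂ → ℂ → ℂ) (G : RC F D → ℂ → ℂ), Dat q s σ χ cj →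
    Good q s σ n φ E → TwA q D → IsG n D φ G →
    ∀ (a : Ideal (𝓞 F)) (X : 𝓞 F) (α : ℤ) (β : ℕ) (c t : ℤ) (w : 𝓞 F), RP q D s a X α β →
    (D : ℤ) ∣ t - 2 * c * q * β → w ≠ 0 → (D : 𝓞 F) ∣ w - (t - s) →
    (φ a)⁻¹ * φ (Ideal.span {(β : 𝓞 F)}) * ((σ X / (q * D ^ 2 * β)).im : ℂ) ^ (2 * n + 1) *
        conj (E (-n) (σ X / (q * D ^ 2 * β) + c / D)) =
      (φ (Ideal.span {(D : 𝓞 F)}))⁻¹ * (D : ℂ) ^ (n + 1) *
        ((2 * Real.sqrt q : ℂ) ^ (n + 1))⁻¹ * G (cl D (Ideal.span {w}) * cl D a) 0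

/-- (Z7) sums over the principal genus at the centre -/
def StSumG : Prop :=
  ∀ (q : ℕ) (F : Type) (_ : Field F) (_ : NumberField F) (s : 𝓞 F)
    (σ : F →+* ℂ) (χ : DirichletCharacter ℂ q) (cj : 𝓞 F ≃+* 𝓞 F) (n D : ℕ)
    (φ : Ideal (𝓞 F) →*₀ ℂ) (E : ℂ → ℂ → ℂ) (G : RC F D → ℂ → ℂ), Dat q s σ χ cj →
    Good q s σ n φ E → TwA q D → IsG n D φ G → ∀ Y : RC F D, ∃ κ : ℂ,
    ∑ᶠ A : GC F D, G (Y * A.1) 0 = κ * ∑ᶠ B : RC F D, (chr B : ℂ) * G B 0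

/-- (Z8) the weights and their Fourier coefficients -/
def StW : Prop :=
  ∀ (q D : ℕ), TwA q D →
    (∀ N : ℤ, wN D N = ∑ c ∈ Finset.range D, wH D c * ee ((c : ℂ) * N / D)) ∧
    (∀ c c' : ℤ, (D : ℤ) ∣ c - c' → wH D c = wH D c') ∧
    (∀ c β : ℤ, (∀ r : ℕ, r.Prime → r ∣ D → jacobiSym β r = 1) → wH D (c * β) = wH D c) ∧
    (∀ N : ℤ, wN D (4 * N) = wN D N) ∧
    (∀ N N' : ℤ, (D : ℤ) ∣ N - N' → wN D N = wN D N')

/-- (Z9) the central value as a sum over the principal genus -/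
def StZT : Prop :=
  ∀ (q : ℕ) (F : Type) (_ : Field F) (_ : NumberField F) (s : 𝓞 F)
    (σ : F →+* ℂ) (χ : DirichletCharacter ℂ q) (cj : 𝓞 F ≃+* 𝓞 F) (n D : ℕ)
    (φ : Ideal (𝓞 F) →*₀ ℂ) (E : ℂ → ℂ → ℂ), Dat q s σ χ cj → Good q s σ n φ E → TwA q D →
    ∃ Λ : ℂ → ℂ, IsLF (twist D φ) (n + 1) Λ ∧
      ∀ (R : GC F D → Ideal (𝓞 F)) (X : GC F D → 𝓞 F) (α : GC F D → ℤ) (β : GC F D → ℕ),
        (∀ A, RP q D s (R A) (X A) (α A) (β A)) → (∀ A, cl D (R A) = A.1) →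
        ∃ C : ℂ, C * Λ 0 = ∑ᶠ A : GC F D, (φ (R A))⁻¹ * φ (Ideal.span {(β A : 𝓞 F)}) *
          ((σ (X A) / (q * D ^ 2 * β A)).im : ℂ) ^ (2 * n + 1) *
          conj (∑ c ∈ Finset.range D, wH D c *
            E (-n) (σ (X A) / (q * D ^ 2 * β A) + c / D))

end Pool.Agent.Lib.MP_7c08ba_nt.CN.TW
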