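import Mathlib
import Pool.Agent.Lib.MP_7c08ba_nt.CN.T.StZ

set_option autoImplicit false

/-!
Project TW, module Gex: the partial zeta functions of the ring classes.
-/

namespace Pool.Agent.Lib.MP_7c08ba_nt.CN.TW

open NumberField IsDedekindDomain Polynomial Pool.Agent.Lib.MP_7c08ba_nt.RZ
open scoped nonZeroDivisors ComplexConjugate

namespace GexAux

variable {F : Type} [Field F] [NumberField F]

theorem odd_D {q D : ℕ} (h : TwA q D) : Odd D := by
  by_contra h2
  rw [Nat.not_odd_iff_even] at h2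
  have := h.mod4 2 Nat.prime_two h2.two_dvd
  omega

/-- transport of lattices -/
theorem tr {D : ℕ} {a b : Ideal (𝓞 F)} {u w : 𝓞 F} (hu : Rat D u) (hw : Rat D w)
    (h : Ideal.span {u} * b = Ideal.span {w} * a) {x : 𝓞 F} (hx : x ∈ latD D b) :
    ∃ y ∈ latD D a, w * y = u * x := by
  obtain ⟨hxb, c, k, hk⟩ := hx
  have h1 : u * x ∈ Ideal.span {w} * a := by
    rw [← h]
    exact Ideal.mul_mem_mul (Ideal.mem_span_singleton_self u) hxb
  obtain ⟨y, hy, hwy⟩ := Ideal.mem_span_singleton_mul.1 h1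
  obtain ⟨hu0, cu, -, ku, hku⟩ := hu
  obtain ⟨hw0, cw, ⟨a', b', hab⟩, kw, hkw⟩ := hw
  refine ⟨y, ⟨hy, a' * (cu * c), ?_⟩, hwy⟩
  have hab' : (a' : 𝓞 F) * cw + b' * D = 1 := by
    have := congrArg (Int.cast : ℤ → 𝓞 F) hab
    push_cast at this
    exact this
  refine ⟨b' * y + a' * (ku * x + cu * k - kw * y), ?_⟩
  push_cast
  linear_combination -y * hab' - a' * y * hkw + a' * hwy + a' * x * hku + a' * cu * hk

theorem exists_equiv {D : ℕ} {a b : Ideal (𝓞 F)} {u w : 𝓞 F} (hu : Rat D u) (hw : Rat D w)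
    (h : Ideal.span {u} * b = Ideal.span {w} * a) :
    ∃ e : latD D b ≃ latD D a, ∀ x, w * (e x : 𝓞 F) = u * (x : 𝓞 F) := by
  choose f hf hf' using fun x : latD D b => tr hu hw h x.2
  let g : latD D b → latD D a := fun x => ⟨f x, hf x⟩
  have hg : Function.Bijective g := by
    constructor
    · intro x y hxy
      have h1 : f x = f y := congrArg Subtype.val hxy
      have h2 : u * (x : 𝓞 F) = u * y := by rw [← hf' x, ← hf' y, h1]
      exact Subtype.ext (mul_left_cancel₀ hu.1 h2)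
    · intro y
      obtain ⟨x, hx, hxy⟩ := tr hw hu h.symm y.2
      refine ⟨⟨x, hx⟩, Subtype.ext (mul_left_cancel₀ hw.1 ?_)⟩
      rw [← hxy]
      exact hf' ⟨x, hx⟩
  exact ⟨Equiv.ofBijective g hg, fun x => hf' x⟩

/-- the terms as a multiplicative function of ideals -/
noncomputable def T (φ : Ideal (𝓞 F) →*₀ ℂ) (n : ℕ) (z : ℂ) (I : Ideal (𝓞 F)) : ℂ :=
  φ I * (Ideal.absNorm I : ℂ) ^ (-((n : ℂ) + 1 + z))

theorem T_mul (φ : Ideal (𝓞 F) →*₀ ℂ) (n : ℕ) (z : ℂ) (I J : Ideal (𝓞 F)) :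
    T φ n z (I * J) = T φ n z I * T φ n z J := by
  unfold T
  rw [map_mul, map_mul, Nat.cast_mul, Complex.natCast_mul_natCast_cpow]
  ring

theorem zt_eq (φ : Ideal (𝓞 F) →*₀ ℂ) (n : ℕ) (z : ℂ) (x : 𝓞 F) :
    zt φ n z x = T φ n z (Ideal.span {x}) := rfl

theorem T_ne {φ : Ideal (𝓞 F) →*₀ ℂ} {n : ℕ} {z : ℂ} {I : Ideal (𝓞 F)} (h : φ I ≠ 0)
    (hI : I ≠ ⊥) : T φ n z I ≠ 0 := by
  unfold T
  refine mul_ne_zero h ?_
  rw [Ne, Complex.cpow_eq_zero_iff]
  rintro ⟨h1, -⟩
  exact hI (Ideal.absNorm_eq_zero_iff.1 (by exact_mod_cast h1))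

variable {q D : ℕ} {s : 𝓞 F} {σ : F →+* ℂ} {χ : DirichletCharacter ℂ q} {cj : 𝓞 F ≃+* 𝓞 F}

theorem sigma_X (hd : Dat q s σ χ cj) {a : Ideal (𝓞 F)} {X : 𝓞 F} {α : ℤ} {β : ℕ}
    (hR : RP q D s a X α β) :
    2 * σ (X : F) = α + D * (Complex.I * Real.sqrt q) := by
  have h1 := congrArg (fun x : 𝓞 F => σ (x : F)) hR.two
  simp only [map_mul, map_add, map_ofNat, map_intCast, map_natCast] at h1
  rw [hd.im] at h1
  exact h1

theorem bij (hd : Dat q s σ χ cj) (hT : TwA q D) {a : Ideal (𝓞 F)} {X : 𝓞 F} {α : ℤ} {β : ℕ}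
    (hR : RP q D s a X α β) :
    Function.Bijective (fun p : ℤ × ℤ =>
      (⟨p.1 * X + p.2 * β, (hR.lat _).2 ⟨p.1, p.2, rfl⟩⟩ : latD D a)) := by
  have hq0 : 0 < (q : ℝ) := by exact_mod_cast hd.prime.pos
  have hD0 : (D : ℝ) ≠ 0 := by exact_mod_cast hT.sqf.ne_zero
  have hβ0 : (β : ℂ) ≠ 0 := by
    have := hR.odd.pos
    exact_mod_cast this.ne'
  have hX := sigma_X hd hR
  constructor
  · rintro ⟨m, n⟩ ⟨m', n'⟩ h
    have h1 : (m : 𝓞 F) * X + n * β = m' * X + n' * β := congrArg Subtype.val h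
    have h2 := congrArg (fun x : 𝓞 F => σ (x : F)) h1
    simp only [map_mul, map_add, map_intCast, map_natCast] at h2
    have h3 : ((m : ℂ) - m') * (α + D * (Complex.I * Real.sqrt q)) + 2 * ((n : ℂ) - n') * β = 0 := by
      rw [← hX]
      linear_combination 2 * h2
    have h4 := congrArg Complex.im h3
    have h5 : ((m : ℝ) - m') * (D * Real.sqrt q) = 0 := by
      simpa using h4
    have h6 : (m : ℝ) - m' = 0 := by
      rcases mul_eq_zero.1 h5 with h6 | h6
      · exact h6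
      · exact absurd h6 (mul_ne_zero hD0 (Real.sqrt_pos.2 hq0).ne')
    have h7 : m = m' := by
      have : (m : ℝ) = m' := by linarith
      exact_mod_cast this
    subst h7
    have h8 : ((n : ℂ) - n') * β = 0 := by
      linear_combination h2
    have h9 : (n : ℂ) = n' := by
      rcases mul_eq_zero.1 h8 with h9 | h9
      · linear_combination h9
      · exact absurd h9 hβ0
    have h10 : n = n' := by exact_mod_cast h9
    rw [h10]
  · rintro ⟨x, hx⟩
    obtain ⟨m, n, hmn⟩ := (hR.lat x).1 hx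
    exact ⟨(m, n), Subtype.ext hmn.symm⟩

theorem im_pos (hd : Dat q s σ χ cj) (hT : TwA q D) {a : Ideal (𝓞 F)} {X : 𝓞 F} {α : ℤ} {β : ℕ}
    (hR : RP q D s a X α β) : 0 < (σ (X : F) / (q * β)).im := by
  have hq0 : 0 < (q : ℝ) := by exact_mod_cast hd.prime.pos
  have hD0 : 0 < (D : ℝ) := by exact_mod_cast Nat.pos_of_ne_zero hT.sqf.ne_zero
  have hβ0 : 0 < (β : ℝ) := by exact_mod_cast hR.odd.pos
  have hX := congrArg Complex.im (sigma_X hd hR)
  have h1 : 2 * (σ (X : F)).im = D * Real.sqrt q := by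
    simpa using hX
  have h2 : (σ (X : F) / (q * β)).im = (σ (X : F)).im / (q * β) := by
    have : ((q : ℂ) * β) = ((q * β : ℝ) : ℂ) := by push_cast; ring
    rw [this, Complex.div_ofReal_im]
  rw [h2]
  have h3 : 0 < D * Real.sqrt q := mul_pos hD0 (Real.sqrt_pos.2 hq0)
  have h4 : 0 < (σ (X : F)).im := by linarith
  positivity

end GexAux

open GexAux in
theorem stGex (h1 : StRepT) (h2 : StGch) : StGex := by
  intro q F _ _ s σ χ cj n D φ E hd hg hT
  have hFC : RZC.FieldC q F (s : F) := by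
    refine ⟨hd.prime, hd.mod, hd.fin, ?_⟩
    have := congrArg (fun x : 𝓞 F => (x : F)) hd.sq
    simpa using this
  have hq0 : 0 < q := hd.prime.pos
  choose a X α β hR hcl hcop using fun B : RC F D => h1 q F _ _ s D hFC hT B (2 * q) (by omega)
  have hβ0 : ∀ B, (β B : ℂ) ≠ 0 := fun B => by
    have := (hR B).odd.pos
    exact_mod_cast this.ne'
  have hua : ∀ B, 0 < (σ (X B : F) / (q * β B)).im := fun B => im_pos hd hT (hR B)
  have hφa : ∀ B, φ (a B) ≠ 0 := fun B => hg.nz _ (by rw [(hR B).norm]; exact hcop B)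
  let G : RC F D → ℂ → ℂ := fun B z => (φ (a B))⁻¹ * ((β B : ℂ) ^ ((n : ℂ) + 1 + z) *
    (φ (Ideal.span {(β B : 𝓞 F)}) * (β B : ℂ) ^ (-(2 * ((n : ℂ) + 1 + z))) *
      ((σ (X B : F) / (q * β B)).im : ℂ) ^ ((n : ℂ) - z) *
      conj (E (conj z - n) (σ (X B : F) / (q * β B)))))
  refine ⟨G, fun B => ?_, ?_⟩
  · -- differentiability
    have hop : IsOpen {t : ℂ | -(n : ℝ) - 1 / 2 < t.re} := isOpen_lt continuous_const Complex.continuous_re
    intro z hz
    have hz' : -1 / 2 < z.re := hz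
    apply DifferentiableAt.differentiableWithinAt
    have hE : DifferentiableAt ℂ (fun t => E t (σ (X B : F) / (q * β B))) (conj z - n) := by
      refine (hg.dif _ (hua B)).differentiableAt (hop.mem_nhds ?_)
      show -(n : ℝ) - 1 / 2 < (conj z - n).re
      simp
      linarith
    have hE2 : DifferentiableAt ℂ (fun t => E (t - n) (σ (X B : F) / (q * β B))) (conj z) := by
      have := DifferentiableAt.comp (conj z) (g := fun t => E t (σ (X B : F) / (q * β B)))
        (f := fun t => t - (n : ℂ)) hE (differentiableAt_id.sub_const _)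
      exact this
    have hE3 : DifferentiableAt ℂ (fun z => conj (E (conj z - n) (σ (X B : F) / (q * β B)))) z :=
      differentiableAt_conj_conj_iff.2 hE2
    have e1 : DifferentiableAt ℂ (fun z : ℂ => (β B : ℂ) ^ ((n : ℂ) + 1 + z)) z :=
      (differentiableAt_id.const_add _).const_cpow (Or.inl (hβ0 B))
    have e2 : DifferentiableAt ℂ (fun z : ℂ => (β B : ℂ) ^ (-(2 * ((n : ℂ) + 1 + z)))) z :=
      (((differentiableAt_id.const_add _).const_mul _).neg).const_cpow (Or.inl (hβ0 B))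
    have e3 : DifferentiableAt ℂ
        (fun z : ℂ => ((σ (X B : F) / (q * β B)).im : ℂ) ^ ((n : ℂ) - z)) z := by
      refine (differentiableAt_id.const_sub _).const_cpow (Or.inl ?_)
      exact_mod_cast (hua B).ne'
    exact (e1.mul (((e2.const_mul _).mul e3).mul hE3)).const_mul _
  · intro b hb hφb z hz
    set B := cl D b with hB
    obtain ⟨-, hch, -, -⟩ := h2 q F _ _ s σ χ cj D hd hT
    obtain ⟨-, -, w, hw, -, hwb⟩ := hch b hb (a B) (hR B).mem (by rw [hcl B])
    rw [(hR B).norm] at hwb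
    have hβR : Rat D (β B : 𝓞 F) := by
      have h3 := (hR B).odd.pos
      have h4 : IsCoprime ((β B : ℕ) : ℤ) (D : ℤ) := by
        rw [Nat.isCoprime_iff_coprime]
        exact Nat.Coprime.coprime_mul_left_right (hR B).cop
      have h5 := rat_int (F := F) (D := D) (m := (β B : ℤ)) (by exact_mod_cast h3.ne') h4
      simpa using h5
    obtain ⟨e, he⟩ := exists_equiv hβR hw hwb
    -- the good lattice
    obtain ⟨hs1, hs2⟩ := hg.lat D (β B) (α B) (X B) (odd_D hT) (hR B).odd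
      (Nat.Coprime.coprime_mul_right_right (hR B).cop) (hR B).two
      (dvd_trans (Dvd.intro _ rfl) (hR B).dvd) z hz
    let ep : ℤ × ℤ ≃ latD D (a B) := Equiv.ofBijective _ (bij hd hT (hR B))
    have hep : ∀ p : ℤ × ℤ, ((ep p : latD D (a B)) : 𝓞 F) = p.1 * X B + p.2 * β B := fun p => rfl
    have ha1 : Summable fun y : latD D (a B) => ‖zt φ n z (y : 𝓞 F)‖ := by
      rw [← ep.summable_iff]
      exact hs1
    have ha2 : ∑' y : latD D (a B), zt φ n z (y : 𝓞 F) =
        ∑' p : ℤ × ℤ, zt φ n z (p.1 * X B + p.2 * β B) := by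
      rw [← ep.tsum_eq]
      rfl
    -- multiplicativity
    have hspan : φ (Ideal.span {(β B : 𝓞 F)}) ≠ 0 := by
      refine hg.nz _ ?_
      have h3 : Ideal.absNorm (Ideal.span {(β B : 𝓞 F)}) = β B ^ 2 := by
        rw [Ideal.absNorm_span_natCast, RingOfIntegers.rank, hd.fin]
      rw [h3]
      exact Nat.Coprime.pow_left 2 (hcop B)
    have hTβ : T φ n z (Ideal.span {(β B : 𝓞 F)}) ≠ 0 := by
      refine T_ne hspan ?_
      rw [Ne, Ideal.span_singleton_eq_bot]
      exact hβR.1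
    have key : ∀ x : latD D b, T φ n z (Ideal.span {(β B : 𝓞 F)}) * zt φ n z (x : 𝓞 F) =
        T φ n z (Ideal.span {w}) * zt φ n z (e x : 𝓞 F) := by
      intro x
      rw [zt_eq, zt_eq, ← T_mul, ← T_mul, Ideal.span_singleton_mul_span_singleton,
        Ideal.span_singleton_mul_span_singleton, he x]
    have key2 : T φ n z (Ideal.span {(β B : 𝓞 F)}) * T φ n z b =
        T φ n z (Ideal.span {w}) * T φ n z (a B) := by
      rw [← T_mul, ← T_mul, hwb]
    have key3 : ∀ x : latD D b, zt φ n z (x : 𝓞 F) =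
        (T φ n z (Ideal.span {(β B : 𝓞 F)}))⁻¹ * T φ n z (Ideal.span {w}) *
          zt φ n z (e x : 𝓞 F) := by
      intro x
      rw [mul_assoc, ← key x, ← mul_assoc, inv_mul_cancel₀ hTβ, one_mul]
    refine ⟨?_, ?_⟩
    · have h3 : Summable fun x : latD D b => ‖(T φ n z (Ideal.span {(β B : 𝓞 F)}))⁻¹ *
          T φ n z (Ideal.span {w})‖ * ‖zt φ n z (e x : 𝓞 F)‖ := by
        refine Summable.mul_left _ ?_
        exact (e.summable_iff (f := fun y : latD D (a B) => ‖zt φ n z (y : 𝓞 F)‖)).2 ha1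
      refine h3.congr fun x => ?_
      rw [key3 x]
      exact (norm_mul _ _).symm
    · have hS : ∑' x : latD D b, zt φ n z (x : 𝓞 F) =
          (T φ n z (Ideal.span {(β B : 𝓞 F)}))⁻¹ * T φ n z (Ideal.span {w}) *
            ∑' y : latD D (a B), zt φ n z (y : 𝓞 F) := by
        rw [← tsum_mul_left, ← e.tsum_eq]
        exact tsum_congr key3
      have hG : φ (a B) * G B z = (β B : ℂ) ^ ((n : ℂ) + 1 + z) *
          (1 / 2 * ∑' y : latD D (a B), zt φ n z (y : 𝓞 F)) := by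
        rw [ha2, hs2]
        show φ (a B) * ((φ (a B))⁻¹ * _) = _
        rw [← mul_assoc, mul_inv_cancel₀ (hφa B), one_mul]
      have hTa : T φ n z (a B) * G B z = 1 / 2 * ∑' y : latD D (a B), zt φ n z (y : 𝓞 F) := by
        have h4 : (β B : ℂ) ^ ((n : ℂ) + 1 + z) ≠ 0 := by
          rw [Ne, Complex.cpow_eq_zero_iff]
          exact fun h => hβ0 B h.1
        unfold T
        rw [(hR B).norm, Complex.cpow_neg, mul_right_comm, hG]
        field_simp
      have hb0 : (Ideal.absNorm b : ℂ) ^ ((n : ℂ) + 1 + z) ≠ 0 := by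
        rw [Ne, Complex.cpow_eq_zero_iff]
        exact fun h => hb.1 (Ideal.absNorm_eq_zero_iff.1 (by exact_mod_cast h.1))
      have hTb : φ b = (Ideal.absNorm b : ℂ) ^ ((n : ℂ) + 1 + z) * T φ n z b := by
        unfold T
        rw [Complex.cpow_neg]
        field_simp
      have hTb2 : T φ n z b = (T φ n z (Ideal.span {(β B : 𝓞 F)}))⁻¹ *
          (T φ n z (Ideal.span {w}) * T φ n z (a B)) := by
        rw [← key2, ← mul_assoc, inv_mul_cancel₀ hTβ, one_mul]
      rw [hTb, hTb2, hS]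
      linear_combination (Ideal.absNorm b : ℂ) ^ ((n : ℂ) + 1 + z) *
        (T φ n z (Ideal.span {(β B : 𝓞 F)}))⁻¹ * T φ n z (Ideal.span {w}) * hTa

end Pool.Agent.Lib.MP_7c08ba_nt.CN.TW
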