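import Pool.Agent.Lib.MP_7c08ba_nt.CN.T.StZ
import Pool.Agent.Lib.MP_7c08ba_nt.CN.ALs

set_option autoImplicit false

/-!
Project TW, module GoodE: sums over lattices in terms of Eisenstein series, characters of even
type.
-/

namespace Pool.Agent.Lib.MP_7c08ba_nt.CN.TW

open NumberField IsDedekindDomain Polynomial Pool.Agent.Lib.MP_7c08ba_nt.RZ
open scoped nonZeroDivisors ComplexConjugate

namespace GoodEAux

theorem conj_cpow_real {x : ℝ} (hx : 0 < x) (m : ℂ) :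
    conj ((x : ℂ) ^ m) = (x : ℂ) ^ (conj m) := by
  have harg : (x : ℂ).arg ≠ Real.pi := by
    rw [Complex.arg_ofReal_of_nonneg hx.le]
    exact Real.pi_pos.ne
  rw [Complex.cpow_conj _ _ harg, Complex.conj_ofReal]

/-- the power of a complex number in terms of the general term -/
theorem pow_gE (n : ℕ) (z w : ℂ) (hw : w ≠ 0) :
    w ^ (2 * n + 1) * ((Complex.normSq w : ℝ) : ℂ) ^ (-((n : ℂ) + 1 + z)) =
      conj (gE n (conj z - n) w) := by
  have h0 : (0 : ℝ) < Complex.normSq w := Complex.normSq_pos.2 hw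
  have h0' : ((Complex.normSq w : ℝ) : ℂ) ≠ 0 := by exact_mod_cast h0.ne'
  have hcw : conj w ≠ 0 := (_root_.map_ne_zero _).2 hw
  have h1 : conj (((Complex.normSq w : ℝ) : ℂ) ^ (-(conj z - n)))
      = ((Complex.normSq w : ℝ) : ℂ) ^ (-(z - n)) := by
    rw [conj_cpow_real h0]
    simp
  rw [gE, map_mul, map_inv₀, map_pow, h1]
  have h2 : ((Complex.normSq w : ℝ) : ℂ) = conj w * w := Complex.normSq_eq_conj_mul_self
  have h3 : ((Complex.normSq w : ℝ) : ℂ) ^ (-(z - n))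
      = ((Complex.normSq w : ℝ) : ℂ) ^ (-((n : ℂ) + 1 + z)) *
        ((Complex.normSq w : ℝ) : ℂ) ^ (2 * n + 1) := by
    rw [← Complex.cpow_natCast, ← Complex.cpow_add _ _ h0']
    congr 1
    push_cast
    ring
  rw [h3]
  generalize ((Complex.normSq w : ℝ) : ℂ) ^ (-((n : ℂ) + 1 + z)) = P
  rw [h2, mul_pow]
  field_simp

theorem neg_one_sym {q : ℕ} (h : q % 16 = 7) : jacobiSym (-1) q = -1 := by
  have h1 : Odd q := Nat.odd_iff.2 (by omega)
  rw [jacobiSym.at_neg_one h1]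
  exact ZMod.χ₄_nat_three_mod_four (by omega)

section

variable {q : ℕ} {F : Type} [Field F] [NumberField F] {s : 𝓞 F} {σ : F →+* ℂ}
  {χ : DirichletCharacter ℂ q} {cj : 𝓞 F ≃+* 𝓞 F} {n : ℕ} {φ : Ideal (𝓞 F) →*₀ ℂ}

theorem s_dvd (hD : Dat q s σ χ cj) {f : ℕ} {α : ℤ} {X : 𝓞 F} (hX : 2 * X = α + f * s)
    (hq : (q : ℤ) ∣ α) : s ∣ X := by
  obtain ⟨k, hk⟩ : ∃ k : ℕ, q = 2 * k + 1 := ⟨q / 2, by have := hD.mod; omega⟩
  obtain ⟨c, hc⟩ := hq
  have hk' : (q : 𝓞 F) = 2 * (k : 𝓞 F) + 1 := by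
    rw [hk]
    push_cast
    ring
  have hα : (α : 𝓞 F) = (q : 𝓞 F) * (c : 𝓞 F) := by
    rw [hc]
    push_cast
    ring
  have hs := hD.sq
  refine ⟨-s * X + k * s * c - k * f, ?_⟩
  linear_combination (X - k * c) * hs - X * hk' - k * hX - k * hα

theorem two_sigma (hD : Dat q s σ χ cj) {f : ℕ} {α : ℤ} {X : 𝓞 F} (hX : 2 * X = α + f * s) :
    2 * σ X = α + f * (Complex.I * Real.sqrt q) := by
  have h1 := congrArg (fun x : 𝓞 F => σ (x : F)) hX
  have h2 : σ ((2 * X : 𝓞 F) : F) = 2 * σ X := by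
    rw [two_mul, two_mul]
    push_cast
    rw [map_add]
  have h3 : σ (((α : 𝓞 F) + (f : 𝓞 F) * s : 𝓞 F) : F) = α + f * σ s := by
    push_cast
    simp
  simp only [h2, h3] at h1
  rw [h1, hD.im]

theorem im_pos' (hD : Dat q s σ χ cj) {f : ℕ} {α : ℤ} {X : 𝓞 F} {β : ℕ}
    (hX : 2 * X = α + f * s) (hf : Odd f) (hβ : 0 < β) : 0 < (σ X / (q * β)).im := by
  have hq0 : (0 : ℝ) < q := by exact_mod_cast hD.prime.pos
  have hsq : (0 : ℝ) < Real.sqrt q := Real.sqrt_pos.2 hq0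
  have hβ0 : (0 : ℝ) < β := by exact_mod_cast hβ
  have hf0 : (0 : ℝ) < f := by exact_mod_cast hf.pos
  have h1 := two_sigma hD hX
  have h2 : σ X / (q * β) =
      (((2 * (q * β) : ℝ)⁻¹ : ℝ) : ℂ) * (α + f * (Complex.I * Real.sqrt q)) := by
    rw [← h1]
    have : (q : ℂ) ≠ 0 := by exact_mod_cast hq0.ne'
    have : (β : ℂ) ≠ 0 := by exact_mod_cast hβ0.ne'
    push_cast
    field_simp
  rw [h2, Complex.im_ofReal_mul]
  have h3 : ((α : ℂ) + f * (Complex.I * Real.sqrt q)).im = f * Real.sqrt q := by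
    simp
  rw [h3]
  positivity

theorem inj (hD : Dat q s σ χ cj) {f : ℕ} {α : ℤ} {X : 𝓞 F} {β : ℕ}
    (hX : 2 * X = α + f * s) (hf : Odd f) (hβ : 0 < β) {l m : ℤ}
    (h : (l : 𝓞 F) * X + (m : 𝓞 F) * (β : 𝓞 F) = 0) : l = 0 ∧ m = 0 := by
  have hq0 : (0 : ℝ) < q := by exact_mod_cast hD.prime.pos
  have hsq : (0 : ℝ) < Real.sqrt q := Real.sqrt_pos.2 hq0
  have hβ0 : (0 : ℝ) < β := by exact_mod_cast hβ
  have hf0 : (0 : ℝ) < f := by exact_mod_cast hf.pos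
  have h1 := two_sigma hD hX
  have h2 : (l : ℂ) * σ X + m * β = 0 := by
    have h3 : σ (((l : 𝓞 F) * X + (m : 𝓞 F) * (β : 𝓞 F) : 𝓞 F) : F) = l * σ X + m * β := by
      push_cast
      simp
    rw [← h3, h]
    simp
  have h4 : (l : ℂ) * (α + f * (Complex.I * Real.sqrt q)) + 2 * (m * β) = 0 := by
    rw [← h1]
    linear_combination 2 * h2
  have h5 := congrArg Complex.im h4
  have h6 := congrArg Complex.re h4
  simp at h5 h6
  have hl : l = 0 := by
    rcases h5 with h5 | h5 | h5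
    · exact h5
    · exact absurd h5 (by rintro rfl; simp at hf0)
    · exact absurd h5 hD.prime.ne_zero
  refine ⟨hl, ?_⟩
  rw [hl] at h6
  simp at h6
  rcases h6 with h6 | h6
  · exact h6
  · exact absurd h6 hβ.ne'

/-- the sum over the lattice -/
theorem lat [NeZero q] (h2 : StEisF) (h4 : StBas) (hD : Dat q s σ χ cj)
    (hφ : IsCan q s σ (2 * n + 1) φ) {f β : ℕ} {α : ℤ} {X : 𝓞 F} (hf : Odd f) (hβ : Odd β)
    (hX : 2 * X = α + f * s) (hq : (q : ℤ) ∣ α) {z : ℂ} (hz : 1 < z.re) :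
    (Summable fun p : ℤ × ℤ => ‖zt φ n z (p.1 * X + p.2 * β)‖) ∧
    1 / 2 * ∑' p : ℤ × ℤ, zt φ n z (p.1 * X + p.2 * β) =
      φ (Ideal.span {(β : 𝓞 F)}) * (β : ℂ) ^ (-(2 * ((n : ℂ) + 1 + z))) *
        ((σ X / (q * β)).im : ℂ) ^ ((n : ℂ) - z) *
          conj (eis q χ n (conj z - n) (σ X / (q * β))) := by
  obtain ⟨-, -, -, -, -, hnorm, -, -, -, -, -⟩ := h4 q F _ _ s σ χ cj hD
  have hq7 : 7 ≤ q := by
    have := hD.mod
    omega
  have hβpos : 0 < β := hβ.pos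
  have hqC : (q : ℂ) ≠ 0 := by exact_mod_cast hD.prime.ne_zero
  have hβC : (β : ℂ) ≠ 0 := by exact_mod_cast hβpos.ne'
  have hβR : (0 : ℝ) < β := by exact_mod_cast hβpos
  have hsX : s ∣ X := s_dvd hD hX hq
  have hupos : 0 < (σ X / (q * β)).im := im_pos' hD hX hf hβpos
  obtain ⟨u, hu⟩ : ∃ u, u = σ X / (q * β) := ⟨_, rfl⟩
  rw [← hu] at hupos ⊢
  have huX : σ X = q * u * β := by
    rw [hu]
    field_simp
  have hφβ : φ (Ideal.span {(β : 𝓞 F)}) = (jacobiSym β q : ℂ) * (β : ℂ) ^ (2 * n + 1) := by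
    have h1 := hφ (β : 𝓞 F) (β : ℤ) (by exact_mod_cast hβpos.ne') (by simp)
    rw [h1]
    simp
  obtain ⟨E, hE⟩ : ∃ E : ℂ, E = (n : ℂ) + 1 + z := ⟨_, rfl⟩
  have hterm : ∀ p : ℤ × ℤ, zt φ n z (p.1 * X + p.2 * β) =
      φ (Ideal.span {(β : 𝓞 F)}) * (β : ℂ) ^ (-(2 * E)) *
        conj (χ p.2 * gE n (conj z - n) (p.1 * q * u + p.2)) := by
    rintro ⟨l, m⟩
    dsimp only
    by_cases hx : (l : 𝓞 F) * X + (m : 𝓞 F) * (β : 𝓞 F) = 0
    · obtain ⟨rfl, rfl⟩ := inj hD hX hf hβpos hx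
      have h1 : χ ((0 : ℤ) : ZMod q) = 0 := by
        rw [hD.chi 0, jacobiSym.zero_left (by omega)]
        simp
      rw [hx, zt, Ideal.span_singleton_eq_bot.2 rfl, ← Ideal.zero_eq_bot, map_zero, zero_mul, h1,
        zero_mul, map_zero, mul_zero]
    · have hσx : σ (((l : 𝓞 F) * X + (m : 𝓞 F) * (β : 𝓞 F) : 𝓞 F) : F) =
          β * (l * q * u + m) := by
        have h1 : σ (((l : 𝓞 F) * X + (m : 𝓞 F) * (β : 𝓞 F) : 𝓞 F) : F) =
            l * σ X + m * β := by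
          push_cast
          simp
        rw [h1, huX]
        ring
      have hσx0 : σ (((l : 𝓞 F) * X + (m : 𝓞 F) * (β : 𝓞 F) : 𝓞 F) : F) ≠ 0 := by
        intro h
        rw [map_eq_zero] at h
        exact hx (by exact_mod_cast h)
      have hw : (l : ℂ) * q * u + m ≠ 0 := by
        intro h
        rw [hσx, h, mul_zero] at hσx0
        exact hσx0 rfl
      have hdvd : s ∣ ((l : 𝓞 F) * X + (m : 𝓞 F) * (β : 𝓞 F)) - ((m * β : ℤ) : 𝓞 F) := by
        have h1 : ((l : 𝓞 F) * X + (m : 𝓞 F) * (β : 𝓞 F)) - ((m * β : ℤ) : 𝓞 F) =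
            (l : 𝓞 F) * X := by
          push_cast
          ring
        rw [h1]
        exact Dvd.dvd.mul_left hsX _
      have h2' : (Ideal.absNorm (Ideal.span {(l : 𝓞 F) * X + (m : 𝓞 F) * (β : 𝓞 F)}) : ℂ) =
          (((β : ℝ) * (β : ℝ) : ℝ) : ℂ) *
            ((Complex.normSq ((l : ℂ) * q * u + m) : ℝ) : ℂ) := by
        have h5 : Complex.normSq (β : ℂ) = (β : ℝ) * (β : ℝ) := Complex.normSq_natCast β
        rw [← h5, ← Complex.ofReal_mul, ← Complex.normSq_mul, ← hσx, hnorm]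
        exact (Complex.ofReal_natCast _).symm
      have h6 : (((β : ℝ) * (β : ℝ) : ℝ) : ℂ) ^ (-E) = (β : ℂ) ^ (-(2 * E)) := by
        rw [Complex.ofReal_mul, Complex.mul_cpow_ofReal_nonneg hβR.le hβR.le,
          Complex.ofReal_natCast, ← Complex.cpow_add _ _ hβC]
        congr 1
        ring
      rw [zt, hφ _ (m * β) hx hdvd, h2', ← hE, Complex.mul_cpow_ofReal_nonneg (by positivity)
        (Complex.normSq_nonneg _), h6, map_mul, ← pow_gE n z _ hw, hφβ, hσx, ← hE,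
        jacobiSym.mul_left, hD.chi m]
      simp only [map_intCast, Int.cast_mul]
      generalize (l : ℂ) * q * u + m = w
      rw [mul_pow]
      ring
  obtain ⟨hSum, hS⟩ := h2 q inferInstance χ n hD.prime (by omega) hD.chi (neg_one_sym hD.mod)
    (conj z - n) u (by simp; linarith) hupos
  constructor
  · have h1 : (fun p : ℤ × ℤ => ‖zt φ n z (p.1 * X + p.2 * β)‖) = fun p : ℤ × ℤ =>
        ‖φ (Ideal.span {(β : 𝓞 F)}) * (β : ℂ) ^ (-(2 * E))‖ *
          ‖χ p.2 * gE n (conj z - n) (p.1 * q * u + p.2)‖ := by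
      funext p
      rw [hterm p, norm_mul, RCLike.norm_conj]
    rw [h1]
    exact hSum.mul_left _
  rw [tsum_congr hterm, tsum_mul_left, ← Complex.conj_tsum, ← hE]
  generalize (∑' p : ℤ × ℤ, χ p.2 * gE n (conj z - n) (p.1 * q * u + p.2)) = S at hS ⊢
  have hS' : (u.im : ℂ) ^ (z - n) * conj S = 2 * conj (eis q χ n (conj z - n) u) := by
    have h1 := congrArg (starRingEnd ℂ) hS
    rw [map_mul, conj_cpow_real hupos, map_mul, map_ofNat] at h1
    simpa using h1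
  have hui : (u.im : ℂ) ≠ 0 := by exact_mod_cast hupos.ne'
  have h5 : (u.im : ℂ) ^ ((n : ℂ) - z) * (u.im : ℂ) ^ (z - n) = 1 := by
    rw [← Complex.cpow_add _ _ hui]
    rw [show (n : ℂ) - z + (z - n) = 0 by ring, Complex.cpow_zero]
  have h6 : conj (eis q χ n (conj z - n) u) = 1 / 2 * ((u.im : ℂ) ^ (z - n) * conj S) := by
    rw [hS']
    ring
  rw [h6]
  linear_combination (-(1 / 2) * φ (Ideal.span {(β : 𝓞 F)}) * (β : ℂ) ^ (-(2 * E)) *
    conj S) * h5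

theorem cop_s (hD : Dat q s σ χ cj) {b : Ideal (𝓞 F)}
    (h : (Ideal.absNorm b).Coprime (2 * q)) : b ≠ ⊥ ∧ IsCoprime b (Ideal.span {s}) := by
  have h1 : (Ideal.absNorm b).Coprime q := h.coprime_dvd_right (Dvd.intro_left 2 rfl)
  constructor
  · rintro rfl
    rw [Ideal.absNorm_bot, Nat.coprime_zero_left] at h1
    exact hD.prime.one_lt.ne' h1
  · obtain ⟨u, v, huv⟩ := Nat.isCoprime_iff_coprime.2 h1
    rw [Ideal.isCoprime_iff_exists]
    refine ⟨(u : 𝓞 F) * (Ideal.absNorm b : 𝓞 F), b.mul_mem_left _ (Ideal.absNorm_mem b),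
      (v : 𝓞 F) * (q : 𝓞 F), ?_, ?_⟩
    · have h2 : (q : 𝓞 F) ∈ Ideal.span {s} := by
        rw [Ideal.mem_span_singleton]
        exact ⟨-s, by linear_combination hD.sq⟩
      exact Ideal.mul_mem_left _ _ h2
    · have h3 := congrArg (Int.cast (R := 𝓞 F)) huv
      push_cast at h3
      exact h3

end

end GoodEAux

open GoodEAux in
/-- (Z1) characters of even type -/
theorem stGoodE (h1 : StEisF) (h2 : StCj) (h3 : StBas) (h4 : RZ.StEisA) : StGoodE := by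
  intro q _ F _ _ s σ χ cj n φ hD hφ
  refine ⟨?_, ?_, ?_, ?_, ?_⟩
  · intro u hu
    have hq2 : 2 < q := by
      have := hD.mod
      have := hD.prime.two_le
      omega
    exact (h4 q inferInstance χ n hD.prime hq2 hD.chi).1 u hu
  · intro f β α X hf hβ _ hX hq z hz
    exact lat h1 h3 hD hφ hf hβ hX hq hz
  · exact fun b => LsAux.norm_le h2 hD hφ b
  · intro b hb
    obtain ⟨h5, h6⟩ := cop_s hD hb
    exact LsAux.ne_zero h2 hD hφ h6 h5
  · intro r hr _ hj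
    have h5 := hφ (r : 𝓞 F) (r : ℤ) (by exact_mod_cast hr.ne_zero) (by simp)
    rw [h5, hj]
    simp

end Pool.Agent.Lib.MP_7c08ba_nt.CN.TW
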