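import Pool.Agent.Lib.MP_7c08ba_nt.CN.T.GoodE
import Pool.Agent.Lib.MP_7c08ba_nt.CN.OLs

set_option autoImplicit false

/-!
Project TW, module GoodO: sums over lattices in terms of Eisenstein series, characters of odd
type (with the character modulo 4).
-/

namespace Pool.Agent.Lib.MP_7c08ba_nt.CN.TW

open NumberField IsDedekindDomain Polynomial Pool.Agent.Lib.MP_7c08ba_nt.RZ
open scoped nonZeroDivisors ComplexConjugate

namespace GoodOAux

open GoodEAux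


theorem two_sym {q : ℕ} (h : q % 16 = 7) : jacobiSym 2 q = 1 := by
  have h1 : Odd q := Nat.odd_iff.2 (by omega)
  rw [jacobiSym.at_two h1, ZMod.χ₈_nat_eq_if_mod_eight]
  have h2 : q % 8 = 7 := by omega
  rw [h2, if_neg (by omega)]
  simp

/-! ### The character modulo 4 -/

/-- the indicator of divisibility -/
noncomputable def dv (a l : ℤ) : ℂ := if a ∣ l then 1 else 0

theorem hasSum_dv (g : ℤ × ℤ → ℂ) {a b : ℤ} (ha : a ≠ 0) (hb : b ≠ 0) {v : ℂ}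
    (h : HasSum (fun p : ℤ × ℤ => g (a * p.1, b * p.2)) v) :
    HasSum (fun p : ℤ × ℤ => dv a p.1 * dv b p.2 * g p) v := by
  have hj : Function.Injective (fun p : ℤ × ℤ => (a * p.1, b * p.2)) := by
    rintro ⟨x, y⟩ ⟨x', y'⟩ h
    simp only [Prod.mk.injEq] at h
    exact Prod.ext (mul_left_cancel₀ ha h.1) (mul_left_cancel₀ hb h.2)
  refine (hj.hasSum_iff (fun x hx => ?_)).1 ?_
  · by_cases h1 : a ∣ x.1
    · by_cases h2 : b ∣ x.2
      · obtain ⟨l, hl⟩ := h1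
        obtain ⟨m, hm⟩ := h2
        exact absurd ⟨(l, m), Prod.ext hl.symm hm.symm⟩ hx
      · have h3 : dv b x.2 = 0 := if_neg h2
        rw [h3, mul_zero, zero_mul]
    · have h3 : dv a x.1 = 0 := if_neg h1
      rw [h3, zero_mul, zero_mul]
  · have h3 : ((fun p : ℤ × ℤ => dv a p.1 * dv b p.2 * g p) ∘
        fun p : ℤ × ℤ => (a * p.1, b * p.2)) = fun p : ℤ × ℤ => g (a * p.1, b * p.2) := by
      funext p
      have h4 : dv a (a * p.1) = 1 := if_pos (dvd_mul_right _ _)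
      have h5 : dv b (b * p.2) = 1 := if_pos (dvd_mul_right _ _)
      simp only [Function.comp_apply]
      rw [h4, h5, one_mul, one_mul]
    rw [h3]
    exact h

theorem key4 : ∀ k l m γ : ZMod 4, (γ = 1 ∨ γ = 3) →
    ZMod.χ₄ (2 * k * l ^ 2 + l * m * γ + m ^ 2) =
      2 * (if l = 0 then 1 else 0) * (1 - if 2 * m = 0 then 1 else 0) -
        (if 2 * l = 0 then 1 else 0) * (1 - if 2 * m = 0 then 1 else 0) := by
  decide

theorem odd4 {γ : ℤ} (h : Odd γ) : (γ : ZMod 4) = 1 ∨ (γ : ZMod 4) = 3 := by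
  obtain ⟨c, rfl⟩ := h
  have h1 : ∀ c : ZMod 4, 2 * c + 1 = 1 ∨ 2 * c + 1 = 3 := by decide
  push_cast
  exact h1 c

theorem zero4 (l : ℤ) : (l : ZMod 4) = 0 ↔ (4 : ℤ) ∣ l := by
  exact ZMod.intCast_zmod_eq_zero_iff_dvd l 4

theorem two4 (l : ℤ) : (2 : ZMod 4) * l = 0 ↔ (2 : ℤ) ∣ l := by
  have h1 : (2 : ZMod 4) * l = ((2 * l : ℤ) : ZMod 4) := by push_cast; rfl
  rw [h1, zero4]
  omega

theorem c4_norm {N k l m γ β : ℤ} (hγ : Odd γ) (hβ : Odd β)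
    (hN : N = 2 * k * l ^ 2 + l * m * γ + m ^ 2 * β ^ 2) :
    c4 N = 2 * dv 4 l * (1 - dv 2 m) - dv 2 l * (1 - dv 2 m) := by
  have hβ2 : (β : ZMod 4) ^ 2 = 1 := by
    rcases odd4 hβ with h | h <;> rw [h] <;> decide
  have h1 : (N : ZMod 4) = 2 * k * l ^ 2 + l * m * γ + m ^ 2 := by
    rw [hN]
    push_cast
    rw [hβ2, mul_one]
  unfold c4
  rw [h1, key4 _ _ _ _ (odd4 hγ)]
  simp only [zero4, two4, dv]
  push_cast
  rfl

theorem conj_dv (a l : ℤ) : conj (dv a l) = dv a l := by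
  unfold dv
  split_ifs <;> simp

theorem gE_mul (n : ℕ) (t z w : ℂ) : gE n t (z * w) = gE n t z * gE n t w := by
  unfold gE
  rw [mul_pow, mul_inv, Complex.normSq_mul, Complex.ofReal_mul,
    Complex.mul_cpow_ofReal_nonneg (Complex.normSq_nonneg _) (Complex.normSq_nonneg _)]
  ring

/-- the sum with the character modulo 4 -/
theorem ksum (h2 : StEisF) {q : ℕ} [NeZero q] {χ : DirichletCharacter ℂ q} {n : ℕ}
    (hq : q.Prime) (hmod : q % 16 = 7) (hχ : ∀ n : ℤ, χ n = (jacobiSym n q : ℂ)) {t u : ℂ}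
    (ht : 1 / 2 - (n : ℝ) < t.re) (hu : 0 < u.im) :
    HasSum (fun p : ℤ × ℤ => (2 * dv 4 p.1 * (1 - dv 2 p.2) - dv 2 p.1 * (1 - dv 2 p.2)) *
      (χ p.2 * gE n t (p.1 * q * u + p.2))) (2 * ((u.im : ℂ) ^ (-t) * EO q χ n t u)) := by
  have hχ2 : ∀ m : ℤ, χ ((2 * m : ℤ) : ZMod q) = χ m := by
    intro m
    rw [hχ, hχ, jacobiSym.mul_left, two_sym hmod, one_mul]
  -- the sums at the points `c u`
  have hS : ∀ c : ℕ, 0 < c → HasSum (fun p : ℤ × ℤ => χ p.2 * gE n t (p.1 * q * (c * u) + p.2))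
      (2 * ((u.im : ℂ) ^ (-t) * ((c : ℂ) ^ (-t) * eis q χ n t (c * u)))) := by
    intro c hc
    have hc' : (0 : ℝ) < c := by exact_mod_cast hc
    have him : ((c : ℂ) * u).im = c * u.im := by
      rw [← Complex.ofReal_natCast, Complex.im_ofReal_mul]
    obtain ⟨hs1, hs2⟩ := h2 q inferInstance χ n hq (by omega) hχ (neg_one_sym hmod) t (c * u) ht
      (by rw [him]; positivity)
    have hs3 := hs1.of_norm.hasSum
    have e1 : ((c * u.im : ℝ) : ℂ) ^ t = (c : ℂ) ^ t * (u.im : ℂ) ^ t := by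
      rw [Complex.ofReal_mul, Complex.mul_cpow_ofReal_nonneg hc'.le hu.le, Complex.ofReal_natCast]
    have hcC : (c : ℂ) ≠ 0 := by exact_mod_cast hc.ne'
    have huC : (u.im : ℂ) ≠ 0 := by exact_mod_cast hu.ne'
    have e2 : (c : ℂ) ^ t * (c : ℂ) ^ (-t) = 1 := by
      rw [← Complex.cpow_add _ _ hcC, add_neg_cancel, Complex.cpow_zero]
    have e3 : (u.im : ℂ) ^ t * (u.im : ℂ) ^ (-t) = 1 := by
      rw [← Complex.cpow_add _ _ huC, add_neg_cancel, Complex.cpow_zero]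
    rw [him, e1] at hs2
    generalize (∑' p : ℤ × ℤ, χ p.2 * gE n t (p.1 * q * (c * u) + p.2)) = S at hs2 hs3
    have e4 : S = 2 * ((u.im : ℂ) ^ (-t) * ((c : ℂ) ^ (-t) * eis q χ n t (c * u))) := by
      linear_combination (u.im : ℂ) ^ (-t) * (c : ℂ) ^ (-t) * hs2 -
        S * (u.im : ℂ) ^ t * (u.im : ℂ) ^ (-t) * e2 - S * e3
    rw [← e4]
    exact hs3
  have hS1 := hS 1 one_pos
  have hS2 := hS 2 two_pos
  have hS4 := hS 4 (by norm_num)
  -- the four sums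
  obtain ⟨g, hg⟩ : ∃ g : ℤ × ℤ → ℂ, g = fun p => χ p.2 * gE n t (p.1 * q * u + p.2) := ⟨_, rfl⟩
  have k1 : ∀ (c : ℕ) (v : ℂ), 0 < c →
      HasSum (fun p : ℤ × ℤ => χ p.2 * gE n t (p.1 * q * (c * u) + p.2)) v →
      HasSum (fun p : ℤ × ℤ => dv c p.1 * dv 1 p.2 * g p) v := by
    intro c v hc hv
    refine hasSum_dv g (by exact_mod_cast hc.ne') one_ne_zero ?_
    have h3 : (fun p : ℤ × ℤ => g (c * p.1, 1 * p.2)) =
        fun p : ℤ × ℤ => χ p.2 * gE n t (p.1 * q * (c * u) + p.2) := by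
      funext p
      rw [hg]
      simp only
      rw [one_mul]
      congr 2
      push_cast
      ring
    rw [h3]
    exact hv
  have k2 : ∀ (c : ℕ) (v : ℂ), 0 < c →
      HasSum (fun p : ℤ × ℤ => χ p.2 * gE n t (p.1 * q * (c * u) + p.2)) v →
      HasSum (fun p : ℤ × ℤ => dv (2 * c) p.1 * dv 2 p.2 * g p) (gE n t 2 * v) := by
    intro c v hc hv
    refine hasSum_dv g (by positivity) two_ne_zero ?_
    have h3 : (fun p : ℤ × ℤ => g (2 * c * p.1, 2 * p.2)) =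
        fun p : ℤ × ℤ => gE n t 2 * (χ p.2 * gE n t (p.1 * q * (c * u) + p.2)) := by
      funext p
      rw [hg]
      simp only
      rw [hχ2]
      have h4 : ((2 * c * p.1 : ℤ) : ℂ) * q * u + (2 * p.2 : ℤ) =
          2 * (p.1 * q * (c * u) + p.2) := by
        push_cast
        ring
      rw [h4, gE_mul]
      ring
    rw [h3]
    exact hv.mul_left _
  have k41 := k1 4 _ (by norm_num) hS4
  have k21 := k1 2 _ two_pos hS2
  have k42 := k2 2 _ two_pos hS2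
  have k22 := k2 1 _ one_pos hS1
  have hd1 : ∀ m : ℤ, dv 1 m = 1 := fun m => if_pos (one_dvd m)
  have htot := (((k41.mul_left 2).sub (k42.mul_left 2)).sub k21).add k22
  have e1 : (fun p : ℤ × ℤ => (2 * dv 4 p.1 * (1 - dv 2 p.2) - dv 2 p.1 * (1 - dv 2 p.2)) *
      (χ p.2 * gE n t (p.1 * q * u + p.2))) = fun p : ℤ × ℤ =>
      2 * (dv ((4 : ℕ) : ℤ) p.1 * dv 1 p.2 * g p) -
        2 * (dv (2 * ((2 : ℕ) : ℤ)) p.1 * dv 2 p.2 * g p) -
        dv ((2 : ℕ) : ℤ) p.1 * dv 1 p.2 * g p + dv (2 * ((1 : ℕ) : ℤ)) p.1 * dv 2 p.2 * g p := by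
    funext p
    have h3 : (2 * ((2 : ℕ) : ℤ)) = 4 := by norm_num
    have h4 : (2 * ((1 : ℕ) : ℤ)) = 2 := by norm_num
    rw [h3, h4, hd1, hg]
    push_cast
    ring
  rw [e1]
  have e2 : 2 * ((u.im : ℂ) ^ (-t) * EO q χ n t u) =
      2 * (2 * ((u.im : ℂ) ^ (-t) * (((4 : ℕ) : ℂ) ^ (-t) * eis q χ n t ((4 : ℕ) * u)))) -
      2 * (gE n t 2 *
        (2 * ((u.im : ℂ) ^ (-t) * (((2 : ℕ) : ℂ) ^ (-t) * eis q χ n t ((2 : ℕ) * u))))) -
      2 * ((u.im : ℂ) ^ (-t) * (((2 : ℕ) : ℂ) ^ (-t) * eis q χ n t ((2 : ℕ) * u))) +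
      gE n t 2 *
        (2 * ((u.im : ℂ) ^ (-t) * (((1 : ℕ) : ℂ) ^ (-t) * eis q χ n t ((1 : ℕ) * u)))) := by
    unfold EO
    push_cast
    rw [Complex.one_cpow, one_mul]
    ring_nf
  rw [e2]
  exact htot


section

variable {q : ℕ} {F : Type} [Field F] [NumberField F] {s : 𝓞 F} {σ : F →+* ℂ}
  {χ : DirichletCharacter ℂ q} {cj : 𝓞 F ≃+* 𝓞 F} {n : ℕ} {φ : Ideal (𝓞 F) →*₀ ℂ}

/-- the norm of the elements of the lattice -/
theorem norm4 (h4 : StBas) (hD : Dat q s σ χ cj) {f : ℕ} {α : ℤ} {X : 𝓞 F} {β : ℕ}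
    (hX : 2 * X = α + f * s) (l m : ℤ) :
    4 * ((Ideal.absNorm (Ideal.span {(l : 𝓞 F) * X + (m : 𝓞 F) * β}) : ℕ) : ℤ) =
      (l * α + 2 * m * β) ^ 2 + q * f ^ 2 * l ^ 2 := by
  obtain ⟨-, -, -, -, -, hnorm, -, -, -, -, -⟩ := h4 q F _ _ s σ χ cj hD
  have hq0 : (0 : ℝ) < q := by exact_mod_cast hD.prime.pos
  have hσX := two_sigma hD hX
  have h4 := hnorm ((l : 𝓞 F) * X + (m : 𝓞 F) * β)
  have h5 : σ (((l : 𝓞 F) * X + (m : 𝓞 F) * β : 𝓞 F) : F) = l * σ X + m * β := by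
    push_cast
    simp
  rw [h5] at h4
  have h6 : 4 * Complex.normSq (l * σ X + m * β) =
      (l * α + 2 * m * β) ^ 2 + q * f ^ 2 * l ^ 2 := by
    have h7 : Complex.normSq (2 * (l * σ X + m * β)) = 4 * Complex.normSq (l * σ X + m * β) := by
      rw [Complex.normSq_mul]
      norm_num
    rw [← h7]
    have h8 : 2 * (l * σ X + m * β) = ((l * α + 2 * m * β : ℝ) : ℂ) +
        ((l * f * Real.sqrt q : ℝ) : ℂ) * Complex.I := by
      push_cast
      linear_combination (l : ℂ) * hσX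
    rw [h8, Complex.normSq_add_mul_I, mul_pow, Real.sq_sqrt hq0.le]
    ring
  rw [h4] at h6
  exact_mod_cast h6

theorem odd_alpha (h4 : StBas) (hD : Dat q s σ χ cj) {f : ℕ} {α : ℤ} {X : 𝓞 F}
    (hX : 2 * X = α + f * s) (hf : Odd f) : Odd α := by
  have h1 := norm4 h4 hD (β := 0) hX 1 0
  have hmod := hD.mod
  by_contra h2
  rw [Int.not_odd_iff_even] at h2
  obtain ⟨a, rfl⟩ := h2
  obtain ⟨b, rfl⟩ := hf
  obtain ⟨c, hc⟩ : ∃ c : ℕ, q = 4 * c + 3 := ⟨q / 4, by omega⟩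
  rw [hc] at h1
  obtain ⟨N, hN⟩ : ∃ N : ℤ, N = ((Ideal.absNorm (Ideal.span {((1 : ℤ) : 𝓞 F) * X +
    ((0 : ℤ) : 𝓞 F) * ((0 : ℕ) : 𝓞 F)}) : ℕ) : ℤ) := ⟨_, rfl⟩
  rw [← hN] at h1
  push_cast at h1
  have h3 : (4 : ℤ) ∣ (4 * c + 3) * (2 * b + 1) ^ 2 :=
    ⟨N - a ^ 2, by linear_combination -h1⟩
  have h4 : (4 * (c : ℤ) + 3) * (2 * b + 1) ^ 2 =
      4 * (c * (2 * b + 1) ^ 2 + 3 * b ^ 2 + 3 * b) + 3 := by ring
  omega

/-- the character modulo 4 of the norms -/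
theorem c4_lat (h4 : StBas) (hD : Dat q s σ χ cj) {f : ℕ} {α : ℤ} {X : 𝓞 F} {β : ℕ}
    (hX : 2 * X = α + f * s) (hf : Odd f) (hβ : Odd β) (l m : ℤ) :
    c4 (Ideal.absNorm (Ideal.span {(l : 𝓞 F) * X + (m : 𝓞 F) * β}) : ℕ) =
      2 * dv 4 l * (1 - dv 2 m) - dv 2 l * (1 - dv 2 m) := by
  have hα := odd_alpha h4 hD hX hf
  have hmod := hD.mod
  obtain ⟨k, hk⟩ : ∃ k : ℤ, α ^ 2 + q * (f : ℤ) ^ 2 = 8 * k := by
    obtain ⟨j, hj⟩ := Int.eight_dvd_sq_sub_one_of_odd hα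
    obtain ⟨i, hi⟩ := Int.eight_dvd_sq_sub_one_of_odd (show Odd (f : ℤ) by exact_mod_cast hf)
    obtain ⟨c, hc⟩ : ∃ c : ℕ, q = 8 * c + 7 := ⟨q / 8, by omega⟩
    refine ⟨j + (8 * c + 7) * i + c + 1, ?_⟩
    rw [hc]
    push_cast
    linear_combination hj + (8 * (c : ℤ) + 7) * hi
  have hβZ : Odd (β : ℤ) := by exact_mod_cast hβ
  refine c4_norm (k := k) (hα.mul hβZ) hβZ ?_
  have h8 : 4 * ((Ideal.absNorm (Ideal.span {(l : 𝓞 F) * X + (m : 𝓞 F) * β}) : ℕ) : ℤ) =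
      4 * (2 * k * l ^ 2 + l * m * (α * β) + m ^ 2 * (β : ℤ) ^ 2) := by
    rw [norm4 h4 hD hX]
    linear_combination l ^ 2 * hk
  omega

/-- the sum over the lattice -/
theorem lat [NeZero q] (h2 : StEisF) (h4 : StBas) (hD : Dat q s σ χ cj)
    (hφ : IsCanO q s σ (2 * n + 1) φ) {f β : ℕ} {α : ℤ} {X : 𝓞 F} (hf : Odd f) (hβ : Odd β)
    (hX : 2 * X = α + f * s) (hq : (q : ℤ) ∣ α) {z : ℂ} (hz : 1 < z.re) :
    (Summable fun p : ℤ × ℤ => ‖zt φ n z (p.1 * X + p.2 * β)‖) ∧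
    1 / 2 * ∑' p : ℤ × ℤ, zt φ n z (p.1 * X + p.2 * β) =
      φ (Ideal.span {(β : 𝓞 F)}) * (β : ℂ) ^ (-(2 * ((n : ℂ) + 1 + z))) *
        ((σ X / (q * β)).im : ℂ) ^ ((n : ℂ) - z) *
          conj (EO q χ n (conj z - n) (σ X / (q * β))) := by
  obtain ⟨-, -, -, -, -, hnorm, -, -, -, -, -⟩ := h4 q F _ _ s σ χ cj hD
  have hc4 := c4_lat h4 hD (β := β) hX hf hβ
  have hq7 : 7 ≤ q := by
    have := hD.mod
    omega
  have hβpos : 0 < β := hβ.pos
  have hβF : (β : 𝓞 F) ≠ 0 := by exact_mod_cast hβpos.ne'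
  have hqC : (q : ℂ) ≠ 0 := by exact_mod_cast hD.prime.ne_zero
  have hβC : (β : ℂ) ≠ 0 := by exact_mod_cast hβpos.ne'
  have hβR : (0 : ℝ) < β := by exact_mod_cast hβpos
  have hσβ : σ ((β : 𝓞 F) : F) = (β : ℂ) := by
    simp
  have hsX : s ∣ X := s_dvd hD hX hq
  have hupos : 0 < (σ X / (q * β)).im := im_pos' hD hX hf hβpos
  obtain ⟨u, hu⟩ : ∃ u, u = σ X / (q * β) := ⟨_, rfl⟩
  rw [← hu] at hupos ⊢
  have huX : σ X = q * u * β := by
    rw [hu]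
    field_simp
  have hφβ : φ (Ideal.span {(β : 𝓞 F)}) = (jacobiSym β q : ℂ) * (β : ℂ) ^ (2 * n + 1) := by
    have h4 := hφ (β : 𝓞 F) β hβF (by rw [Int.cast_natCast, sub_self]; exact dvd_zero s)
    have h5 := hc4 0 1
    rw [Int.cast_zero, zero_mul, zero_add, Int.cast_one, one_mul] at h5
    have h6 : dv 4 0 = 1 := if_pos (dvd_zero _)
    have h7 : dv 2 0 = 1 := if_pos (dvd_zero _)
    have h8 : dv 2 1 = 0 := if_neg (by norm_num)
    rw [h4, h5, h6, h7, h8, hσβ]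
    ring
  obtain ⟨E, hE⟩ : ∃ E : ℂ, E = (n : ℂ) + 1 + z := ⟨_, rfl⟩
  have hterm : ∀ p : ℤ × ℤ, zt φ n z (p.1 * X + p.2 * β) =
      φ (Ideal.span {(β : 𝓞 F)}) * (β : ℂ) ^ (-(2 * E)) *
        conj ((2 * dv 4 p.1 * (1 - dv 2 p.2) - dv 2 p.1 * (1 - dv 2 p.2)) *
          (χ p.2 * gE n (conj z - n) (p.1 * q * u + p.2))) := by
    rintro ⟨l, m⟩
    dsimp only
    by_cases hx : (l : 𝓞 F) * X + (m : 𝓞 F) * (β : 𝓞 F) = 0
    · obtain ⟨rfl, rfl⟩ := inj hD hX hf hβpos hx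
      have h1 : χ ((0 : ℤ) : ZMod q) = 0 := by
        rw [hD.chi 0, jacobiSym.zero_left (by omega)]
        simp
      rw [hx, zt, Ideal.span_singleton_eq_bot.2 rfl, ← Ideal.zero_eq_bot, map_zero, zero_mul, h1,
        zero_mul, mul_zero, map_zero, mul_zero]
    · have hσx : σ (((l : 𝓞 F) * X + (m : 𝓞 F) * (β : 𝓞 F) : 𝓞 F) : F) =
          β * (l * q * u + m) := by
        have h1 : σ (((l : 𝓞 F) * X + (m : 𝓞 F) * (β : 𝓞 F) : 𝓞 F) : F) =
            l * σ X + m * β := by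
          push_cast
          simp
        rw [h1, huX]
        ring
      have hσx0 : σ (((l : 𝓞 F) * X + (m : 𝓞 F) * (β : 𝓞 F) : 𝓞 F) : F) ≠ 0 := by
        intro h
        rw [map_eq_zero] at h
        exact hx (by exact_mod_cast h)
      have hw : (l : ℂ) * q * u + m ≠ 0 := by
        intro h
        rw [hσx, h, mul_zero] at hσx0
        exact hσx0 rfl
      have hdvd : s ∣ ((l : 𝓞 F) * X + (m : 𝓞 F) * (β : 𝓞 F)) - ((m * β : ℤ) : 𝓞 F) := by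
        have h1 : ((l : 𝓞 F) * X + (m : 𝓞 F) * (β : 𝓞 F)) - ((m * β : ℤ) : 𝓞 F) =
            (l : 𝓞 F) * X := by
          push_cast
          ring
        rw [h1]
        exact Dvd.dvd.mul_left hsX _
      have h2' : (Ideal.absNorm (Ideal.span {(l : 𝓞 F) * X + (m : 𝓞 F) * (β : 𝓞 F)}) : ℂ) =
          (((β : ℝ) * (β : ℝ) : ℝ) : ℂ) *
            ((Complex.normSq ((l : ℂ) * q * u + m) : ℝ) : ℂ) := by
        have h5 : Complex.normSq (β : ℂ) = (β : ℝ) * (β : ℝ) := Complex.normSq_natCast β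
        rw [← h5, ← Complex.ofReal_mul, ← Complex.normSq_mul, ← hσx, hnorm]
        exact (Complex.ofReal_natCast _).symm
      have h6 : (((β : ℝ) * (β : ℝ) : ℝ) : ℂ) ^ (-E) = (β : ℂ) ^ (-(2 * E)) := by
        rw [Complex.ofReal_mul, Complex.mul_cpow_ofReal_nonneg hβR.le hβR.le,
          Complex.ofReal_natCast, ← Complex.cpow_add _ _ hβC]
        congr 1
        ring
      rw [zt, hφ _ (m * β) hx hdvd, hc4, h2', ← hE, Complex.mul_cpow_ofReal_nonneg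
        (by positivity) (Complex.normSq_nonneg _), h6, map_mul, map_mul, ← pow_gE n z _ hw, hφβ,
        hσx, ← hE, jacobiSym.mul_left, hD.chi m]
      simp only [map_intCast, Int.cast_mul, map_sub, map_mul, map_ofNat, map_one, conj_dv]
      generalize (l : ℂ) * q * u + m = w
      rw [mul_pow]
      ring
  have hk := ksum h2 (n := n) (t := conj z - n) (u := u) hD.prime hD.mod hD.chi
    (by simp; linarith) hupos
  constructor
  · have h1 : (fun p : ℤ × ℤ => ‖zt φ n z (p.1 * X + p.2 * β)‖) = fun p : ℤ × ℤ =>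
        ‖φ (Ideal.span {(β : 𝓞 F)}) * (β : ℂ) ^ (-(2 * E))‖ *
          ‖(2 * dv 4 p.1 * (1 - dv 2 p.2) - dv 2 p.1 * (1 - dv 2 p.2)) *
            (χ p.2 * gE n (conj z - n) (p.1 * q * u + p.2))‖ := by
      funext p
      rw [hterm p, norm_mul, RCLike.norm_conj]
    rw [h1]
    exact hk.summable.norm.mul_left _
  rw [tsum_congr hterm, tsum_mul_left, ← Complex.conj_tsum, ← hE, hk.tsum_eq, map_mul, map_mul,
    map_ofNat, conj_cpow_real hupos]
  have h4 : conj (-(conj z - (n : ℂ))) = (n : ℂ) - z := by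
    simp
  rw [h4]
  ring

end

end GoodOAux

open GoodOAux GoodEAux in
/-- (Z2) characters of odd type -/
theorem stGoodO (h1 : StEisF) (h2 : StCjO) (h3 : StBas) (h4 : RZ.StEisA) : StGoodO := by
  intro q _ F _ _ s σ χ cj n φ hD hφ
  refine ⟨?_, ?_, ?_, ?_, ?_⟩
  · intro u hu t ht
    exact (OLsAux.diffEO h4 hD hu ht).differentiableWithinAt
  · intro f β α X hf hβ _ hX hq z hz
    exact lat h1 h3 hD hφ hf hβ hX hq hz
  · exact fun b => OLsAux.norm_le h2 hD hφ b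
  · intro b hb
    obtain ⟨h5, h6⟩ := cop_s hD hb
    refine OLsAux.ne_zero h2 hD hφ h6 ?_
    exact (Nat.coprime_two_right).1 (hb.coprime_dvd_right (Dvd.intro _ rfl))
  · intro r hr hr2 hj
    have h5 := hφ (r : 𝓞 F) (r : ℤ) (by exact_mod_cast hr.ne_zero) (by simp)
    obtain ⟨-, -, -, -, -, hnorm, -, -, -, -, -⟩ := h3 q F _ _ s σ χ cj hD
    have h6 : Ideal.absNorm (Ideal.span {(r : 𝓞 F)}) = r * r := by
      have h7 := hnorm (r : 𝓞 F)
      have h8 : σ ((r : 𝓞 F) : F) = (r : ℂ) := by simp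
      rw [h8, Complex.normSq_natCast] at h7
      exact_mod_cast h7.symm
    have h7 : c4 ((r * r : ℕ) : ℤ) = 1 := by
      have h8 : Odd (r : ℤ) := by exact_mod_cast hr.odd_of_ne_two hr2
      unfold c4
      rcases odd4 h8 with h9 | h9
      · push_cast at h9 ⊢
        rw [h9]
        simp
      · push_cast at h9 ⊢
        rw [h9]
        have : (3 : ZMod 4) * 3 = 1 := by decide
        rw [this]
        simp
    rw [h5, hj, h6, h7]
    simp

end Pool.Agent.Lib.MP_7c08ba_nt.CN.TW
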