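import Mathlib
import Pool.Agent.Lib.MP_7c08ba_nt.CN.T.StZ
import Pool.Agent.Lib.MP_7c08ba_nt.RZ.Bas

set_option autoImplicit false

/-!
Project TW, module (HkT): the Hecke relation at an inert prime; the partial zeta functions of the
ring classes of conductor `D` sum up to zero at the centre.
-/

namespace Pool.Agent.Lib.MP_7c08ba_nt.CN.TW

open NumberField IsDedekindDomain Polynomial Pool.Agent.Lib.MP_7c08ba_nt.RZ
open scoped nonZeroDivisors ComplexConjugate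

namespace HkTAux

variable {F : Type} [Field F] [NumberField F]

/-- The terms as values of a multiplicative function. -/
theorem zt_mul (φ : Ideal (𝓞 F) →*₀ ℂ) (n : ℕ) (z : ℂ) (x y : 𝓞 F) :
    zt φ n z (x * y) = zt φ n z x * zt φ n z y := by
  unfold zt
  rw [← Ideal.span_singleton_mul_span_singleton, map_mul, map_mul, Nat.cast_mul,
    Complex.natCast_mul_natCast_cpow]
  ring

/-- The elements of `b` which are mapped to the rational integers modulo `D` by `w`. -/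
def LamD (D : ℕ) (w : 𝓞 F) (b : Ideal (𝓞 F)) : Set (𝓞 F) :=
  {x | x ∈ b ∧ ∃ k : ℤ, (D : 𝓞 F) ∣ w * x - k}

omit [NumberField F] in
theorem latD_span_mul (D : ℕ) (w : 𝓞 F) (b : Ideal (𝓞 F)) :
    latD D (Ideal.span {w} * b) = (fun x => w * x) '' LamD D w b := by
  ext t
  simp only [latD, LamD, Set.mem_ofPred_eq, Set.mem_image, Ideal.mem_span_singleton_mul]
  constructor
  · rintro ⟨⟨x, hx, rfl⟩, k, hk⟩
    exact ⟨x, ⟨hx, k, hk⟩, rfl⟩
  · rintro ⟨x, ⟨hx, k, hk⟩, rfl⟩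
    exact ⟨⟨x, hx, rfl⟩, k, hk⟩

/-- The bijection of the lattices. -/
noncomputable def eq1 (D : ℕ) (w : 𝓞 F) (hw : w ≠ 0) (b : Ideal (𝓞 F)) :
    LamD D w b ≃ latD D (Ideal.span {w} * b) :=
  (Equiv.Set.image (fun x => w * x) (LamD D w b) (mul_right_injective₀ hw)).trans
    (Equiv.setCongr (latD_span_mul D w b).symm)

omit [NumberField F] in
theorem eq1_apply (D : ℕ) (w : 𝓞 F) (hw : w ≠ 0) (b : Ideal (𝓞 F)) (x : LamD D w b) :
    ((eq1 D w hw b x : latD D (Ideal.span {w} * b)) : 𝓞 F) = w * x := rfl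

/-- (A) one class -/
theorem one_class {n D : ℕ} {φ : Ideal (𝓞 F) →*₀ ℂ} {G : RC F D → ℂ → ℂ} (hG : IsG n D φ G)
    {w : 𝓞 F} (hw : w ≠ 0) {b : Ideal (𝓞 F)} (hwb : Ideal.span {w} * b ∈ idp (F := F) D)
    (hφw : φ (Ideal.span {w}) ≠ 0) (hφb : φ b ≠ 0) {z : ℂ} (hz : 1 < z.re) :
    (Summable fun x : LamD D w b => ‖zt φ n z x‖) ∧
    φ b * G (cl D (Ideal.span {w} * b)) z =
      (Ideal.absNorm b : ℂ) ^ ((n : ℂ) + 1 + z) * (1 / 2 * ∑' x : LamD D w b, zt φ n z x) := by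
  have hφ : φ (Ideal.span {w} * b) ≠ 0 := by rw [map_mul]; exact mul_ne_zero hφw hφb
  obtain ⟨h1, h2⟩ := hG.2 _ hwb hφ z hz
  have hN : (Ideal.absNorm (Ideal.span {w}) : ℂ) ≠ 0 := by
    simp only [ne_eq, Nat.cast_eq_zero, Ideal.absNorm_eq_zero_iff,
      Ideal.span_singleton_eq_bot]
    exact hw
  have hzw : zt φ n z w ≠ 0 := by
    unfold zt
    refine mul_ne_zero hφw ?_
    rw [Ne, Complex.cpow_eq_zero_iff, not_and_or]
    exact Or.inl hN
  have h3 : Summable fun x : LamD D w b => ‖zt φ n z w‖ * ‖zt φ n z x‖ := by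
    have := (Equiv.summable_iff (eq1 D w hw b)).2 h1
    refine this.congr fun x => ?_
    simp only [Function.comp_apply]
    rw [eq1_apply, zt_mul, norm_mul]
  refine ⟨(summable_mul_left_iff (norm_ne_zero_iff.2 hzw)).1 h3, ?_⟩
  have h4 : ∑' x : latD D (Ideal.span {w} * b), zt φ n z x =
      zt φ n z w * ∑' x : LamD D w b, zt φ n z x := by
    rw [← (eq1 D w hw b).tsum_eq, ← tsum_mul_left]
    exact tsum_congr fun x => by rw [eq1_apply, zt_mul]
  rw [h4, map_mul, map_mul, Nat.cast_mul, Complex.natCast_mul_natCast_cpow] at h2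
  have h5 : (Ideal.absNorm (Ideal.span {w}) : ℂ) ^ ((n : ℂ) + 1 + z) * zt φ n z w =
      φ (Ideal.span {w}) := by
    unfold zt
    rw [mul_left_comm, ← Complex.cpow_add _ _ hN, add_neg_cancel, Complex.cpow_zero, mul_one]
  refine mul_left_cancel₀ hφw ?_
  linear_combination h2 + (Ideal.absNorm b : ℂ) ^ ((n : ℂ) + 1 + z) *
    (1 / 2 * ∑' x : LamD D w b, zt φ n z x) * h5

/-- multiples of a set -/
theorem tsum_mul_set (φ : Ideal (𝓞 F) →*₀ ℂ) (n : ℕ) (z : ℂ) {w : 𝓞 F} (hw : w ≠ 0)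
    (S : Set (𝓞 F)) (h : Summable fun x : S => ‖zt φ n z x‖) :
    (Summable fun x : ((fun x => w * x) '' S : Set (𝓞 F)) => ‖zt φ n z x‖) ∧
    ∑' x : ((fun x => w * x) '' S : Set (𝓞 F)), zt φ n z x = zt φ n z w * ∑' x : S, zt φ n z x := by
  have h0 : ∀ x : S, ((Equiv.Set.image (fun x => w * x) S (mul_right_injective₀ hw) x :
      ((fun x => w * x) '' S : Set (𝓞 F))) : 𝓞 F) = w * x := fun x => rfl
  refine ⟨?_, ?_⟩
  · rw [← Equiv.summable_iff (Equiv.Set.image (fun x => w * x) S (mul_right_injective₀ hw))]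
    refine (h.mul_left ‖zt φ n z w‖).congr fun x => ?_
    simp only [Function.comp_apply]
    rw [h0, zt_mul, norm_mul]
  · rw [← (Equiv.Set.image (fun x => w * x) S (mul_right_injective₀ hw)).tsum_eq,
      ← tsum_mul_left]
    exact tsum_congr fun x => by rw [h0, zt_mul]

omit [NumberField F] in
theorem exists_one {D : ℕ} {b : Ideal (𝓞 F)} (hb : b ∈ idp (F := F) D) :
    ∃ β ∈ b, ∃ t : 𝓞 F, β + D * t = 1 := by
  have h1 : IsCoprime b (Ideal.span {(D : 𝓞 F)}) := And.right hb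
  obtain ⟨x, hx, y, hy, hxy⟩ := Ideal.isCoprime_iff_exists.1 h1
  obtain ⟨t, ht⟩ := Ideal.mem_span_singleton.1 hy
  exact ⟨x, hx, t, by rw [← ht]; exact hxy⟩

/-- the elements divisible by `r` -/
theorem rlat {r D : ℕ} {b : Ideal (𝓞 F)} (hr : r.Coprime D) (hb : b ∈ idp (F := F) (r * D)) :
    {x | x ∈ latD D b ∧ (r : 𝓞 F) ∣ x} = (fun x => (r : 𝓞 F) * x) '' latD D b := by
  obtain ⟨β, hβ, t, ht⟩ := exists_one hb
  obtain ⟨u, v, huv⟩ := Nat.isCoprime_iff_coprime.2 hr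
  have huv' : (u : 𝓞 F) * r + v * D = 1 := by exact_mod_cast congrArg (Int.cast : ℤ → 𝓞 F) huv
  push_cast at ht
  ext x
  simp only [latD, Set.mem_ofPred_eq, Set.mem_image]
  constructor
  · rintro ⟨⟨hx, c, e, he⟩, y, rfl⟩
    refine ⟨y, ⟨?_, u * c, u * e + v * y, ?_⟩, rfl⟩
    · have : y = y * β + (D * t) * (r * y) := by linear_combination -y * ht
      rw [this]
      exact b.add_mem (b.mul_mem_left _ hβ) (b.mul_mem_left _ hx)
    · push_cast
      linear_combination (u : 𝓞 F) * he - y * huv'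
  · rintro ⟨y, ⟨hy, c, e, he⟩, rfl⟩
    refine ⟨⟨b.mul_mem_left _ hy, r * c, r * e, ?_⟩, y, rfl⟩
    push_cast
    linear_combination (r : 𝓞 F) * he

theorem twA_div {q r D : ℕ} (h : TwA q (r * D)) : TwA q D :=
  ⟨h.sqf.of_mul_right, fun p hp hd => h.mod4 p hp (hd.mul_left r),
    fun p hp hd => h.inert p hp (hd.mul_left r)⟩

theorem twA_coprime {q D : ℕ} (hq : q.Prime) (h : TwA q D) : D.Coprime (2 * q) := by
  have : NeZero q := ⟨hq.ne_zero⟩
  by_contra hc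
  obtain ⟨p, hp, h1, h2⟩ := Nat.Prime.not_coprime_iff_dvd.1 hc
  have h3 := h.mod4 p hp h1
  have h4 := h.inert p hp h1
  rcases (Nat.Prime.dvd_mul hp).1 h2 with h5 | h5
  · rw [(Nat.prime_dvd_prime_iff_eq hp Nat.prime_two).1 h5] at h3
    omega
  · rw [(Nat.prime_dvd_prime_iff_eq hp hq).1 h5, jacobiSym.eq_zero_iff_not_coprime.2] at h4
    · norm_num at h4
    · rw [Int.gcd_natCast_natCast, Nat.gcd_self]
      exact hq.one_lt.ne'

omit [NumberField F] in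
theorem idp_div {r D : ℕ} {b : Ideal (𝓞 F)} (hb : b ∈ idp (F := F) (r * D)) :
    b ∈ idp (F := F) D := by
  refine ⟨And.left hb, ?_⟩
  obtain ⟨β, hβ, t, ht⟩ := exists_one hb
  refine Ideal.isCoprime_iff_exists.2 ⟨β, hβ, (D : 𝓞 F) * (r * t), ?_, ?_⟩
  · exact Ideal.mul_mem_right _ _ (Ideal.mem_span_singleton_self _)
  · rw [← ht]; push_cast; ring

omit [NumberField F] in
/-- the ideals of units modulo `D` -/
theorem span_mem {D : ℕ} {w w' : 𝓞 F} (hw : w ≠ 0) (h : (D : 𝓞 F) ∣ w * w' - 1) :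
    Ideal.span {w} ∈ idp (F := F) D := by
  obtain ⟨t, ht⟩ := h
  refine ⟨by rw [Ne, Ideal.span_singleton_eq_bot]; exact hw, ?_⟩
  refine Ideal.isCoprime_iff_exists.2 ⟨w * w', ?_, (D : 𝓞 F) * (-t), ?_, ?_⟩
  · exact Ideal.mul_mem_right _ _ (Ideal.mem_span_singleton_self _)
  · exact Ideal.mul_mem_right _ _ (Ideal.mem_span_singleton_self _)
  · linear_combination ht

omit [NumberField F] in
theorem rat_one_mod {D : ℕ} {x : 𝓞 F} (h0 : x ≠ 0) (h : (D : 𝓞 F) ∣ x - 1) : Rat D x :=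
  ⟨h0, 1, isCoprime_one_left, by simpa using h⟩

theorem cl_congr {D : ℕ} {w w' v : 𝓞 F} (hw : w ≠ 0) (hv : v ≠ 0) (hw' : w' ≠ 0)
    (h : (D : 𝓞 F) ∣ w * w' - 1) (hvw : (D : 𝓞 F) ∣ v - w) :
    Ideal.span {v} ∈ idp (F := F) D ∧
      cl D (Ideal.span {v} : Ideal (𝓞 F)) = cl D (Ideal.span {w} : Ideal (𝓞 F)) := by
  have h' : (D : 𝓞 F) ∣ v * w' - 1 := by
    obtain ⟨t, ht⟩ := h
    obtain ⟨u, hu⟩ := hvw
    exact ⟨t + u * w', by linear_combination ht + w' * hu⟩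
  have h1 := span_mem hw h
  have h2 := span_mem hv h'
  refine ⟨h2, (cl_eq_iff h2 h1).2 ⟨w' * w, w' * v, rat_one_mod (mul_ne_zero hw' hw) ?_,
    rat_one_mod (mul_ne_zero hw' hv) ?_, ?_⟩⟩
  · rwa [mul_comm w' w]
  · rwa [mul_comm w' v]
  · rw [Ideal.span_singleton_mul_span_singleton, Ideal.span_singleton_mul_span_singleton]
    congr 2
    ring

/-- the basic facts on the field -/
structure Fct (cj : 𝓞 F ≃+* 𝓞 F) : Prop where
  nrm : ∀ x, x * cj x = (Ideal.absNorm (Ideal.span {x}) : 𝓞 F)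
  unt : ∀ x : 𝓞 F, IsUnit x → x = 1 ∨ x = -1

theorem nat_of_unit {cj : 𝓞 F ≃+* 𝓞 F} (H : Fct cj) {g : ℕ} (h : (g : 𝓞 F) ∣ 1) : g = 1 := by
  rcases H.unt _ (isUnit_of_dvd_one h) with h1 | h1
  · exact_mod_cast h1
  · exfalso
    have h2 : ((g + 1 : ℕ) : 𝓞 F) = 0 := by push_cast; rw [h1]; ring
    rw [Nat.cast_eq_zero] at h2
    omega

theorem norm_coprime {cj : 𝓞 F ≃+* 𝓞 F} (H : Fct cj) {m : ℕ} {v : 𝓞 F}
    (h : (m : 𝓞 F) ∣ v - 1) : (Ideal.absNorm (Ideal.span {v})).Coprime m := by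
  obtain ⟨t, ht⟩ := h
  have h1 : cj v - 1 = m * cj t := by
    have := congrArg cj ht
    simpa using this
  refine nat_of_unit H ?_
  have h2 : ((Nat.gcd (Ideal.absNorm (Ideal.span {v})) m : ℕ) : 𝓞 F) ∣
      (Ideal.absNorm (Ideal.span {v}) : 𝓞 F) := by
    exact_mod_cast Nat.cast_dvd_cast (α := 𝓞 F) (Nat.gcd_dvd_left _ _)
  have h3 : ((Nat.gcd (Ideal.absNorm (Ideal.span {v})) m : ℕ) : 𝓞 F) ∣ (m : 𝓞 F) :=
    Nat.cast_dvd_cast (α := 𝓞 F) (Nat.gcd_dvd_right _ _)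
  have h4 : (1 : 𝓞 F) = (Ideal.absNorm (Ideal.span {v}) : 𝓞 F) -
      m * (t + cj t + m * t * cj t) := by
    rw [← H.nrm]
    linear_combination (-(cj v)) * ht - (1 + m * t) * h1
  rw [h4]
  exact dvd_sub h2 (h3.mul_right _)

theorem norm_nat {cj : 𝓞 F ≃+* 𝓞 F} (H : Fct cj) (r : ℕ) :
    Ideal.absNorm (Ideal.span {(r : 𝓞 F)}) = r ^ 2 := by
  have h := H.nrm (r : 𝓞 F)
  rw [map_natCast] at h
  have h2 : ((r ^ 2 : ℕ) : 𝓞 F) = (Ideal.absNorm (Ideal.span {(r : 𝓞 F)}) : 𝓞 F) := by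
    rw [← h]; push_cast; ring
  exact (Nat.cast_injective h2).symm

/-- lifts with norm prime to `m` -/
theorem exists_lift {D m : ℕ} (h : D.Coprime m) (w : 𝓞 F) :
    ∃ v : 𝓞 F, (D : 𝓞 F) ∣ v - w ∧ (m : 𝓞 F) ∣ v - 1 := by
  obtain ⟨a, b, hab⟩ := Nat.isCoprime_iff_coprime.2 h
  have h1 : (a : 𝓞 F) * D + b * m = 1 := by exact_mod_cast congrArg (Int.cast : ℤ → 𝓞 F) hab
  refine ⟨w * (b * m) + a * D, ⟨a - a * w, ?_⟩, ⟨b * w - b, ?_⟩⟩
  · linear_combination w * h1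
  · linear_combination h1

open Classical in
/-- (B) the sum over the units -/
theorem sum_lat {r D : ℕ} (hr : r ≠ 0) (hrD : r.Coprime D) {b : Ideal (𝓞 F)}
    (hb : b ∈ idp (F := F) (r * D)) (φ : Ideal (𝓞 F) →*₀ ℂ) (n : ℕ) (z : ℂ)
    [Fintype (𝓞 F ⧸ Ideal.span {((r * D : ℕ) : 𝓞 F)})ˣ]
    (L : (𝓞 F ⧸ Ideal.span {((r * D : ℕ) : 𝓞 F)})ˣ → 𝓞 F)
    (hK : ∀ x : 𝓞 F, ((Nat.card {y : (𝓞 F ⧸ Ideal.span {((r * D : ℕ) : 𝓞 F)})ˣ //
        (D : 𝓞 F) ∣ L y - 1 ∧ ∃ k : ℤ, ((r * D : ℕ) : 𝓞 F) ∣ L y * x - k} : ℕ) : ℂ) =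
      if ∃ k : ℤ, (D : 𝓞 F) ∣ x - k then
        (if (r : 𝓞 F) ∣ x then (r : ℂ) ^ 2 - 1 else (r : ℂ) - 1) else 0)
    (hS : ∀ y, Summable fun x : LamD (r * D) (L y) b => ‖zt φ n z x‖)
    (hS' : Summable fun x : latD D b => ‖zt φ n z x‖) :
    ∑ y, (if (D : 𝓞 F) ∣ L y - 1 then ∑' x : LamD (r * D) (L y) b, zt φ n z x else 0) =
      ((r : ℂ) - 1 + ((r : ℂ) ^ 2 - r) * zt φ n z (r : 𝓞 F)) * ∑' x : latD D b, zt φ n z x := by
  have hr' : (r : 𝓞 F) ≠ 0 := Nat.cast_ne_zero.2 hr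
  obtain ⟨hS2, hT2⟩ := tsum_mul_set φ n z hr' (latD D b) hS'
  rw [← rlat hrD hb] at hS2 hT2
  rw [← Finset.sum_filter]
  have e1 : ∀ y, ∑' x : LamD (r * D) (L y) b, zt φ n z x =
      ∑' x : 𝓞 F, (LamD (r * D) (L y) b).indicator (zt φ n z) x := fun y => tsum_subtype _ _
  have s1 : ∀ y, Summable ((LamD (r * D) (L y) b).indicator (zt φ n z)) := fun y =>
    summable_subtype_iff_indicator.1 (hS y).of_norm
  simp_rw [e1]
  rw [← Summable.tsum_finsetSum (fun y _ => s1 y)]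
  have s2 : Summable ((latD D b).indicator (zt φ n z)) :=
    summable_subtype_iff_indicator.1 hS'.of_norm
  have s3 : Summable ({x | x ∈ latD D b ∧ (r : 𝓞 F) ∣ x}.indicator (zt φ n z)) :=
    summable_subtype_iff_indicator.1 hS2.of_norm
  have e2 : ∀ x : 𝓞 F, ∑ y ∈ Finset.univ.filter (fun y => (D : 𝓞 F) ∣ L y - 1),
      (LamD (r * D) (L y) b).indicator (zt φ n z) x =
      ((r : ℂ) - 1) * (latD D b).indicator (zt φ n z) x +
        ((r : ℂ) ^ 2 - r) * {x | x ∈ latD D b ∧ (r : 𝓞 F) ∣ x}.indicator (zt φ n z) x := by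
    intro x
    by_cases hx : x ∈ b
    · have h1 : ∀ y, (LamD (r * D) (L y) b).indicator (zt φ n z) x =
          if ∃ k : ℤ, ((r * D : ℕ) : 𝓞 F) ∣ L y * x - k then zt φ n z x else 0 := by
        intro y
        rw [Set.indicator_apply]
        refine if_congr ?_ rfl rfl
        simp only [LamD, Set.mem_ofPred_eq, hx, true_and]
      simp_rw [h1]
      rw [← Finset.sum_filter, Finset.sum_const, Finset.filter_filter, nsmul_eq_mul]
      have h2 := hK x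
      rw [Nat.card_eq_fintype_card, Fintype.card_subtype] at h2
      rw [h2, Set.indicator_apply, Set.indicator_apply]
      simp only [latD, Set.mem_ofPred_eq, hx, true_and]
      by_cases h3 : ∃ k : ℤ, (D : 𝓞 F) ∣ x - k
      · by_cases h4 : (r : 𝓞 F) ∣ x
        · simp only [h3, h4, if_true, and_self]
          ring
        · simp only [h3, h4, if_true, if_false, and_false]
          ring
      · simp only [h3, if_false, false_and]
        ring
    · have h1 : ∀ y, (LamD (r * D) (L y) b).indicator (zt φ n z) x = 0 := fun y =>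
        Set.indicator_of_notMem (fun h => hx h.1) _
      simp_rw [h1]
      rw [Finset.sum_const_zero, Set.indicator_of_notMem (fun h => hx h.1),
        Set.indicator_of_notMem (fun h => hx h.1.1)]
      ring
  simp_rw [e2]
  rw [(s2.mul_left _).tsum_add (s3.mul_left _), tsum_mul_left, tsum_mul_left,
    ← tsum_subtype, ← tsum_subtype, hT2]
  ring

omit [NumberField F] in
theorem lam_congr {D : ℕ} {v w : 𝓞 F} (b : Ideal (𝓞 F)) (h : (D : 𝓞 F) ∣ v - w) :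
    LamD D v b = LamD D w b := by
  obtain ⟨t, ht⟩ := h
  ext x
  simp only [LamD, Set.mem_ofPred_eq]
  refine and_congr_right fun _ => exists_congr fun k => ⟨?_, ?_⟩
  · rintro ⟨u, hu⟩
    exact ⟨u - t * x, by linear_combination hu - x * ht⟩
  · rintro ⟨u, hu⟩
    exact ⟨u + t * x, by linear_combination hu + x * ht⟩

/-- the factor -/
noncomputable def fac (φ : Ideal (𝓞 F) →*₀ ℂ) (n r : ℕ) (z : ℂ) : ℂ :=
  (r : ℂ) - 1 + ((r : ℂ) ^ 2 - r) * zt φ n z (r : 𝓞 F)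

theorem fac_diff {r : ℕ} (hr : r ≠ 0) (φ : Ideal (𝓞 F) →*₀ ℂ) (n : ℕ) :
    Differentiable ℂ (fac φ n r) := by
  unfold fac zt
  have hN : (Ideal.absNorm (Ideal.span {(r : 𝓞 F)}) : ℂ) ≠ 0 := by
    simp only [ne_eq, Nat.cast_eq_zero, Ideal.absNorm_eq_zero_iff,
      Ideal.span_singleton_eq_bot]
    exact hr
  intro z
  refine (differentiableAt_const _).add (DifferentiableAt.const_mul
    (DifferentiableAt.const_mul (DifferentiableAt.const_cpow (by fun_prop) (Or.inl hN)) _) _)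

theorem fac_zero {cj : 𝓞 F ≃+* 𝓞 F} (H : Fct cj) {r : ℕ} (hr : r ≠ 0)
    (φ : Ideal (𝓞 F) →*₀ ℂ) (n : ℕ) (h : φ (Ideal.span {(r : 𝓞 F)}) = -(r : ℂ) ^ (2 * n + 1)) :
    fac φ n r 0 = 0 := by
  have hr' : (r : ℂ) ≠ 0 := Nat.cast_ne_zero.2 hr
  unfold fac zt
  rw [h, norm_nat H, add_zero]
  have h1 : (((r ^ 2 : ℕ) : ℂ)) ^ (-((n : ℂ) + 1)) = ((r : ℂ) ^ (2 * (n + 1)))⁻¹ := by
    rw [Complex.cpow_neg]
    congr 1
    have : ((n : ℂ) + 1) = ((n + 1 : ℕ) : ℂ) := by push_cast; ring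
    rw [this, Complex.cpow_natCast]
    push_cast
    rw [← pow_mul]
  rw [h1]
  have h2 : (r : ℂ) ^ (2 * (n + 1)) = r ^ (2 * n + 1) * r := by ring
  rw [h2]
  field_simp
  ring

end HkTAux

open HkTAux Classical in
theorem stHkT (h1 : StGex) (_h2 : StGch) (h3 : StCntK) (h4 : StRepT) (_h5 : StRg) : StHkT := by
  intro q F _ _ s σ χ cj n D φ E G hD hgood hTw hG r L B hr hrD hL
  obtain ⟨D', rfl⟩ := hrD
  have hdiv : r * D' / r = D' := Nat.mul_div_cancel_left D' hr.pos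
  rw [hdiv]
  have hbas := stBas q F _ _ s σ χ cj hD
  have H : Fct cj := ⟨hbas.2.2.2.2.1, hbas.2.2.2.2.2.2.2.1⟩
  have hFC : RZC.FieldC q F (s : F) := by
    refine ⟨hD.prime, hD.mod, hD.fin, ?_⟩
    have := congrArg (algebraMap (𝓞 F) F) hD.sq
    simpa using this
  have hDq := twA_coprime hD.prime hTw
  have hsq := hTw.sqf
  have hrD : r.Coprime D' := by
    rw [Nat.squarefree_mul_iff] at hsq
    exact hsq.1
  obtain ⟨b, X, α, β, hRP, hcl, hβ⟩ := h4 q F _ _ s (r * D') hFC hTw B (2 * q)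
    (by have := hD.prime.pos; omega)
  have hφb : φ b ≠ 0 := hgood.nz b (by rw [hRP.norm]; exact hβ)
  have hne : (Ideal.span {((r * D' : ℕ) : 𝓞 F)}) ≠ ⊥ := by
    rw [Ne, Ideal.span_singleton_eq_bot, Nat.cast_eq_zero]
    exact hTw.sqf.ne_zero
  have hfin : Finite (𝓞 F ⧸ Ideal.span {((r * D' : ℕ) : 𝓞 F)}) :=
    Ideal.finiteQuotientOfFreeOfNeBot _ hne
  let _inst : Fintype (𝓞 F ⧸ Ideal.span {((r * D' : ℕ) : 𝓞 F)})ˣ := Fintype.ofFinite _
  rw [finsum_eq_sum_of_fintype]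
  choose L' hL1 hL2 using fun y => exists_lift (m := 2 * q) hDq (L y)
  have hinv : ∀ y, ((r * D' : ℕ) : 𝓞 F) ∣ L y * L y⁻¹ - 1 := by
    intro y
    rw [← Ideal.mem_span_singleton, ← Ideal.Quotient.eq, map_mul, (hL y).2, (hL y⁻¹).2, map_one]
    exact y.mul_inv
  have hnorm : ∀ y, (Ideal.absNorm (Ideal.span {L' y})).Coprime (2 * q) := fun y =>
    norm_coprime H (hL2 y)
  have hL0 : ∀ y, L' y ≠ 0 := by
    intro y h0
    have := hnorm y
    rw [h0, Set.singleton_zero, Ideal.span_zero, Ideal.absNorm_bot, Nat.coprime_zero_left] at this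
    have := hD.prime.pos
    omega
  have hc : ∀ y, Ideal.span {L' y} ∈ idp (F := F) (r * D') ∧
      cl (r * D') (Ideal.span {L' y} : Ideal (𝓞 F)) =
        cl (r * D') (Ideal.span {L y} : Ideal (𝓞 F)) := fun y =>
    cl_congr (hL y).1 (hL0 y) (hL y⁻¹).1 (hinv y) (hL1 y)
  -- one class
  have hA : ∀ z : ℂ, 1 < z.re → ∀ y, (Summable fun x : LamD (r * D') (L y) b => ‖zt φ n z x‖) ∧
      φ b * G (cl (r * D') (Ideal.span {L y}) * B) z =
        (Ideal.absNorm b : ℂ) ^ ((n : ℂ) + 1 + z) *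
          (1 / 2 * ∑' x : LamD (r * D') (L y) b, zt φ n z x) := by
    intro z hz y
    have h := one_class hG (hL0 y) ((idp _).mul_mem (hc y).1 hRP.mem)
      (hgood.nz _ (hnorm y)) hφb hz
    rw [lam_congr b (hL1 y), cl_mul (hc y).1 hRP.mem, (hc y).2, hcl] at h
    exact h
  obtain ⟨G', hG'⟩ := h1 q F _ _ s σ χ cj n D' φ E hD hgood (twA_div hTw)
  have hB : ∀ z : ℂ, 1 < z.re →
      ∑ y, (if (D' : 𝓞 F) ∣ L y - 1 then G (cl (r * D') (Ideal.span {L y}) * B) z else 0) =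
        fac φ n r z * G' (cl D' b) z := by
    intro z hz
    obtain ⟨hS', hT'⟩ := hG'.2 b (idp_div hRP.mem) hφb z hz
    have h := sum_lat hr.ne_zero hrD hRP.mem φ n z L (fun x => by
      have := h3 q F _ _ s σ χ cj (r * D') hD hTw r x L hr (Dvd.intro _ rfl) hL
      rw [hdiv] at this
      exact this) (fun y => (hA z hz y).1) hS'
    refine mul_left_cancel₀ hφb ?_
    have h6 : φ b * ∑ y, (if (D' : 𝓞 F) ∣ L y - 1 then
        G (cl (r * D') (Ideal.span {L y}) * B) z else 0) =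
        (Ideal.absNorm b : ℂ) ^ ((n : ℂ) + 1 + z) * (1 / 2 *
        ∑ y, (if (D' : 𝓞 F) ∣ L y - 1 then ∑' x : LamD (r * D') (L y) b, zt φ n z x else 0)) := by
      rw [Finset.mul_sum, Finset.mul_sum, Finset.mul_sum]
      refine Finset.sum_congr rfl fun y _ => ?_
      split_ifs
      · exact (hA z hz y).2
      · simp
    rw [h6, h]
    unfold fac
    linear_combination (-((r : ℂ) - 1 + ((r : ℂ) ^ 2 - r) * zt φ n z (r : 𝓞 F))) * hT'
  -- the identity theorem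
  have hU : IsOpen {z : ℂ | -1 / 2 < z.re} := isOpen_lt continuous_const Complex.continuous_re
  have hP : IsPreconnected {z : ℂ | -1 / 2 < z.re} :=
    (convex_halfSpace_re_gt _).isPreconnected
  have d1 : DifferentiableOn ℂ (fun z => ∑ y, (if (D' : 𝓞 F) ∣ L y - 1 then
      G (cl (r * D') (Ideal.span {L y}) * B) z else 0)) {z : ℂ | -1 / 2 < z.re} := by
    refine DifferentiableOn.fun_sum fun y _ => ?_
    split_ifs
    · exact hG.1 _
    · exact differentiableOn_const _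
  have d2 : DifferentiableOn ℂ (fun z => fac φ n r z * G' (cl D' b) z)
      {z : ℂ | -1 / 2 < z.re} :=
    (fac_diff hr.ne_zero φ n).differentiableOn.mul (hG'.1 _)
  have hev : (fun z => ∑ y, (if (D' : 𝓞 F) ∣ L y - 1 then
      G (cl (r * D') (Ideal.span {L y}) * B) z else 0)) =ᶠ[nhds (2 : ℂ)]
      (fun z => fac φ n r z * G' (cl D' b) z) := by
    have : {z : ℂ | 1 < z.re} ∈ nhds (2 : ℂ) :=
      (isOpen_lt continuous_const Complex.continuous_re).mem_nhds (by norm_num)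
    filter_upwards [this] with z hz
    exact hB z hz
  have hE := (d1.analyticOnNhd hU).eqOn_of_preconnected_of_eventuallyEq (d2.analyticOnNhd hU) hP
    (show (2 : ℂ) ∈ {z : ℂ | -1 / 2 < z.re} by simp; norm_num) hev
  have h0 := hE (show (0 : ℂ) ∈ {z : ℂ | -1 / 2 < z.re} by simp; norm_num)
  have hr2 : r ≠ 2 := by
    intro h
    have := hTw.mod4 r hr (Dvd.intro _ rfl)
    omega
  have h7 := fac_zero H hr.ne_zero φ n
    (hgood.inert r hr hr2 (hTw.inert r hr (Dvd.intro _ rfl)))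
  simp only [h7, zero_mul] at h0
  exact h0

end Pool.Agent.Lib.MP_7c08ba_nt.CN.TW
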