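import Pool.Agent.Lib.MP_7c08ba_nt.CN.T.StTh
import Pool.Agent.Lib.MP_7c08ba_nt.RZ.Bas

set_option autoImplicit false

/-!
Project TW, module InvT: the terms of the central value depend on the classes only.
-/

namespace Pool.Agent.Lib.MP_7c08ba_nt.CN.TW

open NumberField IsDedekindDomain Polynomial Pool.Agent.Lib.MP_7c08ba_nt.RZ
open scoped nonZeroDivisors ComplexConjugate MatrixGroups

namespace InvTAux

section

variable {F : Type} [Field F] [NumberField F]

omit [NumberField F] in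
theorem sigma_ne (σ : F →+* ℂ) {t : 𝓞 F} (ht : t ≠ 0) : σ t ≠ 0 := by
  rw [Ne, map_eq_zero]
  exact_mod_cast ht

/-- Divisibility of rational integers does not change. -/
theorem int_dvd {D n : ℤ} (h : (D : 𝓞 F) ∣ (n : 𝓞 F)) : D ∣ n := by
  rcases eq_or_ne D 0 with rfl | hD
  · rw [Int.cast_zero, zero_dvd_iff] at h
    have : n = 0 := by exact_mod_cast h
    rw [this]
  · obtain ⟨y, hy⟩ := h
    have hDQ : (D : ℚ) ≠ 0 := by exact_mod_cast hD
    have hyF : (n : F) = D * (y : F) := by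
      have := congrArg (fun t : 𝓞 F => (t : F)) hy
      simpa using this
    have hDF : (D : F) ≠ 0 := by exact_mod_cast hD
    have h1 : algebraMap ℚ F ((n : ℚ) / D) = (y : F) := by
      rw [map_div₀, map_intCast, map_intCast, hyF]
      field_simp
    have h2 : IsIntegral ℤ (algebraMap ℚ F ((n : ℚ) / D)) := by
      rw [h1]
      exact y.isIntegral_coe
    have h3 : IsIntegral ℤ ((n : ℚ) / D) :=
      (isIntegral_algebraMap_iff (algebraMap ℚ F).injective).mp h2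
    obtain ⟨z, hz⟩ := IsIntegrallyClosed.isIntegral_iff.mp h3
    refine ⟨z, ?_⟩
    have h4 : (z : ℚ) = (n : ℚ) / D := by simpa using hz
    have h5 : (n : ℚ) = D * z := by
      rw [h4]
      field_simp
    exact_mod_cast h5

/-- The conductors are odd. -/
theorem two_cop {q D : ℕ} (hT : TwA q D) : Nat.Coprime 2 D := by
  rw [Nat.Prime.coprime_iff_not_dvd Nat.prime_two]
  intro h
  have := hT.mod4 2 Nat.prime_two h
  omega

theorem q_cop {q D : ℕ} (hq : q.Prime) (hq7 : q % 16 = 7) (hT : TwA q D) : Nat.Coprime q D := by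
  rw [Nat.Prime.coprime_iff_not_dvd hq]
  intro h
  have := hT.mod4 q hq h
  omega

theorem D_ne {q D : ℕ} (hT : TwA q D) : D ≠ 0 := hT.sqf.ne_zero

theorem dvd_of_cop {D m : ℕ} (h : Nat.Coprime m D) {x : 𝓞 F} (hx : (D : 𝓞 F) ∣ m * x) :
    (D : 𝓞 F) ∣ x := by
  obtain ⟨u, v, huv⟩ := Nat.isCoprime_iff_coprime.mpr h
  have h1 : (u : 𝓞 F) * m + v * D = 1 := by exact_mod_cast congrArg (Int.cast (R := 𝓞 F)) huv
  have h2 : x = u * (m * x) + D * (v * x) := by
    linear_combination -x * h1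
  rw [h2]
  exact dvd_add (hx.mul_left _) (dvd_mul_right _ _)

end

end InvTAux

open InvTAux

theorem stInvT (h1 : StThT) (h2 : StGch) (_h3 : StRg) : StInvT := by
  intro q F _ _ s σ χ cj D n φ a a' b b' X X' α α' β β' hD hT hφ hR hR' hb hb' haa hbb
  obtain ⟨-, -, hcs, -, -, hnsq, -, -, -, -, hdvd⟩ := stBas q F _ _ s σ χ cj hD
  obtain ⟨hg1, hg2, -, -⟩ := h2 q F _ _ s σ χ cj D hD hT
  obtain ⟨-, hth, hthb⟩ := h1 q F _ _ s σ χ cj D n b hD hT hb
  obtain ⟨-, -, w, hw, hwI, hwJ⟩ := hg2 a hR.mem a' hR'.mem haa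
  obtain ⟨-, hNa', -⟩ := hg1 a' hR'.mem
  obtain ⟨hw0, c, hcD, t, ht⟩ := hw
  -- the numbers
  have hq1 : 1 < q := hD.prime.one_lt
  have hq16 := hD.mod
  have hD0 : D ≠ 0 := D_ne hT
  have h2D : Nat.Coprime 2 D := two_cop hT
  have hqD : Nat.Coprime q D := q_cop hD.prime hD.mod hT
  have hβq : Nat.Coprime β q := Nat.Coprime.coprime_mul_right_right hR.cop
  have hβD : Nat.Coprime β D := Nat.Coprime.coprime_mul_left_right hR.cop
  have hβq' : Nat.Coprime β' q := Nat.Coprime.coprime_mul_right_right hR'.cop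
  have hβD' : Nat.Coprime β' D := Nat.Coprime.coprime_mul_left_right hR'.cop
  have hβ0 : β ≠ 0 := by
    rintro rfl
    exact absurd hR.odd (by decide)
  have hβ0' : β' ≠ 0 := by
    rintro rfl
    exact absurd hR'.odd (by decide)
  have hpz : Prime (q : ℤ) := Nat.prime_iff_prime_int.mp hD.prime
  have hDO : (D : 𝓞 F) ≠ 0 := by exact_mod_cast hD0
  -- divisibility of `X` by `D` and `s`
  have hsq : s * s = -(q : 𝓞 F) := by rw [← pow_two]; exact hD.sq
  have hDX : ∀ (Y : 𝓞 F) (γ : ℤ), 2 * Y = γ + D * s → (q * D ^ 2 : ℤ) ∣ γ → (D : 𝓞 F) ∣ Y := by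
    intro Y γ hY hγ
    apply dvd_of_cop h2D
    obtain ⟨k, rfl⟩ := hγ
    refine ⟨q * D * k + s, ?_⟩
    push_cast at hY ⊢
    linear_combination hY
  have hsX : ∀ (Y : 𝓞 F) (γ : ℤ), 2 * Y = γ + D * s → (q * D ^ 2 : ℤ) ∣ γ → s ∣ Y := by
    intro Y γ hY hγ
    obtain ⟨k, rfl⟩ := hγ
    obtain ⟨l, hl⟩ : ∃ l, q = 2 * l + 1 := ⟨q / 2, by omega⟩
    have hq' : (q : 𝓞 F) = 2 * l + 1 := by exact_mod_cast congrArg (Nat.cast (R := 𝓞 F)) hl
    refine ⟨-s * Y - l * (-s * D ^ 2 * k + D), ?_⟩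
    push_cast at hY
    linear_combination (-(l : 𝓞 F)) * hY + (Y - l * D ^ 2 * k) * hsq - Y * hq'
  have hDX1 := hDX X α hR.two hR.dvd
  have hDX1' := hDX X' α' hR'.two hR'.dvd
  have hsX1 := hsX X α hR.two hR.dvd
  have hsX1' := hsX X' α' hR'.two hR'.dvd
  -- the lattice
  have hXa' : X' ∈ a' := ((hR'.lat X').mpr ⟨1, 0, by simp⟩).1
  have hwa : w ∈ a := by
    have : w ∈ a * a'.map (cj : 𝓞 F →+* 𝓞 F) := by
      rw [hwI]
      exact Ideal.mem_span_singleton_self w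
    have hle : a * a'.map (cj : 𝓞 F →+* 𝓞 F) ≤ a := Ideal.mul_le_left
    exact hle this
  obtain ⟨z, y4, hzy⟩ := (hR.lat w).mp ⟨hwa, c, t, ht⟩
  rw [hR'.norm] at hwJ
  obtain ⟨x, hxa, hx⟩ : ∃ x ∈ a, (β' : 𝓞 F) * x = w * X' := by
    have : w * X' ∈ Ideal.span {(β' : 𝓞 F)} * a := by
      rw [hwJ]
      exact Ideal.mul_mem_mul (Ideal.mem_span_singleton_self w) hXa'
    exact Ideal.mem_span_singleton_mul.mp this
  have hDx : (D : 𝓞 F) ∣ x := by
    apply dvd_of_cop hβD'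
    rw [hx]
    exact hDX1'.mul_left _
  obtain ⟨y1, y2, hxy⟩ := (hR.lat x).mp ⟨hxa, 0, by simpa using hDx⟩
  -- the main equation
  have hE : w * α' + w * D * s = β' * y1 * α + β' * y1 * D * s + 2 * β' * β * y2 := by
    have e1 := hR.two
    have e2 := hR'.two
    rw [hxy] at hx
    linear_combination (2 : 𝓞 F) * hx * (-1) - w * e2 + (β' : 𝓞 F) * y1 * e1
  -- `q ∣ y2`
  have hqβ : ¬ (q : ℤ) ∣ β := by
    intro h
    have h' : q ∣ β := by exact_mod_cast h
    exact hD.prime.one_lt.ne' (Nat.eq_one_of_dvd_coprimes hβq h' dvd_rfl)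
  have hqβ' : ¬ (q : ℤ) ∣ β' := by
    intro h
    have h' : q ∣ β' := by exact_mod_cast h
    exact hD.prime.one_lt.ne' (Nat.eq_one_of_dvd_coprimes hβq' h' dvd_rfl)
  have hq2 : ¬ (q : ℤ) ∣ 2 := by
    intro h
    have h' : q ∣ 2 := by exact_mod_cast h
    have := Nat.le_of_dvd (by norm_num) h'
    omega
  have hqy : (q : ℤ) ∣ y2 := by
    have h3 : s ∣ ((β' * (β * y2) : ℤ) : 𝓞 F) := by
      have e1 : ((β' * (β * y2) : ℤ) : 𝓞 F) = w * X' - β' * y1 * X := by
        push_cast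
        rw [← hx, hxy]
        ring
      rw [e1]
      exact dvd_sub (hsX1'.mul_left _) (hsX1.mul_left _)
    rw [hdvd] at h3
    exact ((hpz.dvd_or_dvd h3).resolve_left hqβ' |> hpz.dvd_or_dvd).resolve_left hqβ
  -- `D ^ 2 ∣ y2`
  have hDcop : IsCoprime (D : ℤ) (2 * β' * β) := by
    have e1 : IsCoprime (D : ℤ) (2 : ℤ) := by
      exact_mod_cast Nat.isCoprime_iff_coprime.mpr h2D.symm
    have e2 : IsCoprime (D : ℤ) (β : ℤ) := Nat.isCoprime_iff_coprime.mpr hβD.symm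
    have e3 : IsCoprime (D : ℤ) (β' : ℤ) := Nat.isCoprime_iff_coprime.mpr hβD'.symm
    exact (e1.mul_right e3).mul_right e2
  obtain ⟨k, hk⟩ := hR.dvd
  obtain ⟨k', hk'⟩ := hR'.dvd
  have hDy : (D : ℤ) ∣ y2 := by
    have h3 : ((D : ℤ) : 𝓞 F) ∣ ((2 * β' * β * y2 : ℤ) : 𝓞 F) := by
      refine ⟨w * (q * D * k') + w * s - β' * y1 * (q * D * k) - β' * y1 * s, ?_⟩
      rw [hk, hk'] at hE
      push_cast at hE ⊢
      linear_combination -hE
    exact hDcop.dvd_of_dvd_mul_left (int_dvd h3)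
  obtain ⟨y3, hy3⟩ := hDy
  have hE2 : w * (q * D * k') + w * s = β' * y1 * (q * D * k) + β' * y1 * s + 2 * β' * β * y3 := by
    apply mul_left_cancel₀ hDO
    rw [hk, hk', hy3] at hE
    push_cast at hE
    linear_combination hE
  have hDy3 : (D : ℤ) ∣ y3 := by
    have h3 : (D : 𝓞 F) ∣ ((2 * β' * β * y3 : ℤ) : 𝓞 F) - (c - β' * y1) * s := by
      refine ⟨w * (q * k') - β' * y1 * (q * k) + t * s, ?_⟩
      push_cast
      linear_combination -hE2 + s * ht
    have h4 := map_dvd cj h3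
    rw [map_sub, map_mul, map_sub, map_mul, hcs, map_natCast, map_intCast, map_intCast,
      map_natCast, map_intCast] at h4
    have h5 : ((D : ℤ) : 𝓞 F) ∣ ((2 * β' * β * y3 * 2 : ℤ) : 𝓞 F) := by
      have := dvd_add h3 h4
      refine (Int.cast_natCast (R := 𝓞 F) D).symm ▸ ?_
      convert this using 1
      push_cast
      ring
    have h6 : IsCoprime (D : ℤ) (2 : ℤ) := by
      exact_mod_cast Nat.isCoprime_iff_coprime.mpr h2D.symm
    exact hDcop.dvd_of_dvd_mul_left (h6.dvd_of_dvd_mul_right (int_dvd h5))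
  obtain ⟨h, hh⟩ : (q * D ^ 2 : ℤ) ∣ y2 := by
    have e1 : ((D : ℤ) ^ 2) ∣ y2 := by
      obtain ⟨y5, hy5⟩ := hDy3
      exact ⟨y5, by rw [hy3, hy5]; ring⟩
    have e2 : IsCoprime (q : ℤ) ((D : ℤ) ^ 2) :=
      IsCoprime.pow_right (Nat.isCoprime_iff_coprime.mpr hqD)
    exact e2.mul_dvd hqy e1
  -- the complex numbers
  have hqR : (0 : ℝ) < q := by exact_mod_cast (by omega : 0 < q)
  have hDR : (0 : ℝ) < D := by exact_mod_cast Nat.pos_of_ne_zero hD0
  have hβR : (0 : ℝ) < β := by exact_mod_cast Nat.pos_of_ne_zero hβ0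
  have hβR' : (0 : ℝ) < β' := by exact_mod_cast Nat.pos_of_ne_zero hβ0'
  have him : ∀ (Y : 𝓞 F) (γ : ℤ), 2 * Y = γ + D * s → (σ Y).im = D * Real.sqrt q / 2 := by
    intro Y γ hY
    have e1 : (2 : ℂ) * σ Y = γ + D * (Complex.I * Real.sqrt q) := by
      rw [← hD.im]
      have := congrArg (fun y : 𝓞 F => σ y) hY
      simpa [map_ofNat] using this
    have e2 := congrArg Complex.im e1
    simp at e2
    linarith
  have himX := him X α hR.two
  have himX' := him X' α' hR'.two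
  set y := σ X with hy
  set y' := σ X' with hy'
  set W := σ w with hW
  have hW0 : W ≠ 0 := sigma_ne σ hw0
  have hwE : W = z * y + y4 * β := by
    rw [hW, hy]
    have := congrArg (fun v : 𝓞 F => σ v) hzy
    simpa using this
  have hxE : W * y' = β' * (y1 * y + y2 * β) := by
    rw [hxy] at hx
    have := congrArg (fun v : 𝓞 F => σ v) hx.symm
    simpa using this
  have hWn : W * conj W = (β : ℂ) * β' := by
    have e1 : Complex.normSq W = (Ideal.absNorm (Ideal.span {w}) : ℝ) := hnsq w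
    rw [← hwI, map_mul, hR.norm, hNa', hR'.norm] at e1
    rw [Complex.mul_conj, e1]
    push_cast
    ring
  have hC : (β : ℂ) * y' = (y1 * y + y2 * β) * (z * conj y + y4 * β) := by
    have hβC' : (β' : ℂ) ≠ 0 := by exact_mod_cast hβ0'
    apply mul_left_cancel₀ hβC'
    have e1 : conj W = z * conj y + y4 * β := by
      rw [hwE]
      simp
    rw [← e1]
    linear_combination (-y') * hWn + conj W * hxE
  have hdet : y1 * y4 - y2 * z = 1 := by
    have e1 := congrArg Complex.im hC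
    simp at e1
    rw [himX, himX'] at e1
    have e2 : (β : ℝ) * (D * Real.sqrt q / 2) ≠ 0 := by positivity
    have e3 : ((y1 * y4 - y2 * z : ℤ) : ℝ) * (β * (D * Real.sqrt q / 2)) =
        1 * (β * (D * Real.sqrt q / 2)) := by
      push_cast
      linear_combination -e1
    have e4 := mul_right_cancel₀ e2 e3
    exact_mod_cast e4
  -- the transformation
  have hdet' : (!![y1, h; z * (q * D ^ 2), y4] : Matrix (Fin 2) (Fin 2) ℤ).det = 1 := by
    rw [Matrix.det_fin_two_of, ← hdet, hh]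
    ring
  let g : SL(2, ℤ) := ⟨!![y1, h; z * (q * D ^ 2), y4], hdet'⟩
  have hqy4 : ¬ (q : ℤ) ∣ y4 := by
    intro hd
    have h6 : (q : ℤ) ∣ y1 * y4 - y2 * z := dvd_sub (hd.mul_left _) (hqy.mul_right _)
    rw [hdet] at h6
    exact hpz.not_dvd_one h6
  have hjac : ∀ m : ℤ, ¬ (q : ℤ) ∣ m → (jacobiSym m q : ℂ) ^ 2 = 1 := by
    intro m hm
    have h := (Int.isCoprime_iff_gcd_eq_one (m := (q : ℤ)) (n := m)).mp
      ((Prime.coprime_iff_not_dvd hpz).mpr hm)
    rw [Int.gcd_comm] at h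
    have := jacobiSym.sq_one (a := m) (b := q) h
    exact_mod_cast this
  have hqC : (q : ℂ) ≠ 0 := by exact_mod_cast (by omega : q ≠ 0)
  have hDC : (D : ℂ) ≠ 0 := by exact_mod_cast hD0
  have hβC : (β : ℂ) ≠ 0 := by exact_mod_cast hβ0
  have hβC' : (β' : ℂ) ≠ 0 := by exact_mod_cast hβ0'
  set u := y / (q * D ^ 2 * β) with hu
  set u' := y' / (q * D ^ 2 * β') with hu'
  have hdivim : ∀ (v : ℂ) (γ : ℕ), (v / (q * D ^ 2 * γ : ℂ)).im = v.im / (q * D ^ 2 * γ) := by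
    intro v γ
    have e1 : (q * D ^ 2 * γ : ℂ) = ((q * D ^ 2 * γ : ℕ) : ℂ) := by push_cast; ring
    rw [e1, Complex.div_natCast_im]
    push_cast
    ring
  have huim : u.im = D * Real.sqrt q / 2 / (q * D ^ 2 * β) := by
    rw [hu, hdivim, himX]
  have huim' : u'.im = D * Real.sqrt q / 2 / (q * D ^ 2 * β') := by
    rw [hu', hdivim, himX']
  have hupos : 0 < u.im := by
    rw [huim]
    positivity
  have hims : (β' : ℝ) * u'.im = β * u.im := by
    rw [huim, huim']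
    field_simp
  have hj : ((z * (q * D ^ 2) : ℤ) : ℂ) * u + y4 = W / β := by
    rw [hwE, hu]
    push_cast
    field_simp
  have hnum : (y1 : ℂ) * u + h = W * y' / (q * D ^ 2 * β * β') := by
    have hh' : (y2 : ℂ) = q * D ^ 2 * h := by rw [hh]; push_cast; ring
    rw [hxE, hu, hh']
    field_simp
  have hT' : thD D σ b n u' =
      (jacobiSym y4 q : ℂ) * (W / β) ^ (2 * n + 1) * thD D σ b n u := by
    have e00 : g 0 0 = y1 := rfl
    have e01 : g 0 1 = h := rfl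
    have e10 : g 1 0 = z * (q * D ^ 2) := rfl
    have e11 : g 1 1 = y4 := rfl
    have hW' := hth g u hupos (by
      rw [e10]
      exact dvd_mul_left _ _)
    rw [e00, e01, e10, e11, hj, hnum] at hW'
    rw [← hW']
    congr 1
    rw [hu']
    field_simp
  -- the character
  have hφw : φ (Ideal.span {w}) = (jacobiSym y4 q : ℂ) * (jacobiSym β q : ℂ) * W ^ (2 * n + 1) := by
    have e1 : s ∣ w - ((y4 * β : ℤ) : 𝓞 F) := by
      have e2 : w - ((y4 * β : ℤ) : 𝓞 F) = z * X := by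
        rw [hzy]
        push_cast
        ring
      rw [e2]
      exact hsX1.mul_left _
    rw [hφ w _ hw0 e1, jacobiSym.mul_left]
    push_cast
    rfl
  have hφβ : ∀ γ : ℕ, γ ≠ 0 →
      φ (Ideal.span {(γ : 𝓞 F)}) = (jacobiSym γ q : ℂ) * (γ : ℂ) ^ (2 * n + 1) := by
    intro γ hγ
    have e1 : s ∣ (γ : 𝓞 F) - ((γ : ℤ) : 𝓞 F) := by simp
    rw [hφ (γ : 𝓞 F) γ (by exact_mod_cast hγ) e1]
    simp
  have hJ4 := hjac _ hqy4
  have hJ0 : ∀ m : ℤ, ¬ (q : ℤ) ∣ m → (jacobiSym m q : ℂ) ≠ 0 := by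
    intro m hm h0
    have := hjac m hm
    rw [h0] at this
    norm_num at this
  have hφw0 : φ (Ideal.span {w}) ≠ 0 := by
    rw [hφw]
    exact mul_ne_zero (mul_ne_zero (hJ0 _ hqy4) (hJ0 _ hqβ)) (pow_ne_zero _ hW0)
  have hφβ0 : φ (Ideal.span {(β' : 𝓞 F)}) ≠ 0 := by
    rw [hφβ β' hβ0']
    exact mul_ne_zero (hJ0 _ hqβ') (pow_ne_zero _ hβC')
  have hφE : (φ a')⁻¹ * φ (Ideal.span {(β' : 𝓞 F)}) = φ (Ideal.span {w}) * (φ a)⁻¹ := by
    have e1 := congrArg φ hwJ
    rw [map_mul, map_mul] at e1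
    by_cases h0 : φ a = 0
    · rw [h0, mul_zero] at e1
      have h0' : φ a' = 0 := (mul_eq_zero.mp e1.symm).resolve_left hφw0
      rw [h0, h0']
      simp
    · have h0' : φ a' ≠ 0 := by
        intro h0'
        rw [h0', mul_zero] at e1
        exact mul_ne_zero hφβ0 h0 e1
      field_simp
      linear_combination e1
  -- the end
  unfold GT
  rw [← hy, ← hy', ← hu, ← hu', ← hthb b' hb' hbb u', hφE, hT', hφw, hφβ β hβ0, map_mul, map_mul,
    map_pow]
  have hcj : conj ((jacobiSym y4 q : ℤ) : ℂ) = (jacobiSym y4 q : ℂ) := by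
    exact_mod_cast Complex.conj_ofReal _
  have hcβ : conj (W / β) = conj W / β := by
    rw [map_div₀]
    simp
  have hfin : W * (u'.im : ℂ) * (conj W / β) = β * (u.im : ℂ) := by
    have e1 : (β' : ℂ) * (u'.im : ℂ) = β * (u.im : ℂ) := by exact_mod_cast hims
    rw [← e1]
    field_simp
    linear_combination (u'.im : ℂ) * hWn
  rw [hcj, hcβ]
  calc (φ a)⁻¹ * ((jacobiSym β q : ℂ) * (β : ℂ) ^ (2 * n + 1)) * (u.im : ℂ) ^ (2 * n + 1) *
        conj (thD D σ b n u)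
      = (φ a)⁻¹ * (jacobiSym β q : ℂ) * (jacobiSym y4 q : ℂ) ^ 2 *
          (β * (u.im : ℂ)) ^ (2 * n + 1) * conj (thD D σ b n u) := by
        rw [hJ4, mul_pow]
        ring
    _ = _ := by
        rw [← hfin, mul_pow, mul_pow]
        ring

end Pool.Agent.Lib.MP_7c08ba_nt.CN.TW
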