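import Mathlib
import Pool.Agent.Lib.MP_7c08ba_nt.CN.T.StTh
import Pool.Agent.Lib.MP_7c08ba_nt.CN.OInv
import Pool.Agent.Lib.MP_7c08ba_nt.RZ.Bas
import Pool.Agent.Lib.MP_7c08ba_nt.RZ.Base
import Pool.Agent.Lib.MP_7c08ba_nt.RZ.Reps

set_option autoImplicit false

/-!
Project TW, odd `n`: the terms of the central value depend on the classes only, for squares of
ideals.
-/

namespace Pool.Agent.Lib.MP_7c08ba_nt.CN.TW

open NumberField IsDedekindDomain Polynomial Pool.Agent.Lib.MP_7c08ba_nt.RZ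
open scoped nonZeroDivisors ComplexConjugate MatrixGroups

namespace InvTOAux

variable {F : Type} [Field F] [NumberField F] {q D : ℕ} {s : 𝓞 F} {σ : F →+* ℂ}
  {χ : DirichletCharacter ℂ q} {cj : 𝓞 F ≃+* 𝓞 F}

lemma odd_D (hT : TwA q D) : Odd D := by
  by_contra h
  rw [Nat.not_odd_iff_even] at h
  have := hT.mod4 2 Nat.prime_two h.two_dvd
  omega

lemma ne_D (hT : TwA q D) : D ≠ 0 := hT.sqf.ne_zero

/-- The matrix. -/
lemma lattice {a a' : Ideal (𝓞 F)} {X X' w : 𝓞 F} {α α' : ℤ} {β β' : ℕ}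
    (hR : RP q D s a X α β) (hR' : RP q D s a' X' α' β') (hw : Rat D w)
    (h : Ideal.span {w} * a' = Ideal.span {(β' : 𝓞 F)} * a) :
    ∃ y1 y2 z y4 : ℤ, w * X' = β' * (y1 * X + y2 * β) ∧ w = z * X + y4 * β := by
  have key : ∀ x ∈ latD D a', ∃ m n : ℤ, w * x = β' * (m * X + n * β) := by
    rintro x ⟨hx, k, hk⟩
    have h1 : w * x ∈ Ideal.span {w} * a' := Ideal.mem_span_singleton_mul.mpr ⟨x, hx, rfl⟩
    rw [h] at h1
    obtain ⟨y, hy, hyx⟩ := Ideal.mem_span_singleton_mul.mp h1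
    have hc : IsCoprime (β' : ℤ) (D : ℤ) :=
      Nat.isCoprime_iff_coprime.mpr (Nat.Coprime.coprime_mul_left_right hR'.cop)
    obtain ⟨e, f, hef⟩ := hc
    obtain ⟨-, c, -, u, hu⟩ := hw
    obtain ⟨t, ht⟩ := hk
    have hef' : (e : 𝓞 F) * β' + f * D = 1 := by exact_mod_cast congrArg (Int.cast (R := 𝓞 F)) hef
    have h2 : y ∈ latD D a := by
      refine ⟨hy, e * c * k, f * y + e * (u * x + c * t), ?_⟩
      push_cast
      linear_combination (-y) * hef' + (e : 𝓞 F) * hyx + (e : 𝓞 F) * x * hu +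
        (e : 𝓞 F) * c * ht
    obtain ⟨m, n, hmn⟩ := (hR.lat y).1 h2
    exact ⟨m, n, by rw [← hyx, hmn]⟩
  obtain ⟨y1, y2, e1⟩ := key X' ((hR'.lat X').2 ⟨1, 0, by simp⟩)
  obtain ⟨z, y4, e2⟩ := key (β' : 𝓞 F) ((hR'.lat _).2 ⟨0, 1, by simp⟩)
  refine ⟨y1, y2, z, y4, e1, ?_⟩
  have hβ : (β' : 𝓞 F) ≠ 0 := by exact_mod_cast hR'.odd.pos.ne'
  refine mul_left_cancel₀ hβ ?_
  rw [← e2]
  ring

/-- The congruences for the matrix. -/
lemma arith (hD : Dat q s σ χ cj) (hT : TwA q D) {X X' w : 𝓞 F} {α α' : ℤ} {β β' : ℕ}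
    {P R y1 y2 z y4 : ℤ} (hX : 2 * X = α + D * s) (hX' : 2 * X' = α' + D * s)
    (hα : (q * D ^ 2 : ℤ) ∣ α) (hα' : (q * D ^ 2 : ℤ) ∣ α') (hβ : Odd β) (hβ' : Odd β')
    (hc : β.Coprime (q * D)) (hc' : β'.Coprime (q * D))
    (hw : w = (1 + 4 * P : ℤ) + (4 * R : ℤ) * s)
    (hN : (1 + 4 * P) ^ 2 + q * (4 * R) ^ 2 = β * β')
    (h1 : w * X' = β' * (y1 * X + y2 * β)) (h2 : w = z * X + y4 * β) :
    y1 * y4 - y2 * z = 1 ∧ (∃ h, z = 4 * h) ∧ (∃ m, y2 = q * D ^ 2 * m) ∧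
      (∃ l, y4 - y1 = 2 * l) ∧ (q : ℤ) ∣ 1 + 4 * P - y4 * β := by
  have hDo := odd_D hT
  have hD0 : (D : ℤ) ≠ 0 := by exact_mod_cast ne_D hT
  have hqo : Odd q := by
    rw [Nat.odd_iff]
    have := hD.mod
    omega
  have c1 : 2 * (1 + 4 * P) = z * α + 2 * y4 * β ∧ 2 * (4 * R) = z * D := by
    refine OInv.coord hD ?_
    push_cast at hw ⊢
    linear_combination 2 * h2 - 2 * hw + (z : 𝓞 F) * hX
  have c2 : (1 + 4 * P) * α' - q * (D * (4 * R)) = β' * (y1 * α + 2 * y2 * β) ∧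
      (1 + 4 * P) * D + 4 * R * α' = β' * (y1 * D) := by
    refine OInv.coord hD ?_
    push_cast at hw ⊢
    linear_combination 2 * h1 - w * hX' + (β' : 𝓞 F) * y1 * hX - (α' + D * s) * hw -
      (4 * R * D : 𝓞 F) * hD.sq
  obtain ⟨e1, e2⟩ := c1
  obtain ⟨e3, e4⟩ := c2
  have hdet : y1 * y4 - y2 * z = 1 := by
    have hne : (2 * D * (β * β') : ℤ) ≠ 0 :=
      mul_ne_zero (mul_ne_zero two_ne_zero hD0)
        (mul_ne_zero (by exact_mod_cast hβ.pos.ne') (by exact_mod_cast hβ'.pos.ne'))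
    refine mul_left_cancel₀ hne ?_
    linear_combination (-(2 * β * y4 + z * α) : ℤ) * e4 -
      ((1 + 4 * P) * D + 4 * R * α') * e1 + D * z * e3 + 2 * D * hN +
      ((1 + 4 * P) * α' - q * D * (4 * R)) * e2
  obtain ⟨α₁, rfl⟩ := hα
  obtain ⟨α₂, rfl⟩ := hα'
  have hcop4 : IsCoprime (4 : ℤ) (D : ℤ) := by
    have : Nat.Coprime 4 D := by
      rw [show 4 = 2 ^ 2 from rfl]
      exact Nat.Coprime.pow_left 2 (Nat.coprime_two_left.mpr hDo)
    exact_mod_cast Nat.isCoprime_iff_coprime.mpr this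
  have hz : (4 : ℤ) ∣ z := by
    refine hcop4.dvd_of_dvd_mul_right ⟨2 * R, ?_⟩
    linear_combination -e2
  obtain ⟨h, rfl⟩ := hz
  refine ⟨hdet, ⟨h, rfl⟩, ?_, ?_, ?_⟩
  · have hcop : IsCoprime (q * D ^ 2 : ℤ) (4 * β * β') := by
      have e5 : Nat.Coprime (q * D ^ 2) (4 * β * β') := by
        have e6 : ∀ {x : ℕ}, x.Coprime (q * D) → Nat.Coprime (q * D ^ 2) x := by
          intro x hx
          exact Nat.Coprime.mul_left (Nat.Coprime.coprime_mul_right_right hx).symm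
            (Nat.Coprime.pow_left 2 (Nat.Coprime.coprime_mul_left_right hx).symm)
        have e7 : Nat.Coprime 4 (q * D) := by
          rw [show 4 = 2 ^ 2 from rfl]
          exact Nat.Coprime.pow_left 2 (Nat.coprime_two_left.mpr (hqo.mul hDo))
        exact Nat.Coprime.mul_right (Nat.Coprime.mul_right (e6 e7) (e6 hc)) (e6 hc')
      exact_mod_cast Nat.isCoprime_iff_coprime.mpr e5
    refine hcop.dvd_of_dvd_mul_left ⟨2 * (1 + 4 * P) * α₂ - 4 * h - 2 * β' * y1 * α₁, ?_⟩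
    linear_combination (-2 : ℤ) * e3 - q * D * e2
  · have ho : Odd (y1 * y4) := by
      refine ⟨2 * y2 * h, ?_⟩
      linear_combination hdet
    rw [Int.odd_mul] at ho
    obtain ⟨l, hl⟩ := ho.2.sub_odd ho.1
    exact ⟨l, by rw [hl]; ring⟩
  · have hcop2 : IsCoprime (q : ℤ) (2 : ℤ) := by
      have : Nat.Coprime q 2 := Nat.coprime_two_right.mpr hqo
      exact_mod_cast Nat.isCoprime_iff_coprime.mpr this
    refine hcop2.dvd_of_dvd_mul_left ⟨4 * h * (D ^ 2 * α₁), ?_⟩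
    linear_combination e1

/-- The transformation at the two points. -/
lemma theta {H : ℂ → ℂ} {N k : ℕ} (hqN : q ∣ N)
    (hW : ∀ (γ : SL(2, ℤ)) (u : ℂ), 0 < u.im → (N : ℤ) ∣ γ 1 0 →
      H (((γ 0 0 : ℂ) * u + γ 0 1) / ((γ 1 0 : ℂ) * u + γ 1 1)) =
        (jacobiSym (γ 1 1) q : ℂ) * ((γ 1 0 : ℂ) * u + γ 1 1) ^ k * H u)
    {τ τ' j : ℂ} (hτ : 0 < τ.im)
    {g00 g11 h m l : ℤ} (hdet : g00 * g11 - (N * m) * (4 * h) = 1) (hl : g11 - g00 = 2 * l)
    (hj11 : jacobiSym g11 q = 1) (hj : j = N * (4 * h) * τ + g11) (hj0 : j ≠ 0)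
    (hτ' : τ' = (g00 * τ + m) / j) :
    H (4 * τ') = j ^ k * H (4 * τ) ∧ H (τ' + 1 / 2) = j ^ k * H (τ + 1 / 2) := by
  constructor
  · have h0 : (0 : ℝ) < (4 * τ).im := by
      have : (4 * τ).im = 4 * τ.im := by simp
      rw [this]
      positivity
    have hd : (!![g00, 4 * m; N * h, g11] : Matrix (Fin 2) (Fin 2) ℤ).det = 1 := by
      rw [Matrix.det_fin_two_of]
      linear_combination hdet
    have e := hW ⟨!![g00, 4 * m; N * h, g11], hd⟩ (4 * τ) h0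
      (by
        change (N : ℤ) ∣ N * h
        exact dvd_mul_right _ _)
    have e1 : H ((((g00 : ℤ) : ℂ) * (4 * τ) + ((4 * m : ℤ) : ℂ)) /
        (((N * h : ℤ) : ℂ) * (4 * τ) + ((g11 : ℤ) : ℂ))) =
        (jacobiSym g11 q : ℂ) * (((N * h : ℤ) : ℂ) * (4 * τ) + ((g11 : ℤ) : ℂ)) ^ k *
          H (4 * τ) := e
    have e2 : (((N * h : ℤ) : ℂ) * (4 * τ) + ((g11 : ℤ) : ℂ)) = j := by
      rw [hj]
      push_cast
      ring
    rw [e2, hj11] at e1
    have e3 : ((((g00 : ℤ) : ℂ) * (4 * τ) + ((4 * m : ℤ) : ℂ)) / j) = 4 * τ' := by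
      rw [hτ']
      push_cast
      ring
    rw [e3] at e1
    rw [e1]
    push_cast
    ring
  · have h0 : (0 : ℝ) < (τ + 1 / 2).im := by
      have : (τ + 1 / 2).im = τ.im := by simp
      rw [this]
      exact hτ
    have hd : (!![g00 + 2 * (N * h), m + l - N * h; 4 * (N * h), g11 - 2 * (N * h)] :
        Matrix (Fin 2) (Fin 2) ℤ).det = 1 := by
      rw [Matrix.det_fin_two_of]
      linear_combination hdet + 2 * (N * h) * hl
    have e := hW ⟨!![g00 + 2 * (N * h), m + l - N * h; 4 * (N * h), g11 - 2 * (N * h)], hd⟩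
      (τ + 1 / 2) h0
      (by
        change (N : ℤ) ∣ 4 * (N * h)
        exact ⟨4 * h, by ring⟩)
    have e1 : H ((((g00 + 2 * (N * h) : ℤ) : ℂ) * (τ + 1 / 2) + ((m + l - N * h : ℤ) : ℂ)) /
        (((4 * (N * h) : ℤ) : ℂ) * (τ + 1 / 2) + ((g11 - 2 * (N * h) : ℤ) : ℂ))) =
        (jacobiSym (g11 - 2 * (N * h)) q : ℂ) *
          (((4 * (N * h) : ℤ) : ℂ) * (τ + 1 / 2) + ((g11 - 2 * (N * h) : ℤ) : ℂ)) ^ k *
          H (τ + 1 / 2) := e
    have e2 : (((4 * (N * h) : ℤ) : ℂ) * (τ + 1 / 2) + ((g11 - 2 * (N * h) : ℤ) : ℂ)) = j := by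
      rw [hj]
      push_cast
      ring
    have hj' : jacobiSym (g11 - 2 * (N * h)) q = 1 := by
      rw [← hj11]
      refine jacobiSym.mod_left' ?_
      obtain ⟨t, rfl⟩ := hqN
      have : g11 - 2 * (((q * t : ℕ) : ℤ) * h) = g11 + q * (-2 * t * h) := by
        push_cast
        ring
      rw [this, Int.add_mul_emod_self_left]
    rw [e2, hj'] at e1
    have hl' : (g11 : ℂ) - g00 = 2 * l := by exact_mod_cast congrArg (Int.cast (R := ℂ)) hl
    have e3 : ((((g00 + 2 * (N * h) : ℤ) : ℂ) * (τ + 1 / 2) + ((m + l - N * h : ℤ) : ℂ)) / j) =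
        τ' + 1 / 2 := by
      rw [hτ', div_add_div _ _ hj0 two_ne_zero, div_eq_div_iff hj0 (mul_ne_zero hj0 two_ne_zero)]
      push_cast
      rw [hj]
      linear_combination (-(N * (4 * h) * τ + g11 : ℂ)) * hl'
    rw [e3] at e1
    rw [e1]
    push_cast
    ring

end InvTOAux

/-- For squares of ideals the terms depend on the classes only. -/
theorem stInvTO (h1 : StThT) (h2 : StGch) (_h3 : StRg) : StInvTO := by
  intro q F _ _ s σ χ cj D n φ a a' c c' b b' X X' α α' β β' hD hT hφ hR hR' hac hac' hb hb'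
    hcl hclb
  subst hac hac'
  have hq := hD.prime
  have hbas : StBas := RZ.stBas
  have hreps : StReps := RZ.stReps RZ.stBas (RZ.stBase RZ.stBas)
  obtain ⟨-, -, hcs, -, hxc, hN, -, hun, -, -, -⟩ := hbas q F _ _ s σ χ cj hD
  obtain ⟨-, hW, hthD⟩ := h1 q F _ _ s σ χ cj D n b hD hT hb
  have hthb : ∀ u, thD D σ b' n u = thD D σ b n u := fun u => (hthD b' hb' hclb u).symm
  obtain ⟨-, hG, -, -⟩ := h2 q F _ _ s σ χ cj D hD hT
  obtain ⟨-, -, w, hw, -, hw2⟩ := hG _ hR.mem _ hR'.mem hcl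
  have hβ := hR.odd
  have hβ' := hR'.odd
  have hna := hR.norm
  have hna' := hR'.norm
  rw [hna'] at hw2
  rw [map_pow] at hna hna'
  have hβ0 : (β : 𝓞 F) ≠ 0 := by exact_mod_cast hβ.pos.ne'
  have hβ0' : (β' : 𝓞 F) ≠ 0 := by exact_mod_cast hβ'.pos.ne'
  have hδ0 : Ideal.absNorm c ≠ 0 := by
    intro h0
    rw [h0] at hna
    exact hβ.pos.ne' (by rw [← hna]; norm_num)
  have hδ0' : Ideal.absNorm c' ≠ 0 := by
    intro h0
    rw [h0] at hna'
    exact hβ'.pos.ne' (by rw [← hna']; norm_num)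
  obtain ⟨z, hz0, hzi, hzn⟩ := OInv.exists_z hbas hreps hD hδ0' hδ0
    ⟨w, (β' : 𝓞 F), hw.1, hβ0', hw2.symm⟩
  rw [hna'] at hzi
  have hδo : Odd (Ideal.absNorm c) := by
    rw [← hna] at hβ
    exact Nat.Odd.of_mul_left (n := Ideal.absNorm c) (by rwa [pow_two] at hβ)
  have hδo' : Odd (Ideal.absNorm c') := by
    rw [← hna'] at hβ'
    exact Nat.Odd.of_mul_left (n := Ideal.absNorm c') (by rwa [pow_two] at hβ')
  have hzo : Odd (Ideal.absNorm (Ideal.span {z})) := by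
    rw [hzn]
    exact hδo'.mul hδo
  -- `z ^ 2` is rational modulo `D`
  have hzr : Rat D (z ^ 2) := by
    have hc2 : c' ^ 2 ≠ (⊥ : Ideal (𝓞 F)) := hR'.mem.1
    have e1 : Ideal.span {z ^ 2} = (Ideal.span {w} : Ideal (𝓞 F)) := by
      refine mul_right_cancel₀ hc2 ?_
      rw [hzi, hw2]
    rw [Ideal.span_singleton_eq_span_singleton] at e1
    obtain ⟨e, he⟩ := e1
    rcases hun e e.isUnit with h0 | h0
    · rw [h0, mul_one] at he
      rw [he]
      exact hw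
    · rw [h0] at he
      have : z ^ 2 = -w := by rw [← he]; ring
      rw [this]
      exact rat_neg hw
  obtain ⟨u, v, huv, hnz, P, R, hPR, hP⟩ := OInv.z_form hbas hD hzo
  obtain ⟨y1, y2, y3, y4, hy1, hy2⟩ := InvTOAux.lattice hR hR' hzr hzi
  have hR4 : 2 * u * v = 4 * R := by
    have e1 : ((u ^ 2 - q * v ^ 2 : ℤ) : 𝓞 F) + ((2 * u * v : ℤ) : 𝓞 F) * s =
        ((1 + 4 * P : ℤ) : 𝓞 F) + ((4 * R : ℤ) : 𝓞 F) * s := by
      rw [← hPR, huv]
      push_cast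
      linear_combination (-(v : 𝓞 F) ^ 2) * hD.sq
    exact (OInv.coord hD e1).2
  have hNN : (1 + 4 * P) ^ 2 + q * (4 * R) ^ 2 = β * β' := by
    rw [hzn] at hnz
    have e1 : (β : ℤ) * β' = (u ^ 2 + q * v ^ 2) ^ 2 := by
      rw [hnz, ← hna, ← hna']
      push_cast
      ring
    rw [e1, ← hP, ← hR4]
    ring
  obtain ⟨hdet, ⟨h, rfl⟩, ⟨m, rfl⟩, ⟨l, hl⟩, hd⟩ := InvTOAux.arith hD hT hR.two hR'.two hR.dvd
    hR'.dvd hβ hβ' hR.cop hR'.cop hPR hNN hy1 hy2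
  have hβq : β.Coprime q := Nat.Coprime.coprime_mul_right_right hR.cop
  have hβq' : β'.Coprime q := Nat.Coprime.coprime_mul_right_right hR'.cop
  -- the characters
  have hsqj : ∀ {β δ : ℕ}, β.Coprime q → δ ^ 2 = β → jacobiSym (β : ℤ) q = 1 := by
    intro β δ hβq hδ
    rw [← hδ]
    push_cast
    refine jacobiSym.sq_one' ?_
    rw [Int.gcd_natCast_natCast]
    rw [← hδ] at hβq
    exact (Nat.coprime_pow_left_iff two_pos _ _).mp hβq
  have hju : jacobiSym (u ^ 2) q = 1 := by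
    have hcoN : IsCoprime (u ^ 2 + q * v ^ 2) (q : ℤ) := by
      rw [hnz, hzn, Nat.isCoprime_iff_coprime]
      rw [← hna] at hβq
      rw [← hna'] at hβq'
      exact Nat.Coprime.mul_left ((Nat.coprime_pow_left_iff two_pos _ _).mp hβq')
        ((Nat.coprime_pow_left_iff two_pos _ _).mp hβq)
    refine jacobiSym.sq_one' ?_
    rw [← Int.isCoprime_iff_gcd_eq_one]
    have h5 : IsCoprime (u ^ 2) (q : ℤ) := by
      have := IsCoprime.add_mul_left_left hcoN (-(v ^ 2))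
      have e : u ^ 2 + q * v ^ 2 + q * -(v ^ 2) = u ^ 2 := by ring
      rwa [e] at this
    exact (IsCoprime.pow_left_iff two_pos).mp h5
  have hj4 : jacobiSym y4 q = 1 := by
    have hjj : jacobiSym (y4 * β) q = jacobiSym (u ^ 2) q := by
      obtain ⟨t, ht⟩ := hd
      refine jacobiSym.mod_left' (Int.ModEq.symm ((Int.modEq_iff_dvd).mpr ⟨-t - v ^ 2, ?_⟩))
      linear_combination -ht - hP
    rw [jacobiSym.mul_left, hsqj hβq hna, mul_one, hju] at hjj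
    exact hjj
  have hqC : (q : ℂ) ≠ 0 := by exact_mod_cast hq.ne_zero
  have hDC : (D : ℂ) ≠ 0 := by exact_mod_cast InvTOAux.ne_D hT
  have hβC : (β : ℂ) ≠ 0 := by exact_mod_cast hβ.pos.ne'
  have hβC' : (β' : ℂ) ≠ 0 := by exact_mod_cast hβ'.pos.ne'
  have hzC : σ (z : F) ≠ 0 := by
    intro h0
    rw [map_eq_zero] at h0
    exact hz0 (RingOfIntegers.ext h0)
  have hσ : ∀ m : ℕ, σ (((m : ℕ) : 𝓞 F) : F) = m := by
    intro m
    simp
  have E1 : σ (z : F) ^ 2 * σ (X' : F) =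
      β' * (y1 * σ (X : F) + q * D ^ 2 * m * β) := by
    have := congrArg (fun x : 𝓞 F => σ (x : F)) hy1
    simpa using this
  have E2 : σ (z : F) ^ 2 = 4 * h * σ (X : F) + y4 * β := by
    have := congrArg (fun x : 𝓞 F => σ (x : F)) hy2
    have h4 : σ ((algebraMap (𝓞 F) F) 4) = 4 := by rw [map_ofNat, map_ofNat]
    simpa [h4] using this
  have hqR : (0 : ℝ) < q := by exact_mod_cast hq.pos
  have hDR : (0 : ℝ) < D := by exact_mod_cast Nat.pos_of_ne_zero (InvTOAux.ne_D hT)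
  have him : ∀ {X : 𝓞 F} {α : ℤ} {β : ℕ}, 2 * X = α + D * s → β ≠ 0 →
      (σ (X : F) / (q * D ^ 2 * β)).im = Real.sqrt q / (2 * q * D) / β := by
    intro X α β hX hβ
    have h5 : σ (X : F) + σ (X : F) = α + D * (Complex.I * Real.sqrt q) := by
      rw [two_mul] at hX
      have := congrArg (fun x : 𝓞 F => σ (x : F)) hX
      simpa [hD.im] using this
    have h6 := congrArg Complex.im h5
    simp at h6
    have h7 : ((q : ℂ) * D ^ 2 * β) = ((q * D ^ 2 * β : ℝ) : ℂ) := by push_cast; rfl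
    have hq' : (q : ℝ) ≠ 0 := hqR.ne'
    have hD' : (D : ℝ) ≠ 0 := hDR.ne'
    have hβ' : (β : ℝ) ≠ 0 := by exact_mod_cast hβ
    rw [h7, Complex.div_ofReal_im]
    field_simp
    linarith
  have hI := him hR.two hβ.pos.ne'
  have hI' := him hR'.two hβ'.pos.ne'
  have hsq : 0 < Real.sqrt q := Real.sqrt_pos.mpr (by exact_mod_cast hq.pos)
  have hβR : (0 : ℝ) < β := by exact_mod_cast hβ.pos
  have hβR' : (0 : ℝ) < β' := by exact_mod_cast hβ'.pos
  set τ : ℂ := σ (X : F) / (q * D ^ 2 * β) with hτ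
  set τ' : ℂ := σ (X' : F) / (q * D ^ 2 * β') with hτ'
  have hpos : 0 < τ.im := by
    rw [hI]
    positivity
  have hX1 : σ (X : F) = q * D ^ 2 * β * τ := by
    rw [hτ]
    field_simp
  have hX1' : σ (X' : F) = q * D ^ 2 * β' * τ' := by
    rw [hτ']
    field_simp
  obtain ⟨j, hj⟩ : ∃ j : ℂ, j = ((q * D ^ 2 : ℕ) : ℂ) * (4 * h) * τ + (y4 : ℤ) := ⟨_, rfl⟩
  have J1 : j * β = σ (z : F) ^ 2 := by
    rw [E2, hX1, hj]
    push_cast
    ring
  have hj0 : j ≠ 0 := by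
    rintro rfl
    rw [zero_mul] at J1
    exact pow_ne_zero 2 hzC J1.symm
  have T1 : τ' = ((y1 : ℤ) * τ + m) / j := by
    rw [eq_div_iff hj0]
    refine mul_left_cancel₀ (mul_ne_zero (mul_ne_zero (mul_ne_zero hqC (pow_ne_zero 2 hDC)) hβC')
      hβC) ?_
    rw [hX1, hX1'] at E1
    linear_combination E1 + q * D ^ 2 * β' * τ' * J1
  obtain ⟨S1, S2⟩ := InvTOAux.theta (N := q * D ^ 2) (k := 2 * n + 1) (dvd_mul_right q _)
    (fun γ u hu hγ => hW γ u hu (by exact_mod_cast hγ)) hpos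
    (g00 := y1) (g11 := y4) (h := h) (m := m) (l := l)
    (by push_cast; linear_combination hdet) hl hj4 hj hj0 T1
  have hzz : σ (z : F) * conj (σ (z : F)) = (Ideal.absNorm c' * Ideal.absNorm c : ℕ) := by
    rw [Complex.mul_conj, hN z, hzn]
    simp
  have J2 : conj j * σ (z : F) ^ 2 = β' := by
    refine mul_left_cancel₀ hβC ?_
    have e1 : conj j * β = conj (σ (z : F)) ^ 2 := by
      rw [← map_pow, ← J1, map_mul, map_natCast]
    have e2 : ((Ideal.absNorm c' * Ideal.absNorm c : ℕ) : ℂ) ^ 2 = β * β' := by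
      rw [← hna, ← hna']
      push_cast
      ring
    rw [← hzz] at e2
    linear_combination σ (z : F) ^ 2 * e1 + e2
  have hφβ : ∀ (β δ : ℕ), Odd β → β.Coprime q → δ ^ 2 = β →
      φ (Ideal.span {(β : 𝓞 F)}) = (β : ℂ) ^ (2 * n + 1) := by
    intro β δ hβ hβq hδ
    have h0 : (β : 𝓞 F) ≠ 0 := by exact_mod_cast hβ.pos.ne'
    have e1 : Ideal.absNorm (Ideal.span {(β : 𝓞 F)}) = β ^ 2 := by
      rw [Ideal.absNorm_span_natCast, RingOfIntegers.rank, hD.fin]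
    rw [hφ β β h0 (by simp), e1, hsqj hβq hδ, hσ]
    push_cast
    rw [OInv.c4_sq (by exact_mod_cast hβ)]
    ring
  have hφz : φ (Ideal.span {z ^ 2}) = (σ (z : F) ^ 2) ^ (2 * n + 1) := by
    have e1 : Ideal.absNorm (Ideal.span {z ^ 2}) = (Ideal.absNorm (Ideal.span {z})) ^ 2 := by
      rw [← map_pow, Ideal.span_singleton_pow]
    have e2 : s ∣ z ^ 2 - ((u ^ 2 : ℤ) : 𝓞 F) := by
      rw [huv]
      exact ⟨2 * u * v + v ^ 2 * s, by push_cast; ring⟩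
    rw [hφ (z ^ 2) (u ^ 2) (pow_ne_zero 2 hz0) e2, hju, e1]
    push_cast
    rw [OInv.c4_sq (by exact_mod_cast hzo)]
    simp
  have A3 := congrArg φ hzi
  rw [map_mul, map_mul, hφz, hφβ β' _ hβ' hβq' hna', ← J2] at A3
  have A4 : φ (c' ^ 2) = φ (c ^ 2) * conj j ^ (2 * n + 1) := by
    refine mul_left_cancel₀ (pow_ne_zero (2 * n + 1) (pow_ne_zero 2 hzC)) ?_
    rw [A3]
    ring
  have hcj0 : conj j ≠ 0 := by simpa using hj0
  have hI2 : (β : ℂ) * (τ.im : ℂ) = β' * (τ'.im : ℂ) := by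
    rw [hI, hI']
    push_cast
    field_simp
  unfold GTO
  rw [← hτ, ← hτ', hthb, hthb, S1, S2, hφβ β _ hβ hβq hna, hφβ β' _ hβ' hβq' hna', A4,
    mul_inv]
  have e3 : conj (2 * 4 ^ n * (j ^ (2 * n + 1) * thD D σ b n (4 * τ)) -
      j ^ (2 * n + 1) * thD D σ b n (τ + 1 / 2)) = conj j ^ (2 * n + 1) *
      conj (2 * 4 ^ n * thD D σ b n (4 * τ) - thD D σ b n (τ + 1 / 2)) := by
    rw [← map_pow, ← map_mul]
    congr 1
    ring
  rw [e3]
  have e4 : (β : ℂ) ^ (2 * n + 1) * (τ.im : ℂ) ^ (2 * n + 1) =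
      (β' : ℂ) ^ (2 * n + 1) * (τ'.im : ℂ) ^ (2 * n + 1) := by
    rw [← mul_pow, ← mul_pow, hI2]
  have e5 : (conj j ^ (2 * n + 1))⁻¹ * conj j ^ (2 * n + 1) = 1 :=
    inv_mul_cancel₀ (pow_ne_zero _ hcj0)
  generalize conj (2 * 4 ^ n * thD D σ b n (4 * τ) - thD D σ b n (τ + 1 / 2)) = W
  generalize conj j ^ (2 * n + 1) = J at e5 ⊢
  generalize J⁻¹ = J' at e5 ⊢
  generalize (φ (c ^ 2))⁻¹ = A
  linear_combination A * W * e4 -
    A * W * (β' : ℂ) ^ (2 * n + 1) * (τ'.im : ℂ) ^ (2 * n + 1) * e5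

end Pool.Agent.Lib.MP_7c08ba_nt.CN.TW
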