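import Pool.Agent.Lib.MP_7c08ba_nt.CN.T.StP
import Pool.Agent.Lib.MP_7c08ba_nt.RZ.C.Link
import Pool.Agent.Lib.MP_7c08ba_nt.RZ.C.Odd

set_option autoImplicit false

/-!
Project TW, (V5): `1/j` of a lattice which contains the given one with odd index.
-/

namespace Pool.Agent.Lib.MP_7c08ba_nt.CN.TW

open RZC
open scoped Real

namespace JVAux

theorem coe_ofN {A : ValuationSubring ℂ} (n : ℕ) [n.AtLeastTwo] :
    ((ofNat(n) : A) : ℂ) = ofNat(n) := map_ofNat A.subtype n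

/-- the algebra -/
theorem alg {A : ValuationSubring ℂ} (hA : Above2 A) (j k s1 s2 s3 : A) (J a b : ℂ)
    (ha : a = 1 + 240 * (s1 + 6 * s2) - 1728 * j * (10 * k + 240 * (s1 + 6 * s2)))
    (hb : b = 1 - 504 * (s1 + 30 * s2 + 120 * s3) +
      1728 * j * (35 * k + 1260 * (s1 + 12 * s2 + 48 * s3)))
    (hJ : a ≠ 0 → 1728 * J * a ^ 3 = a ^ 3 - b ^ 2 + 1728 * j * b ^ 2) :
    a ≠ 0 ∧ J - (j + s1 + (s1 : ℂ) ^ 2) ∈ A.nonunits := by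
  obtain ⟨u, hu⟩ : ∃ u : A, u = s1 + 6 * s2 := ⟨_, rfl⟩
  obtain ⟨v, hv⟩ : ∃ v : A, v = s1 + 12 * s2 + 48 * s3 := ⟨_, rfl⟩
  obtain ⟨w₁, hw₁⟩ : ∃ w₁ : A, w₁ = 15 * s2 + 60 * s3 := ⟨_, rfl⟩
  obtain ⟨w, hw⟩ : ∃ w : A, w = s1 + 2 * w₁ := ⟨_, rfl⟩
  obtain ⟨P, hP⟩ : ∃ P : A, P = 135 * j * k + 3240 * j * u := ⟨_, rfl⟩
  obtain ⟨Q, hQ⟩ : ∃ Q : A, Q = 945 * j * k + 34020 * j * v := ⟨_, rfl⟩
  obtain ⟨a₁, ha₁⟩ : ∃ a₁ : A, a₁ = 120 * u - 64 * P := ⟨_, rfl⟩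
  obtain ⟨b₁, hb₁⟩ : ∃ b₁ : A, b₁ = - 252 * w + 32 * Q := ⟨_, rfl⟩
  obtain ⟨c₁, hc₁⟩ : ∃ c₁ : A, c₁ = 13 + 81 * a₁ + 162 * a₁ ^ 2 + 108 * a₁ ^ 3 := ⟨_, rfl⟩
  obtain ⟨t, ht⟩ : ∃ t : A, t = 1350 * u ^ 2 + 108000 * u ^ 3 - 3 * P * (1 + 240 * u) ^ 2 +
      384 * P ^ 2 * (1 + 240 * u) - 16384 * P ^ 3 - (Q - 504 * w * Q + 32 * Q ^ 2) +
      270 * s2 + 945 * s3 := ⟨_, rfl⟩
  obtain ⟨T, hT⟩ : ∃ T : A, T = t + (13 - c₁) * s1 + (- 1985 * s1 ^ 2 - c₁ * s1 ^ 2 -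
      7938 * (s1 * w₁ + w₁ ^ 2)) + j * (13 + 54 * (b₁ + b₁ ^ 2) - c₁) := ⟨_, rfl⟩
  have ca : a = 1 + 2 * (a₁ : ℂ) := by
    rw [ha, ha₁, hP, hu]
    push_cast
    simp only [coe_ofN]
    ring
  have cb : b = 1 + 2 * (b₁ : ℂ) := by
    rw [hb, hb₁, hQ, hw, hw₁, hv]
    push_cast
    simp only [coe_ofN]
    ring
  have cc : 27 * a ^ 3 = 1 + 2 * (c₁ : ℂ) := by
    rw [ca, hc₁]
    push_cast
    simp only [coe_ofN]
    ring
  have h2 : ∀ x : A, 2 * (x : ℂ) ∈ A.nonunits := fun x => nonunits_mul_right hA x.2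
  have ua := unit_of_sub_one (x := a) (A := A) (by
    rw [ca, add_sub_cancel_left]
    exact h2 a₁)
  have uc := unit_of_sub_one (x := 27 * a ^ 3) (A := A) (by
    rw [cc, add_sub_cancel_left]
    exact h2 c₁)
  refine ⟨ua.2.2.1, nonunits_of_mul_unit uc.2.2.2 uc.2.2.1 ?_⟩
  have key : 27 * a ^ 3 * (J - (j + s1 + (s1 : ℂ) ^ 2)) = 2 * (T : ℂ) := by
    have hJ' := hJ ua.2.2.1
    have e1 : a ^ 3 - b ^ 2 = 128 * (t : ℂ) + 1728 * s1 - 254016 * (w : ℂ) ^ 2 := by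
      rw [ca, cb, ht, ha₁, hb₁]
      have e2 : (w : ℂ) = s1 + 30 * s2 + 120 * s3 := by
        rw [hw, hw₁]
        push_cast
        simp only [coe_ofN]
        ring
      push_cast
      simp only [coe_ofN]
      rw [e2, show (u : ℂ) = s1 + 6 * s2 by rw [hu]; push_cast; simp only [coe_ofN]]
      ring
    have e3 : 27 * a ^ 3 * J = 2 * (t : ℂ) + 27 * s1 - 3969 * (w : ℂ) ^ 2 + 27 * j * b ^ 2 := by
      linear_combination hJ' / 64 + e1 / 64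
    have e4 : 27 * a ^ 3 * (J - (j + s1 + (s1 : ℂ) ^ 2)) =
        27 * a ^ 3 * J - 27 * a ^ 3 * (j + s1 + (s1 : ℂ) ^ 2) := by ring
    rw [e4, e3, cc, cb, hT, hw]
    push_cast
    simp only [coe_ofN]
    ring
  rw [key]
  exact h2 T

/-- half of the sum of an even function -/
theorem half {A : ValuationSubring ℂ} {L M : PeriodPair} {S : Finset ℂ} (hS : RepS L M S)
    (hN : ∃ N : ℕ, Odd N ∧ ∀ z ∈ M.lattice, N * z ∈ L.lattice) (f : ℂ → A)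
    (hf : ∀ z z' : ℂ, z ∈ S → z' ∈ S → - z - z' ∈ L.lattice → f z = f z') :
    ∃ s : A, ∑ Q ∈ S, f Q = 2 * s := by
  have h1 : ∀ Q ∈ S, ∃! Q', Q' ∈ S ∧ - Q - Q' ∈ L.lattice := fun Q hQ =>
    hS.uni (-Q) (neg_mem (hS.mem Q hQ).1) (fun h => (hS.mem Q hQ).2 (by
      simpa using neg_mem h))
  choose! τ h2 h3 using h1
  have h4 : ∀ Q ∈ S, τ (τ Q) = Q := fun Q hQ => by
    have := h3 (τ Q) (h2 Q hQ).1 Q ⟨hQ, by
      have := (h2 Q hQ).2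
      rwa [show -Q - τ Q = - τ Q - Q by ring] at this⟩
    exact this.symm
  have h5 : ∀ Q ∈ S, τ Q ≠ Q := fun Q hQ he => by
    obtain ⟨N, ⟨m, hm⟩, hN⟩ := hN
    have h6 := (h2 Q hQ).2
    rw [he] at h6
    have h7 := hN Q (hS.mem Q hQ).1
    apply (hS.mem Q hQ).2
    have h8 : Q = N * Q + (m : ℤ) • (-Q - Q) := by
      rw [hm, zsmul_eq_mul]
      push_cast
      ring
    rw [h8]
    exact add_mem h7 (zsmul_mem h6 _)
  have h6 : (Ideal.Quotient.mk (Ideal.span {(2 : A)})) (∑ Q ∈ S, f Q) = 0 := by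
    rw [map_sum]
    refine Finset.sum_involution (fun Q _ => τ Q) (fun Q hQ => ?_) (fun Q hQ _ => h5 Q hQ)
      (fun Q hQ => (h2 Q hQ).1) (fun Q hQ => h4 Q hQ)
    rw [← hf Q (τ Q) hQ (h2 Q hQ).1 (h2 Q hQ).2, ← map_add, Ideal.Quotient.eq_zero_iff_mem,
      Ideal.mem_span_singleton]
    exact ⟨f Q, by ring⟩
  rw [Ideal.Quotient.eq_zero_iff_mem, Ideal.mem_span_singleton] at h6
  exact h6

theorem xP_eq {L : PeriodPair} {z z' : ℂ} (h : - z - z' ∈ L.lattice) : xP L z = xP L z' := by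
  have h1 : L.weierstrassP z = L.weierstrassP z' := by
    have h2 := L.weierstrassP_add_coe z' ⟨_, h⟩
    rw [← h2, show z' + (-z - z') = - z by ring, L.weierstrassP_neg]
  rw [xP, xP, h1]

end JVAux

open JVAux in
theorem stJV (h : StVel) : StJV := by
  intro A L M S hA hL hM hS hx hN
  obtain ⟨g2, g3, -⟩ := h L M S hS
  obtain ⟨l2, l3⟩ := stLink L hL.1
  obtain ⟨m2, m3⟩ := stLink M hM
  have n4 := hL.2.1
  have n6 := OddAux.e6_ne hA hL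
  have hπ : (π : ℂ) ≠ 0 := by exact_mod_cast Real.pi_ne_zero
  have dL := OddAux.dl_eq hL.1
  have dM := OddAux.dl_eq hM
  set E4 := e4 L.ω₁ L.ω₂ with hE4
  set E6 := e6 L.ω₁ L.ω₂ with hE6
  have hj : E6 ^ 2 = E4 ^ 3 * (1 - 1728 * jv L.ω₁ L.ω₂) := by
    have e1 : E4 ^ 3 * jv L.ω₁ L.ω₂ = dl L.ω₁ L.ω₂ := by
      rw [jv, ← hE4]
      field_simp
    linear_combination (1728 : ℂ) * e1 + dL
  -- the values of `x`
  classical
  let X : ℂ → A := fun Q => if hQ : xP L Q ∈ A then ⟨xP L Q, hQ⟩ else 0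
  have hX : ∀ Q ∈ S, (X Q : ℂ) = xP L Q := fun Q hQ => by
    simp only [X, dif_pos (hx Q hQ)]
  have hXe : ∀ z z' : ℂ, z ∈ S → z' ∈ S → - z - z' ∈ L.lattice → X z = X z' :=
    fun z z' hz hz' hzz => Subtype.ext (by rw [hX z hz, hX z' hz', xP_eq hzz])
  obtain ⟨k, hk⟩ := half hS hN (fun _ => (1 : A)) (fun _ _ _ _ _ => rfl)
  obtain ⟨s1, h1⟩ := half hS hN X hXe
  obtain ⟨s2, h2⟩ := half hS hN (fun Q => X Q ^ 2) (fun z z' hz hz' hzz => by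
    simp only [hXe z z' hz hz' hzz])
  obtain ⟨s3, h3⟩ := half hS hN (fun Q => X Q ^ 3) (fun z z' hz hz' hzz => by
    simp only [hXe z z' hz hz' hzz])
  have ck : (S.card : ℂ) = 2 * k := by
    have := congrArg (Subtype.val : A → ℂ) hk
    push_cast at this
    simp only [coe_ofN] at this
    simpa using this
  have c1 : ∑ Q ∈ S, xP L Q = 2 * s1 := by
    have := congrArg (Subtype.val : A → ℂ) h1
    push_cast at this
    simp only [coe_ofN] at this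
    rw [← this]
    exact Finset.sum_congr rfl fun Q hQ => (hX Q hQ).symm
  have c2 : ∑ Q ∈ S, xP L Q ^ 2 = 2 * s2 := by
    have := congrArg (Subtype.val : A → ℂ) h2
    push_cast at this
    simp only [coe_ofN] at this
    rw [← this]
    exact Finset.sum_congr rfl fun Q hQ => by rw [hX Q hQ]
  have c3 : ∑ Q ∈ S, xP L Q ^ 3 = 2 * s3 := by
    have := congrArg (Subtype.val : A → ℂ) h3
    push_cast at this
    simp only [coe_ofN] at this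
    rw [← this]
    exact Finset.sum_congr rfl fun Q hQ => by rw [hX Q hQ]
  have hP : ∀ z, L.weierstrassP z = (-(4 * (π : ℂ) ^ 2 * E6 / E4)) * (xP L z + 1 / 12) := by
    intro z
    rw [xP, ← hE4, ← hE6]
    field_simp
    ring
  have p1 : ∑ Q ∈ S, L.weierstrassP Q = (-(4 * (π : ℂ) ^ 2 * E6 / E4)) * (2 * s1 + k / 6) := by
    simp_rw [hP]
    rw [← Finset.mul_sum, Finset.sum_add_distrib, c1, Finset.sum_const, nsmul_eq_mul, ck]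
    ring
  have p2 : ∑ Q ∈ S, L.weierstrassP Q ^ 2 =
      (-(4 * (π : ℂ) ^ 2 * E6 / E4)) ^ 2 * (2 * s2 + s1 / 3 + k / 72) := by
    have : ∀ Q, L.weierstrassP Q ^ 2 = (-(4 * (π : ℂ) ^ 2 * E6 / E4)) ^ 2 *
        (xP L Q ^ 2 + 1 / 6 * xP L Q + 1 / 144) := fun Q => by
      rw [hP]
      ring
    simp_rw [this]
    rw [← Finset.mul_sum, Finset.sum_add_distrib, Finset.sum_add_distrib, ← Finset.mul_sum, c1, c2,
      Finset.sum_const, nsmul_eq_mul, ck]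
    ring
  have p3 : ∑ Q ∈ S, L.weierstrassP Q ^ 3 =
      (-(4 * (π : ℂ) ^ 2 * E6 / E4)) ^ 3 * (2 * s3 + s2 / 2 + s1 / 24 + k / 864) := by
    have : ∀ Q, L.weierstrassP Q ^ 3 = (-(4 * (π : ℂ) ^ 2 * E6 / E4)) ^ 3 *
        (xP L Q ^ 3 + 1 / 4 * xP L Q ^ 2 + 1 / 48 * xP L Q + 1 / 1728) := fun Q => by
      rw [hP]
      ring
    simp_rw [this]
    rw [← Finset.mul_sum, Finset.sum_add_distrib, Finset.sum_add_distrib, Finset.sum_add_distrib,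
      ← Finset.mul_sum, ← Finset.mul_sum, c1, c2, c3, Finset.sum_const, nsmul_eq_mul, ck]
    ring
  obtain ⟨j, hjj⟩ : ∃ j : A, (j : ℂ) = jv L.ω₁ L.ω₂ := ⟨⟨_, hL.2.2⟩, rfl⟩
  rw [← hjj] at hj
  obtain ⟨a, ha⟩ : ∃ a : ℂ, a = 1 + 240 * (s1 + 6 * s2) -
    1728 * j * (10 * k + 240 * (s1 + 6 * s2)) := ⟨_, rfl⟩
  obtain ⟨b, hb⟩ : ∃ b : ℂ, b = 1 - 504 * (s1 + 30 * s2 + 120 * s3) +
      1728 * j * (35 * k + 1260 * (s1 + 12 * s2 + 48 * s3)) := ⟨_, rfl⟩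
  have a4 : e4 M.ω₁ M.ω₂ = a * E4 := by
    have e1 : 4 * (π : ℂ) ^ 4 / 3 * e4 M.ω₁ M.ω₂ = 4 * (π : ℂ) ^ 4 / 3 * (a * E4) := by
      rw [← m2, g2, l2, ck, p2]
      have e2 : 60 * ((-(4 * (π : ℂ) ^ 2 * E6 / E4)) ^ 2 * (2 * s2 + s1 / 3 + k / 72)) =
          60 * (16 * (π : ℂ) ^ 4 * (E4 * (1 - 1728 * j)) * (2 * s2 + s1 / 3 + k / 72)) := by
        have e3 : (-(4 * (π : ℂ) ^ 2 * E6 / E4)) ^ 2 = 16 * (π : ℂ) ^ 4 * (E4 * (1 - 1728 * j)) := by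
          have : (-(4 * (π : ℂ) ^ 2 * E6 / E4)) ^ 2 = 16 * (π : ℂ) ^ 4 * (E6 ^ 2 / E4 ^ 2) := by
            ring
          rw [this, hj]
          field_simp
        rw [e3]
      rw [e2, ha]
      ring
    exact mul_left_cancel₀ (by simp [hπ]) e1
  have a6 : e6 M.ω₁ M.ω₂ = b * E6 := by
    have e1 : 8 * (π : ℂ) ^ 6 / 27 * e6 M.ω₁ M.ω₂ = 8 * (π : ℂ) ^ 6 / 27 * (b * E6) := by
      rw [← m3, g3, l3, l2, ck, p1, p3]
      have e3 : (-(4 * (π : ℂ) ^ 2 * E6 / E4)) ^ 3 = - 64 * (π : ℂ) ^ 6 * (E6 * (1 - 1728 * j)) := by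
        have : (-(4 * (π : ℂ) ^ 2 * E6 / E4)) ^ 3 = - 64 * (π : ℂ) ^ 6 * (E6 * (E6 ^ 2 / E4 ^ 3)) := by
          ring
        rw [this, hj]
        field_simp
      have e4' : 21 * (4 * (π : ℂ) ^ 4 / 3 * E4) * ((-(4 * (π : ℂ) ^ 2 * E6 / E4)) *
          (2 * s1 + k / 6)) = - 112 * (π : ℂ) ^ 6 * E6 * (2 * s1 + k / 6) := by
        field_simp
        ring
      rw [e3, e4', hb]
      ring
    exact mul_left_cancel₀ (by simp [hπ]) e1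
  have hJ : a ≠ 0 → 1728 * jv M.ω₁ M.ω₂ * a ^ 3 = a ^ 3 - b ^ 2 + 1728 * j * b ^ 2 := by
    intro ha0
    rw [jv, a4]
    rw [a4, a6] at dM
    field_simp
    rw [dM]
    linear_combination (- b ^ 2) * hj
  obtain ⟨-, h9⟩ := alg hA j k s1 s2 s3 (jv M.ω₁ M.ω₂) a b ha hb hJ
  rw [c1, show (1 / 2 : ℂ) * (2 * s1) = s1 by ring]
  refine ⟨s1.2, ?_⟩
  rw [← hjj]
  exact h9

end Pool.Agent.Lib.MP_7c08ba_nt.CN.TW
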