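import Pool.Agent.Lib.MP_7c08ba_nt.CN.T.StP
import Pool.Agent.Lib.MP_7c08ba_nt.CN.RepM
import Pool.Agent.Lib.MP_7c08ba_nt.RZ.C.Sum
import Pool.Agent.Lib.MP_7c08ba_nt.RZ.C.Lat

set_option autoImplicit false

/-!
Project TW, (J7): the sum of `1/j` over the principal genus.
-/

namespace Pool.Agent.Lib.MP_7c08ba_nt.CN.TW

open NumberField IsDedekindDomain Polynomial RZC RZC.SumAux
open scoped nonZeroDivisors ComplexConjugate

namespace JsTAux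

section

variable {F : Type} [Field F] [NumberField F] {σ : F →+* ℂ} {D : ℕ}

/-! ### lattices of ideals in the same ring class -/

theorem latD_tr {I J : Ideal (𝓞 F)} {x y : 𝓞 F} (hx : Rat D x) (hy : Rat D y)
    (h : Ideal.span {x} * I = Ideal.span {y} * J) {u : 𝓞 F} (hu : u ∈ latD D I) :
    ∃ v ∈ latD D J, x * u = y * v := by
  obtain ⟨hu1, cu, ku, hku⟩ := hu
  obtain ⟨-, cx, -, kx, hkx⟩ := hx
  obtain ⟨-, cy, ⟨a, b, hab⟩, ky, hky⟩ := hy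
  have h1 : x * u ∈ Ideal.span {x} * I := Ideal.mem_span_singleton_mul.mpr ⟨u, hu1, rfl⟩
  rw [h] at h1
  obtain ⟨v, hv, hxv⟩ := Ideal.mem_span_singleton_mul.mp h1
  refine ⟨v, ⟨hv, a * cx * cu, ?_⟩, hxv.symm⟩
  have hab' : (a : 𝓞 F) * cy + b * D = 1 := by exact_mod_cast congrArg (Int.cast : ℤ → 𝓞 F) hab
  refine ⟨b * v - a * ky * v + a * (kx * u + cx * ku), ?_⟩
  push_cast
  linear_combination (-v) * hab' - (a : 𝓞 F) * v * hky + (a : 𝓞 F) * u * hkx +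
    (a : 𝓞 F) * cx * hku + (a : 𝓞 F) * hxv

theorem IsBD.tr {I J : Ideal (𝓞 F)} {x y : 𝓞 F} (hx : Rat D x) (hy : Rat D y)
    (h : Ideal.span {x} * I = Ideal.span {y} * J) {w₁ w₂ : ℂ} (hw : IsBD D σ I w₁ w₂) :
    IsBD D σ J (σ (x : F) / σ (y : F) * w₁) (σ (x : F) / σ (y : F) * w₂) := by
  have hx0 : σ (x : F) ≠ 0 := sigma_ne hx.1
  have hy0 : σ (y : F) ≠ 0 := sigma_ne hy.1
  have ht : σ (x : F) / σ (y : F) ≠ 0 := div_ne_zero hx0 hy0
  have hmul : ∀ a b : 𝓞 F, σ ((a * b : 𝓞 F) : F) = σ (a : F) * σ (b : F) := by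
    intro a b
    rw [RingOfIntegers.coe_eq_algebraMap, map_mul (algebraMap (𝓞 F) F), map_mul σ]
  refine ⟨(pos_smul ht).mpr hw.1, ?_⟩
  intro z
  obtain ⟨t, rfl⟩ : ∃ t, z = σ (x : F) / σ (y : F) * t :=
    ⟨z / (σ (x : F) / σ (y : F)), by field_simp⟩
  rw [mem_lat_smul ht, hw.2]
  constructor
  · rintro ⟨u, hu, rfl⟩
    obtain ⟨v, hv, huv⟩ := latD_tr hx hy h hu
    refine ⟨v, hv, ?_⟩
    have h1 := congrArg (fun a : 𝓞 F => σ (a : F)) huv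
    simp only [hmul] at h1
    field_simp
    rw [h1]
    ring
  · rintro ⟨v, hv, hvt⟩
    obtain ⟨u, hu, huv⟩ := latD_tr hy hx h.symm hv
    refine ⟨u, hu, ?_⟩
    have h1 := congrArg (fun a : 𝓞 F => σ (a : F)) huv
    simp only [hmul] at h1
    rw [hvt] at h1
    have h2 : σ (x : F) * t = σ (x : F) * σ (u : F) := by
      rw [← h1]
      field_simp
    exact (mul_left_cancel₀ hx0 h2).symm

theorem isBD_one (a : Ideal (𝓞 F)) (w₁ w₂ : ℂ) : IsBD 1 σ a w₁ w₂ ↔ IsB σ a w₁ w₂ := by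
  have h : ∀ x : 𝓞 F, x ∈ latD 1 a ↔ x ∈ a := fun x =>
    ⟨fun hx => hx.1, fun hx => ⟨hx, 0, by rw [Nat.cast_one]; exact one_dvd _⟩⟩
  unfold IsBD IsB
  constructor
  · rintro ⟨h1, h2⟩
    refine ⟨h1, fun z => (h2 z).trans ⟨?_, ?_⟩⟩
    · rintro ⟨x, hx, hz⟩
      exact ⟨x, (h x).1 hx, hz⟩
    · rintro ⟨x, hx, hz⟩
      exact ⟨x, (h x).2 hx, hz⟩
  · rintro ⟨h1, h2⟩
    refine ⟨h1, fun z => (h2 z).trans ⟨?_, ?_⟩⟩
    · rintro ⟨x, hx, hz⟩
      exact ⟨x, (h x).2 hx, hz⟩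
    · rintro ⟨x, hx, hz⟩
      exact ⟨x, (h x).1 hx, hz⟩

theorem twA_one (q : ℕ) : TwA q 1 :=
  ⟨squarefree_one, fun r hr h => absurd (Nat.dvd_one.1 h) hr.one_lt.ne',
    fun r hr h => absurd (Nat.dvd_one.1 h) hr.one_lt.ne'⟩

theorem mem_idp_one {a : Ideal (𝓞 F)} (ha : a ≠ ⊥) : a ∈ idp (F := F) 1 := by
  refine ⟨ha, ?_⟩
  rw [Nat.cast_one, Ideal.span_singleton_one, ← Ideal.one_eq_top]
  exact isCoprime_one_right

/-! ### the weighted sums -/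

theorem TE_congr {ε ε' : ℕ → ℤ} (h : ∀ r ∈ D.primeFactors, ε r = ε' r) (c : Ideal (𝓞 F)) :
    TE D σ ε c = TE D σ ε' c := by
  have h1 : wE D ε = wE D ε' := by
    funext N
    unfold wE
    exact Finset.prod_congr rfl fun r hr => by rw [h r hr]
  unfold TE
  rw [h1]

/-- ideals prime to `D` in the same class -/
theorem exists_mul_eq {I J : Ideal (𝓞 F)} (hR : ∀ I : Ideal (𝓞 F), I ∈ idp (F := F) D ↔
      I ≠ ⊥ ∧ (Ideal.absNorm I).Coprime D) (hI : I ∈ idp (F := F) D) (hJ : J ∈ idp (F := F) D)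
    (h : ClassGroup.mk0 (⟨I, mem_nonZeroDivisors_of_ne_zero hI.1⟩ : (Ideal (𝓞 F))⁰) =
      ClassGroup.mk0 ⟨J, mem_nonZeroDivisors_of_ne_zero hJ.1⟩) :
    ∃ a b : 𝓞 F, Ideal.span {a} ∈ idp (F := F) D ∧ Ideal.span {b} ∈ idp (F := F) D ∧
      Ideal.span {a} * I = Ideal.span {b} * J := by
  obtain ⟨-, hN⟩ := (hR J).1 hJ
  have hN0 : Ideal.absNorm J ≠ 0 := by
    rw [Ne, Ideal.absNorm_eq_zero_iff]
    exact hJ.1
  have hdvd : J ∣ Ideal.span {((Ideal.absNorm J : ℕ) : 𝓞 F)} := by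
    rw [Ideal.dvd_span_singleton]
    exact Ideal.absNorm_mem J
  obtain ⟨J', hJ'⟩ := hdvd
  have ha : Ideal.span {((Ideal.absNorm J : ℕ) : 𝓞 F)} ∈ idp (F := F) D := by
    refine ⟨?_, ?_⟩
    · rw [Ne, Ideal.zero_eq_bot.symm, Ideal.zero_eq_bot, Ideal.span_singleton_eq_bot]
      exact_mod_cast hN0
    · rw [Ideal.isCoprime_span_singleton_iff]
      have := (Nat.isCoprime_iff_coprime.2 hN).map (Int.castRingHom (𝓞 F))
      simpa using this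
  have hJ'2 : J' ∈ idp (F := F) D := by
    refine ⟨?_, ?_⟩
    · rintro rfl
      apply ha.1
      rw [hJ', Ideal.mul_bot]
    · have h1 := ha.2
      rw [hJ'] at h1
      exact h1.of_mul_left_right
  have hp : ClassGroup.mk0 (⟨I * J', mem_nonZeroDivisors_of_ne_zero
      (mul_ne_zero hI.1 hJ'2.1)⟩ : (Ideal (𝓞 F))⁰) = 1 := by
    have e1 : (⟨I * J', mem_nonZeroDivisors_of_ne_zero (mul_ne_zero hI.1 hJ'2.1)⟩ :
        (Ideal (𝓞 F))⁰) = ⟨I, mem_nonZeroDivisors_of_ne_zero hI.1⟩ *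
          ⟨J', mem_nonZeroDivisors_of_ne_zero hJ'2.1⟩ := rfl
    have e2 : (⟨J, mem_nonZeroDivisors_of_ne_zero hJ.1⟩ : (Ideal (𝓞 F))⁰) *
          ⟨J', mem_nonZeroDivisors_of_ne_zero hJ'2.1⟩ =
        ⟨Ideal.span {((Ideal.absNorm J : ℕ) : 𝓞 F)}, mem_nonZeroDivisors_of_ne_zero ha.1⟩ :=
      Subtype.ext hJ'.symm
    rw [e1, map_mul, h, ← map_mul, e2, ClassGroup.mk0_eq_one_iff]
    exact ⟨⟨_, rfl⟩⟩
  obtain ⟨b, hb⟩ := (ClassGroup.mk0_eq_one_iff _).mp hp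
  have hb' : I * J' = Ideal.span {b} := hb
  refine ⟨((Ideal.absNorm J : ℕ) : 𝓞 F), b, ha, ?_, ?_⟩
  · rw [← hb']
    exact (idp D).mul_mem hI hJ'2
  · rw [hJ', ← hb']
    ring

theorem cls_mul (c : ClassGroup (𝓞 F) → (Ideal (𝓞 F))⁰) (hc1 : ∀ C, ClassGroup.mk0 (c C) = C)
    (p : ClassGroup (𝓞 F)) {P' : Ideal (𝓞 F)} (hP' : P' ≠ ⊥)
    (hp : p = ClassGroup.mk0 (⟨P', mem_nonZeroDivisors_of_ne_zero hP'⟩ : (Ideal (𝓞 F))⁰))
    (C₀ : ClassGroup (𝓞 F)) (hm : P' * (c C₀ : Ideal (𝓞 F)) ≠ ⊥)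
    (hm' : (c (p * C₀) : Ideal (𝓞 F)) ≠ ⊥) :
    ClassGroup.mk0 (⟨P' * (c C₀ : Ideal (𝓞 F)), mem_nonZeroDivisors_of_ne_zero hm⟩ :
      (Ideal (𝓞 F))⁰) =
    ClassGroup.mk0 (⟨(c (p * C₀) : Ideal (𝓞 F)), mem_nonZeroDivisors_of_ne_zero hm'⟩ :
      (Ideal (𝓞 F))⁰) := by
  have e1 : ClassGroup.mk0 ((⟨P', mem_nonZeroDivisors_of_ne_zero hP'⟩ :
      (Ideal (𝓞 F))⁰) * c C₀) = p * C₀ := by
    rw [map_mul, hc1, hp]
  exact e1.trans (hc1 (p * C₀)).symm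

/-! ### calculus modulo the maximal ideal -/

variable {A : ValuationSubring ℂ}

theorem two_mul_mem (hA : Above2 A) {x : ℂ} (hx : x ∈ A) : 2 * x ∈ A.nonunits :=
  nonunits_mul_right hA hx

theorem sq_sum (hA : Above2 A) {ι : Type} (s : Finset ι) (t : ι → ℂ) (ht : ∀ i ∈ s, t i ∈ A) :
    (∑ i ∈ s, t i) ∈ A ∧ (∑ i ∈ s, t i) ^ 2 - ∑ i ∈ s, t i ^ 2 ∈ A.nonunits := by
  classical
  induction s using Finset.induction_on with
  | empty =>
    refine ⟨by rw [Finset.sum_empty]; exact A.zero_mem, ?_⟩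
    rw [Finset.sum_empty, Finset.sum_empty]
    have : (0 : ℂ) ^ 2 - 0 = 0 := by ring
    rw [this]
    exact zero_nonunits
  | insert a s ha ih =>
    obtain ⟨h1, h2⟩ := ih fun i hi => ht i (Finset.mem_insert_of_mem hi)
    have h3 := ht a (Finset.mem_insert_self _ _)
    rw [Finset.sum_insert ha, Finset.sum_insert ha]
    refine ⟨A.add_mem _ _ h3 h1, ?_⟩
    have h4 : (t a + ∑ i ∈ s, t i) ^ 2 - (t a ^ 2 + ∑ i ∈ s, t i ^ 2) =
        ((∑ i ∈ s, t i) ^ 2 - ∑ i ∈ s, t i ^ 2) + 2 * (t a * ∑ i ∈ s, t i) := by ring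
    rw [h4]
    exact nonunits_add h2 (two_mul_mem hA (A.mul_mem _ _ h3 h1))

/-! ### signs -/

open Classical in
/-- the signs which are `-1` on `S` -/
noncomputable def sgS (S : Finset ℕ) (r : ℕ) : ℤ := if r ∈ S then -1 else 1

theorem sg_or (S : Finset ℕ) (r : ℕ) : sgS S r = 1 ∨ sgS S r = -1 := by
  unfold sgS
  split_ifs
  · exact Or.inr rfl
  · exact Or.inl rfl

theorem sg_insert (S : Finset ℕ) (r : ℕ) (hr : r ∉ S) :
    Function.update (sgS S) r (-sgS S r) = sgS (insert r S) := by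
  funext t
  by_cases h : t = r
  · subst h
    rw [Function.update_self]
    unfold sgS
    rw [if_neg hr, if_pos (Finset.mem_insert_self _ _)]
  · rw [Function.update_of_ne h]
    unfold sgS
    have h1 : t ∈ insert r S ↔ t ∈ S := by
      rw [Finset.mem_insert]
      exact or_iff_right h
    by_cases h2 : t ∈ S
    · rw [if_pos h2, if_pos (h1.2 h2)]
    · rw [if_neg h2, if_neg fun h3 => h2 (h1.1 h3)]

/-- the number of the primes congruent to 5 is even -/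
theorem even_card {q D : ℕ} (hT : TwA q D) (hD : D % 8 = 1) :
    Even (D.primeFactors.filter fun r => r % 8 = 5).card := by
  have h1 : ∏ r ∈ D.primeFactors, r = D := Nat.prod_primeFactors_of_squarefree hT.sqf
  have h2 : ((D : ℕ) : ZMod 8) = 1 := by
    have : ((D : ℕ) : ZMod 8) = ((D % 8 : ℕ) : ZMod 8) := (ZMod.natCast_mod D 8).symm
    rw [this, hD, Nat.cast_one]
  have h3 : ((D : ℕ) : ZMod 8) = ∏ r ∈ D.primeFactors, (if r % 8 = 5 then (5 : ZMod 8) else 1) := by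
    conv_lhs => rw [← h1]
    rw [Nat.cast_prod]
    refine Finset.prod_congr rfl fun r hr => ?_
    have h4 := hT.mod4 r (Nat.prime_of_mem_primeFactors hr) (Nat.dvd_of_mem_primeFactors hr)
    have h5 : ((r : ℕ) : ZMod 8) = ((r % 8 : ℕ) : ZMod 8) := (ZMod.natCast_mod r 8).symm
    split_ifs with h6
    · rw [h5, h6]
      rfl
    · have h7 : r % 8 = 1 := by omega
      rw [h5, h7, Nat.cast_one]
  rw [← Finset.prod_filter, Finset.prod_const] at h3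
  by_contra h4
  rw [Nat.not_even_iff_odd] at h4
  obtain ⟨k, hk⟩ := h4
  rw [h2, hk, pow_add, pow_mul] at h3
  have h5 : (5 : ZMod 8) ^ 2 = 1 := by decide
  rw [h5, one_pow, one_mul, pow_one] at h3
  exact absurd h3 (by decide)

/-- the sum of the numbers `(r ^ 2 - 1) / 8` is even -/
theorem sum_five (hA : Above2 A) (S : Finset ℕ) (hS : ∀ r ∈ S, r % 8 = 5) (hc : Even S.card) :
    ∑ r ∈ S, ((r : ℂ) ^ 2 - 1) / 8 ∈ A.nonunits := by
  have h1 : ∀ r ∈ S, ((r : ℂ) ^ 2 - 1) / 8 = 2 * ((4 * (r / 8) ^ 2 + 5 * (r / 8) + 1 : ℕ) : ℂ) + 1 := by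
    intro r hr
    have h2 : r = 8 * (r / 8) + 5 := by
      have := Nat.div_add_mod r 8
      have := hS r hr
      omega
    have h3 : (r : ℂ) = 8 * ((r / 8 : ℕ) : ℂ) + 5 := by exact_mod_cast congrArg (Nat.cast : ℕ → ℂ) h2
    rw [h3]
    push_cast
    ring
  rw [Finset.sum_congr rfl h1, Finset.sum_add_distrib, ← Finset.mul_sum, Finset.sum_const,
    nsmul_eq_mul, mul_one, ← Nat.cast_sum]
  refine nonunits_add (two_mul_mem hA (nat_mem _)) ?_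
  have := even_nonunits hA (n := (S.card : ℤ)) (by exact_mod_cast hc)
  simpa using this

end

end JsTAux

open JsTAux in
/-- (J7) the sum of `1/j` over the principal genus -/
theorem stJsT (h1 : StTE) (h2 : StFlip) (h3 : StTsum) (h4 : StJB) (_h5 : StGch) (h6 : StRg)
    (h7 : StFldT) (h8 : StJsum) : StJsT := by
  intro q F _ _ s σ A D R w₁ w₂ hF hA hT hD hR hw
  have hD0 : D ≠ 0 := hT.sqf.ne_zero
  obtain ⟨hfin, -, hidp⟩ := h6 F _ _ D hD0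
  haveI : Finite (GC F D) := Subtype.finite
  haveI : Fintype (GC F D) := Fintype.ofFinite _
  -- representatives
  have hDb : Ideal.span {(D : 𝓞 F)} ≠ ⊥ := by
    rw [Ne, Ideal.span_singleton_eq_bot]
    exact_mod_cast hD0
  have hrep : ∀ C : ClassGroup (𝓞 F), ∃ a : (Ideal (𝓞 F))⁰, ClassGroup.mk0 a = C ∧
      IsCoprime (a : Ideal (𝓞 F)) (Ideal.span {(D : 𝓞 F)}) := fun C =>
    stRepM F inferInstance inferInstance C (Ideal.span {(D : 𝓞 F)}) hDb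
  choose c hc1 hc2 using hrep
  have hc : ∀ C, (c C : Ideal (𝓞 F)) ∈ idp (F := F) D := fun C =>
    ⟨nonZeroDivisors.coe_ne_zero (c C), hc2 C⟩
  obtain ⟨C, y, hy, hodd, hsum⟩ := h3 q F _ _ s σ D hF hT c hc1 hc
  rw [finsum_eq_sum_of_fintype] at hsum ⊢
  -- bases for the maximal order
  obtain ⟨P₀, -, -, hfld⟩ := h7 q F _ _ s σ A hF hA
  obtain ⟨hb1, hb2, -⟩ := hfld 1 (twA_one q)
  have hbas : ∀ C, ∃ v₁ v₂ : ℂ, IsB σ (c C : Ideal (𝓞 F)) v₁ v₂ ∧ jv v₁ v₂ ∈ A := by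
    intro C
    have hm := mem_idp_one (nonZeroDivisors.coe_ne_zero (c C))
    obtain ⟨v₁, v₂, hv⟩ := hb1 _ hm
    exact ⟨v₁, v₂, (isBD_one _ _ _).1 hv, (hb2 _ hm _ _ hv).1.2.2⟩
  choose v₁ v₂ hv hvA using hbas
  -- the values of `1/j`
  have hval : ∀ B, tC D σ (c (C B) : Ideal (𝓞 F)) (y B) ∈ A ∧
      jv (w₁ B) (w₂ B) - (jv (v₁ (C B)) (v₂ (C B)) + tC D σ (c (C B) : Ideal (𝓞 F)) (y B) +
        tC D σ (c (C B) : Ideal (𝓞 F)) (y B) ^ 2) ∈ A.nonunits := by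
    intro B
    have hm : Ideal.span {y B} * (c (C B) : Ideal (𝓞 F)) ∈ idp (F := F) D :=
      (idp D).mul_mem (hy B).1 (hc _)
    have hcl : cl D (R B) = cl D (Ideal.span {y B} * (c (C B) : Ideal (𝓞 F))) := by
      rw [(hR B).2, (hy B).2]
    obtain ⟨x, x', hx, hx', hxx⟩ := (cl_eq_iff (hR B).1 hm).1 hcl
    have hw' := IsBD.tr hx hx' hxx (hw B)
    have h10 := h4 q F _ _ s σ A D (c (C B)) (y B) _ _ _ _ hF hA hT (hc _) (hy B).1 (hv _) hw'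
    rw [jv_smul (div_ne_zero (sigma_ne hx.1) (sigma_ne hx'.1))] at h10
    exact h10
  obtain ⟨t, ht⟩ : ∃ t : GC F D → ℂ, t = fun B => tC D σ (c (C B) : Ideal (𝓞 F)) (y B) := ⟨_, rfl⟩
  have htA : ∀ B, t B ∈ A := fun B => by rw [ht]; exact (hval B).1
  have hval2 : ∀ B, jv (w₁ B) (w₂ B) - (jv (v₁ (C B)) (v₂ (C B)) + t B + t B ^ 2) ∈
      A.nonunits := fun B => by rw [ht]; exact (hval B).2
  -- the weighted sums
  obtain ⟨P', hP'n, hTE⟩ := h1 q F _ _ s σ A hF hA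
  obtain ⟨T, hTdef⟩ : ∃ T : ℂ, T = ∑ C₀ : ClassGroup (𝓞 F),
      TE D σ (fun _ => 1) (c C₀ : Ideal (𝓞 F)) := ⟨_, rfl⟩
  have hsumT : ∑ B, t B = T := by rw [hTdef, ← hsum, ht]
  have hone := hTE D (fun _ => 1) hT (fun _ => Or.inl rfl)
  have hTA : ∀ C₀, TE D σ (fun _ => 1) (c C₀ : Ideal (𝓞 F)) ∈ A := fun C₀ =>
    (hone.2 _ (hc C₀)).1
  -- change of the signs
  obtain ⟨S, hS⟩ : ∃ S : Finset ℕ, S = D.primeFactors.filter fun r => r % 8 = 5 := ⟨_, rfl⟩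
  have hflip : ∀ S' : Finset ℕ, S' ⊆ D.primeFactors → ∀ C₀,
      TE D σ (sgS S') (c C₀ : Ideal (𝓞 F)) - TE D σ (fun _ => 1) (c C₀ : Ideal (𝓞 F)) -
        ∑ r ∈ S', ((r : ℂ) ^ 2 - 1) / 8 ∈ A.nonunits := by
    intro S' hS' C₀
    induction S' using Finset.induction_on with
    | empty =>
      have h10 : sgS ∅ = fun _ => 1 := by
        funext r
        unfold sgS
        exact if_neg (Finset.notMem_empty r)
      rw [h10, Finset.sum_empty, sub_self, sub_zero]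
      exact zero_nonunits
    | insert r S' hr ih =>
      have h10 := ih fun x hx => hS' (Finset.mem_insert_of_mem hx)
      have hrD := hS' (Finset.mem_insert_self r S')
      have h11 := h2 q F _ _ s σ A D (sgS S') r (c C₀) hF hA hT (sg_or S')
        (Nat.prime_of_mem_primeFactors hrD) (Nat.dvd_of_mem_primeFactors hrD) (hc C₀)
      rw [sg_insert S' r hr] at h11
      have h12 : TE D σ (sgS S') (c C₀ : Ideal (𝓞 F)) ∈ A :=
        ((hTE D (sgS S') hT (sg_or S')).2 _ (hc C₀)).1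
      rw [Finset.sum_insert hr]
      have h13 : TE D σ (sgS (insert r S')) (c C₀ : Ideal (𝓞 F)) -
          TE D σ (fun _ => 1) (c C₀ : Ideal (𝓞 F)) -
            (((r : ℂ) ^ 2 - 1) / 8 + ∑ r ∈ S', ((r : ℂ) ^ 2 - 1) / 8) =
          (TE D σ (sgS S') (c C₀ : Ideal (𝓞 F)) + TE D σ (sgS (insert r S')) (c C₀ : Ideal (𝓞 F)) -
            ((r : ℂ) ^ 2 - 1) / 8) +
          (TE D σ (sgS S') (c C₀ : Ideal (𝓞 F)) - TE D σ (fun _ => 1) (c C₀ : Ideal (𝓞 F)) -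
            ∑ r ∈ S', ((r : ℂ) ^ 2 - 1) / 8) - 2 * TE D σ (sgS S') (c C₀ : Ideal (𝓞 F)) := by
        ring
      rw [h13]
      exact nonunits_sub (nonunits_add h11 h10) (two_mul_mem hA h12)
  have hSS : S ⊆ D.primeFactors := by
    rw [hS]
    exact Finset.filter_subset _ _
  have hfive : ∑ r ∈ S, ((r : ℂ) ^ 2 - 1) / 8 ∈ A.nonunits := by
    refine sum_five hA S (fun r hr => ?_) ?_
    · rw [hS] at hr
      exact (Finset.mem_filter.1 hr).2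
    · rw [hS]
      exact even_card hT hD
  have hS1 : ∀ C₀, TE D σ (sgS S) (c C₀ : Ideal (𝓞 F)) -
      TE D σ (fun _ => 1) (c C₀ : Ideal (𝓞 F)) ∈ A.nonunits := by
    intro C₀
    have h10 := nonunits_add (hflip S hSS C₀) hfive
    rwa [sub_add_cancel] at h10
  have hjac : ∀ (I : Ideal (𝓞 F)), TE D σ (fun r => 1 * jacobiSym 2 r) I = TE D σ (sgS S) I := by
    intro I
    refine TE_congr (fun r hr => ?_) I
    have hp := Nat.prime_of_mem_primeFactors hr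
    have hm4 := hT.mod4 r hp (Nat.dvd_of_mem_primeFactors hr)
    have ho : Odd r := by
      rw [Nat.odd_iff]
      omega
    rw [one_mul, jacobiSym.at_two ho, ZMod.χ₈_nat_eq_if_mod_eight]
    unfold sgS
    rw [hS]
    have h8 : r % 8 = 1 ∨ r % 8 = 5 := by omega
    rcases h8 with h8 | h8
    · rw [if_neg (by omega), if_pos (Or.inl h8), if_neg]
      rw [Finset.mem_filter]
      rintro ⟨-, h9⟩
      omega
    · rw [if_neg (by omega), if_neg (by omega), if_pos]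
      exact Finset.mem_filter.2 ⟨hr, h8⟩
  -- the Frobenius
  have hP'i : P' ∈ idp (F := F) D := hone.1
  have hfrob : ∀ C₀, TE D σ (sgS S) (P' * (c C₀ : Ideal (𝓞 F))) -
      TE D σ (fun _ => 1) (c C₀ : Ideal (𝓞 F)) ^ 2 ∈ A.nonunits := by
    intro C₀
    have h10 := (hone.2 _ (hc C₀)).2.2
    rwa [hjac] at h10
  obtain ⟨p, hp⟩ : ∃ p : ClassGroup (𝓞 F), p = ClassGroup.mk0
    (⟨P', mem_nonZeroDivisors_of_ne_zero hP'i.1⟩ : (Ideal (𝓞 F))⁰) := ⟨_, rfl⟩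
  have hperm : ∀ C₀, TE D σ (sgS S) (P' * (c C₀ : Ideal (𝓞 F))) =
      TE D σ (sgS S) (c (p * C₀) : Ideal (𝓞 F)) := by
    intro C₀
    have hm : P' * (c C₀ : Ideal (𝓞 F)) ∈ idp (F := F) D := (idp D).mul_mem hP'i (hc C₀)
    have hcls := cls_mul c hc1 p hP'i.1 hp C₀ hm.1 (hc (p * C₀)).1
    obtain ⟨a, b, ha, hb, hab⟩ := exists_mul_eq hidp hm (hc (p * C₀)) hcls
    have hs := hTE D (sgS S) hT (sg_or S)
    rw [← (hs.2 _ hm).2.1 a ha, hab, (hs.2 _ (hc (p * C₀))).2.1 b hb]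
  have hTT : T ^ 2 - T ∈ A.nonunits := by
    have e1 := (sq_sum hA Finset.univ (fun C₀ => TE D σ (fun _ => 1) (c C₀ : Ideal (𝓞 F)))
      fun C₀ _ => hTA C₀).2
    have e2 : ∑ C₀, (TE D σ (sgS S) (P' * (c C₀ : Ideal (𝓞 F))) -
        TE D σ (fun _ => 1) (c C₀ : Ideal (𝓞 F)) ^ 2) ∈ A.nonunits :=
      sum_nonunits _ _ fun C₀ _ => hfrob C₀
    have e3 : ∑ C₀, (TE D σ (sgS S) (c C₀ : Ideal (𝓞 F)) -
        TE D σ (fun _ => 1) (c C₀ : Ideal (𝓞 F))) ∈ A.nonunits :=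
      sum_nonunits _ _ fun C₀ _ => hS1 C₀
    rw [Finset.sum_sub_distrib] at e2 e3
    have e4 : ∑ C₀, TE D σ (sgS S) (P' * (c C₀ : Ideal (𝓞 F))) =
        ∑ C₀, TE D σ (sgS S) (c C₀ : Ideal (𝓞 F)) := by
      rw [Finset.sum_congr rfl fun C₀ _ => hperm C₀]
      exact Fintype.sum_equiv (Equiv.mulLeft p) _ _ fun _ => rfl
    rw [e4] at e2
    rw [← hTdef] at e1 e3
    have e5 := nonunits_add (nonunits_sub e1 e2) e3
    have e6 : T ^ 2 - T = T ^ 2 - ∑ C₀, TE D σ (fun _ => 1) (c C₀ : Ideal (𝓞 F)) ^ 2 -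
        (∑ C₀, TE D σ (sgS S) (c C₀ : Ideal (𝓞 F)) -
          ∑ C₀, TE D σ (fun _ => 1) (c C₀ : Ideal (𝓞 F)) ^ 2) +
        (∑ C₀, TE D σ (sgS S) (c C₀ : Ideal (𝓞 F)) - T) := by ring
    rw [e6]
    exact e5
  -- the sum of the values for the maximal order
  have hmax : ∑ B, jv (v₁ (C B)) (v₂ (C B)) - 1 ∈ A.nonunits := by
    classical
    have e1 : ∑ C₀, jv (v₁ C₀) (v₂ C₀) - 1 ∈ A.nonunits :=
      h8 q F _ _ (s : F) σ A hF hA c v₁ v₂ hc1 hv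
    have e2 : ∑ B, jv (v₁ (C B)) (v₂ (C B)) =
        ∑ C₀, (Nat.card {B // C B = C₀} : ℂ) * jv (v₁ C₀) (v₂ C₀) := by
      rw [← Finset.sum_fiberwise Finset.univ C fun B => jv (v₁ (C B)) (v₂ (C B))]
      refine Finset.sum_congr rfl fun C₀ _ => ?_
      have e3 : ∀ B ∈ Finset.univ.filter fun B => C B = C₀,
          jv (v₁ (C B)) (v₂ (C B)) = jv (v₁ C₀) (v₂ C₀) := by
        intro B hB
        rw [(Finset.mem_filter.1 hB).2]
      rw [Finset.sum_congr rfl e3, Finset.sum_const, nsmul_eq_mul]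
      congr 2
      rw [Nat.card_eq_fintype_card, Fintype.card_subtype]
    have e4 : ∑ C₀, ((Nat.card {B // C B = C₀} : ℂ) - 1) * jv (v₁ C₀) (v₂ C₀) ∈
        A.nonunits := by
      refine sum_nonunits _ _ fun C₀ _ => ?_
      refine nonunits_mul_right ?_ (hvA C₀)
      have e5 := odd_sub_one hA (n := (Nat.card {B // C B = C₀} : ℤ))
        (by exact_mod_cast hodd C₀)
      simpa using e5
    have e5 := nonunits_add e4 e1
    have e6 : ∑ B, jv (v₁ (C B)) (v₂ (C B)) - 1 =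
        ∑ C₀, ((Nat.card {B // C B = C₀} : ℂ) - 1) * jv (v₁ C₀) (v₂ C₀) +
          (∑ C₀, jv (v₁ C₀) (v₂ C₀) - 1) := by
      rw [e2]
      simp only [sub_mul, one_mul, Finset.sum_sub_distrib]
      ring
    rw [e6]
    exact e5
  -- the end
  have f1 : ∑ B, (jv (w₁ B) (w₂ B) - (jv (v₁ (C B)) (v₂ (C B)) + t B + t B ^ 2)) ∈
      A.nonunits := sum_nonunits _ _ fun B _ => hval2 B
  rw [Finset.sum_sub_distrib, Finset.sum_add_distrib, Finset.sum_add_distrib, hsumT] at f1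
  have f2 := sq_sum hA Finset.univ t fun B _ => htA B
  rw [hsumT] at f2
  have f3 := two_mul_mem hA f2.1
  have f4 := nonunits_add (nonunits_sub (nonunits_add (nonunits_add f1 hmax) hTT) f2.2) f3
  have f5 : ∑ B, jv (w₁ B) (w₂ B) - 1 =
      ∑ B, jv (w₁ B) (w₂ B) - (∑ B, jv (v₁ (C B)) (v₂ (C B)) + T + ∑ B, t B ^ 2) +
        (∑ B, jv (v₁ (C B)) (v₂ (C B)) - 1) + (T ^ 2 - T) - (T ^ 2 - ∑ B, t B ^ 2) +
          2 * T := by ring
  rw [f5]
  exact f4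

end Pool.Agent.Lib.MP_7c08ba_nt.CN.TW
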