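import Pool.Agent.Lib.MP_7c08ba_nt.CN.T.StZ
import Pool.Agent.Lib.MP_7c08ba_nt.RZ.Bas

set_option autoImplicit false

/-!
Project TW, module (Z6): the values of the Eisenstein series at the points `u + c / D`.
-/

namespace Pool.Agent.Lib.MP_7c08ba_nt.CN.TW

open NumberField IsDedekindDomain Polynomial Pool.Agent.Lib.MP_7c08ba_nt.RZ
open scoped nonZeroDivisors ComplexConjugate

namespace LnkAux

section arith

variable {q : ℕ} {F : Type} [Field F] [NumberField F] {s : 𝓞 F} {σ : F →+* ℂ}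
  {χ : DirichletCharacter ℂ q} {cj : 𝓞 F ≃+* 𝓞 F}

lemma sqrt_pos (d : Dat q s σ χ cj) : 0 < Real.sqrt q :=
  Real.sqrt_pos.2 (by exact_mod_cast d.prime.pos)

/-- `1`, `s` are independent -/
lemma indep (d : Dat q s σ χ cj) {A B : ℤ} (h : (A : 𝓞 F) + B * s = 0) : A = 0 ∧ B = 0 := by
  have h1 : σ (((A : 𝓞 F) + B * s : 𝓞 F) : F) = 0 := by
    rw [h]
    simp
  have h2 : (A : ℂ) + B * (Complex.I * Real.sqrt q) = 0 := by
    rw [← h1, ← d.im]
    simp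
  have hi := congrArg Complex.im h2
  have hr := congrArg Complex.re h2
  have hs := sqrt_pos d
  have e1 : ((A : ℂ) + B * (Complex.I * Real.sqrt q)).im = (B : ℝ) * Real.sqrt q := by
    simp
  have e2 : ((A : ℂ) + B * (Complex.I * Real.sqrt q)).re = (A : ℝ) := by
    simp
  rw [e1, Complex.zero_im] at hi
  rw [e2, Complex.zero_re] at hr
  refine ⟨by exact_mod_cast hr, ?_⟩
  rcases mul_eq_zero.1 hi with h3 | h3
  · exact_mod_cast h3
  · exact absurd h3 hs.ne'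

lemma cop_two {D : ℕ} (hD : Odd D) : IsCoprime (D : ℤ) 2 := by
  obtain ⟨k, hk⟩ := hD
  exact ⟨1, -k, by rw [hk]; push_cast; ring⟩

lemma key (d : Dat q s σ χ cj) {D : ℕ} (hD : Odd D) {A B : ℤ}
    (h : (D : 𝓞 F) ∣ (A : 𝓞 F) + B * s) : (D : ℤ) ∣ A ∧ (D : ℤ) ∣ B := by
  obtain ⟨y, hy⟩ := h
  obtain ⟨a, b, hab, -⟩ := (stBas q F _ _ s σ χ cj d).1 y
  have h1 : ((2 * A - D * a : ℤ) : 𝓞 F) + ((2 * B - D * b : ℤ) : 𝓞 F) * s = 0 := by
    push_cast
    linear_combination 2 * hy + (D : 𝓞 F) * hab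
  obtain ⟨e1, e2⟩ := indep d h1
  have c := cop_two hD
  exact ⟨c.dvd_of_dvd_mul_left ⟨a, by linarith⟩, c.dvd_of_dvd_mul_left ⟨b, by linarith⟩⟩

lemma half {D : ℕ} (hD : Odd D) {x : 𝓞 F} (h : (D : 𝓞 F) ∣ 2 * x) : (D : 𝓞 F) ∣ x := by
  obtain ⟨k, hk⟩ := hD
  obtain ⟨y, hy⟩ := h
  have hk' : (D : 𝓞 F) = 2 * k + 1 := by
    rw [hk]
    push_cast
    ring
  exact ⟨x - k * y, by linear_combination (-x) * hk' - (k : 𝓞 F) * hy⟩

/-- the condition on the coordinates -/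
lemma mem_iff (d : Dat q s σ χ cj) {D : ℕ} (hD : Odd D) {X1 w : 𝓞 F} {a1 t c m k : ℤ} {β : ℕ}
    (h1 : 2 * X1 = a1 + s) (ha : (D : ℤ) ∣ a1) (ht : (D : ℤ) ∣ t - 2 * c * q * β)
    (hw : (D : 𝓞 F) ∣ w - (t - s)) (hβ : IsCoprime (D : ℤ) (2 * β)) :
    (∃ c0 : ℤ, (D : 𝓞 F) ∣ w * (m * X1 + k * β) - c0) ↔ (D : ℤ) ∣ c * q * m - k := by
  obtain ⟨a2, ha2⟩ := ha
  obtain ⟨t1, ht1⟩ := ht
  obtain ⟨w1, hw1⟩ := hw
  have ha2' : (a1 : 𝓞 F) = D * a2 := by
    rw [ha2]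
    push_cast
    ring
  have hsq := d.sq
  have e : 2 * (w * (m * X1 + k * β)) =
      (D : 𝓞 F) * (w1 * (m * (a1 + s) + 2 * k * β) + m * a2 * (t - s)) +
        ((2 * t * k * β + m * q : ℤ) : 𝓞 F) + ((t * m - 2 * k * β : ℤ) : 𝓞 F) * s := by
    push_cast
    linear_combination w * m * h1 + (m * (a1 + s) + 2 * k * β) * hw1 + (t - s) * m * ha2' -
      m * hsq
  have et : t * m - 2 * k * β = 2 * β * (c * q * m - k) + D * (t1 * m) := by
    linear_combination m * ht1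
  constructor
  · rintro ⟨c0, y, hy⟩
    have h3 : (D : 𝓞 F) ∣ ((2 * t * k * β + m * q - 2 * c0 : ℤ) : 𝓞 F) +
        ((t * m - 2 * k * β : ℤ) : 𝓞 F) * s := by
      refine ⟨2 * y - (w1 * (m * (a1 + s) + 2 * k * β) + m * a2 * (t - s)), ?_⟩
      push_cast at e ⊢
      linear_combination 2 * hy - e
    obtain ⟨-, h4⟩ := key d hD h3
    rw [et] at h4
    have h5 : (D : ℤ) ∣ 2 * β * (c * q * m - k) := (Int.dvd_add_left (Dvd.intro _ rfl)).1 h4
    exact hβ.dvd_of_dvd_mul_left h5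
  · rintro ⟨j, hj⟩
    obtain ⟨k', hk'⟩ := hD
    refine ⟨(k' + 1) * (2 * t * k * β + m * q), half ⟨k', hk'⟩ ?_⟩
    have hk2 : (D : 𝓞 F) = 2 * k' + 1 := by
      rw [hk']
      push_cast
      ring
    rw [et, hj] at e
    refine ⟨(w1 * (m * (a1 + s) + 2 * k * β) + m * a2 * (t - s)) +
      (2 * β * j + t1 * m : ℤ) * s - (2 * t * k * β + m * q), ?_⟩
    push_cast at e ⊢
    linear_combination e + (2 * t * k * β + m * q) * hk2

variable {D : ℕ} {a : Ideal (𝓞 F)} {X : 𝓞 F} {α : ℤ} {β : ℕ}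

/-- the basis of the ideal -/
lemma mem_a (d : Dat q s σ χ cj) (h : RP q D s a X α β) (hD : Odd D) {X1 : 𝓞 F}
    (hX : X = D * X1) (x : 𝓞 F) : x ∈ a ↔ ∃ m k : ℤ, x = m * X1 + k * β := by
  have hXa : X ∈ a := ((h.lat X).2 ⟨1, 0, by simp⟩).1
  have hβa : (β : 𝓞 F) ∈ a := ((h.lat β).2 ⟨0, 1, by simp⟩).1
  have hD0 : (D : 𝓞 F) ≠ 0 := by
    have : D ≠ 0 := by
      rintro rfl
      exact (by decide : ¬ Odd 0) hD
    exact_mod_cast this
  have hX1 : X1 ∈ a := by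
    obtain ⟨u, hu, v, hv, huv⟩ := (Ideal.isCoprime_iff_exists.1 h.mem.2)
    obtain ⟨v', hv'⟩ := Ideal.mem_span_singleton'.1 hv
    have e : X1 = X1 * u + v' * X := by
      rw [hX]
      linear_combination (-X1) * huv - X1 * hv'
    rw [e]
    exact a.add_mem (a.mul_mem_left _ hu) (a.mul_mem_left _ hXa)
  constructor
  · intro hx
    have h1 : (D : 𝓞 F) * x ∈ latD D a := ⟨a.mul_mem_left _ hx, 0, by simp⟩
    obtain ⟨m, n, hmn⟩ := (h.lat _).1 h1
    have h2 : (D : 𝓞 F) ∣ ((n * β : ℤ) : 𝓞 F) + ((0 : ℤ) : 𝓞 F) * s := by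
      refine ⟨x - m * X1, ?_⟩
      push_cast
      rw [hX] at hmn
      linear_combination -hmn
    obtain ⟨h3, -⟩ := key d hD h2
    have hc : IsCoprime (D : ℤ) (β : ℤ) := by
      have := h.cop.coprime_dvd_right (Dvd.intro_left q rfl)
      exact (Nat.isCoprime_iff_coprime.2 this.symm)
    obtain ⟨n', hn'⟩ := hc.dvd_of_dvd_mul_right h3
    refine ⟨m, n', mul_left_cancel₀ hD0 ?_⟩
    rw [hmn, hX, hn']
    push_cast
    ring
  · rintro ⟨m, k, rfl⟩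
    exact a.add_mem (a.mul_mem_left _ hX1) (a.mul_mem_left _ hβa)

/-- the elements of the lattice, multiplied by `w` -/
noncomputable def fL (w X1 : 𝓞 F) (D q β : ℕ) (c : ℤ) (p : ℤ × ℤ) : 𝓞 F :=
  w * (p.1 * (X1 + c * q * β) + p.2 * ((D * β : ℕ) : 𝓞 F))

lemma fL_eq (w X1 : 𝓞 F) (D q β : ℕ) (c : ℤ) (p : ℤ × ℤ) :
    fL w X1 D q β c p = w * (p.1 * X1 + ((c * q * p.1 + D * p.2 : ℤ) : 𝓞 F) * β) := by
  unfold fL
  push_cast
  ring

lemma fL_mem (d : Dat q s σ χ cj) (h : RP q D s a X α β) (hD : Odd D) {X1 w : 𝓞 F}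
    (hX : X = D * X1) {a1 c t : ℤ} (h1 : 2 * X1 = a1 + s) (ha : (D : ℤ) ∣ a1)
    (ht : (D : ℤ) ∣ t - 2 * c * q * β) (hw : (D : 𝓞 F) ∣ w - (t - s))
    (hβ : IsCoprime (D : ℤ) (2 * β)) (p : ℤ × ℤ) :
    fL w X1 D q β c p ∈ latD D (Ideal.span {w} * a) := by
  rw [fL_eq]
  refine ⟨Ideal.mul_mem_mul (Ideal.mem_span_singleton_self w)
    ((mem_a d h hD hX _).2 ⟨p.1, _, rfl⟩), ?_⟩
  exact (mem_iff d hD h1 ha ht hw hβ).2 ⟨-p.2, by ring⟩

lemma fL_inj (d : Dat q s σ χ cj) (hD0 : D ≠ 0) (hβ0 : β ≠ 0) {X1 w : 𝓞 F} (hw0 : w ≠ 0)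
    {a1 c : ℤ} (h1 : 2 * X1 = a1 + s) : Function.Injective (fL w X1 D q β c) := by
  rintro ⟨m, k⟩ ⟨m', k'⟩ h
  unfold fL at h
  have h2 := mul_left_cancel₀ hw0 h
  simp only at h2
  have h3 : (((m - m') * (a1 + 2 * c * q * β) + 2 * (k - k') * (D * β) : ℤ) : 𝓞 F) +
      ((m - m' : ℤ) : 𝓞 F) * s = 0 := by
    push_cast at h2 ⊢
    linear_combination 2 * h2 - ((m : 𝓞 F) - m') * h1
  obtain ⟨h4, h5⟩ := indep d h3
  rw [h5, zero_mul, zero_add] at h4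
  have h6 : m = m' := by linarith
  have h7 : (D * β : ℤ) ≠ 0 := mul_ne_zero (by exact_mod_cast hD0) (by exact_mod_cast hβ0)
  have h8 : k = k' := by
    rcases mul_eq_zero.1 h4 with h9 | h9
    · linarith
    · exact absurd h9 h7
  rw [h6, h8]

lemma fL_surj (d : Dat q s σ χ cj) (h : RP q D s a X α β) (hD : Odd D) {X1 w : 𝓞 F}
    (hX : X = D * X1) {a1 c t : ℤ} (h1 : 2 * X1 = a1 + s) (ha : (D : ℤ) ∣ a1)
    (ht : (D : ℤ) ∣ t - 2 * c * q * β) (hw : (D : 𝓞 F) ∣ w - (t - s))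
    (hβ : IsCoprime (D : ℤ) (2 * β)) {y : 𝓞 F} (hy : y ∈ latD D (Ideal.span {w} * a)) :
    ∃ p, fL w X1 D q β c p = y := by
  obtain ⟨hy1, hy2⟩ := hy
  obtain ⟨x, hx, rfl⟩ := Ideal.mem_span_singleton_mul.1 hy1
  obtain ⟨m, k, rfl⟩ := (mem_a d h hD hX _).1 hx
  obtain ⟨j, hj⟩ := (mem_iff d hD h1 ha ht hw hβ).1 hy2
  refine ⟨(m, -j), ?_⟩
  rw [fL_eq]
  have e : c * q * m + D * -j = k := by linear_combination hj
  simp only
  rw [e]

lemma zt_mul (φ : Ideal (𝓞 F) →*₀ ℂ) (n : ℕ) (z : ℂ) (w x : 𝓞 F) :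
    zt φ n z (w * x) = zt φ n z w * zt φ n z x := by
  unfold zt
  rw [← Ideal.span_singleton_mul_span_singleton, map_mul, map_mul, Nat.cast_mul,
    Complex.natCast_mul_natCast_cpow]
  ring

lemma sum_eq (d : Dat q s σ χ cj) (h : RP q D s a X α β) (hD : Odd D) {X1 w : 𝓞 F}
    (hw0 : w ≠ 0) (hβ0 : β ≠ 0)
    (hX : X = D * X1) {a1 c t : ℤ} (h1 : 2 * X1 = a1 + s) (ha : (D : ℤ) ∣ a1)
    (ht : (D : ℤ) ∣ t - 2 * c * q * β) (hw : (D : 𝓞 F) ∣ w - (t - s))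
    (hβ : IsCoprime (D : ℤ) (2 * β)) (φ : Ideal (𝓞 F) →*₀ ℂ) (n : ℕ) (z : ℂ) :
    ∑' x : latD D (Ideal.span {w} * a), zt φ n z x =
      zt φ n z w * ∑' p : ℤ × ℤ, zt φ n z (p.1 * (X1 + c * q * β) +
        p.2 * ((D * β : ℕ) : 𝓞 F)) := by
  have hD0 : D ≠ 0 := by
    rintro rfl
    exact (by decide : ¬ Odd 0) hD
  set g : ℤ × ℤ → latD D (Ideal.span {w} * a) :=
    fun p => ⟨fL w X1 D q β c p, fL_mem d h hD hX h1 ha ht hw hβ p⟩ with hg
  have hbij : Function.Bijective g := by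
    constructor
    · intro p p' hp
      exact fL_inj d hD0 hβ0 hw0 h1 (congrArg Subtype.val hp)
    · rintro ⟨y, hy⟩
      obtain ⟨p, hp⟩ := fL_surj d h hD hX h1 ha ht hw hβ hy
      exact ⟨p, Subtype.ext hp⟩
  rw [← (Equiv.ofBijective g hbij).tsum_eq, ← tsum_mul_left]
  refine tsum_congr fun p => ?_
  rw [Equiv.ofBijective_apply, ← zt_mul]
  rfl

lemma cop_norm (hqo : Odd q) (hD : TwA q D) (t : ℤ) : IsCoprime (t ^ 2 + q : ℤ) (D : ℤ) := by
  rw [Int.isCoprime_iff_gcd_eq_one, Int.gcd_eq_natAbs, Int.natAbs_natCast]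
  refine Nat.coprime_of_dvd ?_
  intro r hr h1 h2
  have h3 : (r : ℤ) ∣ t ^ 2 - (-(q : ℤ)) * 1 ^ 2 := by
    have := Int.natCast_dvd.2 h1
    rw [show t ^ 2 - (-(q : ℤ)) * 1 ^ 2 = t ^ 2 + q by ring]
    exact this
  have hf : Fact r.Prime := ⟨hr⟩
  have hr4 := hD.mod4 r hr h2
  have hro : Odd r := Nat.odd_iff.2 (Nat.odd_of_mod_four_eq_one hr4)
  have h4 : jacobiSym (-(q : ℤ)) r = -1 := by
    rw [jacobiSym.neg _ hro, ZMod.χ₄_nat_one_mod_four hr4, one_mul,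
      ← jacobiSym.quadratic_reciprocity_one_mod_four hr4 hqo]
    exact hD.inert r hr h2
  obtain ⟨-, h5⟩ := jacobiSym.prime_dvd_of_eq_neg_one h4 h3
  exact hr.one_lt.ne' (by exact_mod_cast Int.eq_one_of_dvd_one (by positivity) h5)

lemma odd_D (hD : TwA q D) : Odd D := by
  by_contra h
  have h2 : 2 ∣ D := (Nat.not_odd_iff_even.1 h).two_dvd
  have := hD.mod4 2 Nat.prime_two h2
  omega

lemma coprime_q (hq : q.Prime) (hD : TwA q D) : D.Coprime q := by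
  rw [Nat.coprime_comm, hq.coprime_iff_not_dvd]
  intro h
  have h4 := hD.inert q hq h
  have hz : NeZero q := ⟨hq.ne_zero⟩
  have h5 : jacobiSym (q : ℤ) q = 0 := by
    rw [jacobiSym.eq_zero_iff_not_coprime]
    rw [Int.gcd_self]
    exact hq.one_lt.ne'
  rw [h5] at h4
  exact absurd h4 (by decide)

/-- a lift with norm prime to `2 q` -/
lemma exists_lift (h2 : StRg) (d : Dat q s σ χ cj) (hD : TwA q D) (w : 𝓞 F) :
    ∃ w' : 𝓞 F, w' ≠ 0 ∧ (D : 𝓞 F) ∣ w' - w ∧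
      (Ideal.absNorm (Ideal.span {w'})).Coprime (2 * q) := by
  have hq := d.prime
  have hqo : Odd q := by
    rw [Nat.odd_iff]
    have := d.mod
    omega
  have hc : (2 * q).Coprime D := by
    refine Nat.Coprime.mul_left ?_ (coprime_q hq hD).symm
    exact (Nat.coprime_two_left).2 (odd_D hD)
  obtain ⟨u, v, huv⟩ := Nat.isCoprime_iff_coprime.2 hc
  have huv' : (u : 𝓞 F) * (2 * q) + v * D = 1 := by
    have := congrArg (Int.cast (R := 𝓞 F)) huv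
    push_cast at this
    exact this
  set w' : 𝓞 F := 1 + 2 * q * (u * (w - 1)) with hw'
  have h0 : w' ≠ 0 := by
    intro h0
    have h3 : (q : 𝓞 F) ∣ ((1 : ℤ) : 𝓞 F) + ((0 : ℤ) : 𝓞 F) * s := by
      refine ⟨-(2 * (u * (w - 1))), ?_⟩
      push_cast
      rw [hw'] at h0
      linear_combination h0
    obtain ⟨h4, -⟩ := key d hqo h3
    have h5 := Int.eq_one_of_dvd_one (by positivity) h4
    exact hq.one_lt.ne' (by exact_mod_cast h5)
  refine ⟨w', h0, ⟨-(v * (w - 1)), ?_⟩, ?_⟩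
  · rw [hw']
    linear_combination (w - 1) * huv'
  · have h6 : Ideal.span {w'} ∈ idp (F := F) (2 * q) := by
      refine ⟨by rwa [Ne, Ideal.span_singleton_eq_bot], ?_⟩
      rw [Ideal.isCoprime_span_singleton_iff]
      refine ⟨1, -(u * (w - 1)), ?_⟩
      push_cast
      rw [hw']
      ring
    exact (((h2 F inferInstance inferInstance (2 * q) (mul_ne_zero two_ne_zero hq.ne_zero)).2.2 _).1 h6).2

/-- the class of a principal ideal depends only on the residue class -/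
lemma cl_congr (hqo : Odd q) (hD : TwA q D) (hsq : s ^ 2 = -(q : 𝓞 F)) {t : ℤ} {w w' : 𝓞 F}
    (hw0 : w ≠ 0) (hw0' : w' ≠ 0)
    (hts : (t : 𝓞 F) + s ≠ 0) (hw : (D : 𝓞 F) ∣ w - (t - s)) (hw' : (D : 𝓞 F) ∣ w' - (t - s)) :
    Ideal.span {w} ∈ idp (F := F) D ∧ Ideal.span {w'} ∈ idp (F := F) D ∧
      cl D (Ideal.span {w'}) = cl D (Ideal.span {w}) := by
  have hc := cop_norm hqo hD t
  obtain ⟨u, v, huv⟩ := hc
  have huv' : (u : 𝓞 F) * (t ^ 2 + q) + v * D = 1 := by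
    have := congrArg (Int.cast (R := 𝓞 F)) huv
    push_cast at this
    exact this
  have hmem : ∀ x : 𝓞 F, x ≠ 0 → (D : 𝓞 F) ∣ x - (t - s) →
      Ideal.span {x} ∈ idp (F := F) D := by
    rintro x hx0 ⟨x1, hx1⟩
    refine ⟨by rwa [Ne, Ideal.span_singleton_eq_bot], ?_⟩
    rw [Ideal.isCoprime_span_singleton_iff]
    refine ⟨u * (t + s), v - u * (t + s) * x1, ?_⟩
    linear_combination huv' + u * (t + s) * hx1 - (u : 𝓞 F) * hsq
  have hrat : ∀ x : 𝓞 F, x ≠ 0 → (D : 𝓞 F) ∣ x - (t - s) → Rat D (x * ((t : 𝓞 F) + s)) := by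
    rintro x hx0 ⟨x1, hx1⟩
    refine ⟨mul_ne_zero hx0 hts, t ^ 2 + q, cop_norm hqo hD t, (t + s) * x1, ?_⟩
    push_cast
    linear_combination (t + s) * hx1 - hsq
  refine ⟨hmem w hw0 hw, hmem w' hw0' hw', ?_⟩
  rw [cl_eq_iff (hmem w' hw0' hw') (hmem w hw0 hw)]
  refine ⟨w * (t + s), w' * (t + s), hrat w hw0 hw, hrat w' hw0' hw', ?_⟩
  rw [Ideal.span_singleton_mul_span_singleton, Ideal.span_singleton_mul_span_singleton]
  congr 2
  ring

end arith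

section analytic

theorem diff_conj {f : ℂ → ℂ} {z : ℂ} (hf : DifferentiableAt ℂ f (conj z)) :
    DifferentiableAt ℂ (fun w => conj (f (conj w))) z := by
  have h := hf.conj_conj
  rw [Complex.conj_conj] at h
  exact h

theorem ident {f g : ℂ → ℂ} (hf : DifferentiableOn ℂ f {z | -1 / 2 < z.re})
    (hg : DifferentiableOn ℂ g {z | -1 / 2 < z.re}) (h : ∀ z : ℂ, 1 < z.re → f z = g z) :
    f 0 = g 0 := by
  have hopen : IsOpen {z : ℂ | -1 / 2 < z.re} := isOpen_lt continuous_const Complex.continuous_re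
  have hconv : Convex ℝ {z : ℂ | -1 / 2 < z.re} := convex_halfSpace_re_gt _
  have h1 : AnalyticOnNhd ℂ f {z | -1 / 2 < z.re} := hf.analyticOnNhd hopen
  have h2 : AnalyticOnNhd ℂ g {z | -1 / 2 < z.re} := hg.analyticOnNhd hopen
  refine h1.eqOn_of_preconnected_of_eventuallyEq h2 hconv.isPreconnected (z₀ := 2) ?_ ?_ ?_
  · change (-1 / 2 : ℝ) < (2 : ℂ).re
    norm_num
  · have h3 : {z : ℂ | 1 < z.re} ∈ nhds (2 : ℂ) :=
      (isOpen_lt continuous_const Complex.continuous_re).mem_nhds (by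
        change (1 : ℝ) < (2 : ℂ).re
        norm_num)
    filter_upwards [h3] with z hz
    exact h z hz
  · change (-1 / 2 : ℝ) < (0 : ℂ).re
    norm_num

end analytic

end LnkAux

open LnkAux in
/-- (Z6) the values of the Eisenstein series at the points `u + c / D` -/
theorem stLnk (_h1 : StGch) (h2 : StRg) : StLnk := by
  intro q F iF iN s σ χ cj n D φ E G hd hg hD hG a X α β c t w hR ht hw0 hw
  have hq := hd.prime
  have hqo : Odd q := by
    rw [Nat.odd_iff]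
    have := hd.mod
    omega
  have hq0 : (q : ℂ) ≠ 0 := by exact_mod_cast hq.ne_zero
  have hDo : Odd D := odd_D hD
  have hD0 : D ≠ 0 := hD.sqf.ne_zero
  have hDc : (D : ℂ) ≠ 0 := by exact_mod_cast hD0
  have hDO : (D : 𝓞 F) ≠ 0 := by exact_mod_cast hD0
  have hβ0 : β ≠ 0 := by
    rintro rfl
    exact (by decide : ¬ Odd 0) hR.odd
  have hβc : (β : ℂ) ≠ 0 := by exact_mod_cast hβ0
  have hDq : D.Coprime q := coprime_q hq hD
  have hβq : β.Coprime q := hR.cop.coprime_dvd_right (Dvd.intro _ rfl)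
  have hβD : β.Coprime D := hR.cop.coprime_dvd_right (Dvd.intro_left q rfl)
  have hcop : IsCoprime (D : ℤ) (2 * β) :=
    (cop_two hDo).mul_right (Nat.isCoprime_iff_coprime.2 hβD.symm)
  obtain ⟨a', ha'⟩ := hR.dvd
  set a1 : ℤ := q * D * a' with ha1
  obtain ⟨X1, hX⟩ : (D : 𝓞 F) ∣ X := half hDo ⟨a1 + s, by
    rw [hR.two, ha', ha1]
    push_cast
    ring⟩
  have h1' : 2 * X1 = a1 + s := by
    refine mul_left_cancel₀ hDO ?_
    have h3 := hR.two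
    rw [hX, ha'] at h3
    rw [ha1]
    push_cast at h3 ⊢
    linear_combination h3
  have hDa : (D : ℤ) ∣ a1 := ⟨q * a', by rw [ha1]; ring⟩
  have hsqs := hd.sq
  have hts : (t : 𝓞 F) + s ≠ 0 := by
    intro h0
    have h3 : (t : 𝓞 F) + ((1 : ℤ) : 𝓞 F) * s = 0 := by
      push_cast
      rw [one_mul]
      exact h0
    exact one_ne_zero (indep hd h3).2
  obtain ⟨w', hw0', hww, hwn⟩ := exists_lift h2 hd hD w
  have hw' : (D : 𝓞 F) ∣ w' - (t - s) := by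
    have h3 : w' - (t - s) = (w' - w) + (w - (t - s)) := by ring
    rw [h3]
    exact dvd_add hww hw
  obtain ⟨hm1, hm2, hcl⟩ := cl_congr hqo hD hsqs hw0 hw0' hts hw hw'
  have hb : Ideal.span {w'} * a ∈ idp (F := F) D := (idp D).mul_mem hm2 hR.mem
  have hclb : cl D (Ideal.span {w'} * a) = cl D (Ideal.span {w}) * cl D a := by
    rw [cl_mul hm2 hR.mem, hcl]
  have hφw : φ (Ideal.span {w'}) ≠ 0 := hg.nz _ hwn
  have hφa : φ a ≠ 0 := by
    refine hg.nz _ ?_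
    rw [hR.norm]
    exact Nat.Coprime.mul_right ((Nat.coprime_two_right).2 hR.odd) hβq
  have hφD : φ (Ideal.span {(D : 𝓞 F)}) ≠ 0 := by
    refine hg.nz _ ?_
    have h3 : Ideal.span {(D : 𝓞 F)} ∈ idp (F := F) (2 * q) := by
      refine ⟨by rwa [Ne, Ideal.span_singleton_eq_bot], ?_⟩
      rw [Ideal.isCoprime_span_singleton_iff]
      have h4 : D.Coprime (2 * q) := Nat.Coprime.mul_right ((Nat.coprime_two_right).2 hDo) hDq
      obtain ⟨u, v, huv⟩ := Nat.isCoprime_iff_coprime.2 h4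
      refine ⟨u, v, ?_⟩
      have := congrArg (Int.cast (R := 𝓞 F)) huv
      push_cast at this ⊢
      exact this
    exact (((h2 F inferInstance inferInstance (2 * q)
      (mul_ne_zero two_ne_zero hq.ne_zero)).2.2 _).1 h3).2
  have hφb : φ (Ideal.span {w'} * a) ≠ 0 := by
    rw [map_mul]
    exact mul_ne_zero hφw hφa
  -- the point
  set u : ℂ := σ X / (q * D ^ 2 * β) with hu
  set v : ℂ := u + c / D with hv
  have hσX : σ X = D * σ X1 := by
    rw [hX]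
    simp
  have hσ1 : σ X1 = (a1 + Complex.I * Real.sqrt q) / 2 := by
    have h3 : σ ((2 * X1 : 𝓞 F) : F) = σ (((a1 : 𝓞 F) + s : 𝓞 F) : F) := by rw [h1']
    have e1 : σ ((2 * X1 : 𝓞 F) : F) = 2 * σ X1 := by
      have e0 : (2 * X1 : 𝓞 F) = X1 + X1 := two_mul _
      rw [e0, two_mul]
      simp
    have e2 : σ (((a1 : 𝓞 F) + s : 𝓞 F) : F) = a1 + σ s := by simp
    rw [e1, e2, hd.im] at h3
    linear_combination h3 / 2
  have hvX : σ ((X1 + c * q * β : 𝓞 F) : F) / (q * ((D * β : ℕ) : ℂ)) = v := by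
    have h3 : σ ((X1 + c * q * β : 𝓞 F) : F) = σ X1 + c * q * β := by simp
    rw [h3, hv, hu, hσX]
    push_cast
    field_simp
  have hs := sqrt_pos hd
  have hqr : (0 : ℝ) < q := by exact_mod_cast hq.pos
  have hDr : (0 : ℝ) < D := by exact_mod_cast Nat.pos_of_ne_zero hD0
  have hβr : (0 : ℝ) < β := by exact_mod_cast Nat.pos_of_ne_zero hβ0
  have hqs : (Real.sqrt q) ^ 2 = (q : ℝ) := Real.sq_sqrt hqr.le
  have hur : u = ((a1 / (2 * q * D * β) : ℝ) : ℂ) +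
      ((1 / (2 * Real.sqrt q * D * β) : ℝ) : ℂ) * Complex.I := by
    have h3 : ((Real.sqrt q : ℝ) : ℂ) ^ 2 = (q : ℂ) := by exact_mod_cast hqs
    have h4 : ((Real.sqrt q : ℝ) : ℂ) ≠ 0 := by exact_mod_cast hs.ne'
    rw [hu, hσX, hσ1]
    push_cast
    field_simp
    linear_combination Complex.I * h3
  have huim : u.im = 1 / (2 * Real.sqrt q * D * β) := by
    rw [hur, Complex.add_im, Complex.ofReal_im, Complex.mul_I_im, Complex.ofReal_re, zero_add]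
  have hvim : v.im = u.im := by
    have h3 : v = u + (((c : ℝ) / D : ℝ) : ℂ) := by
      rw [hv]
      push_cast
      rfl
    rw [h3, Complex.add_im, Complex.ofReal_im, add_zero]
  have hyp : 0 < u.im := by
    rw [huim]
    positivity
  set y : ℝ := u.im with hy
  have hy0 : (y : ℂ) ≠ 0 := by exact_mod_cast hyp.ne'
  -- the lattice
  have hlat := hg.lat 1 (D * β) (a1 + 2 * c * q * β) (X1 + c * q * β) odd_one (hDo.mul hR.odd)
    (Nat.Coprime.mul_left hDq hβq) (by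
      push_cast
      linear_combination h1') (by
      rw [ha1]
      exact ⟨D * a' + 2 * c * β, by ring⟩)
  have hφDβ : φ (Ideal.span {((D * β : ℕ) : 𝓞 F)}) =
      φ (Ideal.span {(D : 𝓞 F)}) * φ (Ideal.span {(β : 𝓞 F)}) := by
    rw [← map_mul, Ideal.span_singleton_mul_span_singleton]
    push_cast
    rfl
  have hmain : ∀ z : ℂ, 1 < z.re → φ a * G (cl D (Ideal.span {w}) * cl D a) z =
      (β : ℂ) ^ ((n : ℂ) + 1 + z) * (φ (Ideal.span {(D : 𝓞 F)}) * φ (Ideal.span {(β : 𝓞 F)}) *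
        ((D * β : ℕ) : ℂ) ^ (-(2 * ((n : ℂ) + 1 + z))) * (y : ℂ) ^ ((n : ℂ) - z) *
        conj (E (conj z - n) v)) := by
    intro z hz
    obtain ⟨-, h3⟩ := hG.2 _ hb hφb z hz
    obtain ⟨-, h4⟩ := hlat z hz
    rw [hvX, hvim, hφDβ] at h4
    rw [hclb, sum_eq hd hR hDo hw0' hβ0 hX h1' hDa ht hw' hcop, map_mul, map_mul, hR.norm,
      Nat.cast_mul, Complex.natCast_mul_natCast_cpow] at h3
    have h5 : zt φ n z w' = φ (Ideal.span {w'}) *
        ((Ideal.absNorm (Ideal.span {w'}) : ℂ) ^ ((n : ℂ) + 1 + z))⁻¹ := by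
      unfold zt
      rw [Complex.cpow_neg]
    have hN : (Ideal.absNorm (Ideal.span {w'}) : ℂ) ≠ 0 := by
      have h6 : Ideal.absNorm (Ideal.span {w'}) ≠ 0 := by
        rw [Ne, Ideal.absNorm_eq_zero_iff, Ideal.span_singleton_eq_bot]
        exact hw0'
      exact_mod_cast h6
    have hN2 : (Ideal.absNorm (Ideal.span {w'}) : ℂ) ^ ((n : ℂ) + 1 + z) ≠ 0 := by
      rw [Ne, Complex.cpow_eq_zero_iff]
      exact fun h => hN h.1
    rw [h5] at h3
    rw [← h4]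
    refine mul_left_cancel₀ hφw ?_
    rw [← mul_assoc, h3]
    field_simp
  have hdiff1 : DifferentiableOn ℂ (fun z => φ a * G (cl D (Ideal.span {w}) * cl D a) z)
      {z | -1 / 2 < z.re} := (hG.1 _).const_mul _
  have hDβc : ((D * β : ℕ) : ℂ) ≠ 0 := by
    push_cast
    exact mul_ne_zero hDc hβc
  have hdiff2 : DifferentiableOn ℂ (fun z : ℂ => (β : ℂ) ^ ((n : ℂ) + 1 + z) *
      (φ (Ideal.span {(D : 𝓞 F)}) * φ (Ideal.span {(β : 𝓞 F)}) *
        ((D * β : ℕ) : ℂ) ^ (-(2 * ((n : ℂ) + 1 + z))) * (y : ℂ) ^ ((n : ℂ) - z) *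
        conj (E (conj z - n) v))) {z | -1 / 2 < z.re} := by
    intro z hz
    refine DifferentiableAt.differentiableWithinAt ?_
    have hv0 : 0 < v.im := by
      rw [hvim]
      exact hyp
    have g1 : DifferentiableAt ℂ (fun z : ℂ => (β : ℂ) ^ ((n : ℂ) + 1 + z)) z :=
      DifferentiableAt.const_cpow (by fun_prop) (Or.inl hβc)
    have g2 : DifferentiableAt ℂ (fun z : ℂ => ((D * β : ℕ) : ℂ) ^ (-(2 * ((n : ℂ) + 1 + z)))) z :=
      DifferentiableAt.const_cpow (by fun_prop) (Or.inl hDβc)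
    have g3 : DifferentiableAt ℂ (fun z : ℂ => (y : ℂ) ^ ((n : ℂ) - z)) z :=
      DifferentiableAt.const_cpow (by fun_prop) (Or.inl hy0)
    have g4 : DifferentiableAt ℂ (fun z : ℂ => conj (E (conj z - n) v)) z := by
      refine diff_conj (f := fun t => E (t - n) v) ?_
      have h3 : DifferentiableAt ℂ (fun t => E t v) (conj z - n) := by
        refine (hg.dif v hv0).differentiableAt ?_
        refine (isOpen_lt continuous_const Complex.continuous_re).mem_nhds ?_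
        change -(n : ℝ) - 1 / 2 < (conj z - (n : ℂ)).re
        have hz' : -1 / 2 < z.re := hz
        rw [Complex.sub_re, Complex.conj_re, Complex.natCast_re]
        linarith
      exact h3.comp (conj z) (by fun_prop : DifferentiableAt ℂ (fun t : ℂ => t - n) (conj z))
    exact g1.mul (((((differentiableAt_const _).mul g2).mul g3)).mul g4)
  have hfin := ident hdiff1 hdiff2 hmain
  simp only [map_zero, zero_sub, sub_zero, add_zero] at hfin
  have e1 : (β : ℂ) ^ ((n : ℂ) + 1) = (β : ℂ) ^ (n + 1) := by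
    rw [← Complex.cpow_natCast]
    push_cast
    rfl
  have e2 : ((D * β : ℕ) : ℂ) ^ (-(2 * ((n : ℂ) + 1))) = ((((D : ℂ) * β) ^ (n + 1)) ^ 2)⁻¹ := by
    rw [← pow_mul, ← Complex.cpow_natCast, ← Complex.cpow_neg]
    push_cast
    congr 2
    ring
  have e3 : (y : ℂ) ^ (n : ℂ) = (y : ℂ) ^ n := Complex.cpow_natCast _ _
  rw [e1, e2, e3] at hfin
  have e4 : (y : ℂ) ^ (n + 1) = ((2 * Real.sqrt q : ℂ) ^ (n + 1))⁻¹ * ((D : ℂ) ^ (n + 1))⁻¹ *
      ((β : ℂ) ^ (n + 1))⁻¹ := by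
    rw [← mul_inv, ← mul_inv, ← mul_pow, ← mul_pow, ← inv_pow]
    congr 1
    rw [huim]
    push_cast
    rw [one_div]
  have e5 : (y : ℂ) ^ (2 * n + 1) = (y : ℂ) ^ (n + 1) * (y : ℂ) ^ n := by
    rw [← pow_add]
    congr 1
    ring
  have hG0 : G (cl D (Ideal.span {w}) * cl D a) 0 = (φ a)⁻¹ *
      ((β : ℂ) ^ (n + 1) * (φ (Ideal.span {(D : 𝓞 F)}) * φ (Ideal.span {(β : 𝓞 F)}) *
        ((((D : ℂ) * β) ^ (n + 1)) ^ 2)⁻¹ * (y : ℂ) ^ n * conj (E (-n) v))) := by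
    rw [eq_inv_mul_iff_mul_eq₀ hφa]
    exact hfin
  have e6 : ((D : ℂ) * β) ^ (n + 1) = (D : ℂ) ^ (n + 1) * (β : ℂ) ^ (n + 1) := mul_pow _ _ _
  rw [e5, e4, hG0, e6]
  have n1 : (D : ℂ) ^ (n + 1) ≠ 0 := pow_ne_zero _ hDc
  have n2 : (β : ℂ) ^ (n + 1) ≠ 0 := pow_ne_zero _ hβc
  have n3 : (2 * Real.sqrt q : ℂ) ^ (n + 1) ≠ 0 :=
    pow_ne_zero _ (mul_ne_zero two_ne_zero (by exact_mod_cast hs.ne'))
  generalize (D : ℂ) ^ (n + 1) = P at n1 ⊢
  generalize (β : ℂ) ^ (n + 1) = B at n2 ⊢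
  generalize (2 * Real.sqrt q : ℂ) ^ (n + 1) = S at n3 ⊢
  field_simp

end Pool.Agent.Lib.MP_7c08ba_nt.CN.TW
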