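import Mathlib
import Pool.Agent.Lib.MP_7c08ba_nt.CN.T.StZ
import Pool.Agent.Lib.MP_7c08ba_nt.CN.StAn
import Pool.Agent.Lib.MP_7c08ba_nt.CN.StP

set_option autoImplicit false

/-!
Project TW, module LsT: the `L`-function of the twist.
-/

namespace Pool.Agent.Lib.MP_7c08ba_nt.CN.TW

open NumberField IsDedekindDomain Polynomial Pool.Agent.Lib.MP_7c08ba_nt.RZ
open scoped nonZeroDivisors ComplexConjugate

namespace LsTAux

variable {F : Type} [i1 : Field F] [i2 : NumberField F] {D : ℕ}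

theorem cop_D {q : ℕ} (hq : q.Prime) (h : TwA q D) : D.Coprime (2 * q) := by
  refine Nat.Coprime.mul_right ?_ ?_
  · refine Nat.coprime_of_dvd fun r hr h1 h2 => ?_
    have h3 := h.mod4 r hr h1
    have h4 := (Nat.prime_dvd_prime_iff_eq hr Nat.prime_two).1 h2
    omega
  · refine Nat.coprime_of_dvd fun r hr h1 h2 => ?_
    have h3 := h.inert r hr h1
    have h4 := (Nat.prime_dvd_prime_iff_eq hr hq).1 h2
    rw [h4, jacobiSym.eq_zero_iff.2 ⟨hq.ne_zero, by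
      rw [Int.gcd_self]
      simpa using hq.one_lt.ne'⟩] at h3
    norm_num at h3

/-- lifts of the units modulo `D` which are prime to `M` -/
theorem lifts {M : ℕ} (hD : D ≠ 0) (hM : M ≠ 0) (hDM : D.Coprime M) :
    ∃ L : (𝓞 F ⧸ Ideal.span {(D : 𝓞 F)})ˣ → 𝓞 F,
    ∀ y, (L y ≠ 0 ∧ Ideal.Quotient.mk (Ideal.span {(D : 𝓞 F)}) (L y) = y) ∧
      Ideal.span {L y} ∈ idp (F := F) M := by
  have h : ∀ y : (𝓞 F ⧸ Ideal.span {(D : 𝓞 F)})ˣ, ∃ l : 𝓞 F, (l ≠ 0 ∧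
      Ideal.Quotient.mk (Ideal.span {(D : 𝓞 F)}) l = y) ∧ (M : 𝓞 F) ∣ l - 1 := by
    intro y
    obtain ⟨l, hl⟩ := Ideal.Quotient.mk_surjective (y : 𝓞 F ⧸ Ideal.span {(D : 𝓞 F)})
    obtain ⟨u, v, huv⟩ := Nat.isCoprime_iff_coprime.2 hDM
    have huv' : (u : 𝓞 F) * D + v * M = 1 := by
      exact_mod_cast congrArg (fun t : ℤ => (t : 𝓞 F)) huv
    have h1 : ∀ l' : 𝓞 F, (D : 𝓞 F) ∣ l' - l →
        Ideal.Quotient.mk (Ideal.span {(D : 𝓞 F)}) l' = y := by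
      intro l' h2
      rw [← hl, Ideal.Quotient.mk_eq_mk_iff_sub_mem]
      exact Ideal.mem_span_singleton.2 h2
    by_cases h0 : l * (v * M) + u * D = 0
    · refine ⟨D * M, ⟨?_, h1 _ ⟨M - l * u + u, ?_⟩⟩, ⟨D + l * v - v, ?_⟩⟩
      · exact_mod_cast mul_ne_zero hD hM
      · linear_combination l * huv' - h0
      · linear_combination huv' - h0
    · refine ⟨l * (v * M) + u * D, ⟨h0, h1 _ ⟨u - l * u, ?_⟩⟩, ⟨l * v - v, ?_⟩⟩
      · linear_combination l * huv'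
      · linear_combination huv'
  choose L hL using h
  refine ⟨L, fun y => ⟨(hL y).1, ?_, ?_⟩⟩
  · rw [Ne, Ideal.span_singleton_eq_bot]
    exact (hL y).1.1
  · obtain ⟨m, hm⟩ := (hL y).2
    rw [Ideal.isCoprime_iff_exists]
    refine ⟨L y, Ideal.mem_span_singleton_self _, -(M * m), ?_, ?_⟩
    · exact Ideal.neg_mem_iff _ |>.2 (Ideal.mem_span_singleton.2 (dvd_mul_right _ _))
    · linear_combination hm

/-- the Jacobi symbol as a product over the primes -/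
theorem jac_prod (hsq : Squarefree D) (a : ℤ) :
    jacobiSym a D = ∏ r ∈ D.primeFactors, jacobiSym a r := by
  have h : ∀ S : Finset ℕ, (∀ r ∈ S, r ≠ 0) →
      jacobiSym a (∏ r ∈ S, r) = ∏ r ∈ S, jacobiSym a r := by
    intro S
    induction S using Finset.induction_on with
    | empty =>
      intro _
      rw [Finset.prod_empty, Finset.prod_empty, jacobiSym.one_right]
    | insert r S hr ih =>
      intro h1
      rw [Finset.prod_insert hr, Finset.prod_insert hr, jacobiSym.mul_right' a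
        (h1 r (Finset.mem_insert_self _ _)) (Finset.prod_ne_zero_iff.2 fun t ht =>
          h1 t (Finset.mem_insert_of_mem ht)), ih fun t ht => h1 t (Finset.mem_insert_of_mem ht)]
  have h2 := h D.primeFactors fun r hr => (Nat.prime_of_mem_primeFactors hr).ne_zero
  rwa [Nat.prod_primeFactors_of_squarefree hsq] at h2

/-- the local factors -/
theorem loc (hD : D ≠ 0) (hsq : Squarefree D) (Q : ℤ) :
    ∏ r ∈ D.primeFactors, (((r : ℂ) - 1) * (if (r : ℤ) ∣ Q then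
      ((r : ℂ) + 1) / 2 * (((1 : ℤ) : ℂ) + ((-1 : ℤ) : ℂ))
      else ((jacobiSym Q r : ℤ) : ℂ))) = (Nat.totient D : ℂ) * (jacobiSym Q D : ℂ) := by
  rw [Finset.prod_mul_distrib]
  congr 1
  · have h := Nat.totient_eq_prod_factorization hD
    rw [Finsupp.prod, Nat.support_factorization] at h
    rw [h, Nat.cast_prod]
    refine Finset.prod_congr rfl fun r hr => ?_
    have hp := Nat.prime_of_mem_primeFactors hr
    have h1 : D.factorization r = 1 :=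
      (Nat.squarefree_iff_factorization_le_one hD).1 hsq r |>.antisymm
        (hp.factorization_pos_of_dvd hD (Nat.dvd_of_mem_primeFactors hr))
    rw [h1, Nat.sub_self, pow_zero, one_mul, Nat.cast_sub hp.one_le, Nat.cast_one]
  · rw [jac_prod hsq, Int.cast_prod]
    refine Finset.prod_congr rfl fun r hr => ?_
    have hp := Nat.prime_of_mem_primeFactors hr
    by_cases hd : (r : ℤ) ∣ Q
    · rw [if_pos hd]
      have h1 : jacobiSym Q r = 0 := by
        refine jacobiSym.eq_zero_iff.2 ⟨hp.ne_zero, ?_⟩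
        intro hg
        have h2 : IsCoprime Q (r : ℤ) := Int.isCoprime_iff_gcd_eq_one.2 hg
        have h3 := h2.symm.isUnit_of_dvd' (dvd_refl _) hd
        exact (Nat.prime_iff_prime_int.1 hp).not_isUnit h3
      rw [h1]
      norm_num
    · rw [if_neg hd]

/-- the terms as a multiplicative function of ideals -/
noncomputable def T (φ : Ideal (𝓞 F) →*₀ ℂ) (n : ℕ) (z : ℂ) (I : Ideal (𝓞 F)) : ℂ :=
  φ I * (Ideal.absNorm I : ℂ) ^ (-((n : ℂ) + 1 + z))

theorem T_mul (φ : Ideal (𝓞 F) →*₀ ℂ) (n : ℕ) (z : ℂ) (I J : Ideal (𝓞 F)) :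
    T φ n z (I * J) = T φ n z I * T φ n z J := by
  unfold T
  rw [map_mul, map_mul, Nat.cast_mul, Complex.natCast_mul_natCast_cpow]
  ring

theorem cpow_ne {I : Ideal (𝓞 F)} (hI : I ≠ ⊥) (w : ℂ) : (Ideal.absNorm I : ℂ) ^ w ≠ 0 := by
  rw [Ne, Complex.cpow_eq_zero_iff]
  rintro ⟨h1, -⟩
  exact hI (Ideal.absNorm_eq_zero_iff.1 (by exact_mod_cast h1))

theorem T_ne {φ : Ideal (𝓞 F) →*₀ ℂ} {n : ℕ} {z : ℂ} {I : Ideal (𝓞 F)} (h : φ I ≠ 0)
    (hI : I ≠ ⊥) : T φ n z I ≠ 0 := mul_ne_zero h (cpow_ne hI _)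

theorem zt_mul (φ : Ideal (𝓞 F) →*₀ ℂ) (n : ℕ) (z : ℂ) (x y : 𝓞 F) :
    zt φ n z (x * y) = T φ n z (Ideal.span {x}) * zt φ n z y := by
  have h := T_mul φ n z (Ideal.span {x}) (Ideal.span {y})
  rw [Ideal.span_singleton_mul_span_singleton] at h
  exact h

open Classical in
/-- the lattice of a multiple of an ideal -/
theorem lat_mul {l : 𝓞 F} (hl : l ≠ 0) (c : Ideal (𝓞 F)) (φ : Ideal (𝓞 F) →*₀ ℂ) (n : ℕ)
    (z : ℂ) :
    ∑' x : latD D (Ideal.span {l} * c), zt φ n z x = T φ n z (Ideal.span {l}) *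
      ∑' x : c, if ∃ k : ℤ, (D : 𝓞 F) ∣ l * x - k then zt φ n z x else 0 := by
  set S : Set c := {x | ∃ k : ℤ, (D : 𝓞 F) ∣ l * x - k} with hS
  have hbij : Function.Bijective (fun x : S => (⟨l * ((x : c) : 𝓞 F),
      Ideal.mul_mem_mul (Ideal.mem_span_singleton_self _) (x : c).2, x.2⟩ :
        latD D (Ideal.span {l} * c))) := by
    constructor
    · intro x x' h
      have h1 := congrArg Subtype.val h
      exact Subtype.ext (Subtype.ext (mul_left_cancel₀ hl h1))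
    · rintro ⟨y, hy, hk⟩
      obtain ⟨x, hx, hxy⟩ := Ideal.mem_span_singleton_mul.1 hy
      refine ⟨⟨⟨x, hx⟩, ?_⟩, Subtype.ext hxy⟩
      change ∃ k : ℤ, (D : 𝓞 F) ∣ l * x - k
      rw [hxy]
      exact hk
  have h1 : ∑' x : latD D (Ideal.span {l} * c), zt φ n z x =
      ∑' x : S, T φ n z (Ideal.span {l}) * zt φ n z ((x : c) : 𝓞 F) := by
    rw [← (Equiv.ofBijective _ hbij).tsum_eq]
    refine tsum_congr fun x => ?_
    rw [Equiv.ofBijective_apply]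
    exact zt_mul φ n z l ((x : c) : 𝓞 F)
  rw [h1, tsum_mul_left, tsum_subtype S (fun x : c => zt φ n z (x : 𝓞 F))]
  congr 1

/-- Representatives of the ordinary classes which are prime to `M`. -/
theorem reps (h5 : RZ.StBase) (h6 : CN.StRepM) {q M : ℕ} {s : 𝓞 F} {σ : F →+* ℂ}
    {χ : DirichletCharacter ℂ q} {cj : 𝓞 F ≃+* 𝓞 F} (hD : Dat q s σ χ cj) (hM0 : M ≠ 0) :
    ∃ c : Reps σ, ∀ C : ClassGroup (𝓞 F), (c.R C : Ideal (𝓞 F)) ∈ idp (F := F) M := by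
  have hM : Ideal.span {(M : 𝓞 F)} ≠ ⊥ := by
    rw [Ne, Ideal.span_singleton_eq_bot, Nat.cast_eq_zero]
    exact hM0
  have hR0 : ∀ C : ClassGroup (𝓞 F), ∃ I : (Ideal (𝓞 F))⁰, ClassGroup.mk0 I = C ∧
      IsCoprime (I : Ideal (𝓞 F)) (Ideal.span {(M : 𝓞 F)}) := fun C =>
    h6 F i1 i2 C (Ideal.span {(M : 𝓞 F)}) hM
  choose R hR1 hR2 using hR0
  have hne : ∀ C : ClassGroup (𝓞 F), (R C : Ideal (𝓞 F)) ≠ ⊥ := fun C =>
    mem_nonZeroDivisors_iff_ne_zero.1 (R C).2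
  have hB := (h5 q F i1 i2 s σ χ cj hD).1
  have hB' : ∀ C : ClassGroup (𝓞 F), ∃ x y : 𝓞 F, OBasis σ (R C : Ideal (𝓞 F)) x y :=
    fun C => hB (R C : Ideal (𝓞 F)) (hne C)
  choose X Y hXY using hB'
  exact ⟨⟨R, X, Y, hR1, hXY⟩, fun C => ⟨hne C, hR2 C⟩⟩

theorem tw_le (φ : Ideal (𝓞 F) →*₀ ℂ) (b : Ideal (𝓞 F)) : ‖twist D φ b‖ ≤ ‖φ b‖ := by
  change ‖φ b * (jacobiSym (Ideal.absNorm b) D : ℂ)‖ ≤ ‖φ b‖
  rw [norm_mul]
  refine mul_le_of_le_one_right (norm_nonneg _) ?_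
  rcases jacobiSym.trichotomy (Ideal.absNorm b : ℤ) D with h | h | h <;> rw [h] <;> norm_num

end LsTAux

open LsTAux

/-- (Z5) the `L`-function of the twist -/
theorem stLsT (h0 : CN.StDec) (h1 : StFib) (h2 : StCntY) (h3 : StGch) (h4 : StRg)
    (h5 : RZ.StBase) (h6 : CN.StRepM) : StLsT := by
  classical
  intro q F iF iN s σ χ cj n D φ E G hdat hG htw hIs
  have hD : D ≠ 0 := htw.sqf.ne_zero
  have hq : q ≠ 0 := hdat.prime.ne_zero
  obtain ⟨hfin, -, hidp⟩ := h4 F iF iN D hD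
  have hM : 2 * q ≠ 0 := by omega
  obtain ⟨-, -, hidpM⟩ := h4 F iF iN (2 * q) hM
  have hDM := cop_D hdat.prime htw
  have hMD : 2 * q * D ≠ 0 := mul_ne_zero hM hD
  obtain ⟨-, -, hidpMD⟩ := h4 F iF iN (2 * q * D) hMD
  let _ : Fintype (RC F D) := Fintype.ofFinite _
  have hfun : (fun z => ∑ᶠ B : RC F D, (chr B : ℂ) * G B z) =
      fun z => ∑ B : RC F D, (chr B : ℂ) * G B z := by
    funext z
    rw [finsum_eq_sum_of_fintype]
  obtain ⟨c, hc⟩ := reps h5 h6 hdat hMD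
  have hcop : ∀ C : ClassGroup (𝓞 F), (Ideal.absNorm (c.R C : Ideal (𝓞 F))).Coprime (2 * q * D) :=
    fun C => ((hidpMD _).1 (hc C)).2
  have hc0 : ∀ C : ClassGroup (𝓞 F), (c.R C : Ideal (𝓞 F)) ≠ ⊥ := fun C => (hc C).1
  have hcD : ∀ C : ClassGroup (𝓞 F), (c.R C : Ideal (𝓞 F)) ∈ idp (F := F) D := fun C =>
    (hidp _).2 ⟨hc0 C, (hcop C).coprime_mul_left_right⟩
  have hcM : ∀ C : ClassGroup (𝓞 F), (Ideal.absNorm (c.R C : Ideal (𝓞 F))).Coprime (2 * q) :=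
    fun C => (hcop C).coprime_mul_right_right
  have hφ : ∀ C : ClassGroup (𝓞 F), φ (c.R C : Ideal (𝓞 F)) ≠ 0 := fun C => hG.nz _ (hcM C)
  have hjac : ∀ b : Ideal (𝓞 F), b ∈ idp (F := F) D →
      (jacobiSym (Ideal.absNorm b) D : ℂ) * (jacobiSym (Ideal.absNorm b) D : ℂ) = 1 := by
    intro b hb
    have h7 : Int.gcd (Ideal.absNorm b : ℤ) D = 1 := ((hidp b).1 hb).2
    rcases jacobiSym.eq_one_or_neg_one h7 with h | h <;> rw [h] <;> norm_num
  have hjac0 : ∀ b : Ideal (𝓞 F), b ∈ idp (F := F) D →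
      (jacobiSym (Ideal.absNorm b) D : ℂ) ≠ 0 := fun b hb h => by
    have := hjac b hb
    rw [h] at this
    norm_num at this
  have hφ' : ∀ C : ClassGroup (𝓞 F), twist D φ (c.R C : Ideal (𝓞 F)) ≠ 0 := fun C =>
    mul_ne_zero (hφ C) (hjac0 _ (hcD C))
  obtain ⟨L, hL⟩ := lifts (F := F) hD hM hDM
  have hL1 : ∀ y, L y ≠ 0 ∧ Ideal.Quotient.mk (Ideal.span {(D : 𝓞 F)}) (L y) = y :=
    fun y => (hL y).1
  obtain ⟨g1, g2, g3, -⟩ := h3 q F iF iN s σ χ cj D hdat htw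
  refine ⟨?_, ?_⟩
  · rw [hfun]
    exact DifferentiableOn.fun_sum fun B _ => (hIs.1 B).const_mul _
  intro z hz
  obtain ⟨-, hsm, -, -⟩ := h0 q F iF iN s σ χ cj n φ c hdat hG.bd hφ z hz
  obtain ⟨-, -, hprod, hval⟩ := h0 q F iF iN s σ χ cj n (twist D φ) c hdat
    (fun b => (tw_le φ b).trans (hG.bd b)) hφ' z hz
  have e : ∀ v : HeightOneSpectrum (𝓞 F),
      (1 - twist D φ v.asIdeal *
        (Ideal.absNorm v.asIdeal : ℂ) ^ (-(((n + 1 : ℕ) : ℂ) + z)))⁻¹ =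
      (1 - twist D φ v.asIdeal * (Ideal.absNorm v.asIdeal : ℂ) ^ (-((n : ℂ) + 1 + z)))⁻¹ := by
    intro v
    rw [Nat.cast_succ]
  simp only [e]
  suffices hs : ∑ᶠ B : RC F D, (chr B : ℂ) * G B z =
      ∑' b : (Ideal (𝓞 F))⁰, twist D φ (b : Ideal (𝓞 F)) *
        (Ideal.absNorm (b : Ideal (𝓞 F)) : ℂ) ^ (-((n : ℂ) + 1 + z)) by
    rw [hs]
    exact hprod
  rw [hval]
  obtain ⟨hfq, hmem, hF⟩ := h1 q F iF iN s σ χ cj D hdat htw c.R L
    (fun B => (chr B : ℂ) * G B z) c.cls hcD hL1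
  have htot : (Nat.totient D : ℂ) ≠ 0 := by
    exact_mod_cast (Nat.totient_pos.2 (Nat.pos_of_ne_zero hD)).ne'
  refine mul_left_cancel₀ htot ?_
  rw [← hF, Finset.mul_sum]
  refine Finset.sum_congr rfl fun C _ => ?_
  set c' : Ideal (𝓞 F) := (c.R C : Ideal (𝓞 F)) with hc'
  let _ : Fintype (𝓞 F ⧸ Ideal.span {(D : 𝓞 F)})ˣ := Fintype.ofFinite _
  have hGy : ∀ y, G (cl D (Ideal.span {L y} * c')) z = (T φ n z c')⁻¹ * (1 / 2 * ∑' x : c',
      if ∃ k : ℤ, (D : 𝓞 F) ∣ L y * x - k then zt φ n z x else 0) := by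
    intro y
    have hb := hmem y C
    have hLy : (Ideal.absNorm (Ideal.span {L y})).Coprime (2 * q) := ((hidpM _).1 (hL y).2).2
    have hNb : (Ideal.absNorm (Ideal.span {L y} * c')).Coprime (2 * q) := by
      rw [map_mul]
      exact hLy.mul_left (hcM C)
    have hφb : φ (Ideal.span {L y} * c') ≠ 0 := hG.nz _ hNb
    have h8 := (hIs.2 _ hb hφb z hz).2
    rw [lat_mul (hL1 y).1 c' φ n z] at h8
    have h9 : T φ n z (Ideal.span {L y} * c') ≠ 0 := T_ne hφb hb.1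
    have h10 := T_mul φ n z (Ideal.span {L y}) c'
    have h11 : T φ n z (Ideal.span {L y}) ≠ 0 := by
      intro h
      rw [h10, h, zero_mul] at h9
      exact h9 rfl
    have h12 : T φ n z c' ≠ 0 := T_ne (hφ C) (hc0 C)
    have h13 : (Ideal.absNorm (Ideal.span {L y} * c') : ℂ) ^ ((n : ℂ) + 1 + z) *
        (Ideal.absNorm (Ideal.span {L y} * c') : ℂ) ^ (-((n : ℂ) + 1 + z)) = 1 := by
      rw [Complex.cpow_neg]
      exact mul_inv_cancel₀ (cpow_ne hb.1 _)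
    refine mul_left_cancel₀ h9 ?_
    have h14 : T φ n z (Ideal.span {L y} * c') * G (cl D (Ideal.span {L y} * c')) z =
        (φ (Ideal.span {L y} * c') * G (cl D (Ideal.span {L y} * c')) z) *
          (Ideal.absNorm (Ideal.span {L y} * c') : ℂ) ^ (-((n : ℂ) + 1 + z)) := by
      unfold T
      ring
    rw [h14, h8, h10]
    generalize (∑' x : c', if ∃ k : ℤ, (D : 𝓞 F) ∣ L y * x - k then zt φ n z x else 0) = W
    have h15 : T φ n z (Ideal.span {L y}) * T φ n z c' * ((T φ n z c')⁻¹ * (1 / 2 * W)) =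
        T φ n z (Ideal.span {L y}) * (1 / 2 * W) := by
      field_simp
    rw [h15]
    linear_combination (T φ n z (Ideal.span {L y}) * (1 / 2 * W)) * h13
  have hgy : ∀ y, (chr (cl D (Ideal.span {L y} * c')) : ℂ) *
      G (cl D (Ideal.span {L y} * c')) z = ∑' x : c', (T φ n z c')⁻¹ * (1 / 2) * (zt φ n z x *
        (if ∃ k : ℤ, (D : 𝓞 F) ∣ L y * x - k then
          (jacobiSym (Ideal.absNorm (Ideal.span {L y} * c')) D : ℂ) else 0)) := by
    intro y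
    rw [hGy y, (g3 _ (hmem y C)).2.2, tsum_mul_left]
    have h8 : (∑' x : c', zt φ n z x * (if ∃ k : ℤ, (D : 𝓞 F) ∣ L y * x - k then
          (jacobiSym (Ideal.absNorm (Ideal.span {L y} * c')) D : ℂ) else 0)) =
        (jacobiSym (Ideal.absNorm (Ideal.span {L y} * c')) D : ℂ) * ∑' x : c',
      if ∃ k : ℤ, (D : 𝓞 F) ∣ L y * x - k then zt φ n z x else 0 := by
      rw [← tsum_mul_left]
      refine tsum_congr fun x => ?_
      by_cases hk : ∃ k : ℤ, (D : 𝓞 F) ∣ L y * x - k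
      · rw [if_pos hk, if_pos hk, mul_comm]
      · rw [if_neg hk, if_neg hk, mul_zero, mul_zero]
    rw [h8]
    ring
  rw [finsum_eq_sum_of_fintype, Finset.sum_congr rfl fun y _ => hgy y]
  have hsC : Summable fun x : c' => ‖zt φ n z x‖ := hsm C
  have hsy : ∀ y, Summable fun x : c' => (T φ n z c')⁻¹ * (1 / 2) * (zt φ n z x *
        (if ∃ k : ℤ, (D : 𝓞 F) ∣ L y * x - k then
          (jacobiSym (Ideal.absNorm (Ideal.span {L y} * c')) D : ℂ) else 0)) := by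
    intro y
    refine Summable.mul_left _ ?_
    refine Summable.of_norm_bounded
      (hsC.mul_right ‖(jacobiSym (Ideal.absNorm (Ideal.span {L y} * c')) D : ℂ)‖) fun x => ?_
    rw [norm_mul]
    refine mul_le_mul_of_nonneg_left ?_ (norm_nonneg _)
    split_ifs
    · exact le_rfl
    · rw [norm_zero]
      exact norm_nonneg _
  rw [← Summable.tsum_finsetSum fun y _ => hsy y]
  have hx : ∀ x : c', ∑ y : (𝓞 F ⧸ Ideal.span {(D : 𝓞 F)})ˣ,
      (T φ n z c')⁻¹ * (1 / 2) * (zt φ n z x *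
        (if ∃ k : ℤ, (D : 𝓞 F) ∣ L y * x - k then
          (jacobiSym (Ideal.absNorm (Ideal.span {L y} * c')) D : ℂ) else 0)) =
      (T φ n z c')⁻¹ * (1 / 2) * (zt φ n z x * ((Nat.totient D : ℂ) *
        (jacobiSym ((Ideal.absNorm (Ideal.span {(x : 𝓞 F)}) : ℤ) / Ideal.absNorm c') D : ℂ))) := by
    intro x
    rw [← Finset.mul_sum, ← Finset.mul_sum]
    congr 2
    have h10 := h2 q F iF iN s σ χ cj D hdat htw c' x L
      (fun _ t => (t : ℂ)) (hcD C) x.2 hL1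
    rw [finsum_eq_sum_of_fintype] at h10
    have h11 := loc hD htw.sqf ((Ideal.absNorm (Ideal.span {(x : 𝓞 F)}) : ℤ) / Ideal.absNorm c')
    rw [← h11, ← h10]
    refine Finset.sum_congr rfl fun y _ => ?_
    rw [jac_prod htw.sqf, Int.cast_prod]
  rw [tsum_congr hx]
  have hR : ∀ x : c', twist D φ (Ideal.span {(x : 𝓞 F)}) *
      (Ideal.absNorm (Ideal.span {(x : 𝓞 F)}) : ℂ) ^ (-((n : ℂ) + 1 + z)) =
      (jacobiSym (Ideal.absNorm c') D : ℂ) * (zt φ n z x *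
        (jacobiSym ((Ideal.absNorm (Ideal.span {(x : 𝓞 F)}) : ℤ) / Ideal.absNorm c') D : ℂ)) := by
    intro x
    have hd : (Ideal.absNorm c' : ℤ) ∣ (Ideal.absNorm (Ideal.span {(x : 𝓞 F)}) : ℤ) := by
      exact_mod_cast Ideal.absNorm_dvd_absNorm_of_le
        ((Ideal.span_singleton_le_iff_mem _).2 x.2)
    have h8 := Int.mul_ediv_cancel' hd
    have h9 : jacobiSym (Ideal.absNorm (Ideal.span {(x : 𝓞 F)}) : ℤ) D =
        jacobiSym (Ideal.absNorm c') D * jacobiSym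
          ((Ideal.absNorm (Ideal.span {(x : 𝓞 F)}) : ℤ) / Ideal.absNorm c') D := by
      rw [← jacobiSym.mul_left, h8]
    change φ (Ideal.span {(x : 𝓞 F)}) * (jacobiSym (Ideal.absNorm (Ideal.span {(x : 𝓞 F)})) D : ℂ) *
      _ = _
    rw [h9]
    unfold zt
    push_cast
    ring
  rw [tsum_congr hR, tsum_mul_left, tsum_mul_left]
  have h16 : (∑' x : c', zt φ n z x * ((Nat.totient D : ℂ) *
        (jacobiSym ((Ideal.absNorm (Ideal.span {(x : 𝓞 F)}) : ℤ) / Ideal.absNorm c') D : ℂ))) =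
      (Nat.totient D : ℂ) * ∑' x : c', zt φ n z x *
        (jacobiSym ((Ideal.absNorm (Ideal.span {(x : 𝓞 F)}) : ℤ) / Ideal.absNorm c') D : ℂ) := by
    rw [← tsum_mul_left]
    refine tsum_congr fun x => ?_
    ring
  rw [h16]
  generalize (∑' x : c', zt φ n z x *
        (jacobiSym ((Ideal.absNorm (Ideal.span {(x : 𝓞 F)}) : ℤ) / Ideal.absNorm c') D : ℂ)) = W
  have h17 : twist D φ c' = φ c' * (jacobiSym (Ideal.absNorm c') D : ℂ) := rfl
  have h18 := hjac c' (hcD C)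
  have h19 := hjac0 c' (hcD C)
  have h20 := hφ C
  have h21 : (Ideal.absNorm c' : ℂ) ^ ((n : ℂ) + 1 + z) ≠ 0 := cpow_ne (hc0 C) _
  rw [h17]
  unfold T
  rw [Complex.cpow_neg]
  field_simp

end Pool.Agent.Lib.MP_7c08ba_nt.CN.TW
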