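import Pool.Agent.Lib.MP_7c08ba_nt.CN.T.StP
import Pool.Agent.Lib.MP_7c08ba_nt.CN.Idl
import Pool.Agent.Lib.MP_7c08ba_nt.CN.NV

set_option autoImplicit false

/-! Project TW, (S1): the lattices attached to the systems. -/

namespace Pool.Agent.Lib.MP_7c08ba_nt.CN.TW

open NumberField IsDedekindDomain Polynomial RZC
open scoped nonZeroDivisors ComplexConjugate

namespace LtTAux

theorem odd_D {q D : ℕ} (h : TwA q D) : Odd D := by
  rw [← Nat.not_even_iff_odd, even_iff_two_dvd]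
  intro h2
  have := h.mod4 2 Nat.prime_two h2
  omega

variable {q : ℕ} {F : Type} [Field F] [NumberField F] {s g : 𝓞 F} {b : ℤ} {D : ℕ}

/-- comparison with the maximal order -/
theorem transfer (hF : FieldC q F (s : F)) (hD : Odd D) (hg : 2 * g = b + D * s) {M : ℕ}
    (hMD : M.Coprime D) (hM : (4 * M : ℤ) ∣ b ^ 2 + q * D ^ 2)
    (hb : Odd b) :
    ∃ (b' n' k : ℤ) (g' : 𝓞 F), 2 * g' = b' + s ∧ 4 * n' = b' ^ 2 + q ∧ (M : ℤ) ∣ n' ∧
      g = D * g' + M * k := by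
  obtain ⟨θ, hθ⟩ := BasisAux.exists_theta hF
  have hθ' : (2 : 𝓞 F) * θ = 1 + s := by
    apply RingOfIntegers.ext
    change algebraMap (𝓞 F) F (2 * θ) = algebraMap (𝓞 F) F (1 + s)
    rw [map_mul, map_add, map_one, map_ofNat]
    exact hθ
  obtain ⟨D', hD'⟩ := hD
  obtain ⟨b₁, hb₁⟩ := hb
  have hc : (b : ℤ) = D + 2 * (b₁ - D') := by
    rw [hb₁, hD']
    push_cast
    ring
  obtain ⟨u, v, huv⟩ : IsCoprime (M : ℤ) (D : ℤ) := Nat.isCoprime_iff_coprime.2 hMD
  set c : ℤ := b₁ - D' with hcdef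
  -- `c = D t + M k`
  have hk : c = D * (v * c) + M * (u * c) := by
    linear_combination -c * huv
  set t : ℤ := v * c with ht
  set k : ℤ := u * c with hkdef
  have hq : q % 16 = 7 := hF.2.1
  obtain ⟨n', hn'⟩ : ∃ n' : ℤ, 4 * n' = (1 + 2 * t) ^ 2 + q := by
    obtain ⟨m, hm⟩ : ∃ m : ℕ, q = 16 * m + 7 := ⟨q / 16, by omega⟩
    refine ⟨t ^ 2 + t + 4 * m + 2, ?_⟩
    rw [hm]
    push_cast
    ring
  refine ⟨1 + 2 * t, n', k, θ + t, ?_, hn', ?_, ?_⟩
  · push_cast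
    linear_combination hθ'
  · have hb' : b = D * (1 + 2 * t) + 2 * M * k := by
      rw [hc]
      linear_combination 2 * hk
    have h1 : (4 * M : ℤ) ∣ 4 * (D ^ 2 * n') := by
      have h2 : (4 : ℤ) * (D ^ 2 * n') = (b ^ 2 + q * D ^ 2) -
          4 * M * (k * D * (1 + 2 * t) + M * k ^ 2) := by
        rw [hb']
        linear_combination (D : ℤ) ^ 2 * hn'
      rw [h2]
      exact dvd_sub hM (dvd_mul_right _ _)
    have h2 : (M : ℤ) ∣ D ^ 2 * n' := (mul_dvd_mul_iff_left (by norm_num : (4 : ℤ) ≠ 0)).1 h1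
    have h3 : IsCoprime (M : ℤ) ((D : ℤ) ^ 2) := IsCoprime.pow_right ⟨u, v, huv⟩
    exact h3.dvd_of_dvd_mul_left h2
  · have h2 : (2 : 𝓞 F) ≠ 0 := two_ne_zero
    apply mul_left_cancel₀ h2
    have hc' : (b : 𝓞 F) = D + 2 * (c : 𝓞 F) := by
      have := congrArg (Int.cast : ℤ → 𝓞 F) hc
      push_cast at this ⊢
      exact this
    have hk' : (c : 𝓞 F) = D * (t : 𝓞 F) + M * (k : 𝓞 F) := by
      have := congrArg (Int.cast : ℤ → 𝓞 F) hk
      push_cast at this ⊢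
      exact this
    linear_combination hg + hc' + 2 * hk' - (D : 𝓞 F) * hθ'

/-- the ideals are the same -/
theorem idl_eq {g' : 𝓞 F} {M M' : ℕ} {k : ℤ} (hMD : M.Coprime D) (hg : g = D * g' + M * k)
    (h : M' ∣ M) : idl g M' = idl g' M' := by
  obtain ⟨m, rfl⟩ := h
  obtain ⟨u, v, huv⟩ : IsCoprime (M' : ℤ) (D : ℤ) :=
    Nat.isCoprime_iff_coprime.2 (Nat.Coprime.coprime_dvd_left (dvd_mul_right _ _) hMD)
  have huv' : (u : 𝓞 F) * M' + v * D = 1 := by
    exact_mod_cast congrArg (Int.cast : ℤ → 𝓞 F) huv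
  apply le_antisymm
  · rw [Ideal.span_le]
    intro z hz
    rcases hz with rfl | hz
    · exact Ideal.subset_span (by simp)
    · rw [Set.mem_singleton_iff] at hz
      rw [hz, hg]
      have h1 : (M' : 𝓞 F) ∈ idl g' M' := Ideal.subset_span (by simp)
      have h2 : g' ∈ idl g' M' := Ideal.subset_span (by simp)
      have h3 : (D : 𝓞 F) * g' + ((M' * m : ℕ) : 𝓞 F) * k = D * g' + (m * k) * M' := by
        push_cast
        ring
      rw [h3]
      exact Ideal.add_mem _ (Ideal.mul_mem_left _ _ h2) (Ideal.mul_mem_left _ _ h1)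
  · rw [Ideal.span_le]
    intro z hz
    rcases hz with rfl | hz
    · exact Ideal.subset_span (by simp)
    · rw [Set.mem_singleton_iff] at hz
      rw [hz]
      have h1 : (M' : 𝓞 F) ∈ idl g M' := Ideal.subset_span (by simp)
      have h2 : g ∈ idl g M' := Ideal.subset_span (by simp)
      have h3 : g' = (u * g' - v * m * k) * M' + v * g := by
        rw [hg]
        push_cast
        linear_combination -g' * huv'
      rw [h3]
      exact Ideal.add_mem _ (Ideal.mul_mem_left _ _ h1) (Ideal.mul_mem_left _ _ h2)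

/-- the elements congruent to rational integers -/
theorem mem_latD {g' : 𝓞 F} {M M' : ℕ} {b' n' k : ℤ} (hF : FieldC q F (s : F))
    (hg' : 2 * g' = b' + s) (hn' : 4 * n' = b' ^ 2 + q) (hMn : (M : ℤ) ∣ n')
    (hMD : M.Coprime D) (hg : g = D * g' + M * k) (hM0 : 0 < M) (h : M' ∣ M)
    (x : 𝓞 F) : x ∈ latD D (idl g M') ↔ ∃ u v : ℤ, x = u * M' + v * g := by
  obtain ⟨-, -, h3, h4, h5, -, -⟩ := stIdl q F _ _ s b' n' g' hF hg' hn'
  have hM'0 : 0 < M' := Nat.pos_of_dvd_of_pos h hM0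
  have hid := idl_eq hMD hg h
  constructor
  · rintro ⟨hx, c, y, hy⟩
    rw [hid] at hx
    obtain ⟨u, v, huv⟩ := ((h5 M' hM'0 (dvd_trans (by exact_mod_cast h) hMn)).1 x).1 hx
    obtain ⟨y0, y1, hy01⟩ := h3 y
    have h6 : ((u * M' - c - D * y0 : ℤ) : 𝓞 F) + ((v - D * y1 : ℤ) : 𝓞 F) * g' = 0 := by
      push_cast
      rw [huv, hy01] at hy
      linear_combination hy
    obtain ⟨-, h7⟩ := h4 _ _ h6
    obtain ⟨m, rfl⟩ := h
    have h8 : v = D * y1 := by linarith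
    refine ⟨u - y1 * k * m, y1, ?_⟩
    rw [huv, h8, hg]
    push_cast
    ring
  · rintro ⟨u, v, rfl⟩
    refine ⟨?_, u * M' + v * (M * k), v * g', ?_⟩
    · exact Ideal.add_mem _ (Ideal.mul_mem_left _ _ (Ideal.subset_span (by simp)))
        (Ideal.mul_mem_left _ _ (Ideal.subset_span (by simp)))
    · rw [hg]
      push_cast
      ring

omit [NumberField F] in
/-- imaginary part of `g` -/
theorem im_g {σ : F →+* ℂ} (hD0 : 0 < D) (hg : 2 * g = b + D * s) (hs : 0 < (σ (s : F)).im) :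
    0 < (σ (g : F)).im := by
  have h1 : (2 : ℂ) * σ (g : F) = b + D * σ (s : F) := by
    have h0 := congrArg (fun x : 𝓞 F => σ (x : F)) hg
    simpa only [map_mul, map_add, map_intCast, map_natCast, map_ofNat] using h0
  have h2 := congrArg Complex.im h1
  have h3 : ((D : ℂ) * σ (s : F)).im = D * (σ (s : F)).im := by
    rw [Complex.mul_im]
    simp
  have h4 : ((2 : ℂ) * σ (g : F)).im = 2 * (σ (g : F)).im := by
    rw [Complex.mul_im]
    simp
  rw [Complex.add_im, Complex.intCast_im, zero_add, h3, h4] at h2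
  have h5 : (0 : ℝ) < D * (σ (s : F)).im := mul_pos (by exact_mod_cast hD0) hs
  linarith

/-- oriented bases -/
theorem isBD {σ : F →+* ℂ} {a : Ideal (𝓞 F)} {M : ℕ} (hM : 0 < M) (him : 0 < (σ (g : F)).im)
    (h : ∀ z : 𝓞 F, z ∈ latD D a ↔ ∃ u v : ℤ, z = u * M + v * g) :
    IsBD D σ a (σ (g : F)) (M : ℂ) := by
  constructor
  · unfold Pos
    have : σ (g : F) / (M : ℂ) = ((M : ℝ)⁻¹ : ℝ) * σ (g : F) := by
      push_cast
      rw [div_eq_mul_inv, mul_comm]
    rw [this, Complex.im_ofReal_mul]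
    exact mul_pos (by positivity) him
  · intro z
    unfold lat
    rw [Submodule.mem_span_pair]
    constructor
    · rintro ⟨u, v, rfl⟩
      refine ⟨v * M + u * g, (h _).2 ⟨v, u, rfl⟩, ?_⟩
      simp only [map_add, map_mul, map_intCast, map_natCast, zsmul_eq_mul]
      ring
    · rintro ⟨x, hx, rfl⟩
      obtain ⟨u, v, rfl⟩ := (h x).1 hx
      refine ⟨v, u, ?_⟩
      simp only [map_add, map_mul, map_intCast, map_natCast, zsmul_eq_mul]
      ring

/-- independence -/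
theorem indep {x y : ℂ} (h : 0 < (x / y).im) {a b : ℤ} (h0 : (a : ℂ) * x + b * y = 0) :
    a = 0 ∧ b = 0 := by
  have hy : y ≠ 0 := by
    rintro rfl
    simp at h
  have h1 : (a : ℂ) * (x / y) + b = 0 := by
    apply mul_right_cancel₀ hy
    rw [add_mul, mul_assoc, div_mul_cancel₀ _ hy, zero_mul]
    exact h0
  have h2 := congrArg Complex.im h1
  rw [Complex.add_im, Complex.intCast_im, Complex.mul_im, Complex.intCast_im, Complex.intCast_re,
    zero_mul, add_zero, add_zero, Complex.zero_im] at h2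
  have ha : (a : ℝ) = 0 := by
    rcases mul_eq_zero.1 h2 with h3 | h3
    · exact h3
    · exact absurd h3 h.ne'
  have ha' : a = 0 := by exact_mod_cast ha
  refine ⟨ha', ?_⟩
  rw [ha', Int.cast_zero, zero_mul, zero_add] at h1
  exact_mod_cast h1

/-- the index of a sublattice -/
theorem relIndex_lat {x y : ℂ} (h : 0 < (x / y).im) (m : ℕ) :
    (lat x (m * y)).toAddSubgroup.relIndex (lat x y).toAddSubgroup = m := by
  let f : ℤ × ℤ →+ ℂ :=
    { toFun := fun p => p.1 * x + p.2 * y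
      map_zero' := by simp
      map_add' := fun p r => by
        simp only [Prod.fst_add, Prod.snd_add]
        push_cast
        ring }
  have hf : ∀ p : ℤ × ℤ, f p = p.1 * x + p.2 * y := fun _ => rfl
  have hr : f.range = (lat x y).toAddSubgroup := by
    ext z
    rw [AddMonoidHom.mem_range, Submodule.mem_toAddSubgroup]
    unfold lat
    rw [Submodule.mem_span_pair]
    constructor
    · rintro ⟨p, rfl⟩
      exact ⟨p.1, p.2, by rw [hf, zsmul_eq_mul, zsmul_eq_mul]⟩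
    · rintro ⟨u, v, rfl⟩
      exact ⟨(u, v), by rw [hf, zsmul_eq_mul, zsmul_eq_mul]⟩
  have hc : (lat x (m * y)).toAddSubgroup.comap f =
      (⊤ : AddSubgroup ℤ).prod (AddSubgroup.zmultiples (m : ℤ)) := by
    ext p
    rw [AddSubgroup.mem_comap, Submodule.mem_toAddSubgroup, AddSubgroup.mem_prod]
    unfold lat
    rw [Submodule.mem_span_pair]
    constructor
    · rintro ⟨u, v, huv⟩
      refine ⟨AddSubgroup.mem_top _, ?_⟩
      rw [Int.mem_zmultiples_iff]
      rw [hf, zsmul_eq_mul, zsmul_eq_mul] at huv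
      have h1 : ((u - p.1 : ℤ) : ℂ) * x + ((v * m - p.2 : ℤ) : ℂ) * y = 0 := by
        push_cast
        linear_combination huv
      obtain ⟨-, h2⟩ := indep h h1
      exact ⟨v, by linarith⟩
    · rintro ⟨-, h1⟩
      rw [Int.mem_zmultiples_iff] at h1
      obtain ⟨v, hv⟩ := h1
      refine ⟨p.1, v, ?_⟩
      rw [hf, zsmul_eq_mul, zsmul_eq_mul, hv]
      push_cast
      ring
  rw [← hr, ← AddSubgroup.index_comap, hc, AddSubgroup.index_prod, AddSubgroup.index_top, one_mul,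
    Int.index_zmultiples, Int.natAbs_natCast]

/-- a criterion for ideals prime to `D` -/
theorem mem_idp {I : Ideal (𝓞 F)} {M : ℕ} (h : (M : 𝓞 F) ∈ I) (hM : M ≠ 0)
    (hc : M.Coprime D) : I ∈ idp (F := F) D := by
  refine ⟨fun h0 => ?_, ?_⟩
  · rw [h0, Ideal.mem_bot] at h
    exact hM (by exact_mod_cast h)
  · obtain ⟨u, v, huv⟩ : IsCoprime (M : ℤ) (D : ℤ) := Nat.isCoprime_iff_coprime.2 hc
    rw [Ideal.isCoprime_iff_exists]
    exact ⟨(u : 𝓞 F) * M, Ideal.mul_mem_left _ _ h, (v : 𝓞 F) * D,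
      Ideal.mul_mem_left _ _ (Ideal.mem_span_singleton_self _),
      by exact_mod_cast congrArg (Int.cast : ℤ → 𝓞 F) huv⟩

/-- the ideals of the system -/
theorem main_idl (hF : FieldC q F (s : F)) (hD : Odd D) (hg : 2 * g = b + D * s) (hb : Odd b)
    {P : Ideal (𝓞 F)} (hP : P.IsPrime) (hP2 : Ideal.absNorm P = 2) {e : ℕ}
    (hgP : g ∈ P ^ (e + 1)) {dd : ℕ} (hd : Odd dd) (hc : dd.Coprime (q * D))
    (hdv : (8 * 2 ^ e * (dd : ℤ) ^ 2 : ℤ) ∣ b ^ 2 + q * D ^ 2) :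
    Ideal.absNorm (idl g dd) = dd ∧ ∀ j ≤ e, P ^ j = idl g (2 ^ j) ∧
      P ^ j * idl g dd ^ 2 = idl g (2 ^ j * dd ^ 2) ∧
      ∀ x : 𝓞 F, x ∈ latD D (idl g (2 ^ j * dd ^ 2)) ↔
        ∃ u v : ℤ, x = u * ((2 ^ j * dd ^ 2 : ℕ) : 𝓞 F) + v * g := by
  have hcD : dd.Coprime D := Nat.Coprime.coprime_mul_left_right hc
  have hcq : dd.Coprime q := Nat.Coprime.coprime_mul_right_right hc
  have h2D : (2 : ℕ).Coprime D := (Nat.coprime_two_left).2 hD
  have hMD : (2 ^ e * dd ^ 2).Coprime D :=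
    Nat.Coprime.mul_left (Nat.Coprime.pow_left _ h2D) (Nat.Coprime.pow_left _ hcD)
  have hM0 : 0 < 2 ^ e * dd ^ 2 := Nat.mul_pos (pow_pos two_pos _) (pow_pos hd.pos _)
  have hM : (4 * (2 ^ e * dd ^ 2 : ℕ) : ℤ) ∣ b ^ 2 + q * D ^ 2 := by
    refine dvd_trans ⟨2, ?_⟩ hdv
    push_cast
    ring
  obtain ⟨b', n', k, g', hg', hn', hMn, hgg⟩ := transfer hF hD hg hMD hM hb
  obtain ⟨-, hb', -, -, h5, h6, h7⟩ := stIdl q F _ _ s b' n' g' hF hg' hn'
  -- divisors of `2 ^ e * d ^ 2`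
  have hdvd : ∀ M' : ℕ, M' ∣ 2 ^ e * dd ^ 2 → ((M' : ℕ) : ℤ) ∣ n' := fun M' h =>
    dvd_trans (by exact_mod_cast h) hMn
  have hj : ∀ j ≤ e, 2 ^ j * dd ^ 2 ∣ 2 ^ e * dd ^ 2 := fun j hj =>
    Nat.mul_dvd_mul (Nat.pow_dvd_pow 2 hj) dvd_rfl
  have hdM : dd ∣ 2 ^ e * dd ^ 2 := dvd_mul_of_dvd_right (dvd_pow_self _ two_ne_zero) _
  have hd2 : dd * dd ∣ 2 ^ e * dd ^ 2 := by
    rw [← pow_two]
    exact dvd_mul_left _ _
  -- coprimality
  have hcop : IsCoprime (dd : ℤ) b' := by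
    obtain ⟨u, v, huv⟩ : IsCoprime (dd : ℤ) (q : ℤ) := Nat.isCoprime_iff_coprime.2 hcq
    obtain ⟨x, hx⟩ := hdvd dd hdM
    refine ⟨u + v * (4 * x), -v * b', ?_⟩
    rw [← huv]
    have : (q : ℤ) = 4 * (dd * x) - b' ^ 2 := by rw [← hx, hn']; ring
    rw [this]
    ring
  have h2b : ∀ j : ℕ, IsCoprime ((2 ^ j : ℕ) : ℤ) b' := by
    intro j
    push_cast
    apply IsCoprime.pow_left
    obtain ⟨c, hc⟩ := hb'
    exact ⟨-c, 1, by rw [hc]; ring⟩
  -- powers of `P`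
  have h2P : (2 : 𝓞 F) ∈ P := by
    have := Ideal.absNorm_mem P
    rw [hP2] at this
    exact_mod_cast this
  have hg'P : ∀ j ≤ e, g' ∈ P ^ j := by
    intro j hj
    obtain ⟨u, v, huv⟩ : IsCoprime ((2 ^ e * dd ^ 2 : ℕ) : ℤ) (D : ℤ) :=
      Nat.isCoprime_iff_coprime.2 hMD
    have huv' : (u : 𝓞 F) * ((2 ^ e * dd ^ 2 : ℕ) : 𝓞 F) + v * D = 1 := by
      exact_mod_cast congrArg (Int.cast : ℤ → 𝓞 F) huv
    have h2 : ((2 ^ e * dd ^ 2 : ℕ) : 𝓞 F) ∈ P ^ j := by
      push_cast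
      exact Ideal.mul_mem_right _ _ (Ideal.pow_le_pow_right hj (Ideal.pow_mem_pow h2P e))
    have h3 : g ∈ P ^ j := Ideal.pow_le_pow_right (by omega : j ≤ e + 1) hgP
    have h4 : g' = (u * g' - v * k) * ((2 ^ e * dd ^ 2 : ℕ) : 𝓞 F) + v * g := by
      rw [hgg]
      linear_combination -g' * huv'
    rw [h4]
    exact Ideal.add_mem _ (Ideal.mul_mem_left _ _ h2) (Ideal.mul_mem_left _ _ h3)
  have hid : ∀ M' : ℕ, M' ∣ 2 ^ e * dd ^ 2 → idl g M' = idl g' M' := fun M' h =>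
    idl_eq hMD hgg h
  refine ⟨?_, fun j hje => ?_⟩
  · rw [hid dd hdM]
    exact (h5 dd hd.pos (hdvd dd hdM)).2
  · have e1 : P ^ j = idl g (2 ^ j) := by
      rw [hid (2 ^ j) ((Dvd.intro _ rfl).trans (hj j hje))]
      exact (h7 P hP hP2 j (hg'P j hje)).2.symm
    refine ⟨e1, ?_, mem_latD hF hg' hn' hMn hMD hgg hM0 (hj j hje)⟩
    rw [e1, hid _ ((Dvd.intro _ rfl).trans (hj j hje)), hid _ hdM, hid _ (hj j hje), pow_two,
      h6 dd dd hd.pos hd.pos (hdvd _ hd2) hcop, ← pow_two dd,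
      h6 (2 ^ j) (dd ^ 2) (by positivity) (pow_pos hd.pos _) (hdvd _ (hj j hje)) (h2b j)]

end LtTAux

open LtTAux in
theorem stLtT (h1 : StTor) (_h2 : StGch) (h3 : StRg) : StLtT := by
  intro q F _ _ s σ D P e b g d hF hσ hT hP hP2 hS hgP hdv he
  have hD := odd_D hT
  have hD0 : 0 < D := hD.pos
  have h2D : (2 : ℕ).Coprime D := (Nat.coprime_two_left).2 hD
  -- the trivial class
  have hG1 : Gen (F := F) D 1 := ⟨1, (idp D).one_mem, cl_one, fun r _ _ => by
    rw [map_one, Nat.cast_one, jacobiSym.one_left]⟩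
  -- `b` is odd
  have hb : Odd b := by
    obtain ⟨x, hx⟩ := hdv ⟨1, hG1⟩
    have hq : Odd (q : ℤ) := by
      have := hF.2.1
      exact_mod_cast (Nat.odd_iff.2 (by omega) : Odd q)
    have hDz : Odd (D : ℤ) := by exact_mod_cast hD
    have h4 : Odd ((q : ℤ) * D ^ 2) := hq.mul hDz.pow
    have h5 : Even (b ^ 2 + (q : ℤ) * D ^ 2) := by
      rw [hx]
      exact ⟨4 * 2 ^ e * (d ⟨1, hG1⟩ : ℤ) ^ 2 * x, by ring⟩
    by_contra h6
    rw [Int.not_odd_iff_even] at h6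
    have h7 : Odd (b ^ 2 + (q : ℤ) * D ^ 2) := (h6.pow_of_ne_zero two_ne_zero).add_odd h4
    exact (Int.not_odd_iff_even.2 h5) h7
  have him := im_g (σ := σ) hD0 hS.two hσ
  have hm := fun C => main_idl hF hD hS.two hb hP hP2 hgP (hS.odd C) (hS.cop C) (hdv C)
  have hm1 := main_idl hF hD hS.two hb hP hP2 hgP odd_one (Nat.coprime_one_left _) (by
    refine dvd_trans ?_ (hdv ⟨1, hG1⟩)
    exact ⟨(d ⟨1, hG1⟩ : ℤ) ^ 2, by push_cast; ring⟩)
  have hPj : ∀ j ≤ e, P ^ j ∈ idp (F := F) D := by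
    intro j hj
    rw [((hm1.2 j hj).1)]
    exact mem_idp (M := 2 ^ j) (Ideal.subset_span (by simp)) (by positivity)
      (Nat.Coprime.pow_left _ h2D)
  have hdC : ∀ C, idl g (d C) ∈ idp (F := F) D := fun C =>
    mem_idp (M := d C) (Ideal.subset_span (by simp)) (hS.odd C).pos.ne'
      (Nat.Coprime.coprime_mul_left_right (hS.cop C))
  have hPd : ∀ C, ∀ j ≤ e, P ^ j * idl g (d C) ^ 2 ∈ idp (F := F) D := fun C j hj =>
    (idp D).mul_mem (hPj j hj) ((idp D).pow_mem (hdC C) 2)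
  refine ⟨fun C j hj => ⟨hPd C j hj, ?_⟩, fun j hj => ⟨hPj j hj, ?_⟩, fun C => ?_, ?_⟩
  · obtain ⟨-, e2, e3⟩ := (hm C).2 j hj
    rw [e2]
    have h4 := isBD (σ := σ) (Nat.mul_pos (pow_pos two_pos j) (pow_pos (hS.odd C).pos 2)) him e3
    push_cast at h4
    exact h4
  · obtain ⟨e1, -, e3⟩ := hm1.2 j hj
    rw [e1]
    rw [one_pow, mul_one] at e3
    have h4 := isBD (σ := σ) (pow_pos two_pos j) him e3
    push_cast at h4
    exact h4
  · refine ⟨(hm C).1, ?_, ?_, ?_⟩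
    · -- coprime to `s`
      obtain ⟨u, v, huv⟩ : IsCoprime (d C : ℤ) (q : ℤ) := Nat.isCoprime_iff_coprime.2
        (Nat.Coprime.coprime_mul_right_right (hS.cop C))
      rw [Ideal.isCoprime_iff_exists]
      have hs2 : s ^ 2 = -(q : 𝓞 F) := by
        have h := hF.2.2.2
        apply RingOfIntegers.ext
        simpa using h
      refine ⟨(u : 𝓞 F) * (d C : 𝓞 F), Ideal.mul_mem_left _ _ (Ideal.subset_span (by simp)),
        (v : 𝓞 F) * (q : 𝓞 F), ?_, ?_⟩
      · rw [Ideal.mem_span_singleton]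
        refine ⟨-(v : 𝓞 F) * s, ?_⟩
        have : (q : 𝓞 F) = -(s ^ 2) := by rw [hs2, neg_neg]
        rw [this]
        ring
      · exact_mod_cast congrArg (fun z : ℤ => (z : 𝓞 F)) huv
    · have h4 : (2 ^ e * (d C : ℂ) ^ 2) = ((d C ^ 2 : ℕ) : ℂ) * 2 ^ e := by
        push_cast
        ring
      rw [h4]
      refine relIndex_lat ?_ _
      have h5 : σ (g : F) / 2 ^ e = (((2 ^ e : ℝ))⁻¹ : ℝ) * σ (g : F) := by
        push_cast
        rw [div_eq_mul_inv, mul_comm]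
      rw [h5, Complex.im_ofReal_mul]
      exact mul_pos (by positivity) him
    · unfold lat
      rw [Submodule.span_le]
      intro z hz
      rcases hz with rfl | hz
      · exact Submodule.subset_span (by simp)
      · rw [Set.mem_singleton_iff] at hz
        rw [hz, SetLike.mem_coe, Submodule.mem_span_pair]
        refine ⟨0, (d C : ℤ) ^ 2, ?_⟩
        rw [zero_smul, zero_add, zsmul_eq_mul]
        push_cast
        ring
  · -- the permutation
    obtain ⟨χ, cj, hDat⟩ := NVAux.exists_dat hF hσ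
    obtain ⟨-, t2, t3, -⟩ := h1 q F _ _ s σ χ cj D hDat hT
    obtain ⟨hfin, hunit, -⟩ := h3 F _ _ D hD0.ne'
    have hGP : Gen (F := F) D (cl D (P ^ e)) := by
      refine ⟨P ^ e, hPj e le_rfl, rfl, fun r hr hrD => ?_⟩
      obtain ⟨k, hk⟩ := he
      rw [map_pow, hP2]
      have h4 : ((2 ^ e : ℕ) : ℤ) = (2 ^ k : ℤ) ^ 2 := by
        rw [hk]
        push_cast
        ring
      rw [h4]
      apply jacobiSym.sq_one'
      have h5 : (2 ^ k : ℕ).Coprime r :=
        Nat.Coprime.pow_left _ (Nat.Coprime.coprime_dvd_right hrD h2D)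
      have h6 : ((2 ^ k : ℤ)).gcd (r : ℤ) = (2 ^ k : ℕ).gcd r := by
        rw [← Int.gcd_natCast_natCast]
        push_cast
        rfl
      rw [h6]
      exact h5
    let f : GC F D → GC F D := fun C =>
      ⟨cl D (P ^ e) * (C.1 * C.1), t2 _ _ hGP (t2 _ _ C.2 C.2)⟩
    have hf : Function.Bijective f := by
      let sq : GC F D → GC F D := fun C => ⟨C.1 * C.1, t2 _ _ C.2 C.2⟩
      let mu : GC F D → GC F D := fun C => ⟨cl D (P ^ e) * C.1, t2 _ _ hGP C.2⟩
      have hsq : Function.Bijective sq := by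
        rw [Function.Bijective, Finite.injective_iff_surjective, and_self]
        intro C
        obtain ⟨B, hB, hBC⟩ := t3 C.1 C.2
        exact ⟨⟨B, hB⟩, Subtype.ext hBC⟩
      have hmu : Function.Bijective mu := by
        rw [Function.Bijective, ← Finite.injective_iff_surjective, and_self]
        intro A B hAB
        exact Subtype.ext ((hunit (cl D (P ^ e))).mul_left_cancel (congrArg Subtype.val hAB))
      exact hmu.comp hsq
    refine ⟨Equiv.ofBijective f hf, fun C => ?_⟩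
    rw [cl_mul (hPj e le_rfl) ((idp D).pow_mem (hdC C) 2), pow_two, cl_mul (hdC C) (hdC C),
      hS.cls C]
    rfl

end Pool.Agent.Lib.MP_7c08ba_nt.CN.TW
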