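import Pool.Agent.Lib.MP_7c08ba_nt.CN.T.StH
import Pool.Agent.Lib.MP_7c08ba_nt.CN.StOP
import Pool.Agent.Lib.MP_7c08ba_nt.CN.StP

set_option autoImplicit false

/-!
Project TW, `2`-adic part: statements of the modules.  One module = one file
`CN/T/<Name>.lean` proving `theorem st<Name> : St<Name>`, with earlier statements as hypotheses.
-/

namespace Pool.Agent.Lib.MP_7c08ba_nt.CN.TW

open NumberField IsDedekindDomain Polynomial RZC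
open scoped nonZeroDivisors ComplexConjugate

/-! ### group C: chains of lattices -/

section

variable {F : Type} [Field F] [NumberField F]

/-- `(w₁, w₂)` is an oriented basis of the image of the lattice `latD D a` -/
def IsBD (D : ℕ) (σ : F →+* ℂ) (a : Ideal (𝓞 F)) (w₁ w₂ : ℂ) : Prop :=
  Pos w₁ w₂ ∧ ∀ z : ℂ, z ∈ lat w₁ w₂ ↔ ∃ x ∈ latD D a, σ (x : F) = z

end

/-- (C1) adapted bases for a prime of norm 2 -/
def StAdaptT : Prop :=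
  ∀ (q : ℕ) (F : Type) (_ : Field F) (_ : NumberField F) (s : 𝓞 F) (D : ℕ) (σ : F →+* ℂ)
    (P b : Ideal (𝓞 F)), FieldC q F (s : F) → TwA q D → P.IsPrime → Ideal.absNorm P = 2 →
    b ∈ idp (F := F) D → P ∈ idp (F := F) D ∧
    ∃ w₁ w₂ : ℂ, IsBD D σ (P ^ 2 * b) w₁ w₂ ∧ IsBD D σ (P * b) w₁ (w₂ / 2) ∧
      IsBD D σ b w₁ (w₂ / 4)

/-- (C2) the chain attached to an ideal -/
def StChainT : Prop :=
  ∀ (q : ℕ) (F : Type) (_ : Field F) (_ : NumberField F) (s : 𝓞 F) (D : ℕ) (σ : F →+* ℂ)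
    (P a : Ideal (𝓞 F)) (m : ℕ) (x : 𝓞 F), FieldC q F (s : F) → TwA q D → P.IsPrime →
    Ideal.absNorm P = 2 → 0 < m → P ^ m = Ideal.span {x} → Rat D x → a ∈ idp (F := F) D →
    ∃ u v : ℕ → ℂ, Chain m (σ (x : F)) u v ∧ ∀ i ≤ m, IsBD D σ (P ^ (m - i) * a) (u i) (v i)

/-- (C3) the prime attached to `A` -/
def StUnitT : Prop :=
  ∀ (q : ℕ) (F : Type) (_ : Field F) (_ : NumberField F) (s : 𝓞 F) (σ : F →+* ℂ)
    (A : ValuationSubring ℂ), FieldC q F (s : F) → Above2 A →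
    ∃ P : Ideal (𝓞 F), P.IsPrime ∧ Ideal.absNorm P = 2 ∧ ∀ (m : ℕ) (x : 𝓞 F), 0 < m →
      P ^ m = Ideal.span {x} → 2 ^ m / σ (x : F) ∈ A ∧ (2 ^ m / σ (x : F))⁻¹ ∈ A

/-- (C4) the lattices of a chain -/
def StOrdT : Prop :=
  ∀ (A : ValuationSubring ℂ), Above2 A → ∀ (m : ℕ) (c : ℂ) (u v : ℕ → ℂ), 0 < m →
    Chain m c u v → 2 ^ m / c ∈ A → (2 ^ m / c)⁻¹ ∈ A → ∀ i,
    Ord A (u i) (v i) ∧ XX (u i) (v i) ∈ A ∧ (XX (u i) (v i))⁻¹ ∈ A ∧ e6 (u i) (v i) ≠ 0 ∧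
      e6 (u i) (v i) ^ 2 / e4 (u i) (v i) ^ 3 - 1 ∈ A.nonunits ∧
      E2s (u i) (v i) * e6 (u i) (v i) / e4 (u i) (v i) ^ 2 - 1 ∈ A.nonunits

/-- (C5) the lattices of the ring classes -/
def StFldT : Prop :=
  ∀ (q : ℕ) (F : Type) (_ : Field F) (_ : NumberField F) (s : 𝓞 F) (σ : F →+* ℂ)
    (A : ValuationSubring ℂ), FieldC q F (s : F) → Above2 A →
    ∃ P : Ideal (𝓞 F), P.IsPrime ∧ Ideal.absNorm P = 2 ∧ ∀ D : ℕ, TwA q D →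
      (∀ a ∈ idp (F := F) D, ∃ w₁ w₂ : ℂ, IsBD D σ a w₁ w₂) ∧
      (∀ a ∈ idp (F := F) D, ∀ w₁ w₂ : ℂ, IsBD D σ a w₁ w₂ →
        Ord A w₁ w₂ ∧ e6 w₁ w₂ ≠ 0 ∧ e6 w₁ w₂ ^ 2 / e4 w₁ w₂ ^ 3 - 1 ∈ A.nonunits ∧
        E2s w₁ w₂ * e6 w₁ w₂ / e4 w₁ w₂ ^ 2 - 1 ∈ A.nonunits) ∧
      (∀ b ∈ idp (F := F) D, ∀ w₁ w₂ : ℂ, IsBD D σ (P * b) w₁ w₂ → IsBD D σ b w₁ (w₂ / 2) →
        XX w₁ w₂ ∈ A ∧ (XX w₁ w₂)⁻¹ ∈ A)

/-! ### group V: Weierstrass functions -/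

/-- (V1) sums of inverse powers -/
def StSig : Prop :=
  ∀ (L : PeriodPair) (z : ℂ), z ∉ L.lattice →
    L.sumInvPow z 4 = L.weierstrassP z ^ 2 - L.g₂ / 12 ∧
    L.sumInvPow z 6 = L.weierstrassP z ^ 3 - 3 / 20 * L.g₂ * L.weierstrassP z - L.g₃ / 10

/-- (V2) the duplication formula -/
def StDup : Prop :=
  ∀ (L : PeriodPair) (z : ℂ), z ∉ L.lattice → 2 * z ∉ L.lattice →
    4 * L.weierstrassP z ^ 3 - L.g₂ * L.weierstrassP z - L.g₃ ≠ 0 ∧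
    L.weierstrassP (2 * z) * (4 * L.weierstrassP z ^ 3 - L.g₂ * L.weierstrassP z - L.g₃) =
      L.weierstrassP z ^ 4 + L.g₂ * L.weierstrassP z ^ 2 / 2 + 2 * L.g₃ * L.weierstrassP z +
        L.g₂ ^ 2 / 16

/-- representatives of the nonzero cosets of a lattice in a larger lattice -/
structure RepS (L M : PeriodPair) (S : Finset ℂ) : Prop where
  le : L.lattice ≤ M.lattice
  mem : ∀ Q ∈ S, Q ∈ M.lattice ∧ Q ∉ L.lattice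
  uni : ∀ z ∈ M.lattice, z ∉ L.lattice → ∃! Q, Q ∈ S ∧ z - Q ∈ L.lattice

/-- (V3) the functions of a larger lattice -/
def StVel : Prop :=
  ∀ (L M : PeriodPair) (S : Finset ℂ), RepS L M S →
    M.g₂ = L.g₂ * (1 - 5 * S.card) + 60 * ∑ Q ∈ S, L.weierstrassP Q ^ 2 ∧
    M.g₃ = L.g₃ * (1 - 14 * S.card) + 140 * ∑ Q ∈ S, L.weierstrassP Q ^ 3 -
      21 * L.g₂ * ∑ Q ∈ S, L.weierstrassP Q ∧
    ∀ z : ℂ, z ∉ M.lattice → M.weierstrassP z =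
      L.weierstrassP z + ∑ Q ∈ S, (L.weierstrassP (z + Q) - L.weierstrassP Q)

/-- the coordinate `x` of the model `y² + x y = x³ - 36 κ x - κ`, `κ = jv / (1 - 1728 jv)` -/
noncomputable def xP (L : PeriodPair) (z : ℂ) : ℂ :=
  -(L.weierstrassP z * e4 L.ω₁ L.ω₂ / (4 * (Real.pi : ℂ) ^ 2 * e6 L.ω₁ L.ω₂)) - 1 / 12

/-- (V4) integrality at the points of odd order -/
def StXint : Prop :=
  ∀ (A : ValuationSubring ℂ) (L : PeriodPair), Above2 A → Ord A L.ω₁ L.ω₂ →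
    ∀ (N : ℕ) (z : ℂ), Odd N → N * z ∈ L.lattice → z ∉ L.lattice → xP L z ∈ A

/-- (V5) `1/j` of a lattice which contains the given one with odd index -/
def StJV : Prop :=
  ∀ (A : ValuationSubring ℂ) (L M : PeriodPair) (S : Finset ℂ), Above2 A →
    Ord A L.ω₁ L.ω₂ → Pos M.ω₁ M.ω₂ → RepS L M S → (∀ Q ∈ S, xP L Q ∈ A) →
    (∃ N : ℕ, Odd N ∧ ∀ z ∈ M.lattice, N * z ∈ L.lattice) →
    1 / 2 * ∑ Q ∈ S, xP L Q ∈ A ∧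
    jv M.ω₁ M.ω₂ - (jv L.ω₁ L.ω₂ + 1 / 2 * ∑ Q ∈ S, xP L Q + (1 / 2 * ∑ Q ∈ S, xP L Q) ^ 2)
      ∈ A.nonunits

/-- (V6) the canonical isogeny is the Frobenius modulo the maximal ideal -/
def StFrb : Prop :=
  ∀ (A : ValuationSubring ℂ) (L M : PeriodPair), Above2 A → Ord A L.ω₁ L.ω₂ →
    M.ω₁ = L.ω₁ → M.ω₂ = L.ω₂ / 2 → XX L.ω₁ L.ω₂ ∈ A → (XX L.ω₁ L.ω₂)⁻¹ ∈ A →
    ∀ z : ℂ, z ∉ M.lattice → xP L z ∈ A → xP M z - xP L z ^ 2 ∈ A.nonunits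

/-- (V7) distribution relations modulo the maximal ideal -/
def StDis : Prop :=
  ∀ (A : ValuationSubring ℂ) (L M : PeriodPair) (S : Finset ℂ) (r : ℕ), Above2 A →
    Ord A L.ω₁ L.ω₂ → Odd r → RepS L M S → (∀ z : ℂ, z ∈ M.lattice ↔ r * z ∈ L.lattice) →
    (∀ Q ∈ S, xP L Q ∈ A) ∧
    1 / 2 * ∑ Q ∈ S, xP L Q - ((r : ℂ) ^ 2 - 1) / 8 ∈ A.nonunits ∧
    ∀ (N : ℕ) (z : ℂ), Odd N → N * z ∈ L.lattice → r * z ∉ L.lattice →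
      ∑ Q ∈ S, xP L (z + Q) - (xP L (r * z) + xP L z) ∈ A.nonunits

/-! ### group J: sums over classes -/

section

variable {F : Type} [Field F] [NumberField F]

open Classical in
/-- the value of `x` at the point `σ z / D` for the lattice of an ideal -/
noncomputable def xc (D : ℕ) (σ : F →+* ℂ) (c : Ideal (𝓞 F)) (z : 𝓞 F) : ℂ :=
  if h : ∃ L : PeriodPair, Pos L.ω₁ L.ω₂ ∧ ∀ w : ℂ, w ∈ L.lattice ↔ ∃ x ∈ c, σ (x : F) = w then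
    xP h.choose (σ z / D) else 0

open Classical in
/-- the representative in an ideal of a residue class modulo `D` -/
noncomputable def lf (D : ℕ) (c : Ideal (𝓞 F)) (ρ : 𝓞 F ⧸ Ideal.span {(D : 𝓞 F)}) : 𝓞 F :=
  if h : ∃ z ∈ c, Ideal.Quotient.mk (Ideal.span {(D : 𝓞 F)}) z = ρ then h.choose else 0

/-- the weights with signs -/
noncomputable def wE (D : ℕ) (ε : ℕ → ℤ) (N : ℤ) : ℤ :=
  ∏ r ∈ D.primeFactors, if (r : ℤ) ∣ N then ((r : ℤ) + 1) / 2 else (1 + ε r * jacobiSym N r) / 2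

open Classical in
/-- half the sum of the values of `x` with weights -/
noncomputable def TE (D : ℕ) (σ : F →+* ℂ) (ε : ℕ → ℤ) (c : Ideal (𝓞 F)) : ℂ :=
  1 / 2 * ∑ᶠ ρ : 𝓞 F ⧸ Ideal.span {(D : 𝓞 F)}, if ρ = 0 then 0 else
    (wE D ε ((Ideal.absNorm (Ideal.span {lf D c ρ}) : ℤ) / Ideal.absNorm c) : ℂ) *
      xc D σ c (lf D c ρ)

open Classical in
/-- half the sum of the values of `x` over the nonzero points of the subgroup given by `y` -/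
noncomputable def tC (D : ℕ) (σ : F →+* ℂ) (c : Ideal (𝓞 F)) (y : 𝓞 F) : ℂ :=
  1 / 2 * ∑ᶠ ρ : 𝓞 F ⧸ Ideal.span {(D : 𝓞 F)}, if ρ = 0 then 0 else
    if ∃ k : ℤ, (D : 𝓞 F) ∣ y * lf D c ρ - k then xc D σ c (lf D c ρ) else 0

end

/-- (J1) the values of `x` at the points of order dividing `D`: integrality, invariance -/
def StXc : Prop :=
  ∀ (q : ℕ) (F : Type) (_ : Field F) (_ : NumberField F) (s : 𝓞 F) (σ : F →+* ℂ) (D : ℕ),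
    FieldC q F (s : F) → TwA q D → ∀ c ∈ idp (F := F) D,
    (∀ L : PeriodPair, Pos L.ω₁ L.ω₂ → (∀ w : ℂ, w ∈ L.lattice ↔ ∃ x ∈ c, σ (x : F) = w) →
      ∀ z : 𝓞 F, xc D σ c z = xP L (σ z / D)) ∧
    (∀ ρ, lf D c ρ ∈ c ∧ Ideal.Quotient.mk (Ideal.span {(D : 𝓞 F)}) (lf D c ρ) = ρ) ∧
    (∀ z ∈ c, ∀ z' ∈ c, (D : 𝓞 F) ∣ z - z' → xc D σ c z = xc D σ c z') ∧
    (∀ z ∈ c, xc D σ c (-z) = xc D σ c z) ∧
    (∀ (y z : 𝓞 F), y ≠ 0 → xc D σ (Ideal.span {y} * c) (y * z) = xc D σ c z) ∧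
    (∀ A : ValuationSubring ℂ, Above2 A → ∀ z ∈ c, ¬ (D : 𝓞 F) ∣ z → xc D σ c z ∈ A)

/-- (J2) the Frobenius and the values of `x` -/
def StXf : Prop :=
  ∀ (q : ℕ) (F : Type) (_ : Field F) (_ : NumberField F) (s : 𝓞 F) (σ : F →+* ℂ)
    (A : ValuationSubring ℂ), FieldC q F (s : F) → Above2 A →
    ∃ P P' : Ideal (𝓞 F), P * P' = Ideal.span {2} ∧ Ideal.absNorm P = 2 ∧
      Ideal.absNorm P' = 2 ∧ ∀ D : ℕ, TwA q D → P' ∈ idp (F := F) D ∧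
      ∀ c ∈ idp (F := F) D, ∀ z ∈ c, ¬ (D : 𝓞 F) ∣ z →
        xc D σ (P' * c) (2 * z) - xc D σ c z ^ 2 ∈ A.nonunits

/-- (J3) `1/j` of the lattices of ring classes -/
def StJB : Prop :=
  ∀ (q : ℕ) (F : Type) (_ : Field F) (_ : NumberField F) (s : 𝓞 F) (σ : F →+* ℂ)
    (A : ValuationSubring ℂ) (D : ℕ) (c : Ideal (𝓞 F)) (y : 𝓞 F) (w₁ w₂ v₁ v₂ : ℂ),
    FieldC q F (s : F) → Above2 A → TwA q D → c ∈ idp (F := F) D →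
    Ideal.span {y} ∈ idp (F := F) D → IsB σ c v₁ v₂ → IsBD D σ (Ideal.span {y} * c) w₁ w₂ →
    tC D σ c y ∈ A ∧ jv w₁ w₂ - (jv v₁ v₂ + tC D σ c y + tC D σ c y ^ 2) ∈ A.nonunits

/-- (J4) the sums with weights: integrality, invariance, Frobenius -/
def StTE : Prop :=
  ∀ (q : ℕ) (F : Type) (_ : Field F) (_ : NumberField F) (s : 𝓞 F) (σ : F →+* ℂ)
    (A : ValuationSubring ℂ), FieldC q F (s : F) → Above2 A →
    ∃ P' : Ideal (𝓞 F), Ideal.absNorm P' = 2 ∧ ∀ (D : ℕ) (ε : ℕ → ℤ), TwA q D →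
      (∀ r, ε r = 1 ∨ ε r = -1) → P' ∈ idp (F := F) D ∧ ∀ c ∈ idp (F := F) D,
      TE D σ ε c ∈ A ∧
      (∀ y : 𝓞 F, Ideal.span {y} ∈ idp (F := F) D →
        TE D σ ε (Ideal.span {y} * c) = TE D σ ε c) ∧
      TE D σ (fun r => ε r * jacobiSym 2 r) (P' * c) - TE D σ ε c ^ 2 ∈ A.nonunits

/-- (J5) change of a sign -/
def StFlip : Prop :=
  ∀ (q : ℕ) (F : Type) (_ : Field F) (_ : NumberField F) (s : 𝓞 F) (σ : F →+* ℂ)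
    (A : ValuationSubring ℂ) (D : ℕ) (ε : ℕ → ℤ) (r : ℕ) (c : Ideal (𝓞 F)),
    FieldC q F (s : F) → Above2 A → TwA q D → (∀ r, ε r = 1 ∨ ε r = -1) → r.Prime → r ∣ D →
    c ∈ idp (F := F) D →
    TE D σ ε c + TE D σ (Function.update ε r (-ε r)) c - ((r : ℂ) ^ 2 - 1) / 8 ∈ A.nonunits

/-- (J6) the sum of the `tC` over the principal genus, and the number of elements -/
def StTsum : Prop :=
  ∀ (q : ℕ) (F : Type) (_ : Field F) (_ : NumberField F) (s : 𝓞 F) (σ : F →+* ℂ)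
    (D : ℕ), FieldC q F (s : F) → TwA q D →
    ∀ (c : ClassGroup (𝓞 F) → (Ideal (𝓞 F))⁰), (∀ C, ClassGroup.mk0 (c C) = C) →
    (∀ C, (c C : Ideal (𝓞 F)) ∈ idp (F := F) D) →
    ∃ (C : GC F D → ClassGroup (𝓞 F)) (y : GC F D → 𝓞 F),
      (∀ B, Ideal.span {y B} ∈ idp (F := F) D ∧
        cl D (Ideal.span {y B} * (c (C B) : Ideal (𝓞 F))) = B.1) ∧
      (∀ C₀, Odd (Nat.card {B // C B = C₀})) ∧
      ∑ᶠ B, tC D σ (c (C B) : Ideal (𝓞 F)) (y B) =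
        ∑ C₀ : ClassGroup (𝓞 F), TE D σ (fun _ => 1) (c C₀ : Ideal (𝓞 F))

/-- (J7) the sum of `1/j` over the principal genus -/
def StJsT : Prop :=
  ∀ (q : ℕ) (F : Type) (_ : Field F) (_ : NumberField F) (s : 𝓞 F) (σ : F →+* ℂ)
    (A : ValuationSubring ℂ) (D : ℕ) (R : GC F D → Ideal (𝓞 F)) (w₁ w₂ : GC F D → ℂ),
    FieldC q F (s : F) → Above2 A → TwA q D → D % 8 = 1 →
    (∀ B, R B ∈ idp (F := F) D ∧ cl D (R B) = B.1) → (∀ B, IsBD D σ (R B) (w₁ B) (w₂ B)) →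
    ∑ᶠ B, jv (w₁ B) (w₂ B) - 1 ∈ A.nonunits

/-! ### group S: the sums -/

/-- (S1) the lattices attached to the systems -/
def StLtT : Prop :=
  ∀ (q : ℕ) (F : Type) (_ : Field F) (_ : NumberField F) (s : 𝓞 F) (σ : F →+* ℂ) (D : ℕ)
    (P : Ideal (𝓞 F)) (e : ℕ) (b : ℤ) (g : 𝓞 F) (d : GC F D → ℕ), FieldC q F (s : F) →
    0 < (σ s).im → TwA q D → P.IsPrime → Ideal.absNorm P = 2 → SysT q D s b g d →
    g ∈ P ^ (e + 1) → (∀ C, (8 * 2 ^ e * ((d C : ℤ)) ^ 2 : ℤ) ∣ b ^ 2 + q * D ^ 2) → Even e →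
    (∀ C, ∀ j ≤ e, P ^ j * idl g (d C) ^ 2 ∈ idp (F := F) D ∧
      IsBD D σ (P ^ j * idl g (d C) ^ 2) (σ g) (2 ^ j * (d C : ℂ) ^ 2)) ∧
    (∀ j ≤ e, P ^ j ∈ idp (F := F) D ∧ IsBD D σ (P ^ j) (σ g) (2 ^ j)) ∧
    (∀ C, Ideal.absNorm (idl g (d C)) = d C ∧
      IsCoprime (idl g (d C)) (Ideal.span {s}) ∧
      (lat (σ g) (2 ^ e * (d C : ℂ) ^ 2)).toAddSubgroup.relIndex
        (lat (σ g) (2 ^ e)).toAddSubgroup = d C ^ 2 ∧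
      lat (σ g) (2 ^ e * (d C : ℂ) ^ 2) ≤ lat (σ g) (2 ^ e)) ∧
    ∃ π : GC F D ≃ GC F D, ∀ C, cl D (P ^ e * idl g (d C) ^ 2) = (π C).1

/-- (S2) the sums are not zero: even `n` -/
def StPaTE : Prop :=
  ∀ (q : ℕ) (F : Type) (_ : Field F) (_ : NumberField F) (s : 𝓞 F) (σ : F →+* ℂ)
    (A : ValuationSubring ℂ) (n D : ℕ) (φ : Ideal (𝓞 F) →*₀ ℂ), FieldC q F (s : F) →
    TwA q D → D % 8 = 1 → 0 < (σ s).im → Above2 A → Even n → Res1 A s φ →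
    ∃ (P : Ideal (𝓞 F)) (e : ℕ), P.IsPrime ∧ Ideal.absNorm P = 2 ∧ 1 ≤ e ∧ Even e ∧
      ∀ (b : ℤ) (g : 𝓞 F) (d : GC F D → ℕ), SysT q D s b g d → g ∈ P ^ (e + 1) →
        (∀ C, (8 * 2 ^ e * ((d C : ℤ)) ^ 2 : ℤ) ∣ b ^ 2 + q * D ^ 2) →
        SumT σ n (2 ^ e) g d φ (hth n) ≠ 0

/-- (S3) the sums are not zero: odd `n` -/
def StPaTO : Prop :=
  ∀ (q : ℕ) (F : Type) (_ : Field F) (_ : NumberField F) (s : 𝓞 F) (σ : F →+* ℂ)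
    (A : ValuationSubring ℂ) (n D : ℕ) (φ : Ideal (𝓞 F) →*₀ ℂ), FieldC q F (s : F) →
    TwA q D → D % 8 = 1 → 0 < (σ s).im → Above2 A → Odd n → Res1 A s φ →
    ∃ (P : Ideal (𝓞 F)) (e : ℕ), P.IsPrime ∧ Ideal.absNorm P = 2 ∧ 1 ≤ e ∧ Even e ∧
      ∀ (b : ℤ) (g : 𝓞 F) (d : GC F D → ℕ), SysT q D s b g d → g ∈ P ^ (e + 1) →
        (∀ C, (8 * 2 ^ e * ((d C : ℤ)) ^ 2 : ℤ) ∣ b ^ 2 + q * D ^ 2) →
        SumT σ n (2 ^ e) g d φ (hthO n) ≠ 0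

end Pool.Agent.Lib.MP_7c08ba_nt.CN.TW
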