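import Pool.Agent.Lib.MP_7c08ba_nt.CN.T.StTh
import Pool.Agent.Lib.MP_7c08ba_nt.CN.T.StP
import Pool.Agent.Lib.MP_7c08ba_nt.CN.NV
import Pool.Agent.Lib.MP_7c08ba_nt.CN.ONV

set_option autoImplicit false

/-!
Project TW: assembly of the analytic part and the `2`-adic part.
-/

namespace Pool.Agent.Lib.MP_7c08ba_nt.CN.TW

open NumberField IsDedekindDomain
open scoped nonZeroDivisors ComplexConjugate

theorem stAnT (h1 : StAnTE) (h2 : StAnTO) : StAnT := by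
  intro q hq F _ _ s σ χ cj n D φ h hD hT hK
  rcases hK with ⟨-, hc, rfl⟩ | ⟨-, hc, rfl⟩
  · exact h1 q hq F _ _ s σ χ cj n D φ hD hT hc
  · exact h2 q hq F _ _ s σ χ cj n D φ hD hT hc

theorem stPaT (h1 : StPaTE) (h2 : StPaTO) : StPaT := by
  intro q F _ _ s σ A n D φ h hF hT h8 him hA hK hres
  rcases hK with ⟨hn, -, rfl⟩ | ⟨hn, -, rfl⟩
  · exact h1 q F _ _ s σ A n D φ hF hT h8 him hA hn hres
  · exact h2 q F _ _ s σ A n D φ hF hT h8 him hA hn hres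

namespace NVTAux

variable {q : ℕ} {F : Type} [Field F] [NumberField F] {s : 𝓞 F} {σ : F →+* ℂ}

theorem exists_h {n : ℕ} {φ : Ideal (𝓞 F) →*₀ ℂ}
    (hc : Even n ∧ IsCan q s σ (2 * n + 1) φ ∨ Odd n ∧ IsCanO q s σ (2 * n + 1) φ) :
    ∃ h : ℂ → ℂ, Kd q s σ n φ h := by
  rcases hc with ⟨hn, hc⟩ | ⟨hn, hc⟩
  · exact ⟨hth n, Or.inl ⟨hn, hc, rfl⟩⟩
  · exact ⟨hthO n, Or.inr ⟨hn, hc, rfl⟩⟩

theorem main (h1 : StAnT) (h2 : StSysT) (h3 : StPaT) {A : ValuationSubring ℂ} {n D : ℕ}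
    {φ : Ideal (𝓞 F) →*₀ ℂ} (hF : RZC.FieldC q F (s : F)) (hT : TwA q D) (h8 : D % 8 = 1)
    (him : 0 < (σ s).im) (hA : RZC.Above2 A)
    (hc : Even n ∧ IsCan q s σ (2 * n + 1) φ ∨ Odd n ∧ IsCanO q s σ (2 * n + 1) φ)
    (hres : Res1 A s φ) : ∃ Λ : ℂ → ℂ, IsLF (twist D φ) (n + 1) Λ ∧ Λ 0 ≠ 0 := by
  obtain ⟨χ, cj, hD⟩ := NVAux.exists_dat hF him
  obtain ⟨h, hK⟩ := exists_h hc
  obtain ⟨P, e, hP, hPN, he, hev, H⟩ := h3 q F _ _ s σ A n D φ h hF hT h8 him hA hK hres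
  obtain ⟨b, g, d, d', hd, hd', hg, hcop⟩ := h2 q F _ _ s D hF hT P hP hPN e
  have hq0 : NeZero q := ⟨hF.1.ne_zero⟩
  obtain ⟨Λ, hΛ, hval⟩ := h1 q hq0 F _ _ s σ χ cj n D φ h hD hT hK
  obtain ⟨c, hv⟩ := hval e b g d d' he hev hd hd' hcop
  refine ⟨Λ, hΛ, fun h0 => ?_⟩
  have one : GC F D := ⟨1, 1, (idp D).one_mem, cl_one, fun r _ _ => by
    rw [map_one, Nat.cast_one, jacobiSym.one_left]⟩
  have hS : SumT σ n (2 ^ e) g d φ h ≠ 0 := by
    refine H b g d hd hg fun C => (mul_dvd_mul_left _ ?_).trans (hcop C one).2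
    rw [mul_pow]
    exact dvd_mul_right _ _
  have hS' : SumT σ n (2 ^ e) g d' φ h ≠ 0 := by
    refine H b g d' hd' hg fun C => (mul_dvd_mul_left _ ?_).trans (hcop one C).2
    rw [mul_pow]
    exact dvd_mul_left _ _
  rw [h0, mul_zero] at hv
  exact mul_ne_zero ((map_ne_zero _).2 hS) hS' hv.symm

end NVTAux

open NVTAux NVAux in
theorem stNVT (h1 : StAnT) (h2 : StSysT) (h3 : StPaT) : StNVT := by
  intro q F _ _ s σ A n D φ hF hT h8 hA hc hres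
  by_cases him : 0 < (σ s).im
  · exact main h1 h2 h3 hF hT h8 him hA hc hres
  · refine main (σ := σ) h1 h2 h3 (fieldC_neg hF) hT h8 ?_ hA ?_ (res1_neg hres)
    · have h4 : ((-s : 𝓞 F) : F) = -(s : F) := map_neg _ _
      rw [h4, map_neg, Complex.neg_im, neg_pos]
      rcases im_cases (σ := σ) hF with h5 | h5
      · exfalso
        apply him
        rw [h5]
        simp only [Complex.mul_im, Complex.I_re, Complex.I_im, Complex.ofReal_re,
          Complex.ofReal_im, zero_mul, one_mul, zero_add]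
        exact Real.sqrt_pos.2 (by exact_mod_cast hF.1.pos)
      · rw [h5]
        simp only [Complex.neg_im, Complex.mul_im, Complex.I_re, Complex.I_im, Complex.ofReal_re,
          Complex.ofReal_im, zero_mul, one_mul, zero_add]
        have := Real.sqrt_pos.2 (show (0 : ℝ) < q by exact_mod_cast hF.1.pos)
        linarith
    · rcases hc with ⟨hn, hc⟩ | ⟨hn, hc⟩
      · exact Or.inl ⟨hn, isCan_neg hc⟩
      · exact Or.inr ⟨hn, ONV.isCanO_neg hc⟩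

end Pool.Agent.Lib.MP_7c08ba_nt.CN.TW
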