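import Pool.Agent.Lib.MP_7c08ba_nt.CN.T.StTh

set_option autoImplicit false

/-!
Project TW: existence of the auxiliary numbers of a pair.
-/

namespace Pool.Agent.Lib.MP_7c08ba_nt.CN.TW

open NumberField Pool.Agent.Lib.MP_7c08ba_nt.RZ

namespace OmTAux

theorem oddD {q D : ℕ} (h : TwA q D) : Odd D := by
  rw [← Nat.not_even_iff_odd, even_iff_two_dvd]
  intro h2
  have := h.mod4 2 Nat.prime_two h2
  omega

end OmTAux

open OmTAux

/-- (T7) existence of the auxiliary numbers -/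
theorem stOmT : StOmT := by
  intro q F _ _ s σ χ cj D e d₁ d₂ b g hdat hD he h1 h2 hc hq1 hq2 hd hb hg
  have hqo : Odd q := by
    rw [Nat.odd_iff]
    have := hdat.mod
    omega
  have hDo := oddD hD
  obtain ⟨x, y, hxy⟩ : ∃ x y : ℤ, x * d₁ + y * d₂ = 1 :=
    Nat.isCoprime_iff_coprime.2 hc
  have hcop : IsCoprime ((2 * (d₁ * d₂) : ℕ) : ℤ) ((q * D ^ 2 : ℕ) : ℤ) := by
    rw [Nat.isCoprime_iff_coprime]
    have h3 : ∀ m : ℕ, m.Coprime (q * D) → m.Coprime (q * D ^ 2) := by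
      intro m hm
      rw [Nat.coprime_mul_iff_right] at hm ⊢
      exact ⟨hm.1, hm.2.pow_right 2⟩
    refine Nat.Coprime.mul_left ?_ (Nat.Coprime.mul_left (h3 _ hq1) (h3 _ hq2))
    rw [Nat.coprime_two_left]
    exact hqo.mul (hDo.pow)
  obtain ⟨u, v, huv⟩ := hcop
  push_cast at huv
  obtain ⟨ω, hω⟩ : ∃ ω : ℤ, ω = 1 - 2 * (x * d₁) := ⟨_, rfl⟩
  -- `v * (q D²)` is `1` modulo `2 d₁ d₂`
  refine ⟨ω * b * (v * (q * D ^ 2)), ω,
    g - ((x * d₁ * b : ℤ) : 𝓞 F) - ((ω * b * (u * (d₁ * d₂)) : ℤ) : 𝓞 F),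
    he, h1, h2, hc, hq1, hq2, hd, hb, hg, ⟨-x, ?_⟩, ⟨y, ?_⟩, ?_, ?_, ?_⟩
  · rw [hω]; ring
  · rw [hω]; linear_combination (-2 : ℤ) * hxy
  · exact ⟨ω * b * v, by ring⟩
  · exact ⟨-(ω * b * u), by linear_combination ω * b * huv⟩
  · have h4 : ω * b * (v * (q * D ^ 2)) = b - 2 * (x * d₁ * b) - 2 * (ω * b * (u * (d₁ * d₂))) := by
      linear_combination ω * b * huv + b * hω
    rw [h4]
    push_cast
    linear_combination hg

end Pool.Agent.Lib.MP_7c08ba_nt.CN.TW
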