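import Pool.Agent.Lib.MP_7c08ba_nt.CN.T.StP
import Pool.Agent.Lib.MP_7c08ba_nt.RZ.C.OrdC
import Pool.Agent.Lib.MP_7c08ba_nt.RZ.C.Cycle
import Pool.Agent.Lib.MP_7c08ba_nt.RZ.C.App

set_option autoImplicit false

/-! Module OrdT: the lattices of a chain are ordinary, `X` is a unit and `E₂^* E₆ / E₄² = 1`
modulo the maximal ideal. -/

namespace Pool.Agent.Lib.MP_7c08ba_nt.CN.TW

open RZC

namespace OrdTAux

variable {A : ValuationSubring ℂ} {m : ℕ} {c : ℂ} {u v : ℕ → ℂ}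

/-- the `X` of the lattices of a chain are units -/
theorem XX_unit (h1 : StLat) (h2 : StLevel) (hm : 0 < m) (hc : Chain m c u v)
    (hU : 2 ^ m / c ∈ A) (hU' : (2 ^ m / c)⁻¹ ∈ A) (i : ℕ) :
    XX (u i) (v i) ∈ A ∧ (XX (u i) (v i))⁻¹ ∈ A := by
  have h0 : ∀ i, dl (u i) (v i) ≠ 0 := fun i => (h2 _ _ (hc.pos i)).1
  have hX : ∀ i, XX (u i) (v i) ≠ 0 := fun i => (h2 _ _ (hc.pos i)).2.2.1
  have hX0 : XX (u m) (v m) = XX (u 0) (v 0) := by
    have := OrdCAux.XX_per h1 h2 hc 0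
    rwa [zero_add] at this
  have hrel : ∀ i < m, XX (u (i + 1)) (v (i + 1)) ^ 2 =
      XX (u i) (v i) * (XX (u i) (v i) + 48) * XX (u (i + 1)) (v (i + 1)) +
        4096 * XX (u i) (v i) := by
    intro i _
    obtain ⟨-, -, -, -, -, -, -, -, h⟩ := h2 _ _ (hc.pos i)
    rwa [OrdCAux.XX_half h1 h2 hc] at h
  have hprod : ∏ i ∈ Finset.range m, XX (u i) (v i) = (2 ^ m / c) ^ 12 := by
    have hp := OrdCAux.dl_per h1 h2 hc 0
    rw [zero_add] at hp
    rw [OrdCAux.prod_XX h1 h2 hc m, hp, div_pow]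
    have := h0 m
    have hc0 := hc.c0
    field_simp
  have hu0 : (2 : ℂ) ^ m / c ≠ 0 := div_ne_zero (pow_ne_zero _ two_ne_zero) hc.c0
  have hmem := Cyc.all_mem (X := fun i => XX (u i) (v i)) hm hX0 hrel hprod hu0 hU
  have hinv : ∀ i < m, (XX (u i) (v i))⁻¹ ∈ A := fun i hi =>
    Cyc.inv_mem (X := fun i => XX (u i) (v i)) hX hprod hU' hmem hi
  have e : XX (u i) (v i) = XX (u (i % m)) (v (i % m)) := by
    have := OrdCAux.XX_mod h1 h2 hc (i / m) (i % m)
    rwa [Nat.mod_add_div] at this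
  rw [e]
  exact ⟨hmem (i % m) (Nat.mod_lt _ hm).le, hinv (i % m) (Nat.mod_lt _ hm)⟩

/-- the lattices of a chain are ordinary -/
theorem ord (hA : Above2 A) (h1 : StLat) (h2 : StLevel) (hm : 0 < m) (hc : Chain m c u v)
    (hU : 2 ^ m / c ∈ A) (hU' : (2 ^ m / c)⁻¹ ∈ A) (i : ℕ) : Ord A (u i) (v i) := by
  obtain ⟨hXA, hXi⟩ := XX_unit h1 h2 hm hc hU hU' i
  obtain ⟨hd, -, hx0, -, hr, -⟩ := h2 _ _ (hc.pos i)
  have hnot := not_nonunits_of_inv_mem hx0 hXi
  have hnn : (256 : ℂ) ∈ A.nonunits := by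
    have := even_nonunits hA (n := 256) (by decide)
    exact_mod_cast this
  have hmem : XX (u i) (v i) + 256 ∈ A := A.add_mem _ _ hXA (nonunits_mem hnn)
  have hno : XX (u i) (v i) + 256 ∉ A.nonunits := fun hcon => by
    have := nonunits_sub hcon hnn
    rw [add_sub_cancel_right] at this
    exact hnot this
  have hui := inv_mem_of_not_nonunits hmem hno
  have hu0 : XX (u i) (v i) + 256 ≠ 0 := fun hz => hno (by rw [hz]; exact zero_nonunits)
  have he : e4 (u i) (v i) ≠ 0 := by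
    intro hz
    rw [hz] at hr
    have : dl (u i) (v i) * (XX (u i) (v i) + 256) ^ 3 ≠ 0 := mul_ne_zero hd (pow_ne_zero _ hu0)
    apply this
    rw [← hr]
    ring
  refine ⟨hc.pos i, he, ?_⟩
  have hj : jv (u i) (v i) = XX (u i) (v i) ^ 2 * (XX (u i) (v i) + 256)⁻¹ ^ 3 := by
    unfold jv
    field_simp
    linear_combination -hr
  rw [hj]
  exact A.mul_mem _ _ (pow_mem hXA 2) (pow_mem hui 3)

end OrdTAux

open OrdTAux in
theorem stOrdT (h1 : StLat) (h2 : StLevel) (h3 : StE2rel) (h4 : StE2Lat) : StOrdT := by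
  intro A hA m c u v hm hc hU hU' i
  have hO : ∀ i, Ord A (u i) (v i) := fun i => ord hA h1 h2 hm hc hU hU' i
  have hX : ∀ i, XX (u i) (v i) ∈ A ∧ (XX (u i) (v i))⁻¹ ∈ A := fun i =>
    XX_unit h1 h2 hm hc hU hU' i
  have hP := hc.pos
  have hP2 : ∀ i, Pos (u i) (v i / 2) := fun i => (hP i).half
  have e4n : ∀ i, e4 (u i) (v i) ≠ 0 := fun i => (hO i).2.1
  have e4n' : ∀ i, e4 (u i) (v i / 2) ≠ 0 := fun i => by
    rw [← AppAux.e4_lat h1 (hP (i + 1)) (hP2 i) (hc.half i)]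
    exact e4n (i + 1)
  have has : ∀ i, AppAux.aV (u (i + 1)) (v (i + 1)) = AppAux.aV (u i) (v i / 2) := fun i =>
    AppAux.aV_lat h1 h4 (hP (i + 1)) (hP2 i) (hc.half i)
  have hper : ∀ i, AppAux.aV (u (i + m)) (v (i + m)) = AppAux.aV (u i) (v i) := fun i => by
    rw [← AppAux.aV_smul (w₁ := u (i + m)) (w₂ := v (i + m)) hc.c0]
    exact AppAux.aV_lat h1 h4 ((pos_smul hc.c0).2 (hP (i + m))) (hP i) (hc.per i)
  have hr : ∀ i, AppAux.aV (u i) (v i) * (1 + 256 * (XX (u i) (v i))⁻¹) ^ 2 *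
      (1 - 8 * (XX (u i) (v i))⁻¹) * (1 - 512 * (XX (u i) (v i))⁻¹) =
      2 * AppAux.aV (u (i + 1)) (v (i + 1)) * (1 + 16 * (XX (u i) (v i))⁻¹) ^ 2 *
        (1 - 512 * (XX (u i) (v i))⁻¹) ^ 2 -
        (1 - 1728 * jv (u i) (v i)) * (1 + 256 * (XX (u i) (v i))⁻¹) ^ 3 *
          (1 - 8 * (XX (u i) (v i))⁻¹) := fun i => by
    rw [has i]
    exact AppAux.rel3 h2 h3 (hP i) (e4n i) (e4n' i)
  have haA : ∀ i, AppAux.aV (u i) (v i) ∈ A := fun i =>
    AppAux.cyc hA hm (a := fun i => AppAux.aV (u i) (v i)) (x := fun i => jv (u i) (v i))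
      (y := fun i => (XX (u i) (v i))⁻¹) (fun i => (hO i).2.2) (fun i => (hX i).2) hper hr i
  -- `e6 ^ 2 / e4 ^ 3`
  have n1728 : (1728 : ℂ) ∈ A.nonunits := by
    have := even_nonunits hA (n := 1728) (by decide)
    exact_mod_cast this
  have hq : e6 (u i) (v i) ^ 2 / e4 (u i) (v i) ^ 3 - 1 = -(1728 * jv (u i) (v i)) := by
    obtain ⟨-, -, -, he, -⟩ := h2 _ _ (hP i)
    have h0 := e4n i
    unfold jv
    field_simp
    linear_combination he
  have hqn : e6 (u i) (v i) ^ 2 / e4 (u i) (v i) ^ 3 - 1 ∈ A.nonunits := by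
    rw [hq]
    exact nonunits_neg (nonunits_mul_right n1728 (hO i).2.2)
  have he6 : e6 (u i) (v i) ≠ 0 := by
    intro hz
    rw [hz] at hqn
    refine (unit_of_sub_one hqn).2.2.1 ?_
    rw [zero_pow two_ne_zero, zero_div]
  refine ⟨hO i, (hX i).1, (hX i).2, he6, hqn, ?_⟩
  -- `E₂^* E₆ / E₄ ^ 2`
  set y := (XX (u i) (v i))⁻¹ with hy
  have hyA : y ∈ A := (hX i).2
  have hu : ∀ (n : ℤ) (z : ℂ), Even n → z ∈ A → 1 + n * z - 1 ∈ A.nonunits := by
    intro n z hn hz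
    have := nonunits_mul_right (even_nonunits hA hn) hz
    convert this using 1
    ring
  have k1 : (1 + 256 * y) - 1 ∈ A.nonunits := by
    have := hu 256 y (by decide) hyA
    push_cast at this
    exact this
  have k2 : (1 - 8 * y) - 1 ∈ A.nonunits := by
    have := hu (-8) y (by decide) hyA
    push_cast at this
    convert this using 1
    ring
  have k3 : (1 - 512 * y) - 1 ∈ A.nonunits := by
    have := hu (-512) y (by decide) hyA
    push_cast at this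
    convert this using 1
    ring
  have k4 : (1 + 16 * y) - 1 ∈ A.nonunits := by
    have := hu 16 y (by decide) hyA
    push_cast at this
    exact this
  have k5 : (1 - 1728 * jv (u i) (v i)) - 1 ∈ A.nonunits := by
    have := nonunits_neg (nonunits_mul_right n1728 (hO i).2.2)
    convert this using 1
    ring
  set a := AppAux.aV (u i) (v i) with ha
  set a' := AppAux.aV (u (i + 1)) (v (i + 1)) with ha'
  have haA' : a ∈ A := haA i
  have kW := mul_sub_one (mul_sub_one (nonunits_pow_sub_one k1 2) k2) k3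
  have kV := mul_sub_one (mul_sub_one k5 (nonunits_pow_sub_one k1 3)) k2
  have kT : 2 * (a' * ((1 + 16 * y) ^ 2 * (1 - 512 * y) ^ 2)) ∈ A.nonunits :=
    nonunits_mul_right hA (A.mul_mem _ _ (haA (i + 1)) (A.mul_mem _ _
      (pow_mem (unit_of_sub_one k4).1 2) (pow_mem (unit_of_sub_one k3).1 2)))
  have hri := hr i
  have hgoal : a - 1 = 2 * (a' * ((1 + 16 * y) ^ 2 * (1 - 512 * y) ^ 2)) -
      ((1 - 1728 * jv (u i) (v i)) * (1 + 256 * y) ^ 3 * (1 - 8 * y) - 1) -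
      a * ((1 + 256 * y) ^ 2 * (1 - 8 * y) * (1 - 512 * y) - 1) - 2 := by
    linear_combination hri
  have hfin : a - 1 ∈ A.nonunits := by
    rw [hgoal]
    exact nonunits_sub (nonunits_sub (nonunits_sub kT kV) (nonunits_mul_left haA' kW)) hA
  exact hfin

end Pool.Agent.Lib.MP_7c08ba_nt.CN.TW
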