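import Pool.Agent.Lib.MP_7c08ba_nt.CN.T.StH
import Pool.Agent.Lib.MP_7c08ba_nt.CN.T.StP
import Pool.Agent.Lib.MP_7c08ba_nt.CN.NV
import Pool.Agent.Lib.MP_7c08ba_nt.CN.Pa
import Pool.Agent.Lib.MP_7c08ba_nt.RZ.C.All

set_option autoImplicit false

/-! Project TW, (S2): the sums over the principal genus are not zero, even `n`. -/

namespace Pool.Agent.Lib.MP_7c08ba_nt.CN.TW

open NumberField IsDedekindDomain Polynomial RZC
open scoped nonZeroDivisors ComplexConjugate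

noncomputable section

namespace PaTEAux

variable {F : Type} [Field F] [NumberField F] {q : ℕ} {s g : 𝓞 F} {b : ℤ} {D e : ℕ}
  {P : Ideal (𝓞 F)} {σ : F →+* ℂ} {A : ValuationSubring ℂ}

theorem D_pos (hT : TwA q D) : 0 < D := Nat.pos_of_ne_zero hT.sqf.ne_zero

omit [NumberField F] in
/-- the imaginary part of `σ g` -/
theorem im_g (h : 2 * g = b + D * s) : 2 * (σ (g : F)).im = D * (σ (s : F)).im := by
  have h1 := congrArg (algebraMap (𝓞 F) F) h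
  rw [map_mul, map_add, map_mul, map_ofNat, map_intCast, map_natCast] at h1
  have h2 := congrArg σ h1
  rw [map_mul, map_add, map_mul, map_ofNat, map_intCast, map_natCast] at h2
  have h3 := congrArg Complex.im h2
  simpa using h3

/-- what is known about the point `σ g / (2 ^ e d ^ 2)` -/
structure Pnt (A : ValuationSubring ℂ) (j : ℕ) (y : ℝ) (w : ℂ) (K : ℂ) : Prop where
  pos : 0 < (w / K).im
  im : (w / K).im = y
  mem : tt (w / K) ∈ A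
  sq : tt (w / K) ^ 2 - jv w K ∈ A.nonunits
  e4t : e4 (w / K) 1 / t3 (w / K) ^ 8 - 1 ∈ A.nonunits
  e4 : e4 (w / K) 1 = K ^ 4 * RZC.e4 w K
  poly : 1 ≤ j → MvPolynomial.aeval ![ep (w / K), tt (w / K)] (RJ j) / (2 * 12 ^ j) -
    tt (w / K) ∈ A.nonunits

open PaAux in
theorem pnt (hPt : StPt) (hA : Above2 A) {j d : ℕ} (hd : 0 < d) (hje : 2 * j + 3 ≤ e) {w : ℂ}
    (hw : 0 < w.im)
    (h : ∀ k < e, Ord A w (2 ^ (e - k) * (d : ℂ) ^ 2) ∧ XX w (2 ^ (e - k) * (d : ℂ) ^ 2) ∈ A ∧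
      (XX w (2 ^ (e - k) * (d : ℂ) ^ 2))⁻¹ ∈ A ∧
      E2s w (2 ^ (e - k) * (d : ℂ) ^ 2) * e6 w (2 ^ (e - k) * (d : ℂ) ^ 2) /
        RZC.e4 w (2 ^ (e - k) * (d : ℂ) ^ 2) ^ 2 ∈ A) :
    Pnt A j (w.im / (2 ^ e * (d : ℝ) ^ 2)) w (2 ^ e * (d : ℂ) ^ 2) := by
  have hD0 : (d : ℝ) ≠ 0 := by exact_mod_cast hd.ne'
  have hDC : (d : ℂ) ≠ 0 := by exact_mod_cast hD0
  have hK0 : (2 : ℂ) ^ e * (d : ℂ) ^ 2 ≠ 0 :=
    mul_ne_zero (pow_ne_zero _ two_ne_zero) (pow_ne_zero _ hDC)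
  have him1 : (w / (2 ^ e * (d : ℂ) ^ 2)).im = w.im / (2 ^ e * (d : ℝ) ^ 2) := by
    have h1 : (2 : ℂ) ^ e * (d : ℂ) ^ 2 = ((2 ^ e * (d : ℝ) ^ 2 : ℝ) : ℂ) := by push_cast; ring
    rw [h1, Complex.div_ofReal_im]
  have him0 : 0 < (w / (2 ^ e * (d : ℂ) ^ 2)).im := by
    rw [him1]
    positivity
  have key : ∀ k < e, Ord A (2 ^ k * (w / (2 ^ e * (d : ℂ) ^ 2))) 1 ∧
      XX (2 ^ k * (w / (2 ^ e * (d : ℂ) ^ 2))) 1 ∈ A ∧
      (XX (2 ^ k * (w / (2 ^ e * (d : ℂ) ^ 2))) 1)⁻¹ ∈ A ∧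
      E2s (2 ^ k * (w / (2 ^ e * (d : ℂ) ^ 2))) 1 *
        e6 (2 ^ k * (w / (2 ^ e * (d : ℂ) ^ 2))) 1 /
        RZC.e4 (2 ^ k * (w / (2 ^ e * (d : ℂ) ^ 2))) 1 ^ 2 ∈ A := by
    intro k hk
    obtain ⟨a1, a2, a3, a4⟩ := h k hk
    have hw0 : (2 : ℂ) ^ (e - k) * (d : ℂ) ^ 2 ≠ 0 := a1.1.ne
    have hsplit : (2 : ℂ) ^ e = 2 ^ k * 2 ^ (e - k) := by
      rw [← pow_add]
      congr 1
      omega
    have hτ : 2 ^ k * (w / (2 ^ e * (d : ℂ) ^ 2)) = w / (2 ^ (e - k) * (d : ℂ) ^ 2) := by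
      rw [hsplit]
      have h2k : (2 : ℂ) ^ k ≠ 0 := pow_ne_zero _ two_ne_zero
      rw [mul_assoc, ← div_div, ← mul_div_assoc, mul_div_cancel₀ _ h2k]
    rw [hτ]
    exact ⟨Ord_div a1, by rwa [XX_div hw0], by rwa [XX_div hw0], by rwa [quot_div hw0]⟩
  obtain ⟨b1, b2, b3, b4⟩ := hPt A j e (w / (2 ^ e * (d : ℂ) ^ 2)) hA him0 hje key
  rw [jv_div hK0] at b2
  exact ⟨him0, him1, b1, b2, b3, LF_div hK0, b4⟩

end PaTEAux

open PaAux PaTEAux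

theorem stPaTE (h1 : StFldT) (h2 : StLtT) (h3 : StJsT) (h4 : StTor) (h5 : StPt) (h6 : StHth)
    (h7 : StTh4) : StPaTE := by
  intro q F _ _ s σ A n D φ hF hT hD8 him hA hn hres
  obtain ⟨j, rfl⟩ := hn.exists_two_nsmul _
  rw [smul_eq_mul]
  obtain ⟨P, hP, hP2, hfld⟩ := h1 q F _ _ s σ A hF hA
  refine ⟨P, 2 * j + 4, hP, hP2, by omega, ⟨j + 2, by ring⟩, ?_⟩
  intro b g d hsys hg hdvd
  set e : ℕ := 2 * j + 4 with he
  have hev : Even e := ⟨j + 2, by omega⟩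
  obtain ⟨-, hfO, hfX⟩ := hfld D hT
  obtain ⟨hL1, hL2, hL3, π, hπ⟩ := h2 q F _ _ s σ D P e b g d hF him hT hP hP2 hsys hg hdvd hev
  have hD0 : 0 < D := D_pos hT
  -- the imaginary part of `σ g`
  have hσg := im_g (σ := σ) hsys.two
  have hσg0 : 0 < (σ (g : F)).im := by
    have : (0 : ℝ) < D * (σ (s : F)).im := mul_pos (by exact_mod_cast hD0) him
    linarith
  -- the principal genus is finite, of odd order
  obtain ⟨χ, cj, hDat⟩ := NVAux.exists_dat hF him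
  obtain ⟨-, -, -, hodd⟩ := h4 q F _ _ s σ χ cj D hDat hT
  have hfin : Finite (GC F D) := Nat.finite_of_card_ne_zero hodd.pos.ne'
  let _ : Fintype (GC F D) := Fintype.ofFinite _
  -- the points
  have hpC : ∀ C, Pnt A j ((σ (g : F)).im / (2 ^ e * (d C : ℝ) ^ 2)) (σ (g : F))
      (2 ^ e * (d C : ℂ) ^ 2) := by
    intro C
    refine pnt h5 hA (hsys.odd C).pos (by omega) hσg0 fun k hk => ?_
    obtain ⟨hm, hB⟩ := hL1 C (e - k) (by omega)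
    obtain ⟨a1, a2, a3, a4⟩ := hfO _ hm _ _ hB
    obtain ⟨hm', hB'⟩ := hL1 C (e - k - 1) (by omega)
    have hk1 : e - k = (e - k - 1) + 1 := by omega
    have hB2 : IsBD D σ (P * (P ^ (e - k - 1) * idl g (d C) ^ 2)) (σ (g : F))
        (2 ^ (e - k) * (d C : ℂ) ^ 2) := by
      rwa [← mul_assoc, ← pow_succ', ← hk1]
    have hB3 : IsBD D σ (P ^ (e - k - 1) * idl g (d C) ^ 2) (σ (g : F))
        (2 ^ (e - k) * (d C : ℂ) ^ 2 / 2) := by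
      have : (2 : ℂ) ^ (e - k) * (d C : ℂ) ^ 2 / 2 = 2 ^ (e - k - 1) * (d C : ℂ) ^ 2 := by
        rw [hk1, Nat.add_sub_cancel, pow_succ]
        ring
      rwa [this]
    obtain ⟨x1, x2⟩ := hfX _ hm' _ _ hB2 hB3
    exact ⟨a1, x1, x2, (unit_of_sub_one a4).1⟩
  have hp0 : Pnt A j ((σ (g : F)).im / (2 ^ e * (((1 : ℕ) : ℝ)) ^ 2)) (σ (g : F))
      (2 ^ e * (((1 : ℕ) : ℂ)) ^ 2) := by
    refine pnt h5 hA Nat.one_pos (by omega) hσg0 fun k hk => ?_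
    simp only [Nat.cast_one, one_pow, mul_one]
    obtain ⟨hm, hB⟩ := hL2 (e - k) (by omega)
    obtain ⟨a1, a2, a3, a4⟩ := hfO _ hm _ _ hB
    obtain ⟨hm', hB'⟩ := hL2 (e - k - 1) (by omega)
    have hk1 : e - k = (e - k - 1) + 1 := by omega
    have hB2 : IsBD D σ (P * P ^ (e - k - 1)) (σ (g : F)) (2 ^ (e - k)) := by
      rwa [← pow_succ', ← hk1]
    have hB3 : IsBD D σ (P ^ (e - k - 1)) (σ (g : F)) (2 ^ (e - k) / 2) := by
      have : (2 : ℂ) ^ (e - k) / 2 = 2 ^ (e - k - 1) := by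
        rw [hk1, Nat.add_sub_cancel, pow_succ]
        ring
      rwa [this]
    obtain ⟨x1, x2⟩ := hfX _ hm' _ _ hB2 hB3
    exact ⟨a1, x1, x2, (unit_of_sub_one a4).1⟩
  have e0 : (2 : ℂ) ^ e * (((1 : ℕ) : ℂ)) ^ 2 = 2 ^ e := by push_cast; ring
  rw [e0] at hp0
  set τ : GC F D → ℂ := fun C => σ (g : F) / (2 ^ e * (d C : ℂ) ^ 2) with hτ
  set τ₀ : ℂ := σ (g : F) / 2 ^ e with hτ₀
  have ht0 : t3 τ₀ ≠ 0 := (h7 ⟨τ₀, hp0.pos⟩).2.2.1
  have htC : ∀ C, t3 (τ C) ≠ 0 := fun C => (h7 ⟨τ C, (hpC C).pos⟩).2.2.1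
  have hdC : ∀ C, (d C : ℂ) ≠ 0 := fun C => by
    have := (hsys.odd C).pos
    exact_mod_cast this.ne'
  have hdC1 : ∀ C, (d C : ℂ) - 1 ∈ A.nonunits := fun C => by
    have := odd_sub_one hA (n := (d C : ℤ)) (by exact_mod_cast hsys.odd C)
    simpa using this
  -- the ratio of the values of `E₄`
  have hrat : ∀ C, RZC.e4 (σ (g : F)) (2 ^ e * (d C : ℂ) ^ 2) / RZC.e4 (σ (g : F)) (2 ^ e) - 1 ∈
      A.nonunits := by
    intro C
    obtain ⟨hm, hB⟩ := hL1 C e le_rfl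
    obtain ⟨hm', hB'⟩ := hL2 e le_rfl
    obtain ⟨a1, -⟩ := hfO _ hm' _ _ hB'
    obtain ⟨-, -, hidx, hle⟩ := hL3 C
    exact (pOdd A hA _ _ a1 _ _ hB.1 hle (by rw [hidx]; exact (hsys.odd C).pow)).2.1
  -- the ratio of the theta values
  have hρ : ∀ C, t3 (τ C) / t3 τ₀ - 1 ∈ A.nonunits := by
    intro C
    refine sub_one_of_pow8 hA ?_
    have c4 : RZC.e4 τ₀ 1 / t3 τ₀ ^ 8 - 1 ∈ A.nonunits := hp0.e4t
    have c5 : RZC.e4 τ₀ 1 = (2 ^ e) ^ 4 * RZC.e4 (σ (g : F)) (2 ^ e) := hp0.e4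
    have d4 : RZC.e4 (τ C) 1 / t3 (τ C) ^ 8 - 1 ∈ A.nonunits := (hpC C).e4t
    have d5 : RZC.e4 (τ C) 1 = (2 ^ e * (d C : ℂ) ^ 2) ^ 4 *
      RZC.e4 (σ (g : F)) (2 ^ e * (d C : ℂ) ^ 2) := (hpC C).e4
    have h1 := hrat C
    obtain ⟨_, _, n1, _⟩ := unit_of_sub_one h1
    obtain ⟨_, _, n2, _⟩ := unit_of_sub_one c4
    obtain ⟨_, _, n3, _⟩ := unit_of_sub_one d4
    have hr : RZC.e4 (τ C) 1 / RZC.e4 τ₀ 1 = (d C : ℂ) ^ 8 *
        (RZC.e4 (σ (g : F)) (2 ^ e * (d C : ℂ) ^ 2) / RZC.e4 (σ (g : F)) (2 ^ e)) := by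
      rw [d5, c5]
      have h2e : ((2 : ℂ) ^ e) ^ 4 ≠ 0 := pow_ne_zero _ (pow_ne_zero _ two_ne_zero)
      have e1 : ((2 : ℂ) ^ e * (d C : ℂ) ^ 2) ^ 4 *
          RZC.e4 (σ (g : F)) (2 ^ e * (d C : ℂ) ^ 2) =
          ((2 : ℂ) ^ e) ^ 4 * ((d C : ℂ) ^ 8 * RZC.e4 (σ (g : F)) (2 ^ e * (d C : ℂ) ^ 2)) := by
        ring
      rw [e1, mul_div_mul_left _ _ h2e, mul_div_assoc]
    have hr1 : RZC.e4 (τ C) 1 / RZC.e4 τ₀ 1 - 1 ∈ A.nonunits := by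
      rw [hr]
      exact mul_sub_one (nonunits_pow_sub_one (hdC1 C) 8) h1
    have h2 := mul_sub_one (mul_sub_one (inv_sub_one d4) hr1) c4
    have h3 : (RZC.e4 (τ C) 1 / t3 (τ C) ^ 8)⁻¹ * (RZC.e4 (τ C) 1 / RZC.e4 τ₀ 1) *
        (RZC.e4 τ₀ 1 / t3 τ₀ ^ 8) = (t3 (τ C) / t3 τ₀) ^ 8 := by
      have m1 : RZC.e4 (τ C) 1 ≠ 0 := fun h => n3 (by rw [h, zero_div])
      have m2 : RZC.e4 τ₀ 1 ≠ 0 := fun h => n2 (by rw [h, zero_div])
      have m3 := htC C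
      field_simp
    rwa [h3] at h2
  -- the values of the character
  have hφ : ∀ C, φ (idl g (d C)) - 1 ∈ A.nonunits := by
    intro C
    obtain ⟨hN, hc, -, -⟩ := hL3 C
    exact hres _ (by rw [hN]; exact hsys.odd C) hc
  -- the unit factors
  set u : GC F D → ℂ := fun C =>
    φ (idl g (d C)) * ((d C : ℂ) ^ (4 * j + 1))⁻¹ * (t3 (τ C) / t3 τ₀) ^ (4 * j + 1) with hu
  have hu1 : ∀ C, u C - 1 ∈ A.nonunits := fun C =>
    mul_sub_one (mul_sub_one (hφ C) (inv_sub_one (nonunits_pow_sub_one (hdC1 C) _)))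
      (nonunits_pow_sub_one (hρ C) _)
  -- the sum
  set K0 : ℂ := 2 * Real.pi * (σ (g : F)).im / (3 * 2 ^ e) with hK0
  have hK0' : K0 ≠ 0 := by
    have h1 : (Real.pi : ℂ) ≠ 0 := by exact_mod_cast Real.pi_ne_zero
    have h2 : (((σ (g : F)).im : ℝ) : ℂ) ≠ 0 := by exact_mod_cast hσg0.ne'
    exact div_ne_zero (mul_ne_zero (mul_ne_zero two_ne_zero h1) h2)
      (mul_ne_zero three_ne_zero (pow_ne_zero _ two_ne_zero))
  have hsum : SumT σ (2 * j) (2 ^ e) g d φ (hth (2 * j)) = K0 ^ j * t3 τ₀ ^ (4 * j + 1) *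
      ∑ C, u C * MvPolynomial.aeval ![ep (τ C), tt (τ C)] (RJ j) := by
    unfold SumT
    rw [finsum_eq_sum_of_fintype, Finset.mul_sum]
    refine Finset.sum_congr rfl fun C _ => ?_
    have p1 : 0 < (τ C).im := (hpC C).pos
    have p2 : (τ C).im = (σ (g : F)).im / (2 ^ e * (d C : ℝ) ^ 2) := (hpC C).im
    have h1 := h6 j (τ C) p1
    have hcast : ((2 ^ e : ℕ) : ℂ) * (d C : ℂ) ^ 2 = 2 ^ e * (d C : ℂ) ^ 2 := by push_cast; ring
    rw [hcast]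
    change φ (idl g (d C)) * ((d C : ℂ) ^ (2 * j + 1))⁻¹ * hth (2 * j) (τ C) = _
    rw [h1, p2]
    have hd := hdC C
    have h2 : (2 * (Real.pi : ℂ) * (((σ (g : F)).im / (2 ^ e * (d C : ℝ) ^ 2) : ℝ) : ℂ) / 3) =
        K0 * ((d C : ℂ) ^ 2)⁻¹ := by
      rw [hK0]
      push_cast
      have : (2 : ℂ) ^ e ≠ 0 := pow_ne_zero _ two_ne_zero
      field_simp
    rw [h2, hu]
    dsimp only
    have h3 : t3 τ₀ ^ (4 * j + 1) ≠ 0 := pow_ne_zero _ ht0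
    have h4 : t3 τ₀ ^ (4 * j + 1) * (t3 (τ C) / t3 τ₀) ^ (4 * j + 1) = t3 (τ C) ^ (4 * j + 1) := by
      rw [← mul_pow, mul_div_cancel₀ _ ht0]
    have h5 : ((d C : ℂ) ^ (4 * j + 1))⁻¹ = ((d C : ℂ) ^ (2 * j + 1))⁻¹ *
        (((d C : ℂ) ^ 2)⁻¹) ^ j := by
      rw [inv_pow, ← pow_mul, ← mul_inv, ← pow_add]
      congr 2
      ring
    rw [h5, mul_pow, ← h4]
    ring
  rw [hsum]
  refine mul_ne_zero (mul_ne_zero (pow_ne_zero _ hK0') (pow_ne_zero _ ht0)) ?_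
  have hcl : (Fintype.card (GC F D) : ℂ) - 1 ∈ A.nonunits := by
    rw [Nat.card_eq_fintype_card] at hodd
    have := odd_sub_one hA (n := (Fintype.card (GC F D) : ℤ)) (by exact_mod_cast hodd)
    simpa using this
  rcases Nat.eq_zero_or_pos j with hj | hj
  · -- `j = 0`
    have h1 : ∀ C, MvPolynomial.aeval ![ep (τ C), tt (τ C)] (RJ j) = (1 : ℂ) := by
      intro C
      rw [hj]
      simp [RJ]
    simp_rw [h1, mul_one]
    have h2 : ∑ C, (u C - 1) ∈ A.nonunits := nonunits_sum _ _ fun C _ => hu1 C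
    rw [Finset.sum_sub_distrib] at h2
    simp only [Finset.sum_const, Finset.card_univ, nsmul_eq_mul, mul_one] at h2
    have h3 := nonunits_add h2 hcl
    rw [sub_add_sub_cancel] at h3
    exact (unit_of_sub_one h3).2.2.1
  · -- `1 ≤ j`
    set m : GC F D → ℂ := fun C =>
      MvPolynomial.aeval ![ep (τ C), tt (τ C)] (RJ j) / (2 * 12 ^ j) - tt (τ C) with hm
    have hmC : ∀ C, m C ∈ A.nonunits := fun C => (hpC C).poly hj
    have htt : ∀ C, tt (τ C) ∈ A := fun C => (hpC C).mem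
    have h12 : (2 : ℂ) * 12 ^ j ≠ 0 := mul_ne_zero two_ne_zero (pow_ne_zero _ (by norm_num))
    have h1 : ∀ C, u C * MvPolynomial.aeval ![ep (τ C), tt (τ C)] (RJ j) =
        2 * 12 ^ j * (u C * (tt (τ C) + m C)) := by
      intro C
      rw [hm]
      dsimp only
      rw [add_sub_cancel]
      field_simp
    simp_rw [h1]
    rw [← Finset.mul_sum]
    refine mul_ne_zero h12 ?_
    intro h0
    -- `∑ tt = 0` modulo the maximal ideal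
    have h2 : ∑ C, ((u C - 1) * (tt (τ C) + m C) + m C) ∈ A.nonunits :=
      nonunits_sum _ _ fun C _ => nonunits_add
        (nonunits_mul_right (hu1 C) (A.add_mem _ _ (htt C) (nonunits_mem (hmC C)))) (hmC C)
    have h3' : ∑ C, ((u C - 1) * (tt (τ C) + m C) + m C) = - ∑ C, tt (τ C) := by
      rw [← sub_zero (∑ C, ((u C - 1) * (tt (τ C) + m C) + m C)), ← h0,
        ← Finset.sum_sub_distrib, ← Finset.sum_neg_distrib]
      exact Finset.sum_congr rfl fun C _ => by ring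
    rw [h3'] at h2
    have h4 : ∑ C, tt (τ C) ∈ A.nonunits := by
      have := nonunits_neg h2
      rwa [neg_neg] at this
    have h5 : (∑ C, tt (τ C)) ^ 2 ∈ A.nonunits := by
      rw [sq]
      exact nonunits_mul_left (nonunits_mem h4) h4
    have h6 := sq_sum hA Finset.univ (fun C => tt (τ C)) fun C _ => htt C
    have h7 : ∑ C, (tt (τ C) ^ 2 - jv (σ (g : F)) (2 ^ e * (d C : ℂ) ^ 2)) ∈ A.nonunits :=
      nonunits_sum _ _ fun C _ => (hpC C).sq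
    rw [Finset.sum_sub_distrib] at h7
    -- the sum of `1/j`
    have h8 : ∑ C, jv (σ (g : F)) (2 ^ e * (d C : ℂ) ^ 2) - 1 ∈ A.nonunits := by
      have h9 := h3 q F _ _ s σ A D (fun B => P ^ e * idl g (d (π.symm B)) ^ 2)
        (fun _ => σ (g : F)) (fun B => 2 ^ e * (d (π.symm B) : ℂ) ^ 2) hF hA hT hD8
        (fun B => ⟨(hL1 _ e le_rfl).1, by rw [hπ, Equiv.apply_symm_apply]⟩)
        (fun B => (hL1 _ e le_rfl).2)
      rw [finsum_eq_sum_of_fintype] at h9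
      rwa [Equiv.sum_comp π.symm (fun C => jv (σ (g : F)) (2 ^ e * (d C : ℂ) ^ 2))] at h9
    have h9 := nonunits_sub h5 (nonunits_add h6 (nonunits_add h7 h8))
    refine one_not_nonunits (A := A) ?_
    convert h9 using 1
    ring

end

end Pool.Agent.Lib.MP_7c08ba_nt.CN.TW
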