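import Pool.Agent.Lib.MP_7c08ba_nt.CN.T.StP
import Pool.Agent.Lib.MP_7c08ba_nt.CN.OAll

set_option autoImplicit false

/-! Project TW, odd `n`: the final `2`-adic assembly: the sums over the principal genus are not
zero. -/

namespace Pool.Agent.Lib.MP_7c08ba_nt.CN.TW

open NumberField IsDedekindDomain Polynomial RZC Pool.Agent.Lib.MP_7c08ba_nt.CN.OPaAux
open scoped nonZeroDivisors ComplexConjugate

noncomputable section

theorem stPaTO (h1 : StFldT) (h2 : StLtT) (h3 : StJsT) (h0 : StRg) : StPaTO := by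
  intro q F _ _ s σ A n D φ hF hD hD8 him hA hn hres
  obtain ⟨P, hP, hPn, hPD⟩ := h1 q F _ _ s σ A hF hA
  obtain ⟨e, he1, he2⟩ : ∃ e : ℕ, 1 ≤ e ∧ Even e := ⟨2, by norm_num, even_two⟩
  refine ⟨P, e, hP, hPn, he1, he2, ?_⟩
  intro b g d hsys hgP hdvd
  obtain ⟨r, rfl⟩ := hn
  obtain ⟨-, f2, -⟩ := hPD D hD
  obtain ⟨l1, l4, l2, π, hπ⟩ := h2 q F _ _ s σ D P e b g d hF him hD hP hPn hsys hgP hdvd he2
  have l1 : ∀ C, _ := fun C => l1 C e le_rfl
  have l4 := l4 e le_rfl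
  have hD0 : D ≠ 0 := hD.sqf.ne_zero
  have : Finite (RC F D) := (h0 F _ _ D hD0).1
  have : Fintype (GC F D) := Fintype.ofFinite _
  have l5 : ∑ C : GC F D, jv (σ (g : F)) (2 ^ e * (d C : ℂ) ^ 2) - 1 ∈ A.nonunits := by
    have := h3 q F _ _ s σ A D (fun B => P ^ e * idl g (d (π.symm B)) ^ 2)
      (fun _ => σ (g : F)) (fun B => 2 ^ e * (d (π.symm B) : ℂ) ^ 2) hF hA hD hD8
      (fun B => ⟨(l1 _).1, by rw [hπ, Equiv.apply_symm_apply]⟩) (fun B => (l1 _).2)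
    rw [finsum_eq_sum_of_fintype] at this
    rwa [Equiv.sum_comp π.symm (fun C => jv (σ (g : F)) (2 ^ e * (d C : ℂ) ^ 2))] at this
  have hdC : ∀ C, (d C : ℂ) ≠ 0 := fun C => by
    have := (hsys.odd C).pos
    exact_mod_cast this.ne'
  have h2e : (2 : ℂ) ^ e ≠ 0 := pow_ne_zero _ two_ne_zero
  -- the lattices
  obtain ⟨o0, o1, -, -⟩ := f2 _ l4.1 _ _ l4.2
  set E4 : ℂ := e4 (σ (g : F)) (2 ^ e) with hE4
  set E6 : ℂ := e6 (σ (g : F)) (2 ^ e) with hE6
  have hE4' : E4 ≠ 0 := o0.2.1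
  set w : GC F D → ℂ := fun C => 2 ^ e * (d C : ℂ) ^ 2 with hw
  have hw0 : ∀ C, w C ≠ 0 := fun C => mul_ne_zero h2e (pow_ne_zero _ (hdC C))
  set W : GC F D → ℂ := fun C =>
    ev (WO r) (σ (g : F)) (w C) (conj (σ (g : F))) (conj (w C)) with hW
  -- the unit factors
  have hφ : ∀ C, φ (idl g (d C)) - 1 ∈ A.nonunits := fun C => by
    refine hres _ ?_ (l2 C).2.1
    rw [(l2 C).1]
    exact hsys.odd C
  have hlat : ∀ C, Ord A (σ (g : F)) (w C) ∧
      e4 (σ (g : F)) (w C) / E4 - 1 ∈ A.nonunits ∧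
      W C * (E6 / E4 ^ 2) ^ r - 1 ∈ A.nonunits := by
    intro C
    obtain ⟨p1, p2, p3, p4⟩ := f2 _ (l1 C).1 _ _ (l1 C).2
    obtain ⟨-, q2, q3⟩ := RZC.pOdd A hA (σ (g : F)) (2 ^ e) o0 (σ (g : F)) (w C) p1.1
      (l2 C).2.2.2 (by
      rw [hw]
      dsimp only
      rw [(l2 C).2.2.1]
      exact (hsys.odd C).pow)
    change e4 (σ (g : F)) (w C) / E4 - 1 ∈ A.nonunits at q2
    change e6 (σ (g : F)) (w C) / E6 - 1 ∈ A.nonunits at q3
    refine ⟨p1, q2, ?_⟩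
    have q4 := stWO.2.2 A hA r (σ (g : F)) (w C) (conj (σ (g : F))) (conj (w C)) p1.2.1 p3 p4
    have q5 : (E6 / E4 ^ 2) / (e6 (σ (g : F)) (w C) / e4 (σ (g : F)) (w C) ^ 2) - 1 ∈
        A.nonunits := by
      have := mul_sub_one (inv_sub_one q3) (nonunits_pow_sub_one q2 2)
      convert this using 2
      have n1 : e4 (σ (g : F)) (w C) ≠ 0 := p1.2.1
      have n2 : e6 (σ (g : F)) (w C) ≠ 0 := p2
      rw [div_pow, inv_div]
      field_simp
    have q6 := mul_sub_one q4 (nonunits_pow_sub_one q5 r)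
    convert q6 using 2
    have n1 : e4 (σ (g : F)) (w C) ≠ 0 := p1.2.1
    have n2 : e6 (σ (g : F)) (w C) ≠ 0 := p2
    have n3 : e6 (σ (g : F)) (w C) / e4 (σ (g : F)) (w C) ^ 2 ≠ 0 :=
      div_ne_zero n2 (pow_ne_zero _ n1)
    rw [mul_assoc, ← mul_pow, mul_div_cancel₀ _ n3]
  -- the imaginary part of `σ g`
  have hσg : 2 * (σ (g : F)).im = D * (σ (s : F)).im := by
    have h1 := congrArg (algebraMap (𝓞 F) F) hsys.two
    rw [map_mul, map_add, map_mul, map_ofNat, map_intCast, map_natCast] at h1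
    have h2 := congrArg σ h1
    rw [map_mul, map_add, map_mul, map_ofNat, map_intCast, map_natCast] at h2
    have h3 := congrArg Complex.im h2
    simpa using h3
  have hDR : 0 < (D : ℝ) := by exact_mod_cast Nat.pos_of_ne_zero hD0
  set Y : ℝ := D * (σ (s : F)).im / 2 / 2 ^ e with hY
  have hY0 : 0 < Y := by positivity
  set τ : GC F D → ℂ := fun C => σ (g : F) / w C with hτ
  have hτim : ∀ C, (τ C).im = Y / (d C : ℝ) ^ 2 := by
    intro C
    have h1 : w C = ((2 ^ e * (d C : ℝ) ^ 2 : ℝ) : ℂ) := by rw [hw]; push_cast; ring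
    rw [hτ]
    dsimp only
    rw [h1, Complex.div_ofReal_im, hY, div_div, div_div]
    have : (σ (g : F)).im = D * (σ (s : F)).im / 2 := by linarith
    rw [this]
    ring
  have hdR : ∀ C, 0 < (d C : ℝ) := fun C => by
    have := (hsys.odd C).pos
    exact_mod_cast this
  have hτ0 : ∀ C, 0 < (τ C).im := fun C => by
    rw [hτim C]
    exact div_pos hY0 (pow_pos (hdR C) 2)
  -- the theta values
  have hy8 : ∀ C, yO (τ C) ^ 8 = 256 * (w C ^ 12 * dl (σ (g : F)) (w C)) := by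
    intro C
    rw [stEtaO (τ C) (hτ0 C)]
    congr 1
    exact LF_div (hw0 C)
  have hev : ∀ C, ev (WO r) (τ C) 1 (conj (τ C)) 1 = w C ^ (2 * r) * W C := by
    intro C
    have hwr : conj (w C) = w C := by
      have : w C = ((2 ^ e * (d C : ℝ) ^ 2 : ℝ) : ℂ) := by rw [hw]; push_cast; ring
      rw [this, Complex.conj_ofReal]
    have hc : (w C)⁻¹ ≠ 0 := inv_ne_zero (hw0 C)
    have hvol : vol (σ (g : F)) (w C) (conj (σ (g : F))) (conj (w C)) ≠ 0 :=
      vol_conj_ne (hlat C).1.1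
    have := stWO.2.1 r (σ (g : F)) (w C) (conj (σ (g : F))) (conj (w C)) (w C)⁻¹ hc (hw0 C) hvol
    have e1 : (w C)⁻¹ * σ (g : F) = τ C := by rw [hτ]; ring
    have e2 : (w C)⁻¹ * w C = 1 := inv_mul_cancel₀ (hw0 C)
    have e3 : conj (w C)⁻¹ * conj (σ (g : F)) = conj (τ C) := by rw [← map_mul, e1]
    have e4 : conj (w C)⁻¹ * conj (w C) = 1 := by rw [← map_mul, e2, map_one]
    rw [e1, e2, e3, e4] at this
    rw [this, inv_pow, inv_inv]
  -- the constants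
  obtain ⟨T, hT⟩ : ∃ T : ℂ, T ^ 8 = 256 * (2 ^ e) ^ 12 * E4 ^ 3 :=
    IsAlgClosed.exists_pow_nat_eq _ (by norm_num)
  have hT8 : T ^ 8 ≠ 0 := by
    rw [hT]
    exact mul_ne_zero (mul_ne_zero (by norm_num) (pow_ne_zero _ h2e)) (pow_ne_zero _ hE4')
  have hT0 : T ≠ 0 := fun h => hT8 (by rw [h]; simp)
  set lam : ℂ := E6 / E4 ^ 2 with hlam
  have hlam0 : lam ≠ 0 := div_ne_zero o1 (pow_ne_zero _ hE4')
  set z : GC F D → ℂ := fun C =>
    φ (idl g (d C)) * (yO (τ C) / (d C : ℂ) ^ 3 / T) * (W C * lam ^ r) with hz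
  have hz8 : ∀ C, z C ^ 8 - jv (σ (g : F)) (w C) ∈ A.nonunits := by
    intro C
    obtain ⟨p1, p2, p3⟩ := hlat C
    have hu := mul_sub_one (mul_sub_one (nonunits_pow_sub_one (hφ C) 8)
      (nonunits_pow_sub_one p2 3)) (nonunits_pow_sub_one p3 8)
    have := nonunits_mul_right hu p1.2.2
    convert this using 1
    have n1 : e4 (σ (g : F)) (w C) ≠ 0 := p1.2.1
    have n2 := hdC C
    have k1 : (yO (τ C) / (d C : ℂ) ^ 3 / T) ^ 8 =
        (e4 (σ (g : F)) (w C) / E4) ^ 3 * jv (σ (g : F)) (w C) := by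
      rw [div_pow, div_pow, hy8 C, hT]
      unfold jv
      have k2 : w C ^ 12 = (2 ^ e) ^ 12 * (d C : ℂ) ^ 24 := by
        rw [hw]
        ring
      rw [k2]
      field_simp
    rw [hz]
    dsimp only
    rw [mul_pow, mul_pow, k1]
    ring
  have hzA : ∀ C, z C ∈ A := by
    intro C
    refine mem_of_pow8 ?_
    have := A.add_mem _ _ (nonunits_mem (hz8 C)) (hlat C).1.2.2
    simpa using this
  -- the sum of the `z C` is not zero
  have hsum0 : ∑ C, z C ≠ 0 := by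
    intro h0
    have a1 := pow8_sum hA Finset.univ z fun C _ => hzA C
    rw [h0] at a1
    have a2 : ∑ C, (z C ^ 8 - jv (σ (g : F)) (w C)) ∈ A.nonunits :=
      nonunits_sum _ _ fun C _ => hz8 C
    rw [Finset.sum_sub_distrib] at a2
    have a3 := nonunits_add a1 (nonunits_add a2 l5)
    refine one_not_nonunits (A := A) ?_
    have a4 := nonunits_neg a3
    convert a4 using 1
    ring
  -- the sum
  set C0 : ℂ := (Real.sqrt (2 * Real.pi * Y) : ℂ) * (2 * Real.pi * Y) ^ r with hC0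
  have hC0' : C0 ≠ 0 := by
    refine mul_ne_zero ?_ (pow_ne_zero _ ?_)
    · have : 0 < Real.sqrt (2 * Real.pi * Y) := Real.sqrt_pos.2 (by positivity)
      exact_mod_cast this.ne'
    · have : 0 < 2 * Real.pi * Y := by positivity
      exact_mod_cast this.ne'
  have hterm : ∀ C, φ (idl g (d C)) * ((d C : ℂ) ^ (2 * r + 1 + 1))⁻¹ *
      hthO (2 * r + 1) (τ C) = C0 * (2 ^ e) ^ (2 * r) * T * (lam ^ r)⁻¹ * z C := by
    intro C
    rw [O.lad r (τ C) (hτ0 C), hev C, hτim C]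
    have hd := hdC C
    have s1 : Real.sqrt (2 * Real.pi * (Y / (d C : ℝ) ^ 2)) =
        Real.sqrt (2 * Real.pi * Y) / d C := by
      have : 2 * Real.pi * (Y / (d C : ℝ) ^ 2) = 2 * Real.pi * Y / (d C : ℝ) ^ 2 := by ring
      rw [this, Real.sqrt_div' _ (by positivity), Real.sqrt_sq (hdR C).le]
    have s2 : (2 * (Real.pi : ℂ) * ((Y / (d C : ℝ) ^ 2 : ℝ) : ℂ)) ^ r =
        (2 * Real.pi * Y) ^ r / (d C : ℂ) ^ (2 * r) := by
      push_cast
      rw [← mul_div_assoc, div_pow, ← pow_mul]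
    have s3 : w C ^ (2 * r) = (2 ^ e) ^ (2 * r) * (d C : ℂ) ^ (2 * r) * (d C : ℂ) ^ (2 * r) := by
      rw [hw]
      dsimp only
      rw [mul_pow, mul_assoc, ← pow_add, ← pow_mul (d C : ℂ) 2 (2 * r)]
      congr 2
      ring
    rw [s1, s2, s3, hC0, hz]
    dsimp only
    push_cast
    have hl : lam ^ r ≠ 0 := pow_ne_zero _ hlam0
    have hd2 : (d C : ℂ) ^ (2 * r) ≠ 0 := pow_ne_zero _ hd
    rw [pow_add, pow_add, pow_one]
    field_simp
  have hS : SumT σ (2 * r + 1) (2 ^ e) g d φ (hthO (2 * r + 1)) =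
      C0 * (2 ^ e) ^ (2 * r) * T * (lam ^ r)⁻¹ * ∑ C, z C := by
    unfold SumT
    rw [finsum_eq_sum_of_fintype, Finset.mul_sum]
    refine Finset.sum_congr rfl fun C _ => ?_
    rw [← hterm C]
    have : (σ (g : F)) / (((2 ^ e : ℕ) : ℂ) * (d C : ℂ) ^ 2) = τ C := by
      rw [hτ]
      push_cast
      rfl
    rw [this]
  rw [hS]
  exact mul_ne_zero (mul_ne_zero (mul_ne_zero (mul_ne_zero hC0'
    (pow_ne_zero _ h2e)) hT0) (inv_ne_zero (pow_ne_zero _ hlam0))) hsum0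

end

end Pool.Agent.Lib.MP_7c08ba_nt.CN.TW
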