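import Mathlib
import Pool.Agent.Lib.MP_7c08ba_nt.CN.T.StTh
import Pool.Agent.Lib.MP_7c08ba_nt.CN.AAll

set_option autoImplicit false

/-!
Project TW, module (PairT): the terms of the central value for the ideals attached to a pair of
coprime norms.  Compare `CN/APair.lean`.
-/

namespace Pool.Agent.Lib.MP_7c08ba_nt.CN.TW

open NumberField IsDedekindDomain Polynomial Pool.Agent.Lib.MP_7c08ba_nt.RZ
open scoped nonZeroDivisors ComplexConjugate MatrixGroups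

namespace PairTAux

lemma sqrtQ (q D : ℕ) : Real.sqrt ((q * D ^ 2 : ℕ) : ℝ) = D * Real.sqrt q := by
  rw [Nat.cast_mul, Nat.cast_pow, Real.sqrt_mul (Nat.cast_nonneg q),
    Real.sqrt_sq (Nat.cast_nonneg D), mul_comm]

lemma dpos {q D : ℕ} (h : TwA q D) : 0 < D := Nat.pos_of_ne_zero h.sqf.ne_zero

lemma dodd {q D : ℕ} (h : TwA q D) : Odd D := by
  rw [← Nat.not_even_iff_odd]
  intro he
  have := h.mod4 2 Nat.prime_two (even_iff_two_dvd.1 he)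
  omega

/-- the exponential factors -/
lemma phase {Q e d₁ d₂ : ℕ} {b a ω : ℤ} (hQ : 0 < Q) (epos : 1 ≤ e) (odd₁ : Odd d₁)
    (odd₂ : Odd d₂) (hcop : IsCoprime (2 * (d₁ * d₂) : ℤ) (Q : ℤ))
    (dvd : (8 * 2 ^ e * ((d₁ : ℤ) * d₂) ^ 2 : ℤ) ∣ b ^ 2 + Q) (qa : (Q : ℤ) ∣ a)
    (ab : (2 * (d₁ * d₂) : ℤ) ∣ a - ω * b) (p : ℤ × ℤ) :
    ee (Qz Q (2 ^ e) (d₁ * d₂) b p * ((a : ℂ) / (2 * Q * (d₁ * d₂ : ℕ)))) =
      ee ((p.1 * ω * p.2 : ℤ) / (2 * (d₁ * d₂ : ℕ))) := by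
  obtain ⟨a', ha'⟩ := qa
  obtain ⟨c, hc⟩ := dvd
  obtain ⟨e', rfl⟩ : ∃ e', e = e' + 1 := ⟨e - 1, by omega⟩
  have hβ : 0 < d₁ * d₂ := Nat.mul_pos odd₁.pos odd₂.pos
  have hq0 : (Q : ℂ) ≠ 0 := by exact_mod_cast hQ.ne'
  have hβ0 : ((d₁ * d₂ : ℕ) : ℂ) ≠ 0 := by exact_mod_cast hβ.ne'
  have hr : (2 * (d₁ * d₂) : ℤ) ∣ ω + a' * b := by
    apply hcop.dvd_of_dvd_mul_left
    obtain ⟨k, hk⟩ := ab
    refine ⟨k * b + 4 * 2 ^ (e' + 1) * (d₁ * d₂) * c * ω, ?_⟩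
    have e1 : (Q : ℤ) * (ω + a' * b) = (a - ω * b) * b + ω * (b ^ 2 + Q) := by
      rw [ha']; ring
    rw [e1, hk, hc]
    ring
  obtain ⟨r, hr⟩ := hr
  have hrC : (ω : ℂ) + a' * b = 2 * (d₁ * d₂ : ℕ) * r := by
    have := congrArg (Int.cast : ℤ → ℂ) hr
    push_cast at this ⊢
    exact this
  have hcC : (b : ℂ) ^ 2 + Q = 8 * 2 ^ (e' + 1) * ((d₁ * d₂ : ℕ) : ℂ) ^ 2 * c := by
    have := congrArg (Int.cast : ℤ → ℂ) hc
    push_cast at this ⊢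
    exact this
  have hK0 : (2 ^ (e' + 1) : ℂ) ≠ 0 := pow_ne_zero _ two_ne_zero
  have hQ : ((Qz Q (2 ^ (e' + 1)) (d₁ * d₂) b p : ℝ) : ℂ) =
      2 ^ (e' + 1) * (d₁ * d₂ : ℕ) * p.1 ^ 2 - b * p.1 * p.2 +
        2 * (d₁ * d₂ : ℕ) * c * p.2 ^ 2 := by
    unfold Qz
    rw [Complex.ofReal_div]
    have hden : (((((2 ^ (e' + 1) : ℕ) : ℝ) * ((d₁ * d₂ : ℕ) : ℝ)) : ℝ) : ℂ) =
        2 ^ (e' + 1) * (d₁ * d₂ : ℕ) := by
      push_cast; ring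
    rw [hden, div_eq_iff (mul_ne_zero hK0 hβ0)]
    push_cast
    push_cast at hcC
    linear_combination ((p.2 : ℂ) ^ 2 / 4) * hcC
  have key : ((Qz Q (2 ^ (e' + 1)) (d₁ * d₂) b p : ℝ) : ℂ) *
      ((a : ℂ) / (2 * Q * (d₁ * d₂ : ℕ))) = (p.1 * ω * p.2 : ℤ) / (2 * (d₁ * d₂ : ℕ)) +
        ((2 ^ e' * p.1 ^ 2 * a' + c * p.2 ^ 2 * a' - r * p.1 * p.2 : ℤ) : ℂ) := by
    rw [hQ, ha']
    generalize ((d₁ * d₂ : ℕ) : ℂ) = B at *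
    push_cast
    field_simp
    rw [pow_succ]
    linear_combination (-(p.1 : ℂ) * p.2) * hrC
  rw [key, APair.ee_add', APair.ee_int', mul_one]

section

variable {F : Type} [Field F] [NumberField F] {q D : ℕ} {s : 𝓞 F} {σ : F →+* ℂ}
  {χ : DirichletCharacter ℂ q} {cj : 𝓞 F ≃+* 𝓞 F} {e d₁ d₂ : ℕ} {b a ω : ℤ} {g ga : 𝓞 F}

lemma sig (hD : Dat q s σ χ cj) (t : 𝓞 F) (c : ℤ) (ht : 2 * t = c + D * s) :
    σ t = (c + Complex.I * Real.sqrt ((q * D ^ 2 : ℕ) : ℝ)) / 2 := by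
  have h := congrArg (fun x : 𝓞 F => σ (algebraMap (𝓞 F) F x)) ht
  simp only [map_mul, map_add, map_ofNat, map_intCast, map_natCast] at h
  have h2 : σ (algebraMap (𝓞 F) F s) = Complex.I * Real.sqrt q := hD.im
  rw [h2] at h
  have h3 : σ (algebraMap (𝓞 F) F t) =
      (c + Complex.I * Real.sqrt ((q * D ^ 2 : ℕ) : ℝ)) / 2 := by
    rw [sqrtQ, Complex.ofReal_mul, Complex.ofReal_natCast]
    linear_combination (1 / 2 : ℂ) * h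
  exact h3

lemma sqrt_pos' (hD : Dat q s σ χ cj) (hT : TwA q D) :
    0 < Real.sqrt ((q * D ^ 2 : ℕ) : ℝ) :=
  Real.sqrt_pos.mpr (by exact_mod_cast Nat.mul_pos hD.prime.pos (pow_pos (dpos hT) 2))

lemma sig_el (hD : Dat q s σ χ cj) (hg : 2 * g = b + D * s) (K β : ℕ) (p : ℤ × ℤ) :
    σ (APair.el cj g K β p) = ((K * β * p.1 - b * p.2 / 2 : ℝ) : ℂ) +
      ((p.2 * Real.sqrt ((q * D ^ 2 : ℕ) : ℝ) / 2 : ℝ) : ℂ) * Complex.I := by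
  have h1 : σ (algebraMap (𝓞 F) F (cj g)) = conj (σ (algebraMap (𝓞 F) F g)) := hD.conjσ g
  have h2 : σ (algebraMap (𝓞 F) F g) =
      (b + Complex.I * Real.sqrt ((q * D ^ 2 : ℕ) : ℝ)) / 2 := sig hD g b hg
  have h3 : σ (algebraMap (𝓞 F) F (APair.el cj g K β p)) = ((K * β : ℕ) : ℂ) * (p.1 : ℂ) -
      (p.2 : ℂ) * conj ((b + Complex.I * Real.sqrt ((q * D ^ 2 : ℕ) : ℝ)) / 2) := by
    unfold APair.el
    simp only [map_mul, map_sub, map_natCast, map_intCast]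
    rw [h1, h2]
  generalize Real.sqrt ((q * D ^ 2 : ℕ) : ℝ) = S at *
  have h4 : conj (((b : ℂ) + Complex.I * S) / 2) = (b - Complex.I * S) / 2 := by
    simp only [map_div₀, map_add, map_mul, Complex.conj_I, Complex.conj_ofReal, map_intCast,
      map_ofNat]
    ring
  rw [h4] at h3
  show σ (algebraMap (𝓞 F) F (APair.el cj g K β p)) = _
  rw [h3]
  push_cast
  ring

lemma nsq_el (hD : Dat q s σ χ cj) (hg : 2 * g = b + D * s) (K β : ℕ) (p : ℤ × ℤ) :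
    Complex.normSq (σ (APair.el cj g K β p)) =
      (K * β * p.1 - b * p.2 / 2) ^ 2 + (q * D ^ 2 : ℕ) * p.2 ^ 2 / 4 := by
  rw [sig_el hD hg, Complex.normSq_add_mul_I]
  have := Real.sq_sqrt (Nat.cast_nonneg (q * D ^ 2) : (0 : ℝ) ≤ ((q * D ^ 2 : ℕ) : ℝ))
  generalize Real.sqrt ((q * D ^ 2 : ℕ) : ℝ) = S at *
  generalize ((q * D ^ 2 : ℕ) : ℝ) = Q at *
  nlinarith

lemma el_inj (hD : Dat q s σ χ cj) (hT : TwA q D) (hg : 2 * g = b + D * s) {K β : ℕ}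
    (hK : 0 < K) (hβ : 0 < β) : Function.Injective (APair.el cj g K β) := by
  intro p p' h
  have h1 := sig_el hD hg K β p
  have h2 := sig_el hD hg K β p'
  rw [h] at h1
  rw [h1] at h2
  have hs := sqrt_pos' hD hT
  generalize Real.sqrt ((q * D ^ 2 : ℕ) : ℝ) = S at *
  have hre := congrArg Complex.re h2
  have him := congrArg Complex.im h2
  simp only [Complex.add_re, Complex.ofReal_re, Complex.mul_re, Complex.I_re, mul_zero,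
    Complex.ofReal_im, Complex.I_im, mul_one, sub_self, add_zero] at hre
  simp only [Complex.add_im, Complex.ofReal_re, Complex.mul_im, Complex.I_re, mul_zero,
    Complex.ofReal_im, Complex.I_im, mul_one, zero_add, add_zero] at him
  have e2 : (p.2 : ℝ) = p'.2 := by
    have : ((p.2 : ℝ) - p'.2) * S = 0 := by linarith
    rcases mul_eq_zero.mp this with h0 | h0
    · linarith
    · exact absurd h0 hs.ne'
  have hKβ : (0 : ℝ) < K * β := by positivity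
  have e1 : (p.1 : ℝ) = p'.1 := by
    rw [e2] at hre
    have : ((p.1 : ℝ) - p'.1) * (K * β) = 0 := by linarith
    rcases mul_eq_zero.mp this with h0 | h0
    · linarith
    · exact absurd h0 hKβ.ne'
  have e1' : p.1 = p'.1 := by exact_mod_cast e1
  have e2' : p.2 = p'.2 := by exact_mod_cast e2
  exact Prod.ext e1' e2'

lemma Qa_el (hD : Dat q s σ χ cj) (hg : 2 * g = b + D * s) (K β : ℕ) (p : ℤ × ℤ)
    (bb : Ideal (𝓞 F)) (hN : Ideal.absNorm bb = K * β) :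
    Qa σ bb (APair.el cj g K β p) = Qz (q * D ^ 2) K β b p := by
  unfold Qa Qz
  rw [nsq_el hD hg, hN, Nat.cast_mul K β]

lemma u_eq (hD : Dat q s σ χ cj) (hT : TwA q D) (h : PDT q D s e d₁ d₂ b a ω g ga) :
    σ ga / (q * D ^ 2 * ((d₁ * d₂ : ℕ) : ℂ)) =
      (((a : ℝ) / (2 * (q * D ^ 2 : ℕ) * (d₁ * d₂ : ℕ)) : ℝ) : ℂ) +
        ((1 / (2 * (d₁ * d₂ : ℕ) * Real.sqrt ((q * D ^ 2 : ℕ) : ℝ)) : ℝ) : ℂ) *
          Complex.I := by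
  have hβ : 0 < d₁ * d₂ := Nat.mul_pos h.odd₁.pos h.odd₂.pos
  have hβ0 : ((d₁ * d₂ : ℕ) : ℂ) ≠ 0 := by exact_mod_cast hβ.ne'
  have hs0 : (Real.sqrt ((q * D ^ 2 : ℕ) : ℝ) : ℂ) ≠ 0 := by
    exact_mod_cast (sqrt_pos' hD hT).ne'
  have h2 : σ ga = (a + Complex.I * Real.sqrt ((q * D ^ 2 : ℕ) : ℝ)) / 2 :=
    sig hD ga a h.two'
  rw [h2]
  have hss : (q : ℂ) * D ^ 2 = Real.sqrt ((q * D ^ 2 : ℕ) : ℝ) *
      Real.sqrt ((q * D ^ 2 : ℕ) : ℝ) := by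
    rw [← Complex.ofReal_mul, Real.mul_self_sqrt (Nat.cast_nonneg _)]
    push_cast
    ring
  have hss' : (((q * D ^ 2 : ℕ) : ℝ) : ℂ) = Real.sqrt ((q * D ^ 2 : ℕ) : ℝ) *
      Real.sqrt ((q * D ^ 2 : ℕ) : ℝ) := by
    rw [← Complex.ofReal_mul, Real.mul_self_sqrt (Nat.cast_nonneg _)]
  simp only [Complex.ofReal_div, Complex.ofReal_mul, Complex.ofReal_intCast,
    Complex.ofReal_ofNat, Complex.ofReal_one]
  rw [hss, hss', Complex.ofReal_natCast (d₁ * d₂)]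
  generalize ((d₁ * d₂ : ℕ) : ℂ) = B at *
  generalize (Real.sqrt ((q * D ^ 2 : ℕ) : ℝ) : ℂ) = S at *
  field_simp

lemma u_im (hD : Dat q s σ χ cj) (hT : TwA q D) (h : PDT q D s e d₁ d₂ b a ω g ga) :
    (σ ga / (q * D ^ 2 * ((d₁ * d₂ : ℕ) : ℂ))).im =
      1 / (2 * (d₁ * d₂ : ℕ) * Real.sqrt ((q * D ^ 2 : ℕ) : ℝ)) := by
  rw [u_eq hD hT h, Complex.add_im, Complex.ofReal_im, Complex.mul_I_im, Complex.ofReal_re,
    zero_add]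

lemma pt_eq (hD : Dat q s σ χ cj) (hg : 2 * g = b + D * s) (K d : ℕ) :
    σ g / ((K : ℕ) * (d : ℂ) ^ 2) = pt (q * D ^ 2) K d b := by
  have h1 : σ g = (b + Complex.I * Real.sqrt ((q * D ^ 2 : ℕ) : ℝ)) / 2 := sig hD g b hg
  unfold pt
  rw [h1, div_div]

lemma thD_eq (hFac : StFac) (hD : Dat q s σ χ cj) (hT : TwA q D)
    (h : PDT q D s e d₁ d₂ b a ω g ga)
    (bb : Ideal (𝓞 F)) (hN : Ideal.absNorm bb = 2 ^ e * (d₁ * d₂))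
    (hmem : ∀ x : 𝓞 F, x ∈ latD D bb ↔
      ∃ m k : ℤ, x = ((2 ^ e * (d₁ * d₂) : ℕ) : 𝓞 F) * m - k * cj g) (n : ℕ) :
    thD D σ bb n (σ ga / (q * D ^ 2 * ((d₁ * d₂ : ℕ) : ℂ))) =
      (((1 / (2 * (d₁ * d₂ : ℕ) * Real.sqrt ((q * D ^ 2 : ℕ) : ℝ)) : ℝ) : ℂ) ^ n)⁻¹ *
        ((Real.sqrt (Real.sqrt ((q * D ^ 2 : ℕ) : ℝ)) /
          (Real.sqrt ((2 ^ e : ℕ) : ℝ) * 2 ^ n * n.factorial)) *
          (hth n (pt (q * D ^ 2) (2 ^ e) d₁ b) *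
            conj (hth n (pt (q * D ^ 2) (2 ^ e) d₂ b)))) := by
  have hβ : 0 < d₁ * d₂ := Nat.mul_pos h.odd₁.pos h.odd₂.pos
  have hK : 0 < 2 ^ e := Nat.two_pow_pos e
  have hQ : 0 < q * D ^ 2 := Nat.mul_pos hD.prime.pos (pow_pos (dpos hT) 2)
  obtain ⟨-, hF⟩ := hFac n (q * D ^ 2) (2 ^ e) d₁ d₂ b ω hQ hK h.odd₁.pos h.odd₂.pos
    h.om₁ h.om₂
  have hs4 : (Real.sqrt (Real.sqrt ((q * D ^ 2 : ℕ) : ℝ)) : ℂ) ≠ 0 := by
    exact_mod_cast (Real.sqrt_pos.mpr (sqrt_pos' hD hT)).ne'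
  have hsK : (Real.sqrt ((2 ^ e : ℕ) : ℝ) : ℂ) ≠ 0 := by
    have : 0 < Real.sqrt ((2 ^ e : ℕ) : ℝ) := Real.sqrt_pos.mpr (by exact_mod_cast hK)
    exact_mod_cast this.ne'
  have hfa : ((n.factorial : ℕ) : ℂ) ≠ 0 := by exact_mod_cast n.factorial_ne_zero
  have h2n : (2 ^ n : ℂ) ≠ 0 := pow_ne_zero _ two_ne_zero
  rw [hF]
  have hcancel : ∀ T : ℂ, (Real.sqrt (Real.sqrt ((q * D ^ 2 : ℕ) : ℝ)) : ℂ) /
      (Real.sqrt ((2 ^ e : ℕ) : ℝ) * 2 ^ n * n.factorial) *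
      (Real.sqrt ((2 ^ e : ℕ) : ℝ) * 2 ^ n * n.factorial /
        Real.sqrt (Real.sqrt ((q * D ^ 2 : ℕ) : ℝ)) * T) = T := by
    intro T
    generalize (Real.sqrt (Real.sqrt ((q * D ^ 2 : ℕ) : ℝ)) : ℂ) = A at *
    generalize (Real.sqrt ((2 ^ e : ℕ) : ℝ) : ℂ) = C at *
    generalize ((n.factorial : ℕ) : ℂ) = E at *
    field_simp
  rw [hcancel]
  -- the bijection
  have hbij : Function.Bijective (fun p : ℤ × ℤ =>
      (⟨APair.el cj g (2 ^ e) (d₁ * d₂) p, (hmem _).mpr ⟨p.1, p.2, rfl⟩⟩ : latD D bb)) := by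
    constructor
    · intro p p' hp
      exact el_inj hD hT h.two hK hβ (congrArg Subtype.val hp)
    · rintro ⟨x, hx⟩
      obtain ⟨m, k, hmk⟩ := (hmem x).mp hx
      exact ⟨(m, k), Subtype.ext hmk.symm⟩
  have hcop : IsCoprime (2 * (d₁ * d₂) : ℤ) ((q * D ^ 2 : ℕ) : ℤ) := by
    have hq2 : Nat.Coprime 2 q := by
      rw [Nat.coprime_primes Nat.prime_two hD.prime]
      have := hD.mod
      omega
    have hD2 : Nat.Coprime 2 D := (Nat.coprime_two_left).2 (dodd hT)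
    have hc : ∀ d : ℕ, d.Coprime (q * D) → d.Coprime (q * D ^ 2) := by
      intro d hd
      rw [pow_two, ← mul_assoc]
      exact Nat.Coprime.mul_right hd (Nat.Coprime.coprime_mul_left_right hd)
    have := Nat.isCoprime_iff_coprime.mpr (Nat.Coprime.mul_left
      (hc 2 (Nat.Coprime.mul_right hq2 hD2)) (Nat.Coprime.mul_left (hc _ h.cq₁) (hc _ h.cq₂)))
    push_cast at this ⊢
    exact this
  unfold thD
  rw [u_im hD hT h]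
  congr 1
  rw [← Equiv.tsum_eq (Equiv.ofBijective _ hbij)]
  apply tsum_congr
  intro p
  show lag n (4 * Real.pi * Qa σ bb (APair.el cj g (2 ^ e) (d₁ * d₂) p) *
      ((1 / (2 * (d₁ * d₂ : ℕ) * Real.sqrt ((q * D ^ 2 : ℕ) : ℝ)) : ℝ) : ℂ)) *
      ee (Qa σ bb (APair.el cj g (2 ^ e) (d₁ * d₂) p) *
        (σ ga / (q * D ^ 2 * ((d₁ * d₂ : ℕ) : ℂ)))) = _
  rw [Qa_el hD h.two _ _ _ _ hN, u_eq hD hT h, mul_assoc (lag _ _)]
  congr 1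
  rw [← phase hQ h.epos h.odd₁ h.odd₂ hcop (by push_cast; exact h.dvd)
    (by push_cast; exact h.qa) h.ab p, ← APair.ee_add']
  congr 1
  simp only [Complex.ofReal_div, Complex.ofReal_mul, Complex.ofReal_intCast,
    Complex.ofReal_ofNat, Complex.ofReal_one, Complex.ofReal_natCast]
  ring

end

end PairTAux

open PairTAux in
/-- (T9) -/
theorem stPairT (h1 : StCMT) : StPairT := by
  intro q F _ _ s σ χ cj D n e d₁ d₂ b a ω g ga φ hD hT hφ h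
  obtain ⟨⟨n1, -⟩, ⟨n2, -⟩, ⟨nK, -⟩, hRP, hmem⟩ :=
    h1 q F _ _ s σ χ cj D e d₁ d₂ b a ω g ga hD hT h
  obtain ⟨c1, c2, c3, c4⟩ := A.cj q F _ _ s σ χ cj n φ hD hφ
  have hd1 := h.odd₁.pos
  have hd2 := h.odd₂.pos
  have hβ : 0 < d₁ * d₂ := Nat.mul_pos hd1 hd2
  have hK : 0 < 2 ^ e := Nat.two_pow_pos e
  set D1 := idl g d₁ with hD1
  set D2 := idl g d₂ with hD2
  set P := idl g (2 ^ e) with hP
  have nA : Ideal.absNorm (D1 * D2.map (cj : 𝓞 F →+* 𝓞 F)) = d₁ * d₂ := hRP.norm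
  have nB : Ideal.absNorm ((P * D1 * D2).map (cj : 𝓞 F →+* 𝓞 F)) = 2 ^ e * (d₁ * d₂) := by
    have e1 : Ideal.absNorm (P * D1 * D2) = 2 ^ e * (d₁ * d₂) := by
      rw [map_mul, map_mul, nK, n1, n2, mul_assoc]
    rw [APair.norm_conj hD c1 _ (by rw [e1]; positivity), e1]
  -- the ideal is prime to `s`
  have hcop : IsCoprime (D1 * D2.map (cj : 𝓞 F →+* 𝓞 F)) (Ideal.span {s}) := by
    rw [Ideal.isCoprime_iff_exists]
    have hc : IsCoprime ((d₁ * d₂ : ℕ) : ℤ) (q : ℤ) :=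
      Nat.isCoprime_iff_coprime.mpr (Nat.Coprime.mul_left
        (Nat.Coprime.coprime_mul_right_right h.cq₁) (Nat.Coprime.coprime_mul_right_right h.cq₂))
    obtain ⟨u, v, huv⟩ := hc
    have hβm : ((d₁ * d₂ : ℕ) : 𝓞 F) ∈ D1 * D2.map (cj : 𝓞 F →+* 𝓞 F) := by
      have := Ideal.absNorm_mem (D1 * D2.map (cj : 𝓞 F →+* 𝓞 F))
      rwa [nA] at this
    refine ⟨(u : 𝓞 F) * ((d₁ * d₂ : ℕ) : 𝓞 F), Ideal.mul_mem_left _ _ hβm,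
      (v : 𝓞 F) * (q : 𝓞 F), ?_, ?_⟩
    · rw [Ideal.mem_span_singleton]
      refine ⟨-(v * s), ?_⟩
      linear_combination (v : 𝓞 F) * hD.sq
    · have := congrArg (Int.cast : ℤ → 𝓞 F) huv
      push_cast at this ⊢
      exact this
  have hφA : φ (D1 * D2.map (cj : 𝓞 F →+* 𝓞 F)) ≠ 0 := by
    intro h0
    have := (c3 _ hcop).2
    rw [h0, nA, norm_zero, zero_pow two_ne_zero] at this
    have hp : (0 : ℝ) < ((d₁ * d₂ : ℕ) : ℝ) ^ (2 * n + 1) := by positivity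
    exact hp.ne this
  have hφ2 : (φ (D1 * D2.map (cj : 𝓞 F →+* 𝓞 F)))⁻¹ *
      φ (Ideal.span {((d₁ * d₂ : ℕ) : 𝓞 F)}) = conj (φ D1) * φ D2 := by
    have e1 := c1 (D1 * D2.map (cj : 𝓞 F →+* 𝓞 F))
    rw [nA] at e1
    have e2 : φ (Ideal.span {((d₁ * d₂ : ℕ) : 𝓞 F)}) =
        φ ((D1 * D2.map (cj : 𝓞 F →+* 𝓞 F)).map (cj : 𝓞 F →+* 𝓞 F)) *
          φ (D1 * D2.map (cj : 𝓞 F →+* 𝓞 F)) := by
      rw [← e1]
      exact map_mul φ _ _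
    rw [e2, mul_comm (φ (Ideal.map _ _)), inv_mul_cancel_left₀ hφA, c2, map_mul φ, c2,
      map_mul, Complex.conj_conj]
  unfold GT
  rw [hφ2, thD_eq A.fac hD hT h _ nB hmem n, u_im hD hT h, pt_eq hD h.two, pt_eq hD h.two]
  have hs0' : (Real.sqrt ((q * D ^ 2 : ℕ) : ℝ) : ℂ) ≠ 0 := by
    exact_mod_cast (sqrt_pos' hD hT).ne'
  generalize hth n (pt (q * D ^ 2) (2 ^ e) d₁ b) = H1
  generalize hth n (pt (q * D ^ 2) (2 ^ e) d₂ b) = H2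
  generalize Real.sqrt ((q * D ^ 2 : ℕ) : ℝ) = S at *
  simp only [map_mul, map_div₀, map_inv₀, map_pow, Complex.conj_ofReal, Complex.conj_conj,
    map_natCast, map_ofNat]
  have hy : ((1 / (2 * (d₁ * d₂ : ℕ) * S) : ℝ) : ℂ) =
      ((2 * S : ℂ))⁻¹ * (d₁ : ℂ)⁻¹ * (d₂ : ℂ)⁻¹ := by
    push_cast
    rw [one_div, mul_inv, mul_inv, mul_inv, mul_inv]
    ring
  have hd1' : (d₁ : ℂ) ≠ 0 := by exact_mod_cast hd1.ne'
  have hd2' : (d₂ : ℂ) ≠ 0 := by exact_mod_cast hd2.ne'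
  rw [hy]
  have hyn : ((2 * S : ℂ))⁻¹ * (d₁ : ℂ)⁻¹ * (d₂ : ℂ)⁻¹ ≠ 0 :=
    mul_ne_zero (mul_ne_zero (inv_ne_zero (mul_ne_zero two_ne_zero hs0')) (inv_ne_zero hd1'))
      (inv_ne_zero hd2')
  have hpow : (((2 * S : ℂ))⁻¹ * (d₁ : ℂ)⁻¹ * (d₂ : ℂ)⁻¹) ^ (2 * n + 1) *
      ((((2 * S : ℂ))⁻¹ * (d₁ : ℂ)⁻¹ * (d₂ : ℂ)⁻¹) ^ n)⁻¹ =
      ((2 * S : ℂ) ^ (n + 1))⁻¹ * ((d₁ : ℂ) ^ (n + 1))⁻¹ * ((d₂ : ℂ) ^ (n + 1))⁻¹ := by
    rw [show 2 * n + 1 = (n + 1) + n by ring, pow_add _ (n + 1) n,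
      mul_inv_cancel_right₀ (pow_ne_zero _ hyn), mul_pow, mul_pow, inv_pow, inv_pow, inv_pow]
  calc _ = conj (φ D1) * φ D2 * ((((2 * S : ℂ))⁻¹ * (d₁ : ℂ)⁻¹ * (d₂ : ℂ)⁻¹) ^ (2 * n + 1) *
      ((((2 * S : ℂ))⁻¹ * (d₁ : ℂ)⁻¹ * (d₂ : ℂ)⁻¹) ^ n)⁻¹) *
      ((Real.sqrt S / (Real.sqrt ((2 ^ e : ℕ) : ℝ) * 2 ^ n * n.factorial)) *
          (conj H1 * H2)) := by ring
    _ = _ := by
      rw [hpow]
      ring

end Pool.Agent.Lib.MP_7c08ba_nt.CN.TW
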