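import Pool.Agent.Lib.MP_7c08ba_nt.CN.T.StH
import Pool.Agent.Lib.MP_7c08ba_nt.CN.Prim
import Pool.Agent.Lib.MP_7c08ba_nt.CN.Idl
import Pool.Agent.Lib.MP_7c08ba_nt.CN.Sys

set_option autoImplicit false

/-!
Project TW, module RepT: representatives of the ring classes in the standard form.
-/

namespace Pool.Agent.Lib.MP_7c08ba_nt.CN.TW

open NumberField IsDedekindDomain Polynomial Pool.Agent.Lib.MP_7c08ba_nt.RZ
open scoped nonZeroDivisors ComplexConjugate

namespace RepTAux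

section

variable {F : Type} [Field F] [NumberField F]

/-- An element of `J`, congruent to `1` modulo `D`, whose cofactor is prime to `M`. -/
theorem exists_elt {D M : ℕ} {J : Ideal (𝓞 F)} (hJ : J ∈ idp (F := F) D) (hM : M ≠ 0)
    (hMD : M.Coprime D) : ∃ (x : 𝓞 F) (K : Ideal (𝓞 F)), (D : 𝓞 F) ∣ x - 1 ∧
      Ideal.span {x} = J * K ∧ IsCoprime K (Ideal.span {(M : 𝓞 F)}) ∧
      IsCoprime K (Ideal.span {(D : 𝓞 F)}) := by
  obtain ⟨hJ0, hJD⟩ := hJ
  have hM0 : Ideal.span {(M : 𝓞 F)} ≠ ⊥ := by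
    rw [Ne, Ideal.span_singleton_eq_bot]
    exact_mod_cast hM
  obtain ⟨a, ha⟩ := IsDedekindDomain.exists_sup_span_eq
    (I := J * Ideal.span {(M : 𝓞 F)}) (J := J) Ideal.mul_le_left (mul_ne_zero hJ0 hM0)
  have hMD' : IsCoprime (Ideal.span {(M : 𝓞 F)}) (Ideal.span {(D : 𝓞 F)}) := by
    rw [Ideal.isCoprime_span_singleton_iff]
    have h1 : IsCoprime (M : ℤ) (D : ℤ) := Nat.isCoprime_iff_coprime.2 hMD
    have h2 := h1.map (Int.castRingHom (𝓞 F))
    simpa using h2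
  have hcop : IsCoprime (J * Ideal.span {(M : 𝓞 F)}) (Ideal.span {(D : 𝓞 F)}) :=
    hJD.mul_left hMD'
  obtain ⟨u, hu, v, hv, huv⟩ := Ideal.isCoprime_iff_exists.1 hcop
  set x : 𝓞 F := a + u * (1 - a) with hx
  have hxJ : J * Ideal.span {(M : 𝓞 F)} ⊔ Ideal.span {x} = J := by
    refine Eq.trans ?_ ha
    apply le_antisymm
    · refine sup_le le_sup_left ?_
      rw [Ideal.span_singleton_le_iff_mem, hx]
      exact Ideal.add_mem _ (Ideal.mem_sup_right (Ideal.mem_span_singleton_self a))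
        (Ideal.mem_sup_left (Ideal.mul_mem_right _ _ hu))
    · refine sup_le le_sup_left ?_
      rw [Ideal.span_singleton_le_iff_mem]
      have e : a = x - u * (1 - a) := by rw [hx]; ring
      rw [e]
      exact Ideal.sub_mem _ (Ideal.mem_sup_right (Ideal.mem_span_singleton_self x))
        (Ideal.mem_sup_left (Ideal.mul_mem_right _ _ hu))
  have hxJ' : Ideal.span {x} ≤ J := by
    calc Ideal.span {x} ≤ _ := le_sup_right
      _ = _ := hxJ
  obtain ⟨K, hK⟩ := Ideal.dvd_iff_le.2 hxJ'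
  refine ⟨x, K, ?_, hK, ?_, ?_⟩
  · obtain ⟨w, hw⟩ := Ideal.mem_span_singleton.1 hv
    refine ⟨-(w * (1 - a)), ?_⟩
    have e : u = 1 - D * w := by rw [← hw, ← huv]; ring
    rw [hx, e]
    ring
  · rw [Ideal.isCoprime_iff_sup_eq, sup_comm]
    rw [hK, ← Ideal.mul_sup] at hxJ
    have h1 : J * (Ideal.span {(M : 𝓞 F)} ⊔ K) = J * 1 := by rw [hxJ, mul_one]
    rw [mul_left_cancel₀ hJ0 h1, Ideal.one_eq_top]
  · rw [Ideal.isCoprime_iff_exists]
    obtain ⟨w, hw⟩ := Ideal.mem_span_singleton.1 hv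
    have hxK : x ∈ K := by
      have h1 : Ideal.span {x} ≤ K := by rw [hK]; exact Ideal.mul_le_right
      exact h1 (Ideal.mem_span_singleton_self x)
    refine ⟨x, hxK, v * (1 - a), ?_, ?_⟩
    · exact Ideal.mul_mem_right _ _ hv
    · have e : u = 1 - v := by rw [← huv]; ring
      rw [hx, e]
      ring

/-- An ideal in a given class with norm prime to a given number. -/
theorem exists_ideal (h : StRg) {D : ℕ} (hD : D ≠ 0) (hDo : Odd D) (A : RC F D) {N : ℕ}
    (hN : N ≠ 0) : ∃ K : Ideal (𝓞 F), K ∈ idp (F := F) D ∧ cl D K = A ∧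
      (Ideal.absNorm K).Coprime (2 * N) ∧ (Ideal.absNorm K).Coprime D := by
  obtain ⟨hfin, hun, hid⟩ := h F inferInstance inferInstance D hD
  obtain ⟨U, hU⟩ := hun A
  set B : RC F D := ((U⁻¹ : (RC F D)ˣ) : RC F D) with hB
  have hAB : A * B = 1 := by rw [← hU, hB, Units.mul_inv]
  -- the part of `2 * N` prime to `D`
  set M : ℕ := ∏ p ∈ (2 * N).primeFactors \ D.primeFactors, p with hM
  have hM0 : M ≠ 0 := by
    rw [hM, Finset.prod_ne_zero_iff]
    intro p hp
    exact (Nat.prime_of_mem_primeFactors (Finset.mem_sdiff.1 hp).1).ne_zero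
  have hMD : M.Coprime D := by
    rw [hM]
    apply Nat.Coprime.prod_left
    intro p hp
    obtain ⟨hp1, hp2⟩ := Finset.mem_sdiff.1 hp
    have hpp := Nat.prime_of_mem_primeFactors hp1
    rw [hpp.coprime_iff_not_dvd]
    intro hpD
    exact hp2 (Nat.mem_primeFactors.2 ⟨hpp, hpD, hD⟩)
  have hdvd : ∀ p : ℕ, p.Prime → p ∣ 2 * N → p ∣ M ∨ p ∣ D := by
    intro p hp hpN
    by_cases hpD : p ∣ D
    · exact Or.inr hpD
    · left
      rw [hM]
      apply Finset.dvd_prod_of_mem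
      rw [Finset.mem_sdiff]
      refine ⟨Nat.mem_primeFactors.2 ⟨hp, hpN, by omega⟩, fun hh => hpD ?_⟩
      exact Nat.dvd_of_mem_primeFactors hh
  have h2M : 2 ∣ M := by
    rcases hdvd 2 Nat.prime_two ⟨N, rfl⟩ with h2 | h2
    · exact h2
    · exfalso
      rw [← Nat.not_even_iff_odd] at hDo
      exact hDo (even_iff_two_dvd.2 h2)
  obtain ⟨J, hJ, hJB⟩ := exists_rep B
  obtain ⟨x, K, hx1, hxK, hKM, hKD⟩ := exists_elt hJ hM0 hMD
  have hK0 : K ≠ ⊥ := by
    rintro rfl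
    rw [Ideal.isCoprime_iff_sup_eq, bot_sup_eq] at hKM
    obtain ⟨k, hk⟩ := h2M
    have h1 : (1 : 𝓞 F) ∈ Ideal.span {(M : 𝓞 F)} := by rw [hKM]; trivial
    obtain ⟨y, hy⟩ := Ideal.mem_span_singleton.1 h1
    have h3 : Ideal.span {((2 : ℕ) : 𝓞 F)} = ⊤ := by
      rw [Ideal.eq_top_iff_one, Ideal.mem_span_singleton]
      refine ⟨k * y, ?_⟩
      rw [hy, hk]
      push_cast
      ring
    have h4 := congrArg Ideal.absNorm h3
    rw [Ideal.absNorm_span_natCast, Ideal.absNorm_top] at h4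
    have h5 : 0 < Module.finrank ℤ (𝓞 F) := by
      rw [RingOfIntegers.rank]
      exact Module.finrank_pos
    have h6 : 1 < 2 ^ Module.finrank ℤ (𝓞 F) := Nat.one_lt_two_pow h5.ne'
    omega
  have hKid : K ∈ idp (F := F) D := ⟨hK0, hKD⟩
  have hx0 : x ≠ 0 := by
    rintro rfl
    rw [Ideal.span_singleton_eq_bot.2 rfl] at hxK
    exact mul_ne_zero hJ.1 hK0 hxK.symm
  have hRx : Rat D x := ⟨hx0, 1, isCoprime_one_left, by simpa using hx1⟩
  have hclx : cl D (J * K) = 1 := by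
    rw [← cl_one (F := F) (D := D), cl_eq_iff ((idp D).mul_mem hJ hKid) (idp D).one_mem]
    refine ⟨1, x, Rat.one D, hRx, ?_⟩
    rw [← hxK, Ideal.span_singleton_one, Ideal.top_mul, mul_one]
  refine ⟨K, hKid, ?_, ?_, ?_⟩
  · rw [cl_mul hJ hKid, hJB] at hclx
    calc cl D K = 1 * cl D K := (one_mul _).symm
      _ = A * (B * cl D K) := by rw [← hAB, mul_assoc]
      _ = A := by rw [hclx, mul_one]
  · have h1 : (Ideal.absNorm K).Coprime M := by
      obtain ⟨-, -, hidM⟩ := h F inferInstance inferInstance M hM0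
      exact ((hidM K).1 ⟨hK0, hKM⟩).2
    have h2 : (Ideal.absNorm K).Coprime D := ((hid K).1 hKid).2
    apply Nat.Coprime.symm
    apply Nat.Coprime.symm
    by_contra hne
    obtain ⟨p, hp, hpK, hpN⟩ := Nat.Prime.not_coprime_iff_dvd.1 hne
    rcases hdvd p hp hpN with h3 | h3
    · exact Nat.not_coprime_of_dvd_of_dvd hp.one_lt hpK h3 h1
    · exact Nat.not_coprime_of_dvd_of_dvd hp.one_lt hpK h3 h2
  · exact ((hid K).1 hKid).2

/-- The parity of `b`. -/
theorem odd_b {q : ℕ} {s : 𝓞 F} (hF : RZC.FieldC q F (s : F)) {b : ℤ} {g : 𝓞 F}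
    (hg : 2 * g = b + s) : Odd b ∧ ∃ n : ℤ, 4 * n = b ^ 2 + q := by
  have h1 : ((b : 𝓞 F)) ^ 2 + (q : 𝓞 F) = 4 * (b * g - g ^ 2) := by
    have h2 := SysAux.s_sq hF
    have h3 : s = 2 * g - b := by rw [hg]; ring
    rw [h3] at h2
    linear_combination h2
  have hodd : Odd b := by
    rw [← Int.not_even_iff_odd]
    rintro ⟨c, hc⟩
    have hq : ∃ k : ℕ, q = 2 * k + 1 := ⟨q / 2, by have := hF.2.1; omega⟩
    obtain ⟨k, hk⟩ := hq
    have h3 : (1 : 𝓞 F) = ((2 : ℕ) : 𝓞 F) *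
        (2 * (b * g - g ^ 2) - 2 * (c : 𝓞 F) ^ 2 - k) := by
      rw [hc, hk] at h1
      push_cast at h1
      rw [hc]
      push_cast
      linear_combination h1
    have h4 : Ideal.span {((2 : ℕ) : 𝓞 F)} = ⊤ := by
      rw [Ideal.eq_top_iff_one, Ideal.mem_span_singleton]
      exact ⟨_, h3⟩
    have h5 := congrArg Ideal.absNorm h4
    rw [SysAux.norm_nat hF, Ideal.absNorm_top] at h5
    omega
  refine ⟨hodd, ?_⟩
  obtain ⟨c, hc⟩ := hodd
  refine ⟨c ^ 2 + c + 2 + 4 * (q / 16 : ℕ), ?_⟩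
  have h2 : (q : ℤ) = 16 * (q / 16 : ℕ) + 7 := by
    have := hF.2.1
    omega
  rw [hc]
  linear_combination -h2

end

end RepTAux

open RepTAux in
/-- (H3) representatives in the standard form with norm prime to a given number -/
theorem stRepT (h : StRg) : StRepT := by
  intro q F _ _ s D hF hTw A M hM
  have hD0 : D ≠ 0 := hTw.sqf.ne_zero
  have hDodd : Odd D := by
    rw [← Nat.not_even_iff_odd]
    intro he
    have := hTw.mod4 2 Nat.prime_two (even_iff_two_dvd.1 he)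
    omega
  have hqpos : 0 < q := hF.1.pos
  have hqodd : Odd q := by
    rw [Nat.odd_iff]
    have := hF.2.1
    omega
  obtain ⟨K, hKid, hKA, hKN, hKD⟩ := exists_ideal h hD0 hDodd A (N := q * M) (by positivity)
  obtain ⟨m, a, b, g, hm, hKa, hg, hga, ha⟩ := stPrim q F _ _ s hF K hKid.1
  have ha0 : a ≠ ⊥ := by
    rintro rfl
    apply hKid.1
    rw [hKa, Ideal.mul_bot]
  have hpos : 0 < Ideal.absNorm a := Nat.pos_of_ne_zero fun h =>
    ha0 (Ideal.absNorm_eq_zero_iff.1 h)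
  obtain ⟨hodd, n, hn⟩ := RepTAux.odd_b hF hg
  have hdn := SysAux.norm_dvd stIdl hF hg hn hga ha hpos
  obtain ⟨-, -, hbas, huniq, hMM, -, -⟩ := stIdl q F _ _ s b n g hF hg hn
  set β : ℕ := Ideal.absNorm a with hβ
  have hnorm : Ideal.absNorm K = m ^ 2 * β := by
    rw [hKa, map_mul, SysAux.norm_nat hF]
  have hβK : β ∣ Ideal.absNorm K := ⟨m ^ 2, by rw [hnorm, mul_comm]⟩
  have hmK : m ∣ Ideal.absNorm K := ⟨m * β, by rw [hnorm]; ring⟩
  have hβN : β.Coprime (2 * (q * M)) := hKN.coprime_dvd_left hβK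
  have hβD : β.Coprime D := hKD.coprime_dvd_left hβK
  have hmD : m.Coprime D := hKD.coprime_dvd_left hmK
  have hβ2 : β.Coprime 2 := hβN.coprime_dvd_right ⟨q * M, rfl⟩
  have hβq : β.Coprime q := hβN.coprime_dvd_right ⟨2 * M, by ring⟩
  have hβM : β.Coprime M := hβN.coprime_dvd_right ⟨2 * q, by ring⟩
  have haid : a ∈ idp (F := F) D := by
    refine ⟨ha0, ?_⟩
    have h1 := hKid.2
    rw [hKa] at h1
    exact h1.of_mul_left_right
  have hcl : cl D a = A := by
    rw [← hKA, cl_eq_iff haid hKid]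
    have hRm : Rat D ((m : ℤ) : 𝓞 F) :=
      rat_int (by exact_mod_cast hm.ne') (Nat.isCoprime_iff_coprime.2 hmD)
    refine ⟨((m : ℤ) : 𝓞 F), 1, hRm, Rat.one D, ?_⟩
    rw [Ideal.span_singleton_one, Ideal.top_mul, hKa]
    push_cast
    rfl
  -- the number `α`
  have hcopZ : IsCoprime ((q * D ^ 2 : ℕ) : ℤ) ((2 * β : ℕ) : ℤ) := by
    rw [Nat.isCoprime_iff_coprime]
    have h1 : (q * D ^ 2).Coprime 2 := by
      rw [Nat.coprime_two_right]
      exact hqodd.mul (hDodd.pow)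
    have h2 : (q * D ^ 2).Coprime β :=
      Nat.Coprime.mul_left hβq.symm (Nat.Coprime.pow_left 2 hβD.symm)
    exact Nat.Coprime.mul_right h1 h2
  obtain ⟨u, v, huv⟩ := hcopZ
  -- `α = D b u (q D ^ 2) = D b - D b v (2 β)`
  set k : ℤ := -(D * b * v) with hk
  have hα : D * b * u * ((q * D ^ 2 : ℕ) : ℤ) = D * b + 2 * β * k := by
    rw [hk]
    push_cast at huv ⊢
    linear_combination (D * b : ℤ) * huv
  refine ⟨a, D * g + β * k, D * b * u * ((q * D ^ 2 : ℕ) : ℤ), β, ?_, hcl, hβM⟩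
  have hX2 : 2 * ((D : 𝓞 F) * g + β * k) =
      ((D * b * u * ((q * D ^ 2 : ℕ) : ℤ) : ℤ) : 𝓞 F) + D * s := by
    have e := congrArg (Int.cast : ℤ → 𝓞 F) hα
    rw [e]
    push_cast
    linear_combination (D : 𝓞 F) * hg
  have hβa : (β : 𝓞 F) ∈ a := Ideal.absNorm_mem a
  have hmemβ : ∀ z : 𝓞 F, z ∈ a ↔ ∃ u v : ℤ, z = u * β + v * g := by
    intro z
    conv_lhs => rw [ha]
    exact (hMM β hpos hdn).1 z
  exact
    { mem := haid
      two := hX2
      dvd := ⟨D * b * u, by push_cast; ring⟩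
      odd := Nat.coprime_two_right.1 hβ2
      cop := Nat.Coprime.mul_right hβq hβD
      norm := hβ.symm
      lat := by
        intro x
        constructor
        · rintro ⟨hxa, c, y, hy⟩
          obtain ⟨u1, v1, h1⟩ := (hmemβ x).1 hxa
          obtain ⟨y1, y2, h2⟩ := hbas y
          have h3 : ((u1 * β - c - D * y1 : ℤ) : 𝓞 F) + ((v1 - D * y2 : ℤ) : 𝓞 F) * g = 0 := by
            rw [h1, h2] at hy
            push_cast
            linear_combination hy
          obtain ⟨h4, h5⟩ := huniq _ _ h3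
          refine ⟨y2, u1 - y2 * k, ?_⟩
          have h6 : v1 = D * y2 := by linear_combination h5
          rw [h1, h6]
          push_cast
          ring
        · rintro ⟨m1, n1, rfl⟩
          refine ⟨?_, m1 * (β * k) + n1 * β, m1 * g, ?_⟩
          · refine Ideal.add_mem _ (Ideal.mul_mem_left _ _ ?_) (Ideal.mul_mem_left _ _ hβa)
            exact Ideal.add_mem _ (Ideal.mul_mem_left _ _ hga) (Ideal.mul_mem_right _ _ hβa)
          · push_cast
            ring }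

end Pool.Agent.Lib.MP_7c08ba_nt.CN.TW
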