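import Pool.Agent.Lib.MP_7c08ba_nt.CN.T.StH

set_option autoImplicit false

/-!
Project TW: the ring class group is finite, its elements are invertible, and an ideal is prime to
`D` if and only if its norm is.
-/

namespace Pool.Agent.Lib.MP_7c08ba_nt.CN.TW

open NumberField IsDedekindDomain Polynomial Pool.Agent.Lib.MP_7c08ba_nt.RZ
open scoped nonZeroDivisors ComplexConjugate

namespace RgAux

variable {F : Type} [Field F] [NumberField F] {D : ℕ}

theorem span_coprime {m : ℤ} (h : IsCoprime m (D : ℤ)) :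
    IsCoprime (Ideal.span {(m : 𝓞 F)}) (Ideal.span {(D : 𝓞 F)}) := by
  obtain ⟨u, v, h1⟩ := h
  rw [Ideal.isCoprime_span_singleton_iff]
  exact ⟨u, v, by exact_mod_cast congrArg (Int.cast : ℤ → 𝓞 F) h1⟩

theorem coprime_of_norm {I : Ideal (𝓞 F)} (h : (Ideal.absNorm I).Coprime D) :
    IsCoprime I (Ideal.span {(D : 𝓞 F)}) := by
  have h1 := span_coprime (F := F) (D := D) (m := Ideal.absNorm I)
    (Nat.isCoprime_iff_coprime.2 h)
  rw [Ideal.isCoprime_iff_sup_eq] at h1 ⊢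
  rw [eq_top_iff, ← h1]
  refine sup_le_sup_right ?_ _
  rw [Ideal.span_singleton_le_iff_mem]
  exact_mod_cast Ideal.absNorm_mem I

theorem norm_of_coprime {I : Ideal (𝓞 F)} (h0 : I ≠ ⊥)
    (h : IsCoprime I (Ideal.span {(D : 𝓞 F)})) : (Ideal.absNorm I).Coprime D := by
  have hfin : Finite (𝓞 F ⧸ I) := Ideal.finiteQuotientOfFreeOfNeBot I h0
  by_contra hc
  obtain ⟨p, hp, hp1, hp2⟩ := Nat.Prime.not_coprime_iff_dvd.1 hc
  have : Fact p.Prime := ⟨hp⟩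
  have hcard : p ∣ Nat.card (𝓞 F ⧸ I) := by
    rwa [Ideal.absNorm_apply, Submodule.cardQuot_apply] at hp1
  obtain ⟨x, hx⟩ := exists_prime_addOrderOf_dvd_card' p hcard
  have hx0 : x ≠ 0 := by
    rintro rfl
    rw [addOrderOf_zero] at hx
    exact hp.one_lt.ne hx
  have hpx : (p : 𝓞 F ⧸ I) * x = 0 := by
    rw [← nsmul_eq_mul, ← hx]
    exact addOrderOf_nsmul_eq_zero x
  obtain ⟨k, hk⟩ := hp2
  obtain ⟨a, ha, b, hb, hab⟩ := Ideal.isCoprime_iff_exists.1 h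
  obtain ⟨c, hc⟩ := Ideal.mem_span_singleton'.1 hb
  apply hx0
  have h1 : (Ideal.Quotient.mk I) (c * D) = 1 := by
    rw [hc, ← sub_eq_zero, ← map_one (Ideal.Quotient.mk I), ← map_sub,
      Ideal.Quotient.eq_zero_iff_mem]
    have : b - 1 = -a := by linear_combination hab
    rw [this]
    exact I.neg_mem ha
  have h2 : (Ideal.Quotient.mk I) (c * D) * x = 0 := by
    rw [hk]
    push_cast
    rw [map_mul, map_mul, map_natCast, map_natCast]
    linear_combination (Ideal.Quotient.mk I c) * (k : 𝓞 F ⧸ I) * hpx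
  rwa [h1, one_mul] at h2

/-- an ideal prime to `D` divides a rational integer prime to `D` -/
theorem exists_inv (I : Ideal (𝓞 F)) (hI : I ∈ idp (F := F) D) :
    ∃ J ∈ idp (F := F) D, I * J = Ideal.span {((Ideal.absNorm I : ℕ) : 𝓞 F)} ∧
      Ideal.span {((Ideal.absNorm I : ℕ) : 𝓞 F)} ∈ idp (F := F) D := by
  obtain ⟨h0, hc⟩ := hI
  have hN := norm_of_coprime h0 hc
  have hN0 : ((Ideal.absNorm I : ℕ) : 𝓞 F) ≠ 0 := by
    rw [Nat.cast_ne_zero]
    exact fun h => h0 (Ideal.absNorm_eq_zero_iff.1 h)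
  have h1 : Ideal.span {((Ideal.absNorm I : ℕ) : 𝓞 F)} ≤ I := by
    rw [Ideal.span_singleton_le_iff_mem]
    exact Ideal.absNorm_mem I
  obtain ⟨J, hJ⟩ := Ideal.dvd_iff_le.2 h1
  have h2 : Ideal.span {((Ideal.absNorm I : ℕ) : 𝓞 F)} ≠ ⊥ := by
    rwa [Ne, Ideal.span_singleton_eq_bot]
  have h3 : IsCoprime (Ideal.span {((Ideal.absNorm I : ℕ) : 𝓞 F)})
      (Ideal.span {(D : 𝓞 F)}) := by
    have h4 := span_coprime (F := F) (D := D) (m := Ideal.absNorm I)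
      (Nat.isCoprime_iff_coprime.2 hN)
    exact_mod_cast h4
  refine ⟨J, ⟨?_, ?_⟩, hJ.symm, h2, h3⟩
  · rintro rfl
    rw [Ideal.mul_bot] at hJ
    exact h2 hJ
  · rw [hJ] at h3
    exact h3.of_mul_left_right

theorem mk0_mul_eq_one {I J : (Ideal (𝓞 F))⁰}
    (h : ClassGroup.mk0 J * ClassGroup.mk0 I = 1) :
    ∃ b : 𝓞 F, (I : Ideal (𝓞 F)) * J = Ideal.span {b} := by
  rw [← map_mul, ClassGroup.mk0_eq_one_iff (J * I).2] at h
  obtain ⟨b, hb⟩ := h.principal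
  refine ⟨b, ?_⟩
  rw [Submonoid.coe_mul, mul_comm] at hb
  exact hb

/-- the ordinary class of a ring class -/
noncomputable def oc (A : RC F D) : ClassGroup (𝓞 F) :=
  ClassGroup.mk0 ⟨rp A, mem_nonZeroDivisors_iff_ne_zero.2 (rp_mem A).1⟩

theorem exists_J (C : ClassGroup (𝓞 F)) : ∃ J : Ideal (𝓞 F), J ∈ idp (F := F) D ∧
    ∀ A : RC F D, oc A = C → ∃ b : 𝓞 F, rp A * J = Ideal.span {b} := by
  by_cases h : ∃ A : RC F D, oc A = C
  · obtain ⟨A₀, hA₀⟩ := h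
    obtain ⟨J, hJ, h1, h2⟩ := exists_inv (rp A₀) (rp_mem A₀)
    refine ⟨J, hJ, fun A hA => ?_⟩
    have h3 : ClassGroup.mk0 ⟨J, mem_nonZeroDivisors_iff_ne_zero.2 hJ.1⟩ * oc A = 1 := by
      rw [hA, ← hA₀, oc, ← map_mul, ClassGroup.mk0_eq_one_iff]
      refine ⟨((Ideal.absNorm (rp A₀) : ℕ) : 𝓞 F), ?_⟩
      have h5 : J * rp A₀ = Ideal.span {((Ideal.absNorm (rp A₀) : ℕ) : 𝓞 F)} := by
        rw [mul_comm, h1]
      exact h5
    exact mk0_mul_eq_one (I := ⟨rp A, mem_nonZeroDivisors_iff_ne_zero.2 (rp_mem A).1⟩)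
      (J := ⟨J, mem_nonZeroDivisors_iff_ne_zero.2 hJ.1⟩) h3
  · exact ⟨1, (idp D).one_mem, fun A hA => absurd ⟨A, hA⟩ h⟩

theorem finite (hD : D ≠ 0) : Finite (RC F D) := by
  classical
  have hD0 : Ideal.span {(D : 𝓞 F)} ≠ ⊥ := by
    rw [Ne, Ideal.span_singleton_eq_bot]
    exact_mod_cast hD
  have hfin : Finite (𝓞 F ⧸ Ideal.span {(D : 𝓞 F)}) :=
    Ideal.finiteQuotientOfFreeOfNeBot _ hD0
  choose J hJ hb using exists_J (F := F) (D := D)
  have hb' : ∀ A : RC F D, ∃ b : 𝓞 F, rp A * J (oc A) = Ideal.span {b} :=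
    fun A => hb (oc A) A rfl
  choose b hb2 using hb'
  refine Finite.of_injective (β := ClassGroup (𝓞 F) × (𝓞 F ⧸ Ideal.span {(D : 𝓞 F)}))
    (fun A => (oc A, Ideal.Quotient.mk (Ideal.span {(D : 𝓞 F)}) (b A))) ?_
  intro A B hAB
  rw [Prod.mk.injEq] at hAB
  obtain ⟨h1, h2⟩ := hAB
  have key : ∀ A : RC F D, b A ≠ 0 ∧ IsUnit (Ideal.Quotient.mk (Ideal.span {(D : 𝓞 F)}) (b A)) := by
    intro A
    have h3 : Ideal.span {b A} ∈ idp (F := F) D := by
      rw [← hb2 A]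
      exact (idp D).mul_mem (rp_mem A) (hJ _)
    obtain ⟨h4, h5⟩ := h3
    refine ⟨fun h => h4 ?_, ?_⟩
    · rw [h, Ideal.span_singleton_eq_bot]
    · rw [Ideal.isCoprime_span_singleton_iff] at h5
      obtain ⟨u, v, huv⟩ := h5
      refine IsUnit.of_mul_eq_one (Ideal.Quotient.mk _ u) ?_
      rw [← map_mul, ← map_one (Ideal.Quotient.mk (Ideal.span {(D : 𝓞 F)})), Ideal.Quotient.eq,
        Ideal.mem_span_singleton']
      exact ⟨-v, by linear_combination -huv⟩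
  have h3 : Ideal.span {b B} * rp A = Ideal.span {b A} * rp B := by
    have h4 : Ideal.span {b B} * rp A * J (oc A) = Ideal.span {b A} * rp B * J (oc A) := by
      calc Ideal.span {b B} * rp A * J (oc A) = Ideal.span {b B} * (rp A * J (oc A)) := by
            rw [mul_assoc]
        _ = Ideal.span {b A} * Ideal.span {b B} := by rw [hb2 A, mul_comm]
        _ = Ideal.span {b A} * (rp B * J (oc B)) := by rw [hb2 B]
        _ = Ideal.span {b A} * rp B * J (oc A) := by rw [← h1, mul_assoc]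
    exact mul_right_cancel₀ (hJ (oc A)).1 h4
  obtain ⟨u, hu⟩ := (key A).2
  have hn : u ^ Nat.card (𝓞 F ⧸ Ideal.span {(D : 𝓞 F)})ˣ = 1 := pow_card_eq_one'
  obtain ⟨n, hn1⟩ : ∃ n, Nat.card (𝓞 F ⧸ Ideal.span {(D : 𝓞 F)})ˣ = n + 1 :=
    ⟨_, (Nat.succ_pred_eq_of_pos Nat.card_pos).symm⟩
  rw [hn1] at hn
  have hn2 : (Ideal.Quotient.mk (Ideal.span {(D : 𝓞 F)}) (b A)) ^ (n + 1) = 1 := by
    rw [← hu, ← Units.val_pow_eq_pow_val, hn, Units.val_one]
  have hr : ∀ x : 𝓞 F, x ≠ 0 → Ideal.Quotient.mk (Ideal.span {(D : 𝓞 F)}) x = 1 → Rat D x := by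
    intro x hx0 hx
    refine ⟨hx0, 1, isCoprime_one_left, ?_⟩
    rw [← map_one (Ideal.Quotient.mk (Ideal.span {(D : 𝓞 F)})), Ideal.Quotient.eq,
      Ideal.mem_span_singleton] at hx
    simpa using hx
  have h5 : cl D (rp A) = cl D (rp B) := by
    rw [cl_eq_iff (rp_mem A) (rp_mem B)]
    refine ⟨b A ^ n * b B, b A ^ (n + 1), hr _ ?_ ?_, hr _ ?_ ?_, ?_⟩
    · exact mul_ne_zero (pow_ne_zero _ (key A).1) (key B).1
    · rw [map_mul, map_pow, ← h2, ← pow_succ, hn2]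
    · exact pow_ne_zero _ (key A).1
    · rw [map_pow, hn2]
    · rw [← Ideal.span_singleton_mul_span_singleton, mul_assoc, h3, ← mul_assoc,
        Ideal.span_singleton_mul_span_singleton, pow_succ]
  rwa [cl_rp, cl_rp] at h5

end RgAux

open RgAux

/-- (H1) the ring class group: finiteness, inverses, ideals prime to `D` -/
theorem stRg : StRg := by
  intro F _ _ D hD
  refine ⟨finite hD, fun A => ?_, fun I => ⟨fun h => ⟨h.1, norm_of_coprime h.1 h.2⟩,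
    fun h => ⟨h.1, coprime_of_norm h.2⟩⟩⟩
  obtain ⟨I, hI, rfl⟩ := exists_rep A
  obtain ⟨J, hJ, h1, h2⟩ := exists_inv I hI
  refine IsUnit.of_mul_eq_one (cl D J) ?_
  rw [← cl_mul hI hJ, h1, ← cl_one, cl_eq_iff h2 (idp D).one_mem]
  have h3 : ((Ideal.absNorm I : ℕ) : 𝓞 F) ≠ 0 := by
    intro h
    apply h2.1
    rw [h, Ideal.span_singleton_eq_bot]
  refine ⟨1, ((Ideal.absNorm I : ℕ) : 𝓞 F), Rat.one D, ?_, ?_⟩
  · refine ⟨h3, Ideal.absNorm I, Nat.isCoprime_iff_coprime.2 (norm_of_coprime hI.1 hI.2), ?_⟩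
    simp
  · rw [Ideal.span_singleton_one, Ideal.one_eq_top, Ideal.top_mul, Ideal.mul_top]

end Pool.Agent.Lib.MP_7c08ba_nt.CN.TW
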