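import Pool.Agent.Lib.MP_7c08ba_nt.CN.T.StP
import Pool.Agent.Lib.MP_7c08ba_nt.RZ.C.Half

set_option autoImplicit false

/-! (V1) sums of inverse powers of order 4 and 6. -/

namespace Pool.Agent.Lib.MP_7c08ba_nt.CN.TW

open Filter Topology RZC

open HalfM in
/-- (V1) sums of inverse powers -/
theorem stSig : StSig := by
  intro L h hh
  have e2 := L.derivWeierstrassP_sq h hh
  have e3 : ∀ n : ℕ, n ≠ 0 → iteratedDeriv n L.weierstrassP h =
      ((n + 1).factorial : ℂ) * L.sumInvPow h (n + 2) := by
    intro n hn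
    have h3 := L.iteratedDeriv_weierstrassPExcept_self h (n := n)
    rwa [if_neg hn, L.weierstrassPExcept_of_notMem h hh] at h3
  have d2 : iteratedDeriv 2 L.weierstrassP =
      deriv L.derivWeierstrassP := by
    rw [iteratedDeriv_succ, iteratedDeriv_one, L.deriv_weierstrassP]
  have e4 : iteratedDeriv 2 L.weierstrassP h = 6 * L.weierstrassP h ^ 2 - L.g₂ / 2 := by
    rw [d2, ode2 L hh]
  have f1 : ∀ z, z ∉ L.lattice → HasDerivAt (deriv L.derivWeierstrassP)
      (12 * L.weierstrassP z * L.derivWeierstrassP z) z := by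
    intro z hz
    have h3 := (((hasDerivAt_P L hz).pow 2).const_mul 6).sub_const (L.g₂ / 2)
    have h4 : deriv L.derivWeierstrassP =ᶠ[𝓝 z] fun w => 6 * L.weierstrassP w ^ 2 - L.g₂ / 2 := by
      filter_upwards [nhds_compl L hz] with w hw
      exact ode2 L hw
    refine (h3.congr_of_eventuallyEq h4).congr_deriv ?_
    push_cast
    ring
  have e5 : iteratedDeriv 4 L.weierstrassP h =
      12 * L.derivWeierstrassP h ^ 2 +
        12 * L.weierstrassP h * (6 * L.weierstrassP h ^ 2 - L.g₂ / 2) := by
    rw [iteratedDeriv_succ, iteratedDeriv_succ, d2]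
    have h3 : deriv (deriv L.derivWeierstrassP) =ᶠ[𝓝 h]
        fun w => 12 * L.weierstrassP w * L.derivWeierstrassP w := by
      filter_upwards [nhds_compl L hh] with w hw
      exact (f1 w hw).deriv
    rw [h3.deriv_eq]
    have h4 := ((hasDerivAt_P L hh).const_mul 12).mul
      (L.analyticOnNhd_derivWeierstrassP h hh).differentiableAt.hasDerivAt
    rw [ode2 L hh] at h4
    have h5 := h4.deriv
    rw [show 12 * L.derivWeierstrassP h ^ 2 = 12 * L.derivWeierstrassP h *
      L.derivWeierstrassP h by ring]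
    exact h5
  have g1 := e3 2 (by norm_num)
  have g2 := e3 4 (by norm_num)
  rw [e4] at g1
  rw [e5, e2] at g2
  norm_num [Nat.factorial] at g1 g2
  refine ⟨?_, ?_⟩
  · linear_combination -g1 / 6
  · linear_combination -g2 / 120

end Pool.Agent.Lib.MP_7c08ba_nt.CN.TW
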