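import Pool.Agent.Lib.MP_7c08ba_nt.CN.T.StZ

set_option autoImplicit false

/-!
Project TW, module SumG: sums over the principal genus at the centre.
-/

namespace Pool.Agent.Lib.MP_7c08ba_nt.CN.TW

open NumberField IsDedekindDomain Polynomial Pool.Agent.Lib.MP_7c08ba_nt.RZ
open scoped nonZeroDivisors ComplexConjugate

namespace SumGAux

section

variable {F : Type} [Field F] [NumberField F] {D : ℕ}

/-- The product of the characters `(N/r)`, `r ∈ S`. -/
noncomputable def chE (D : ℕ) (S : Finset ℕ) (B : RC F D) : ℤ :=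
  ∏ r ∈ S, jacobiSym (Ideal.absNorm (rp B)) r

theorem jac_prod (S : Finset ℕ) (hS : ∀ r ∈ S, r.Prime) (N : ℤ) :
    jacobiSym N (∏ r ∈ S, r) = ∏ r ∈ S, jacobiSym N r := by
  classical
  induction S using Finset.induction_on with
  | empty => simp
  | insert a S ha ih =>
    rw [Finset.prod_insert ha, Finset.prod_insert ha,
      ← ih (fun r hr => hS r (Finset.mem_insert_of_mem hr))]
    have h1 : a ≠ 0 := (hS a (Finset.mem_insert_self a S)).ne_zero
    have h2 : (∏ r ∈ S, r) ≠ 0 :=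
      Finset.prod_ne_zero_iff.2 fun r hr => (hS r (Finset.mem_insert_of_mem hr)).ne_zero
    have := NeZero.mk h1
    have := NeZero.mk h2
    exact jacobiSym.mul_right N a _

end

end SumGAux

open SumGAux in
theorem stSumG (h1 : StHkT) (h2 : StGch) (h3 : StRg) (h4 : StCntK) : StSumG := by
  classical
  intro q F _ _ s σ χ cj n D φ E G hd hg hD hG Y
  have hD0 : D ≠ 0 := hD.sqf.ne_zero
  obtain ⟨hfin, hun, hidp⟩ := h3 F inferInstance inferInstance D hD0
  obtain ⟨g1, g2, g3, g4⟩ := h2 q F inferInstance inferInstance s σ χ cj D hd hD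
  have := Fintype.ofFinite (RC F D)
  have hDF : (Ideal.span {(D : 𝓞 F)}) ≠ ⊥ := by
    rw [Ne, Ideal.span_singleton_eq_bot]
    exact_mod_cast hD0
  have hfq : Finite (𝓞 F ⧸ Ideal.span {(D : 𝓞 F)}) := Ideal.finiteQuotientOfFreeOfNeBot _ hDF
  have := Fintype.ofFinite (𝓞 F ⧸ Ideal.span {(D : 𝓞 F)})
  have hfu : Finite (𝓞 F ⧸ Ideal.span {(D : 𝓞 F)})ˣ := inferInstance
  have := Fintype.ofFinite (𝓞 F ⧸ Ideal.span {(D : 𝓞 F)})ˣ
  set P := D.primeFactors with hP
  have hPp : ∀ r ∈ P, r.Prime := fun r hr => Nat.prime_of_mem_primeFactors hr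
  have hPd : ∀ r ∈ P, r ∣ D := fun r hr => Nat.dvd_of_mem_primeFactors hr
  -- symbols of classes
  have hcl : ∀ I ∈ idp (F := F) D, ∀ r ∈ P,
      jacobiSym (Ideal.absNorm (rp (cl D I))) r = jacobiSym (Ideal.absNorm I) r := by
    intro I hI r hr
    exact (g2 _ (rp_mem _) I hI (cl_rp _)).1 r (hPp r hr) (hPd r hr)
  have hcE : ∀ I ∈ idp (F := F) D, ∀ S ⊆ P,
      chE D S (cl D I) = ∏ r ∈ S, jacobiSym (Ideal.absNorm I) r := by
    intro I hI S hS
    exact Finset.prod_congr rfl fun r hr => hcl I hI r (hS hr)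
  have hmul : ∀ S ⊆ P, ∀ A B : RC F D, chE D S (A * B) = chE D S A * chE D S B := by
    intro S hS A B
    have e : A * B = cl D (rp A * rp B) := by
      rw [cl_mul (rp_mem A) (rp_mem B), cl_rp, cl_rp]
    rw [e, hcE _ ((idp D).mul_mem (rp_mem A) (rp_mem B)) S hS]
    unfold chE
    rw [← Finset.prod_mul_distrib]
    refine Finset.prod_congr rfl fun r hr => ?_
    rw [map_mul, Nat.cast_mul, jacobiSym.mul_left]
  have hpm : ∀ (B : RC F D), ∀ r ∈ P, jacobiSym (Ideal.absNorm (rp B)) r = 1 ∨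
      jacobiSym (Ideal.absNorm (rp B)) r = -1 := fun B r hr =>
    (g3 _ (rp_mem B)).1 r (hPp r hr) (hPd r hr)
  have hsq : ∀ S ⊆ P, ∀ A : RC F D, chE D S A * chE D S A = 1 := by
    intro S hS A
    unfold chE
    rw [← Finset.prod_mul_distrib]
    refine Finset.prod_eq_one fun r hr => ?_
    rcases hpm A r (hS hr) with h | h <;> rw [h] <;> norm_num
  -- the character of `D`
  have hchr : ∀ B : RC F D, chr B = chE D P B := by
    intro B
    unfold chr chE
    rw [← jac_prod P hPp, hP, Nat.prod_primeFactors_of_squarefree hD.sqf]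
  -- the indicator
  have hind : ∀ B : RC F D, (if Gen D B then (1 : ℂ) else 0) =
      ∑ S ∈ P.powerset, (2 ^ P.card : ℂ)⁻¹ * (chE D S B : ℂ) := by
    intro B
    have e1 : (if Gen D B then (1 : ℂ) else 0) =
        ∏ r ∈ P, ((1 + (jacobiSym (Ideal.absNorm (rp B)) r : ℂ)) / 2) := by
      have hGB : Gen D B ↔ ∀ r : ℕ, r.Prime → r ∣ D →
          jacobiSym (Ideal.absNorm (rp B)) r = 1 := by
        have h := (g3 _ (rp_mem B)).2.1
        rwa [cl_rp] at h
      by_cases hB : Gen D B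
      · rw [if_pos hB]
        refine (Finset.prod_eq_one fun r hr => ?_).symm
        rw [hGB.1 hB r (hPp r hr) (hPd r hr)]
        norm_num
      · rw [if_neg hB]
        rw [hGB] at hB
        push Not at hB
        obtain ⟨r, hr1, hr2, hr3⟩ := hB
        have hrP : r ∈ P := Nat.mem_primeFactors.2 ⟨hr1, hr2, hD0⟩
        symm
        refine Finset.prod_eq_zero hrP ?_
        rcases hpm B r hrP with h | h
        · exact absurd h hr3
        · rw [h]
          norm_num
    rw [e1, Finset.prod_div_distrib, Finset.prod_const, Finset.prod_one_add, Finset.sum_div]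
    refine Finset.sum_congr rfl fun S hS => ?_
    unfold chE
    rw [Int.cast_prod, div_eq_mul_inv, mul_comm]
  -- translation
  have htr : ∀ (f : RC F D → ℂ) (A : RC F D), ∑ B, f (A * B) = ∑ B, f B := by
    intro f A
    obtain ⟨u, hu⟩ := hun A
    have h := Equiv.sum_comp (Units.mulLeft u) f
    rw [← h]
    refine Finset.sum_congr rfl fun B _ => ?_
    rw [Units.mulLeft_apply, hu]
  -- lifts
  have hL : ∃ L : (𝓞 F ⧸ Ideal.span {(D : 𝓞 F)})ˣ → 𝓞 F, ∀ y, L y ≠ 0 ∧
      Ideal.Quotient.mk (Ideal.span {(D : 𝓞 F)}) (L y) = y := by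
    have : ∀ y : (𝓞 F ⧸ Ideal.span {(D : 𝓞 F)})ˣ, ∃ x : 𝓞 F, x ≠ 0 ∧
        Ideal.Quotient.mk (Ideal.span {(D : 𝓞 F)}) x = y := by
      intro y
      obtain ⟨x, hx⟩ := Ideal.Quotient.mk_surjective (y : 𝓞 F ⧸ Ideal.span {(D : 𝓞 F)})
      by_cases h0 : x = 0
      · refine ⟨D, by exact_mod_cast hD0, ?_⟩
        rw [← hx, h0, map_zero]
        exact Ideal.Quotient.eq_zero_iff_mem.2 (Ideal.mem_span_singleton_self _)
      · exact ⟨x, h0, hx⟩
    choose L hL using this
    exact ⟨L, hL⟩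
  obtain ⟨L, hL⟩ := hL
  have hLi : ∀ y, Ideal.span {L y} ∈ idp (F := F) D := by
    intro y
    refine ⟨?_, ?_⟩
    · rw [Ne, Ideal.span_singleton_eq_bot]
      exact (hL y).1
    · rw [Ideal.isCoprime_span_singleton_iff]
      obtain ⟨z, hz⟩ := Ideal.Quotient.mk_surjective
        ((y⁻¹ : (𝓞 F ⧸ Ideal.span {(D : 𝓞 F)})ˣ) : 𝓞 F ⧸ Ideal.span {(D : 𝓞 F)})
      have h : Ideal.Quotient.mk (Ideal.span {(D : 𝓞 F)}) (1 - z * L y) = 0 := by
        rw [map_sub, map_mul, hz, (hL y).2, map_one, Units.inv_mul, sub_self]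
      rw [Ideal.Quotient.eq_zero_iff_mem, Ideal.mem_span_singleton] at h
      obtain ⟨t, ht⟩ := h
      exact ⟨z, t, by linear_combination -ht⟩
  -- the vanishing sums
  have hvan : ∀ S ⊆ P, S ≠ P → ∑ B : RC F D, (chE D S B : ℂ) * G B 0 = 0 := by
    intro S hS hSP
    obtain ⟨r, hrP, hrS⟩ : ∃ r ∈ P, r ∉ S := by
      by_contra hcon
      push Not at hcon
      exact hSP (Finset.Subset.antisymm hS hcon)
    have hone : ∀ y, ((D / r : ℕ) : 𝓞 F) ∣ L y - 1 → chE D S (cl D (Ideal.span {L y})) = 1 := by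
      intro y hy
      rw [hcE _ (hLi y) S hS]
      refine Finset.prod_eq_one fun r' hr' => ?_
      have hp' : r'.Prime := hPp r' (hS hr')
      have hne : r' ≠ r := fun h => hrS (h ▸ hr')
      have hdv : r' ∣ D / r := by
        have h5 : D = r * (D / r) := (Nat.mul_div_cancel' (hPd r hrP)).symm
        have h6 : r' ∣ r * (D / r) := h5 ▸ hPd r' (hS hr')
        rcases (Nat.Prime.dvd_mul hp').1 h6 with h | h
        · exact absurd ((Nat.prime_dvd_prime_iff_eq hp' (hPp r hrP)).1 h) hne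
        · exact h
      have hdv' : ((r' : ℕ) : 𝓞 F) ∣ L y - 1 :=
        (by exact_mod_cast (Nat.cast_dvd_cast hdv : ((r' : ℕ) : 𝓞 F) ∣ ((D / r : ℕ) : 𝓞 F)) :
          ((r' : ℕ) : 𝓞 F) ∣ ((D / r : ℕ) : 𝓞 F)).trans hy
      have hT : TwA q r' := by
        refine ⟨hp'.prime.squarefree, fun p hp hpd => ?_, fun p hp hpd => ?_⟩
        · exact hD.mod4 p hp (hpd.trans (hPd r' (hS hr')))
        · exact hD.inert p hp (hpd.trans (hPd r' (hS hr')))
      obtain ⟨_, k2, _, k4⟩ := h2 q F inferInstance inferInstance s σ χ cj r' hd hT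
      obtain ⟨m1, m2⟩ := k4 (L y) (hL y).1 ⟨1, isCoprime_one_left, by simpa using hdv'⟩
      have h7 := (k2 _ m1 1 (idp r').one_mem (by rw [m2, cl_one])).1 r' hp' dvd_rfl
      rw [h7, map_one, Nat.cast_one, jacobiSym.one_left]
    -- the number of the classes
    have hcard := h4 q F inferInstance inferInstance s σ χ cj D hd hD r 0 L (hPp r hrP)
      (hPd r hrP) hL
    rw [if_pos ⟨0, by simp⟩, if_pos (dvd_zero _)] at hcard
    have hz : ∀ B : RC F D, ∑ y : (𝓞 F ⧸ Ideal.span {(D : 𝓞 F)})ˣ,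
        (if ((D / r : ℕ) : 𝓞 F) ∣ L y - 1 then G (cl D (Ideal.span {L y}) * B) 0 else 0) = 0 := by
      intro B
      have h := h1 q F inferInstance inferInstance s σ χ cj n D φ E G hd hg hD hG r L B
        (hPp r hrP) (hPd r hrP) hL
      rwa [finsum_eq_sum_of_fintype] at h
    have hsum : ∑ y : (𝓞 F ⧸ Ideal.span {(D : 𝓞 F)})ˣ,
        (if ((D / r : ℕ) : 𝓞 F) ∣ L y - 1 then ∑ B : RC F D, (chE D S B : ℂ) * G B 0 else 0) =
        0 := by
      have e1 : ∀ y : (𝓞 F ⧸ Ideal.span {(D : 𝓞 F)})ˣ,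
          (if ((D / r : ℕ) : 𝓞 F) ∣ L y - 1 then ∑ B : RC F D, (chE D S B : ℂ) * G B 0 else 0) =
          ∑ B : RC F D, (chE D S B : ℂ) * (if ((D / r : ℕ) : 𝓞 F) ∣ L y - 1 then
            G (cl D (Ideal.span {L y}) * B) 0 else 0) := by
        intro y
        by_cases hy : ((D / r : ℕ) : 𝓞 F) ∣ L y - 1
        · simp only [if_pos hy]
          rw [← htr (fun B => (chE D S B : ℂ) * G B 0) (cl D (Ideal.span {L y}))]
          refine Finset.sum_congr rfl fun B _ => ?_
          rw [hmul S hS, hone y hy, one_mul]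
        · simp only [if_neg hy, mul_zero, Finset.sum_const_zero]
      rw [Finset.sum_congr rfl fun y _ => e1 y, Finset.sum_comm]
      refine Finset.sum_eq_zero fun B _ => ?_
      rw [← Finset.mul_sum, hz B, mul_zero]
    have hcnt : ∑ y : (𝓞 F ⧸ Ideal.span {(D : 𝓞 F)})ˣ,
        (if ((D / r : ℕ) : 𝓞 F) ∣ L y - 1 then ∑ B : RC F D, (chE D S B : ℂ) * G B 0 else 0) =
        ((r : ℂ) ^ 2 - 1) * ∑ B : RC F D, (chE D S B : ℂ) * G B 0 := by
      rw [← hcard, Finset.sum_ite, Finset.sum_const_zero, add_zero, Finset.sum_const, nsmul_eq_mul,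
        Nat.card_eq_fintype_card, Fintype.card_subtype]
      congr 3
      refine Finset.filter_congr fun y _ => ?_
      exact ⟨fun h => ⟨h, 0, by simp⟩, fun h => h.1⟩
    rw [hcnt] at hsum
    rcases mul_eq_zero.1 hsum with h | h
    · exfalso
      have hr2 : (2 : ℝ) ≤ r := by exact_mod_cast (hPp r hrP).two_le
      have h8 : ((r : ℝ) ^ 2 - 1 : ℝ) = 0 := by exact_mod_cast h
      nlinarith
    · exact h
  -- conclusion
  refine ⟨(2 ^ P.card : ℂ)⁻¹ * (chE D P Y : ℂ), ?_⟩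
  have := Fintype.ofFinite (GC F D)
  rw [finsum_eq_sum_of_fintype, finsum_eq_sum_of_fintype]
  have e2 : ∑ A : GC F D, G (Y * A.1) 0 =
      ∑ B : RC F D, (if Gen D B then (1 : ℂ) else 0) * G (Y * B) 0 := by
    have h9 : ∀ B : RC F D, (if Gen D B then (1 : ℂ) else 0) * G (Y * B) 0 =
        if Gen D B then G (Y * B) 0 else 0 := by
      intro B
      split_ifs <;> simp
    rw [Finset.sum_congr rfl fun B _ => h9 B, ← Finset.sum_filter]
    exact (Finset.sum_subtype (Finset.univ.filter fun B : RC F D => Gen D B)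
      (by intro x; simp) (fun B => G (Y * B) 0)).symm
  rw [e2]
  have e3 : ∀ B : RC F D, (if Gen D B then (1 : ℂ) else 0) * G (Y * B) 0 =
      ∑ S ∈ P.powerset, (2 ^ P.card : ℂ)⁻¹ * (chE D S Y : ℂ) *
        ((chE D S (Y * B) : ℂ) * G (Y * B) 0) := by
    intro B
    rw [hind B, Finset.sum_mul]
    refine Finset.sum_congr rfl fun S hS => ?_
    have hS' := Finset.mem_powerset.1 hS
    have e4 : (chE D S B : ℂ) = (chE D S Y : ℂ) * (chE D S (Y * B) : ℂ) := by
      rw [hmul S hS', ← Int.cast_mul, ← mul_assoc, hsq S hS', one_mul]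
    rw [e4]
    ring
  rw [Finset.sum_congr rfl fun B _ => e3 B, Finset.sum_comm]
  rw [Finset.sum_eq_single_of_mem P (Finset.mem_powerset_self P)]
  · rw [← Finset.mul_sum, htr (fun B => (chE D P B : ℂ) * G B 0) Y]
    congr 1
    refine Finset.sum_congr rfl fun B _ => ?_
    rw [hchr B]
  · intro S hS hSP
    rw [← Finset.mul_sum, htr (fun B => (chE D S B : ℂ) * G B 0) Y,
      hvan S (Finset.mem_powerset.1 hS) hSP, mul_zero]

end Pool.Agent.Lib.MP_7c08ba_nt.CN.TW
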