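import Pool.Agent.Lib.MP_7c08ba_nt.CN.T.StH
import Pool.Agent.Lib.MP_7c08ba_nt.CN.Idl
import Pool.Agent.Lib.MP_7c08ba_nt.CN.Prim
import Pool.Agent.Lib.MP_7c08ba_nt.CN.Fam
import Pool.Agent.Lib.MP_7c08ba_nt.CN.Sys
import Pool.Agent.Lib.MP_7c08ba_nt.RZ.Main

set_option autoImplicit false

/-!
Project TW, module SysT: existence of the systems of representatives of the principal genus.
-/

namespace Pool.Agent.Lib.MP_7c08ba_nt.CN.TW

open NumberField IsDedekindDomain Polynomial Pool.Agent.Lib.MP_7c08ba_nt.RZ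
open scoped nonZeroDivisors ComplexConjugate

namespace SysTAux

/-- The conductor is odd. -/
theorem odd_D {q D : ℕ} (h : TwA q D) : Odd D := by
  rw [← Nat.not_even_iff_odd]
  intro he
  have h1 := h.mod4 2 Nat.prime_two he.two_dvd
  omega

section

variable {q D : ℕ} {F : Type} [Field F] [NumberField F] {s : 𝓞 F}

/-- Change of the second generator. -/
theorem idl_conv {m : ℕ} {c : ℤ} {g g' r : 𝓞 F} (hc : IsCoprime c (m : ℤ))
    (h : g = c * g' + m * r) : idl g m = idl g' m := by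
  apply le_antisymm
  · rw [idl, Ideal.span_le]
    rintro z (rfl | rfl)
    · exact Ideal.subset_span (Set.mem_insert _ _)
    · rw [h]
      exact Ideal.add_mem _
        (Ideal.mul_mem_left _ _ (Ideal.subset_span (Set.mem_insert_of_mem _ rfl)))
        (Ideal.mul_mem_right _ _ (Ideal.subset_span (Set.mem_insert _ _)))
  · rw [idl, Ideal.span_le]
    rintro z (rfl | rfl)
    · exact Ideal.subset_span (Set.mem_insert _ _)
    · obtain ⟨u, v, huv⟩ := hc
      have h1 : (u : 𝓞 F) * c + v * (m : 𝓞 F) = 1 := by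
        exact_mod_cast congrArg (Int.cast : ℤ → 𝓞 F) huv
      have h2 : z = (u : 𝓞 F) * g + (m : 𝓞 F) * (v * z - u * r) := by
        rw [h]
        linear_combination (-z) * h1
      change z ∈ idl g m
      rw [h2]
      exact Ideal.add_mem _
        (Ideal.mul_mem_left _ _ (Ideal.subset_span (Set.mem_insert_of_mem _ rfl)))
        (Ideal.mul_mem_right _ _ (Ideal.subset_span (Set.mem_insert _ _)))

/-- Two elements `(b + D s) / 2`, `(b' + s) / 2` with `b ≡ D b'` modulo `2 m`. -/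
theorem idl_conv2 {m : ℕ} {b b' : ℤ} {g g' : 𝓞 F} (hD : IsCoprime (D : ℤ) (m : ℤ))
    (hg : 2 * g = b + D * s) (hg' : 2 * g' = b' + s) (h : (2 * (m : ℤ)) ∣ b - D * b') :
    idl g m = idl g' m := by
  obtain ⟨r, hr⟩ := h
  refine idl_conv (r := (r : 𝓞 F)) hD ?_
  have h1 : (b : 𝓞 F) - D * b' = 2 * (m : 𝓞 F) * r := by
    exact_mod_cast congrArg (Int.cast : ℤ → 𝓞 F) hr
  have h2 : (2 : 𝓞 F) * g = 2 * (((D : ℤ) : 𝓞 F) * g' + m * r) := by
    push_cast
    linear_combination hg - (D : 𝓞 F) * hg' + h1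
  exact mul_left_cancel₀ two_ne_zero h2

/-- The conditions on the pair `(m, g₀)`. -/
def GoodT (q : ℕ) (s : 𝓞 F) (B : RC F D) (x : ℕ × 𝓞 F) : Prop :=
  Odd x.1 ∧ x.1.Coprime (q * D) ∧
    (∃ b : ℤ, 2 * x.2 = b + s ∧ 4 * (x.1 : ℤ) ∣ b ^ 2 + q) ∧
    idl x.2 x.1 ∈ idp (F := F) D ∧ cl D (idl x.2 x.1) = B

/-- An ideal in the standard form is generated by its norm and `X`. -/
theorem idl_RP {a : Ideal (𝓞 F)} {X : 𝓞 F} {α : ℤ} {β : ℕ} (h : RP q D s a X α β) :
    a = idl X β := by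
  have hX : X ∈ a := ((h.lat X).2 ⟨1, 0, by simp⟩).1
  have hβ : (β : 𝓞 F) ∈ a := ((h.lat β).2 ⟨0, 1, by simp⟩).1
  apply le_antisymm
  · intro x hx
    have h1 : (D : 𝓞 F) * x ∈ latD D a :=
      ⟨Ideal.mul_mem_left _ _ hx, 0, by simp⟩
    obtain ⟨m, n, hmn⟩ := (h.lat _).1 h1
    have h2 : (D : 𝓞 F) * x ∈ idl X β := by
      rw [hmn]
      exact Ideal.add_mem _
        (Ideal.mul_mem_left _ _ (Ideal.subset_span (Set.mem_insert_of_mem _ rfl)))
        (Ideal.mul_mem_left _ _ (Ideal.subset_span (Set.mem_insert _ _)))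
    have hc : IsCoprime (D : ℤ) (β : ℤ) :=
      (Nat.isCoprime_iff_coprime.2 (Nat.Coprime.coprime_mul_left_right h.cop)).symm
    obtain ⟨u, v, huv⟩ := hc
    have h3 : (u : 𝓞 F) * D + v * (β : 𝓞 F) = 1 := by
      exact_mod_cast congrArg (Int.cast : ℤ → 𝓞 F) huv
    have h4 : x = (u : 𝓞 F) * ((D : 𝓞 F) * x) + (v * x) * (β : 𝓞 F) := by
      linear_combination (-x) * h3
    rw [h4]
    exact Ideal.add_mem _ (Ideal.mul_mem_left _ _ h2)
      (Ideal.mul_mem_left _ _ (Ideal.subset_span (Set.mem_insert _ _)))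
  · rw [idl, Ideal.span_le]
    rintro z (rfl | rfl)
    · exact hβ
    · exact hX

theorem exists_good (hR : StRepT) (hI : StIdl) (hPr : StPrim) (hF : RZC.FieldC q F (s : F))
    (hT : TwA q D) {P : Ideal (𝓞 F)} (hP : P.IsPrime) (hP2 : Ideal.absNorm P = 2)
    (B : RC F D) (M : ℕ) (hM : 0 < M) :
    ∃ x : ℕ × 𝓞 F, GoodT q s B x ∧ x.1.Coprime M ∧ 0 < x.1 := by
  obtain ⟨a, X, α, β, hRP, hcl, hco⟩ := hR q F _ _ s D hF hT B M hM
  have hpos : 0 < β := hRP.odd.pos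
  -- some element `(b + s) / 2`
  obtain ⟨b1, g1, hg1, -⟩ := SysAux.exists_P hI hPr hF hP hP2 0
  obtain ⟨hodd1, -⟩ := SysAux.odd_b hF hP hP2 hg1
  have hDβ : IsCoprime (D : ℤ) (β : ℤ) :=
    (Nat.isCoprime_iff_coprime.2 (Nat.Coprime.coprime_mul_left_right hRP.cop)).symm
  -- `α` is odd
  have hDodd := odd_D hT
  obtain ⟨k, hk⟩ := hDodd
  have hαodd : Odd α := by
    obtain ⟨c, hc⟩ := hodd1
    rw [← Int.not_even_iff_odd]
    rintro ⟨a', ha'⟩
    obtain ⟨-, -, -, huniq, -, -, -⟩ := hI q F _ _ s b1 _ g1 hF hg1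
      (SysAux.odd_b hF hP hP2 hg1).2.choose_spec
    obtain ⟨-, -, hbas, -, -, -, -⟩ := hI q F _ _ s b1 _ g1 hF hg1
      (SysAux.odd_b hF hP hP2 hg1).2.choose_spec
    obtain ⟨u, v, huv⟩ := hbas X
    have h1 := hRP.two
    -- `2 X = α + D (2 g1 - b1)`
    have h2 : ((2 * u - α + D * b1 : ℤ) : 𝓞 F) + ((2 * v - 2 * D : ℤ) : 𝓞 F) * g1 = 0 := by
      rw [huv] at h1
      push_cast
      linear_combination h1 - (D : 𝓞 F) * hg1
    have h3 := (huniq _ _ h2).1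
    rw [ha', hc, hk] at h3
    push_cast at h3
    ring_nf at h3
    omega
  -- `b0`
  obtain ⟨u, v, huv⟩ := hDβ
  obtain ⟨b0, hb0odd, hb0⟩ : ∃ b0 : ℤ, Odd b0 ∧ (2 * (β : ℤ)) ∣ D * b0 - α := by
    have hodd : Odd (β : ℤ) := by exact_mod_cast hRP.odd
    rcases Int.even_or_odd (u * α) with he | ho
    · refine ⟨u * α + β, he.add_odd hodd, ?_⟩
      have e1 : (D : ℤ) * (u * α + β) - α = β * (D - v * α) := by linear_combination α * huv
      have h2 : (2 : ℤ) ∣ D * (u * α + β) - α := by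
        have h3 : Odd ((D : ℤ) * (u * α + β)) := by
          refine Odd.mul ?_ (he.add_odd hodd)
          exact_mod_cast (odd_D hT)
        exact (h3.sub_odd hαodd).two_dvd
      refine IsCoprime.mul_dvd ?_ h2 ⟨_, e1⟩
      exact_mod_cast Nat.isCoprime_iff_coprime.2 (Nat.coprime_two_left.2 hRP.odd)
    · refine ⟨u * α, ho, ?_⟩
      have e1 : (D : ℤ) * (u * α) - α = β * (- (v * α)) := by linear_combination α * huv
      have h2 : (2 : ℤ) ∣ D * (u * α) - α := by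
        have h3 : Odd ((D : ℤ) * (u * α)) := by
          refine Odd.mul ?_ ho
          exact_mod_cast (odd_D hT)
        exact (h3.sub_odd hαodd).two_dvd
      refine IsCoprime.mul_dvd ?_ h2 ⟨_, e1⟩
      exact_mod_cast Nat.isCoprime_iff_coprime.2 (Nat.coprime_two_left.2 hRP.odd)
  -- `g0`
  obtain ⟨c, hc⟩ : (2 : ℤ) ∣ b0 - b1 := (hb0odd.sub_odd hodd1).two_dvd
  have hg0 : 2 * (g1 + (c : 𝓞 F)) = b0 + s := by
    have e1 : (b0 : 𝓞 F) - b1 = 2 * (c : 𝓞 F) := by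
      exact_mod_cast congrArg (Int.cast : ℤ → 𝓞 F) hc
    linear_combination hg1 - e1
  set g0 : 𝓞 F := g1 + (c : 𝓞 F) with hg0def
  have hconv : idl X β = idl g0 β := by
    refine idl_conv2 ⟨u, v, huv⟩ hRP.two hg0 ?_
    obtain ⟨y, hy⟩ := hb0
    exact ⟨-y, by linear_combination -hy⟩
  have ha : a = idl g0 β := (idl_RP hRP).trans hconv
  obtain ⟨-, n, hn⟩ := SysAux.odd_b hF hP hP2 hg0
  have hg0a : g0 ∈ a := by
    rw [ha]
    exact Ideal.subset_span (Set.mem_insert_of_mem _ rfl)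
  have ha' : a = idl g0 (Ideal.absNorm a) := by
    rw [hRP.norm]
    exact ha
  have hdn := SysAux.norm_dvd hI hF hg0 hn hg0a ha' (by rw [hRP.norm]; exact hpos)
  rw [hRP.norm] at hdn
  refine ⟨(β, g0), ⟨hRP.odd, hRP.cop, ⟨b0, hg0, ?_⟩, ?_, ?_⟩, hco, hpos⟩
  · obtain ⟨t, ht⟩ := hdn
    exact ⟨t, by rw [← hn, ht]; ring⟩
  · change idl g0 β ∈ idp (F := F) D
    rw [← ha]
    exact hRP.mem
  · change cl D (idl g0 β) = B
    rw [← ha]
    exact hcl

end

end SysTAux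

open SysTAux

/-- (SysT) existence of the systems of representatives -/
theorem stSysT (h1 : StRg) (_h2 : StGch) (h3 : StRepT) (h4 : StTor) : StSysT := by
  have hI : StIdl := stIdl
  have hPr : StPrim := stPrim
  have hFam : StFam := stFam
  intro q F _ _ s D hF hT P hP hP2 e
  have hDodd := odd_D hT
  have hD0 : D ≠ 0 := by
    rintro rfl
    exact absurd hDodd (by decide)
  have hfin : Finite (RC F D) := (h1 F _ _ D hD0).1
  have hfinG : Finite (GC F D) := inferInstance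
  -- square roots
  have hne : Nonempty (F →+* ℂ) := inferInstance
  obtain ⟨σ⟩ := hne
  obtain ⟨s', χ, cj, hDat⟩ := RZ.MainAux.exists_dat σ hF.1 hF.2.1 hF.2.2.1 hF.2.2.2
  obtain ⟨-, -, hsq, -⟩ := h4 q F _ _ s' σ χ cj D hDat hT
  choose Bf hBG hBB using fun A : GC F D => hsq A.1 A.2
  -- the family
  obtain ⟨x, hx, hxx⟩ := hFam (GC F D × Bool) (ℕ × 𝓞 F) inferInstance Prod.fst
    (fun i x => GoodT q s (Bf i.1) x)
    (fun i M hM => exists_good h3 hI hPr hF hT hP hP2 (Bf i.1) M hM) 1 one_pos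
  have hgood : ∀ i, GoodT q s (Bf i.1) (x i) := fun i => (hx i).1
  have hpos : ∀ i, 0 < (x i).1 := fun i => (hgood i).1.pos
  have hcopq : ∀ i, (x i).1.Coprime q := fun i =>
    Nat.Coprime.coprime_mul_right_right (hgood i).2.1
  have hcopD : ∀ i, (x i).1.Coprime D := fun i =>
    Nat.Coprime.coprime_mul_left_right (hgood i).2.1
  choose b0 hb0 hb0' using fun i => (hgood i).2.2.1
  have hcop0 : ∀ i, IsCoprime (b0 i) ((x i).1 : ℤ) := fun i =>
    SysAux.coprime_b (hcopq i) (hb0' i)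
  choose b1 hb1 hb1' using fun i => SysAux.newton4 (hcop0 i) (hb0' i)
  -- the elements `(b1 + s) / 2`
  have hg1ex : ∀ i, ∃ g : 𝓞 F, 2 * g = b1 i + s ∧ idl g (x i).1 = idl (x i).2 (x i).1 := by
    intro i
    obtain ⟨r, hr⟩ := hb1 i
    have e1 : (b1 i : 𝓞 F) - b0 i = 2 * ((x i).1 : 𝓞 F) * (r : 𝓞 F) := by
      exact_mod_cast congrArg (Int.cast : ℤ → 𝓞 F) hr
    refine ⟨(x i).2 + ((x i).1 : 𝓞 F) * (r : 𝓞 F), ?_, ?_⟩
    · linear_combination hb0 i - e1
    · refine idl_conv (c := 1) (r := (r : 𝓞 F)) isCoprime_one_left ?_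
      push_cast
      ring
  choose g1 hg1 hg1' using hg1ex
  obtain ⟨b2, g2, hg2, hg2P⟩ := SysAux.exists_P hI hPr hF hP hP2 e
  obtain ⟨hodd2, n2, hn2⟩ := SysAux.odd_b hF hP hP2 hg2
  have hqodd : Odd q := by
    rw [Nat.odd_iff]
    have := hF.2.1
    omega
  -- the Chinese remainder theorem
  let m : Option (Option (GC F D × Bool)) → ℤ := fun o =>
    match o with
    | none => 2 ^ (e + 2)
    | some none => q
    | some (some i) => ((x i).1 : ℤ) ^ 4
  let y : Option (Option (GC F D × Bool)) → ℤ := fun o =>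
    match o with
    | none => D * b2
    | some none => 0
    | some (some i) => D * b1 i
  have c2q : IsCoprime ((2 : ℤ) ^ (e + 2)) (q : ℤ) := by
    apply IsCoprime.pow_left
    exact_mod_cast Nat.isCoprime_iff_coprime.2 (Nat.coprime_two_left.2 hqodd)
  have c2x : ∀ i, IsCoprime ((2 : ℤ) ^ (e + 2)) (((x i).1 : ℤ) ^ 4) := by
    intro i
    apply IsCoprime.pow
    exact_mod_cast Nat.isCoprime_iff_coprime.2 (Nat.coprime_two_left.2 (hgood i).1)
  have cqx : ∀ i, IsCoprime (q : ℤ) (((x i).1 : ℤ) ^ 4) := by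
    intro i
    apply IsCoprime.pow_right
    exact (Nat.isCoprime_iff_coprime.2 (hcopq i)).symm
  have cxx : ∀ i j, i ≠ j → IsCoprime (((x i).1 : ℤ) ^ 4) (((x j).1 : ℤ) ^ 4) := by
    intro i j hij
    apply IsCoprime.pow
    exact Nat.isCoprime_iff_coprime.2 (hxx i j hij)
  obtain ⟨b, hb⟩ := SysAux.crt m y (by
    rintro (_ | _ | i) (_ | _ | j) hij
    · exact absurd rfl hij
    · exact c2q
    · exact c2x j
    · exact c2q.symm
    · exact absurd rfl hij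
    · exact cqx j
    · exact (c2x i).symm
    · exact (cqx i).symm
    · exact cxx i j fun h => hij (by rw [h]))
  have hbnone : (2 : ℤ) ^ (e + 2) ∣ b - D * b2 := hb none
  have hbq : (q : ℤ) ∣ b := by
    have h := hb (some none)
    change (q : ℤ) ∣ b - 0 at h
    rwa [sub_zero] at h
  have hbi : ∀ i, ((x i).1 : ℤ) ^ 4 ∣ b - D * b1 i := fun i => hb (some (some i))
  obtain ⟨t, ht⟩ := hbnone
  have hg : 2 * ((D : 𝓞 F) * g2 + ((2 ^ (e + 1) * t : ℤ) : 𝓞 F)) = b + D * s := by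
    have e1 : (b : 𝓞 F) - D * b2 = 2 ^ (e + 2) * (t : 𝓞 F) := by
      exact_mod_cast congrArg (Int.cast : ℤ → 𝓞 F) ht
    push_cast
    linear_combination (D : 𝓞 F) * hg2 - e1
  set g : 𝓞 F := (D : 𝓞 F) * g2 + ((2 ^ (e + 1) * t : ℤ) : 𝓞 F) with hgdef
  have hgP : g ∈ P ^ (e + 1) := by
    refine (P ^ (e + 1)).add_mem (Ideal.mul_mem_left _ _ hg2P) ?_
    push_cast
    exact Ideal.mul_mem_right _ _ (Ideal.pow_mem_pow (SysAux.two_mem hP2) _)
  -- `b` is odd
  have hDb2 : Odd ((D : ℤ) * b2) := by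
    refine Odd.mul ?_ hodd2
    exact_mod_cast hDodd
  have hbodd : Odd b := by
    have e1 : b = D * b2 + 2 * (2 ^ (e + 1) * t) := by
      linear_combination ht
    rw [e1]
    exact hDb2.add_even (even_two_mul _)
  have hb2n : (2 : ℤ) ^ (e + 3) ∣ b ^ 2 + q * D ^ 2 := by
    obtain ⟨-, -, -, -, -, -, hk⟩ := hI q F _ _ s b2 n2 g2 hF hg2 hn2
    obtain ⟨k1, -⟩ := hk P hP hP2 (e + 1) hg2P
    obtain ⟨z, hz⟩ := k1
    push_cast at hz
    refine ⟨D ^ 2 * z + D * b2 * t + 2 ^ (e + 1) * t ^ 2, ?_⟩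
    have e1 : b = D * b2 + 2 ^ (e + 2) * t := by linear_combination ht
    have e2 : b2 ^ 2 + (q : ℤ) = 4 * (2 ^ (e + 1) * z) := by rw [← hn2, hz]
    have e3 : b ^ 2 + (q : ℤ) * D ^ 2 = D ^ 2 * (b2 ^ 2 + q) + 2 * D * b2 * (2 ^ (e + 2) * t) +
        (2 ^ (e + 2) * t) ^ 2 := by rw [e1]; ring
    rw [e3, e2]
    ring
  have hxn : ∀ i, ((x i).1 : ℤ) ^ 4 ∣ b ^ 2 + q * D ^ 2 := by
    intro i
    have e1 : b ^ 2 + (q : ℤ) * D ^ 2 = (b - D * b1 i) * (b + D * b1 i) +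
        (b1 i ^ 2 + q) * D ^ 2 := by ring
    rw [e1]
    exact dvd_add ((hbi i).mul_right _) ((hb1' i).mul_right _)
  -- the ideals
  have h2b : ∀ i, (2 * ((x i).1 : ℤ) ^ 4) ∣ b - D * b1 i := by
    intro i
    refine IsCoprime.mul_dvd ?_ ?_ (hbi i)
    · apply IsCoprime.pow_right
      exact_mod_cast Nat.isCoprime_iff_coprime.2 (Nat.coprime_two_left.2 (hgood i).1)
    · obtain ⟨hodd1, -⟩ := SysAux.odd_b hF hP hP2 (hg1 i)
      refine (hbodd.sub_odd (Odd.mul ?_ hodd1)).two_dvd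
      exact_mod_cast hDodd
  have hcD : ∀ i, IsCoprime (D : ℤ) ((x i).1 : ℤ) := fun i =>
    (Nat.isCoprime_iff_coprime.2 (hcopD i)).symm
  have hid1 : ∀ i, idl g (x i).1 = idl (x i).2 (x i).1 := by
    intro i
    rw [← hg1' i]
    refine idl_conv2 (hcD i) hg (hg1 i) (Dvd.dvd.trans ?_ (h2b i))
    exact ⟨((x i).1 : ℤ) ^ 3, by ring⟩
  have hid2 : ∀ i, idl g ((x i).1 ^ 2) = idl (x i).2 (x i).1 ^ 2 := by
    intro i
    have k1 : idl g ((x i).1 ^ 2) = idl (g1 i) ((x i).1 ^ 2) := by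
      refine idl_conv2 ?_ hg (hg1 i) (Dvd.dvd.trans ?_ (h2b i))
      · push_cast
        exact (hcD i).pow_right
      · exact ⟨((x i).1 : ℤ) ^ 2, by push_cast; ring⟩
    rw [k1, ← hg1' i]
    obtain ⟨-, n, hn⟩ := SysAux.odd_b hF hP hP2 (hg1 i)
    obtain ⟨-, -, -, -, -, hmul, -⟩ := hI q F _ _ s (b1 i) n (g1 i) hF (hg1 i) hn
    have hc : IsCoprime ((x i).1 : ℤ) (b1 i) := by
      have e1 : b1 i = b0 i + (x i).1 * (2 * (hb1 i).choose) := by
        have := (hb1 i).choose_spec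
        linear_combination this
      rw [e1]
      exact ((hcop0 i).add_mul_left_left _).symm
    have hd : (((x i).1 * (x i).1 : ℕ) : ℤ) ∣ n := by
      have k2 : (((x i).1 * (x i).1 : ℕ) : ℤ) ∣ 4 * n := by
        rw [hn]
        refine Dvd.dvd.trans ?_ (hb1' i)
        exact ⟨((x i).1 : ℤ) ^ 2, by push_cast; ring⟩
      have k3 : IsCoprime (((x i).1 * (x i).1 : ℕ) : ℤ) 4 := by
        have k4 : (4 : ℤ) = 2 ^ 2 := by norm_num
        rw [k4]
        refine IsCoprime.pow_right ?_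
        have k5 : IsCoprime ((x i).1 : ℤ) 2 := by
          exact_mod_cast Nat.isCoprime_iff_coprime.2 (Nat.coprime_two_right.2 (hgood i).1)
        push_cast
        exact k5.mul_left k5
      exact k3.dvd_of_dvd_mul_left k2
    rw [sq, sq]
    exact (hmul _ _ (hpos i) (hpos i) hd hc).symm
  have hsys : ∀ β : Bool, SysT q D s b g fun A => (x (A, β)).1 ^ 2 := fun β =>
    { two := hg
      dvd := hbq
      odd := fun A => (hgood (A, β)).1.pow
      cop := fun A => Nat.Coprime.pow_left 2 (hgood (A, β)).2.1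
      cls := fun A => by
        rw [hid2, sq, cl_mul (hgood (A, β)).2.2.2.1 (hgood (A, β)).2.2.2.1,
          (hgood (A, β)).2.2.2.2]
        exact hBB A
      sqr := fun A => ⟨(x (A, β)).1, rfl, by rw [hid2, hid1]⟩ }
  refine ⟨b, g, fun A => (x (A, true)).1 ^ 2, fun A => (x (A, false)).1 ^ 2, hsys true,
    hsys false, hgP, fun A B => ?_⟩
  have hne : (A, true) ≠ (B, false) := by
    intro h
    exact absurd (congrArg Prod.snd h) (by simp)
  refine ⟨Nat.Coprime.pow 2 2 (hxx _ _ hne), ?_⟩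
  have e1 : (8 * 2 ^ e * ((((x (A, true)).1 ^ 2 : ℕ) : ℤ) * (((x (B, false)).1 ^ 2 : ℕ) : ℤ)) ^ 2
      : ℤ) = 2 ^ (e + 3) * (((x (A, true)).1 : ℤ) ^ 4 * ((x (B, false)).1 : ℤ) ^ 4) := by
    push_cast
    ring
  rw [e1]
  have c3 : ∀ i, IsCoprime ((2 : ℤ) ^ (e + 3)) (((x i).1 : ℤ) ^ 4) := by
    intro i
    apply IsCoprime.pow
    exact_mod_cast Nat.isCoprime_iff_coprime.2 (Nat.coprime_two_left.2 (hgood i).1)
  exact IsCoprime.mul_dvd ((c3 _).mul_right (c3 _)) hb2n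
    (IsCoprime.mul_dvd (cxx _ _ hne) (hxn _) (hxn _))

end Pool.Agent.Lib.MP_7c08ba_nt.CN.TW
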