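import Pool.Agent.Lib.MP_7c08ba_nt.CN.T.StP
import Pool.Agent.Lib.MP_7c08ba_nt.RZ.C.Class
import Pool.Agent.Lib.MP_7c08ba_nt.RZ.Basic

set_option autoImplicit false

/-!
Project TW, module TE: weighted half sums of the values of `x`: integrality, invariance, Frobenius.
-/

namespace Pool.Agent.Lib.MP_7c08ba_nt.CN.TW

open NumberField IsDedekindDomain Polynomial RZC
open scoped nonZeroDivisors ComplexConjugate

namespace TEAux

/-- a half system for `x ↦ -x` -/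
theorem half (X : Type) [Fintype X] [DecidableEq X] [AddGroup X]
    (h2 : ∀ x : X, x ≠ 0 → x ≠ -x) :
    ∃ H : Finset X, (∀ x ∈ H, x ≠ 0) ∧ ∀ f : X → ℂ, (∀ x, f (-x) = f x) →
      ∑ x, (if x = 0 then 0 else f x) = 2 * ∑ x ∈ H, f x := by
  let e := Fintype.equivFin X
  refine ⟨Finset.univ.filter (fun x => e x < e (-x)), ?_, ?_⟩
  · intro x hx h0
    rw [Finset.mem_filter, h0, neg_zero] at hx
    exact lt_irrefl _ hx.2
  · intro f hf
    have h3 : ∑ x, (if x = 0 then 0 else f x) = ∑ x ∈ Finset.univ.filter (fun x : X => x ≠ 0), f x := by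
      rw [Finset.sum_filter]
      refine Finset.sum_congr rfl fun x _ => ?_
      by_cases h : x = 0
      · simp [h]
      · simp [h]
    have h4 : Finset.univ.filter (fun x : X => x ≠ 0) =
        Finset.univ.filter (fun x => e x < e (-x)) ∪ Finset.univ.filter (fun x => e (-x) < e x) := by
      ext x
      simp only [Finset.mem_filter, Finset.mem_univ, true_and, Finset.mem_union]
      constructor
      · intro h
        have h5 : e x ≠ e (-x) := fun h6 => h2 x h (e.injective h6)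
        exact lt_or_gt_of_ne h5
      · rintro (h | h) h0
        · rw [h0, neg_zero] at h; exact lt_irrefl _ h
        · rw [h0, neg_zero] at h; exact lt_irrefl _ h
    have h5 : Disjoint (Finset.univ.filter (fun x => e x < e (-x)))
        (Finset.univ.filter (fun x => e (-x) < e x)) := by
      rw [Finset.disjoint_left]
      intro x hx hx'
      rw [Finset.mem_filter] at hx hx'
      exact lt_asymm hx.2 hx'.2
    have h6 : ∑ x ∈ Finset.univ.filter (fun x => e (-x) < e x), f x =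
        ∑ x ∈ Finset.univ.filter (fun x => e x < e (-x)), f x := by
      refine Finset.sum_nbij' (fun x => -x) (fun x => -x) ?_ ?_ ?_ ?_ ?_
      · intro x hx
        rw [Finset.mem_filter] at hx ⊢
        exact ⟨Finset.mem_univ _, by rw [neg_neg]; exact hx.2⟩
      · intro x hx
        rw [Finset.mem_filter] at hx ⊢
        exact ⟨Finset.mem_univ _, by rw [neg_neg]; exact hx.2⟩
      · intro x _; exact neg_neg x
      · intro x _; exact neg_neg x
      · intro x _; exact (hf x).symm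
    rw [h3, h4, Finset.sum_union h5, h6]
    ring

section val

variable {A : ValuationSubring ℂ}

theorem sum_mem' {ι : Type} (S : Finset ι) (f : ι → ℂ) (h : ∀ i ∈ S, f i ∈ A) :
    ∑ i ∈ S, f i ∈ A := Subring.sum_mem A.toSubring h

/-- squares of sums and sums of squares -/
theorem sum_sq (hA : Above2 A) {ι : Type} [DecidableEq ι] (S : Finset ι) (f g : ι → ℂ)
    (h : ∀ i ∈ S, f i ∈ A) (hg : ∀ i ∈ S, g i - f i ^ 2 ∈ A.nonunits) :
    ∑ i ∈ S, g i - (∑ i ∈ S, f i) ^ 2 ∈ A.nonunits := by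
  induction S using Finset.induction_on with
  | empty => simpa using zero_nonunits
  | insert a S ha ih =>
    rw [Finset.sum_insert ha, Finset.sum_insert ha]
    have h1 := ih (fun i hi => h i (Finset.mem_insert_of_mem hi))
      (fun i hi => hg i (Finset.mem_insert_of_mem hi))
    have h2 := hg a (Finset.mem_insert_self a S)
    have h3 := h a (Finset.mem_insert_self a S)
    have h4 : ∑ i ∈ S, f i ∈ A := sum_mem' S f fun i hi => h i (Finset.mem_insert_of_mem hi)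
    have h5 : 2 * (f a * ∑ i ∈ S, f i) ∈ A.nonunits := nonunits_mul_right hA (A.mul_mem _ _ h3 h4)
    have h6 := nonunits_sub (nonunits_add h2 h1) h5
    convert h6 using 1
    ring

end val

section field

variable {F : Type} [Field F] [NumberField F] {D : ℕ}

theorem odd_D {q : ℕ} (h : TwA q D) : Odd D := by
  rw [← Nat.not_even_iff_odd, even_iff_two_dvd]
  intro h2
  have := h.mod4 2 Nat.prime_two h2
  omega

theorem int_dvd {n : ℤ} (h : (D : 𝓞 F) ∣ (n : 𝓞 F)) : (D : ℤ) ∣ n := by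
  have h1 : Ideal.span {(n : 𝓞 F)} ≤ Ideal.span {(D : 𝓞 F)} := by
    rw [Ideal.span_singleton_le_span_singleton]
    exact h
  have h2 := Ideal.absNorm_dvd_absNorm_of_le h1
  rw [Ideal.absNorm_span_singleton, Ideal.absNorm_span_singleton] at h2
  have h3 : (n : 𝓞 F) = algebraMap ℤ (𝓞 F) n := (eq_intCast _ _).symm
  have h4 : (D : 𝓞 F) = algebraMap ℤ (𝓞 F) (D : ℤ) := by
    rw [eq_intCast]; push_cast; rfl
  rw [h3, h4, Algebra.norm_algebraMap, Algebra.norm_algebraMap, Int.natAbs_pow, Int.natAbs_pow,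
    Nat.pow_dvd_pow_iff (by
      have : 0 < Module.finrank ℤ (𝓞 F) := Module.finrank_pos
      omega)] at h2
  rwa [Int.natAbs_dvd_natAbs] at h2

variable {cj : 𝓞 F ≃+* 𝓞 F}

theorem norm_congr (hN : ∀ x : 𝓞 F, x * cj x = (Ideal.absNorm (Ideal.span {x}) : 𝓞 F))
    {x y : 𝓞 F} (h : (D : 𝓞 F) ∣ x - y) :
    (D : ℤ) ∣ (Ideal.absNorm (Ideal.span {x}) : ℤ) - Ideal.absNorm (Ideal.span {y}) := by
  refine int_dvd (F := F) ?_
  push_cast
  rw [← hN, ← hN]
  obtain ⟨w, hw⟩ := h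
  have hx : x = y + D * w := by linear_combination hw
  refine ⟨w * cj y + y * cj w + D * w * cj w, ?_⟩
  rw [hx, map_add, map_mul, map_natCast]
  ring

theorem wE_congr {ε : ℕ → ℤ} {m n : ℤ} (h : ∀ r ∈ D.primeFactors, (r : ℤ) ∣ m - n) :
    wE D ε m = wE D ε n := by
  unfold wE
  refine Finset.prod_congr rfl fun r hr => ?_
  have h1 := h r hr
  have h2 : jacobiSym m r = jacobiSym n r :=
    jacobiSym.mod_left' (Int.emod_eq_emod_iff_emod_sub_eq_zero.2 (Int.emod_eq_zero_of_dvd h1))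
  have h3 : (r : ℤ) ∣ m ↔ (r : ℤ) ∣ n := by
    constructor
    · intro h4
      have := dvd_sub h4 h1
      simpa using this
    · intro h4
      have := dvd_add h1 h4
      simpa using this
  rw [h2]
  simp only [h3]

theorem norm_dvd {c : Ideal (𝓞 F)} {z : 𝓞 F} (hz : z ∈ c) :
    (Ideal.absNorm c : ℤ) ∣ Ideal.absNorm (Ideal.span {z}) := by
  have : Ideal.span {z} ≤ c := (Ideal.span_singleton_le_iff_mem c).2 hz
  exact_mod_cast Ideal.absNorm_dvd_absNorm_of_le this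

theorem quot_congr (hN : ∀ x : 𝓞 F, x * cj x = (Ideal.absNorm (Ideal.span {x}) : 𝓞 F))
    {c : Ideal (𝓞 F)} (hc : (Ideal.absNorm c).Coprime D) {z z' : 𝓞 F} (hz : z ∈ c)
    (hz' : z' ∈ c) (h : (D : 𝓞 F) ∣ z - z') (r : ℕ) (hr : r ∈ D.primeFactors) :
    (r : ℤ) ∣ (Ideal.absNorm (Ideal.span {z}) : ℤ) / Ideal.absNorm c -
      (Ideal.absNorm (Ideal.span {z'}) : ℤ) / Ideal.absNorm c := by
  have h1 := norm_congr hN h
  obtain ⟨k, hk⟩ := norm_dvd hz
  obtain ⟨k', hk'⟩ := norm_dvd hz'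
  have hr' := Nat.mem_primeFactors.1 hr
  have hc0 : (Ideal.absNorm c : ℤ) ≠ 0 := by
    intro h0
    have h0' : Ideal.absNorm c = 0 := by exact_mod_cast h0
    rw [h0', Nat.coprime_zero_left] at hc
    exact hr'.1.one_lt.ne' (Nat.dvd_one.1 (hc ▸ hr'.2.1))
  rw [hk, hk', Int.mul_ediv_cancel_left _ hc0, Int.mul_ediv_cancel_left _ hc0]
  rw [hk, hk', ← mul_sub] at h1
  have h2 : (r : ℤ) ∣ Ideal.absNorm c * (k - k') :=
    (Int.natCast_dvd_natCast.2 hr'.2.1).trans h1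
  have h3 : IsCoprime (r : ℤ) (Ideal.absNorm c : ℤ) :=
    Nat.isCoprime_iff_coprime.2 ((hc.coprime_dvd_right hr'.2.1).symm)
  exact h3.dvd_of_dvd_mul_left h2

/-- the value of `jacobiSym` at twice a number -/
theorem wE_two (hD : ∀ r : ℕ, r.Prime → r ∣ D → r % 4 = 1) {ε : ℕ → ℤ} (n : ℤ) :
    wE D (fun r => ε r * jacobiSym 2 r) (2 * n) = wE D ε n := by
  unfold wE
  refine Finset.prod_congr rfl fun r hr => ?_
  have hr' := Nat.mem_primeFactors.1 hr
  have h4 := hD r hr'.1 hr'.2.1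
  have hodd : Nat.Coprime 2 r := by
    rw [Nat.coprime_two_left]
    exact Nat.odd_iff.2 (by omega)
  have h1 : (r : ℤ) ∣ 2 * n ↔ (r : ℤ) ∣ n := by
    constructor
    · intro h
      have h3 : IsCoprime (r : ℤ) (2 : ℤ) := by
        have := Nat.isCoprime_iff_coprime.2 hodd.symm
        exact_mod_cast this
      exact h3.dvd_of_dvd_mul_left h
    · intro h
      exact dvd_mul_of_dvd_right h _
  have h2 : jacobiSym 2 r ^ 2 = 1 := jacobiSym.sq_one (by exact_mod_cast hodd)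
  have h3 : ε r * jacobiSym 2 r * jacobiSym (2 * n) r = ε r * jacobiSym n r := by
    rw [jacobiSym.mul_left]
    linear_combination (ε r * jacobiSym n r) * h2
  simp only [h1, h3]

/-- the sum as a finite sum -/
theorem TE_eq (D : ℕ) (σ : F →+* ℂ) (ε : ℕ → ℤ) (c : Ideal (𝓞 F))
    [Fintype (𝓞 F ⧸ Ideal.span {(D : 𝓞 F)})] [DecidableEq (𝓞 F ⧸ Ideal.span {(D : 𝓞 F)})] :
    TE D σ ε c = 1 / 2 * ∑ ρ : 𝓞 F ⧸ Ideal.span {(D : 𝓞 F)}, if ρ = 0 then 0 else
      (wE D ε ((Ideal.absNorm (Ideal.span {lf D c ρ}) : ℤ) / Ideal.absNorm c) : ℂ) *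
        xc D σ c (lf D c ρ) := by
  unfold TE
  rw [finsum_eq_sum_of_fintype]
  congr 1
  refine Finset.sum_congr rfl fun ρ _ => ?_
  by_cases h : ρ = 0
  · simp [h]
  · simp [h]

theorem mk_eq_iff {x y : 𝓞 F} : Ideal.Quotient.mk (Ideal.span {(D : 𝓞 F)}) x =
    Ideal.Quotient.mk (Ideal.span {(D : 𝓞 F)}) y ↔ (D : 𝓞 F) ∣ x - y := by
  rw [Ideal.Quotient.eq, Ideal.mem_span_singleton]

theorem unit_mk {y : 𝓞 F} (h : IsCoprime (Ideal.span {y}) (Ideal.span {(D : 𝓞 F)})) :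
    IsUnit (Ideal.Quotient.mk (Ideal.span {(D : 𝓞 F)}) y) := by
  rw [Ideal.isCoprime_iff_exists] at h
  obtain ⟨a, ha, b, hb, hab⟩ := h
  obtain ⟨t, rfl⟩ := Ideal.mem_span_singleton.1 ha
  refine IsUnit.of_mul_eq_one (Ideal.Quotient.mk (Ideal.span {(D : 𝓞 F)}) t) ?_
  rw [← map_mul, ← map_one (Ideal.Quotient.mk (Ideal.span {(D : 𝓞 F)})), Ideal.Quotient.eq]
  have : y * t - 1 = -b := by linear_combination hab
  rw [this]
  exact neg_mem hb

/-- change of the variable -/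
theorem sum_unit {X : Type} [Fintype X] [DecidableEq X] [Ring X] {u : X} (hu : IsUnit u)
    (f : X → ℂ) : ∑ x, (if x = 0 then 0 else f x) = ∑ x, (if x = 0 then 0 else f (u * x)) := by
  obtain ⟨v, rfl⟩ := hu
  rw [← Equiv.sum_comp (Units.mulLeft v)]
  refine Finset.sum_congr rfl fun x _ => ?_
  have h1 : (Units.mulLeft v) x = v * x := rfl
  rw [h1]
  have h2 : (v : X) * x = 0 ↔ x = 0 := by
    constructor
    · intro h
      exact (Units.mul_right_eq_zero v).1 h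
    · intro h
      rw [h, mul_zero]
  simp only [h2]

end field

end TEAux

open TEAux in
/-- Module TE. -/
theorem stTE (h1 : StXc) (h2 : StXf) (h3 : StRg) : StTE := by
  intro q F iF iN s σ A hF hA
  obtain ⟨P, P', hPP, hP, hP', H⟩ := h2 q F iF iN s σ A hF hA
  obtain ⟨s', σ', χ, cj, -, hdat⟩ := ClassAux.exists_dat hF
  obtain ⟨-, -, -, -, hN, -⟩ := RZ.stBas q F iF iN s' σ' χ cj hdat
  refine ⟨P', hP', fun D ε hD hε => ?_⟩
  obtain ⟨hP'D, H⟩ := H D hD
  refine ⟨hP'D, fun c hc => ?_⟩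
  have hD0 : D ≠ 0 := hD.sqf.ne_zero
  have hDF : (D : 𝓞 F) ≠ 0 := by exact_mod_cast hD0
  have hbot : Ideal.span {(D : 𝓞 F)} ≠ ⊥ := by
    rw [Ne, Ideal.span_singleton_eq_bot]
    exact hDF
  haveI : Finite (𝓞 F ⧸ Ideal.span {(D : 𝓞 F)}) := Ideal.finiteQuotientOfFreeOfNeBot _ hbot
  letI : Fintype (𝓞 F ⧸ Ideal.span {(D : 𝓞 F)}) := Fintype.ofFinite _
  classical
  have hcop : ∀ c : Ideal (𝓞 F), c ∈ idp (F := F) D → (Ideal.absNorm c).Coprime D :=
    fun c hc => (((h3 F iF iN D hD0).2.2 c).1 hc).2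
  have h2u : IsUnit (Ideal.Quotient.mk (Ideal.span {(D : 𝓞 F)}) (2 : 𝓞 F)) := by
    refine unit_mk ?_
    rw [Ideal.isCoprime_span_singleton_iff]
    obtain ⟨k, hk⟩ := odd_D hD
    refine ⟨-k, 1, ?_⟩
    rw [hk]
    push_cast
    ring
  have hneg : ∀ ρ : 𝓞 F ⧸ Ideal.span {(D : 𝓞 F)}, ρ ≠ 0 → ρ ≠ -ρ := by
    intro ρ h0 h
    apply h0
    obtain ⟨v, hv⟩ := h2u
    have h4 : (v : 𝓞 F ⧸ Ideal.span {(D : 𝓞 F)}) * ρ = 0 := by
      rw [hv, map_ofNat, two_mul]
      nth_rewrite 2 [h]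
      exact add_neg_cancel ρ
    exact (Units.mul_right_eq_zero v).1 h4
  obtain ⟨S, hS0, hS⟩ := half (𝓞 F ⧸ Ideal.span {(D : 𝓞 F)}) hneg
  -- the terms only depend on the residue class
  have term : ∀ (ε : ℕ → ℤ) (c : Ideal (𝓞 F)), c ∈ idp (F := F) D → ∀ z ∈ c, ∀ z' ∈ c,
      (D : 𝓞 F) ∣ z - z' →
      (wE D ε ((Ideal.absNorm (Ideal.span {z}) : ℤ) / Ideal.absNorm c) : ℂ) * xc D σ c z =
      (wE D ε ((Ideal.absNorm (Ideal.span {z'}) : ℤ) / Ideal.absNorm c) : ℂ) * xc D σ c z' := by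
    intro ε c hc z hz z' hz' hzz
    obtain ⟨-, -, x3, -, -, -⟩ := h1 q F iF iN s σ D hF hD c hc
    rw [x3 z hz z' hz' hzz, wE_congr (quot_congr hN (hcop c hc) hz hz' hzz)]
  have termneg : ∀ (ε : ℕ → ℤ) (c : Ideal (𝓞 F)), c ∈ idp (F := F) D → ∀ z ∈ c, 
      (wE D ε ((Ideal.absNorm (Ideal.span {-z}) : ℤ) / Ideal.absNorm c) : ℂ) * xc D σ c (-z) =
      (wE D ε ((Ideal.absNorm (Ideal.span {z}) : ℤ) / Ideal.absNorm c) : ℂ) * xc D σ c z := by
    intro ε c hc z hz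
    obtain ⟨-, -, -, x4, -, -⟩ := h1 q F iF iN s σ D hF hD c hc
    rw [x4 z hz, Ideal.span_singleton_neg]
  obtain ⟨-, x2, -, -, x5, x6⟩ := h1 q F iF iN s σ D hF hD c hc
  -- the half sum
  have heven : ∀ (c : Ideal (𝓞 F)), c ∈ idp (F := F) D →
      (∀ ρ, lf D c ρ ∈ c ∧ Ideal.Quotient.mk (Ideal.span {(D : 𝓞 F)}) (lf D c ρ) = ρ) →
      ∀ ρ, (D : 𝓞 F) ∣ lf D c (-ρ) - -lf D c ρ := by
    intro c _ x2 ρ
    rw [← mk_eq_iff, (x2 (-ρ)).2, map_neg, (x2 ρ).2]
  have hTE : TE D σ ε c = ∑ ρ ∈ S,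
      (wE D ε ((Ideal.absNorm (Ideal.span {lf D c ρ}) : ℤ) / Ideal.absNorm c) : ℂ) *
        xc D σ c (lf D c ρ) := by
    rw [TE_eq, hS]
    · ring
    · intro ρ
      rw [term ε c hc _ (x2 (-ρ)).1 _ (neg_mem (x2 ρ).1) (heven c hc x2 ρ)]
      exact termneg ε c hc _ (x2 ρ).1
  have hmemA : ∀ ρ ∈ S, (wE D ε ((Ideal.absNorm (Ideal.span {lf D c ρ}) : ℤ) /
      Ideal.absNorm c) : ℂ) * xc D σ c (lf D c ρ) ∈ A := by
    intro ρ hρ
    refine A.mul_mem _ _ (int_mem _) (x6 A hA _ (x2 ρ).1 ?_)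
    intro hdiv
    apply hS0 ρ hρ
    rw [← (x2 ρ).2, Ideal.Quotient.eq_zero_iff_mem, Ideal.mem_span_singleton]
    exact hdiv
  refine ⟨?_, ?_, ?_⟩
  · rw [hTE]
    exact sum_mem' S _ hmemA
  · intro y hy
    have hyc : Ideal.span {y} * c ∈ idp (F := F) D := (idp D).mul_mem hy hc
    have hy0 : y ≠ 0 := by
      intro h0
      exact hy.1 (by rw [h0]; exact Ideal.span_singleton_eq_bot.2 rfl)
    obtain ⟨-, y2, -, -, -, -⟩ := h1 q F iF iN s σ D hF hD _ hyc
    have hyu := unit_mk hy.2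
    rw [TE_eq, TE_eq, sum_unit hyu]
    congr 1
    refine Finset.sum_congr rfl fun ρ _ => ?_
    by_cases h0 : ρ = 0
    · rw [if_pos h0, if_pos h0]
    rw [if_neg h0, if_neg h0]
    have hmem : y * lf D c ρ ∈ Ideal.span {y} * c :=
      Ideal.mul_mem_mul (Ideal.mem_span_singleton_self y) (x2 ρ).1
    rw [term ε _ hyc _ (y2 _).1 (y * lf D c ρ) hmem (by
      rw [← mk_eq_iff, (y2 _).2, map_mul, (x2 ρ).2])]
    rw [x5 y _ hy0]
    have hny : (Ideal.absNorm (Ideal.span {y}) : ℤ) ≠ 0 := by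
      rw [Ne, Nat.cast_eq_zero, Ideal.absNorm_eq_zero_iff]
      exact hy.1
    have hq : (Ideal.absNorm (Ideal.span {y * lf D c ρ}) : ℤ) /
        Ideal.absNorm (Ideal.span {y} * c) =
        (Ideal.absNorm (Ideal.span {lf D c ρ}) : ℤ) / Ideal.absNorm c := by
      rw [← Ideal.span_singleton_mul_span_singleton, map_mul, map_mul, Nat.cast_mul,
        Nat.cast_mul, Int.mul_ediv_mul_of_pos _ _ (lt_of_le_of_ne (Int.natCast_nonneg _) hny.symm)]
    rw [hq]
  · have hyc : P' * c ∈ idp (F := F) D := (idp D).mul_mem hP'D hc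
    obtain ⟨-, y2, -, y4, -, -⟩ := h1 q F iF iN s σ D hF hD _ hyc
    have h2P : (2 : 𝓞 F) ∈ P' := by
      have h5 : (2 : 𝓞 F) ∈ P * P' := by
        rw [hPP]
        exact Ideal.mem_span_singleton_self 2
      have h6 : P * P' ≤ P' := Ideal.mul_le_right
      exact h6 h5
    have hmem : ∀ ρ, 2 * lf D c ρ ∈ P' * c := fun ρ => Ideal.mul_mem_mul h2P (x2 ρ).1
    have hc0 : (Ideal.absNorm c : ℤ) ≠ 0 := by
      rw [Ne, Nat.cast_eq_zero, Ideal.absNorm_eq_zero_iff]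
      exact hc.1
    have hN2 : (Ideal.absNorm (Ideal.span {(2 : 𝓞 F)}) : ℤ) = 4 := by
      have h5 : Ideal.absNorm P * Ideal.absNorm P' = Ideal.absNorm (Ideal.span {(2 : 𝓞 F)}) := by
        rw [← map_mul, hPP]
      rw [← h5, hP, hP']
      norm_num
    have hq : ∀ ρ, (Ideal.absNorm (Ideal.span {2 * lf D c ρ}) : ℤ) /
        Ideal.absNorm (P' * c) =
        2 * ((Ideal.absNorm (Ideal.span {lf D c ρ}) : ℤ) / Ideal.absNorm c) := by
      intro ρ
      obtain ⟨k, hk⟩ := norm_dvd (x2 ρ).1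
      rw [← Ideal.span_singleton_mul_span_singleton, map_mul, map_mul, Nat.cast_mul,
        Nat.cast_mul, hN2, hP', hk, Int.mul_ediv_cancel_left _ hc0]
      rw [show (4 : ℤ) * (Ideal.absNorm c * k) = ((2 : ℕ) : ℤ) * Ideal.absNorm c * (2 * k) by
        push_cast; ring]
      exact Int.mul_ediv_cancel_left _ (mul_ne_zero (by norm_num) hc0)
    have hTE2 : TE D σ (fun r => ε r * jacobiSym 2 r) (P' * c) = ∑ ρ ∈ S,
        (wE D ε ((Ideal.absNorm (Ideal.span {lf D c ρ}) : ℤ) / Ideal.absNorm c) : ℂ) *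
          xc D σ (P' * c) (2 * lf D c ρ) := by
      have h5 : ∀ ρ, (wE D (fun r => ε r * jacobiSym 2 r)
          ((Ideal.absNorm (Ideal.span {2 * lf D c ρ}) : ℤ) / Ideal.absNorm (P' * c)) : ℂ) *
          xc D σ (P' * c) (2 * lf D c ρ) =
          (wE D ε ((Ideal.absNorm (Ideal.span {lf D c ρ}) : ℤ) / Ideal.absNorm c) : ℂ) *
          xc D σ (P' * c) (2 * lf D c ρ) := by
        intro ρ
        rw [hq, wE_two hD.mod4]
      rw [TE_eq, sum_unit h2u]
      have h6 : ∀ ρ : 𝓞 F ⧸ Ideal.span {(D : 𝓞 F)}, (if ρ = 0 then 0 else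
          (wE D (fun r => ε r * jacobiSym 2 r) ((Ideal.absNorm (Ideal.span {lf D (P' * c)
            (Ideal.Quotient.mk (Ideal.span {(D : 𝓞 F)}) 2 * ρ)}) : ℤ) /
            Ideal.absNorm (P' * c)) : ℂ) *
          xc D σ (P' * c) (lf D (P' * c) (Ideal.Quotient.mk (Ideal.span {(D : 𝓞 F)}) 2 * ρ))) =
          if ρ = 0 then 0 else
          (wE D ε ((Ideal.absNorm (Ideal.span {lf D c ρ}) : ℤ) / Ideal.absNorm c) : ℂ) *
          xc D σ (P' * c) (2 * lf D c ρ) := by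
        intro ρ
        by_cases h0 : ρ = 0
        · rw [if_pos h0, if_pos h0]
        rw [if_neg h0, if_neg h0, ← h5 ρ]
        exact term _ _ hyc _ (y2 _).1 _ (hmem ρ) (by
          rw [← mk_eq_iff, (y2 _).2, map_mul, (x2 ρ).2])
      rw [Finset.sum_congr rfl fun ρ _ => h6 ρ, hS]
      · ring
      · intro ρ
        rw [← h5, ← h5]
        rw [term _ _ hyc _ (hmem (-ρ)) (-(2 * lf D c ρ)) (neg_mem (hmem ρ)) (by
          obtain ⟨w, hw⟩ := heven c hc x2 ρ
          exact ⟨2 * w, by linear_combination 2 * hw⟩)]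
        exact termneg _ _ hyc _ (hmem ρ)
    rw [hTE2, hTE]
    refine sum_sq hA S _ _ hmemA fun ρ hρ => ?_
    have hnd : ¬ (D : 𝓞 F) ∣ lf D c ρ := by
      intro hdiv
      apply hS0 ρ hρ
      rw [← (x2 ρ).2, Ideal.Quotient.eq_zero_iff_mem, Ideal.mem_span_singleton]
      exact hdiv
    have h5 := H c hc _ (x2 ρ).1 hnd
    have h6 := x6 A hA _ (x2 ρ).1 hnd
    set w : ℤ := wE D ε ((Ideal.absNorm (Ideal.span {lf D c ρ}) : ℤ) / Ideal.absNorm c) with hw
    have h7 : (((w - w ^ 2 : ℤ)) : ℂ) ∈ A.nonunits := by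
      refine even_nonunits hA ?_
      have : w - w ^ 2 = -(w * (w - 1)) := by ring
      rw [this, even_neg]
      exact Int.even_mul_pred_self w
    have h8 := nonunits_add (nonunits_mul_left (int_mem (A := A) w) h5)
      (nonunits_mul_right h7 (A.mul_mem _ _ h6 h6))
    convert h8 using 1
    push_cast
    ring

end Pool.Agent.Lib.MP_7c08ba_nt.CN.TW
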