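import Pool.Agent.Lib.MP_7c08ba_nt.CN.T.StTh
import Pool.Agent.Lib.MP_7c08ba_nt.CN.T.StH
import Pool.Agent.Lib.MP_7c08ba_nt.RZ.ThGD
import Pool.Agent.Lib.MP_7c08ba_nt.RZ.Raise
import Pool.Agent.Lib.MP_7c08ba_nt.RZ.PoisK
import Pool.Agent.Lib.MP_7c08ba_nt.RZ.Poisson
import Pool.Agent.Lib.MP_7c08ba_nt.RZ.ThB
import Pool.Agent.Lib.MP_7c08ba_nt.RZ.Base
import Pool.Agent.Lib.MP_7c08ba_nt.RZ.Bas

set_option autoImplicit false

/-!
Project TW (T1): theta series of the lattices of the elements congruent to rational integers.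
-/

namespace Pool.Agent.Lib.MP_7c08ba_nt.CN.TW

open NumberField IsDedekindDomain Polynomial Pool.Agent.Lib.MP_7c08ba_nt.RZ
open scoped nonZeroDivisors ComplexConjugate MatrixGroups

namespace ThTAux

open ThGX ThGDX

theorem lift_coprime (m0 n0 : ℤ) (D : ℕ) (hD : D ≠ 0)
    (h : ∀ r : ℕ, r.Prime → r ∣ D → ¬ ((r : ℤ) ∣ m0 ∧ (r : ℤ) ∣ n0)) :
    ∃ m n : ℤ, IsCoprime m n ∧ (D : ℤ) ∣ m - m0 ∧ (D : ℤ) ∣ n - n0 := by
  obtain ⟨n, hn0, hn⟩ : ∃ n : ℤ, n ≠ 0 ∧ (D : ℤ) ∣ n - n0 := by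
    by_cases h0 : n0 = 0
    · exact ⟨D, by exact_mod_cast hD, by rw [h0, sub_zero]⟩
    · exact ⟨n0, h0, by rw [sub_self]; exact dvd_zero _⟩
  have hg0 : 0 < Int.gcd m0 D := Int.gcd_pos_of_ne_zero_right _ (by exact_mod_cast hD)
  obtain ⟨g, hg⟩ : ∃ g : ℕ, g = Int.gcd m0 D := ⟨_, rfl⟩
  rw [← hg] at hg0
  have hgm : (g : ℤ) ∣ m0 := hg ▸ Int.gcd_dvd_left _ _
  have hgD : (g : ℤ) ∣ D := hg ▸ Int.gcd_dvd_right _ _
  obtain ⟨m1, hm1⟩ := hgm
  obtain ⟨D1, hD1⟩ : g ∣ D := by exact_mod_cast hgD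
  have hD10 : D1 ≠ 0 := by
    rintro rfl
    exact hD (by rw [hD1, mul_zero])
  have hcop : IsCoprime m1 (D1 : ℤ) := by
    rw [Int.isCoprime_iff_gcd_eq_one]
    have h1 : Int.gcd m0 D = g * Int.gcd m1 D1 := by
      rw [hm1, hD1]
      push_cast
      rw [Int.gcd_mul_left, Int.natAbs_natCast]
    rw [← hg] at h1
    have h2 : g * 1 = g * Int.gcd m1 D1 := by rw [mul_one]; exact h1
    exact (Nat.eq_of_mul_eq_mul_left hg0 h2).symm
  obtain ⟨p, hpgt, hpp, hpmod⟩ := Nat.forall_exists_prime_gt_and_zmodEq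
      n.natAbs (q := D1) (a := m1) hD10 hcop
  obtain ⟨k, hk⟩ := hpmod.symm.dvd
  refine ⟨g * p, n, ?_, ?_, hn⟩
  · apply IsCoprime.mul_left
    · rw [Int.isCoprime_iff_gcd_eq_one]
      by_contra h1
      obtain ⟨r, hr, hr1⟩ := Nat.exists_prime_and_dvd h1
      have hrg : (r : ℤ) ∣ g := dvd_trans (by exact_mod_cast hr1) (Int.gcd_dvd_left _ _)
      have hrn : (r : ℤ) ∣ n := dvd_trans (by exact_mod_cast hr1) (Int.gcd_dvd_right _ _)
      have hrD : (r : ℤ) ∣ D := hrg.trans hgD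
      refine h r hr (by exact_mod_cast hrD) ⟨hrg.trans ⟨m1, hm1⟩, ?_⟩
      have h2 := dvd_sub hrn (hrD.trans hn)
      rwa [sub_sub_cancel] at h2
    · rw [Int.isCoprime_iff_gcd_eq_one, Int.gcd_eq_natAbs, Int.natAbs_natCast]
      refine (Nat.Prime.coprime_iff_not_dvd hpp).2 fun h1 => ?_
      have h2 := Nat.le_of_dvd (Int.natAbs_pos.2 hn0) h1
      omega
  · refine ⟨k, ?_⟩
    rw [hm1]
    have : (D : ℤ) = g * D1 := by exact_mod_cast hD1
    rw [this]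
    linear_combination (g : ℤ) * hk

section

variable {F : Type} [Field F] [NumberField F] {q : ℕ} {s : 𝓞 F} {σ : F →+* ℂ}
  {χ : DirichletCharacter ℂ q} {cj : 𝓞 F ≃+* 𝓞 F} {D : ℕ} {b : Ideal (𝓞 F)}

omit [NumberField F] in
theorem coe_int (n : ℤ) : σ ((n : 𝓞 F) : F) = n := by
  rw [show ((n : 𝓞 F) : F) = (n : F) from map_intCast (algebraMap (𝓞 F) F) n, map_intCast]

omit [NumberField F] in
theorem coe_nat (n : ℕ) : σ ((n : 𝓞 F) : F) = n := by
  have := coe_int (σ := σ) (n : ℤ)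
  exact_mod_cast this

theorem exists_basis (hB : StBase) (hBas : StBas) (hD : Dat q s σ χ cj) (hD0 : D ≠ 0)
    (hb : b ∈ idp (F := F) D) : ∃ x y : 𝓞 F, OBasis σ b x y ∧ (D : 𝓞 F) ∣ x - 1 := by
  obtain ⟨x0, y0, h0⟩ := (hB q F _ _ s σ χ cj hD).1 b hb.1
  obtain ⟨c, hc, j, hj, hcj⟩ := Ideal.isCoprime_iff_exists.1 hb.2
  obtain ⟨m0, n0, hmn⟩ := (h0.mem c).1 hc
  obtain ⟨t, ht⟩ := Ideal.mem_span_singleton'.1 hj
  have hr : ∀ r : ℕ, r.Prime → r ∣ D → ¬ ((r : ℤ) ∣ m0 ∧ (r : ℤ) ∣ n0) := by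
    rintro r hr ⟨D', hD'⟩ ⟨⟨m', hm'⟩, ⟨n', hn'⟩⟩
    have h1 : (r : 𝓞 F) * (m' * x0 + n' * y0 + D' * t) = 1 := by
      rw [← hcj, hmn, ← ht, hm', hn', hD']
      push_cast
      ring
    have hu : IsUnit (r : 𝓞 F) := IsUnit.of_mul_eq_one _ h1
    rcases (hBas q F _ _ s σ χ cj hD).2.2.2.2.2.2.2.1 _ hu with h2 | h2
    · exact hr.one_lt.ne' (by exact_mod_cast h2)
    · have h3 : ((r + 1 : ℕ) : 𝓞 F) = 0 := by
        push_cast
        rw [h2]
        ring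
      exact absurd (Nat.cast_eq_zero.1 h3) (by omega)
  obtain ⟨m, n, hcop, hm, hn⟩ := lift_coprime m0 n0 D hD0 hr
  obtain ⟨a, b', hab⟩ := hcop
  refine ⟨m * x0 + n * y0, -b' * x0 + a * y0, ⟨?_, ?_⟩, ?_⟩
  · intro z
    rw [h0.mem z]
    have hab' : (a : 𝓞 F) * m + b' * n = 1 := by exact_mod_cast congrArg (Int.cast : ℤ → 𝓞 F) hab
    constructor
    · rintro ⟨M, N, rfl⟩
      refine ⟨a * M + b' * N, m * N - n * M, ?_⟩
      push_cast
      linear_combination (-(M * x0 + N * y0)) * hab'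
    · rintro ⟨M, N, rfl⟩
      refine ⟨M * m - N * b', M * n + N * a, ?_⟩
      push_cast
      ring
  · have h1 := h0.pos
    have e1 : σ ((m * x0 + n * y0 : 𝓞 F) : F) = m * σ x0 + n * σ y0 := by
      push_cast
      rw [map_add, map_mul, map_mul, coe_int, coe_int]
    have e2 : σ ((-b' * x0 + a * y0 : 𝓞 F) : F) = -b' * σ x0 + a * σ y0 := by
      push_cast
      rw [map_add, map_mul, map_mul, map_neg, coe_int, coe_int]
    rw [e1, e2]
    have h2 : (((m : ℂ) * σ x0 + n * σ y0) * conj (-b' * σ x0 + a * σ y0)).im =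
        (a * m + b' * n : ℝ) * (σ x0 * conj (σ y0)).im := by
      simp only [map_add, map_mul, map_neg, map_intCast, Complex.mul_im, Complex.add_im,
        Complex.add_re, Complex.mul_re, Complex.intCast_re, Complex.intCast_im, Complex.conj_re,
        Complex.conj_im, Complex.neg_re, Complex.neg_im]
      ring
    rw [h2]
    have h3 : (a * m + b' * n : ℝ) = 1 := by exact_mod_cast congrArg (Int.cast : ℤ → ℝ) hab
    rw [h3, one_mul]
    exact h1
  · obtain ⟨k, hk⟩ := hm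
    obtain ⟨l, hl⟩ := hn
    have hk' : (m : 𝓞 F) - m0 = D * k := by exact_mod_cast congrArg (Int.cast : ℤ → 𝓞 F) hk
    have hl' : (n : 𝓞 F) - n0 = D * l := by exact_mod_cast congrArg (Int.cast : ℤ → 𝓞 F) hl
    refine ⟨k * x0 + l * y0 - t, ?_⟩
    linear_combination x0 * hk' + y0 * hl' + hcj - hmn + ht

omit [NumberField F] in
theorem mem_of_mul {w : 𝓞 F} (hb : b ∈ idp (F := F) D) (h : (D : 𝓞 F) * w ∈ b) : w ∈ b := by
  obtain ⟨c, hc, j, hj, hcj⟩ := Ideal.isCoprime_iff_exists.1 hb.2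
  obtain ⟨t, ht⟩ := Ideal.mem_span_singleton'.1 hj
  have e : w = w * c + t * ((D : 𝓞 F) * w) := by
    linear_combination (-w) * hcj - w * ht
  rw [e]
  exact b.add_mem (b.mul_mem_left _ hc) (b.mul_mem_left _ h)

theorem mem_latD (hB : StBase) (hD : Dat q s σ χ cj) (hb : b ∈ idp (F := F) D) {x y : 𝓞 F}
    (h : OBasis σ b x y) (hx : (D : 𝓞 F) ∣ x - 1) (z : 𝓞 F) :
    z ∈ latD D b ↔ ∃ m n : ℤ, z = (m : 𝓞 F) * x + (n : 𝓞 F) * ((D : 𝓞 F) * y) := by
  obtain ⟨t, ht⟩ := hx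
  constructor
  · rintro ⟨hz, c', u, hu⟩
    obtain ⟨m, k, hmk⟩ := (h.mem z).1 hz
    have h1 : (k : 𝓞 F) * y - ((c' - m : ℤ) : 𝓞 F) * x = D * (u - m * t - ((c' - m : ℤ) : 𝓞 F) * t) := by
      push_cast
      linear_combination hu - hmk - (m + (c' - m)) * ht
    have h2 : (D : 𝓞 F) * (u - m * t - ((c' - m : ℤ) : 𝓞 F) * t) ∈ b := by
      rw [← h1]
      exact b.sub_mem (b.mul_mem_left _ (mem2 h)) (b.mul_mem_left _ (mem1 h))
    obtain ⟨m', n', hmn⟩ := (h.mem _).1 (mem_of_mul hb h2)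
    have h3 := (hB q F _ _ s σ χ cj hD).2.2.2.1 b x y h (-(c' - m) - D * m') (k - D * n') (by
      rw [hmn] at h1
      push_cast at h1 ⊢
      linear_combination h1)
    refine ⟨m, n', ?_⟩
    have h4 : k = D * n' := by linarith [h3.2]
    rw [hmk, h4]
    push_cast
    ring
  · rintro ⟨m, n, rfl⟩
    refine ⟨b.add_mem (b.mul_mem_left _ (mem1 h)) (b.mul_mem_left _ (b.mul_mem_left _ (mem2 h))),
      m, m * t + n * y, ?_⟩
    linear_combination (m : 𝓞 F) * ht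

/-- The parametrisation of the lattice. -/
noncomputable def parT (hB : StBase) (hD : Dat q s σ χ cj) (hD0 : D ≠ 0)
    (hb : b ∈ idp (F := F) D) {x y : 𝓞 F}
    (h : OBasis σ b x y) (hx : (D : 𝓞 F) ∣ x - 1) : ℤ × ℤ ≃ latD D b :=
  Equiv.ofBijective (fun p : ℤ × ℤ => (⟨(p.1 : 𝓞 F) * x + (p.2 : 𝓞 F) * ((D : 𝓞 F) * y),
    (mem_latD hB hD hb h hx _).2 ⟨p.1, p.2, rfl⟩⟩ : latD D b)) (by
    constructor
    · intro p p' e
      have e1 : (p.1 : 𝓞 F) * x + (p.2 : 𝓞 F) * ((D : 𝓞 F) * y) =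
          (p'.1 : 𝓞 F) * x + (p'.2 : 𝓞 F) * ((D : 𝓞 F) * y) := congrArg Subtype.val e
      have e2 := (hB q F _ _ s σ χ cj hD).2.2.2.1 b x y h (p.1 - p'.1) (D * (p.2 - p'.2)) (by
        push_cast
        linear_combination e1)
      have e3 : p.2 - p'.2 = 0 := by
        rcases mul_eq_zero.1 e2.2 with h1 | h1
        · exact absurd (by exact_mod_cast h1) hD0
        · exact h1
      exact Prod.ext (by omega) (by omega)
    · rintro ⟨z, hz⟩
      obtain ⟨m, n, e⟩ := (mem_latD hB hD hb h hx z).1 hz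
      exact ⟨(m, n), Subtype.ext e.symm⟩)

theorem parT_val (hB : StBase) (hD : Dat q s σ χ cj) (hD0 : D ≠ 0)
    (hb : b ∈ idp (F := F) D) {x y : 𝓞 F}
    (h : OBasis σ b x y) (hx : (D : 𝓞 F) ∣ x - 1) (p : ℤ × ℤ) :
    σ ((parT hB hD hD0 hb h hx p : latD D b) : 𝓞 F) = (p.1 : ℂ) * σ x + p.2 * (D * σ y) := by
  show σ (((p.1 : 𝓞 F) * x + (p.2 : 𝓞 F) * ((D : 𝓞 F) * y) : 𝓞 F) : F) = _
  push_cast
  rw [map_add, map_mul, map_mul, map_mul, coe_int, coe_int, map_natCast]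

theorem frmT {A B C : ℤ} {X Y : ℂ} {N : ℝ} (h : Frm q A B C X Y N) :
    Frm (q * D ^ 2) A (D * B) (D ^ 2 * C) X (D * Y) N where
  pos := h.pos
  im := by
    have h1 := h.im
    have h2 : Real.sqrt ((q * D ^ 2 : ℕ) : ℝ) = Real.sqrt q * D := by
      push_cast
      rw [Real.sqrt_mul (Nat.cast_nonneg q), Real.sqrt_sq (Nat.cast_nonneg D)]
    rw [h2]
    simp only [Complex.mul_im, Complex.conj_re, Complex.conj_im, map_mul, Complex.mul_re,
      Complex.natCast_re, Complex.natCast_im, map_natCast] at *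
    linear_combination (D : ℝ) * h1
  re := by
    have h1 := h.re
    simp only [Complex.mul_re, Complex.conj_re, Complex.conj_im, map_mul, Complex.mul_im,
      Complex.natCast_re, Complex.natCast_im, map_natCast] at *
    push_cast
    linear_combination (D : ℝ) * h1
  XX := h.XX
  YY := by
    rw [Complex.normSq_mul, h.YY, Complex.normSq_natCast]
    push_cast
    ring

end

/-! ### the transformation law -/

theorem jac_congr {q : ℕ} {m n : ℤ} (h : (q : ℤ) ∣ m - n) : jacobiSym m q = jacobiSym n q := by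
  exact jacobiSym.mod_left' (Int.emod_eq_emod_iff_emod_sub_eq_zero.2 (Int.emod_eq_zero_of_dvd h))

theorem law_genT {q D : ℕ} {A B C : ℤ} {X Y : ℂ} {N : ℝ} (h : Frm (q * D ^ 2) A B C X Y N)
    (hq4 : q % 4 = 3) (hDo : Odd D) (hS : Sm A B C X Y) (hP : StPoisK)
    {k : ℕ} (hk : Even k) (g : SL(2, ℤ)) (hdvd : (q * D ^ 2 : ℤ) ∣ g 1 0)
    {u : ℂ} (hu : 0 < u.im) :
    T1 A B C X Y k (((g 0 0 : ℂ) * u + g 0 1) / ((g 1 0 : ℂ) * u + g 1 1)) =
      (jacobiSym (g 1 1) q : ℂ) * ((g 1 0 : ℂ) * u + g 1 1) ^ (k + 1) * T1 A B C X Y k u := by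
  have hq0 : q ≠ 0 := by omega
  have hDp : D ≠ 0 := by
    rintro rfl
    exact absurd hDo (by decide)
  have hE0 : q * D ^ 2 ≠ 0 := mul_ne_zero hq0 (pow_ne_zero 2 hDp)
  have hE4 : (q * D ^ 2) % 4 = 3 := by
    obtain ⟨e, rfl⟩ := hDo
    obtain ⟨f, hf⟩ : ∃ f, q = 4 * f + 3 := ⟨q / 4, by omega⟩
    rw [hf]
    have : (4 * f + 3) * (2 * e + 1) ^ 2 = 4 * ((4 * f + 3) * (e ^ 2 + e) + f) + 3 := by ring
    omega
  have hdet : g 0 0 * g 1 1 - g 0 1 * g 1 0 = 1 := by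
    have h1 := g.det_coe
    rw [Matrix.det_fin_two] at h1
    exact h1
  by_cases hc : g 1 0 = 0
  · rw [hc, mul_zero, sub_zero] at hdet
    rcases Int.eq_one_or_neg_one_of_mul_eq_one' hdet with ⟨h1, h2⟩ | ⟨h1, h2⟩
    · have h3 : ((g 0 0 : ℂ) * u + g 0 1) / ((g 1 0 : ℂ) * u + g 1 1) = u + (g 0 1 : ℤ) := by
        rw [h1, h2, hc]
        push_cast
        ring
      rw [h3, T1_add_int, h2, hc, jacobiSym.one_left]
      push_cast
      ring
    · have h3 : ((g 0 0 : ℂ) * u + g 0 1) / ((g 1 0 : ℂ) * u + g 1 1) = u + (-g 0 1 : ℤ) := by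
        rw [h1, h2, hc]
        push_cast
        ring
      have h4 : jacobiSym (-1) q = -1 := by
        rw [jacobiSym.at_neg_one (by
          rw [Nat.odd_iff]
          omega), ZMod.χ₄_nat_three_mod_four hq4]
      rw [h3, T1_add_int, h2, h4, hc]
      have h5 : (((0 : ℤ) : ℂ) * u + ((-1 : ℤ) : ℂ)) ^ (k + 1) = -1 := by
        push_cast
        rw [zero_mul, zero_add, Odd.neg_one_pow hk.add_one]
      rw [h5]
      push_cast
      ring
  · have hdvd' : ((q * D ^ 2 : ℕ) : ℤ) ∣ g 1 0 := by exact_mod_cast hdvd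
    obtain ⟨c, hcD⟩ := hdvd'
    have hcop : IsCoprime (g 1 1) ((g 1 0).natAbs : ℤ) := by
      have h1 : IsCoprime (g 1 1) (g 1 0) := ⟨g 0 0, -g 0 1, by linarith⟩
      rw [Int.natCast_natAbs]
      rcases abs_choice (g 1 0) with h2 | h2
      · rw [h2]
        exact h1
      · rw [h2]
        exact h1.neg_right
    obtain ⟨p, hpgt, hpp, hpmod⟩ := Nat.forall_exists_prime_gt_and_zmodEq
      (A.natAbs + q * D ^ 2 + D + 2) (q := (g 1 0).natAbs) (a := g 1 1) (Int.natAbs_ne_zero.2 hc) hcop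
    have : Fact p.Prime := ⟨hpp⟩
    have hp2 : p ≠ 2 := by omega
    have hA0 : A ≠ 0 := by
      rintro rfl
      have h1 := h.disc
      have h2 : B ^ 2 = -((q * D ^ 2 : ℕ) : ℤ) := by linarith
      have h3 : (0 : ℤ) < (q * D ^ 2 : ℕ) := by exact_mod_cast Nat.pos_of_ne_zero hE0
      nlinarith [sq_nonneg B]
    have hpA : ¬ (p : ℤ) ∣ A := by
      intro hdv
      have h1 := Int.natAbs_dvd_natAbs.2 hdv
      rw [Int.natAbs_natCast] at h1
      have h2 := Nat.le_of_dvd (Int.natAbs_pos.2 hA0) h1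
      omega
    have hpD : ¬ (p : ℤ) ∣ ((q * D ^ 2 : ℕ) : ℤ) := by
      intro hdv
      have h1 : p ∣ q * D ^ 2 := by exact_mod_cast hdv
      have h2 := Nat.le_of_dvd (Nat.pos_of_ne_zero hE0) h1
      omega
    have hpDD : ¬ p ∣ D := by
      intro h1
      have h2 := Nat.le_of_dvd (Nat.pos_of_ne_zero hDp) h1
      omega
    obtain ⟨n, hn⟩ : ∃ n : ℤ, (p : ℤ) = g 1 1 + g 1 0 * n := by
      have h1 : ((g 1 0).natAbs : ℤ) ∣ (p : ℤ) - g 1 1 := hpmod.symm.dvd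
      rw [Int.natAbs_dvd] at h1
      obtain ⟨n, hn⟩ := h1
      exact ⟨n, by linarith⟩
    have hdet2 : g 0 0 * p - (g 0 0 * n + g 0 1) * ((q * D ^ 2 : ℕ) * c) = 1 := by
      rw [← hcD, hn]
      linear_combination hdet
    have hu' : 0 < (u + (-n : ℤ)).im := by
      rw [Complex.add_im, Complex.intCast_im, add_zero]
      exact hu
    have key := law_prime h hE0 hS hP hk hp2 hpA hpD hdet2 hu'
    have e1 : ((g 0 0 : ℤ) : ℂ) * (u + (-n : ℤ)) + ((g 0 0 * n + g 0 1 : ℤ) : ℂ) =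
        (g 0 0 : ℂ) * u + g 0 1 := by
      push_cast
      ring
    have e2 : (((q * D ^ 2 : ℕ) * c : ℤ) : ℂ) * (u + (-n : ℤ)) + (p : ℂ) =
        (g 1 0 : ℂ) * u + g 1 1 := by
      have e3 : (p : ℂ) = (g 1 1 : ℂ) + g 1 0 * n := by exact_mod_cast congrArg (Int.cast : ℤ → ℂ) hn
      rw [← hcD, e3]
      push_cast
      ring
    rw [e1, e2, T1_add_int, recip hE4 hp2] at key
    have e4 : jacobiSym p (q * D ^ 2) = jacobiSym (g 1 1) q := by
      have : NeZero q := ⟨hq0⟩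
      have : NeZero (D ^ 2) := ⟨pow_ne_zero 2 hDp⟩
      rw [jacobiSym.mul_right, jacobiSym.pow_right]
      have h1 : jacobiSym (p : ℤ) D ^ 2 = 1 := by
        apply jacobiSym.sq_one
        rw [Int.gcd_natCast_natCast]
        exact (Nat.Prime.coprime_iff_not_dvd hpp).2 hpDD
      rw [h1, mul_one]
      apply jac_congr
      rw [hn, hcD]
      refine ⟨D ^ 2 * c * n, ?_⟩
      push_cast
      ring
    rw [key, e4]

section

variable {F : Type} [Field F] [NumberField F] {q : ℕ} {s : 𝓞 F} {σ : F →+* ℂ}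
  {χ : DirichletCharacter ℂ q} {cj : 𝓞 F ≃+* 𝓞 F} {D : ℕ} {b b' : Ideal (𝓞 F)}

theorem move {u v : 𝓞 F} (hu : Rat D u) (hv : Rat D v)
    (E : Ideal.span {v} * b = Ideal.span {u} * b') {x : 𝓞 F} (hx : x ∈ latD D b) :
    ∃ x' ∈ latD D b', u * x' = v * x := by
  obtain ⟨hu0, d, ⟨α, β, hαβ⟩, t, ht⟩ := hu
  obtain ⟨hv0, e, -, r, hr⟩ := hv
  obtain ⟨hxb, c, y, hy⟩ := hx
  have h1 : v * x ∈ Ideal.span {u} * b' := by
    rw [← E]
    exact Ideal.mul_mem_mul (Ideal.mem_span_singleton_self v) hxb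
  obtain ⟨x', hx', hux⟩ := Ideal.mem_span_singleton_mul.1 h1
  refine ⟨x', ⟨hx', α * e * c, β * x' + α * (r * x + e * y) - α * t * x', ?_⟩, hux⟩
  have h2 : (α : 𝓞 F) * d + β * D = 1 := by exact_mod_cast congrArg (Int.cast : ℤ → 𝓞 F) hαβ
  push_cast
  linear_combination (-x') * h2 + (α : 𝓞 F) * hux + (α : 𝓞 F) * x * hr + (α : 𝓞 F) * e * hy -
    (α : 𝓞 F) * x' * ht

theorem inv_cl (hBas : StBas) (h1 : StGch) (h2 : StRg) (hD : Dat q s σ χ cj) (hT : TwA q D)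
    (hb : b ∈ idp (F := F) D) (hb' : b' ∈ idp (F := F) D) (hcl : cl D b = cl D b') :
    ∃ e : latD D b ≃ latD D b', ∀ x, Qa σ b' (e x : 𝓞 F) = Qa σ b (x : 𝓞 F) := by
  have hD0 : D ≠ 0 := hT.sqf.ne_zero
  obtain ⟨w, hw, -, E⟩ := ((h1 q F _ _ s σ χ cj D hD hT).2.1 b hb b' hb' hcl).2.2
  have hN' : (Ideal.absNorm b').Coprime D := (((h2 F inferInstance inferInstance D hD0).2.2 b').1 hb').2
  have hN0 : Ideal.absNorm b ≠ 0 := fun h0 => hb.1 (Ideal.absNorm_eq_zero_iff.1 h0)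
  have hN'0 : Ideal.absNorm b' ≠ 0 := fun h0 => hb'.1 (Ideal.absNorm_eq_zero_iff.1 h0)
  have hR : Rat D ((Ideal.absNorm b' : ℕ) : 𝓞 F) := by
    have h3 : Rat D (((Ideal.absNorm b' : ℕ) : ℤ) : 𝓞 F) :=
      rat_int (by exact_mod_cast hN'0) (by exact_mod_cast hN'.isCoprime)
    exact_mod_cast h3
  have hf : ∀ x : latD D b, ∃ x' : latD D b', w * (x' : 𝓞 F) =
      ((Ideal.absNorm b' : ℕ) : 𝓞 F) * x := by
    rintro ⟨x, hx⟩
    obtain ⟨x', hx', h3⟩ := move hw hR E hx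
    exact ⟨⟨x', hx'⟩, h3⟩
  choose f hf using hf
  have hbij : Function.Bijective f := by
    constructor
    · intro x y hxy
      have h3 : ((Ideal.absNorm b' : ℕ) : 𝓞 F) * (x : 𝓞 F) =
          ((Ideal.absNorm b' : ℕ) : 𝓞 F) * y := by
        rw [← hf x, ← hf y, hxy]
      exact Subtype.ext (mul_left_cancel₀ hR.1 h3)
    · rintro ⟨y, hy⟩
      obtain ⟨x, hx, h3⟩ := move hR hw E.symm hy
      refine ⟨⟨x, hx⟩, Subtype.ext ?_⟩
      have h4 := hf ⟨x, hx⟩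
      simp only at h4
      rw [h3] at h4
      exact mul_left_cancel₀ hw.1 h4
  refine ⟨Equiv.ofBijective f hbij, fun x => ?_⟩
  have hns := (hBas q F _ _ s σ χ cj hD).2.2.2.2.2.1
  have e1 : Complex.normSq (σ (w : F)) = Ideal.absNorm b' * Ideal.absNorm b := by
    have h3 := congrArg Ideal.absNorm E
    rw [map_mul, map_mul] at h3
    have h4 := hns w
    have h5 := hns ((Ideal.absNorm b' : ℕ) : 𝓞 F)
    rw [coe_nat, Complex.normSq_natCast] at h5
    have h6 : ((Ideal.absNorm (Ideal.span {((Ideal.absNorm b' : ℕ) : 𝓞 F)}) : ℕ) : ℝ) *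
        Ideal.absNorm b = (Ideal.absNorm (Ideal.span {w}) : ℕ) * Ideal.absNorm b' := by
      exact_mod_cast h3
    rw [← h5, ← h4] at h6
    have h7 : (Ideal.absNorm b' : ℝ) ≠ 0 := by exact_mod_cast hN'0
    apply mul_right_cancel₀ h7
    linear_combination -h6
  have e2 : Complex.normSq (σ (w : F)) * Complex.normSq (σ ((f x : 𝓞 F) : F)) =
      (Ideal.absNorm b' : ℝ) ^ 2 * Complex.normSq (σ ((x : 𝓞 F) : F)) := by
    have h3 := congrArg (fun y : 𝓞 F => Complex.normSq (σ (y : F))) (hf x)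
    rw [show ((w * (f x : 𝓞 F) : 𝓞 F) : F) = (w : F) * ((f x : 𝓞 F) : F) from rfl,
      show ((((Ideal.absNorm b' : ℕ) : 𝓞 F) * (x : 𝓞 F) : 𝓞 F) : F) =
        (((Ideal.absNorm b' : ℕ) : 𝓞 F) : F) * ((x : 𝓞 F) : F) from rfl, map_mul σ, map_mul σ,
      Complex.normSq_mul, Complex.normSq_mul, coe_nat, Complex.normSq_natCast] at h3
    rw [h3]
    ring
  rw [e1] at e2
  show Complex.normSq (σ ((f x : 𝓞 F) : F)) / (Ideal.absNorm b' : ℝ) =
    Complex.normSq (σ ((x : 𝓞 F) : F)) / (Ideal.absNorm b : ℝ)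
  have h7 : (Ideal.absNorm b' : ℝ) ≠ 0 := by exact_mod_cast hN'0
  have h8 : (Ideal.absNorm b : ℝ) ≠ 0 := by exact_mod_cast hN0
  rw [div_eq_div_iff h7 h8]
  apply mul_left_cancel₀ h7
  linear_combination e2

end

end ThTAux

open ThGX ThGDX ThTAux in
theorem stThT (h1 : StGch) (h2 : StRg) : StThT := by
  intro q F _ _ s σ χ cj D n b hD hT hb
  have hBas : StBas := stBas
  have hB : StBase := stBase hBas
  have hTh : StThB := stThB hBas hB
  have hP : StPoisK := stPoisK stPoisson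
  have hD0 : D ≠ 0 := hT.sqf.ne_zero
  have hDo : Odd D := by
    by_contra h
    have h3 : 2 ∣ D := (Nat.not_odd_iff_even.1 h).two_dvd
    have h4 := hT.mod4 2 Nat.prime_two h3
    omega
  have hQ : ∀ x : latD D b, 0 ≤ Qa σ b (x : 𝓞 F) := fun x =>
    div_nonneg (Complex.normSq_nonneg _) (Nat.cast_nonneg _)
  have hS : ∀ y : ℝ, 0 < y → Summable fun x : latD D b => Real.exp (-Qa σ b (x : 𝓞 F) * y) := by
    intro y hy
    have h := (hTh q F _ _ s σ χ cj b 0 n hD hb.1).2.1 y hy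
    have hi : Function.Injective fun x : latD D b => (⟨(x : 𝓞 F), x.2.1⟩ : b) := by
      intro x x' hx
      have hx' : (x : 𝓞 F) = x' := congrArg (fun z : b => (z : 𝓞 F)) hx
      exact Subtype.ext hx'
    refine (h.comp_injective hi).congr fun x => ?_
    simp only [Function.comp_apply]
    rw [pow_zero, one_mul, neg_mul, mul_comm y]
  refine ⟨fun u hu => ?_, fun g z hz hg => ?_, fun b' hb' hcl u => ?_⟩
  · exact (RaiseAux.single_summable (fun x : latD D b => Qa σ b (x : 𝓞 F)) hQ hS u hu n).norm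
  · have hdet : (g 0 0 : ℝ) * (g 1 1 : ℝ) - (g 0 1 : ℝ) * (g 1 0 : ℝ) = 1 := by
      have := g.det_coe
      rw [Matrix.det_fin_two] at this
      exact_mod_cast this
    obtain ⟨x, y, hob, hx⟩ := ThTAux.exists_basis hB hBas hD hD0 hb
    obtain ⟨A, B, C, hF⟩ := exists_frm hB hTh hD hb.1 hob
    have hF' := frmT (D := D) hF
    have hval := parT_val hB hD hD0 hb hob hx
    have hQa : ∀ p, Qa σ b ((parT hB hD hD0 hb hob hx p : latD D b) : 𝓞 F) =
        qf A (D * B) (D ^ 2 * C) p := by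
      intro p
      unfold Qa
      rw [hval, hF'.normSq, mul_div_cancel_right₀ _ hF'.pos.ne']
    have hSm : Sm A (D * B) (D ^ 2 * C) (σ x) (D * σ y) := by
      intro k t ht
      have h3 := (hTh q F _ _ s σ χ cj b k 0 hD hb.1).2.1 t ht
      have hi : Function.Injective fun p : ℤ × ℤ =>
          (⟨((parT hB hD hD0 hb hob hx p : latD D b) : 𝓞 F),
            (parT hB hD hD0 hb hob hx p).2.1⟩ : b) := by
        intro p p' hp
        have hp' : ((parT hB hD hD0 hb hob hx p : latD D b) : 𝓞 F) =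
            (parT hB hD hD0 hb hob hx p' : latD D b) := congrArg (fun z : b => (z : 𝓞 F)) hp
        exact (parT hB hD hD0 hb hob hx).injective (Subtype.ext hp')
      refine Summable.of_nonneg_of_le (fun p => by positivity) (fun p => ?_)
        (h3.comp_injective hi)
      simp only [Function.comp_apply]
      rw [hval, hQa]
      gcongr
      linarith [norm_nonneg ((p.1 : ℂ) * σ x + p.2 * (D * σ y))]
    have hth : ∀ v : ℂ, ∑' i : latD D b, ee (Qa σ b (i : 𝓞 F) * v) =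
        T1 A (D * B) (D ^ 2 * C) (σ x) (D * σ y) 0 v := by
      intro v
      unfold T1
      rw [← (parT hB hD hD0 hb hob hx).tsum_eq]
      refine tsum_congr fun p => ?_
      rw [hQa, pow_zero, one_mul]
      congr 3
    have key := stRaise (latD D b) n (fun x : latD D b => Qa σ b (x : 𝓞 F))
      (fun x : latD D b => Qa σ b (x : 𝓞 F))
      (g 0 0 : ℝ) (g 0 1 : ℝ) (g 1 0 : ℝ) (g 1 1 : ℝ) (jacobiSym (g 1 1) q : ℂ) hQ hQ hS hS hdet
      (fun v hv => by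
        have h := law_genT hF' (by have := hD.mod; omega) hDo hSm hP (k := 0) (by simp) g hg hv
        rw [zero_add, pow_one, ← hth, ← hth] at h
        simpa using h) z hz
    simpa [thD] using key
  · obtain ⟨e, he⟩ := inv_cl hBas h1 h2 hD hT hb hb' hcl
    unfold thD
    congr 1
    rw [← e.tsum_eq]
    refine tsum_congr fun x => ?_
    rw [he]

end Pool.Agent.Lib.MP_7c08ba_nt.CN.TW
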