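import Pool.Agent.Lib.MP_7c08ba_nt.CN.T.StH
import Pool.Agent.Lib.MP_7c08ba_nt.RZ.Reps
import Pool.Agent.Lib.MP_7c08ba_nt.RZ.Bas
import Pool.Agent.Lib.MP_7c08ba_nt.RZ.Base

set_option autoImplicit false

/-!
Project TW, module Tor: the principal genus has odd order.
-/

namespace Pool.Agent.Lib.MP_7c08ba_nt.CN.TW

open NumberField IsDedekindDomain Polynomial Pool.Agent.Lib.MP_7c08ba_nt.RZ
open scoped nonZeroDivisors ComplexConjugate

namespace TorAux

variable {F : Type} [Field F] [NumberField F]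

theorem int_inj {m n : ℤ} (h : (m : 𝓞 F) = n) : m = n := Int.cast_injective h

/-- Linear independence of `1` and `s`. -/
theorem indep {q : ℕ} {s : 𝓞 F} (hq : 0 < q) (hs : s ^ 2 = -(q : 𝓞 F)) {m n : ℤ}
    (h : (m : 𝓞 F) + n * s = 0) : m = 0 ∧ n = 0 := by
  have h1 : ((m ^ 2 + q * n ^ 2 : ℤ) : 𝓞 F) = (0 : ℤ) := by
    push_cast
    linear_combination (m - n * s : 𝓞 F) * h + (n : 𝓞 F) ^ 2 * hs
  have h2 : m ^ 2 + (q : ℤ) * n ^ 2 = 0 := int_inj h1
  have hq' : (0 : ℤ) < q := by exact_mod_cast hq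
  have h3 : n ^ 2 = 0 := by nlinarith [sq_nonneg m, sq_nonneg n]
  have h4 : n = 0 := by simpa using h3
  subst h4
  simpa using h2

/-- Divisibility by an odd integer in terms of the coordinates. -/
theorem dvd_coord {q : ℕ} {s : 𝓞 F} (hq : 0 < q) (hs : s ^ 2 = -(q : 𝓞 F))
    (hb : ∀ x : 𝓞 F, ∃ a b : ℤ, 2 * x = a + b * s ∧ (2 : ℤ) ∣ a - b) {r : ℤ} (hr : IsCoprime r 2)
    {m n : ℤ} (h : (r : 𝓞 F) ∣ m + n * s) : r ∣ m ∧ r ∣ n := by
  obtain ⟨z, hz⟩ := h
  obtain ⟨a, b, hab, -⟩ := hb z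
  have h1 : ((2 * m - r * a : ℤ) : 𝓞 F) + ((2 * n - r * b : ℤ) : 𝓞 F) * s = 0 := by
    push_cast
    linear_combination 2 * hz + (r : 𝓞 F) * hab
  obtain ⟨h2, h3⟩ := indep hq hs h1
  exact ⟨hr.dvd_of_dvd_mul_left ⟨a, by linarith⟩, hr.dvd_of_dvd_mul_left ⟨b, by linarith⟩⟩

theorem dvd_of_primes {D : ℕ} (hD : Squarefree D) {b : ℤ}
    (h : ∀ r : ℕ, r.Prime → r ∣ D → (r : ℤ) ∣ b) : (D : ℤ) ∣ b := by
  rw [Int.natCast_dvd]
  conv_lhs => rw [← Nat.prod_primeFactors_of_squarefree hD]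
  refine Finset.prod_primes_dvd _ (fun a ha => (Nat.prime_of_mem_primeFactors ha).prime)
    fun a ha => ?_
  exact Int.natCast_dvd.1
    (h a (Nat.prime_of_mem_primeFactors ha) (Nat.dvd_of_mem_primeFactors ha))

/-- The main step: a generator whose square is rational modulo `D` is rational. -/
theorem rat_of_sq {q D : ℕ} {s : 𝓞 F} (hq : 0 < q) (hqo : Odd q) (hs : s ^ 2 = -(q : 𝓞 F))
    (hb : ∀ x : 𝓞 F, ∃ a b : ℤ, 2 * x = a + b * s ∧ (2 : ℤ) ∣ a - b)
    (cj : 𝓞 F ≃+* 𝓞 F) (hcs : cj s = -s)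
    (hN : ∀ x, x * cj x = (Ideal.absNorm (Ideal.span {x}) : 𝓞 F)) (hT : TwA q D)
    {t : 𝓞 F} (ht0 : t ≠ 0) (hcop : (Ideal.absNorm (Ideal.span {t})).Coprime D)
    (hgen : ∀ r : ℕ, r.Prime → r ∣ D → jacobiSym (Ideal.absNorm (Ideal.span {t})) r = 1)
    {c d : ℤ} (hc : IsCoprime c (D : ℤ)) (h : (D : 𝓞 F) ∣ c * t ^ 2 - d) : Rat D t := by
  obtain ⟨a, b, hab, -⟩ := hb t
  set N : ℕ := Ideal.absNorm (Ideal.span {t}) with hNdef
  -- the norm
  have hcjt : 2 * cj t = a - b * s := by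
    have := congrArg cj hab
    rw [map_mul, map_ofNat, map_add, map_mul, map_intCast, map_intCast, hcs] at this
    rw [this]
    ring
  have h4N : (4 * N : ℤ) = a ^ 2 + q * b ^ 2 := by
    have h1 : ((4 * N : ℤ) : 𝓞 F) = ((a ^ 2 + q * b ^ 2 : ℤ) : 𝓞 F) := by
      push_cast
      rw [hNdef, ← hN t]
      linear_combination (2 * cj t) * hab + (a + b * s : 𝓞 F) * hcjt - (b : 𝓞 F) ^ 2 * hs
    exact int_inj h1
  -- each prime divides b
  have hrb : ∀ r : ℕ, r.Prime → r ∣ D → (r : ℤ) ∣ b := by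
    intro r hr hrD
    have hr4 := hT.mod4 r hr hrD
    have hr2 : IsCoprime (r : ℤ) 2 := by
      have : Odd r := Nat.odd_iff.2 (by omega)
      exact_mod_cast Nat.isCoprime_iff_coprime.2 (Nat.Coprime.symm ((Nat.coprime_two_left).2 this))
    have hrc : IsCoprime (r : ℤ) c := (hc.of_isCoprime_of_dvd_right (by exact_mod_cast hrD)).symm
    have h1 : ((r : ℤ) : 𝓞 F) ∣ ((c * (a ^ 2 - q * b ^ 2) - 4 * d : ℤ) : 𝓞 F) +
        ((2 * (c * (a * b)) : ℤ) : 𝓞 F) * s := by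
      obtain ⟨z, hz⟩ := h
      obtain ⟨e, he⟩ := hrD
      refine ⟨4 * e * z, ?_⟩
      have he' : (D : 𝓞 F) = r * e := by exact_mod_cast congrArg (Nat.cast : ℕ → 𝓞 F) he
      push_cast
      rw [he'] at hz
      linear_combination 4 * hz - (c : 𝓞 F) * (2 * t + (a + b * s)) * hab -
        (c : 𝓞 F) * (b : 𝓞 F) ^ 2 * hs
    obtain ⟨-, h2⟩ := dvd_coord hq hs hb hr2 h1
    have h3 : (r : ℤ) ∣ a * b := hrc.dvd_of_dvd_mul_left (hr2.dvd_of_dvd_mul_left h2)
    rcases (Nat.prime_iff_prime_int.1 hr).dvd_or_dvd h3 with h4 | h4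
    swap
    · exact h4
    exfalso
    have h5 := hgen r hr hrD
    have hro : Odd r := Nat.odd_iff.2 (by omega)
    have h6 : jacobiSym (4 * N : ℤ) r = 1 := by
      rw [jacobiSym.mul_left, jacobiSym.at_four hro, one_mul]
      exact h5
    obtain ⟨a', ha'⟩ := h4
    have h7 : jacobiSym (4 * N : ℤ) r = jacobiSym ((q : ℤ) * (b * b)) r := by
      refine jacobiSym.mod_left' ?_
      rw [h4N, ha']
      have : ((r : ℤ) * a') ^ 2 + q * b ^ 2 = q * (b * b) + r * (r * a' ^ 2) := by ring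
      rw [this, Int.add_mul_emod_self_left]
    rw [h6, jacobiSym.mul_left, jacobiSym.mul_left,
      ← jacobiSym.quadratic_reciprocity_one_mod_four hr4 hqo, hT.inert r hr hrD] at h7
    have h8 := mul_self_nonneg (jacobiSym b r)
    omega
  -- conclusion
  have hDb : (D : ℤ) ∣ b := dvd_of_primes hT.sqf hrb
  have hDo : Odd D := by
    by_contra hD
    have h2 : 2 ∣ D := by
      rw [Nat.not_odd_iff_even] at hD
      exact hD.two_dvd
    have := hT.mod4 2 Nat.prime_two h2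
    omega
  obtain ⟨b', hb'⟩ := hDb
  obtain ⟨k, hk⟩ := hDo
  have ha : IsCoprime a (D : ℤ) := by
    have h1 : IsCoprime (N : ℤ) (D : ℤ) := Nat.isCoprime_iff_coprime.2 hcop
    have h4 : IsCoprime (4 : ℤ) (D : ℤ) := by
      have h2 : IsCoprime (2 : ℤ) (D : ℤ) := ⟨-k, 1, by rw [hk]; push_cast; ring⟩
      have h3 := h2.mul_left h2
      norm_num at h3
      exact h3
    have h5 : IsCoprime (a ^ 2) (D : ℤ) := by
      have h6 := h4.mul_left h1
      rw [h4N, hb'] at h6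
      have h7 : a ^ 2 + (q : ℤ) * ((D : ℤ) * b') ^ 2 = a ^ 2 + D * (q * D * b' ^ 2) := by ring
      rw [h7] at h6
      exact IsCoprime.of_add_mul_left_left h6
    exact (IsCoprime.pow_left_iff (by norm_num)).1 h5
  have hk1 : IsCoprime ((k : ℤ) + 1) (D : ℤ) := ⟨2, -1, by rw [hk]; push_cast; ring⟩
  refine ⟨ht0, (k + 1) * a, hk1.mul_left ha, (k + 1) * (b' : 𝓞 F) * s - t, ?_⟩
  have hk' : (D : 𝓞 F) = 2 * k + 1 := by
    rw [hk]
    push_cast
    ring
  have hb'' : (b : 𝓞 F) = D * b' := by exact_mod_cast congrArg (Int.cast : ℤ → 𝓞 F) hb'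
  push_cast
  rw [hb''] at hab
  have : (D : 𝓞 F) * ((k + 1) * (b' : 𝓞 F) * s - t) = (k + 1) * (D * b' * s) - D * t := by ring
  rw [this]
  linear_combination ((k : 𝓞 F) + 1) * hab + t * hk'

end TorAux

open TorAux

theorem stTor (h1 : StRg) (h2 : StGch) : StTor := by
  intro q F iF iN s σ χ cj D hD hT
  have hD0 : D ≠ 0 := hT.sqf.ne_zero
  have hq0 : 0 < q := hD.prime.pos
  have hqo : Odd q := Nat.odd_iff.2 (by have := hD.mod; omega)
  obtain ⟨hfin, -, hnc⟩ := h1 F iF iN D hD0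
  obtain ⟨g1, g2, g3, g4⟩ := h2 q F iF iN s σ χ cj D hD hT
  obtain ⟨b1, b2, b3, b4, b5, b6, b7, b8, b9, b10, b11⟩ := stBas q F iF iN s σ χ cj hD
  have hodd := (stReps stBas (stBase stBas) q F iF iN s σ χ cj hD).1
  -- products
  have hmul : ∀ A B : RC F D, Gen D A → Gen D B → Gen D (A * B) := by
    rintro A B ⟨I, hI, rfl, hI2⟩ ⟨J, hJ, rfl, hJ2⟩
    refine ⟨I * J, (idp D).mul_mem hI hJ, cl_mul hI hJ, fun r hr hrD => ?_⟩
    rw [map_mul, Nat.cast_mul, jacobiSym.mul_left, hI2 r hr hrD, hJ2 r hr hrD, mul_one]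
  have hone : Gen D (1 : RC F D) := by
    refine ⟨1, (idp D).one_mem, cl_one, fun r hr hrD => ?_⟩
    rw [map_one, Nat.cast_one, jacobiSym.one_left]
  -- inverses
  have hinv : ∀ A : RC F D, Gen D A → ∃ B : RC F D, Gen D B ∧ A * B = 1 := by
    rintro A ⟨I, hI, rfl, hI2⟩
    obtain ⟨k1, k2, k3⟩ := g1 I hI
    refine ⟨cl D (I.map (cj : 𝓞 F →+* 𝓞 F)), ⟨_, k1, rfl, fun r hr hrD => ?_⟩, ?_⟩
    · rw [k2]
      exact hI2 r hr hrD
    · rw [← cl_mul hI k1]
      exact k3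
  -- no element of order 2
  have htor : ∀ A : RC F D, Gen D A → A * A = 1 → A = 1 := by
    rintro A ⟨I, hI, rfl, hI2⟩ hA
    rw [← cl_mul hI hI, ← cl_one, cl_eq_iff ((idp D).mul_mem hI hI) (idp D).one_mem] at hA
    obtain ⟨x, y, hx, hy, hxy⟩ := hA
    have hI0 : I ≠ 0 := hI.1
    have hIm : I ∈ (Ideal (𝓞 F))⁰ := mem_nonZeroDivisors_of_ne_zero hI0
    -- the ordinary class is trivial
    have hcl : ClassGroup.mk0 (⟨I, hIm⟩ : (Ideal (𝓞 F))⁰) = 1 := by
      have h5 : ClassGroup.mk0 (⟨I, hIm⟩ : (Ideal (𝓞 F))⁰) ^ 2 = 1 := by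
        rw [pow_two, ← map_mul, ← map_one (ClassGroup.mk0 (R := 𝓞 F)),
          ClassGroup.mk0_eq_mk0_iff]
        exact ⟨x, y, hx.1, hy.1, hxy⟩
      obtain ⟨k, hk⟩ := hodd
      have h6 : ClassGroup.mk0 (⟨I, hIm⟩ : (Ideal (𝓞 F))⁰) ^ Nat.card (ClassGroup (𝓞 F)) = 1 :=
        pow_card_eq_one'
      rw [hk, pow_succ, pow_mul, h5, one_pow, one_mul] at h6
      exact h6
    rw [ClassGroup.mk0_eq_one_iff] at hcl
    obtain ⟨t, ht⟩ := hcl
    have ht' : I = Ideal.span {t} := ht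
    have ht0 : t ≠ 0 := by
      rintro rfl
      exact hI0 (by rw [ht']; simp)
    rw [ht'] at hI hI2 hxy ⊢
    have hcop := ((hnc _).1 hI).2
    obtain ⟨hx0, c, hc, u, hu⟩ := hx
    obtain ⟨hy0, d, hd, v, hv⟩ := hy
    -- comparison of the generators
    have hsp : Ideal.span {x * t ^ 2} = Ideal.span {y} := by
      have : Ideal.span {x} * (Ideal.span {t} * Ideal.span {t}) = Ideal.span {x * t ^ 2} := by
        rw [Ideal.span_singleton_mul_span_singleton, Ideal.span_singleton_mul_span_singleton,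
          ← pow_two]
      rw [← this, hxy, mul_one]
    rw [Ideal.span_singleton_eq_span_singleton] at hsp
    obtain ⟨w, hw⟩ := hsp
    have hrat : Rat D t := by
      have hcs := b3
      rcases b8 w w.isUnit with h1w | h1w
      · rw [h1w, mul_one] at hw
        refine rat_of_sq hq0 hqo hD.sq b1 cj hcs b5 hT ht0 hcop hI2 hc (d := d) ?_
        refine ⟨v - u * t ^ 2, ?_⟩
        linear_combination hw - t ^ 2 * hu + hv
      · rw [h1w] at hw
        refine rat_of_sq hq0 hqo hD.sq b1 cj hcs b5 hT ht0 hcop hI2 hc (d := -d) ?_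
        refine ⟨-v - u * t ^ 2, ?_⟩
        push_cast
        linear_combination -hw - t ^ 2 * hu - hv
    exact (g4 t hrat.1 hrat.2).2
  have hinj : Function.Injective fun A : GC F D => (⟨A.1 * A.1, hmul _ _ A.2 A.2⟩ : GC F D) := by
    rintro ⟨A, hA⟩ ⟨B, hB⟩ hAB
    have hAB' : A * A = B * B := congrArg Subtype.val hAB
    obtain ⟨C, hC, hBC⟩ := hinv B hB
    have h1 : A * C = 1 := by
      refine htor _ (hmul _ _ hA hC) ?_
      calc A * C * (A * C) = A * A * (C * C) := mul_mul_mul_comm _ _ _ _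
        _ = (B * C) * (B * C) := by rw [hAB']; exact mul_mul_mul_comm _ _ _ _
        _ = 1 := by rw [hBC, mul_one]
    refine Subtype.ext ?_
    show A = B
    calc A = A * (B * C) := by rw [hBC, mul_one]
      _ = (A * C) * B := by rw [mul_comm B C, mul_assoc]
      _ = B := by rw [h1, one_mul]
  have hfin' : Finite (GC F D) := inferInstance
  refine ⟨htor, hmul, ?_, ?_⟩
  · intro A hA
    obtain ⟨⟨B, hB⟩, h⟩ := (Finite.injective_iff_surjective.1 hinj) ⟨A, hA⟩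
    exact ⟨B, hB, congrArg Subtype.val h⟩
  · -- the order is odd
    let S : Submonoid (RC F D) :=
      { carrier := {A | Gen D A}
        mul_mem' := fun {A B} hA hB => hmul A B hA hB
        one_mem' := hone }
    have hS : ∀ A : S, IsUnit A := by
      rintro ⟨A, hA⟩
      obtain ⟨B, hB, hAB⟩ := hinv A hA
      exact IsUnit.of_mul_eq_one ⟨B, hB⟩ (Subtype.ext hAB)
    let _ : Group S := groupOfIsUnit hS
    have hfS : Finite S := hfin'
    by_contra hodd2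
    rw [Nat.not_odd_iff_even] at hodd2
    have : Fact (Nat.Prime 2) := ⟨Nat.prime_two⟩
    obtain ⟨x, hx⟩ := exists_prime_orderOf_dvd_card' (G := S) 2 hodd2.two_dvd
    have hx2 : x ^ 2 = 1 := by
      rw [← hx]
      exact pow_orderOf_eq_one x
    have hx1 : x = 1 := by
      refine Subtype.ext (htor x.1 x.2 ?_)
      rw [pow_two] at hx2
      exact congrArg Subtype.val hx2
    rw [hx1, orderOf_one] at hx
    omega

end Pool.Agent.Lib.MP_7c08ba_nt.CN.TW
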