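import Pool.Agent.Lib.MP_7c08ba_nt.CN.T.StP
import Pool.Agent.Lib.MP_7c08ba_nt.CN.NV
import Pool.Agent.Lib.MP_7c08ba_nt.RZ.Bas

set_option autoImplicit false

/-!
Project TW, module Tsum: the sum of the `tC` over the principal genus, and the number of elements
of the principal genus in a given ideal class.
-/

namespace Pool.Agent.Lib.MP_7c08ba_nt.CN.TW

open NumberField IsDedekindDomain Polynomial RZC
open scoped nonZeroDivisors ComplexConjugate

namespace TsumAux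

variable {q : ℕ} {F : Type} [Field F] [NumberField F] {s : 𝓞 F}

theorem exists_dat (σ : F →+* ℂ) (h : FieldC q F (s : F)) :
    ∃ (s' : 𝓞 F) (χ : DirichletCharacter ℂ q) (cj : 𝓞 F ≃+* 𝓞 F), RZ.Dat q s' σ χ cj := by
  by_cases him : 0 < (σ s).im
  · obtain ⟨χ, cj, hD⟩ := NVAux.exists_dat h him
    exact ⟨s, χ, cj, hD⟩
  · have h' := NVAux.fieldC_neg h
    have him' : 0 < (σ ((-s : 𝓞 F) : F)).im := by
      have e : ((-s : 𝓞 F) : F) = -(s : F) := map_neg _ _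
      have hq : 0 < Real.sqrt (q : ℝ) := Real.sqrt_pos.2 (Nat.cast_pos.2 h.1.pos)
      rw [e, map_neg, Complex.neg_im]
      rcases NVAux.im_cases (σ := σ) h with h1 | h1
      · exfalso
        apply him
        rw [h1]
        simpa using hq
      · rw [h1]
        simpa using hq
    obtain ⟨χ, cj, hD⟩ := NVAux.exists_dat h' him'
    exact ⟨-s, χ, cj, hD⟩

/-- the condition depends only on the ring class -/
theorem cond_of {σ : F →+* ℂ} {χ : DirichletCharacter ℂ q} {cj : 𝓞 F ≃+* 𝓞 F}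
    (hD : RZ.Dat q s σ χ cj) {D : ℕ} {a b : 𝓞 F} {c : Ideal (𝓞 F)} (hc : c ≠ ⊥)
    (ha : Ideal.span {a} * c ∈ idp (F := F) D) (hb : Ideal.span {b} * c ∈ idp (F := F) D)
    (h : cl D (Ideal.span {a} * c) = cl D (Ideal.span {b} * c)) {z : 𝓞 F}
    (hk : ∃ k : ℤ, (D : 𝓞 F) ∣ a * z - k) : ∃ k : ℤ, (D : 𝓞 F) ∣ b * z - k := by
  obtain ⟨x, y, hx, hy, e⟩ := (cl_eq_iff ha hb).1 h
  rw [← mul_assoc, ← mul_assoc, Ideal.span_singleton_mul_span_singleton,
    Ideal.span_singleton_mul_span_singleton] at e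
  have e2 := mul_right_cancel₀ hc e
  rw [Ideal.span_singleton_eq_span_singleton] at e2
  obtain ⟨u, hu⟩ := e2
  obtain ⟨_, cx, _, ux, hux⟩ := hx
  obtain ⟨_, cy, ⟨m, n, hmn⟩, uy, huy⟩ := hy
  obtain ⟨k, v, hv⟩ := hk
  have hmn' : (m : 𝓞 F) * cy + n * D = 1 := by exact_mod_cast congrArg (Int.cast : ℤ → 𝓞 F) hmn
  have hunit := (RZ.stBas q F _ _ s σ χ cj hD).2.2.2.2.2.2.2.1 (u : 𝓞 F) u.isUnit
  rcases hunit with h1 | h1
  · rw [h1, mul_one] at hu
    refine ⟨m * cx * k, n * b * z - m * uy * b * z + m * ux * a * z + m * cx * v, ?_⟩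
    push_cast
    linear_combination (-(b * z)) * hmn' - (m * b * z) * huy - (m * z) * hu + (m * a * z) * hux +
      (m * cx) * hv
  · rw [h1, mul_neg, mul_one] at hu
    refine ⟨-(m * cx * k), n * b * z - m * uy * b * z - m * ux * a * z - m * cx * v, ?_⟩
    push_cast
    linear_combination (-(b * z)) * hmn' - (m * b * z) * huy - (m * z) * hu - (m * a * z) * hux -
      (m * cx) * hv

theorem exists_lift {D : ℕ} (hD : D ≠ 0) :
    ∃ L : (𝓞 F ⧸ Ideal.span {(D : 𝓞 F)})ˣ → 𝓞 F,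
      ∀ y, L y ≠ 0 ∧ Ideal.Quotient.mk (Ideal.span {(D : 𝓞 F)}) (L y) = y := by
  have h : ∀ y : (𝓞 F ⧸ Ideal.span {(D : 𝓞 F)})ˣ, ∃ x : 𝓞 F, x ≠ 0 ∧
      Ideal.Quotient.mk (Ideal.span {(D : 𝓞 F)}) x = y := by
    intro y
    obtain ⟨x, hx⟩ := Ideal.Quotient.mk_surjective (y : 𝓞 F ⧸ Ideal.span {(D : 𝓞 F)})
    by_cases h0 : x = 0
    · refine ⟨D, by exact_mod_cast hD, ?_⟩
      rw [← hx, h0, map_zero, Ideal.Quotient.eq_zero_iff_mem]
      exact Ideal.mem_span_singleton_self _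
    · exact ⟨x, h0, hx⟩
  choose L hL using h
  exact ⟨L, hL⟩

theorem totient_prod {D : ℕ} (hD : Squarefree D) :
    (Nat.totient D : ℂ) = ∏ r ∈ D.primeFactors, ((r : ℂ) - 1) := by
  have h1 := Nat.totient_mul_prod_primeFactors D
  rw [Nat.prod_primeFactors_of_squarefree hD, mul_comm] at h1
  have h2 := Nat.eq_of_mul_eq_mul_left (Nat.pos_of_ne_zero hD.ne_zero) h1
  rw [h2, Nat.cast_prod]
  refine Finset.prod_congr rfl fun r hr => ?_
  rw [Nat.cast_sub (Nat.prime_of_mem_primeFactors hr).one_le, Nat.cast_one]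

/-- the same class group element -/
theorem cls_eq {D : ℕ} {a b : 𝓞 F} {c d : (Ideal (𝓞 F))⁰} (ha0 : a ≠ 0) (hb0 : b ≠ 0)
    (ha : Ideal.span {a} * (c : Ideal (𝓞 F)) ∈ idp (F := F) D)
    (hb : Ideal.span {b} * (d : Ideal (𝓞 F)) ∈ idp (F := F) D)
    (h : cl D (Ideal.span {a} * (c : Ideal (𝓞 F))) = cl D (Ideal.span {b} * (d : Ideal (𝓞 F)))) :
    ClassGroup.mk0 c = ClassGroup.mk0 d := by
  obtain ⟨x, y, hx, hy, e⟩ := (cl_eq_iff ha hb).1 h
  rw [← mul_assoc, ← mul_assoc, Ideal.span_singleton_mul_span_singleton,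
    Ideal.span_singleton_mul_span_singleton] at e
  exact ClassGroup.mk0_eq_mk0_iff.2 ⟨x * a, y * b, mul_ne_zero hx.1 ha0,
    mul_ne_zero hy.1 hb0, e⟩

theorem wE_one {D : ℕ} {q : ℕ} (hT : TwA q D) (N : ℤ) :
    ((wE D (fun _ => 1) N : ℤ) : ℂ) = ∏ r ∈ D.primeFactors,
      (if (r : ℤ) ∣ N then ((r : ℂ) + 1) / 2 else if jacobiSym N r = 1 then 1 else 0) := by
  unfold wE
  rw [Int.cast_prod]
  refine Finset.prod_congr rfl fun r hr => ?_
  have hp := Nat.prime_of_mem_primeFactors hr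
  have h4 := hT.mod4 r hp (Nat.dvd_of_mem_primeFactors hr)
  split_ifs with h1 h2
  · have h5 : (r : ℤ) + 1 = 2 * (((r : ℤ) + 1) / 2) := by omega
    have h6 : ((r : ℂ) + 1) = 2 * ((((r : ℤ) + 1) / 2 : ℤ) : ℂ) := by exact_mod_cast h5
    rw [h6]
    ring
  · rw [h2]
    norm_num
  · have h5 : N.gcd r = 1 := by
      rw [← Int.isCoprime_iff_gcd_eq_one, isCoprime_comm]
      exact (Int.prime_iff_natAbs_prime.2 (by simpa using hp)).coprime_iff_not_dvd.2 h1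
    rcases jacobiSym.eq_one_or_neg_one h5 with h6 | h6
    · exact absurd h6 h2
    · rw [h6]
      norm_num

open Classical in
/-- the number of elements of the principal genus over an ideal class which satisfy the
condition -/
theorem card_eq {σ : F →+* ℂ} {χ : DirichletCharacter ℂ q} {cj : 𝓞 F ≃+* 𝓞 F}
    (hD : RZ.Dat q s σ χ cj) {D : ℕ} (hT : TwA q D) (h1 : StFib) (h2 : StCntY) (h4 : StGch)
    (h5 : StRg) {c : ClassGroup (𝓞 F) → (Ideal (𝓞 F))⁰} (hc1 : ∀ C, ClassGroup.mk0 (c C) = C)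
    (hc2 : ∀ C, (c C : Ideal (𝓞 F)) ∈ idp (F := F) D)
    {L : (𝓞 F ⧸ Ideal.span {(D : 𝓞 F)})ˣ → 𝓞 F}
    (hL : ∀ y, L y ≠ 0 ∧ Ideal.Quotient.mk (Ideal.span {(D : 𝓞 F)}) (L y) = y)
    {Y : RC F D → (𝓞 F ⧸ Ideal.span {(D : 𝓞 F)})ˣ} {C : RC F D → ClassGroup (𝓞 F)}
    (hYC : ∀ B, cl D (Ideal.span {L (Y B)} * (c (C B) : Ideal (𝓞 F))) = B)
    (C₀ : ClassGroup (𝓞 F)) (z : 𝓞 F) (hz : z ∈ (c C₀ : Ideal (𝓞 F))) :
    ((Nat.card {B : GC F D // C B.1 = C₀ ∧ ∃ k : ℤ, (D : 𝓞 F) ∣ L (Y B.1) * z - k} : ℕ) : ℂ) =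
      ∏ r ∈ D.primeFactors,
        (if (r : ℤ) ∣ (Ideal.absNorm (Ideal.span {z}) : ℤ) / Ideal.absNorm (c C₀ : Ideal (𝓞 F))
          then ((r : ℂ) + 1) / 2
          else if jacobiSym ((Ideal.absNorm (Ideal.span {z}) : ℤ) /
            Ideal.absNorm (c C₀ : Ideal (𝓞 F))) r = 1 then 1 else 0) := by
  obtain ⟨hfin, hmem, hsum⟩ := h1 q F _ _ s σ χ cj D hD hT c L
    (fun B => if Gen D B ∧ C B = C₀ ∧ ∃ k : ℤ, (D : 𝓞 F) ∣ L (Y B) * z - k then 1 else 0)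
    hc1 hc2 hL
  have hfr : Finite (RC F D) := (h5 F _ _ D hT.sqf.ne_zero).1
  have hC : ∀ y C', C (cl D (Ideal.span {L y} * (c C' : Ideal (𝓞 F)))) = C' := by
    intro y C'
    have e := cls_eq (hL _).1 (hL _).1 (hmem _ _) (hmem _ _)
      (hYC (cl D (Ideal.span {L y} * (c C' : Ideal (𝓞 F)))))
    rwa [hc1, hc1] at e
  have hcond : ∀ y, (∃ k : ℤ, (D : 𝓞 F) ∣
      L (Y (cl D (Ideal.span {L y} * (c C₀ : Ideal (𝓞 F))))) * z - k) ↔
      ∃ k : ℤ, (D : 𝓞 F) ∣ L y * z - k := by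
    intro y
    have e := hYC (cl D (Ideal.span {L y} * (c C₀ : Ideal (𝓞 F))))
    rw [hC] at e
    exact ⟨fun hk => cond_of hD (hc2 C₀).1 (hmem _ _) (hmem _ _) e hk,
      fun hk => cond_of hD (hc2 C₀).1 (hmem _ _) (hmem _ _) e.symm hk⟩
  have hcnt := h2 q F _ _ s σ χ cj D hD hT (c C₀) z L (fun _ t => if t = 1 then 1 else 0)
    (hc2 C₀) hz hL
  have hG := (h4 q F _ _ s σ χ cj D hD hT).2.2.1
  have hleft : ∑ C' : ClassGroup (𝓞 F), ∑ᶠ y : (𝓞 F ⧸ Ideal.span {(D : 𝓞 F)})ˣ,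
      (if Gen D (cl D (Ideal.span {L y} * (c C' : Ideal (𝓞 F)))) ∧
        C (cl D (Ideal.span {L y} * (c C' : Ideal (𝓞 F)))) = C₀ ∧
        ∃ k : ℤ, (D : 𝓞 F) ∣ L (Y (cl D (Ideal.span {L y} * (c C' : Ideal (𝓞 F))))) * z - k
        then (1 : ℂ) else 0) =
      ∑ᶠ y : (𝓞 F ⧸ Ideal.span {(D : 𝓞 F)})ˣ,
        (if ∃ k : ℤ, (D : 𝓞 F) ∣ L y * z - k then ∏ r ∈ D.primeFactors,
          (if jacobiSym (Ideal.absNorm (Ideal.span {L y} * (c C₀ : Ideal (𝓞 F)))) r = 1 then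
            (1 : ℂ) else 0) else 0) := by
    rw [Finset.sum_eq_single C₀]
    · refine finsum_congr fun y => ?_
      rw [hC, Finset.prod_ite_zero, Finset.prod_const_one]
      have h6 := (hG _ (hmem y C₀)).2.1
      by_cases h7 : ∃ k : ℤ, (D : 𝓞 F) ∣ L y * z - k
      · rw [if_pos h7]
        have h8 := (hcond y).2 h7
        refine if_congr ?_ rfl rfl
        rw [h6]
        constructor
        · rintro ⟨h9, -, -⟩ r hr
          exact h9 r (Nat.prime_of_mem_primeFactors hr) (Nat.dvd_of_mem_primeFactors hr)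
        · intro h9
          exact ⟨fun r hr hrD => h9 r (Nat.mem_primeFactors.2 ⟨hr, hrD, hT.sqf.ne_zero⟩), rfl, h8⟩
      · rw [if_neg h7, if_neg]
        rintro ⟨-, -, h8⟩
        exact h7 ((hcond y).1 h8)
    · intro C' _ hne
      refine finsum_eq_zero_of_forall_eq_zero fun y => ?_
      rw [hC, if_neg]
      rintro ⟨-, h8, -⟩
      exact hne h8
    · intro h8
      exact absurd (Finset.mem_univ _) h8
  rw [hleft] at hsum
  rw [hsum] at hcnt
  have hright : ∑ᶠ B : RC F D,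
      (if Gen D B ∧ C B = C₀ ∧ ∃ k : ℤ, (D : 𝓞 F) ∣ L (Y B) * z - k then (1 : ℂ) else 0) =
      ((Nat.card {B : GC F D // C B.1 = C₀ ∧ ∃ k : ℤ, (D : 𝓞 F) ∣ L (Y B.1) * z - k} : ℕ) :
        ℂ) := by
    let _ := Fintype.ofFinite (RC F D)
    rw [finsum_eq_sum_of_fintype, Finset.sum_boole]
    congr 1
    rw [Nat.card_congr (Equiv.subtypeSubtypeEquivSubtypeInter (Gen D)
      (fun B => C B = C₀ ∧ ∃ k : ℤ, (D : 𝓞 F) ∣ L (Y B) * z - k)), Nat.card_eq_fintype_card,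
      Fintype.card_subtype]
  rw [hright, totient_prod hT.sqf] at hcnt
  have hne : ∏ r ∈ D.primeFactors, ((r : ℂ) - 1) ≠ 0 := by
    refine Finset.prod_ne_zero_iff.2 fun r hr => ?_
    have h8 := (Nat.prime_of_mem_primeFactors hr).one_lt
    intro h9
    have h10 : (r : ℂ) = 1 := sub_eq_zero.1 h9
    have h11 : r = 1 := by exact_mod_cast h10
    omega
  rw [Finset.prod_mul_distrib] at hcnt
  have h12 := mul_left_cancel₀ hne hcnt
  rw [h12]
  refine Finset.prod_congr rfl fun r _ => ?_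
  split_ifs <;> norm_num at *

end TsumAux

open TsumAux in
theorem stTsum (h1 : StFib) (h2 : StCntY) (h3 : StXc) (h4 : StGch) (h5 : StRg) : StTsum := by
  classical
  intro q F _ _ s σ D hF hT c hc1 hc2
  obtain ⟨s', χ, cj, hD⟩ := exists_dat σ hF
  obtain ⟨L, hL⟩ := exists_lift (F := F) hT.sqf.ne_zero
  have hfr : Finite (RC F D) := (h5 F _ _ D hT.sqf.ne_zero).1
  obtain ⟨hfin, hmem, -⟩ := h1 q F _ _ s' σ χ cj D hD hT c L (fun _ => 0) hc1 hc2 hL
  have hsurj : ∀ B : RC F D, ∃ p : (𝓞 F ⧸ Ideal.span {(D : 𝓞 F)})ˣ × ClassGroup (𝓞 F),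
      cl D (Ideal.span {L p.1} * (c p.2 : Ideal (𝓞 F))) = B := by
    intro B
    by_contra hno
    push Not at hno
    obtain ⟨-, -, hs⟩ := h1 q F _ _ s' σ χ cj D hD hT c L (fun B' => if B' = B then 1 else 0)
      hc1 hc2 hL
    have e1 : ∑ C : ClassGroup (𝓞 F), ∑ᶠ y : (𝓞 F ⧸ Ideal.span {(D : 𝓞 F)})ˣ,
        (if cl D (Ideal.span {L y} * (c C : Ideal (𝓞 F))) = B then (1 : ℂ) else 0) = 0 := by
      refine Finset.sum_eq_zero fun C _ => ?_
      refine finsum_eq_zero_of_forall_eq_zero fun y => ?_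
      rw [if_neg (hno (y, C))]
    have e2 : ∑ᶠ B' : RC F D, (if B' = B then (1 : ℂ) else 0) = 1 := by
      let _ := Fintype.ofFinite (RC F D)
      rw [finsum_eq_sum_of_fintype, Finset.sum_ite_eq' Finset.univ B]
      simp
    rw [e1, e2, mul_one] at hs
    have h6 : Nat.totient D ≠ 0 := (Nat.totient_pos.2 (Nat.pos_of_ne_zero hT.sqf.ne_zero)).ne'
    exact h6 (by exact_mod_cast hs.symm)
  choose p hp using hsurj
  have hcard := fun C₀ z hz => card_eq (Y := fun B => (p B).1) (C := fun B => (p B).2) hD hT h1 h2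
    h4 h5 hc1 hc2 hL hp C₀ z hz
  refine ⟨fun B => (p B.1).2, fun B => L (p B.1).1, fun B => ⟨⟨?_, ?_⟩, hp B.1⟩, fun C₀ => ?_, ?_⟩
  · intro h6
    exact (hL (p B.1).1).1 (Ideal.span_singleton_eq_bot.1 h6)
  · exact (hmem (p B.1).1 (p B.1).2).2.of_mul_left_left
  · have h6 := hcard C₀ 0 (Ideal.zero_mem _)
    have h7 : Nat.card {B : GC F D // (p B.1).2 = C₀ ∧
        ∃ k : ℤ, (D : 𝓞 F) ∣ L (p B.1).1 * 0 - k} = Nat.card {B : GC F D // (p B.1).2 = C₀} :=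
      Nat.card_congr (Equiv.subtypeEquivRight fun B =>
        ⟨fun h => h.1, fun h => ⟨h, 0, by simp⟩⟩)
    rw [h7] at h6
    have h8 : (Nat.card {B : GC F D // (p B.1).2 = C₀} : ℂ) =
        ((∏ r ∈ D.primeFactors, ((r + 1) / 2) : ℕ) : ℂ) := by
      rw [h6, Nat.cast_prod]
      refine Finset.prod_congr rfl fun r hr => ?_
      have h4' := hT.mod4 r (Nat.prime_of_mem_primeFactors hr) (Nat.dvd_of_mem_primeFactors hr)
      rw [if_pos]
      · have h9 : r + 1 = 2 * ((r + 1) / 2) := by omega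
        have h10 : (r : ℂ) + 1 = 2 * (((r + 1) / 2 : ℕ) : ℂ) := by exact_mod_cast h9
        rw [h10]
        ring
      · simp
    have h9 : Nat.card {B : GC F D // (p B.1).2 = C₀} =
        ∏ r ∈ D.primeFactors, ((r + 1) / 2) := by exact_mod_cast h8
    rw [h9]
    refine Finset.prod_induction _ Odd (fun a b => Odd.mul) odd_one fun r hr => ?_
    have h4' := hT.mod4 r (Nat.prime_of_mem_primeFactors hr) (Nat.dvd_of_mem_primeFactors hr)
    rw [Nat.odd_iff]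
    omega
  · letI := Fintype.ofFinite (GC F D)
    let _ := Fintype.ofFinite (𝓞 F ⧸ Ideal.span {(D : 𝓞 F)})
    rw [finsum_eq_sum_of_fintype,
      ← Finset.sum_fiberwise Finset.univ (fun B : GC F D => (p B.1).2)]
    refine Finset.sum_congr rfl fun C₀ _ => ?_
    have e1 : ∀ B ∈ Finset.univ.filter (fun B : GC F D => (p B.1).2 = C₀),
        tC D σ (c (p B.1).2 : Ideal (𝓞 F)) (L (p B.1).1) =
        ∑ ρ : 𝓞 F ⧸ Ideal.span {(D : 𝓞 F)}, 1 / 2 * (if ρ = 0 then 0 else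
          if ∃ k : ℤ, (D : 𝓞 F) ∣ L (p B.1).1 * lf D (c C₀ : Ideal (𝓞 F)) ρ - k then
            xc D σ (c C₀ : Ideal (𝓞 F)) (lf D (c C₀ : Ideal (𝓞 F)) ρ) else 0) := by
      intro B hB
      have e2 : (p B.1).2 = C₀ := (Finset.mem_filter.1 hB).2
      rw [tC, finsum_eq_sum_of_fintype, e2, Finset.mul_sum]
    rw [Finset.sum_congr rfl e1, Finset.sum_comm, TE, finsum_eq_sum_of_fintype, Finset.mul_sum]
    refine Finset.sum_congr rfl fun ρ _ => ?_
    by_cases hρ : ρ = 0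
    · simp [hρ]
    · simp only [if_neg hρ]
      obtain ⟨-, h6, -⟩ := h3 q F _ _ s σ D hF hT (c C₀) (hc2 C₀)
      have h7 := hcard C₀ (lf D (c C₀ : Ideal (𝓞 F)) ρ) (h6 ρ).1
      rw [wE_one hT, ← h7, ← Finset.mul_sum, ← Finset.sum_filter, Finset.sum_const,
        Finset.filter_filter, Nat.card_eq_fintype_card, Fintype.card_subtype, nsmul_eq_mul]

end Pool.Agent.Lib.MP_7c08ba_nt.CN.TW
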