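import Pool.Agent.Lib.MP_7c08ba_nt.CN.T.StP
import Pool.Agent.Lib.MP_7c08ba_nt.RZ.C.Unit
import Pool.Agent.Lib.MP_7c08ba_nt.RZ.C.Class

set_option autoImplicit false

/-! Project TW, module UnitT: the prime attached to the place, all exponents. -/

namespace Pool.Agent.Lib.MP_7c08ba_nt.CN.TW

open NumberField RZC
open scoped nonZeroDivisors

namespace UnitTAux

theorem mem_of_pow {A : ValuationSubring ℂ} {c : ℂ} {h : ℕ} (hh : h ≠ 0) (hc : c ^ h ∈ A) :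
    c ∈ A := by
  rw [← A.valuation_le_one_iff] at hc ⊢
  rw [map_pow] at hc
  exact (pow_le_one_iff hh).1 hc

theorem unit_mem {F : Type} [Field F] [NumberField F] (σ : F →+* ℂ) {A : ValuationSubring ℂ}
    (u : (𝓞 F)ˣ) : σ ((u : 𝓞 F) : F) ∈ A ∧ (σ ((u : 𝓞 F) : F))⁻¹ ∈ A := by
  refine ⟨RZC.Unit.int_memA σ (u : 𝓞 F), ?_⟩
  have h1 : σ ((u : 𝓞 F) : F) * σ (((u⁻¹ : (𝓞 F)ˣ) : 𝓞 F) : F) = 1 := by
    rw [← map_mul, ← map_mul (algebraMap (𝓞 F) F), Units.mul_inv, map_one, map_one]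
  rw [inv_eq_of_mul_eq_one_right h1]
  exact RZC.Unit.int_memA σ ((u⁻¹ : (𝓞 F)ˣ) : 𝓞 F)

end UnitTAux

open UnitTAux in
/-- (C3) the prime attached to `A` -/
theorem stUnitT_of (h1 : RZC.StUnit) (h2 : RZC.StClass) : StUnitT := by
  intro q F _ _ s σ A hF hA
  obtain ⟨P, hP, hN, hU⟩ := h1 q F (s : F) hF σ A hA
  refine ⟨P, hP, hN, fun m x hm hx => ?_⟩
  have hodd := h2 q F (s : F) hF
  set h := Fintype.card (ClassGroup (𝓞 F)) with hh
  have hP0 : P ≠ ⊥ := by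
    rintro rfl
    rw [Ideal.absNorm_bot] at hN
    exact absurd hN (by norm_num)
  obtain ⟨y, hy⟩ : ∃ y : 𝓞 F, P ^ h = Ideal.span {y} := by
    have h3 : ClassGroup.mk0 (⟨P, mem_nonZeroDivisors_of_ne_zero hP0⟩ : (Ideal (𝓞 F))⁰) ^ h = 1 :=
      pow_card_eq_one
    rw [← map_pow, ClassGroup.mk0_eq_one_iff, SubmonoidClass.coe_pow] at h3
    obtain ⟨y, hy⟩ := h3
    exact ⟨y, hy⟩
  obtain ⟨hc1, hc2, -⟩ := hU h y hodd hy
  have hh0 : h ≠ 0 := hodd.pos.ne'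
  have hx0 : x ≠ 0 := by
    rintro rfl
    rw [Set.singleton_zero, Ideal.span_zero] at hx
    exact pow_ne_zero m hP0 hx
  have hy0 : y ≠ 0 := by
    rintro rfl
    rw [Set.singleton_zero, Ideal.span_zero] at hy
    exact pow_ne_zero h hP0 hy
  have hass : Associated (x ^ h) (y ^ m) := by
    rw [← Ideal.span_singleton_eq_span_singleton, ← Ideal.span_singleton_pow,
      ← Ideal.span_singleton_pow, ← hx, ← hy, ← pow_mul, ← pow_mul, mul_comm]
  obtain ⟨u, hu⟩ := hass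
  have hσx : σ (x : F) ≠ 0 := by
    rw [Ne, map_eq_zero]
    exact fun h0 => hx0 (RingOfIntegers.ext h0)
  have hσy : σ (y : F) ≠ 0 := by
    rw [Ne, map_eq_zero]
    exact fun h0 => hy0 (RingOfIntegers.ext h0)
  have hu' : σ (x : F) ^ h * σ ((u : 𝓞 F) : F) = σ (y : F) ^ m := by
    have := congrArg (fun z : 𝓞 F => σ (z : F)) hu
    simpa using this
  obtain ⟨hu1, hu2⟩ := unit_mem σ (A := A) u
  have hσu : σ ((u : 𝓞 F) : F) ≠ 0 := by
    intro h0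
    rw [h0, mul_zero] at hu'
    exact pow_ne_zero m hσy hu'.symm
  have key : (2 ^ m / σ (x : F)) ^ h = (2 ^ h / σ (y : F)) ^ m * σ ((u : 𝓞 F) : F) := by
    rw [div_pow, div_pow, ← hu', ← pow_mul, ← pow_mul, mul_comm m h]
    field_simp
  constructor
  · apply mem_of_pow hh0
    rw [key]
    exact A.mul_mem _ _ (A.pow_mem hc1 m) hu1
  · apply mem_of_pow hh0
    rw [inv_pow, key, mul_inv, ← inv_pow]
    exact A.mul_mem _ _ (A.pow_mem hc2 m) hu2

/-- (C3) the prime attached to `A` -/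
theorem stUnitT : StUnitT := stUnitT_of RZC.stUnit RZC.stClass

end Pool.Agent.Lib.MP_7c08ba_nt.CN.TW
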