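import Pool.Agent.Lib.MP_7c08ba_nt.CN.T.StP

set_option autoImplicit false

/-!
(V3) Vélu formulas: the Weierstrass function and the invariants of a larger lattice: `stVel`.
-/

namespace Pool.Agent.Lib.MP_7c08ba_nt.CN.TW

open Complex

namespace VelAux

variable {L M : PeriodPair} {S : Finset ℂ}

/-- sums over the cosets -/
theorem hasSum_split (h : RepS L M S) {F : ℂ → ℂ} {a : ℂ} {b : ℂ → ℂ}
    (ha : HasSum (fun l : L.lattice => F l) a)
    (hb : ∀ Q ∈ S, HasSum (fun l : L.lattice => F (l - Q)) (b Q)) :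
    HasSum (fun m : M.lattice => F m) (a + ∑ Q ∈ S, b Q) := by
  classical
  have h0 : (0 : ℂ) ∉ S := fun h0 => (h.mem 0 h0).2 L.lattice.zero_mem
  -- the summands of one coset
  let g : ℂ → M.lattice → ℂ := fun Q m => if (m : ℂ) + Q ∈ L.lattice then F m else 0
  have hg : ∀ Q ∈ M.lattice, ∀ c : ℂ, HasSum (fun l : L.lattice => F (l - Q)) c →
      HasSum (g Q) c := by
    intro Q hQ c hc
    let i : L.lattice → M.lattice := fun l => ⟨l.1 - Q, M.lattice.sub_mem (h.le l.2) hQ⟩
    have hi : Function.Injective i := by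
      intro x y hxy
      have h1 := congrArg Subtype.val hxy
      exact Subtype.ext (sub_left_injective h1)
    rw [← hi.hasSum_iff]
    · refine hc.congr_fun ?_
      intro l
      have h1 : ((i l : M.lattice) : ℂ) + Q ∈ L.lattice := by
        have h2 : ((i l : M.lattice) : ℂ) + Q = l.1 := sub_add_cancel _ _
        rw [h2]
        exact l.2
      show g Q (i l) = F (l - Q)
      simp only [g]
      rw [if_pos h1]
    · intro m hm
      simp only [g]
      refine if_neg fun h1 => hm ⟨⟨_, h1⟩, ?_⟩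
      exact Subtype.ext (add_sub_cancel_right _ _)
  have hs : HasSum (fun m : M.lattice => ∑ Q ∈ insert 0 S, g Q m)
      (∑ Q ∈ insert 0 S, if Q = 0 then a else b Q) := by
    refine hasSum_sum fun Q hQ => ?_
    rcases eq_or_ne Q 0 with rfl | hQ0
    · rw [if_pos rfl]
      refine hg 0 M.lattice.zero_mem a ?_
      simpa using ha
    · rw [if_neg hQ0]
      have hQS : Q ∈ S := (Finset.mem_insert.1 hQ).resolve_left hQ0
      exact hg Q (h.mem Q hQS).1 _ (hb Q hQS)
  rw [Finset.sum_insert h0, if_pos rfl] at hs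
  have e1 : ∑ Q ∈ S, (if Q = 0 then a else b Q) = ∑ Q ∈ S, b Q :=
    Finset.sum_congr rfl fun Q hQ => if_neg (by
      rintro rfl
      exact h0 hQ)
  rw [e1] at hs
  refine hs.congr_fun ?_
  intro m
  rw [Finset.sum_insert h0]
  by_cases hm : (m : ℂ) ∈ L.lattice
  · have h1 : g 0 m = F m := by
      simp only [g, add_zero]
      exact if_pos hm
    have h2 : ∑ Q ∈ S, g Q m = 0 := by
      refine Finset.sum_eq_zero fun Q hQ => ?_
      simp only [g]
      refine if_neg fun h3 => (h.mem Q hQ).2 ?_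
      have h4 : Q = ((m : ℂ) + Q) - m := by ring
      rw [h4]
      exact L.lattice.sub_mem h3 hm
    rw [h1, h2, add_zero]
  · have h1 : g 0 m = 0 := by
      simp only [g, add_zero]
      exact if_neg hm
    obtain ⟨Q, ⟨hQ, hQ1⟩, hu⟩ := h.uni (-(m : ℂ)) (M.lattice.neg_mem m.2)
      (fun h2 => hm (by simpa using L.lattice.neg_mem h2))
    have h3 : ∀ R : ℂ, (m : ℂ) + R ∈ L.lattice ↔ -(m : ℂ) - R ∈ L.lattice := by
      intro R
      rw [← L.lattice.neg_mem_iff]
      have : -((m : ℂ) + R) = -(m : ℂ) - R := by ring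
      rw [this]
    have h2 : ∑ R ∈ S, g R m = g Q m := by
      refine Finset.sum_eq_single_of_mem Q hQ fun R hR hRQ => ?_
      simp only [g]
      exact if_neg fun h4 => hRQ (hu R ⟨hR, (h3 R).1 h4⟩)
    rw [h1, h2, zero_add]
    simp only [g]
    exact (if_pos ((h3 Q).2 hQ1)).symm

theorem G_eq (h : RepS L M S) {r : ℕ} (hr : 2 < r) :
    M.G r = L.G r + ∑ Q ∈ S, L.sumInvPow Q r := by
  have ha := L.hasSum_sumInvPow 0 hr
  simp only [sub_zero, PeriodPair.sumInvPow_zero] at ha
  have h3 := hasSum_split h (F := fun z => (z ^ r)⁻¹) (b := fun Q => L.sumInvPow Q r) ha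
    (fun Q _ => L.hasSum_sumInvPow Q hr)
  exact h3.tsum_eq

end VelAux

open VelAux in
/-- (V3) the functions of a larger lattice -/
theorem stVel (hS : StSig) : StVel := by
  intro L M S h
  refine ⟨?_, ?_, ?_⟩
  · have h4 := G_eq h (r := 4) (by norm_num)
    have h5 : ∑ Q ∈ S, L.sumInvPow Q 4 = ∑ Q ∈ S, (L.weierstrassP Q ^ 2 - L.g₂ / 12) :=
      Finset.sum_congr rfl fun Q hQ => (hS L Q (h.mem Q hQ).2).1
    rw [h5, Finset.sum_sub_distrib, Finset.sum_const, nsmul_eq_mul] at h4
    have h6 : M.g₂ = 60 * M.G 4 := rfl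
    have h7 : L.g₂ = 60 * L.G 4 := rfl
    rw [h6, h4]
    linear_combination -h7
  · have h4 := G_eq h (r := 6) (by norm_num)
    have h5 : ∑ Q ∈ S, L.sumInvPow Q 6 =
        ∑ Q ∈ S, (L.weierstrassP Q ^ 3 - 3 / 20 * L.g₂ * L.weierstrassP Q - L.g₃ / 10) :=
      Finset.sum_congr rfl fun Q hQ => (hS L Q (h.mem Q hQ).2).2
    rw [h5, Finset.sum_sub_distrib, Finset.sum_sub_distrib, Finset.sum_const, nsmul_eq_mul,
      ← Finset.mul_sum] at h4
    have h6 : M.g₃ = 140 * M.G 6 := rfl
    have h7 : L.g₃ = 140 * L.G 6 := rfl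
    rw [h6, h4]
    linear_combination -h7
  · intro z _
    have ha := L.hasSum_weierstrassP z
    have h8 : ∀ Q ∈ S, HasSum (fun l : L.lattice => 1 / (z - (l.1 - Q)) ^ 2 - 1 / (l.1 - Q) ^ 2)
        (L.weierstrassP (z + Q) - L.weierstrassP Q) := by
      intro Q _
      refine ((L.hasSum_weierstrassP (z + Q)).sub (L.hasSum_weierstrassP Q)).congr_fun ?_
      intro l
      have h9 : z - (l.1 - Q) = z + Q - l.1 := by ring
      have h10 : (l.1 - Q) ^ 2 = (Q - l.1) ^ 2 := by ring
      rw [h9, h10]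
      ring
    have h11 := hasSum_split h (F := fun w => 1 / (z - w) ^ 2 - 1 / w ^ 2)
      (b := fun Q => L.weierstrassP (z + Q) - L.weierstrassP Q) ha h8
    exact (M.hasSum_weierstrassP z).unique h11

end Pool.Agent.Lib.MP_7c08ba_nt.CN.TW
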