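import Mathlib
import Pool.Agent.Lib.MP_7c08ba_nt.CN.T.StZ

set_option autoImplicit false

/-!
Project TW, module W: the weights on `ℤ / D` and their Fourier coefficients.
-/

namespace Pool.Agent.Lib.MP_7c08ba_nt.CN.TW

open NumberField IsDedekindDomain Polynomial Pool.Agent.Lib.MP_7c08ba_nt.RZ
open scoped nonZeroDivisors ComplexConjugate

namespace WAux

lemma ee_add (z w : ℂ) : ee (z + w) = ee z * ee w := by
  unfold ee
  rw [← Complex.exp_add]
  congr 1
  ring

lemma ee_int (n : ℤ) : ee n = 1 := by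
  unfold ee
  rw [Complex.exp_eq_one_iff]
  exact ⟨n, by ring⟩

lemma ee_eq_of {z w : ℂ} (n : ℤ) (h : z = w + n) : ee z = ee w := by
  rw [h, ee_add, ee_int, mul_one]

lemma ee_pow (z : ℂ) (n : ℕ) : ee z ^ n = ee (n * z) := by
  unfold ee
  rw [← Complex.exp_nat_mul]
  congr 1
  ring

lemma ee_congr {D : ℕ} (hD : 0 < D) {a b : ℤ} (h : (D : ℤ) ∣ a - b) :
    ee ((a : ℂ) / D) = ee ((b : ℂ) / D) := by
  obtain ⟨l, hl⟩ := h
  have hD' : (D : ℂ) ≠ 0 := Nat.cast_ne_zero.2 hD.ne'
  refine ee_eq_of l ?_
  have : (a : ℂ) = b + D * l := by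
    have : a = b + D * l := by linarith
    rw [this]; push_cast; ring
  rw [this]
  field_simp

lemma orth {D : ℕ} (hD : 0 < D) (t : ℤ) :
    ∑ c ∈ Finset.range D, ee ((c : ℂ) * t / D) = if (D : ℤ) ∣ t then (D : ℂ) else 0 := by
  have hD' : (D : ℂ) ≠ 0 := Nat.cast_ne_zero.2 hD.ne'
  have h1 : ∀ c : ℕ, ee ((c : ℂ) * t / D) = ee ((t : ℂ) / D) ^ c := by
    intro c
    rw [ee_pow]
    congr 1
    ring
  simp only [h1]
  split_ifs with h
  · have h2 : ee ((t : ℂ) / D) = 1 := by
      have h3 := ee_congr hD (a := t) (b := 0) (by simpa using h)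
      rw [h3]
      have : ((0 : ℤ) : ℂ) / D = ((0 : ℤ) : ℂ) := by simp
      rw [this, ee_int]
    rw [h2]
    simp
  · have h2 : ee ((t : ℂ) / D) ≠ 1 := by
      intro h3
      apply h
      unfold ee at h3
      rw [Complex.exp_eq_one_iff] at h3
      obtain ⟨l, hl⟩ := h3
      refine ⟨l, ?_⟩
      have h4 : (2 * Real.pi * Complex.I : ℂ) ≠ 0 := Complex.two_pi_I_ne_zero
      have h5 : (t : ℂ) / D = l := by
        apply mul_left_cancel₀ h4
        rw [hl]; ring
      have h6 : (t : ℂ) = D * l := by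
        rw [← h5]; field_simp
      exact_mod_cast h6
    have h3 : ee ((t : ℂ) / D) ^ D = 1 := by
      rw [ee_pow]
      have : (D : ℂ) * ((t : ℂ) / D) = t := by field_simp
      rw [this, ee_int]
    have h4 := mul_neg_geom_sum (ee ((t : ℂ) / D)) D
    rw [h3, sub_self] at h4
    rcases mul_eq_zero.1 h4 with h5 | h5
    · exact absurd (sub_eq_zero.1 h5).symm h2
    · exact h5

/-- periodic functions: multiplication by a unit -/
lemma sum_mul {D : ℕ} (hD : 0 < D) (F : ℤ → ℂ) (hF : ∀ a b : ℤ, (D : ℤ) ∣ a - b → F a = F b)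
    {β : ℤ} (hβ : IsCoprime β D) :
    ∑ N ∈ Finset.range D, F (β * N) = ∑ N ∈ Finset.range D, F N := by
  obtain ⟨u, v, huv⟩ := hβ
  have hDz : (D : ℤ) ≠ 0 := by exact_mod_cast hD.ne'
  have hDp : (0 : ℤ) < D := by exact_mod_cast hD
  have key : ∀ a : ℤ, ((a % D).toNat : ℤ) = a % D ∧ (a % D).toNat < D := by
    intro a
    have h1 := Int.emod_nonneg a hDz
    have h2 := Int.emod_lt_of_pos a hDp
    constructor
    · exact Int.toNat_of_nonneg h1
    · omega
  have back : ∀ (a b : ℤ), b * a - 1 = D * (-v) ∨ b * a - 1 = D * (-v) → ∀ N : ℕ, N < D →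
      (b * ((a * N % D).toNat : ℤ) % D).toNat = N := by
    intro a b hab N hN
    have hab' : b * a - 1 = D * (-v) := hab.elim id id
    rw [(key _).1]
    have h3 : b * (a * N % D) % D = N := by
      have h4 : (D : ℤ) ∣ b * (a * N % D) - N := by
        have h5 : a * N % D = a * N - D * (a * N / D) := by
          have := Int.emod_add_mul_ediv (a * N) D
          linarith
        rw [h5]
        exact ⟨-v * N - b * (a * N / D), by linear_combination (N : ℤ) * hab'⟩
      have h6 : b * (a * N % D) % D = (N : ℤ) % D :=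
        Int.emod_eq_emod_iff_emod_sub_eq_zero.2 (Int.emod_eq_zero_of_dvd h4)
      rw [h6]
      exact Int.emod_eq_of_lt (by positivity) (by exact_mod_cast hN)
    rw [h3]
    simp
  refine Finset.sum_nbij' (fun N => (β * N % D).toNat) (fun N => (u * N % D).toNat) ?_ ?_ ?_ ?_ ?_
  · intro N _
    exact Finset.mem_range.2 (key _).2
  · intro N _
    exact Finset.mem_range.2 (key _).2
  · intro N hN
    exact back β u (Or.inl (by linarith)) N (Finset.mem_range.1 hN)
  · intro N hN
    exact back u β (Or.inl (by linarith)) N (Finset.mem_range.1 hN)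
  · intro N _
    refine hF _ _ ?_
    rw [(key _).1]
    exact Int.dvd_self_sub_emod

/-! ### the weights -/

lemma pos_of {q D : ℕ} (h : TwA q D) : 0 < D := Nat.pos_of_ne_zero h.sqf.ne_zero

/-- the local factor -/
noncomputable def wf (r : ℕ) (N : ℤ) : ℂ :=
  if (r : ℤ) ∣ N then ((r : ℂ) + 1) / 2 else (1 + (jacobiSym N r : ℂ)) / 2

lemma wN_eq (D : ℕ) (N : ℤ) : wN D N = ∏ r ∈ D.primeFactors, wf r N := rfl

lemma jac_congr {r : ℕ} {N N' : ℤ} (h : (r : ℤ) ∣ N - N') : jacobiSym N r = jacobiSym N' r :=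
  jacobiSym.mod_left' (Int.emod_eq_emod_iff_emod_sub_eq_zero.2 (Int.emod_eq_zero_of_dvd h))

lemma wf_congr {r : ℕ} {N N' : ℤ} (h : (r : ℤ) ∣ N - N') : wf r N = wf r N' := by
  unfold wf
  rw [jac_congr h]
  have : ((r : ℤ) ∣ N) ↔ ((r : ℤ) ∣ N') := by
    constructor
    · intro h1
      have := dvd_sub h1 h
      rwa [show N - (N - N') = N' by ring] at this
    · intro h1
      have := dvd_add h h1
      rwa [show N - N' + N' = N by ring] at this
  simp only [this]

lemma wf_mul {r : ℕ} (hr : r.Prime) {β : ℤ} (hβ : jacobiSym β r = 1) (N : ℤ) :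
    wf r (β * N) = wf r N := by
  unfold wf
  have hnd : ¬ (r : ℤ) ∣ β := by
    intro h
    have h1 : jacobiSym β r = jacobiSym 0 r := jac_congr (by simpa using h)
    rw [hβ, jacobiSym.zero_left hr.one_lt] at h1
    exact one_ne_zero h1
  have : ((r : ℤ) ∣ β * N) ↔ ((r : ℤ) ∣ N) := by
    constructor
    · intro h1
      exact ((Nat.prime_iff_prime_int.1 hr).dvd_or_dvd h1).resolve_left hnd
    · intro h1
      exact h1.mul_left β
  rw [jacobiSym.mul_left, hβ, one_mul]
  simp only [this]

lemma jac_four {r : ℕ} (hr : r % 4 = 1) : jacobiSym 4 r = 1 := by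
  have h : Int.gcd 2 r = 1 := by
    have : Nat.Coprime 2 r := (Nat.coprime_two_left).2 (Nat.odd_iff.2 (by omega))
    exact_mod_cast this
  have := jacobiSym.sq_one h
  rw [← jacobiSym.pow_left] at this
  exact_mod_cast this

end WAux

open WAux in
theorem stW : StW := by
  intro q D hD
  have hDp := pos_of hD
  have hD' : (D : ℂ) ≠ 0 := Nat.cast_ne_zero.2 hDp.ne'
  have h5 : ∀ N N' : ℤ, (D : ℤ) ∣ N - N' → wN D N = wN D N' := by
    intro N N' h
    rw [wN_eq, wN_eq]
    refine Finset.prod_congr rfl fun r hr => wf_congr ?_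
    exact (Int.natCast_dvd_natCast.2 (Nat.dvd_of_mem_primeFactors hr)).trans h
  refine ⟨?_, ?_, ?_, ?_, h5⟩
  · -- inversion
    intro N
    set M : ℕ := (N % D).toNat with hM
    have hDz : (D : ℤ) ≠ 0 := by exact_mod_cast hDp.ne'
    have hM1 : (M : ℤ) = N % D := Int.toNat_of_nonneg (Int.emod_nonneg N hDz)
    have hM2 : M < D := by
      have := Int.emod_lt_of_pos N (by exact_mod_cast hDp : (0 : ℤ) < D)
      omega
    have hM3 : (D : ℤ) ∣ N - M := by
      rw [hM1]; exact Int.dvd_self_sub_emod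
    have e : ∀ c ∈ Finset.range D, wH D c * ee ((c : ℂ) * N / D) =
        (D : ℂ)⁻¹ * ∑ L ∈ Finset.range D, wN D L * ee ((c : ℂ) * ((N - L : ℤ) : ℂ) / D) := by
      intro c _
      unfold wH
      rw [mul_assoc, Finset.sum_mul]
      congr 1
      refine Finset.sum_congr rfl fun L _ => ?_
      rw [mul_assoc, ← ee_add]
      congr 2
      push_cast
      ring
    rw [Finset.sum_congr rfl e, ← Finset.mul_sum, Finset.sum_comm]
    have e2 : ∀ L ∈ Finset.range D,
        ∑ c ∈ Finset.range D, wN D L * ee ((c : ℂ) * ((N - L : ℤ) : ℂ) / D) =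
        if L = M then wN D L * D else 0 := by
      intro L hL
      rw [← Finset.mul_sum, orth hDp]
      have : ((D : ℤ) ∣ N - L) ↔ L = M := by
        constructor
        · intro h
          have h1 := dvd_sub h hM3
          rw [show N - (L : ℤ) - (N - M) = (M : ℤ) - L by ring] at h1
          have h2 : ((M : ℤ) - L) = 0 := by
            apply Int.eq_zero_of_abs_lt_dvd h1
            rw [abs_lt]
            have := Finset.mem_range.1 hL
            constructor <;> omega
          omega
        · rintro rfl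
          exact hM3
      simp only [this, mul_ite, mul_zero]
    rw [Finset.sum_congr rfl e2, Finset.sum_ite_eq', if_pos (Finset.mem_range.2 hM2),
      h5 N M hM3]
    field_simp
  · -- periodicity
    intro c c' h
    unfold wH
    congr 1
    refine Finset.sum_congr rfl fun N _ => ?_
    congr 1
    have := ee_congr hDp (a := -(c * N)) (b := -(c' * N)) (by
      obtain ⟨l, hl⟩ := h
      exact ⟨-(l * N), by linear_combination (-(N : ℤ)) * hl⟩)
    push_cast at this
    exact this
  · -- substitution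
    intro c β hβ
    have hcop : IsCoprime β (D : ℤ) := by
      rw [Int.isCoprime_iff_gcd_eq_one]
      by_contra hne
      obtain ⟨r, hr, hrd⟩ := Nat.exists_prime_and_dvd hne
      have h1 : (r : ℤ) ∣ β := (Int.natCast_dvd_natCast.2 hrd).trans (Int.gcd_dvd_left ..)
      have h2 : r ∣ D := by
        exact_mod_cast (Int.natCast_dvd_natCast.2 hrd).trans (Int.gcd_dvd_right ..)
      have h3 := hβ r hr h2
      have h4 : jacobiSym β r = jacobiSym 0 r := jac_congr (by simpa using h1)
      rw [h3, jacobiSym.zero_left hr.one_lt] at h4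
      exact one_ne_zero h4
    have hmul : ∀ N : ℤ, wN D (β * N) = wN D N := by
      intro N
      rw [wN_eq, wN_eq]
      refine Finset.prod_congr rfl fun r hr => wf_mul (Nat.prime_of_mem_primeFactors hr) ?_ N
      exact hβ r (Nat.prime_of_mem_primeFactors hr) (Nat.dvd_of_mem_primeFactors hr)
    have hs := sum_mul hDp (fun N : ℤ => wN D N * ee (-((c : ℂ) * N) / D)) (by
      intro a b h
      rw [h5 a b h]
      congr 1
      have := ee_congr hDp (a := -(c * a)) (b := -(c * b)) (by
        obtain ⟨l, hl⟩ := h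
        exact ⟨-(c * l), by linear_combination (-c) * hl⟩)
      push_cast at this
      exact this) hcop
    unfold wH
    congr 1
    simp only [Int.cast_natCast] at hs
    rw [← hs]
    refine Finset.sum_congr rfl fun N _ => ?_
    rw [hmul]
    congr 2
    push_cast
    ring
  · -- multiplication by four
    intro N
    rw [wN_eq, wN_eq]
    exact Finset.prod_congr rfl fun r hr => wf_mul (Nat.prime_of_mem_primeFactors hr)
      (jac_four (hD.mod4 r (Nat.prime_of_mem_primeFactors hr) (Nat.dvd_of_mem_primeFactors hr))) N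

end Pool.Agent.Lib.MP_7c08ba_nt.CN.TW
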