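import Pool.Agent.Lib.MP_7c08ba_nt.CN.T.StP
import Pool.Agent.Lib.MP_7c08ba_nt.RZ.C.Lat
import Pool.Agent.Lib.MP_7c08ba_nt.RZ.C.Basis

set_option autoImplicit false

/-!
Project TW, (J1): the values of `x` at the points of order dividing `D`.
-/

namespace Pool.Agent.Lib.MP_7c08ba_nt.CN.TW

open NumberField IsDedekindDomain Polynomial RZC
open scoped nonZeroDivisors ComplexConjugate

namespace XcAux

/-- the period pair of an oriented pair -/
noncomputable def pp (w₁ w₂ : ℂ) (h : Pos w₁ w₂) : PeriodPair where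
  ω₁ := w₁
  ω₂ := w₂
  indep := by
    rw [LinearIndependent.pair_iff]
    intro s t hst
    have hw : w₂ ≠ 0 := by
      rintro rfl
      simp [Pos] at h
    have h1 : (s : ℂ) * (w₁ / w₂) + t = 0 := by
      have h2 : (s : ℂ) * w₁ + t * w₂ = 0 := by simpa using hst
      field_simp
      linear_combination h2
    have h3 := congrArg Complex.im h1
    simp only [Complex.add_im, Complex.im_ofReal_mul, Complex.ofReal_im, add_zero,
      Complex.zero_im] at h3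
    have hs : s = 0 := by
      rcases mul_eq_zero.mp h3 with h4 | h4
      · exact h4
      · exact absurd h4 (ne_of_gt h)
    rw [hs] at h1
    refine ⟨hs, ?_⟩
    have h5 : (t : ℂ) = 0 := by simpa using h1
    exact_mod_cast h5

/-- homogeneity of the Weierstrass function -/
theorem wP_smul (L M : PeriodPair) {c : ℂ} (hc : c ≠ 0)
    (h : ∀ w : ℂ, w ∈ M.lattice ↔ ∃ l ∈ L.lattice, w = c * l) (z : ℂ) :
    M.weierstrassP (c * z) = (c ^ 2)⁻¹ * L.weierstrassP z := by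
  let e : L.lattice ≃ M.lattice :=
    { toFun := fun l => ⟨c * l, (h _).2 ⟨l, l.2, rfl⟩⟩
      invFun := fun w => ⟨c⁻¹ * w, by
        obtain ⟨l, hl, hw⟩ := (h w).1 w.2
        rw [hw, inv_mul_cancel_left₀ hc]
        exact hl⟩
      left_inv := fun l => by
        apply Subtype.ext
        simp [inv_mul_cancel_left₀ hc]
      right_inv := fun w => by
        apply Subtype.ext
        simp [mul_inv_cancel_left₀ hc] }
  unfold PeriodPair.weierstrassP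
  rw [← tsum_mul_left, ← e.tsum_eq]
  refine tsum_congr fun l => ?_
  have h1 : ((e l : M.lattice) : ℂ) = c * l := rfl
  rw [h1, ← mul_sub, mul_pow, mul_pow, one_div, one_div, one_div, one_div, mul_inv, mul_inv]
  ring

theorem LF_smul (k : ℕ) (f : UpperHalfPlane → ℂ) {c : ℂ} (hc : c ≠ 0) (w₁ w₂ : ℂ) :
    LF k f (c * w₁) (c * w₂) = (c ^ k)⁻¹ * LF k f w₁ w₂ := by
  unfold LF
  rw [mul_div_mul_left _ _ hc, mul_pow, mul_inv]
  ring

theorem pos_smul {c : ℂ} (hc : c ≠ 0) {w₁ w₂ : ℂ} (h : Pos w₁ w₂) : Pos (c * w₁) (c * w₂) := by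
  unfold Pos
  rw [mul_div_mul_left _ _ hc]
  exact h

theorem mem_lat_smul (c w₁ w₂ w : ℂ) :
    w ∈ lat (c * w₁) (c * w₂) ↔ ∃ l ∈ lat w₁ w₂, w = c * l := by
  unfold lat
  constructor
  · intro h
    obtain ⟨a, b, hab⟩ := Submodule.mem_span_pair.1 h
    refine ⟨a • w₁ + b • w₂, Submodule.mem_span_pair.2 ⟨a, b, rfl⟩, ?_⟩
    rw [← hab, mul_add, mul_smul_comm, mul_smul_comm]
  · rintro ⟨l, hl, rfl⟩
    obtain ⟨a, b, hab⟩ := Submodule.mem_span_pair.1 hl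
    refine Submodule.mem_span_pair.2 ⟨a, b, ?_⟩
    rw [← hab, mul_add, mul_smul_comm, mul_smul_comm]

/-- homogeneity of `x` -/
theorem xP_smul (L M : PeriodPair) (hL : Pos L.ω₁ L.ω₂) (hM : Pos M.ω₁ M.ω₂) {c : ℂ}
    (hc : c ≠ 0) (h : ∀ w : ℂ, w ∈ M.lattice ↔ ∃ l ∈ L.lattice, w = c * l) (z : ℂ) :
    xP M (c * z) = xP L z := by
  have hl : lat M.ω₁ M.ω₂ = lat (c * L.ω₁) (c * L.ω₂) := by
    ext w
    rw [mem_lat_smul]
    exact h w
  have h4 : e4 M.ω₁ M.ω₂ = (c ^ 4)⁻¹ * e4 L.ω₁ L.ω₂ := by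
    rw [← LF_smul 4 _ hc]
    exact stLat 4 ModularForm.E₄ _ _ _ _ hM (pos_smul hc hL) hl
  have h6 : e6 M.ω₁ M.ω₂ = (c ^ 6)⁻¹ * e6 L.ω₁ L.ω₂ := by
    rw [← LF_smul 6 _ hc]
    exact stLat 6 ModularForm.E₆ _ _ _ _ hM (pos_smul hc hL) hl
  unfold xP
  rw [wP_smul L M hc h, h4, h6]
  congr 2
  have h5 : (c ^ 2)⁻¹ * L.weierstrassP z * ((c ^ 4)⁻¹ * e4 L.ω₁ L.ω₂) =
      (c ^ 6)⁻¹ * (L.weierstrassP z * e4 L.ω₁ L.ω₂) := by
    field_simp
  have h7 : 4 * (Real.pi : ℂ) ^ 2 * ((c ^ 6)⁻¹ * e6 L.ω₁ L.ω₂) =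
      (c ^ 6)⁻¹ * (4 * (Real.pi : ℂ) ^ 2 * e6 L.ω₁ L.ω₂) := by ring
  rw [h5, h7, mul_div_mul_left _ _ (inv_ne_zero (pow_ne_zero 6 hc))]

section

variable {F : Type} [Field F] [NumberField F]

/-- a period pair for the lattice of an ideal -/
structure PL (σ : F →+* ℂ) (c : Ideal (𝓞 F)) (L : PeriodPair) : Prop where
  pos : Pos L.ω₁ L.ω₂
  mem : ∀ w : ℂ, w ∈ L.lattice ↔ ∃ x ∈ c, σ (x : F) = w

theorem exists_PL {q : ℕ} {s : F} (hF : FieldC q F s) (σ : F →+* ℂ) {c : Ideal (𝓞 F)}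
    (hc : c ≠ ⊥) : ∃ L, PL σ c L := by
  obtain ⟨⟨w₁, w₂, h1, h2⟩, -⟩ := stBasis q F s hF σ c hc
  exact ⟨pp w₁ w₂ h1, h1, h2⟩

theorem xc_eq {σ : F →+* ℂ} {c : Ideal (𝓞 F)} {L : PeriodPair} (h : PL σ c L) (D : ℕ)
    (z : 𝓞 F) : xc D σ c z = xP L (σ (z : F) / D) := by
  have hex : ∃ L : PeriodPair, Pos L.ω₁ L.ω₂ ∧
      ∀ w : ℂ, w ∈ L.lattice ↔ ∃ x ∈ c, σ (x : F) = w := ⟨L, h.pos, h.mem⟩
  unfold xc
  rw [dif_pos hex]
  have h1 := hex.choose_spec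
  have h2 := xP_smul L hex.choose h.pos h1.1 one_ne_zero (fun w => by
    rw [h1.2 w, ← h.mem w]
    simp) (σ (z : F) / D)
  rwa [one_mul] at h2

/-- multiplication by `D` in an ideal prime to `D` -/
theorem mem_of_mul_mem {D : ℕ} {c : Ideal (𝓞 F)} (hc : c ∈ idp (F := F) D) {t : 𝓞 F}
    (h : (D : 𝓞 F) * t ∈ c) : t ∈ c := by
  obtain ⟨a, ha, b, hb, hab⟩ := Ideal.isCoprime_iff_exists.1 hc.2
  obtain ⟨d, rfl⟩ := Ideal.mem_span_singleton.1 hb
  have h1 : t = t * a + d * (D * t) := by linear_combination -t * hab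
  rw [h1]
  exact c.add_mem (c.mul_mem_left _ ha) (c.mul_mem_left _ h)

theorem lf_spec {D : ℕ} {c : Ideal (𝓞 F)} (hc : c ∈ idp (F := F) D)
    (ρ : 𝓞 F ⧸ Ideal.span {(D : 𝓞 F)}) :
    lf D c ρ ∈ c ∧ Ideal.Quotient.mk (Ideal.span {(D : 𝓞 F)}) (lf D c ρ) = ρ := by
  have hex : ∃ z ∈ c, Ideal.Quotient.mk (Ideal.span {(D : 𝓞 F)}) z = ρ := by
    obtain ⟨x, rfl⟩ := Ideal.Quotient.mk_surjective ρ
    obtain ⟨a, ha, b, hb, hab⟩ := Ideal.isCoprime_iff_exists.1 hc.2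
    refine ⟨x * a, c.mul_mem_left _ ha, ?_⟩
    rw [Ideal.Quotient.eq]
    have h1 : x * a - x = -x * b := by linear_combination x * hab
    rw [h1]
    exact Ideal.mul_mem_left _ _ hb
  unfold lf
  rw [dif_pos hex]
  exact hex.choose_spec

end

end XcAux

open XcAux

theorem stXc (h1 : StXint) (h2 : StFldT) (_h3 : StRg) : StXc := by
  intro q F _ _ s σ D hF hT c hc
  have hodd : Odd D := by
    rw [← Nat.not_even_iff_odd, even_iff_two_dvd]
    intro h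
    have := hT.mod4 2 Nat.prime_two h
    norm_num at this
  have hD0 : (D : ℂ) ≠ 0 := by
    exact_mod_cast hodd.pos.ne'
  obtain ⟨L, hL⟩ := exists_PL hF σ hc.1
  refine ⟨fun M hM hM2 z => xc_eq ⟨hM, hM2⟩ D z, lf_spec hc, ?_, ?_, ?_, ?_⟩
  · intro z hz z' hz' hdvd
    obtain ⟨t, ht⟩ := hdvd
    have htc : t ∈ c := mem_of_mul_mem hc (by rw [← ht]; exact c.sub_mem hz hz')
    rw [xc_eq hL, xc_eq hL]
    unfold xP
    have h3 : σ (z : F) / D = σ (z' : F) / D + σ (t : F) := by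
      have h4 : (z : F) = z' + D * t := by
        have h5 := congrArg (fun x : 𝓞 F => (x : F)) ht
        push_cast at h5
        linear_combination h5
      rw [h4, map_add, map_mul, map_natCast]
      field_simp
    rw [h3, L.weierstrassP_add_coe _ ⟨σ (t : F), (hL.mem _).2 ⟨t, htc, rfl⟩⟩]
  · intro z hz
    rw [xc_eq hL, xc_eq hL]
    unfold xP
    push_cast
    rw [map_neg, neg_div, L.weierstrassP_neg]
  · intro y z hy
    have hy1 : σ (y : F) ≠ 0 := by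
      rw [_root_.map_ne_zero]
      exact_mod_cast hy
    have hne : Ideal.span {y} * c ≠ ⊥ := by
      rw [Ne, Ideal.mul_eq_bot, not_or]
      exact ⟨by rwa [Ideal.span_singleton_eq_bot], hc.1⟩
    obtain ⟨M, hM⟩ := exists_PL hF σ hne
    rw [xc_eq hL, xc_eq hM]
    have h3 : σ ((y * z : 𝓞 F) : F) / D = σ (y : F) * (σ (z : F) / D) := by
      push_cast
      rw [map_mul, mul_div_assoc]
    rw [h3]
    refine xP_smul L M hL.pos hM.pos hy1 (fun w => ?_) _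
    rw [hM.mem w]
    constructor
    · rintro ⟨x, hx, rfl⟩
      obtain ⟨u, hu, rfl⟩ := Ideal.mem_span_singleton_mul.1 hx
      exact ⟨σ (u : F), (hL.mem _).2 ⟨u, hu, rfl⟩, by push_cast; rw [map_mul]⟩
    · rintro ⟨l, hl, rfl⟩
      obtain ⟨u, hu, rfl⟩ := (hL.mem _).1 hl
      exact ⟨y * u, Ideal.mem_span_singleton_mul.2 ⟨u, hu, rfl⟩, by push_cast; rw [map_mul]⟩
  · intro A hA z hz hnd
    rw [xc_eq hL]
    obtain ⟨P, -, -, hP⟩ := h2 q F _ _ s σ A hF hA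
    have hT1 : TwA q 1 :=
      ⟨squarefree_one, fun r hr h => absurd (Nat.dvd_one.1 h) hr.ne_one,
        fun r hr h => absurd (Nat.dvd_one.1 h) hr.ne_one⟩
    have hc1 : c ∈ idp (F := F) 1 := ⟨hc.1, by
      rw [Nat.cast_one, Ideal.span_singleton_one, ← Ideal.one_eq_top]
      exact isCoprime_one_right⟩
    have hB : IsBD 1 σ c L.ω₁ L.ω₂ := by
      refine ⟨hL.pos, fun w => ?_⟩
      refine (hL.mem w).trans ?_
      constructor
      · rintro ⟨x, hx, rfl⟩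
        exact ⟨x, ⟨hx, 0, by simp⟩, rfl⟩
      · rintro ⟨x, hx, rfl⟩
        exact ⟨x, hx.1, rfl⟩
    have hO := ((hP 1 hT1).2.1 c hc1 _ _ hB).1
    refine h1 A L hA hO D _ hodd ?_ ?_
    · rw [mul_div_cancel₀ _ hD0]
      exact (hL.mem _).2 ⟨z, hz, rfl⟩
    · intro h
      obtain ⟨t, -, ht⟩ := (hL.mem _).1 h
      apply hnd
      refine ⟨t, ?_⟩
      have h3 : σ (z : F) = σ ((D * t : 𝓞 F) : F) := by
        push_cast
        rw [map_mul, map_natCast, ht]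
        field_simp
      have h4 := σ.injective h3
      exact_mod_cast h4

end Pool.Agent.Lib.MP_7c08ba_nt.CN.TW
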