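import Pool.Agent.Lib.MP_7c08ba_nt.CN.T.StP
import Pool.Agent.Lib.MP_7c08ba_nt.RZ.C.Level

set_option autoImplicit false

/-!
Project TW, module Xf: the Frobenius and the values of `x` at the points of order dividing `D`.
-/

namespace Pool.Agent.Lib.MP_7c08ba_nt.CN.TW

open NumberField IsDedekindDomain Polynomial RZC
open scoped nonZeroDivisors ComplexConjugate

namespace XfAux

variable {F : Type} [Field F] [NumberField F]

lemma norm_span_nat (hF : Module.finrank ℚ F = 2) (m : ℕ) :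
    Ideal.absNorm (Ideal.span {(m : 𝓞 F)}) = m ^ 2 := by
  rw [Ideal.absNorm_span_natCast, RingOfIntegers.rank, hF]

lemma norm_span_two (hF : Module.finrank ℚ F = 2) :
    Ideal.absNorm (Ideal.span {(2 : 𝓞 F)}) = 4 := by
  have h := norm_span_nat hF 2
  rw [Nat.cast_ofNat] at h
  exact h

lemma mem_latD_one (a : Ideal (𝓞 F)) (x : 𝓞 F) : x ∈ latD 1 a ↔ x ∈ a := by
  constructor
  · exact fun h => h.1
  · exact fun h => ⟨h, 0, by simp⟩

lemma twA_one (q : ℕ) : TwA q 1 where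
  sqf := squarefree_one
  mod4 r hr h := absurd (Nat.dvd_one.1 h) hr.one_lt.ne'
  inert r hr h := absurd (Nat.dvd_one.1 h) hr.one_lt.ne'

lemma twA_odd {q D : ℕ} (h : TwA q D) : Odd D := by
  rw [← Nat.not_even_iff_odd, even_iff_two_dvd]
  intro h2
  have := h.mod4 2 Nat.prime_two h2
  omega

lemma mem_idp_one {I : Ideal (𝓞 F)} (h : I ≠ ⊥) : I ∈ idp (F := F) 1 := by
  refine ⟨h, ?_⟩
  rw [Nat.cast_one, Ideal.span_singleton_one, ← Ideal.one_eq_top]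
  exact isCoprime_one_right

lemma mem_lattice {σ : F →+* ℂ} {a : Ideal (𝓞 F)} {w₁ w₂ : ℂ} (h : IsBD 1 σ a w₁ w₂) (w : ℂ) :
    w ∈ (Level.pp w₁ w₂ h.1).lattice ↔ ∃ x ∈ a, σ (x : F) = w := by
  have h1 := h.2 w
  simp only [mem_latD_one] at h1
  exact h1

lemma dvd_of_div_eq {D : ℕ} (hD0 : D ≠ 0) (hcop : Nat.Coprime 2 D) (σ : F →+* ℂ) (x z : 𝓞 F)
    (hxe : σ (x : F) = σ ((2 * z : 𝓞 F) : F) / D) : (D : 𝓞 F) ∣ z := by
  have hDC : (D : ℂ) ≠ 0 := Nat.cast_ne_zero.2 hD0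
  have h6 : σ ((x * (D : 𝓞 F) : 𝓞 F) : F) = σ ((2 * z : 𝓞 F) : F) := by
    rw [eq_div_iff hDC] at hxe
    rw [← hxe, RingOfIntegers.coe_eq_algebraMap, map_mul, map_mul, map_natCast, map_natCast]
  have h7 : x * (D : 𝓞 F) = 2 * z := by
    apply RingOfIntegers.ext
    exact σ.injective h6
  have h8 : IsCoprime (D : 𝓞 F) 2 := by
    have h9 : IsCoprime (D : ℤ) 2 := by
      have := (Nat.isCoprime_iff_coprime.2 hcop.symm)
      exact_mod_cast this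
    have h10 := h9.map (Int.castRingHom (𝓞 F))
    simpa using h10
  exact h8.dvd_of_dvd_mul_left ⟨x, by rw [← h7, mul_comm]⟩

end XfAux

open XfAux in
/-- (Xf) -/
theorem stXf (h1 : StXc) (h2 : StFldT) (h3 : StAdaptT) (h4 : StFrb) (h5 : StRg) : StXf := by
  intro q F _ _ s σ A hF hA
  obtain ⟨P, hPp, hPn, hP⟩ := h2 q F _ _ s σ A hF hA
  have hfin : Module.finrank ℚ F = 2 := hF.2.2.1
  have hP2 : (2 : 𝓞 F) ∈ P := by
    have h := Ideal.absNorm_mem P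
    rw [hPn] at h
    exact_mod_cast h
  obtain ⟨P', hP'⟩ : P ∣ Ideal.span {(2 : 𝓞 F)} := Ideal.dvd_span_singleton.2 hP2
  have hn : Ideal.absNorm P' = 2 := by
    have h := congrArg Ideal.absNorm hP'
    rw [map_mul, hPn, norm_span_two hfin] at h
    omega
  refine ⟨P, P', hP'.symm, hPn, hn, fun D hD => ?_⟩
  have hodd := twA_odd hD
  have hD0 : D ≠ 0 := hodd.pos.ne'
  have hcop : Nat.Coprime 2 D := (Nat.coprime_two_left).2 hodd
  have hid := (h5 F inferInstance inferInstance D hD0).2.2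
  have hP'D : P' ∈ idp (F := F) D := by
    refine (hid P').2 ⟨?_, by rw [hn]; exact hcop⟩
    rintro rfl
    simp at hn
  have h2D : Ideal.span {(2 : 𝓞 F)} ∈ idp (F := F) D := by
    refine (hid _).2 ⟨?_, ?_⟩
    · rw [Ne, Ideal.span_singleton_eq_bot]
      exact two_ne_zero
    · rw [norm_span_two hfin]
      exact Nat.Coprime.pow_left 2 hcop
  refine ⟨hP'D, fun c hc z hz hDz => ?_⟩
  have hone : TwA q 1 := twA_one q
  have hb : P' * c ∈ idp (F := F) D := (idp D).mul_mem hP'D hc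
  have h2c : Ideal.span {(2 : 𝓞 F)} * c ∈ idp (F := F) D := (idp D).mul_mem h2D hc
  have hb1 : P' * c ∈ idp (F := F) 1 := mem_idp_one hb.1
  obtain ⟨-, w₁, w₂, -, hB1, hB0⟩ := h3 q F _ _ s 1 σ P (P' * c) hF hone hPp hPn hb1
  obtain ⟨-, hOrd, hXX⟩ := hP 1 hone
  have hPb : P * (P' * c) = Ideal.span {(2 : 𝓞 F)} * c := by rw [← mul_assoc, hP']
  have hPb1 : P * (P' * c) ∈ idp (F := F) 1 := mem_idp_one (by rw [hPb]; exact h2c.1)
  have hB0' : IsBD 1 σ (P' * c) w₁ (w₂ / 2 / 2) := by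
    have e : w₂ / 2 / 2 = w₂ / 4 := by ring
    rw [e]
    exact hB0
  obtain ⟨hx1, hx2⟩ := hXX _ hb1 w₁ (w₂ / 2) hB1 hB0'
  have hO := (hOrd _ hPb1 w₁ (w₂ / 2) hB1).1
  have hL := mem_lattice hB1
  have hM := mem_lattice hB0'
  obtain ⟨a1, -, -, -, -, -⟩ := h1 q F _ _ s σ D hF hD (Ideal.span {(2 : 𝓞 F)} * c) h2c
  obtain ⟨b1, -, -, -, -, -⟩ := h1 q F _ _ s σ D hF hD (P' * c) hb
  obtain ⟨-, -, -, -, c5, c6⟩ := h1 q F _ _ s σ D hF hD c hc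
  have e1 : xP (Level.pp w₁ (w₂ / 2) hB1.1) (σ ((2 * z : 𝓞 F) : F) / D) = xc D σ c z := by
    rw [← a1 (Level.pp w₁ (w₂ / 2) hB1.1) hB1.1 (by rw [← hPb]; exact hL) (2 * z),
      c5 2 z two_ne_zero]
  have e2 : xP (Level.pp w₁ (w₂ / 2 / 2) hB0'.1) (σ ((2 * z : 𝓞 F) : F) / D) =
      xc D σ (P' * c) (2 * z) :=
    (b1 (Level.pp w₁ (w₂ / 2 / 2) hB0'.1) hB0'.1 hM (2 * z)).symm
  have hw : σ ((2 * z : 𝓞 F) : F) / D ∉ (Level.pp w₁ (w₂ / 2 / 2) hB0'.1).lattice := by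
    intro h
    obtain ⟨x, hx, hxe⟩ := (hM _).1 h
    exact hDz (dvd_of_div_eq hD0 hcop σ x z hxe)
  have h12 : xP (Level.pp w₁ (w₂ / 2) hB1.1) (σ ((2 * z : 𝓞 F) : F) / D) ∈ A := by
    rw [e1]; exact c6 A hA z hz hDz
  have h11 := h4 A (Level.pp w₁ (w₂ / 2) hB1.1) (Level.pp w₁ (w₂ / 2 / 2) hB0'.1) hA hO rfl rfl
    hx1 hx2 (σ ((2 * z : 𝓞 F) : F) / D) hw h12
  rw [e1, e2] at h11
  exact h11

end Pool.Agent.Lib.MP_7c08ba_nt.CN.TW
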