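import Pool.Agent.Lib.MP_7c08ba_nt.CN.T.StZ

set_option autoImplicit false

/-!
Project TW, module (Z9): the central value of the twist as a sum over the principal genus.
-/

namespace Pool.Agent.Lib.MP_7c08ba_nt.CN.TW

open NumberField IsDedekindDomain Polynomial Pool.Agent.Lib.MP_7c08ba_nt.RZ
open scoped nonZeroDivisors ComplexConjugate

namespace ZTAux

/-- multiplication by a number prime to `D` permutes the residues -/
lemma sum_mul_mod (D b : ℕ) (h : b.Coprime D) (T : ℕ → ℂ) :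
    ∑ t ∈ Finset.range D, T t = ∑ c ∈ Finset.range D, T ((c * b) % D) := by
  rcases Nat.eq_zero_or_pos D with h0 | h0
  · rw [h0]
    simp
  have hinj : ∀ x ∈ Finset.range D, ∀ y ∈ Finset.range D,
      (x * b) % D = (y * b) % D → x = y := by
    intro x hx y hy hxy
    have h1 : x * b ≡ y * b [MOD D] := hxy
    have h2 : x ≡ y [MOD D] := Nat.ModEq.cancel_right_of_coprime h.symm h1
    have h3 : x % D = y % D := h2
    rwa [Nat.mod_eq_of_lt (Finset.mem_range.1 hx), Nat.mod_eq_of_lt (Finset.mem_range.1 hy)] at h3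
  have himg : (Finset.range D).image (fun c => (c * b) % D) = Finset.range D := by
    apply Finset.eq_of_subset_of_card_le
    · intro x hx
      obtain ⟨y, -, hy⟩ := Finset.mem_image.1 hx
      rw [← hy]
      exact Finset.mem_range.2 (Nat.mod_lt _ h0)
    · rw [Finset.card_image_of_injOn (fun x hx y hy hxy => hinj x hx y hy hxy)]
  conv_lhs => rw [← himg]
  exact Finset.sum_image hinj

lemma coprime_two_q {q D : ℕ} (hq : q.Prime) (hD : TwA q D) : (2 * q).Coprime D := by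
  apply Nat.Coprime.symm
  apply Nat.coprime_of_dvd
  intro r hr hrD h2
  rcases (Nat.Prime.dvd_mul hr).1 h2 with h | h
  · have h3 := (Nat.prime_dvd_prime_iff_eq hr Nat.prime_two).1 h
    have h4 := hD.mod4 r hr hrD
    omega
  · have h3 := (Nat.prime_dvd_prime_iff_eq hr hq).1 h
    have h4 := hD.inert r hr hrD
    rw [h3] at h4
    have hz : NeZero q := ⟨hq.ne_zero⟩
    have h5 : jacobiSym (q : ℤ) q = 0 := by
      rw [jacobiSym.eq_zero_iff_not_coprime]
      rw [Int.gcd_self]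
      exact hq.one_lt.ne'
    rw [h5] at h4
    exact absurd h4 (by decide)

end ZTAux

open ZTAux in
/-- (Z9) the central value as a sum over the principal genus -/
theorem stZT (h1 : StGex) (h2 : StLsT) (h3 : StLnk) (h4 : StSumG) (h5 : StW) (h6 : StGch)
    (h7 : StRg) : StZT := by
  intro q F iF iN s σ χ cj n D φ E hd hg hD
  obtain ⟨G, hG⟩ := h1 q F iF iN s σ χ cj n D φ E hd hg hD
  refine ⟨fun z => ∑ᶠ B : RC F D, (chr B : ℂ) * G B z,
    h2 q F iF iN s σ χ cj n D φ E G hd hg hD hG, ?_⟩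
  intro R X α β hR hcl
  change ∃ C : ℂ, C * (∑ᶠ B : RC F D, (chr B : ℂ) * G B 0) = _
  have hD0 : D ≠ 0 := hD.sqf.ne_zero
  obtain ⟨hfin, -, -⟩ := h7 F iF iN D hD0
  have hfG : Finite (GC F D) := Subtype.finite
  have iFt : Fintype (GC F D) := Fintype.ofFinite _
  choose κ hκ using h4 q F iF iN s σ χ cj n D φ E G hd hg hD hG
  generalize (∑ᶠ B : RC F D, (chr B : ℂ) * G B 0) = Λ₀ at hκ ⊢
  obtain ⟨-, w2, w3, -, -⟩ := h5 q D hD
  have hq : 0 < q := hd.prime.pos
  have hcop : (2 * q).Coprime D := coprime_two_q hd.prime hD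
  obtain ⟨i, hi⟩ : ∃ i : ℤ, (D : ℤ) ∣ 2 * q * i - 1 := by
    have h : IsCoprime ((2 * q : ℕ) : ℤ) (D : ℤ) := Nat.isCoprime_iff_coprime.2 hcop
    obtain ⟨u, v, huv⟩ := h
    refine ⟨u, -v, ?_⟩
    push_cast at huv
    linear_combination huv
  set K : ℂ := (φ (Ideal.span {(D : 𝓞 F)}))⁻¹ * (D : ℂ) ^ (n + 1) *
    ((2 * Real.sqrt q : ℂ) ^ (n + 1))⁻¹ with hK
  have hne : ∀ t : ℤ, (t : 𝓞 F) - s ≠ 0 := by
    intro t h0
    have e1 : s = (t : 𝓞 F) := (sub_eq_zero.1 h0).symm
    have e2 := hd.sq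
    rw [e1] at e2
    have e5 : ((t ^ 2 : ℤ) : 𝓞 F) = ((-(q : ℤ) : ℤ) : 𝓞 F) := by
      push_cast
      exact e2
    have e3 : t ^ 2 = -(q : ℤ) := Int.cast_injective e5
    have e4 : (0 : ℤ) < q := by exact_mod_cast hq
    nlinarith [sq_nonneg t]
  have key : ∀ A : GC F D, (φ (R A))⁻¹ * φ (Ideal.span {(β A : 𝓞 F)}) *
      ((σ (X A) / (q * D ^ 2 * β A)).im : ℂ) ^ (2 * n + 1) *
      conj (∑ c ∈ Finset.range D, wH D c * E (-n) (σ (X A) / (q * D ^ 2 * β A) + c / D)) =
      ∑ t ∈ Finset.range D, conj (wH D ((t : ℤ) * i)) *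
        (K * G (cl D (Ideal.span {((t : ℤ) : 𝓞 F) - s}) * A.1) 0) := by
    intro A
    have hβ : ∀ r : ℕ, r.Prime → r ∣ D → jacobiSym (β A) r = 1 := by
      intro r hr hrD
      have h := ((h6 q F iF iN s σ χ cj D hd hD).2.2.1 (R A) (hR A).mem).2.1.1
        (by rw [hcl A]; exact A.2) r hr hrD
      rwa [(hR A).norm] at h
    have hb : (2 * q * β A).Coprime D :=
      Nat.Coprime.mul_left hcop ((hR A).cop.coprime_dvd_right (Dvd.intro_left q rfl))
    conv_rhs => rw [sum_mul_mod D (2 * q * β A) hb]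
    rw [map_sum, Finset.mul_sum]
    refine Finset.sum_congr rfl fun c _ => ?_
    set t : ℕ := (c * (2 * q * β A)) % D with ht
    have ht1 : (D : ℤ) ∣ (t : ℤ) - c * (2 * q * β A) := by
      have h := (Nat.modEq_iff_dvd.1 (Nat.mod_modEq (c * (2 * q * β A)) D).symm)
      push_cast at h
      push_cast [ht]
      exact h
    have hw : wH D ((t : ℤ) * i) = wH D c := by
      rw [← w3 c (β A) hβ]
      refine w2 _ _ ?_
      obtain ⟨a, ha⟩ := ht1
      obtain ⟨b, hb'⟩ := hi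
      refine ⟨a * i + c * β A * b, ?_⟩
      linear_combination i * ha + c * β A * hb'
    have hL := h3 q F iF iN s σ χ cj n D φ E G hd hg hD hG (R A) (X A) (α A) (β A) c t
      ((t : ℤ) - s) (hR A) (by
        have e : (t : ℤ) - 2 * c * q * β A = (t : ℤ) - c * (2 * q * β A) := by ring
        rw [e]
        exact ht1) (hne t) (by rw [sub_self]; exact dvd_zero _)
    rw [hcl A, ← hK] at hL
    rw [hw, ← hL, map_mul, Int.cast_natCast]
    ring
  refine ⟨∑ t ∈ Finset.range D, conj (wH D ((t : ℤ) * i)) *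
    (K * κ (cl D (Ideal.span {((t : ℤ) : 𝓞 F) - s}))), ?_⟩
  rw [finsum_congr key, finsum_eq_sum_of_fintype, Finset.sum_comm, Finset.sum_mul]
  refine Finset.sum_congr rfl fun t _ => ?_
  have e1 := hκ (cl D (Ideal.span {((t : ℤ) : 𝓞 F) - s}))
  rw [finsum_eq_sum_of_fintype] at e1
  rw [← Finset.mul_sum, ← Finset.mul_sum, e1]
  ring

end Pool.Agent.Lib.MP_7c08ba_nt.CN.TW
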