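import Pool.Agent.Lib.MP_7c08ba_nt.CN.OAll
import Pool.Agent.Lib.MP_7c08ba_nt.CN.PAll
import Pool.Agent.Lib.MP_7c08ba_nt.CN.T.AdaptT
import Pool.Agent.Lib.MP_7c08ba_nt.CN.T.AnTE
import Pool.Agent.Lib.MP_7c08ba_nt.CN.T.AnTO
import Pool.Agent.Lib.MP_7c08ba_nt.CN.T.BijT
import Pool.Agent.Lib.MP_7c08ba_nt.CN.T.CMT
import Pool.Agent.Lib.MP_7c08ba_nt.CN.T.ChainT
import Pool.Agent.Lib.MP_7c08ba_nt.CN.T.CntK
import Pool.Agent.Lib.MP_7c08ba_nt.CN.T.CntT
import Pool.Agent.Lib.MP_7c08ba_nt.CN.T.Dis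
import Pool.Agent.Lib.MP_7c08ba_nt.CN.T.Fib
import Pool.Agent.Lib.MP_7c08ba_nt.CN.T.FldT
import Pool.Agent.Lib.MP_7c08ba_nt.CN.T.Flip
import Pool.Agent.Lib.MP_7c08ba_nt.CN.T.Frb
import Pool.Agent.Lib.MP_7c08ba_nt.CN.T.GenE
import Pool.Agent.Lib.MP_7c08ba_nt.CN.T.Gex
import Pool.Agent.Lib.MP_7c08ba_nt.CN.T.GoodE
import Pool.Agent.Lib.MP_7c08ba_nt.CN.T.HkT
import Pool.Agent.Lib.MP_7c08ba_nt.CN.T.InvT
import Pool.Agent.Lib.MP_7c08ba_nt.CN.T.InvTO
import Pool.Agent.Lib.MP_7c08ba_nt.CN.T.JB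
import Pool.Agent.Lib.MP_7c08ba_nt.CN.T.JV
import Pool.Agent.Lib.MP_7c08ba_nt.CN.T.JsT
import Pool.Agent.Lib.MP_7c08ba_nt.CN.T.Lnk
import Pool.Agent.Lib.MP_7c08ba_nt.CN.T.LsT
import Pool.Agent.Lib.MP_7c08ba_nt.CN.T.LtT
import Pool.Agent.Lib.MP_7c08ba_nt.CN.T.NVT
import Pool.Agent.Lib.MP_7c08ba_nt.CN.T.OmT
import Pool.Agent.Lib.MP_7c08ba_nt.CN.T.OrdT
import Pool.Agent.Lib.MP_7c08ba_nt.CN.T.PaTO
import Pool.Agent.Lib.MP_7c08ba_nt.CN.T.PairT
import Pool.Agent.Lib.MP_7c08ba_nt.CN.T.PairTO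
import Pool.Agent.Lib.MP_7c08ba_nt.CN.T.RepT
import Pool.Agent.Lib.MP_7c08ba_nt.CN.T.Rg
import Pool.Agent.Lib.MP_7c08ba_nt.CN.T.Sig
import Pool.Agent.Lib.MP_7c08ba_nt.CN.T.SysT
import Pool.Agent.Lib.MP_7c08ba_nt.CN.T.ThT
import Pool.Agent.Lib.MP_7c08ba_nt.CN.T.Tor
import Pool.Agent.Lib.MP_7c08ba_nt.CN.T.UnitT
import Pool.Agent.Lib.MP_7c08ba_nt.CN.T.Vel
import Pool.Agent.Lib.MP_7c08ba_nt.CN.T.W
import Pool.Agent.Lib.MP_7c08ba_nt.CN.T.Xc
import Pool.Agent.Lib.MP_7c08ba_nt.CN.T.Xint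
import Pool.Agent.Lib.MP_7c08ba_nt.CN.T.ZT
import Pool.Agent.Lib.MP_7c08ba_nt.CN.T.Gch
import Pool.Agent.Lib.MP_7c08ba_nt.CN.T.CntY
import Pool.Agent.Lib.MP_7c08ba_nt.CN.T.Xf
import Pool.Agent.Lib.MP_7c08ba_nt.CN.T.Dup
import Pool.Agent.Lib.MP_7c08ba_nt.CN.T.Tsum
import Pool.Agent.Lib.MP_7c08ba_nt.CN.T.PaTE
import Pool.Agent.Lib.MP_7c08ba_nt.CN.T.GoodO
import Pool.Agent.Lib.MP_7c08ba_nt.CN.T.TE
import Pool.Agent.Lib.MP_7c08ba_nt.CN.T.SumG
import Pool.Agent.Lib.MP_7c08ba_nt.CN.T.GenO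

set_option autoImplicit false

/-!
Project TW: assembly.
-/

namespace Pool.Agent.Lib.MP_7c08ba_nt.CN.TW

open NumberField IsDedekindDomain

namespace T

theorem rg : StRg := stRg
theorem gch : StGch := stGch rg
theorem cntY : StCntY := stCntY rg
theorem dup : StDup := stDup
theorem repT : StRepT := stRepT rg
theorem fib : StFib := stFib rg gch
theorem cntK : StCntK := stCntK
theorem tor : StTor := stTor rg gch
theorem bijT : StBijT := stBijT rg gch tor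
theorem sysT : StSysT := stSysT rg gch repT tor
theorem goodE : StGoodE := stGoodE stEisF A.cj A.bas RZ.stEisA
theorem goodO : StGoodO := stGoodO stEisF O.cj A.bas RZ.stEisA
theorem gex : StGex := stGex repT gch
theorem hkT : StHkT := stHkT gex gch cntK repT rg
theorem lsT : StLsT := stLsT A.dec fib cntY gch rg A.base stRepM
theorem lnk : StLnk := stLnk gch rg
theorem w : StW := stW
theorem sumG : StSumG := stSumG hkT gch rg cntK
theorem zT : StZT := stZT gex lsT lnk sumG w gch rg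
theorem thT : StThT := stThT gch rg
theorem cntT : StCntT := stCntT fib cntY gch rg
theorem genE : StGenE := stGenE cntT w
theorem genO : StGenO := stGenO cntT w
theorem invT : StInvT := stInvT thT gch rg
theorem invTO : StInvTO := stInvTO thT gch rg
theorem omT : StOmT := stOmT
theorem cMT : StCMT := stCMT rg
theorem pairT : StPairT := stPairT cMT
theorem pairTO : StPairTO := stPairTO cMT
theorem anTE : StAnTE :=
  stAnTE omT cMT invT pairT genE zT goodE bijT gch rg A.eisTh A.base stRepM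
theorem anTO : StAnTO :=
  stAnTO omT cMT invTO pairTO genO zT goodO bijT gch rg A.eisTh (stHkO (RZ.stEisAt RZ.stEisA))
    A.base
theorem adaptT : StAdaptT := stAdaptT rg
theorem chainT : StChainT := stChainT adaptT rg
theorem unitT : StUnitT := stUnitT
theorem ordT : StOrdT := stOrdT RZC.stLat RZC.pLevel RZC.pE2rel RZC.stE2Lat
theorem fldT : StFldT := stFldT adaptT chainT unitT ordT rg gch
theorem vel : StVel := stVel stSig
theorem xint : StXint := stXint dup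
theorem jV : StJV := stJV vel
theorem frb : StFrb := stFrb
theorem dis : StDis := stDis vel xint
theorem xc : StXc := stXc xint fldT rg
theorem jB : StJB := stJB xc jV fldT rg
theorem xf : StXf := stXf xc fldT adaptT frb rg
theorem te : StTE := stTE xc xf rg
theorem tsum : StTsum := stTsum fib cntY xc gch rg
theorem flip : StFlip := stFlip xc dis fldT rg
theorem jsT : StJsT := stJsT te flip tsum jB gch rg fldT P.jsum
theorem ltT : StLtT := stLtT tor gch rg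
theorem paTO : StPaTO := stPaTO fldT ltT jsT rg
theorem paTE : StPaTE := stPaTE fldT ltT jsT tor P.pt P.hth P.th4

end T

/-- **The central values of the twists are not zero.** -/
theorem aNVT : StNVT := stNVT (stAnT T.anTE T.anTO) T.sysT (stPaT T.paTE T.paTO)

end Pool.Agent.Lib.MP_7c08ba_nt.CN.TW
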