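import Mathlib
import Pool.Agent.Lib.MP_7c08ba_nt.CN.DefsO

set_option autoImplicit false

/-!
Project TW: central values of the quadratic twists of canonical Hecke characters of `ℚ(√-q)`,
`q ≡ 7 (mod 16)` prime.  Definitions and the statements which connect the analytic part and the
`2`-adic part.  Plan: team store `tw_plan.md`.
-/

namespace Pool.Agent.Lib.MP_7c08ba_nt.CN.TW

open NumberField IsDedekindDomain Polynomial Pool.Agent.Lib.MP_7c08ba_nt.RZ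
open scoped nonZeroDivisors ComplexConjugate

/-- The conductors. -/
structure TwA (q D : ℕ) : Prop where
  sqf : Squarefree D
  mod4 : ∀ r : ℕ, r.Prime → r ∣ D → r % 4 = 1
  inert : ∀ r : ℕ, r.Prime → r ∣ D → jacobiSym r q = -1

section

variable {F : Type} [Field F] [NumberField F]

/-- The twist of a character by the quadratic character `(·/D)` of the norm. -/
noncomputable def twist (D : ℕ) (φ : Ideal (𝓞 F) →*₀ ℂ) : Ideal (𝓞 F) →*₀ ℂ where
  toFun a := φ a * (jacobiSym (Ideal.absNorm a) D : ℂ)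
  map_zero' := by rw [map_zero, zero_mul]
  map_one' := by
    rw [map_one, map_one, Nat.cast_one, jacobiSym.one_left, Int.cast_one, mul_one]
  map_mul' a b := by
    rw [map_mul, map_mul, Nat.cast_mul, jacobiSym.mul_left]
    push_cast
    ring

/-- The nonzero ideals prime to `D`. -/
def idp (D : ℕ) : Submonoid (Ideal (𝓞 F)) where
  carrier := {I | I ≠ ⊥ ∧ IsCoprime I (Ideal.span {(D : 𝓞 F)})}
  mul_mem' := by
    rintro I J ⟨h1, h2⟩ ⟨h3, h4⟩
    exact ⟨mul_ne_zero h1 h3, h2.mul_left h4⟩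
  one_mem' := ⟨one_ne_zero, isCoprime_one_left⟩

/-- The nonzero integers of the field which are congruent modulo `D` to a rational integer prime
to `D`. -/
def Rat (D : ℕ) (x : 𝓞 F) : Prop :=
  x ≠ 0 ∧ ∃ c : ℤ, IsCoprime c (D : ℤ) ∧ (D : 𝓞 F) ∣ x - c

theorem Rat.one (D : ℕ) : Rat D (1 : 𝓞 F) := ⟨one_ne_zero, 1, isCoprime_one_left, by simp⟩

theorem Rat.mul {D : ℕ} {x y : 𝓞 F} (hx : Rat D x) (hy : Rat D y) : Rat D (x * y) := by
  obtain ⟨hx0, c, hc, u, hu⟩ := hx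
  obtain ⟨hy0, d, hd, v, hv⟩ := hy
  refine ⟨mul_ne_zero hx0 hy0, c * d, hc.mul_left hd, u * y + c * v, ?_⟩
  push_cast
  linear_combination y * hu + (c : 𝓞 F) * hv

/-- The ring class equivalence of conductor `D`. -/
def rcCon (D : ℕ) : Con (idp (F := F) D) where
  r I J := ∃ x y : 𝓞 F, Rat D x ∧ Rat D y ∧
    Ideal.span {x} * (I : Ideal (𝓞 F)) = Ideal.span {y} * (J : Ideal (𝓞 F))
  iseqv :=
    { refl := fun _ => ⟨1, 1, Rat.one D, Rat.one D, rfl⟩
      symm := by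
        rintro I J ⟨x, y, hx, hy, h⟩
        exact ⟨y, x, hy, hx, h.symm⟩
      trans := by
        rintro I J K ⟨x, y, hx, hy, h⟩ ⟨x', y', hx', hy', h'⟩
        refine ⟨x' * x, y * y', hx'.mul hx, hy.mul hy', ?_⟩
        rw [← Ideal.span_singleton_mul_span_singleton, ← Ideal.span_singleton_mul_span_singleton,
          mul_assoc, h, mul_left_comm, h', mul_assoc] }
  mul' := by
    rintro I J I' J' ⟨x, y, hx, hy, h⟩ ⟨x', y', hx', hy', h'⟩
    refine ⟨x * x', y * y', hx.mul hx', hy.mul hy', ?_⟩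
    rw [← Ideal.span_singleton_mul_span_singleton, ← Ideal.span_singleton_mul_span_singleton,
      Submonoid.coe_mul, Submonoid.coe_mul, mul_mul_mul_comm, h, h', mul_mul_mul_comm]

variable (F) in
/-- The ring class group of conductor `D`. -/
abbrev RC (D : ℕ) : Type := (rcCon (F := F) D).Quotient

open Classical in
/-- The class of an ideal prime to `D` (and `1` for the other ideals). -/
noncomputable def cl (D : ℕ) (I : Ideal (𝓞 F)) : RC F D :=
  if h : I ∈ idp (F := F) D then ((⟨I, h⟩ : idp (F := F) D) : RC F D) else 1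

/-- The principal genus: the classes on which all the characters `(N/r)`, `r ∣ D` prime, are
trivial. -/
def Gen (D : ℕ) (A : RC F D) : Prop :=
  ∃ I ∈ idp (F := F) D, cl D I = A ∧
    ∀ r : ℕ, r.Prime → r ∣ D → jacobiSym (Ideal.absNorm I) r = 1

variable (F) in
/-- The principal genus as a type. -/
abbrev GC (D : ℕ) : Type := {A : RC F D // Gen D A}

/-- A representative. -/
noncomputable def rp {D : ℕ} (A : RC F D) : Ideal (𝓞 F) :=
  ((Quotient.out A : idp (F := F) D) : Ideal (𝓞 F))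

/-- The quadratic character `(N/D)` on the ring class group. -/
noncomputable def chr {D : ℕ} (A : RC F D) : ℤ := jacobiSym (Ideal.absNorm (rp A)) D

/-- The elements of an ideal which are congruent to rational integers modulo `D`. -/
def latD (D : ℕ) (a : Ideal (𝓞 F)) : Set (𝓞 F) := {x | x ∈ a ∧ ∃ c : ℤ, (D : 𝓞 F) ∣ x - c}

/-- Representatives `(d A, g)`, `g = (b + D s) / 2`, of the classes of the principal genus. -/
structure SysT (q D : ℕ) (s : 𝓞 F) (b : ℤ) (g : 𝓞 F) (d : GC F D → ℕ) : Prop where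
  two : 2 * g = b + D * s
  dvd : (q : ℤ) ∣ b
  odd : ∀ A, Odd (d A)
  cop : ∀ A, (d A).Coprime (q * D)
  cls : ∀ A, cl D (idl g (d A)) = A.1
  sqr : ∀ A, ∃ e : ℕ, d A = e ^ 2 ∧ idl g (d A) = idl g e ^ 2

/-- The sum over the principal genus; the points are `σ g / (K d²)`. -/
noncomputable def SumT {D : ℕ} (σ : F →+* ℂ) (n K : ℕ) (g : 𝓞 F) (d : GC F D → ℕ)
    (φ : Ideal (𝓞 F) →*₀ ℂ) (h : ℂ → ℂ) : ℂ :=
  ∑ᶠ A : GC F D, φ (idl g (d A)) * ((d A : ℂ) ^ (n + 1))⁻¹ * h (σ g / (K * (d A : ℂ) ^ 2))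

/-- The two kinds of characters and theta series: `k = n + 1` odd or arbitrary. -/
def Kd (q : ℕ) (s : 𝓞 F) (σ : F →+* ℂ) (n : ℕ) (φ : Ideal (𝓞 F) →*₀ ℂ) (h : ℂ → ℂ) : Prop :=
  (Even n ∧ IsCan q s σ (2 * n + 1) φ ∧ h = hth n) ∨
    (Odd n ∧ IsCanO q s σ (2 * n + 1) φ ∧ h = hthO n)

end

/-- (AnT) the analytic part: the `L`-function of the twist and the factorisation of the central
value, `k = n + 1`. -/
def StAnT : Prop :=
  ∀ (q : ℕ) (_ : NeZero q) (F : Type) (_ : Field F) (_ : NumberField F) (s : 𝓞 F)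
    (σ : F →+* ℂ) (χ : DirichletCharacter ℂ q) (cj : 𝓞 F ≃+* 𝓞 F) (n D : ℕ)
    (φ : Ideal (𝓞 F) →*₀ ℂ) (h : ℂ → ℂ), RZ.Dat q s σ χ cj → TwA q D → Kd q s σ n φ h →
    ∃ Λ : ℂ → ℂ, IsLF (twist D φ) (n + 1) Λ ∧
      ∀ (e : ℕ) (b : ℤ) (g : 𝓞 F) (d d' : GC F D → ℕ), 1 ≤ e → Even e → SysT q D s b g d →
        SysT q D s b g d' →
        (∀ A B, (d A).Coprime (d' B) ∧
          (8 * 2 ^ e * ((d A : ℤ) * d' B) ^ 2 : ℤ) ∣ b ^ 2 + q * D ^ 2) →
        ∃ c : ℂ, c * Λ 0 = conj (SumT σ n (2 ^ e) g d φ h) * SumT σ n (2 ^ e) g d' φ h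

/-- (SysT) existence of the systems of representatives -/
def StSysT : Prop :=
  ∀ (q : ℕ) (F : Type) (_ : Field F) (_ : NumberField F) (s : 𝓞 F) (D : ℕ),
    RZC.FieldC q F (s : F) → TwA q D → ∀ P : Ideal (𝓞 F), P.IsPrime → Ideal.absNorm P = 2 →
    ∀ e : ℕ, ∃ (b : ℤ) (g : 𝓞 F) (d d' : GC F D → ℕ), SysT q D s b g d ∧ SysT q D s b g d' ∧
      g ∈ P ^ (e + 1) ∧
      (∀ A B, (d A).Coprime (d' B) ∧
        (8 * 2 ^ e * ((d A : ℤ) * d' B) ^ 2 : ℤ) ∣ b ^ 2 + q * D ^ 2)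

/-- (PaT) the `2`-adic part: the sums are not zero -/
def StPaT : Prop :=
  ∀ (q : ℕ) (F : Type) (_ : Field F) (_ : NumberField F) (s : 𝓞 F) (σ : F →+* ℂ)
    (A : ValuationSubring ℂ) (n D : ℕ) (φ : Ideal (𝓞 F) →*₀ ℂ) (h : ℂ → ℂ),
    RZC.FieldC q F (s : F) → TwA q D → D % 8 = 1 → 0 < (σ s).im → RZC.Above2 A →
    Kd q s σ n φ h → Res1 A s φ →
    ∃ (P : Ideal (𝓞 F)) (e : ℕ), P.IsPrime ∧ Ideal.absNorm P = 2 ∧ 1 ≤ e ∧ Even e ∧
      ∀ (b : ℤ) (g : 𝓞 F) (d : GC F D → ℕ), SysT q D s b g d → g ∈ P ^ (e + 1) →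
        (∀ C, (8 * 2 ^ e * ((d C : ℤ)) ^ 2 : ℤ) ∣ b ^ 2 + q * D ^ 2) →
        SumT σ n (2 ^ e) g d φ h ≠ 0

/-- (NVT) the central values of the twists are not zero: `k = n + 1` -/
def StNVT : Prop :=
  ∀ (q : ℕ) (F : Type) (_ : Field F) (_ : NumberField F) (s : 𝓞 F) (σ : F →+* ℂ)
    (A : ValuationSubring ℂ) (n D : ℕ) (φ : Ideal (𝓞 F) →*₀ ℂ), RZC.FieldC q F (s : F) →
    TwA q D → D % 8 = 1 → RZC.Above2 A →
    (Even n ∧ IsCan q s σ (2 * n + 1) φ ∨ Odd n ∧ IsCanO q s σ (2 * n + 1) φ) →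
    Res1 A s φ → ∃ Λ : ℂ → ℂ, IsLF (twist D φ) (n + 1) Λ ∧ Λ 0 ≠ 0

end Pool.Agent.Lib.MP_7c08ba_nt.CN.TW
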