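import Mathlib
import Pool.Agent.Lib.MP_7c08ba_nt.CN.T.StP
import Pool.Agent.Lib.MP_7c08ba_nt.RZ.Basic
import Pool.Agent.Lib.MP_7c08ba_nt.RZ.C.Link
import Pool.Agent.Lib.MP_7c08ba_nt.RZ.C.Odd
import Pool.Agent.Lib.MP_7c08ba_nt.RZ.C.Cycle

set_option autoImplicit false

/-!
Project TW, (V7): distribution relations modulo the maximal ideal.
-/

namespace Pool.Agent.Lib.MP_7c08ba_nt.CN.TW

open RZC

namespace DisAux

variable {L M : PeriodPair} {r : ℕ}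

/-- multiplication by `r` -/
noncomputable def eqv (hr : r ≠ 0) (h : ∀ z : ℂ, z ∈ M.lattice ↔ r * z ∈ L.lattice) :
    M.lattice ≃ L.lattice where
  toFun z := ⟨r * z, (h z).1 z.2⟩
  invFun z := ⟨z / r, (h _).2 (by
    rw [mul_div_cancel₀ _ (by exact_mod_cast hr)]
    exact z.2)⟩
  left_inv z := by
    ext
    change (r : ℂ) * z / r = z
    rw [mul_div_cancel_left₀ _ (by exact_mod_cast hr)]
  right_inv z := by
    ext
    change (r : ℂ) * (z / r) = z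
    rw [mul_div_cancel₀ _ (by exact_mod_cast hr)]

theorem P_eq (hr : r ≠ 0) (h : ∀ z : ℂ, z ∈ M.lattice ↔ r * z ∈ L.lattice) (z : ℂ) :
    M.weierstrassP z = r ^ 2 * L.weierstrassP (r * z) := by
  have hr' : (r : ℂ) ≠ 0 := by exact_mod_cast hr
  unfold PeriodPair.weierstrassP
  rw [← (eqv hr h).tsum_eq, ← tsum_mul_left]
  congr 1
  funext l
  have e : ∀ x : ℂ, 1 / x ^ 2 = r ^ 2 * (1 / (r * x) ^ 2) := by
    intro x
    rw [mul_pow, one_div, one_div, mul_inv, mul_inv_cancel_left₀ (pow_ne_zero 2 hr')]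
  change 1 / (z - l) ^ 2 - 1 / (l : ℂ) ^ 2 =
    r ^ 2 * (1 / (r * z - r * l) ^ 2 - 1 / (r * (l : ℂ)) ^ 2)
  rw [e (z - l), e (l : ℂ), mul_sub, mul_sub]

theorem G_eq (hr : r ≠ 0) (h : ∀ z : ℂ, z ∈ M.lattice ↔ r * z ∈ L.lattice) (n : ℕ) :
    M.G n = r ^ n * L.G n := by
  have hr' : (r : ℂ) ≠ 0 := by exact_mod_cast hr
  unfold PeriodPair.G
  rw [← (eqv hr h).tsum_eq, ← tsum_mul_left]
  congr 1
  funext l
  change ((l : ℂ) ^ n)⁻¹ = r ^ n * ((r * (l : ℂ)) ^ n)⁻¹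
  rw [mul_pow, mul_inv, mul_inv_cancel_left₀ (pow_ne_zero n hr')]

theorem g₂_eq (hr : r ≠ 0) (h : ∀ z : ℂ, z ∈ M.lattice ↔ r * z ∈ L.lattice) :
    M.g₂ = r ^ 4 * L.g₂ := by
  unfold PeriodPair.g₂
  rw [G_eq hr h]
  ring

/-- the coordinates modulo `r` -/
noncomputable def crd (h : ∀ z : ℂ, z ∈ M.lattice ↔ r * z ∈ L.lattice) (z : M.lattice) :
    ZMod r × ZMod r :=
  (((L.latticeEquivProd ⟨r * z, (h z).1 z.2⟩).1 : ZMod r),
    ((L.latticeEquivProd ⟨r * z, (h z).1 z.2⟩).2 : ZMod r))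

theorem crd_of (h : ∀ z : ℂ, z ∈ M.lattice ↔ r * z ∈ L.lattice) (z : M.lattice) (m n : ℤ)
    (e : m * L.ω₁ + n * L.ω₂ = r * z) : crd h z = ((m : ZMod r), (n : ZMod r)) := by
  have h1 : (⟨r * z, (h z).1 z.2⟩ : L.lattice) = L.latticeEquivProd.symm (m, n) := by
    ext
    rw [L.latticeEquiv_symm_apply]
    exact e.symm
  unfold crd
  rw [h1, LinearEquiv.apply_symm_apply]

theorem exists_crd (h : ∀ z : ℂ, z ∈ M.lattice ↔ r * z ∈ L.lattice) (z : M.lattice) :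
    ∃ m n : ℤ, m * L.ω₁ + n * L.ω₂ = r * z ∧ crd h z = ((m : ZMod r), (n : ZMod r)) := by
  obtain ⟨m, n, e⟩ := PeriodPair.mem_lattice.1 ((h z).1 z.2)
  exact ⟨m, n, e, crd_of h z m n e⟩

theorem crd_eq_iff (hr : r ≠ 0) (h : ∀ z : ℂ, z ∈ M.lattice ↔ r * z ∈ L.lattice)
    (z w : M.lattice) : crd h z = crd h w ↔ (z : ℂ) - w ∈ L.lattice := by
  have hr' : (r : ℂ) ≠ 0 := by exact_mod_cast hr
  obtain ⟨m, n, e, ez⟩ := exists_crd h z
  obtain ⟨m', n', e', ew⟩ := exists_crd h w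
  rw [ez, ew, Prod.mk.injEq, ZMod.intCast_eq_intCast_iff_dvd_sub,
    ZMod.intCast_eq_intCast_iff_dvd_sub]
  constructor
  · rintro ⟨⟨a, ha⟩, b, hb⟩
    refine PeriodPair.mem_lattice.2 ⟨-a, -b, mul_left_cancel₀ hr' ?_⟩
    have ha' : (m' : ℂ) - m = r * a := by exact_mod_cast ha
    have hb' : (n' : ℂ) - n = r * b := by exact_mod_cast hb
    push_cast
    linear_combination e - e' + L.ω₁ * ha' + L.ω₂ * hb'
  · intro hzw
    obtain ⟨a, b, hab⟩ := PeriodPair.mem_lattice.1 hzw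
    have h1 : ((m - m' : ℤ) : ℂ) * L.ω₁ + ((n - n' : ℤ) : ℂ) * L.ω₂ =
        ((r * a : ℤ) : ℂ) * L.ω₁ + ((r * b : ℤ) : ℂ) * L.ω₂ := by
      push_cast
      linear_combination e - e' - r * hab
    have h2 : L.latticeEquivProd.symm (m - m', n - n') = L.latticeEquivProd.symm (r * a, r * b) := by
      ext
      rw [L.latticeEquiv_symm_apply, L.latticeEquiv_symm_apply]
      exact h1
    have h3 := L.latticeEquivProd.symm.injective h2
    rw [Prod.mk.injEq] at h3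
    exact ⟨⟨-a, by linear_combination -h3.1⟩, ⟨-b, by linear_combination -h3.2⟩⟩

theorem crd_surj (hr : r ≠ 0) (h : ∀ z : ℂ, z ∈ M.lattice ↔ r * z ∈ L.lattice)
    (x : ZMod r × ZMod r) : ∃ z : M.lattice, crd h z = x := by
  have hr' : (r : ℂ) ≠ 0 := by exact_mod_cast hr
  have : NeZero r := ⟨hr⟩
  obtain ⟨x1, x2⟩ := x
  have e : (((x1.val : ℤ) : ℂ)) * L.ω₁ + ((x2.val : ℤ) : ℂ) * L.ω₂ =
      r * (((x1.val : ℤ) * L.ω₁ + (x2.val : ℤ) * L.ω₂) / r) := by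
    rw [mul_div_cancel₀ _ hr']
  have hm : (((x1.val : ℤ) * L.ω₁ + (x2.val : ℤ) * L.ω₂) / r : ℂ) ∈ M.lattice := by
    rw [h, ← e]
    exact PeriodPair.mem_lattice.2 ⟨_, _, rfl⟩
  refine ⟨⟨_, hm⟩, ?_⟩
  rw [crd_of h ⟨_, hm⟩ _ _ e]
  simp

theorem card_eq (hr : r ≠ 0) (h : ∀ z : ℂ, z ∈ M.lattice ↔ r * z ∈ L.lattice) {S : Finset ℂ}
    (hS : RepS L M S) : S.card + 1 = r ^ 2 := by
  classical
  have : NeZero r := ⟨hr⟩
  have h0 : crd h 0 = 0 := by
    rw [crd_of h 0 0 0 (by simp)]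
    simp
  have hc : ((Finset.univ : Finset (ZMod r × ZMod r)).erase 0).card + 1 = r ^ 2 := by
    rw [Finset.card_erase_add_one (Finset.mem_univ _), Finset.card_univ, Fintype.card_prod,
      ZMod.card, sq]
  rw [← hc, Nat.add_right_cancel_iff]
  refine Finset.card_bij (fun Q hQ => crd h ⟨Q, (hS.mem Q hQ).1⟩) ?_ ?_ ?_
  · intro Q hQ
    rw [Finset.mem_erase]
    refine ⟨fun h1 => ?_, Finset.mem_univ _⟩
    rw [← h0, crd_eq_iff hr h] at h1
    apply (hS.mem Q hQ).2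
    simpa using h1
  · intro Q hQ Q' hQ' h1
    rw [crd_eq_iff hr h] at h1
    have h2 := hS.uni Q (hS.mem Q hQ).1 (hS.mem Q hQ).2
    exact h2.unique ⟨hQ, by simp⟩ ⟨hQ', h1⟩
  · intro x hx
    obtain ⟨z, rfl⟩ := crd_surj hr h x
    have hz : (z : ℂ) ∉ L.lattice := by
      intro h1
      apply (Finset.mem_erase.1 hx).1
      rw [← h0, crd_eq_iff hr h]
      simpa using h1
    obtain ⟨Q, ⟨hQ, hQ2⟩, -⟩ := hS.uni z z.2 hz
    refine ⟨Q, hQ, ?_⟩
    rw [crd_eq_iff hr h, ← neg_mem_iff, neg_sub]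
    exact hQ2

/-- the factor between `℘` and `x + 1 / 12` -/
noncomputable def kap (L : PeriodPair) : ℂ :=
  -(4 * (Real.pi : ℂ) ^ 2 * e6 L.ω₁ L.ω₂ / e4 L.ω₁ L.ω₂)

theorem P_xP (h4 : e4 L.ω₁ L.ω₂ ≠ 0) (h6 : e6 L.ω₁ L.ω₂ ≠ 0) (z : ℂ) :
    L.weierstrassP z = kap L * (xP L z + 1 / 12) := by
  have hpi : (Real.pi : ℂ) ≠ 0 := by exact_mod_cast Real.pi_ne_zero
  unfold kap xP
  field_simp
  ring

theorem kap_ne (h4 : e4 L.ω₁ L.ω₂ ≠ 0) (h6 : e6 L.ω₁ L.ω₂ ≠ 0) : kap L ≠ 0 := by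
  have hpi : (Real.pi : ℂ) ≠ 0 := by exact_mod_cast Real.pi_ne_zero
  unfold kap
  exact neg_ne_zero.2 (div_ne_zero (mul_ne_zero (mul_ne_zero (by norm_num)
    (pow_ne_zero 2 hpi)) h6) h4)

end DisAux

open DisAux

theorem stDis (h1 : StVel) (h2 : StXint) : StDis := by
  intro A L M S r hA hO hr hS hM
  have hr0 : r ≠ 0 := by
    rintro rfl
    exact absurd hr (by decide)
  have h4 : e4 L.ω₁ L.ω₂ ≠ 0 := hO.2.1
  have h6 : e6 L.ω₁ L.ω₂ ≠ 0 := OddAux.e6_ne hA hO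
  have hpi : (Real.pi : ℂ) ≠ 0 := by exact_mod_cast Real.pi_ne_zero
  have hk := kap_ne h4 h6
  obtain ⟨v1, -, v3⟩ := h1 L M S hS
  have hcard := card_eq hr0 hM hS
  obtain ⟨t, ht⟩ : ∃ t : ℤ, (r : ℤ) ^ 2 = 8 * t + 1 := by
    obtain ⟨k, hk⟩ := hr
    rcases Int.even_mul_succ_self (k : ℤ) with ⟨a, ha⟩
    refine ⟨a, ?_⟩
    rw [hk]
    push_cast
    linear_combination 4 * ha
  have htC : (r : ℂ) ^ 2 = 8 * t + 1 := by exact_mod_cast ht
  have hcC : (S.card : ℂ) = 8 * t := by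
    have : (S.card : ℂ) + 1 = r ^ 2 := by exact_mod_cast hcard
    linear_combination this + htC
  have m1 : ∀ Q ∈ S, xP L Q ∈ A := fun Q hQ =>
    h2 A L hA hO r Q hr ((hM Q).1 (hS.mem Q hQ).1) (hS.mem Q hQ).2
  set X1 : ℂ := ∑ Q ∈ S, xP L Q with hX1
  set X2 : ℂ := ∑ Q ∈ S, xP L Q ^ 2 with hX2
  set E : ℂ := 1 - 1728 * jv L.ω₁ L.ω₂ with hE
  have hEe : e6 L.ω₁ L.ω₂ ^ 2 = E * e4 L.ω₁ L.ω₂ ^ 3 := by
    have := OddAux.dl_eq hO.1
    rw [hE]
    unfold jv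
    field_simp
    linear_combination this
  have hj : jv L.ω₁ L.ω₂ ∈ A := hO.2.2
  -- the formula for `g₂`
  have hP2 : ∑ Q ∈ S, L.weierstrassP Q ^ 2 = kap L ^ 2 * (X2 + X1 / 6 + S.card / 144) := by
    have : ∀ Q ∈ S, L.weierstrassP Q ^ 2 =
        kap L ^ 2 * xP L Q ^ 2 + kap L ^ 2 / 6 * xP L Q + kap L ^ 2 / 144 := by
      intro Q _
      rw [P_xP h4 h6]
      ring
    rw [Finset.sum_congr rfl this, Finset.sum_add_distrib, Finset.sum_add_distrib,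
      ← Finset.mul_sum, ← Finset.mul_sum, Finset.sum_const, nsmul_eq_mul]
    ring
  have hkk : kap L ^ 2 = 16 * (Real.pi : ℂ) ^ 4 * (E * e4 L.ω₁ L.ω₂) := by
    have : kap L ^ 2 = 16 * (Real.pi : ℂ) ^ 4 * (e6 L.ω₁ L.ω₂ ^ 2 / e4 L.ω₁ L.ω₂ ^ 2) := by
      unfold kap
      ring
    rw [this, hEe]
    field_simp
  have hmain : 15 * E * (3 * X2 + X1 / 2) = t * (4 * t + 1) + 4320 * t * jv L.ω₁ L.ω₂ := by
    rw [g₂_eq hr0 hM, hP2, (stLink L hO.1).1, hkk, hcC] at v1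
    have hr4 : (r : ℂ) ^ 4 = (8 * t + 1) ^ 2 := by
      rw [← htC]
      ring
    rw [hr4] at v1
    have hne : (960 * (Real.pi : ℂ) ^ 4 * e4 L.ω₁ L.ω₂) ≠ 0 :=
      mul_ne_zero (mul_ne_zero (by norm_num) (pow_ne_zero 4 hpi)) h4
    have hj' : jv L.ω₁ L.ω₂ = (1 - E) / 1728 := by
      rw [hE]
      ring
    rw [hj']
    apply mul_left_cancel₀ hne
    linear_combination (-45) * v1
  have h15 : ((15 : ℤ) : ℂ) - 1 ∈ A.nonunits := odd_sub_one hA (by decide)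
  have hE1 : E - 1 ∈ A.nonunits := by
    have h3 : ((-1728 : ℤ) : ℂ) ∈ A.nonunits := even_nonunits hA (by decide)
    have h5 := nonunits_mul_right h3 hj
    convert h5 using 1
    rw [hE]
    push_cast
    ring
  have h15E := mul_sub_one h15 hE1
  push_cast at h15E
  obtain ⟨-, -, w3, w4⟩ := unit_of_sub_one h15E
  have htA : (t : ℂ) ∈ A := int_mem t
  have h2A : (2 : ℂ) ∈ A := nonunits_mem hA
  have hnum : ∀ n : ℤ, (n : ℂ) ∈ A := int_mem
  set u : ℂ := 3 * X2 + X1 / 2 with hu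
  have k1 : 15 * E * u - t ∈ A.nonunits := by
    have : 15 * E * u - t = 2 * (2 * t ^ 2 + 2160 * t * jv L.ω₁ L.ω₂) := by
      rw [hmain]
      ring
    rw [this]
    refine nonunits_mul_right hA (A.add_mem _ _ (A.mul_mem _ _ h2A (pow_mem htA 2))
      (A.mul_mem _ _ (A.mul_mem _ _ ?_ htA) hj))
    have := hnum 2160
    exact_mod_cast this
  have k2 : u ∈ A := by
    have h3 : 15 * E * u ∈ A := by
      have := A.add_mem _ _ (nonunits_mem k1) htA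
      simpa using this
    have := A.mul_mem _ _ w4 h3
    rwa [inv_mul_cancel_left₀ w3] at this
  have k3 : u - t ∈ A.nonunits := by
    have := nonunits_sub k1 (nonunits_mul_right h15E k2)
    convert this using 1
    ring
  have k4 : X2 ∈ A := A.toSubring.sum_mem fun Q hQ => pow_mem (m1 Q hQ) 2
  have k5 : X1 ∈ A.nonunits := by
    have h3A : (3 : ℂ) ∈ A := by
      have := hnum 3
      exact_mod_cast this
    have : X1 = 2 * (u - 3 * X2) := by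
      rw [hu]
      ring
    rw [this]
    exact nonunits_mul_right hA (A.sub_mem k2 (A.mul_mem _ _ h3A k4))
  have k6 : X2 ∈ A.nonunits := by
    classical
    have h3 := Cyc.sq_sum hA S (fun Q => xP L Q) m1
    have h5 := nonunits_add h3 (nonunits_mul_right k5 (nonunits_mem k5))
    convert h5 using 1
    ring
  have k7 : 1 / 2 * X1 - t ∈ A.nonunits := by
    have h3A : (3 : ℂ) ∈ A := by
      have := hnum 3
      exact_mod_cast this
    have := nonunits_sub k3 (nonunits_mul_left h3A k6)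
    convert this using 1
    rw [hu]
    ring
  refine ⟨m1, ?_, ?_⟩
  · convert k7 using 2
    rw [htC]
    ring
  · intro N z hN hNz hrz
    have hzM : z ∉ M.lattice := fun h => hrz ((hM z).1 h)
    have hzL : z ∉ L.lattice := fun h => hzM (hS.le h)
    have hx1 : xP L z ∈ A := h2 A L hA hO N z hN hNz hzL
    have hx2 : xP L (r * z) ∈ A := by
      refine h2 A L hA hO N (r * z) hN ?_ hrz
      have : (N : ℂ) * (r * z) = (r : ℤ) • ((N : ℂ) * z) := by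
        rw [zsmul_eq_mul]
        push_cast
        ring
      rw [this]
      exact L.lattice.smul_mem _ hNz
    have hv := v3 z hzM
    rw [P_eq hr0 hM, P_xP h4 h6, P_xP h4 h6 z] at hv
    have hs : ∑ Q ∈ S, (L.weierstrassP (z + Q) - L.weierstrassP Q) =
        kap L * (∑ Q ∈ S, xP L (z + Q) - X1) := by
      rw [hX1, ← Finset.sum_sub_distrib, Finset.mul_sum]
      refine Finset.sum_congr rfl fun Q _ => ?_
      rw [P_xP h4 h6, P_xP h4 h6 Q]
      ring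
    rw [hs] at hv
    have hv2 : ∑ Q ∈ S, xP L (z + Q) =
        r ^ 2 * (xP L (r * z) + 1 / 12) - (xP L z + 1 / 12) + X1 := by
      apply mul_left_cancel₀ hk
      linear_combination -hv
    obtain ⟨th, hth⟩ : ∃ th ∈ A, 3 * th = 1 := by
      have h3 : ((3 : ℤ) : ℂ) - 1 ∈ A.nonunits := odd_sub_one hA (by decide)
      obtain ⟨-, -, q3, q4⟩ := unit_of_sub_one h3
      refine ⟨_, q4, ?_⟩
      have := mul_inv_cancel₀ q3
      push_cast at this ⊢
      exact this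
    have hfin : ∑ Q ∈ S, xP L (z + Q) - (xP L (r * z) + xP L z) =
        2 * (4 * (t * xP L (r * z)) + t * th - xP L z) + X1 := by
      rw [hv2, htC]
      linear_combination (-2 * t / 3) * hth.2
    rw [hfin]
    refine nonunits_add (nonunits_mul_right hA (A.sub_mem (A.add_mem _ _ (A.mul_mem _ _ ?_
      (A.mul_mem _ _ htA hx2)) (A.mul_mem _ _ htA hth.1)) hx1)) k5
    have := hnum 4
    exact_mod_cast this

end Pool.Agent.Lib.MP_7c08ba_nt.CN.TW
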