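import Pool.Agent.Lib.MP_7c08ba_nt.CN.T.GenE

set_option autoImplicit false

/-!
Project TW, module GenO: the combination of theta series for odd `n`, summed over the principal
genus.
-/

namespace Pool.Agent.Lib.MP_7c08ba_nt.CN.TW

open NumberField IsDedekindDomain Polynomial Pool.Agent.Lib.MP_7c08ba_nt.RZ
open scoped nonZeroDivisors ComplexConjugate MatrixGroups

namespace GenOAux

open GenEAux

/-- The terms of the combination. -/
noncomputable def gO (n : ℕ) (c₁ c₂ z : ℂ) (N : ℕ) : ℂ :=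
  c₁ * ft n (4 * z) N - c₂ * ft n (z + 1 / 2) N

theorem im_four (z : ℂ) : (4 * z).im = 4 * z.im := by
  simp [Complex.mul_im]

theorem im_half (z : ℂ) : (z + 1 / 2).im = z.im := by
  have h : (1 / 2 : ℂ) = ((1 / 2 : ℝ) : ℂ) := by push_cast; rfl
  rw [h, Complex.add_im, Complex.ofReal_im, add_zero]

theorem sumO {q : ℕ} {F : Type} [Field F] [NumberField F] {s : 𝓞 F} {σ : F →+* ℂ}
    {χ : DirichletCharacter ℂ q} {cj : 𝓞 F ≃+* 𝓞 F} (hD : Dat q s σ χ cj) (n : ℕ) (c₁ c₂ : ℂ)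
    {z : ℂ} (hz : 0 < z.im) (a : Ideal (𝓞 F)) (ha : a ≠ ⊥) :
    Summable fun x : a => ‖gO n c₁ c₂ z (nq a (x : 𝓞 F))‖ := by
  have h1 := summ hD n (u := 4 * z) (by rw [im_four]; positivity) a ha
  have h2 := summ hD n (u := z + 1 / 2) (by rw [im_half]; exact hz) a ha
  refine Summable.of_nonneg_of_le (fun _ => norm_nonneg _) (fun x => ?_)
    ((h1.mul_left ‖c₁‖).add (h2.mul_left ‖c₂‖))
  unfold gO
  refine (norm_sub_le _ _).trans ?_
  rw [norm_mul, norm_mul]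

theorem term_four (n : ℕ) (u : ℂ) (N j D : ℕ) :
    ee ((j : ℂ) * ((4 * (N : ℤ) : ℤ) : ℂ) / D) * ft n (4 * u) N =
      ft n (4 * (u + j / D)) N := by
  unfold ft
  have h1 : (4 * (u + j / D)).im = (4 * u).im := by
    rw [im_four, im_four, im_shift]
  have h2 : ee ((N : ℂ) * (4 * (u + j / D))) =
      ee ((j : ℂ) * ((4 * (N : ℤ) : ℤ) : ℂ) / D) * ee ((N : ℂ) * (4 * u)) := by
    rw [← ThBAux.ee_add]
    congr 1
    push_cast
    ring
  rw [h1, h2]
  ring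

theorem term_half (n : ℕ) (u : ℂ) (N j D : ℕ) :
    ee ((j : ℂ) * ((N : ℤ) : ℂ) / D) * ft n (u + 1 / 2) N = ft n (u + j / D + 1 / 2) N := by
  unfold ft
  have h1 : (u + j / D + 1 / 2).im = (u + 1 / 2).im := by
    rw [im_half, im_half, im_shift]
  have h2 : ee ((N : ℂ) * (u + j / D + 1 / 2)) =
      ee ((j : ℂ) * ((N : ℤ) : ℂ) / D) * ee ((N : ℂ) * (u + 1 / 2)) := by
    rw [← ThBAux.ee_add]
    congr 1
    push_cast
    ring
  rw [h1, h2]
  ring

end GenOAux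

open GenEAux GenOAux in
theorem stGenO (h1 : StCntT) (h2 : StW) : StGenO := by
  intro q F _ _ s σ χ cj D n c R u hD hT hc hR hRA hu
  obtain ⟨-, -, -, -, -, hn, -⟩ := stBas q F _ _ s σ χ cj hD
  set c₁ : ℂ := 2 * 4 ^ n * (((4 * u).im : ℂ) ^ n)⁻¹ with hc₁
  set c₂ : ℂ := (((u + 1 / 2).im : ℂ) ^ n)⁻¹ with hc₂
  have hs : ∀ C, Summable fun x : (c.R C : Ideal (𝓞 F)) =>
      ‖gO n c₁ c₂ u (nq (c.R C : Ideal (𝓞 F)) (x : 𝓞 F))‖ :=
    fun C => sumO hD n c₁ c₂ hu _ (hc C).1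
  have key := h1 q F _ _ s σ χ cj D c R (gO n c₁ c₂ u) hD hT hc hR hRA hs
  have hu4 : 0 < (4 * u).im := by rw [im_four]; positivity
  have huh : 0 < (u + 1 / 2).im := by rw [im_half]; exact hu
  have hinj : ∀ b : Ideal (𝓞 F), Function.Injective
      (fun x : latD D b => (⟨(x : 𝓞 F), x.2.1⟩ : b)) := by
    intro b x y hxy
    exact Subtype.ext (congrArg (fun z : b => (z : 𝓞 F)) hxy)
  have hsl : ∀ (v : ℂ), 0 < v.im → ∀ B : GC F D,
      Summable fun x : latD D (R B) => ft n v (nq (R B) (x : 𝓞 F)) := by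
    intro v hv B
    exact ((summ hD n hv _ (hR B).1).comp_injective (hinj (R B))).of_norm
  have hL : ∀ B : GC F D,
      (2 * 4 ^ n * thD D σ (R B) n (4 * u) - thD D σ (R B) n (u + 1 / 2)) =
      ∑' x : latD D (R B), gO n c₁ c₂ u (Ideal.absNorm (Ideal.span {(x : 𝓞 F)}) /
        Ideal.absNorm (R B)) := by
    intro B
    have e : ∀ v : ℂ, thD D σ (R B) n v = ((v.im : ℂ) ^ n)⁻¹ *
        ∑' x : latD D (R B), ft n v (nq (R B) (x : 𝓞 F)) := by
      intro v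
      unfold thD
      congr 1
      refine tsum_congr fun x => ?_
      rw [nq_eqC σ hn (R B) (hR B).1 x x.2.1]
      rfl
    have e2 : ∑' x : latD D (R B), gO n c₁ c₂ u (Ideal.absNorm (Ideal.span {(x : 𝓞 F)}) /
        Ideal.absNorm (R B)) =
        c₁ * ∑' x : latD D (R B), ft n (4 * u) (nq (R B) (x : 𝓞 F)) -
        c₂ * ∑' x : latD D (R B), ft n (u + 1 / 2) (nq (R B) (x : 𝓞 F)) := by
      rw [← tsum_mul_left, ← tsum_mul_left]
      exact ((hsl _ hu4 B).mul_left c₁).tsum_sub ((hsl _ huh B).mul_left c₂)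
    rw [e2, e, e, hc₁, hc₂]
    ring
  have hW := (h2 q D hT).1
  have hW4 := (h2 q D hT).2.2.2.1
  have hX : ∀ C : ClassGroup (𝓞 F),
      ∑' x : (c.R C : Ideal (𝓞 F)),
        wN D ((Ideal.absNorm (Ideal.span {(x : 𝓞 F)}) / Ideal.absNorm (c.R C : Ideal (𝓞 F)) :
          ℕ) : ℤ) * gO n c₁ c₂ u (Ideal.absNorm (Ideal.span {(x : 𝓞 F)}) /
            Ideal.absNorm (c.R C : Ideal (𝓞 F))) =
      ∑ j ∈ Finset.range D, wH D j * ∑' x : (c.R C : Ideal (𝓞 F)),
        gO n c₁ c₂ (u + j / D) (nq (c.R C : Ideal (𝓞 F)) (x : 𝓞 F)) := by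
    intro C
    have h3 : ∀ x : (c.R C : Ideal (𝓞 F)),
        wN D ((Ideal.absNorm (Ideal.span {(x : 𝓞 F)}) / Ideal.absNorm (c.R C : Ideal (𝓞 F)) :
          ℕ) : ℤ) * gO n c₁ c₂ u (Ideal.absNorm (Ideal.span {(x : 𝓞 F)}) /
            Ideal.absNorm (c.R C : Ideal (𝓞 F))) =
        ∑ j ∈ Finset.range D, wH D j *
          gO n c₁ c₂ (u + j / D) (nq (c.R C : Ideal (𝓞 F)) (x : 𝓞 F)) := by
      intro x
      set N : ℕ := nq (c.R C : Ideal (𝓞 F)) (x : 𝓞 F) with hN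
      change wN D ((N : ℕ) : ℤ) * gO n c₁ c₂ u N = _
      have h4 : wN D (N : ℤ) * ft n (4 * u) N =
          ∑ j ∈ Finset.range D, wH D j * ft n (4 * (u + j / D)) N := by
        rw [← hW4, hW, Finset.sum_mul]
        refine Finset.sum_congr rfl fun j _ => ?_
        rw [← term_four]
        ring
      have h5 : wN D (N : ℤ) * ft n (u + 1 / 2) N =
          ∑ j ∈ Finset.range D, wH D j * ft n (u + j / D + 1 / 2) N := by
        rw [hW, Finset.sum_mul]
        refine Finset.sum_congr rfl fun j _ => ?_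
        rw [← term_half]
        ring
      have h6 : wN D (N : ℤ) * gO n c₁ c₂ u N =
          c₁ * (wN D (N : ℤ) * ft n (4 * u) N) - c₂ * (wN D (N : ℤ) * ft n (u + 1 / 2) N) := by
        unfold gO
        ring
      rw [h6, h4, h5, Finset.mul_sum, Finset.mul_sum, ← Finset.sum_sub_distrib]
      refine Finset.sum_congr rfl fun j _ => ?_
      unfold gO
      ring
    rw [tsum_congr h3, Summable.tsum_finsetSum]
    · refine Finset.sum_congr rfl fun j _ => ?_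
      rw [tsum_mul_left]
    · intro j _
      refine Summable.mul_left _ ?_
      exact (sumO hD n c₁ c₂ (z := u + j / D) (by rw [im_shift]; exact hu) _ (hc C).1).of_norm
  have hR' : ∀ (C : ClassGroup (𝓞 F)) (j : ℕ),
      2 * 4 ^ n * thl σ (c.R C : Ideal (𝓞 F)) n (4 * (u + j / D)) -
        thl σ (c.R C : Ideal (𝓞 F)) n (u + j / D + 1 / 2) =
        ∑' x : (c.R C : Ideal (𝓞 F)),
          gO n c₁ c₂ (u + j / D) (nq (c.R C : Ideal (𝓞 F)) (x : 𝓞 F)) := by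
    intro C j
    have e : ∀ v : ℂ, thl σ (c.R C : Ideal (𝓞 F)) n v = ((v.im : ℂ) ^ n)⁻¹ *
        ∑' x : (c.R C : Ideal (𝓞 F)), ft n v (nq (c.R C : Ideal (𝓞 F)) (x : 𝓞 F)) := by
      intro v
      unfold thl
      congr 1
      refine tsum_congr fun x => ?_
      rw [nq_eqC σ hn (c.R C : Ideal (𝓞 F)) (hc C).1 x x.2]
      rfl
    have i4 : (4 * (u + j / D)).im = (4 * u).im := by rw [im_four, im_four, im_shift]
    have ih : (u + j / D + 1 / 2).im = (u + 1 / 2).im := by rw [im_half, im_half, im_shift]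
    have s4 : Summable fun x : (c.R C : Ideal (𝓞 F)) =>
        ft n (4 * (u + j / D)) (nq (c.R C : Ideal (𝓞 F)) (x : 𝓞 F)) :=
      (summ hD n (u := 4 * (u + j / D)) (by rw [i4]; exact hu4) _ (hc C).1).of_norm
    have sh : Summable fun x : (c.R C : Ideal (𝓞 F)) =>
        ft n (u + j / D + 1 / 2) (nq (c.R C : Ideal (𝓞 F)) (x : 𝓞 F)) :=
      (summ hD n (u := u + j / D + 1 / 2) (by rw [ih]; exact huh) _ (hc C).1).of_norm
    have e2 : ∑' x : (c.R C : Ideal (𝓞 F)),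
        gO n c₁ c₂ (u + j / D) (nq (c.R C : Ideal (𝓞 F)) (x : 𝓞 F)) =
        c₁ * ∑' x : (c.R C : Ideal (𝓞 F)),
          ft n (4 * (u + j / D)) (nq (c.R C : Ideal (𝓞 F)) (x : 𝓞 F)) -
        c₂ * ∑' x : (c.R C : Ideal (𝓞 F)),
          ft n (u + j / D + 1 / 2) (nq (c.R C : Ideal (𝓞 F)) (x : 𝓞 F)) := by
      rw [← tsum_mul_left, ← tsum_mul_left]
      exact (s4.mul_left c₁).tsum_sub (sh.mul_left c₂)
    rw [e2, e, e, i4, ih, hc₁, hc₂]
    ring
  rw [finsum_congr hL, key, Finset.sum_congr rfl fun C _ => hX C, Finset.sum_comm]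
  refine Finset.sum_congr rfl fun j _ => ?_
  rw [← Finset.mul_sum, Finset.sum_congr rfl fun C _ => hR' C j]

end Pool.Agent.Lib.MP_7c08ba_nt.CN.TW
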