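import Pool.Agent.Lib.MP_7c08ba_nt.CN.T.StP
import Pool.Agent.Lib.MP_7c08ba_nt.RZ.C.Level
import Pool.Agent.Lib.MP_7c08ba_nt.RZ.C.Sum

set_option autoImplicit false

/-!
Module `JB` of project TW: `1/j` of the lattices of ring classes.
-/

namespace Pool.Agent.Lib.MP_7c08ba_nt.CN.TW

open NumberField IsDedekindDomain Polynomial RZC
open scoped nonZeroDivisors ComplexConjugate

namespace JBAux

theorem odd_of_twA {q D : ℕ} (h : TwA q D) : Odd D := by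
  rw [← Nat.not_even_iff_odd]
  intro he
  have := h.mod4 2 Nat.prime_two he.two_dvd
  omega

theorem ne_zero_of_twA {q D : ℕ} (h : TwA q D) : D ≠ 0 := by
  rintro rfl
  exact absurd (odd_of_twA h) (by decide)

theorem twA_one (q : ℕ) : TwA q 1 where
  sqf := squarefree_one
  mod4 r hr h := by
    have := Nat.dvd_one.1 h
    exact absurd hr (this ▸ Nat.not_prime_one)
  inert r hr h := by
    have := Nat.dvd_one.1 h
    exact absurd hr (this ▸ Nat.not_prime_one)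

section

variable {F : Type} [Field F] [NumberField F] {σ : F →+* ℂ} {D : ℕ} {c : Ideal (𝓞 F)}

theorem D_ne (hD : D ≠ 0) : (D : 𝓞 F) ≠ 0 := by exact_mod_cast hD

theorem mem_idp_one (hc : c ≠ ⊥) : c ∈ idp (F := F) 1 := by
  refine ⟨hc, ?_⟩
  rw [Nat.cast_one, Ideal.span_singleton_one, ← Ideal.one_eq_top]
  exact isCoprime_one_right

theorem isBD_one {w₁ w₂ : ℂ} (h : IsB σ c w₁ w₂) : IsBD 1 σ c w₁ w₂ := by
  refine ⟨h.1, fun z => ?_⟩
  rw [h.2]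
  constructor
  · rintro ⟨x, hx, h⟩
    exact ⟨x, ⟨hx, 0, by simp⟩, h⟩
  · rintro ⟨x, ⟨hx, -⟩, h⟩
    exact ⟨x, hx, h⟩

/-- an element of `c` divisible by `D` is `D` times an element of `c` -/
theorem mem_of_mul (hc : c ∈ idp (F := F) D) {x : 𝓞 F} (h : (D : 𝓞 F) * x ∈ c) : x ∈ c := by
  obtain ⟨u, hu, v, hv, huv⟩ := Ideal.isCoprime_iff_exists.1 hc.2
  obtain ⟨w, rfl⟩ := Ideal.mem_span_singleton.1 hv
  have h1 : x = u * x + w * ((D : 𝓞 F) * x) := by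
    linear_combination -x * huv
  rw [h1]
  exact c.add_mem (c.mul_mem_right _ hu) (c.mul_mem_left _ h)

end

end JBAux

open JBAux in
/-- (J3) -/
theorem stJB (h1 : StXc) (h2 : StJV) (h3 : StFldT) (_h4 : StRg) : StJB := by
  classical
  intro q F _ _ s σ A D c y w₁ w₂ v₁ v₂ hF hA hD hc hy hv hw
  obtain ⟨x1, x2, -, -, -, x6⟩ := h1 q F _ _ s σ D hF hD c hc
  have hDn := ne_zero_of_twA hD
  have hD0 : (D : 𝓞 F) ≠ 0 := D_ne hDn
  have hDC : (D : ℂ) ≠ 0 := by exact_mod_cast hDn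
  have hy0 : y ≠ 0 := by
    rintro rfl
    exact hy.1 (by simp)
  have hyC : σ (y : F) ≠ 0 := SumAux.sigma_ne hy0
  -- the lattice of the ideal
  set L : PeriodPair := Level.pp v₁ v₂ hv.1 with hL
  have hLl : ∀ w : ℂ, w ∈ L.lattice ↔ ∃ x ∈ c, σ (x : F) = w := fun w => hv.2 w
  have hLO : Ord A L.ω₁ L.ω₂ := by
    obtain ⟨P, -, -, hP⟩ := h3 q F _ _ s σ A hF hA
    exact ((hP 1 (twA_one q)).2.1 c (mem_idp_one hc.1) v₁ v₂ (isBD_one hv)).1
  -- the larger lattice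
  set κ : ℂ := (σ (y : F) * D)⁻¹ with hκ
  have hκ0 : κ ≠ 0 := inv_ne_zero (mul_ne_zero hyC hDC)
  have hMp : Pos (κ * w₁) (κ * w₂) := (pos_smul hκ0).2 hw.1
  set M : PeriodPair := Level.pp (κ * w₁) (κ * w₂) hMp with hM
  have hMl : ∀ w : ℂ, w ∈ M.lattice ↔
      ∃ x ∈ c, (∃ k : ℤ, (D : 𝓞 F) ∣ y * x - k) ∧ σ (x : F) / D = w := by
    intro w
    have e1 : w ∈ M.lattice ↔ κ⁻¹ * w ∈ lat w₁ w₂ := by
      change w ∈ lat (κ * w₁) (κ * w₂) ↔ _
      rw [mem_lat, mem_lat]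
      constructor
      · rintro ⟨m, n, h⟩
        exact ⟨m, n, by rw [← h]; field_simp⟩
      · rintro ⟨m, n, h⟩
        refine ⟨m, n, ?_⟩
        have : w = κ * (κ⁻¹ * w) := by field_simp
        rw [this, ← h]
        ring
    rw [e1, hw.2]
    constructor
    · rintro ⟨x, ⟨hx, k, hk⟩, h⟩
      obtain ⟨z, hz, rfl⟩ := Ideal.mem_span_singleton_mul.1 hx
      refine ⟨z, hz, ⟨k, hk⟩, ?_⟩
      have h' : σ (y : F) * σ (z : F) = σ (y : F) * D * w := by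
        have e2 : σ ((y * z : 𝓞 F) : F) = κ⁻¹ * w := h
        rw [hκ, inv_inv] at e2
        rw [← e2, ← map_mul]
        rfl
      rw [div_eq_iff hDC]
      exact mul_left_cancel₀ hyC (by linear_combination h')
    · rintro ⟨z, hz, ⟨k, hk⟩, h⟩
      refine ⟨y * z, ⟨Ideal.mem_span_singleton_mul.2 ⟨z, hz, rfl⟩, k, hk⟩, ?_⟩
      rw [← h, hκ, inv_inv]
      have e2 : σ ((y * z : 𝓞 F) : F) = σ (y : F) * σ (z : F) := by
        rw [← map_mul]
        rfl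
      rw [e2]
      field_simp
  -- the representatives
  have : Finite (𝓞 F ⧸ Ideal.span {(D : 𝓞 F)}) :=
    Ideal.finiteQuotientOfFreeOfNeBot _ (by rwa [Ne, Ideal.span_singleton_eq_bot])
  have : Fintype (𝓞 F ⧸ Ideal.span {(D : 𝓞 F)}) := Fintype.ofFinite _
  set T : Finset (𝓞 F ⧸ Ideal.span {(D : 𝓞 F)}) := Finset.univ.filter fun ρ =>
    ρ ≠ 0 ∧ ∃ k : ℤ, (D : 𝓞 F) ∣ y * lf D c ρ - k with hT
  set f : 𝓞 F ⧸ Ideal.span {(D : 𝓞 F)} → ℂ := fun ρ => σ (lf D c ρ : F) / D with hf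
  have hσi : ∀ a b : 𝓞 F, σ (a : F) = σ (b : F) → a = b := fun a b h =>
    RingOfIntegers.ext (σ.injective h)
  have hfi : Function.Injective f := by
    intro ρ ρ' h
    have h' : σ (lf D c ρ : F) = σ (lf D c ρ' : F) := by
      have : σ (lf D c ρ : F) / D = σ (lf D c ρ' : F) / D := h
      rwa [div_left_inj' hDC] at this
    rw [← (x2 ρ).2, ← (x2 ρ').2, hσi _ _ h']
  -- differences
  have hdiff : ∀ a ∈ c, ∀ b ∈ c, (σ (a : F) / D - σ (b : F) / D ∈ L.lattice ↔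
      (D : 𝓞 F) ∣ a - b) := by
    intro a ha b hb
    rw [hLl]
    constructor
    · rintro ⟨x, hx, h⟩
      refine ⟨x, hσi _ _ ?_⟩
      have e1 : σ ((a - b : 𝓞 F) : F) = σ (a : F) - σ (b : F) := by
        rw [← map_sub]
        rfl
      have e2 : σ (((D : 𝓞 F) * x : 𝓞 F) : F) = D * σ (x : F) := by
        rw [show (((D : 𝓞 F) * x : 𝓞 F) : F) = (D : F) * (x : F) by push_cast; rfl, map_mul,
          map_natCast]
      rw [e1, e2, h]
      field_simp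
    · rintro ⟨x, hx⟩
      refine ⟨x, mem_of_mul hc (by rw [← hx]; exact c.sub_mem ha hb), ?_⟩
      have e1 : σ ((a - b : 𝓞 F) : F) = σ (a : F) - σ (b : F) := by
        rw [← map_sub]
        rfl
      have e2 : σ (((D : 𝓞 F) * x : 𝓞 F) : F) = D * σ (x : F) := by
        rw [show (((D : 𝓞 F) * x : 𝓞 F) : F) = (D : F) * (x : F) by push_cast; rfl, map_mul,
          map_natCast]
      rw [hx, e2] at e1
      rw [← sub_div, ← e1]
      field_simp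
  have hzero : ∀ a ∈ c, (σ (a : F) / D ∈ L.lattice ↔ (D : 𝓞 F) ∣ a) := by
    intro a ha
    have := hdiff a ha 0 c.zero_mem
    simpa using this
  have hmk : ∀ a : 𝓞 F, ∀ b : 𝓞 F, ((Ideal.Quotient.mk (Ideal.span {(D : 𝓞 F)})) a =
      Ideal.Quotient.mk (Ideal.span {(D : 𝓞 F)}) b ↔ (D : 𝓞 F) ∣ a - b) := by
    intro a b
    rw [Ideal.Quotient.eq, Ideal.mem_span_singleton]
  have hlf0 : ∀ ρ, ((D : 𝓞 F) ∣ lf D c ρ ↔ ρ = 0) := by
    intro ρ
    have := hmk (lf D c ρ) 0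
    rw [sub_zero, (x2 ρ).2, map_zero] at this
    exact this.symm
  have hRep : RepS L M (T.image f) := by
    refine ⟨?_, ?_, ?_⟩
    · intro z hz
      obtain ⟨x, hx, rfl⟩ := (hLl z).1 hz
      refine (hMl _).2 ⟨(D : 𝓞 F) * x, c.mul_mem_left _ hx, ⟨0, ?_⟩, ?_⟩
      · exact ⟨y * x, by push_cast; ring⟩
      · have e2 : σ (((D : 𝓞 F) * x : 𝓞 F) : F) = D * σ (x : F) := by
          rw [show (((D : 𝓞 F) * x : 𝓞 F) : F) = (D : F) * (x : F) by push_cast; rfl, map_mul,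
            map_natCast]
        rw [e2]
        field_simp
    · intro Q hQ
      obtain ⟨ρ, hρ, rfl⟩ := Finset.mem_image.1 hQ
      rw [hT, Finset.mem_filter] at hρ
      refine ⟨(hMl _).2 ⟨lf D c ρ, (x2 ρ).1, hρ.2.2, rfl⟩, ?_⟩
      intro h
      exact hρ.2.1 ((hlf0 ρ).1 ((hzero _ (x2 ρ).1).1 h))
    · intro z hz hzL
      obtain ⟨x, hx, ⟨k, hk⟩, rfl⟩ := (hMl z).1 hz
      have hxD : ¬ (D : 𝓞 F) ∣ x := fun h => hzL ((hzero x hx).2 h)
      set ρ := Ideal.Quotient.mk (Ideal.span {(D : 𝓞 F)}) x with hρ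
      have hxρ : (D : 𝓞 F) ∣ x - lf D c ρ := (hmk _ _).1 (x2 ρ).2.symm
      refine ⟨f ρ, ⟨Finset.mem_image.2 ⟨ρ, ?_, rfl⟩, (hdiff x hx _ (x2 ρ).1).2 hxρ⟩, ?_⟩
      · rw [hT, Finset.mem_filter]
        refine ⟨Finset.mem_univ _, ?_, k, ?_⟩
        · intro h
          have := (hlf0 ρ).2 h
          exact hxD ((dvd_sub_left this).1 hxρ)
        · have e3 : y * lf D c ρ - k = (y * x - k) - y * (x - lf D c ρ) := by ring
          rw [e3]
          exact dvd_sub hk (dvd_mul_of_dvd_right hxρ _)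
      · rintro Q ⟨hQ, hQL⟩
        obtain ⟨ρ', hρ', rfl⟩ := Finset.mem_image.1 hQ
        have h4 := (hdiff x hx _ (x2 ρ').1).1 hQL
        have h5 := (hmk _ _).2 h4
        rw [(x2 ρ').2] at h5
        rw [← h5]
  have hxP : ∀ ρ, xc D σ c (lf D c ρ) = xP L (f ρ) := fun ρ => x1 L hv.1 hLl _
  have hint : ∀ Q ∈ T.image f, xP L Q ∈ A := by
    intro Q hQ
    obtain ⟨ρ, hρ, rfl⟩ := Finset.mem_image.1 hQ
    rw [hT, Finset.mem_filter] at hρ
    rw [← hxP]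
    exact x6 A hA _ (x2 ρ).1 fun h => hρ.2.1 ((hlf0 ρ).1 h)
  have hN : ∃ N : ℕ, Odd N ∧ ∀ z ∈ M.lattice, N * z ∈ L.lattice := by
    refine ⟨D, odd_of_twA hD, fun z hz => ?_⟩
    obtain ⟨x, hx, -, rfl⟩ := (hMl z).1 hz
    refine (hLl _).2 ⟨x, hx, ?_⟩
    field_simp
  have hsum : tC D σ c y = 1 / 2 * ∑ Q ∈ T.image f, xP L Q := by
    unfold tC
    congr 1
    rw [finsum_eq_sum_of_fintype, Finset.sum_image (fun a _ b _ h => hfi h), hT,
      Finset.sum_filter]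
    refine Finset.sum_congr rfl fun ρ _ => ?_
    by_cases hρ : ρ = 0
    · rw [if_pos hρ, if_neg (fun h => h.1 hρ)]
    · rw [if_neg hρ]
      by_cases hk : ∃ k : ℤ, (D : 𝓞 F) ∣ y * lf D c ρ - k
      · rw [if_pos hk, if_pos ⟨hρ, hk⟩, hxP]
      · rw [if_neg hk, if_neg (fun h => hk h.2)]
  obtain ⟨r1, r2⟩ := h2 A L M (T.image f) hA hLO hMp hRep hint hN
  rw [← hsum] at r1 r2
  refine ⟨r1, ?_⟩
  have e1 : jv M.ω₁ M.ω₂ = jv w₁ w₂ := SumAux.jv_smul hκ0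
  rw [e1] at r2
  exact r2

end Pool.Agent.Lib.MP_7c08ba_nt.CN.TW
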