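import Mathlib
import Pool.Agent.Lib.MP_7c08ba_nt.CN.T.StTh
import Pool.Agent.Lib.MP_7c08ba_nt.CN.OAll

set_option autoImplicit false

/-!
Project TW, module (PairTO): the terms of the central value for the ideals attached to a pair of
coprime norms, odd `n`.
-/

namespace Pool.Agent.Lib.MP_7c08ba_nt.CN.TW

open NumberField IsDedekindDomain Polynomial Pool.Agent.Lib.MP_7c08ba_nt.RZ
open scoped nonZeroDivisors ComplexConjugate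

namespace PairTOAux

section

variable {F : Type} [Field F] [NumberField F]

/-- the data of the field, `Q = q D²`, `S = D s` -/
structure DQ (Q : ℕ) (S : 𝓞 F) (σ : F →+* ℂ) (cj : 𝓞 F ≃+* 𝓞 F) : Prop where
  pos : 0 < Q
  im : σ S = Complex.I * Real.sqrt Q
  conjσ : ∀ x : 𝓞 F, σ (cj x) = conj (σ x)

/-- the data of a pair -/
structure PQ (Q : ℕ) (S : 𝓞 F) (e d₁ d₂ : ℕ) (b a ω : ℤ) (g ga : 𝓞 F) : Prop where
  epos : 1 ≤ e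
  oddQ : Odd Q
  odd₁ : Odd d₁
  odd₂ : Odd d₂
  cq₁ : d₁.Coprime Q
  cq₂ : d₂.Coprime Q
  dvd : (8 * 2 ^ e * ((d₁ : ℤ) * d₂) ^ 2 : ℤ) ∣ b ^ 2 + Q
  two : 2 * g = b + S
  om₁ : (2 * d₁ : ℤ) ∣ ω - 1
  om₂ : (2 * d₂ : ℤ) ∣ ω + 1
  qa : (Q : ℤ) ∣ a
  ab : (2 * (d₁ * d₂) : ℤ) ∣ a - ω * b
  two' : 2 * ga = a + S

variable {Q D : ℕ} {S : 𝓞 F} {σ : F →+* ℂ}
  {cj : 𝓞 F ≃+* 𝓞 F} {e d₁ d₂ : ℕ} {b a ω : ℤ} {g ga : 𝓞 F}

lemma sig (hD : DQ Q S σ cj) (t : 𝓞 F) (c : ℤ) (ht : 2 * t = c + S) :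
    σ t = (c + Complex.I * Real.sqrt Q) / 2 := by
  have h := congrArg (fun x : 𝓞 F => σ (algebraMap (𝓞 F) F x)) ht
  simp only [map_mul, map_add, map_ofNat, map_intCast] at h
  have h2 : σ (algebraMap (𝓞 F) F S) = Complex.I * Real.sqrt Q := hD.im
  rw [h2] at h
  have h3 : σ (algebraMap (𝓞 F) F t) = (c + Complex.I * Real.sqrt Q) / 2 := by
    rw [← h]; ring
  exact h3

lemma sqrt_pos' (hD : DQ Q S σ cj) : 0 < Real.sqrt (Q : ℝ) :=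
  Real.sqrt_pos.mpr (by exact_mod_cast hD.pos)

lemma sig_el (hD : DQ Q S σ cj) (hg : 2 * g = b + S) (K β : ℕ) (p : ℤ × ℤ) :
    σ (APair.el cj g K β p) = ((K * β * p.1 - b * p.2 / 2 : ℝ) : ℂ) +
      ((p.2 * Real.sqrt Q / 2 : ℝ) : ℂ) * Complex.I := by
  have h1 : σ (algebraMap (𝓞 F) F (cj g)) = conj (σ (algebraMap (𝓞 F) F g)) := hD.conjσ g
  have h2 : σ (algebraMap (𝓞 F) F g) = (b + Complex.I * Real.sqrt Q) / 2 := sig hD g b hg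
  have h3 : σ (algebraMap (𝓞 F) F (APair.el cj g K β p)) = ((K * β : ℕ) : ℂ) * (p.1 : ℂ) -
      (p.2 : ℂ) * conj ((b + Complex.I * Real.sqrt Q) / 2) := by
    unfold APair.el
    simp only [map_mul, map_sub, map_natCast, map_intCast]
    rw [h1, h2]
  have h4 : conj (((b : ℂ) + Complex.I * Real.sqrt Q) / 2) = (b - Complex.I * Real.sqrt Q) / 2 := by
    simp only [map_div₀, map_add, map_mul, Complex.conj_I, Complex.conj_ofReal, map_intCast,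
      map_ofNat]
    ring
  rw [h4] at h3
  show σ (algebraMap (𝓞 F) F (APair.el cj g K β p)) = _
  rw [h3]
  push_cast
  ring

lemma nsq_el (hD : DQ Q S σ cj) (hg : 2 * g = b + S) (K β : ℕ) (p : ℤ × ℤ) :
    Complex.normSq (σ (APair.el cj g K β p)) =
      (K * β * p.1 - b * p.2 / 2) ^ 2 + Q * p.2 ^ 2 / 4 := by
  rw [sig_el hD hg, Complex.normSq_add_mul_I]
  have := Real.sq_sqrt (Nat.cast_nonneg Q : (0 : ℝ) ≤ Q)
  nlinarith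

lemma el_inj (hD : DQ Q S σ cj) (hg : 2 * g = b + S) {K β : ℕ} (hK : 0 < K) (hβ : 0 < β) :
    Function.Injective (APair.el cj g K β) := by
  intro p p' h
  have h1 := sig_el hD hg K β p
  have h2 := sig_el hD hg K β p'
  rw [h] at h1
  rw [h1] at h2
  have hre := congrArg Complex.re h2
  have him := congrArg Complex.im h2
  simp only [Complex.add_re, Complex.ofReal_re, Complex.mul_re, Complex.I_re, mul_zero,
    Complex.ofReal_im, Complex.I_im, mul_one, sub_self, add_zero] at hre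
  simp only [Complex.add_im, Complex.ofReal_re, Complex.mul_im, Complex.I_re, mul_zero,
    Complex.ofReal_im, Complex.I_im, mul_one, zero_add, add_zero] at him
  have hs := sqrt_pos' hD
  have e2 : (p.2 : ℝ) = p'.2 := by
    have : ((p.2 : ℝ) - p'.2) * Real.sqrt Q = 0 := by linarith
    rcases mul_eq_zero.mp this with h0 | h0
    · linarith
    · exact absurd h0 hs.ne'
  have hKβ : (0 : ℝ) < K * β := by positivity
  have e1 : (p.1 : ℝ) = p'.1 := by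
    rw [e2] at hre
    have : ((p.1 : ℝ) - p'.1) * (K * β) = 0 := by linarith
    rcases mul_eq_zero.mp this with h0 | h0
    · linarith
    · exact absurd h0 hKβ.ne'
  have e1' : p.1 = p'.1 := by exact_mod_cast e1
  have e2' : p.2 = p'.2 := by exact_mod_cast e2
  exact Prod.ext e1' e2'

lemma Qa_el (hD : DQ Q S σ cj) (hg : 2 * g = b + S) (K β : ℕ) (p : ℤ × ℤ)
    (bb : Ideal (𝓞 F)) (hN : Ideal.absNorm bb = K * β) :
    Qa σ bb (APair.el cj g K β p) = Qz Q K β b p := by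
  unfold Qa Qz
  rw [nsq_el hD hg, hN]
  push_cast
  rfl

lemma phase (h : PQ Q S e d₁ d₂ b a ω g ga) (p : ℤ × ℤ) :
    ee (Qz Q (2 ^ e) (d₁ * d₂) b p * ((a : ℂ) / (2 * Q * (d₁ * d₂ : ℕ)))) =
      ee ((p.1 * ω * p.2 : ℤ) / (2 * (d₁ * d₂ : ℕ))) := by
  obtain ⟨a', ha'⟩ := h.qa
  obtain ⟨c, hc⟩ := h.dvd
  obtain ⟨e', rfl⟩ : ∃ e', e = e' + 1 := ⟨e - 1, by have := h.epos; omega⟩
  have hβ : 0 < d₁ * d₂ := Nat.mul_pos h.odd₁.pos h.odd₂.pos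
  have hq0 : (Q : ℂ) ≠ 0 := by exact_mod_cast h.oddQ.pos.ne'
  have hβ0 : ((d₁ * d₂ : ℕ) : ℂ) ≠ 0 := by exact_mod_cast hβ.ne'
  have hcop : IsCoprime (2 * (d₁ * d₂) : ℤ) (Q : ℤ) := by
    have c2 : Nat.Coprime 2 Q := Nat.coprime_two_left.mpr h.oddQ
    have : Nat.Coprime (2 * (d₁ * d₂)) Q :=
      Nat.Coprime.mul_left c2 (Nat.Coprime.mul_left h.cq₁ h.cq₂)
    have := Nat.isCoprime_iff_coprime.mpr this
    simpa using this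
  have hr : (2 * (d₁ * d₂) : ℤ) ∣ ω + a' * b := by
    apply hcop.dvd_of_dvd_mul_left
    obtain ⟨k, hk⟩ := h.ab
    refine ⟨k * b + 4 * 2 ^ (e' + 1) * (d₁ * d₂) * c * ω, ?_⟩
    have e1 : (Q : ℤ) * (ω + a' * b) = (a - ω * b) * b + ω * (b ^ 2 + Q) := by
      rw [ha']; ring
    rw [e1, hk, hc]
    ring
  obtain ⟨r, hr⟩ := hr
  have hrC : (ω : ℂ) + a' * b = 2 * (d₁ * d₂ : ℕ) * r := by
    have := congrArg (Int.cast : ℤ → ℂ) hr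
    push_cast at this ⊢
    exact this
  have hcC : (b : ℂ) ^ 2 + Q = 8 * 2 ^ (e' + 1) * ((d₁ * d₂ : ℕ) : ℂ) ^ 2 * c := by
    have := congrArg (Int.cast : ℤ → ℂ) hc
    push_cast at this ⊢
    exact this
  have hK0 : (2 ^ (e' + 1) : ℂ) ≠ 0 := pow_ne_zero _ two_ne_zero
  have hQ : ((Qz Q (2 ^ (e' + 1)) (d₁ * d₂) b p : ℝ) : ℂ) =
      2 ^ (e' + 1) * (d₁ * d₂ : ℕ) * p.1 ^ 2 - b * p.1 * p.2 + 2 * (d₁ * d₂ : ℕ) * c * p.2 ^ 2 := by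
    unfold Qz
    rw [Complex.ofReal_div]
    have hden : (((((2 ^ (e' + 1) : ℕ) : ℝ) * ((d₁ * d₂ : ℕ) : ℝ)) : ℝ) : ℂ) =
        2 ^ (e' + 1) * (d₁ * d₂ : ℕ) := by
      push_cast; ring
    rw [hden, div_eq_iff (mul_ne_zero hK0 hβ0)]
    push_cast
    push_cast at hcC
    linear_combination ((p.2 : ℂ) ^ 2 / 4) * hcC
  have key : ((Qz Q (2 ^ (e' + 1)) (d₁ * d₂) b p : ℝ) : ℂ) *
      ((a : ℂ) / (2 * Q * (d₁ * d₂ : ℕ))) = (p.1 * ω * p.2 : ℤ) / (2 * (d₁ * d₂ : ℕ)) +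
        ((2 ^ e' * p.1 ^ 2 * a' + c * p.2 ^ 2 * a' - r * p.1 * p.2 : ℤ) : ℂ) := by
    rw [hQ, ha']
    generalize ((d₁ * d₂ : ℕ) : ℂ) = B at *
    push_cast
    field_simp
    rw [pow_succ]
    linear_combination (-(p.1 : ℂ) * p.2) * hrC
  rw [key, APair.ee_add', APair.ee_int', mul_one]

lemma u_eq (hD : DQ Q S σ cj) (h : PQ Q S e d₁ d₂ b a ω g ga) :
    σ ga / (Q * ((d₁ * d₂ : ℕ) : ℂ)) =
      (((a : ℝ) / (2 * Q * (d₁ * d₂ : ℕ)) : ℝ) : ℂ) +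
        ((1 / (2 * (d₁ * d₂ : ℕ) * Real.sqrt Q) : ℝ) : ℂ) * Complex.I := by
  have hβ : 0 < d₁ * d₂ := Nat.mul_pos h.odd₁.pos h.odd₂.pos
  have hq0 : (Q : ℂ) ≠ 0 := by exact_mod_cast hD.pos.ne'
  have hβ0 : ((d₁ * d₂ : ℕ) : ℂ) ≠ 0 := by exact_mod_cast hβ.ne'
  have hs0 : (Real.sqrt (Q : ℝ) : ℂ) ≠ 0 := by exact_mod_cast (sqrt_pos' hD).ne'
  have h2 : σ (algebraMap (𝓞 F) F ga) = (a + Complex.I * Real.sqrt Q) / 2 := sig hD ga a h.two'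
  show σ (algebraMap (𝓞 F) F ga) / (Q * ((d₁ * d₂ : ℕ) : ℂ)) = _
  rw [h2]
  have hss : (Q : ℂ) = Real.sqrt (Q : ℝ) * Real.sqrt (Q : ℝ) := APair.sqrt_sq'.symm
  simp only [Complex.ofReal_div, Complex.ofReal_mul, Complex.ofReal_intCast, Complex.ofReal_natCast,
    Complex.ofReal_ofNat, Complex.ofReal_one]
  generalize ((d₁ * d₂ : ℕ) : ℂ) = B at *
  rw [hss]
  generalize (Real.sqrt (Q : ℝ) : ℂ) = T at *
  field_simp

lemma u_im (hD : DQ Q S σ cj) (h : PQ Q S e d₁ d₂ b a ω g ga) :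
    (σ ga / (Q * ((d₁ * d₂ : ℕ) : ℂ))).im = 1 / (2 * (d₁ * d₂ : ℕ) * Real.sqrt Q) := by
  rw [u_eq hD h, Complex.add_im, Complex.ofReal_im, Complex.mul_I_im, Complex.ofReal_re, zero_add]

lemma pt_eq (hD : DQ Q S σ cj) (hg : 2 * g = b + S) (K d : ℕ) :
    σ g / ((K : ℕ) * (d : ℂ) ^ 2) = pt Q K d b := by
  have h1 : σ g = (b + Complex.I * Real.sqrt Q) / 2 := sig hD g b hg
  unfold pt
  rw [h1, div_div]

/-- the form takes integral values -/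
lemma Qz_eq (h : PQ Q S e d₁ d₂ b a ω g ga) :
    Odd b ∧ ∃ A C : ℤ, ∀ p : ℤ × ℤ, Qz Q (2 ^ e) (d₁ * d₂) b p =
      ((2 * A * p.1 ^ 2 - b * p.1 * p.2 + 2 * C * p.2 ^ 2 : ℤ) : ℝ) := by
  obtain ⟨c, hc⟩ := h.dvd
  obtain ⟨e', rfl⟩ : ∃ e', e = e' + 1 := ⟨e - 1, by have := h.epos; omega⟩
  have hβ : 0 < d₁ * d₂ := Nat.mul_pos h.odd₁.pos h.odd₂.pos
  have hβ0 : ((d₁ * d₂ : ℕ) : ℝ) ≠ 0 := by exact_mod_cast hβ.ne'
  constructor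
  · by_contra hb
    rw [Int.not_odd_iff_even] at hb
    have h1 : Even (b ^ 2 : ℤ) := hb.pow_of_ne_zero two_ne_zero
    have h2 : Even (b ^ 2 + (Q : ℤ)) := by
      rw [hc, show (8 : ℤ) = 2 * 4 by norm_num]
      exact ((((even_two.mul_right _).mul_right _).mul_right _).mul_right _)
    have h3 : Even (Q : ℤ) := by
      have := (Int.even_add.mp h2).mp h1
      exact this
    have h4 : Odd (Q : ℤ) := by exact_mod_cast h.oddQ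
    exact (Int.not_even_iff_odd.mpr h4) h3
  · refine ⟨2 ^ e' * (d₁ * d₂), (d₁ * d₂) * c, fun p => ?_⟩
    have hcC : (b : ℝ) ^ 2 + Q = 8 * 2 ^ (e' + 1) * ((d₁ * d₂ : ℕ) : ℝ) ^ 2 * c := by
      have := congrArg (Int.cast : ℤ → ℝ) hc
      push_cast at this ⊢
      exact this
    have hK0 : (2 ^ (e' + 1) : ℝ) ≠ 0 := pow_ne_zero _ two_ne_zero
    unfold Qz
    have hden : ((2 ^ (e' + 1) : ℕ) : ℝ) * ((d₁ * d₂ : ℕ) : ℝ) ≠ 0 := by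
      push_cast at hβ0 ⊢
      exact mul_ne_zero hK0 hβ0
    rw [div_eq_iff hden]
    push_cast
    push_cast at hcC
    rw [pow_succ] at hcC ⊢
    linear_combination ((p.2 : ℝ) ^ 2 / 4) * hcC

/-- the sign -/
lemma sign (h : PQ Q S e d₁ d₂ b a ω g ga) (p : ℤ × ℤ) :
    ee (Qz Q (2 ^ e) (d₁ * d₂) b p * (1 / 2)) = (-1 : ℂ) ^ (p.1 * p.2) := by
  obtain ⟨hb, A, C, hQ⟩ := Qz_eq h
  rw [hQ p]
  have key : ∀ m : ℤ, ee ((m : ℂ) * (1 / 2)) = (-1 : ℂ) ^ m := by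
    intro m
    rcases Int.even_or_odd' m with ⟨k, rfl | rfl⟩
    · have e1 : (((2 * k : ℤ) : ℂ) * (1 / 2)) = (k : ℤ) := by
        push_cast
        ring
      rw [e1, APair.ee_int', (even_two_mul k).neg_one_zpow]
    · have e1 : (((2 * k + 1 : ℤ) : ℂ) * (1 / 2)) = (k : ℤ) + 1 / 2 := by
        push_cast
        ring
      have h2 : Odd (2 * k + 1) := odd_two_mul_add_one k
      rw [e1, APair.ee_add', APair.ee_int', one_mul, OPair.ee_half, h2.neg_one_zpow]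
  have e2 : (((2 * A * p.1 ^ 2 - b * p.1 * p.2 + 2 * C * p.2 ^ 2 : ℤ) : ℝ) : ℂ) =
      ((2 * A * p.1 ^ 2 - b * p.1 * p.2 + 2 * C * p.2 ^ 2 : ℤ) : ℂ) := by
    push_cast
    rfl
  rw [e2, key]
  have h3 : Even (2 * A * p.1 ^ 2 - b * p.1 * p.2 + 2 * C * p.2 ^ 2) ↔ Even (p.1 * p.2) := by
    have e3 : 2 * A * p.1 ^ 2 - b * p.1 * p.2 + 2 * C * p.2 ^ 2 =
        2 * (A * p.1 ^ 2 + C * p.2 ^ 2) - b * (p.1 * p.2) := by ring
    rw [e3, Int.even_sub, Int.even_mul (m := b)]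
    have hb' : ¬ Even b := Int.not_even_iff_odd.mpr hb
    simp [hb']
  rcases Int.even_or_odd (p.1 * p.2) with hp | hp
  · rw [(h3.mpr hp).neg_one_zpow, hp.neg_one_zpow]
  · have h4 : Odd (2 * A * p.1 ^ 2 - b * p.1 * p.2 + 2 * C * p.2 ^ 2) := by
      rw [← Int.not_even_iff_odd] at hp ⊢
      rwa [h3]
    rw [h4.neg_one_zpow, hp.neg_one_zpow]

lemma thD_re (hD : DQ Q S σ cj) (h : PQ Q S e d₁ d₂ b a ω g ga)
    (bb : Ideal (𝓞 F)) (hN : Ideal.absNorm bb = 2 ^ e * (d₁ * d₂))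
    (hmem : ∀ x : 𝓞 F, x ∈ latD D bb ↔
      ∃ m k : ℤ, x = ((2 ^ e * (d₁ * d₂) : ℕ) : 𝓞 F) * m - k * cj g) (n : ℕ) (w : ℂ) :
    thD D σ bb n w = ((w.im : ℂ) ^ n)⁻¹ * ∑' p : ℤ × ℤ,
      lag n (4 * Real.pi * Qz Q (2 ^ e) (d₁ * d₂) b p * w.im) *
        ee (Qz Q (2 ^ e) (d₁ * d₂) b p * w) := by
  have hβ : 0 < d₁ * d₂ := Nat.mul_pos h.odd₁.pos h.odd₂.pos
  have hK : 0 < 2 ^ e := Nat.two_pow_pos e
  have hbij : Function.Bijective (fun p : ℤ × ℤ =>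
      (⟨APair.el cj g (2 ^ e) (d₁ * d₂) p, (hmem _).mpr ⟨p.1, p.2, rfl⟩⟩ : latD D bb)) := by
    constructor
    · intro p p' hp
      exact el_inj hD h.two hK hβ (congrArg Subtype.val hp)
    · rintro ⟨x, hx⟩
      obtain ⟨m, k, hmk⟩ := (hmem x).mp hx
      exact ⟨(m, k), Subtype.ext hmk.symm⟩
  unfold thD
  congr 1
  rw [← Equiv.tsum_eq (Equiv.ofBijective _ hbij)]
  apply tsum_congr
  intro p
  show lag n (4 * Real.pi * Qa σ bb (APair.el cj g (2 ^ e) (d₁ * d₂) p) * w.im) *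
      ee (Qa σ bb (APair.el cj g (2 ^ e) (d₁ * d₂) p) * w) = _
  rw [Qa_el hD h.two _ _ _ _ hN]

lemma thD_eq (hD : DQ Q S σ cj)
    (h : PQ Q S e d₁ d₂ b a ω g ga)
    (bb : Ideal (𝓞 F)) (hN : Ideal.absNorm bb = 2 ^ e * (d₁ * d₂))
    (hmem : ∀ x : 𝓞 F, x ∈ latD D bb ↔
      ∃ m k : ℤ, x = ((2 ^ e * (d₁ * d₂) : ℕ) : 𝓞 F) * m - k * cj g) (n : ℕ) :
    2 * 4 ^ n * thD D σ bb n (4 * (σ ga / (Q * ((d₁ * d₂ : ℕ) : ℂ)))) -
      thD D σ bb n (σ ga / (Q * ((d₁ * d₂ : ℕ) : ℂ)) + 1 / 2) =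
      (((1 / (2 * (d₁ * d₂ : ℕ) * Real.sqrt Q) : ℝ) : ℂ) ^ n)⁻¹ *
        (c4 (d₁ * d₂ : ℕ) *
          (Real.sqrt (Real.sqrt Q) / (Real.sqrt ((2 ^ e : ℕ) : ℝ) * 2 ^ n * n.factorial)) *
          (hthO n (pt Q (2 ^ e) d₁ b) * conj (hthO n (pt Q (2 ^ e) d₂ b)))) := by
  have hβ : 0 < d₁ * d₂ := Nat.mul_pos h.odd₁.pos h.odd₂.pos
  have hK : 0 < 2 ^ e := Nat.two_pow_pos e
  have hF := O.fac n Q (2 ^ e) d₁ d₂ b ω hD.pos hK h.odd₁ h.odd₂ h.om₁ h.om₂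
  obtain ⟨hS, -⟩ := A.fac n Q (2 ^ e) d₁ d₂ b ω hD.pos hK h.odd₁.pos h.odd₂.pos h.om₁ h.om₂
  have hs4 : (Real.sqrt (Real.sqrt (Q : ℝ)) : ℂ) ≠ 0 := by
    exact_mod_cast (Real.sqrt_pos.mpr (sqrt_pos' hD)).ne'
  have hsK : (Real.sqrt ((2 ^ e : ℕ) : ℝ) : ℂ) ≠ 0 := by
    have : 0 < Real.sqrt ((2 ^ e : ℕ) : ℝ) := Real.sqrt_pos.mpr (by exact_mod_cast hK)
    exact_mod_cast this.ne'
  have hfa : ((n.factorial : ℕ) : ℂ) ≠ 0 := by exact_mod_cast n.factorial_ne_zero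
  have h2n : (2 ^ n : ℂ) ≠ 0 := pow_ne_zero _ two_ne_zero
  have hc4 : c4 (((d₁ * d₂ : ℕ) : ℤ)) * c4 (((d₁ * d₂ : ℕ) : ℤ)) = 1 :=
    OPair.c4_sq (by exact_mod_cast h.odd₁.mul h.odd₂)
  have hc4e : c4 ((d₁ : ℤ) * (d₂ : ℤ)) = c4 (((d₁ * d₂ : ℕ) : ℤ)) := by
    push_cast
    rfl
  rw [hF]
  have hcancel : ∀ T : ℂ, c4 (((d₁ * d₂ : ℕ) : ℤ)) * ((Real.sqrt (Real.sqrt (Q : ℝ)) : ℂ) /
      (Real.sqrt ((2 ^ e : ℕ) : ℝ) * 2 ^ n * n.factorial)) *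
      (c4 ((d₁ : ℤ) * (d₂ : ℤ)) *
      (Real.sqrt ((2 ^ e : ℕ) : ℝ) * 2 ^ n * n.factorial / Real.sqrt (Real.sqrt (Q : ℝ))) * T) =
      T := by
    intro T
    rw [hc4e]
    generalize (Real.sqrt (Real.sqrt (Q : ℝ)) : ℂ) = A at *
    generalize (Real.sqrt ((2 ^ e : ℕ) : ℝ) : ℂ) = C at *
    generalize ((n.factorial : ℕ) : ℂ) = D at *
    generalize c4 (((d₁ * d₂ : ℕ) : ℤ)) = E at *
    have : E * (A / (C * 2 ^ n * D)) * (E * (C * 2 ^ n * D / A) * T) = (E * E) * T := by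
      field_simp
    rw [this, hc4, one_mul]
  rw [hcancel]
  -- the function
  set Y : ℝ := 1 / (2 * (d₁ * d₂ : ℕ) * Real.sqrt Q) with hY
  set u : ℂ := σ ga / (Q * ((d₁ * d₂ : ℕ) : ℂ)) with hu
  have hum : u.im = Y := u_im hD h
  have hueq : u = (((a : ℝ) / (2 * Q * (d₁ * d₂ : ℕ)) : ℝ) : ℂ) + (Y : ℂ) * Complex.I :=
    u_eq hD h
  have hY0 : (Y : ℂ) ≠ 0 := by
    have h1 := sqrt_pos' hD
    have h2 : (0 : ℝ) < ((d₁ * d₂ : ℕ) : ℝ) := by exact_mod_cast hβ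
    have : 0 < Y := by rw [hY]; positivity
    exact_mod_cast this.ne'
  set G : ℤ × ℤ → ℂ := fun p => lag n (4 * Real.pi * Qz Q (2 ^ e) (d₁ * d₂) b p * Y) *
    ee (Qz Q (2 ^ e) (d₁ * d₂) b p * u) with hG
  have hGeq : ∀ p, G p = lag n (4 * Real.pi * Qz Q (2 ^ e) (d₁ * d₂) b p * Y) *
      ee (Complex.I * Qz Q (2 ^ e) (d₁ * d₂) b p * Y) *
      ee ((p.1 * ω * p.2 : ℤ) / (2 * (d₁ * d₂ : ℕ))) := by
    intro p
    simp only [hG]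
    rw [mul_assoc (lag _ _)]
    congr 1
    rw [← phase h p, ← APair.ee_add', hueq]
    congr 1
    push_cast
    ring
  have hGs : Summable fun p => ‖G p‖ := by
    have e1 : (fun p => ‖G p‖) = fun p : ℤ × ℤ =>
        ‖lag n (4 * Real.pi * Qz Q (2 ^ e) (d₁ * d₂) b p * Y) *
          ee (Complex.I * Qz Q (2 ^ e) (d₁ * d₂) b p * Y)‖ := by
      funext p
      rw [hGeq, norm_mul _ (ee ((p.1 * ω * p.2 : ℤ) / (2 * (d₁ * d₂ : ℕ))))]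
      have e2 : (((p.1 * ω * p.2 : ℤ) : ℂ) / (2 * ((d₁ * d₂ : ℕ) : ℂ))) =
          ((((p.1 * ω * p.2 : ℤ) : ℝ) / (2 * ((d₁ * d₂ : ℕ) : ℝ)) : ℝ) : ℂ) := by
        push_cast
        rfl
      rw [e2, OPair.norm_ee_real, mul_one]
    rw [e1]
    exact hS
  have t1 : thD D σ bb n (4 * u) = ((4 * (Y : ℂ)) ^ n)⁻¹ *
      ∑' p : ℤ × ℤ, G (2 * p.1, 2 * p.2) := by
    rw [thD_re hD h bb hN hmem n (4 * u)]
    have e1 : ((4 * u).im : ℂ) = 4 * (Y : ℂ) := by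
      have : (4 * u).im = 4 * Y := by
        rw [← hum]
        simp
      rw [this]
      push_cast
      rfl
    rw [e1]
    congr 1
    apply tsum_congr
    intro p
    simp only [hG]
    rw [OPair.Qz_two p]
    congr 1
    · congr 1
      push_cast
      ring
    · congr 1
      push_cast
      ring
  have t2 : thD D σ bb n (u + 1 / 2) = ((Y : ℂ) ^ n)⁻¹ *
      ∑' p : ℤ × ℤ, (-1 : ℂ) ^ (p.1 * p.2) * G p := by
    rw [thD_re hD h bb hN hmem n (u + 1 / 2)]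
    have e1 : ((u + 1 / 2).im : ℂ) = (Y : ℂ) := by
      have : (u + 1 / 2).im = Y := by
        rw [← hum, Complex.add_im]
        have : (1 / 2 : ℂ).im = 0 := by norm_num
        rw [this, add_zero]
      rw [this]
    rw [e1]
    congr 1
    apply tsum_congr
    intro p
    rw [← sign h p]
    simp only [hG]
    rw [mul_add, APair.ee_add']
    ring
  rw [t1, t2, mul_pow, mul_inv]
  have h4n : (4 ^ n : ℂ) ≠ 0 := pow_ne_zero _ (by norm_num)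
  have e3 : 2 * 4 ^ n * ((4 ^ n : ℂ)⁻¹ * ((Y : ℂ) ^ n)⁻¹ *
      ∑' p : ℤ × ℤ, G (2 * p.1, 2 * p.2)) - ((Y : ℂ) ^ n)⁻¹ *
        ∑' p : ℤ × ℤ, (-1 : ℂ) ^ (p.1 * p.2) * G p =
      ((Y : ℂ) ^ n)⁻¹ * (2 * ∑' p : ℤ × ℤ, G (2 * p.1, 2 * p.2) -
        ∑' p : ℤ × ℤ, (-1 : ℂ) ^ (p.1 * p.2) * G p) := by
    field_simp
  rw [e3, OPair.combine G hGs]
  congr 1
  apply tsum_congr
  intro p
  rw [hGeq]

lemma odd_of_twA {q D : ℕ} (h : TwA q D) : Odd D := by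
  by_contra hc
  rw [Nat.not_odd_iff_even, even_iff_two_dvd] at hc
  have := h.mod4 2 Nat.prime_two hc
  omega

end

end PairTOAux

open APair PairTOAux in
/-- (T10) -/
theorem stPairTO (h1 : StCMT) : StPairTO := by
  intro q F _ _ s σ χ cj D n e d₁ d₂ b a ω g ga φ hD hT hφ h
  obtain ⟨⟨n1, -⟩, ⟨n2, -⟩, ⟨nK, -⟩, hrp, hmem⟩ :=
    h1 q F _ _ s σ χ cj D e d₁ d₂ b a ω g ga hD hT h
  obtain ⟨c2, c3, -, -⟩ := O.cj q F _ _ s σ χ cj n φ hD hφ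
  have hbs := RZ.stBas q F _ _ s σ χ cj hD
  have c1 : ∀ a : Ideal (𝓞 F), a.map (cj : 𝓞 F →+* 𝓞 F) * a =
      Ideal.span {(Ideal.absNorm a : 𝓞 F)} := fun a => by
    rw [mul_comm]
    exact hbs.2.2.2.2.2.2.1 a
  have hDodd := odd_of_twA hT
  have hqodd : Odd q := by
    have h1 := hD.mod
    exact Nat.odd_iff.mpr (by omega)
  have hQpos : 0 < q * D ^ 2 := Nat.mul_pos hD.prime.pos (pow_pos hDodd.pos 2)
  have hDQ : DQ (q * D ^ 2) ((D : 𝓞 F) * s) σ cj := by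
    refine ⟨hQpos, ?_, hD.conjσ⟩
    have e1 : σ (algebraMap (𝓞 F) F ((D : 𝓞 F) * s)) = D * (Complex.I * Real.sqrt q) := by
      rw [map_mul, map_mul, map_natCast, map_natCast]
      have : σ (algebraMap (𝓞 F) F s) = Complex.I * Real.sqrt q := hD.im
      rw [this]
    show σ (algebraMap (𝓞 F) F ((D : 𝓞 F) * s)) = _
    rw [e1]
    push_cast
    rw [Real.sqrt_mul (Nat.cast_nonneg q), Real.sqrt_sq (Nat.cast_nonneg D)]
    push_cast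
    ring
  have hPQ : PQ (q * D ^ 2) ((D : 𝓞 F) * s) e d₁ d₂ b a ω g ga := by
    have cc : ∀ d : ℕ, d.Coprime (q * D) → d.Coprime (q * D ^ 2) := by
      intro d hd
      have h1 := Nat.Coprime.coprime_mul_right_right hd
      have h2 := Nat.Coprime.coprime_mul_left_right hd
      exact Nat.Coprime.mul_right h1 (Nat.Coprime.pow_right 2 h2)
    refine ⟨h.epos, hqodd.mul (hDodd.pow), h.odd₁, h.odd₂, cc _ h.cq₁, cc _ h.cq₂, ?_, h.two,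
      h.om₁, h.om₂, ?_, h.ab, h.two'⟩
    · have := h.dvd
      push_cast
      exact this
    · have := h.qa
      push_cast
      exact this
  have hd1 := h.odd₁.pos
  have hd2 := h.odd₂.pos
  have hβ : 0 < d₁ * d₂ := Nat.mul_pos hd1 hd2
  have hK : 0 < 2 ^ e := Nat.two_pow_pos e
  set D1 := idl g d₁ with hD1
  set D2 := idl g d₂ with hD2
  set P := idl g (2 ^ e) with hP
  have nA : Ideal.absNorm (D1 * D2.map (cj : 𝓞 F →+* 𝓞 F)) = d₁ * d₂ := by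
    rw [map_mul, norm_conj hD c1 D2 (by rw [n2]; exact hd2.ne'), n1, n2]
  have nB : Ideal.absNorm ((P * D1 * D2).map (cj : 𝓞 F →+* 𝓞 F)) = 2 ^ e * (d₁ * d₂) := by
    have e1 : Ideal.absNorm (P * D1 * D2) = 2 ^ e * (d₁ * d₂) := by
      rw [map_mul, map_mul, nK, n1, n2, mul_assoc]
    rw [norm_conj hD c1 _ (by rw [e1]; positivity), e1]
  -- the ideal is prime to `s`
  have hcop : IsCoprime (D1 * D2.map (cj : 𝓞 F →+* 𝓞 F)) (Ideal.span {s}) := by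
    rw [Ideal.isCoprime_iff_exists]
    have hc : IsCoprime ((d₁ * d₂ : ℕ) : ℤ) (q : ℤ) :=
      Nat.isCoprime_iff_coprime.mpr (Nat.Coprime.mul_left
        (Nat.Coprime.coprime_mul_right_right h.cq₁) (Nat.Coprime.coprime_mul_right_right h.cq₂))
    obtain ⟨u, v, huv⟩ := hc
    have hβm : ((d₁ * d₂ : ℕ) : 𝓞 F) ∈ D1 * D2.map (cj : 𝓞 F →+* 𝓞 F) := by
      have := Ideal.absNorm_mem (D1 * D2.map (cj : 𝓞 F →+* 𝓞 F))
      rwa [nA] at this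
    refine ⟨(u : 𝓞 F) * ((d₁ * d₂ : ℕ) : 𝓞 F), Ideal.mul_mem_left _ _ hβm, (v : 𝓞 F) * (q : 𝓞 F),
      ?_, ?_⟩
    · rw [Ideal.mem_span_singleton]
      refine ⟨-(v * s), ?_⟩
      linear_combination (v : 𝓞 F) * hD.sq
    · have := congrArg (Int.cast : ℤ → 𝓞 F) huv
      push_cast at this ⊢
      exact this
  have hφA : φ (D1 * D2.map (cj : 𝓞 F →+* 𝓞 F)) ≠ 0 := by
    intro h0
    have := c3 _ hcop (by rw [nA]; exact h.odd₁.mul h.odd₂)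
    rw [h0, nA, norm_zero, zero_pow two_ne_zero] at this
    have hp : (0 : ℝ) < ((d₁ * d₂ : ℕ) : ℝ) ^ (2 * n + 1) := by positivity
    exact hp.ne this
  have hφ2 : (φ (D1 * D2.map (cj : 𝓞 F →+* 𝓞 F)))⁻¹ * φ (Ideal.span {((d₁ * d₂ : ℕ) : 𝓞 F)}) =
      conj (φ D1) * φ D2 := by
    have e1 := c1 (D1 * D2.map (cj : 𝓞 F →+* 𝓞 F))
    rw [nA] at e1
    have e2 : φ (Ideal.span {((d₁ * d₂ : ℕ) : 𝓞 F)}) =
        φ ((D1 * D2.map (cj : 𝓞 F →+* 𝓞 F)).map (cj : 𝓞 F →+* 𝓞 F)) *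
          φ (D1 * D2.map (cj : 𝓞 F →+* 𝓞 F)) := by
      rw [← e1]
      exact map_mul φ _ _
    rw [e2, mul_comm (φ (Ideal.map _ _)), inv_mul_cancel_left₀ hφA, c2, map_mul φ, c2,
      map_mul, Complex.conj_conj]
  unfold GTO
  have hden : ((q : ℂ) * D ^ 2 * ((d₁ * d₂ : ℕ) : ℂ)) =
      ((q * D ^ 2 : ℕ) : ℂ) * ((d₁ * d₂ : ℕ) : ℂ) := by
    push_cast
    ring
  rw [hden, hφ2, thD_eq hDQ hPQ _ nB hmem n, u_im hDQ hPQ, pt_eq hDQ h.two, pt_eq hDQ h.two]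
  generalize q * D ^ 2 = Q at *
  have hc4c : conj (c4 (((d₁ * d₂ : ℕ) : ℤ))) = c4 ((d₁ : ℤ) * (d₂ : ℤ)) := by
    have e1 : (((d₁ * d₂ : ℕ) : ℤ)) = (d₁ : ℤ) * (d₂ : ℤ) := by push_cast; rfl
    rw [e1]
    unfold c4
    exact map_intCast _ _
  simp only [map_mul, map_div₀, map_inv₀, map_pow, Complex.conj_ofReal, Complex.conj_conj,
    map_natCast, map_ofNat]
  rw [hc4c]
  have hy : ((1 / (2 * (d₁ * d₂ : ℕ) * Real.sqrt Q) : ℝ) : ℂ) =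
      ((2 * Real.sqrt Q : ℂ))⁻¹ * (d₁ : ℂ)⁻¹ * (d₂ : ℂ)⁻¹ := by
    push_cast
    rw [one_div, mul_inv, mul_inv, mul_inv, mul_inv]
    ring
  have hs0 : (Real.sqrt (Q : ℝ) : ℂ) ≠ 0 := by exact_mod_cast (sqrt_pos' hDQ).ne'
  have hd1' : (d₁ : ℂ) ≠ 0 := by exact_mod_cast hd1.ne'
  have hd2' : (d₂ : ℂ) ≠ 0 := by exact_mod_cast hd2.ne'
  rw [hy]
  have hyn : ((2 * Real.sqrt Q : ℂ))⁻¹ * (d₁ : ℂ)⁻¹ * (d₂ : ℂ)⁻¹ ≠ 0 :=
    mul_ne_zero (mul_ne_zero (inv_ne_zero (mul_ne_zero two_ne_zero hs0)) (inv_ne_zero hd1'))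
      (inv_ne_zero hd2')
  have hpow : (((2 * Real.sqrt Q : ℂ))⁻¹ * (d₁ : ℂ)⁻¹ * (d₂ : ℂ)⁻¹) ^ (2 * n + 1) *
      ((((2 * Real.sqrt Q : ℂ))⁻¹ * (d₁ : ℂ)⁻¹ * (d₂ : ℂ)⁻¹) ^ n)⁻¹ =
      ((2 * Real.sqrt Q : ℂ) ^ (n + 1))⁻¹ * ((d₁ : ℂ) ^ (n + 1))⁻¹ * ((d₂ : ℂ) ^ (n + 1))⁻¹ := by
    rw [show 2 * n + 1 = (n + 1) + n by ring, pow_add _ (n + 1) n,
      mul_inv_cancel_right₀ (pow_ne_zero _ hyn), mul_pow, mul_pow, inv_pow, inv_pow, inv_pow]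
  generalize hthO n (pt Q (2 ^ e) d₁ b) = H1
  generalize hthO n (pt Q (2 ^ e) d₂ b) = H2
  generalize c4 ((d₁ : ℤ) * (d₂ : ℤ)) = C4
  calc _ = conj (φ D1) * φ D2 * ((((2 * Real.sqrt Q : ℂ))⁻¹ * (d₁ : ℂ)⁻¹ * (d₂ : ℂ)⁻¹) ^ (2 * n + 1) *
      ((((2 * Real.sqrt Q : ℂ))⁻¹ * (d₁ : ℂ)⁻¹ * (d₂ : ℂ)⁻¹) ^ n)⁻¹) *
      (C4 * (Real.sqrt (Real.sqrt Q) / (Real.sqrt ((2 ^ e : ℕ) : ℝ) * 2 ^ n * n.factorial)) *
          (conj H1 * H2)) := by ring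
    _ = _ := by
      rw [hpow]
      ring

end Pool.Agent.Lib.MP_7c08ba_nt.CN.TW
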