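import Pool.Agent.Lib.MP_7c08ba_nt.CN.T.StP
import Pool.Agent.Lib.MP_7c08ba_nt.RZ.C.Link

set_option autoImplicit false

/-!
Project TW, module Xint: integrality of `x` at the points of odd order.
-/

namespace Pool.Agent.Lib.MP_7c08ba_nt.CN.TW

open RZC

namespace XintAux

lemma pi_ne : (Real.pi : ℂ) ≠ 0 := by exact_mod_cast Real.pi_ne_zero

lemma dl_eq {w₁ w₂ : ℂ} (h : Pos w₁ w₂) :
    1728 * dl w₁ w₂ = e4 w₁ w₂ ^ 3 - e6 w₁ w₂ ^ 2 := by
  rw [dl, e4, e6, LF_eq h, LF_eq h, LF_eq h, ModularForm.discriminant_eq_E₄_cube_sub_E₆_sq]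
  have := h.ne
  field_simp

/-- the duplication formula for `x` -/
lemma dup_x (hD : StDup) (L : PeriodPair) (hp : Pos L.ω₁ L.ω₂) (hE : e4 L.ω₁ L.ω₂ ≠ 0)
    (hF : e6 L.ω₁ L.ω₂ ≠ 0) (z : ℂ) (hz : z ∉ L.lattice) (hz2 : 2 * z ∉ L.lattice) :
    xP L (2 * z) * (4 * xP L z ^ 3 + xP L z ^ 2 -
      144 * (dl L.ω₁ L.ω₂ / e6 L.ω₁ L.ω₂ ^ 2) * xP L z -
        4 * (dl L.ω₁ L.ω₂ / e6 L.ω₁ L.ω₂ ^ 2)) =
      xP L z ^ 4 + 72 * (dl L.ω₁ L.ω₂ / e6 L.ω₁ L.ω₂ ^ 2) * xP L z ^ 2 +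
        8 * (dl L.ω₁ L.ω₂ / e6 L.ω₁ L.ω₂ ^ 2) * xP L z + dl L.ω₁ L.ω₂ / e6 L.ω₁ L.ω₂ ^ 2 +
        1296 * (dl L.ω₁ L.ω₂ / e6 L.ω₁ L.ω₂ ^ 2) ^ 2 := by
  have h := (hD L z hz hz2).2
  obtain ⟨h2, h3⟩ := stLink L hp
  have hd := dl_eq hp
  have hpi := pi_ne
  rw [h2, h3] at h
  unfold xP
  generalize L.weierstrassP (2 * z) = Q at *
  generalize L.weierstrassP z = P at *
  generalize e4 L.ω₁ L.ω₂ = E at *
  generalize e6 L.ω₁ L.ω₂ = F at *
  have hd' : dl L.ω₁ L.ω₂ = (E ^ 3 - F ^ 2) / 1728 := by rw [← hd]; ring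
  rw [hd']
  generalize (Real.pi : ℂ) = p at *
  have key : ∀ a b : ℂ, a = b → E ^ 4 / (256 * p ^ 8 * F ^ 4) * (a - b) = 0 := by
    intro a b hab
    rw [hab, sub_self, mul_zero]
  have h' := key _ _ h
  rw [← sub_eq_zero, ← h']
  field_simp
  ring

lemma ord_e6 {A : ValuationSubring ℂ} {w₁ w₂ : ℂ} (hA : Above2 A) (hO : Ord A w₁ w₂) :
    e6 w₁ w₂ ≠ 0 ∧ dl w₁ w₂ / e6 w₁ w₂ ^ 2 ∈ A := by
  obtain ⟨hp, hE, hj⟩ := hO
  have h2 : A.valuation 2 < 1 := (A.mem_nonunits_iff).1 hA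
  have hj' : A.valuation (jv w₁ w₂) ≤ 1 := (A.valuation_le_one_iff _).2 hj
  have hd := dl_eq hp
  have h1728 : A.valuation 1728 < 1 := by
    rw [show (1728 : ℂ) = 2 * 864 by norm_num, map_mul]
    have : A.valuation (864 : ℂ) ≤ 1 := by
      have := A.valuation_le_one ⟨(864 : ℂ), by exact_mod_cast natCast_mem A 864⟩
      exact this
    exact lt_of_le_of_lt (mul_le_of_le_one_right' this) h2
  have hlt : A.valuation (-(1728 * jv w₁ w₂)) < A.valuation 1 := by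
    rw [Valuation.map_neg, map_mul, map_one]
    exact lt_of_le_of_lt (mul_le_of_le_one_right' hj') h1728
  have hu : A.valuation (1 + -(1728 * jv w₁ w₂)) = 1 := by
    rw [Valuation.map_add_eq_of_lt_left _ hlt, map_one]
  have hre : e6 w₁ w₂ ^ 2 = e4 w₁ w₂ ^ 3 * (1 + -(1728 * jv w₁ w₂)) := by
    unfold jv
    field_simp
    linear_combination hd
  have hu0 : (1 + -(1728 * jv w₁ w₂)) ≠ 0 := by
    intro h
    rw [h, map_zero] at hu
    exact zero_ne_one hu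
  have hF : e6 w₁ w₂ ≠ 0 := by
    intro h
    rw [h] at hre
    exact (mul_ne_zero (pow_ne_zero 3 hE) hu0) (by rw [← hre]; ring)
  refine ⟨hF, ?_⟩
  have hk : dl w₁ w₂ / e6 w₁ w₂ ^ 2 = jv w₁ w₂ * (1 + -(1728 * jv w₁ w₂))⁻¹ := by
    rw [hre]
    unfold jv
    field_simp
  rw [hk]
  refine A.mul_mem _ _ hj ?_
  rw [← A.valuation_le_one_iff, map_inv₀, hu, inv_one]

/-- one step of the descent -/
lemma step {A : ValuationSubring ℂ} (hA : Above2 A) {κ x y : ℂ} (hκ : κ ∈ A)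
    (hx : 1 < A.valuation x)
    (h : y * (4 * x ^ 3 + x ^ 2 - 144 * κ * x - 4 * κ) =
      x ^ 4 + 72 * κ * x ^ 2 + 8 * κ * x + κ + 1296 * κ ^ 2) :
    A.valuation x < A.valuation y := by
  have h2 : A.valuation 2 < 1 := (A.mem_nonunits_iff).1 hA
  have hk : A.valuation κ ≤ 1 := (A.valuation_le_one_iff _).2 hκ
  have hn : ∀ n : ℕ, A.valuation (n : ℂ) ≤ 1 := fun n =>
    (A.valuation_le_one_iff _).2 (natCast_mem A n)
  have hx0 : 0 < A.valuation x := lt_trans zero_lt_one hx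
  have hpow : ∀ {m n : ℕ}, m < n → A.valuation x ^ m < A.valuation x ^ n :=
    fun hmn => pow_lt_pow_right₀ hx hmn
  have hterm : ∀ (c : ℂ) (m : ℕ), A.valuation c ≤ 1 → A.valuation (c * x ^ m) ≤
      A.valuation x ^ m := by
    intro c m hc
    rw [map_mul, map_pow]
    exact mul_le_of_le_one_left' hc
  have hnk : ∀ n : ℕ, A.valuation ((n : ℂ) * κ) ≤ 1 := by
    intro n
    rw [map_mul]
    exact mul_le_one' (hn n) hk
  have hR : A.valuation (((72 : ℕ) : ℂ) * κ * x ^ 2 + ((8 : ℕ) : ℂ) * κ * x ^ 1 +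
      (((1 : ℕ) : ℂ) * κ + ((1296 : ℕ) : ℂ) * κ * κ) * x ^ 0) < A.valuation (x ^ 4) := by
    rw [map_pow]
    refine A.valuation.map_add_lt (A.valuation.map_add_lt ?_ ?_) ?_
    · exact lt_of_le_of_lt (hterm _ 2 (hnk 72)) (hpow (by norm_num))
    · exact lt_of_le_of_lt (hterm _ 1 (hnk 8)) (hpow (by norm_num))
    · refine lt_of_le_of_lt (hterm _ 0 ?_) (hpow (by norm_num))
      refine A.valuation.map_add_le (hnk 1) ?_
      rw [map_mul]
      exact mul_le_one' (hnk 1296) hk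
  have hN : A.valuation (x ^ 4 + 72 * κ * x ^ 2 + 8 * κ * x + κ + 1296 * κ ^ 2) =
      A.valuation x ^ 4 := by
    have he : x ^ 4 + 72 * κ * x ^ 2 + 8 * κ * x + κ + 1296 * κ ^ 2 = x ^ 4 +
        (((72 : ℕ) : ℂ) * κ * x ^ 2 + ((8 : ℕ) : ℂ) * κ * x ^ 1 +
          (((1 : ℕ) : ℂ) * κ + ((1296 : ℕ) : ℂ) * κ * κ) * x ^ 0) := by
      push_cast
      ring
    rw [he, Valuation.map_add_eq_of_lt_left _ hR, map_pow]
  have hD : A.valuation (4 * x ^ 3 + x ^ 2 - 144 * κ * x - 4 * κ) < A.valuation x ^ 3 := by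
    have he : 4 * x ^ 3 + x ^ 2 - 144 * κ * x - 4 * κ = 2 * (((2 : ℕ) : ℂ) * x ^ 3) +
        ((1 : ℕ) : ℂ) * x ^ 2 + (-(((144 : ℕ) : ℂ) * κ)) * x ^ 1 +
          (-(((4 : ℕ) : ℂ) * κ)) * x ^ 0 := by
      push_cast
      ring
    rw [he]
    refine A.valuation.map_add_lt (A.valuation.map_add_lt (A.valuation.map_add_lt ?_ ?_) ?_) ?_
    · rw [map_mul]
      refine lt_of_le_of_lt (mul_le_mul_right (hterm _ 3 (hn 2)) _) ?_
      have h3 : 0 < A.valuation x ^ 3 := pow_pos hx0 3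
      calc A.valuation 2 * A.valuation x ^ 3 < 1 * A.valuation x ^ 3 :=
            mul_lt_mul_of_pos_right h2 h3
        _ = A.valuation x ^ 3 := one_mul _
    · exact lt_of_le_of_lt (hterm _ 2 (hn 1)) (hpow (by norm_num))
    · refine lt_of_le_of_lt (hterm _ 1 ?_) (hpow (by norm_num))
      rw [Valuation.map_neg]
      exact hnk 144
    · refine lt_of_le_of_lt (hterm _ 0 ?_) (hpow (by norm_num))
      rw [Valuation.map_neg]
      exact hnk 4
  by_contra hy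
  rw [not_lt] at hy
  have h4 : A.valuation x ^ 4 = A.valuation y *
      A.valuation (4 * x ^ 3 + x ^ 2 - 144 * κ * x - 4 * κ) := by
    rw [← hN, ← h, map_mul]
  have h5 : A.valuation y * A.valuation (4 * x ^ 3 + x ^ 2 - 144 * κ * x - 4 * κ) <
      A.valuation x ^ 4 := by
    calc A.valuation y * A.valuation (4 * x ^ 3 + x ^ 2 - 144 * κ * x - 4 * κ) ≤
          A.valuation x * A.valuation (4 * x ^ 3 + x ^ 2 - 144 * κ * x - 4 * κ) := by
          exact mul_le_mul_left hy _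
      _ < A.valuation x * A.valuation x ^ 3 := mul_lt_mul_of_pos_left hD hx0
      _ = A.valuation x ^ 4 := by rw [pow_succ' (A.valuation x) 3]
  exact absurd h4.symm h5.ne

end XintAux

theorem stXint (h : StDup) : StXint := by
  intro A L hA hO N z hN hNz hz
  obtain ⟨hF, hκ⟩ := XintAux.ord_e6 hA hO
  obtain ⟨hp, hE, -⟩ := hO
  by_contra hx
  have hx1 : 1 < A.valuation (xP L z) := by
    rw [← not_le, A.valuation_le_one_iff]
    exact hx
  have hmem : ∀ j : ℕ, (2 : ℂ) ^ j * z ∉ L.lattice := by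
    intro j hj
    apply hz
    have hc : IsCoprime ((2 : ℤ) ^ j) (N : ℤ) := by
      refine IsCoprime.pow_left ?_
      have : Nat.Coprime 2 N := (Nat.coprime_two_left).2 hN
      exact Nat.isCoprime_iff_coprime.2 this
    obtain ⟨a, b, hab⟩ := hc
    have h1 : z = a • ((2 : ℂ) ^ j * z) + b • ((N : ℂ) * z) := by
      have : ((a * 2 ^ j + b * N : ℤ) : ℂ) = 1 := by rw [hab]; simp
      rw [zsmul_eq_mul, zsmul_eq_mul]
      push_cast at this
      linear_combination -z * this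
    rw [h1]
    exact L.lattice.add_mem (L.lattice.smul_mem a hj) (L.lattice.smul_mem b hNz)
  have hstep : ∀ j : ℕ, 1 < A.valuation (xP L ((2 : ℂ) ^ j * z)) ∧
      A.valuation (xP L ((2 : ℂ) ^ j * z)) < A.valuation (xP L ((2 : ℂ) ^ (j + 1) * z)) := by
    intro j
    induction j with
    | zero =>
      have h1 : 1 < A.valuation (xP L ((2 : ℂ) ^ 0 * z)) := by rwa [pow_zero, one_mul]
      refine ⟨h1, XintAux.step hA hκ h1 ?_⟩
      have := XintAux.dup_x h L hp hE hF ((2 : ℂ) ^ 0 * z) (hmem 0)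
        (by rw [← mul_assoc, ← pow_succ']; exact hmem 1)
      rw [← mul_assoc, ← pow_succ'] at this
      exact this
    | succ j ih =>
      have h1 := lt_trans ih.1 ih.2
      refine ⟨h1, XintAux.step hA hκ h1 ?_⟩
      have := XintAux.dup_x h L hp hE hF ((2 : ℂ) ^ (j + 1) * z) (hmem (j + 1))
        (by rw [← mul_assoc, ← pow_succ']; exact hmem (j + 1 + 1))
      rw [← mul_assoc, ← pow_succ'] at this
      exact this
  have hmono : StrictMono fun j : ℕ => A.valuation (xP L ((2 : ℂ) ^ j * z)) :=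
    strictMono_nat_of_lt_succ fun j => (hstep j).2
  have hN0 : 0 < N := hN.pos
  have hphi : 0 < N.totient := Nat.totient_pos.2 hN0
  have hlt := hmono hphi
  have hper : xP L ((2 : ℂ) ^ N.totient * z) = xP L ((2 : ℂ) ^ 0 * z) := by
    have hcop : Nat.Coprime 2 N := (Nat.coprime_two_left).2 hN
    have hmod := Nat.ModEq.pow_totient hcop
    have hdvd : (N : ℤ) ∣ (2 : ℤ) ^ N.totient - 1 := by
      have := (Nat.modEq_iff_dvd.1 hmod.symm)
      exact_mod_cast this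
    obtain ⟨c, hc⟩ := hdvd
    have hl : (c : ℤ) • ((N : ℂ) * z) ∈ L.lattice := L.lattice.smul_mem c hNz
    have he : (2 : ℂ) ^ N.totient * z = z + ((⟨(c : ℤ) • ((N : ℂ) * z), hl⟩ : L.lattice) : ℂ) := by
      have h1 : ((2 : ℤ) ^ N.totient - 1 : ℂ) = (N : ℂ) * (c : ℂ) := by exact_mod_cast hc
      show (2 : ℂ) ^ N.totient * z = z + (c : ℤ) • ((N : ℂ) * z)
      rw [zsmul_eq_mul]
      push_cast at h1
      linear_combination z * h1
    rw [pow_zero, one_mul, he]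
    unfold xP
    rw [L.weierstrassP_add_coe]
  simp only [hper] at hlt
  exact absurd hlt (lt_irrefl _)

end Pool.Agent.Lib.MP_7c08ba_nt.CN.TW
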